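import Mathlib
import Pool.Agent.P157D.Defs

/-!
Forms of type `(0, 1)` on open subsets of `ℂ²`, the equation `∂̄ u = f dx̄₁ + h dx̄₂`, defining functions.
-/

set_option autoImplicit false

open MeasureTheory Metric Set Filter Topology Complex

namespace Pool.Agent.P157G

/-- `∂u/∂x̄₁` -/
noncomputable def db1 (u : ℂ × ℂ → ℂ) (x : ℂ × ℂ) : ℂ :=
  (fderiv ℝ u x (1, 0) + Complex.I * fderiv ℝ u x (Complex.I, 0)) / 2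

/-- `∂u/∂x̄₂` -/
noncomputable def db2 (u : ℂ × ℂ → ℂ) (x : ℂ × ℂ) : ℂ :=
  (fderiv ℝ u x (0, 1) + Complex.I * fderiv ℝ u x (0, Complex.I)) / 2

/-- `f dx̄₁ + h dx̄₂` is a closed form of class `C¹` on `D`, with coefficients bounded by `M` -/
structure Fm (D : Set (ℂ × ℂ)) (M : ℝ) (f h : ℂ × ℂ → ℂ) : Prop where
  f1 : ContDiffOn ℝ 1 f D
  h1 : ContDiffOn ℝ 1 h D
  cl : ∀ x ∈ D, db1 h x = db2 f x
  fb : ∀ x ∈ D, ‖f x‖ ≤ M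
  hb : ∀ x ∈ D, ‖h x‖ ≤ M

/-- `u` is a solution of `∂̄ u = f dx̄₁ + h dx̄₂` on `D`, of class `C¹` and bounded by `M` -/
structure So (D : Set (ℂ × ℂ)) (M : ℝ) (f h u : ℂ × ℂ → ℂ) : Prop where
  u1 : ContDiffOn ℝ 1 u D
  e1 : ∀ x ∈ D, db1 u x = f x
  e2 : ∀ x ∈ D, db2 u x = h x
  ub : ∀ x ∈ D, ‖u x‖ ≤ M

/-- every closed form on `D'` with coefficients bounded by `M` has on `D ⊆ D'` a solution bounded
by `C M` -/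
def Slv (D' D : Set (ℂ × ℂ)) (C : ℝ) : Prop :=
  ∀ (f h : ℂ × ℂ → ℂ) (M : ℝ), Fm D' M f h → ∃ u, So D (C * M) f h u

/-- every bounded closed form on `D` is, up to `∂̄` of a bounded function, the restriction of a bounded
closed form on `D'`, with bounds -/
def Bmp (D D' : Set (ℂ × ℂ)) (C : ℝ) : Prop :=
  ∀ (f h : ℂ × ℂ → ℂ) (M : ℝ), 0 ≤ M → Fm D M f h → ∃ f' h' u, Fm D' (C * M) f' h' ∧
    So D (C * M) (fun x => f x - f' x) (fun x => h x - h' x) u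

/-- the Cauchy transform in the second variable -/
noncomputable def CT2 (g : ℂ × ℂ → ℂ) (x : ℂ × ℂ) : ℂ :=
  (1 / Real.pi : ℂ) * ∫ ζ : ℂ, g (x.1, ζ) / (x.2 - ζ)

/-- the support function of the domain `{R > 0}` -/
noncomputable def PH (R : ℂ × ℂ → ℝ) (s p : ℂ × ℂ) : ℂ :=
  (R s : ℂ) + Pool.Agent.P157D.d1 R s * (p.1 - s.1) + Pool.Agent.P157D.d2 R s * (p.2 - s.2)

/-- `∂ρ(x) v` -/
noncomputable def dd (ρ : ℂ × ℂ → ℝ) (x v : ℂ × ℂ) : ℂ :=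
  Pool.Agent.P157D.d1 ρ x * v.1 + Pool.Agent.P157D.d2 ρ x * v.2

/-- the Levi form (up to the factor 4) -/
noncomputable def lv (ρ : ℂ × ℂ → ℝ) (x v : ℂ × ℂ) : ℝ :=
  fderiv ℝ (fderiv ℝ ρ) x v v +
    fderiv ℝ (fderiv ℝ ρ) x (Complex.I • v) (Complex.I • v)

/-- `{ρ < 0}` is a bounded strictly pseudoconvex open set -/
structure NF (ρ : ℂ × ℂ → ℝ) : Prop where
  smooth : ContDiff ℝ 2 ρ
  bdd : Bornology.IsBounded {x | ρ x ≤ 0}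
  nd : ∀ x, ρ x = 0 → fderiv ℝ ρ x ≠ 0
  levi : ∀ x, ρ x = 0 → ∀ v : ℂ × ℂ, v ≠ 0 → dd ρ x v = 0 → 0 < lv ρ x v

/-- `g` is holomorphic on `D` and bounded by `M` -/
def HBd (D : Set (ℂ × ℂ)) (M : ℝ) (g : ℂ × ℂ → ℂ) : Prop :=
  DifferentiableOn ℂ g D ∧ ∀ x ∈ D, ‖g x‖ ≤ M

/-- division: functions on `D` which near `p` are in the ideal of `x₁ - p₁`, `x₂ - p₂` are in this ideal, with bounds -/
def Dv (D : Set (ℂ × ℂ)) (p : ℂ × ℂ) (r C : ℝ) : Prop :=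
  ∀ (g g1 g2 : ℂ × ℂ → ℂ) (M : ℝ), 0 ≤ M → HBd D M g → HBd (D ∩ ball p r) M g1 →
    HBd (D ∩ ball p r) M g2 →
    (∀ x ∈ D ∩ ball p r, g x = (x.1 - p.1) * g1 x + (x.2 - p.2) * g2 x) →
    ∃ G1 G2, HBd D (C * M) G1 ∧ HBd D (C * M) G2 ∧
      ∀ x ∈ D, g x = (x.1 - p.1) * G1 x + (x.2 - p.2) * G2 x

/-- localisation: functions on `D ∩ ball p r` are, near `p`, sums of functions on `D` and functions in
the ideal of `x₁ - p₁`, `x₂ - p₂` of a full neighbourhood of `p`, with bounds -/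
def Lcz (D : Set (ℂ × ℂ)) (p : ℂ × ℂ) (r r' C : ℝ) : Prop :=
  ∀ (g : ℂ × ℂ → ℂ) (M : ℝ), 0 ≤ M → HBd (D ∩ ball p r) M g →
    ∃ G U1 U2, HBd D (C * M) G ∧ HBd (ball p r') (C * M) U1 ∧ HBd (ball p r') (C * M) U2 ∧
      ∀ x ∈ D ∩ ball p r', G x = g x - ((x.1 - p.1) * U1 x + (x.2 - p.2) * U2 x)

/-- `ρ` and `ρ'` are `ε`-close in `C²` -/
def Cls (ε : ℝ) (ρ ρ' : ℂ × ℂ → ℝ) : Prop :=
  ContDiff ℝ 2 ρ' ∧ ∀ x, |ρ x - ρ' x| ≤ ε ∧ ‖fderiv ℝ ρ x - fderiv ℝ ρ' x‖ ≤ ε ∧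
    ‖fderiv ℝ (fderiv ℝ ρ) x - fderiv ℝ (fderiv ℝ ρ') x‖ ≤ ε

end Pool.Agent.P157G
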