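import Mathlib
import Pool.Agent.P157G.Defs
import Pool.Agent.H720R2.Cor.Lim

/-!
The Banach algebra of bounded families of holomorphic functions on an open set `D` of `ℂ²`.
-/

set_option autoImplicit false

open MeasureTheory Metric Set Filter Topology Complex WeakDual

namespace Pool.Agent.P157G

/-- the algebra of bounded families (indexed by `I`) of holomorphic functions on `D` -/
noncomputable def HA (I : Type) [TopologicalSpace I] {D : Set (ℂ × ℂ)} (_ : IsOpen D) :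
    Subalgebra ℂ (BoundedContinuousFunction (I × D) ℂ) where
  carrier := {F | ∀ k, ∃ f : ℂ × ℂ → ℂ, DifferentiableOn ℂ f D ∧ ∀ z : D, F (k, z) = f z}
  mul_mem' := by
    rintro F G hF hG k
    obtain ⟨f, hf, hF⟩ := hF k
    obtain ⟨g, hg, hG⟩ := hG k
    refine ⟨fun z => f z * g z, hf.mul hg, fun z => ?_⟩
    rw [BoundedContinuousFunction.mul_apply, hF, hG]
  add_mem' := by
    rintro F G hF hG k
    obtain ⟨f, hf, hF⟩ := hF k
    obtain ⟨g, hg, hG⟩ := hG k
    refine ⟨fun z => f z + g z, hf.add hg, fun z => ?_⟩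
    rw [BoundedContinuousFunction.add_apply, hF, hG]
  algebraMap_mem' := by
    intro c k
    exact ⟨fun _ => c, differentiableOn_const _, fun z => rfl⟩

variable {I : Type} [TopologicalSpace I] {D : Set (ℂ × ℂ)} {hD : IsOpen D}

theorem isClosed_HA : IsClosed ((HA I hD : Subalgebra ℂ (BoundedContinuousFunction (I × D) ℂ)) :
    Set (BoundedContinuousFunction (I × D) ℂ)) := by
  apply IsSeqClosed.isClosed
  intro F G hF hG i
  choose f hf hFf using fun k => hF k i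
  have hbd : ∃ C : ℝ, ∀ k, ‖F k‖ ≤ C := by
    obtain ⟨C, hC⟩ := hG.norm.bddAbove_range
    exact ⟨C, fun k => hC ⟨k, rfl⟩⟩
  obtain ⟨C, hC⟩ := hbd
  obtain ⟨g, hg, -, hlim⟩ := Pool.Agent.H720R2.Cor.ultra_lim hD
    (C := C) (Ultrafilter.of (atTop : Filter ℕ)) f hf (fun k z hz => by
      have := (F k).norm_coe_le_norm (i, ⟨z, hz⟩)
      rw [hFf] at this
      exact this.trans (hC k))
  refine ⟨g, hg, fun z => ?_⟩
  have h1 : Tendsto (fun k => f k z) atTop (𝓝 (G (i, z))) := by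
    have h2 := ((BoundedContinuousFunction.tendsto_iff_tendstoUniformly.1 hG).tendsto_at (i, z))
    refine h2.congr (fun k => ?_)
    exact hFf k z
  exact tendsto_nhds_unique (h1.mono_left (Ultrafilter.of_le _)) (hlim z z.2)

noncomputable instance : NormedCommRing (HA I hD) := inferInstance
noncomputable instance : NormedAlgebra ℂ (HA I hD) := inferInstance
instance : CompleteSpace (HA I hD) := isClosed_HA.completeSpace_coe

/-- elements of `HA` -/
noncomputable def mkA [DiscreteTopology I] (hD : IsOpen D) {f : I → ℂ × ℂ → ℂ}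
    (hf : ∀ k, DifferentiableOn ℂ (f k) D) {C : ℝ} (hC : ∀ k, ∀ z ∈ D, ‖f k z‖ ≤ C) : HA I hD :=
  ⟨BoundedContinuousFunction.ofNormedAddCommGroup (fun x : I × D => f x.1 x.2)
    (continuous_prod_of_discrete_left.2 fun k =>
      continuousOn_iff_continuous_domRestrict.1 (hf k).continuousOn) C
    (fun x => hC x.1 x.2 x.2.2), fun k => ⟨f k, hf k, fun z => rfl⟩⟩

theorem mkA_apply [DiscreteTopology I] (hD : IsOpen D) {f : I → ℂ × ℂ → ℂ}
    (hf : ∀ k, DifferentiableOn ℂ (f k) D) {C : ℝ} (hC : ∀ k, ∀ z ∈ D, ‖f k z‖ ≤ C) (x : I × D) :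
    (mkA hD hf hC).1 x = f x.1 x.2 := rfl

theorem extA {F G : HA I hD} (h : ∀ x, F.1 x = G.1 x) : F = G := by
  apply Subtype.ext
  ext x
  exact h x

theorem sum_applyA {ι : Type*} (s : Finset ι) (F : ι → HA I hD) (x : I × D) :
    (∑ i ∈ s, F i).1 x = ∑ i ∈ s, (F i).1 x := by
  classical
  induction s using Finset.induction_on with
  | empty => rfl
  | insert i s hi ih =>
    rw [Finset.sum_insert hi, Finset.sum_insert hi, ← ih]
    rfl

theorem norm_leA {F : HA I hD} {C : ℝ} (hC : 0 ≤ C) (h : ∀ x, ‖F.1 x‖ ≤ C) : ‖F‖ ≤ C :=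
  (BoundedContinuousFunction.norm_le hC).2 h

theorem le_normA (F : HA I hD) (x : I × D) : ‖F.1 x‖ ≤ ‖F‖ := F.1.norm_coe_le_norm x

theorem char_leA (χ : characterSpace ℂ (HA I hD)) (F : HA I hD) : ‖χ F‖ ≤ ‖F‖ := by
  have h := AlgHom.apply_mem_spectrum χ F
  have h2 := spectrum.norm_le_norm_mul_of_mem h
  have h3 : ‖(1 : HA I hD)‖ ≤ 1 := norm_leA zero_le_one (fun z => by
    change ‖(1 : ℂ)‖ ≤ 1
    simp)
  calc ‖χ F‖ ≤ ‖F‖ * ‖(1 : HA I hD)‖ := h2
    _ ≤ ‖F‖ * 1 := by gcongr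
    _ = ‖F‖ := mul_one _

theorem exists_charA (J : Ideal (HA I hD)) (h : J ≠ ⊤) :
    ∃ χ : characterSpace ℂ (HA I hD), ∀ F ∈ J, χ F = 0 := by
  obtain ⟨M, hM, hIM⟩ := J.exists_le_maximal h
  exact ⟨M.toCharacterSpace, fun F hF => M.toCharacterSpace_apply_eq_zero_of_mem (hIM hF)⟩

/-- evaluation -/
noncomputable def evA (hD : IsOpen D) (x : I × D) : HA I hD →ₐ[ℂ] ℂ where
  toFun φ := φ.1 x
  map_one' := rfl
  map_mul' _ _ := rfl
  map_zero' := rfl
  map_add' _ _ := rfl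
  commutes' _ := rfl

theorem evA_apply (x : I × D) (φ : HA I hD) : evA hD x φ = φ.1 x := rfl

/-- `ψ` is holomorphic in a neighbourhood of the closure of `D` and maps `D` to the unit disc. -/
def SymD (D : Set (ℂ × ℂ)) (ψ : ℂ × ℂ → ℂ) : Prop :=
  AnalyticOnNhd ℂ ψ (closure D) ∧ ∀ z ∈ D, ‖ψ z‖ < 1

/-- the algebra of families generated by the family `G` and all families `f i ∘ ψ` -/
inductive FAlgD {I : Type} (D : Set (ℂ × ℂ)) (G : I → ℂ × ℂ → ℂ) : (I → ℂ × ℂ → ℂ) → Prop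
  | gen : FAlgD D G G
  | comp (f : I → ℂ → ℂ) (ψ : ℂ × ℂ → ℂ) (hf : ∀ i, DifferentiableOn ℂ (f i) (ball 0 1))
      (hb : ∃ C : ℝ, ∀ i, ∀ w ∈ ball (0 : ℂ) 1, ‖f i w‖ ≤ C) (hψ : SymD D ψ) :
      FAlgD D G (fun i z => f i (ψ z))
  | add (h k : I → ℂ × ℂ → ℂ) (hh : FAlgD D G h) (hk : FAlgD D G k) :
      FAlgD D G (fun i z => h i z + k i z)
  | mul (h k : I → ℂ × ℂ → ℂ) (hh : FAlgD D G h) (hk : FAlgD D G k) :
      FAlgD D G (fun i z => h i z * k i z)

end Pool.Agent.P157G
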