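import Mathlib
import Pool.Agent.P157G.Defs

set_option autoImplicit false

open MeasureTheory Metric Set Filter Topology Complex

namespace Pool.Agent.P157G

open Pool.Agent.P157D (d1 d2 CR Bo)

theorem G8a_db1_congr {u v : ℂ × ℂ → ℂ} {x : ℂ × ℂ} (h : u =ᶠ[𝓝 x] v) : db1 u x = db1 v x := by
  unfold db1; rw [h.fderiv_eq]

theorem G8a_db2_congr {u v : ℂ × ℂ → ℂ} {x : ℂ × ℂ} (h : u =ᶠ[𝓝 x] v) : db2 u x = db2 v x := by
  unfold db2; rw [h.fderiv_eq]

theorem G8a_db1_const (c : ℂ) (x : ℂ × ℂ) : db1 (fun _ => c) x = 0 := by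
  unfold db1; simp

theorem G8a_db2_const (c : ℂ) (x : ℂ × ℂ) : db2 (fun _ => c) x = 0 := by
  unfold db2; simp

theorem G8a_db1_mul {u v : ℂ × ℂ → ℂ} {x : ℂ × ℂ} (hu : DifferentiableAt ℝ u x)
    (hv : DifferentiableAt ℝ v x) :
    db1 (fun y => u y * v y) x = u x * db1 v x + v x * db1 u x := by
  unfold db1
  rw [fderiv_fun_mul hu hv]
  simp only [add_apply, smul_apply, smul_eq_mul]
  ring

theorem G8a_db2_mul {u v : ℂ × ℂ → ℂ} {x : ℂ × ℂ} (hu : DifferentiableAt ℝ u x)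
    (hv : DifferentiableAt ℝ v x) :
    db2 (fun y => u y * v y) x = u x * db2 v x + v x * db2 u x := by
  unfold db2
  rw [fderiv_fun_mul hu hv]
  simp only [add_apply, smul_apply, smul_eq_mul]
  ring

theorem G8a_db1_add {u v : ℂ × ℂ → ℂ} {x : ℂ × ℂ} (hu : DifferentiableAt ℝ u x)
    (hv : DifferentiableAt ℝ v x) :
    db1 (fun y => u y + v y) x = db1 u x + db1 v x := by
  unfold db1
  rw [fderiv_fun_add hu hv]
  simp only [add_apply]
  ring

theorem G8a_db2_add {u v : ℂ × ℂ → ℂ} {x : ℂ × ℂ} (hu : DifferentiableAt ℝ u x)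
    (hv : DifferentiableAt ℝ v x) :
    db2 (fun y => u y + v y) x = db2 u x + db2 v x := by
  unfold db2
  rw [fderiv_fun_add hu hv]
  simp only [add_apply]
  ring

theorem G8a_db1_sub {u v : ℂ × ℂ → ℂ} {x : ℂ × ℂ} (hu : DifferentiableAt ℝ u x)
    (hv : DifferentiableAt ℝ v x) :
    db1 (fun y => u y - v y) x = db1 u x - db1 v x := by
  unfold db1
  rw [fderiv_fun_sub hu hv]
  simp only [sub_apply]
  ring

theorem G8a_db2_sub {u v : ℂ × ℂ → ℂ} {x : ℂ × ℂ} (hu : DifferentiableAt ℝ u x)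
    (hv : DifferentiableAt ℝ v x) :
    db2 (fun y => u y - v y) x = db2 u x - db2 v x := by
  unfold db2
  rw [fderiv_fun_sub hu hv]
  simp only [sub_apply]
  ring

theorem G8a_T1 {τ : ℂ × ℂ → ℂ} (hτ : ContDiff ℝ 2 τ) : ContDiff ℝ 1 (db1 τ) := by
  have h : ContDiff ℝ 1 (fderiv ℝ τ) := hτ.fderiv_right (by norm_num)
  unfold db1
  exact ((h.clm_apply contDiff_const).add
    (contDiff_const.mul (h.clm_apply contDiff_const))).div_const 2

theorem G8a_T2 {τ : ℂ × ℂ → ℂ} (hτ : ContDiff ℝ 2 τ) : ContDiff ℝ 1 (db2 τ) := by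
  have h : ContDiff ℝ 1 (fderiv ℝ τ) := hτ.fderiv_right (by norm_num)
  unfold db2
  exact ((h.clm_apply contDiff_const).add
    (contDiff_const.mul (h.clm_apply contDiff_const))).div_const 2

theorem G8a_fd {τ : ℂ × ℂ → ℂ} (hτ : ContDiff ℝ 2 τ) (x v w v' : ℂ × ℂ) :
    fderiv ℝ (fun y => (fderiv ℝ τ y v + Complex.I * fderiv ℝ τ y v') / 2) x w =
      (fderiv ℝ (fderiv ℝ τ) x w v + Complex.I * fderiv ℝ (fderiv ℝ τ) x w v') / 2 := by
  have h : Differentiable ℝ (fderiv ℝ τ) :=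
    (hτ.fderiv_right (m := 1) (by norm_num)).differentiable (by norm_num)
  have h0 : ∀ v : ℂ × ℂ, HasFDerivAt (fun y => fderiv ℝ τ y v)
      ((ContinuousLinearMap.apply ℝ ℂ v).comp (fderiv ℝ (fderiv ℝ τ) x)) x := fun v =>
    (ContinuousLinearMap.apply ℝ ℂ v).hasFDerivAt.comp x (h x).hasFDerivAt
  have h1 := ((h0 v).add ((h0 v').const_mul Complex.I)).mul_const ((2 : ℂ)⁻¹)
  have h2 : (fun y => (fderiv ℝ τ y v + Complex.I * fderiv ℝ τ y v') / 2) =
      fun y => (fderiv ℝ τ y v + Complex.I * fderiv ℝ τ y v') * (2 : ℂ)⁻¹ := by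
    ext y; rw [div_eq_mul_inv]
  rw [h2]
  have h3 := h1.fderiv
  rw [show (fun y => (fderiv ℝ τ y v + Complex.I * fderiv ℝ τ y v') * (2 : ℂ)⁻¹) =
    (fun y => ((fun y => fderiv ℝ τ y v) + fun y => Complex.I * fderiv ℝ τ y v') y * (2 : ℂ)⁻¹) from rfl, h3]
  simp
  ring

theorem G8a_mixed {τ : ℂ × ℂ → ℂ} (hτ : ContDiff ℝ 2 τ) (x : ℂ × ℂ) :
    db1 (db2 τ) x = db2 (db1 τ) x := by
  have hs : IsSymmSndFDerivAt ℝ τ x := hτ.contDiffAt.isSymmSndFDerivAt (by simp)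
  have e1 : db1 (db2 τ) x = (fderiv ℝ (fun y => (fderiv ℝ τ y (0, 1) + Complex.I * fderiv ℝ τ y (0, Complex.I)) / 2) x (1, 0)
    + Complex.I * fderiv ℝ (fun y => (fderiv ℝ τ y (0, 1) + Complex.I * fderiv ℝ τ y (0, Complex.I)) / 2) x (Complex.I, 0)) / 2 := rfl
  have e2 : db2 (db1 τ) x = (fderiv ℝ (fun y => (fderiv ℝ τ y (1, 0) + Complex.I * fderiv ℝ τ y (Complex.I, 0)) / 2) x (0, 1)
    + Complex.I * fderiv ℝ (fun y => (fderiv ℝ τ y (1, 0) + Complex.I * fderiv ℝ τ y (Complex.I, 0)) / 2) x (0, Complex.I)) / 2 := rfl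
  rw [e1, e2, G8a_fd hτ, G8a_fd hτ, G8a_fd hτ, G8a_fd hτ, hs (1, 0) (0, 1), hs (1, 0) (0, Complex.I),
    hs (Complex.I, 0) (0, 1), hs (Complex.I, 0) (0, Complex.I)]
  ring

theorem G8a_off {τ : ℂ × ℂ → ℂ} {x : ℂ × ℂ} (hx : x ∉ tsupport τ) :
    τ x = 0 ∧ db1 τ x = 0 ∧ db2 τ x = 0 := by
  have h : τ =ᶠ[𝓝 x] (fun _ => (0 : ℂ)) := by
    filter_upwards [(isClosed_tsupport τ).isOpen_compl.mem_nhds hx] with y hy
    exact image_eq_zero_of_notMem_tsupport hy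
  exact ⟨h.eq_of_nhds, by rw [G8a_db1_congr h, G8a_db1_const], by rw [G8a_db2_congr h, G8a_db2_const]⟩

theorem G8a_one {τ : ℂ × ℂ → ℂ} {V : Set (ℂ × ℂ)} (hV : IsOpen V) (hτ1 : ∀ x ∈ V, τ x = 1)
    {x : ℂ × ℂ} (hx : x ∈ V) : τ x = 1 ∧ db1 τ x = 0 ∧ db2 τ x = 0 := by
  have h : τ =ᶠ[𝓝 x] (fun _ => (1 : ℂ)) := by
    filter_upwards [hV.mem_nhds hx] with y hy
    exact hτ1 y hy
  exact ⟨h.eq_of_nhds, by rw [G8a_db1_congr h, G8a_db1_const], by rw [G8a_db2_congr h, G8a_db2_const]⟩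

theorem G8a_off_ev {τ T f u : ℂ × ℂ → ℂ} {x : ℂ × ℂ} (hx : x ∉ tsupport τ)
    (hT : ∀ y, y ∉ tsupport τ → T y = 0) :
    (fun y => (1 - τ y) * f y - u y * T y) =ᶠ[𝓝 x] f := by
  filter_upwards [(isClosed_tsupport τ).isOpen_compl.mem_nhds hx] with y hy
  rw [image_eq_zero_of_notMem_tsupport hy, hT y hy]
  ring

theorem G8a_off_ev2 {τ u : ℂ × ℂ → ℂ} {x : ℂ × ℂ} (hx : x ∉ tsupport τ) :
    (fun y => τ y * u y) =ᶠ[𝓝 x] fun _ => 0 := by
  filter_upwards [(isClosed_tsupport τ).isOpen_compl.mem_nhds hx] with y hy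
  rw [image_eq_zero_of_notMem_tsupport hy]
  ring

theorem G8a_reg {D N : Set (ℂ × ℂ)} (hD : IsOpen D) (hN : IsOpen N) {τ T f u : ℂ × ℂ → ℂ}
    (hτ : ContDiff ℝ 1 τ) (hT : ContDiff ℝ 1 T) (hs : tsupport τ ⊆ N)
    (hT0 : ∀ y, y ∉ tsupport τ → T y = 0) (hf : ContDiffOn ℝ 1 f D) (hu : ContDiffOn ℝ 1 u (N ∩ D))
    {x : ℂ × ℂ} (hx : x ∈ D) : ContDiffAt ℝ 1 (fun y => (1 - τ y) * f y - u y * T y) x := by
  have hfx := hf.contDiffAt (hD.mem_nhds hx)
  by_cases hxs : x ∈ tsupport τ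
  · have hux := hu.contDiffAt ((hN.inter hD).mem_nhds ⟨hs hxs, hx⟩)
    exact ((contDiffAt_const.sub hτ.contDiffAt).mul hfx).sub (hux.mul hT.contDiffAt)
  · exact hfx.congr_of_eventuallyEq (G8a_off_ev hxs hT0)

theorem G8a_regv {D N : Set (ℂ × ℂ)} (hD : IsOpen D) (hN : IsOpen N) {τ u : ℂ × ℂ → ℂ}
    (hτ : ContDiff ℝ 1 τ) (hs : tsupport τ ⊆ N) (hu : ContDiffOn ℝ 1 u (N ∩ D))
    {x : ℂ × ℂ} (hx : x ∈ D) : ContDiffAt ℝ 1 (fun y => τ y * u y) x := by
  by_cases hxs : x ∈ tsupport τ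
  · have hux := hu.contDiffAt ((hN.inter hD).mem_nhds ⟨hs hxs, hx⟩)
    exact hτ.contDiffAt.mul hux
  · exact contDiffAt_const.congr_of_eventuallyEq (G8a_off_ev2 hxs)

theorem G8a_bd {g : ℂ × ℂ → ℂ} {τ : ℂ × ℂ → ℂ} (hg : Continuous g) (hc : HasCompactSupport τ)
    (h0 : ∀ y, y ∉ tsupport τ → g y = 0) : ∃ C, ∀ x, ‖g x‖ ≤ C := by
  apply hg.bounded_above_of_compact_support
  exact HasCompactSupport.intro hc (fun x hx => h0 x hx)

/-- **TARGET** -/
theorem bump_step {N' N V : Set (ℂ × ℂ)} (hN' : IsOpen N') (hN : IsOpen N) (hV : IsOpen V)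
    (hNN : N ⊆ N') {τ : ℂ × ℂ → ℂ} (hτ : ContDiff ℝ 2 τ) (hc : HasCompactSupport τ)
    (hs : tsupport τ ⊆ N) (hτ1 : ∀ x ∈ V, τ x = 1) {C : ℝ} (hC : 0 ≤ C) :
    ∃ C' : ℝ, 0 ≤ C' ∧ ∀ D D'' : Set (ℂ × ℂ), IsOpen D → IsOpen D'' → D ⊆ D'' → D'' ⊆ D ∪ V →
      Slv (N' ∩ D) (N ∩ D) C → Bmp D D'' C' := by
  have hτ' : ContDiff ℝ 1 τ := hτ.of_le (by norm_num)
  have hT1 := G8a_T1 hτ
  have hT2 := G8a_T2 hτ
  have hT10 : ∀ y, y ∉ tsupport τ → db1 τ y = 0 := fun y hy => (G8a_off hy).2.1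
  have hT20 : ∀ y, y ∉ tsupport τ → db2 τ y = 0 := fun y hy => (G8a_off hy).2.2
  obtain ⟨B0, hB0⟩ := G8a_bd hτ.continuous hc (fun y hy => (G8a_off hy).1)
  obtain ⟨B1, hB1⟩ := G8a_bd hT1.continuous hc hT10
  obtain ⟨B2, hB2⟩ := G8a_bd hT2.continuous hc hT20
  obtain ⟨T, hT⟩ : ∃ T : ℝ, T = |B0| + |B1| + |B2| := ⟨_, rfl⟩
  have hT0 : 0 ≤ T := by rw [hT]; positivity
  have b0 : ∀ x, ‖τ x‖ ≤ T := fun x => by
    rw [hT]
    have := (hB0 x).trans (le_abs_self _)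
    have := abs_nonneg B1
    have := abs_nonneg B2
    linarith
  have b1 : ∀ x, ‖db1 τ x‖ ≤ T := fun x => by
    rw [hT]
    have := (hB1 x).trans (le_abs_self _)
    have := abs_nonneg B0
    have := abs_nonneg B2
    linarith
  have b2 : ∀ x, ‖db2 τ x‖ ≤ T := fun x => by
    rw [hT]
    have := (hB2 x).trans (le_abs_self _)
    have := abs_nonneg B1
    have := abs_nonneg B0
    linarith
  refine ⟨1 + T + C * T, by positivity, ?_⟩
  intro D D'' hD hD'' hDD hDV hslv f h M hM hfm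
  obtain ⟨u, hu⟩ := hslv f h M ⟨hfm.f1.mono inter_subset_right, hfm.h1.mono inter_subset_right,
    fun x hx => hfm.cl x hx.2, fun x hx => hfm.fb x hx.2, fun x hx => hfm.hb x hx.2⟩
  -- bound of a product with `u`
  have hub : ∀ (g : ℂ × ℂ → ℂ), (∀ y, y ∉ tsupport τ → g y = 0) → (∀ y, ‖g y‖ ≤ T) →
      ∀ x ∈ D, ‖u x * g x‖ ≤ C * M * T := by
    intro g hg0 hgT x hx
    by_cases hxs : x ∈ tsupport τ
    · rw [norm_mul]
      exact mul_le_mul (hu.ub x ⟨hs hxs, hx⟩) (hgT x) (norm_nonneg _) (by positivity)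
    · rw [hg0 x hxs, mul_zero, norm_zero]
      positivity
  -- bound for the new coefficients
  have hfb : ∀ (g f₀ : ℂ × ℂ → ℂ), (∀ y, y ∉ tsupport τ → g y = 0) → (∀ y, ‖g y‖ ≤ T) →
      (∀ x ∈ D, ‖f₀ x‖ ≤ M) → ∀ x ∈ D, ‖(1 - τ x) * f₀ x - u x * g x‖ ≤ (1 + T + C * T) * M := by
    intro g f₀ hg0 hgT hf₀ x hx
    have k1 := hub g hg0 hgT x hx
    have k2 : ‖(1 - τ x) * f₀ x‖ ≤ (1 + T) * M := by
      rw [norm_mul]
      apply mul_le_mul _ (hf₀ x hx) (norm_nonneg _) (by positivity)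
      refine (norm_sub_le _ _).trans ?_
      rw [norm_one]
      linarith [b0 x]
    refine (norm_sub_le _ _).trans ?_
    linarith
  have hone : ∀ (g f₀ : ℂ × ℂ → ℂ), (∀ y ∈ V, g y = 0) → ∀ x ∈ V,
      D.indicator (fun y => (1 - τ y) * f₀ y - u y * g y) =ᶠ[𝓝 x] fun _ => 0 := by
    intro g f₀ hg x hx
    filter_upwards [hV.mem_nhds hx] with y hy
    by_cases hyD : y ∈ D
    · rw [indicator_of_mem hyD, hτ1 y hy, hg y hy]; ring
    · rw [indicator_of_notMem hyD]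
  have hloc : ∀ (g : ℂ × ℂ → ℂ), ∀ x ∈ D, D.indicator g =ᶠ[𝓝 x] g := by
    intro g x hx
    filter_upwards [hD.mem_nhds hx] with y hy
    rw [indicator_of_mem hy]
  have hV1 : ∀ y ∈ V, db1 τ y = 0 := fun y hy => (G8a_one hV hτ1 hy).2.1
  have hV2 : ∀ y ∈ V, db2 τ y = 0 := fun y hy => (G8a_one hV hτ1 hy).2.2
  refine ⟨D.indicator (fun y => (1 - τ y) * f y - u y * db1 τ y),
    D.indicator (fun y => (1 - τ y) * h y - u y * db2 τ y), fun y => τ y * u y, ?_, ?_⟩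
  · constructor
    · intro x hx
      rcases hDV hx with hxD | hxV
      · exact ((G8a_reg hD hN hτ' hT1 hs hT10 hfm.f1 hu.u1 hxD).congr_of_eventuallyEq
          (hloc _ x hxD)).contDiffWithinAt
      · exact (contDiffAt_const.congr_of_eventuallyEq (hone _ _ hV1 x hxV)).contDiffWithinAt
    · intro x hx
      rcases hDV hx with hxD | hxV
      · exact ((G8a_reg hD hN hτ' hT2 hs hT20 hfm.h1 hu.u1 hxD).congr_of_eventuallyEq
          (hloc _ x hxD)).contDiffWithinAt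
      · exact (contDiffAt_const.congr_of_eventuallyEq (hone _ _ hV2 x hxV)).contDiffWithinAt
    · intro x hx
      rcases hDV hx with hxD | hxV
      · rw [G8a_db1_congr (hloc _ x hxD), G8a_db2_congr (hloc _ x hxD)]
        by_cases hxs : x ∈ tsupport τ
        · have hxN : x ∈ N ∩ D := ⟨hs hxs, hxD⟩
          have du : DifferentiableAt ℝ u x :=
            (hu.u1.contDiffAt ((hN.inter hD).mem_nhds hxN)).differentiableAt (by norm_num)
          have df : DifferentiableAt ℝ f x :=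
            (hfm.f1.contDiffAt (hD.mem_nhds hxD)).differentiableAt (by norm_num)
          have dh : DifferentiableAt ℝ h x :=
            (hfm.h1.contDiffAt (hD.mem_nhds hxD)).differentiableAt (by norm_num)
          have dτ : DifferentiableAt ℝ τ x := hτ'.contDiffAt.differentiableAt (by norm_num)
          have d1τ : DifferentiableAt ℝ (fun y => 1 - τ y) x := dτ.const_sub 1
          have dT1 : DifferentiableAt ℝ (db1 τ) x := hT1.contDiffAt.differentiableAt (by norm_num)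
          have dT2 : DifferentiableAt ℝ (db2 τ) x := hT2.contDiffAt.differentiableAt (by norm_num)
          rw [G8a_db1_sub (d1τ.fun_mul dh) (du.fun_mul dT2), G8a_db2_sub (d1τ.fun_mul df) (du.fun_mul dT1),
            G8a_db1_mul d1τ dh, G8a_db1_mul du dT2, G8a_db2_mul d1τ df, G8a_db2_mul du dT1,
            G8a_db1_sub (differentiableAt_const 1) dτ, G8a_db2_sub (differentiableAt_const 1) dτ,
            G8a_db1_const, G8a_db2_const, hu.e1 x hxN, hu.e2 x hxN, hfm.cl x hxD, G8a_mixed hτ]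
          ring
        · rw [G8a_db1_congr (G8a_off_ev hxs hT20), G8a_db2_congr (G8a_off_ev hxs hT10)]
          exact hfm.cl x hxD
      · rw [G8a_db1_congr (hone _ _ hV2 x hxV), G8a_db2_congr (hone _ _ hV1 x hxV),
          G8a_db1_const, G8a_db2_const]
    · intro x hx
      by_cases hxD : x ∈ D
      · rw [indicator_of_mem hxD]
        exact hfb _ _ hT10 b1 hfm.fb x hxD
      · rw [indicator_of_notMem hxD, norm_zero]; positivity
    · intro x hx
      by_cases hxD : x ∈ D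
      · rw [indicator_of_mem hxD]
        exact hfb _ _ hT20 b2 hfm.hb x hxD
      · rw [indicator_of_notMem hxD, norm_zero]; positivity
  · constructor
    · intro x hx
      exact (G8a_regv hD hN hτ' hs hu.u1 hx).contDiffWithinAt
    · intro x hx
      rw [indicator_of_mem hx]
      by_cases hxs : x ∈ tsupport τ
      · have hxN : x ∈ N ∩ D := ⟨hs hxs, hx⟩
        have du : DifferentiableAt ℝ u x :=
          (hu.u1.contDiffAt ((hN.inter hD).mem_nhds hxN)).differentiableAt (by norm_num)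
        have dτ : DifferentiableAt ℝ τ x := hτ'.contDiffAt.differentiableAt (by norm_num)
        rw [G8a_db1_mul dτ du, hu.e1 x hxN]
        ring
      · rw [G8a_db1_congr (G8a_off_ev2 hxs), G8a_db1_const, (G8a_off hxs).1, (G8a_off hxs).2.1]
        ring
    · intro x hx
      rw [indicator_of_mem hx]
      by_cases hxs : x ∈ tsupport τ
      · have hxN : x ∈ N ∩ D := ⟨hs hxs, hx⟩
        have du : DifferentiableAt ℝ u x :=
          (hu.u1.contDiffAt ((hN.inter hD).mem_nhds hxN)).differentiableAt (by norm_num)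
        have dτ : DifferentiableAt ℝ τ x := hτ'.contDiffAt.differentiableAt (by norm_num)
        rw [G8a_db2_mul dτ du, hu.e2 x hxN]
        ring
      · rw [G8a_db2_congr (G8a_off_ev2 hxs), G8a_db2_const, (G8a_off hxs).1, (G8a_off hxs).2.2]
        ring
    · intro x hx
      have k1 := hub τ (fun y hy => (G8a_off hy).1) b0 x hx
      rw [mul_comm (τ x)]
      refine k1.trans ?_
      have : 0 ≤ T * M := by positivity
      nlinarith

/-- **TARGET** -/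
theorem bmp_trans {D D₁ D₂ : Set (ℂ × ℂ)} (hD : IsOpen D) (hD₁ : IsOpen D₁) (hD₂ : IsOpen D₂)
    (h1 : D ⊆ D₁) {C C' : ℝ} (hC : 0 ≤ C) (hC' : 0 ≤ C') (hb : Bmp D D₁ C) (hb' : Bmp D₁ D₂ C') :
    Bmp D D₂ (C + C' * C + C * C' + C') := by
  intro f h M hM hfm
  obtain ⟨f', h', u, hf', hu⟩ := hb f h M hM hfm
  obtain ⟨f'', h'', u', hf'', hu'⟩ := hb' f' h' (C * M) (by positivity) hf'
  have m1 : 0 ≤ C * M := by positivity
  have m2 : 0 ≤ C' * M := by positivity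
  have m3 : 0 ≤ C * C' * M := by positivity
  refine ⟨f'', h'', fun x => u x + u' x, ?_, ?_⟩
  · refine ⟨hf''.f1, hf''.h1, hf''.cl, fun x hx => (hf''.fb x hx).trans ?_,
      fun x hx => (hf''.hb x hx).trans ?_⟩
    · nlinarith
    · nlinarith
  · refine ⟨hu.u1.add (hu'.u1.mono h1), ?_, ?_, ?_⟩
    · intro x hx
      have du : DifferentiableAt ℝ u x :=
        (hu.u1.contDiffAt (hD.mem_nhds hx)).differentiableAt (by norm_num)
      have du' : DifferentiableAt ℝ u' x :=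
        (hu'.u1.contDiffAt (hD₁.mem_nhds (h1 hx))).differentiableAt (by norm_num)
      rw [G8a_db1_add du du', hu.e1 x hx, hu'.e1 x (h1 hx)]
      ring
    · intro x hx
      have du : DifferentiableAt ℝ u x :=
        (hu.u1.contDiffAt (hD.mem_nhds hx)).differentiableAt (by norm_num)
      have du' : DifferentiableAt ℝ u' x :=
        (hu'.u1.contDiffAt (hD₁.mem_nhds (h1 hx))).differentiableAt (by norm_num)
      rw [G8a_db2_add du du', hu.e2 x hx, hu'.e2 x (h1 hx)]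
      ring
    · intro x hx
      refine (norm_add_le _ _).trans ?_
      have k1 := hu.ub x hx
      have k2 := hu'.ub x (h1 hx)
      nlinarith

end Pool.Agent.P157G
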