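import Mathlib
import Pool.Agent.P157G.Defs

set_option autoImplicit false

open MeasureTheory Metric Set Filter Topology Complex

namespace Pool.Agent.P157G

open Pool.Agent.P157D (d1 d2 CR Bo)

theorem G4_rad (p : ℝ) (T : Set ℝ) (hT : MeasurableSet T) (c : ℂ)
    (hI : IntegrableOn (fun y : ℝ => y ^ (1 - p)) (Ioi 0 ∩ T)) :
    Integrable (fun η : ℂ => T.indicator (fun y : ℝ => y ^ (-p)) ‖η - c‖) ∧
    ∫ η : ℂ, T.indicator (fun y : ℝ => y ^ (-p)) ‖η - c‖ =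
      2 * Real.pi * ∫ y in Ioi 0 ∩ T, y ^ (1 - p) := by
  have hd : Module.finrank ℝ ℂ = 2 := Complex.finrank_real_complex
  have hcong : EqOn (fun y : ℝ => y ^ (Module.finrank ℝ ℂ - 1) • T.indicator (fun y : ℝ => y ^ (-p)) y)
      (T.indicator (fun y : ℝ => y ^ (1 - p))) (Ioi 0) := by
    intro y hy
    have hy' : (0 : ℝ) < y := hy
    simp only [hd]
    by_cases h : y ∈ T
    · rw [indicator_of_mem h, indicator_of_mem h, smul_eq_mul, sub_eq_add_neg,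
        Real.rpow_add hy', Real.rpow_one]
      norm_num
    · rw [indicator_of_notMem h, indicator_of_notMem h, smul_zero]
  constructor
  · have h1 : Integrable (fun η : ℂ => T.indicator (fun y : ℝ => y ^ (-p)) ‖η‖) := by
      rw [integrable_fun_norm_addHaar (volume : Measure ℂ) (f := T.indicator (fun y : ℝ => y ^ (-p))),
        integrableOn_congr_fun hcong measurableSet_Ioi]
      unfold IntegrableOn
      rw [integrable_indicator_iff hT]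
      unfold IntegrableOn
      rw [Measure.restrict_restrict hT, inter_comm]
      exact hI
    exact h1.comp_sub_right c
  · have h1 : ∫ η : ℂ, T.indicator (fun y : ℝ => y ^ (-p)) ‖η - c‖ =
        ∫ η : ℂ, T.indicator (fun y : ℝ => y ^ (-p)) ‖η‖ :=
      integral_sub_right_eq_self (fun η : ℂ => T.indicator (fun y : ℝ => y ^ (-p)) ‖η‖) c
    rw [h1, integral_fun_norm_addHaar (volume : Measure ℂ) (T.indicator (fun y : ℝ => y ^ (-p))),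
      setIntegral_congr_fun measurableSet_Ioi hcong, setIntegral_indicator hT, hd]
    have hv : (volume : Measure ℂ).real (ball 0 1) = Real.pi := by
      rw [Measure.real, Complex.volume_ball]
      simp
    rw [hv, smul_eq_mul, nsmul_eq_mul]
    push_cast
    ring

theorem G4_in (p ρ : ℝ) (hp : p < 2) (hρ : 0 ≤ ρ) (c : ℂ) :
    Integrable (fun η : ℂ => (Iic ρ).indicator (fun y : ℝ => y ^ (-p)) ‖η - c‖) ∧
    ∫ η : ℂ, (Iic ρ).indicator (fun y : ℝ => y ^ (-p)) ‖η - c‖ =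
      2 * Real.pi * (ρ ^ (2 - p) / (2 - p)) := by
  have hs : Ioi (0 : ℝ) ∩ Iic ρ = Ioc 0 ρ := rfl
  have hI : IntegrableOn (fun y : ℝ => y ^ (1 - p)) (Ioi 0 ∩ Iic ρ) := by
    rw [hs, ← intervalIntegrable_iff_integrableOn_Ioc_of_le hρ]
    exact intervalIntegral.intervalIntegrable_rpow' (by linarith)
  obtain ⟨h1, h2⟩ := G4_rad p (Iic ρ) measurableSet_Iic c hI
  refine ⟨h1, ?_⟩
  rw [h2, hs, ← intervalIntegral.integral_of_le hρ, integral_rpow (Or.inl (by linarith))]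
  rw [show (1 - p + 1 : ℝ) = 2 - p by ring, Real.zero_rpow (by linarith), sub_zero]

theorem G4_pt {F r m R₀ : ℝ} (hm : 0 < m) (hR : 0 < R₀) (hr : 0 < r) (h1 : m ≤ F)
    (h2 : R₀ / 6 * r ≤ F) :
    1 / F ^ 2 ≤ m ^ (-(1 / 4) : ℝ) * (R₀ / 6) ^ (-(7 / 4) : ℝ) * r ^ (-(7 / 4) : ℝ) := by
  have hF : 0 < F := hm.trans_le h1
  have e1 : 1 / F ^ 2 = F ^ (-(1 / 4) : ℝ) * F ^ (-(7 / 4) : ℝ) := by
    rw [← Real.rpow_add hF, one_div, ← Real.rpow_natCast, ← Real.rpow_neg hF.le]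
    norm_num
  have e2 : (R₀ / 6) ^ (-(7 / 4) : ℝ) * r ^ (-(7 / 4) : ℝ) = (R₀ / 6 * r) ^ (-(7 / 4) : ℝ) := by
    rw [Real.mul_rpow (by positivity) hr.le]
  rw [e1, mul_assoc, e2]
  have h3 : F ^ (-(1 / 4) : ℝ) ≤ m ^ (-(1 / 4) : ℝ) :=
    Real.rpow_le_rpow_of_nonpos hm h1 (by norm_num)
  have h4 : F ^ (-(7 / 4) : ℝ) ≤ (R₀ / 6 * r) ^ (-(7 / 4) : ℝ) :=
    Real.rpow_le_rpow_of_nonpos (by positivity) h2 (by norm_num)
  exact mul_le_mul h3 h4 (by positivity) (by positivity)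

/-- **TARGET** -/
theorem inv_int : ∃ C : ℝ, 0 ≤ C ∧ ∀ (E : Set ℂ) (Φ : ℂ → ℂ) (y : ℂ) (ρ R₀ m : ℝ), MeasurableSet E →
    0 < ρ → 0 < R₀ → 0 < m → E ⊆ closedBall y ρ → (∀ η ∈ E, m ≤ ‖Φ η‖) →
    (∀ η ∈ E, ∀ η' ∈ E, R₀ / 2 * ‖η - η'‖ ≤ ‖Φ η - Φ η'‖) →
    ∫⁻ η in E, ENNReal.ofReal (1 / ‖Φ η‖ ^ 2) ≤
      ENNReal.ofReal (C * m ^ (-(1 / 4) : ℝ) * R₀ ^ (-(7 / 4) : ℝ) * ρ ^ ((1 / 4) : ℝ)) := by
  refine ⟨8 * Real.pi * 2 ^ ((1 / 4) : ℝ) * 6 ^ ((7 / 4) : ℝ), by positivity, ?_⟩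
  intro E Φ y ρ R₀ m hE hρ hR hm hEy hmΦ hΦ
  rcases E.eq_empty_or_nonempty with rfl | hne
  · simp
  -- the point with nearly least norm
  have hbd : BddBelow ((fun η => ‖Φ η‖) '' E) := ⟨0, by
    rintro _ ⟨η, -, rfl⟩
    exact norm_nonneg _⟩
  have hm0 : m ≤ sInf ((fun η => ‖Φ η‖) '' E) := by
    refine le_csInf (hne.image _) ?_
    rintro _ ⟨η, hη, rfl⟩
    exact hmΦ η hη
  have hm0' : 0 < sInf ((fun η => ‖Φ η‖) '' E) := hm.trans_le hm0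
  obtain ⟨_, ⟨η₀, hη₀, rfl⟩, hlt⟩ := exists_lt_of_csInf_lt (hne.image (fun η => ‖Φ η‖))
    (show sInf ((fun η => ‖Φ η‖) '' E) < 2 * sInf ((fun η => ‖Φ η‖) '' E) by linarith)
  simp only at hlt
  have hlow : ∀ η ∈ E, R₀ / 6 * ‖η - η₀‖ ≤ ‖Φ η‖ := by
    intro η hη
    have h1 : sInf ((fun η => ‖Φ η‖) '' E) ≤ ‖Φ η‖ := csInf_le hbd ⟨η, hη, rfl⟩
    have h2 := hΦ η hη η₀ hη₀
    have h3 : ‖Φ η - Φ η₀‖ ≤ ‖Φ η‖ + ‖Φ η₀‖ := norm_sub_le _ _
    linarith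
  have hball : ∀ η ∈ E, ‖η - η₀‖ ≤ 2 * ρ := by
    intro η hη
    have h1 := hEy hη
    have h2 := hEy hη₀
    rw [mem_closedBall, dist_eq_norm] at h1 h2
    calc ‖η - η₀‖ = ‖(η - y) - (η₀ - y)‖ := by congr 1; ring
      _ ≤ ‖η - y‖ + ‖η₀ - y‖ := norm_sub_le _ _
      _ ≤ 2 * ρ := by linarith
  obtain ⟨hI, hv⟩ := G4_in (7 / 4) (2 * ρ) (by norm_num) (by positivity) η₀
  obtain ⟨A, hA⟩ : ∃ A : ℝ, A = m ^ (-(1 / 4) : ℝ) * (R₀ / 6) ^ (-(7 / 4) : ℝ) := ⟨_, rfl⟩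
  have hA0 : 0 ≤ A := by rw [hA]; positivity
  have hnn : ∀ η : ℂ, 0 ≤ A * (Iic (2 * ρ)).indicator (fun y : ℝ => y ^ (-(7 / 4) : ℝ)) ‖η - η₀‖ := by
    intro η
    refine mul_nonneg hA0 (indicator_apply_nonneg fun _ => ?_)
    positivity
  calc ∫⁻ η in E, ENNReal.ofReal (1 / ‖Φ η‖ ^ 2)
      ≤ ∫⁻ η in E, ENNReal.ofReal
          (A * (Iic (2 * ρ)).indicator (fun y : ℝ => y ^ (-(7 / 4) : ℝ)) ‖η - η₀‖) := by
        refine lintegral_mono_ae ?_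
        refine (ae_restrict_iff' hE).2 ?_
        have hne0 : ∀ᵐ η : ℂ, η ≠ η₀ := by
          have : volume ({η₀} : Set ℂ) = 0 := by simp
          rw [ae_iff]
          simpa using this
        filter_upwards [hne0] with η hη hηE
        refine ENNReal.ofReal_le_ofReal ?_
        rw [indicator_of_mem (show ‖η - η₀‖ ∈ Iic (2 * ρ) from hball η hηE), hA]
        exact G4_pt hm hR (norm_pos_iff.2 (sub_ne_zero.2 hη)) (hmΦ η hηE) (hlow η hηE)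
    _ ≤ ∫⁻ η : ℂ, ENNReal.ofReal
          (A * (Iic (2 * ρ)).indicator (fun y : ℝ => y ^ (-(7 / 4) : ℝ)) ‖η - η₀‖) :=
        setLIntegral_le_lintegral _ _
    _ = ENNReal.ofReal (∫ η : ℂ,
          (A * (Iic (2 * ρ)).indicator (fun y : ℝ => y ^ (-(7 / 4) : ℝ)) ‖η - η₀‖)) :=
        (ofReal_integral_eq_lintegral_ofReal (hI.const_mul A) (ae_of_all _ hnn)).symm
    _ ≤ _ := by
        refine ENNReal.ofReal_le_ofReal (le_of_eq ?_)
        rw [integral_const_mul, hv, hA, Real.div_rpow hR.le (by norm_num),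
          Real.mul_rpow (by norm_num) hρ.le, Real.rpow_neg (by norm_num : (0 : ℝ) ≤ 6)]
        norm_num
        ring

end Pool.Agent.P157G
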