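import Mathlib
import Pool.Agent.P157G.Defs

set_option autoImplicit false

open MeasureTheory Metric Set Filter Topology Complex

namespace Pool.Agent.P157G

open Pool.Agent.P157D (d1 d2 CR Bo)

/-- the first part of the solution operator -/
noncomputable def U1 (r : ℝ) (R : ℂ × ℂ → ℝ) (h : ℂ × ℂ → ℂ) (p : ℂ × ℂ) : ℂ :=
  (1 / Real.pi : ℂ) * ∫ η in {η : ℂ | ‖η‖ < r ∧ 0 < R (p.1, η)},
    h (p.1, η) * ((R (p.1, η) : ℂ) / PH R (p.1, η) p) ^ 2 / (p.2 - η)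

/-- numerator of the kernel -/
noncomputable def XX (R : ℂ × ℂ → ℝ) (f h : ℂ × ℂ → ℂ) (s : ℂ × ℂ) : ℂ :=
  f s * (d2 R s * starRingEnd ℂ (d2 R s) - (R s : ℂ) * db2 (d2 R) s) -
    h s * (d2 R s * starRingEnd ℂ (d1 R s) - (R s : ℂ) * db1 (d2 R) s)

/-- extension of the remainder from the slice over `ζ` -/
noncomputable def kk (r : ℝ) (R : ℂ × ℂ → ℝ) (f h : ℂ × ℂ → ℂ) (ζ : ℂ) (p : ℂ × ℂ) : ℂ :=
  (1 / Real.pi : ℂ) * ∫ η in {η : ℂ | ‖η‖ < r ∧ 0 < R (ζ, η)},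
    2 * (R (ζ, η) : ℂ) * XX R f h (ζ, η) / PH R (ζ, η) p ^ 3

/-- the second part of the solution operator -/
noncomputable def U2 (r κ : ℝ) (R : ℂ × ℂ → ℝ) (f h : ℂ × ℂ → ℂ) (p : ℂ × ℂ) : ℂ :=
  (1 / Real.pi : ℂ) * ∫ ζ in ball (0 : ℂ) κ, kk r R f h ζ p / (p.1 - ζ)

/-- a nice situation: the slices over `‖x.1‖ ≤ κ` are relatively compact, the form is `C¹` near their
closures -/
structure Ni (r κ L M : ℝ) (R : ℂ × ℂ → ℝ) (f h : ℂ × ℂ → ℂ) : Prop where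
  cr : CR r L R
  κ0 : 0 < κ
  κr : κ < r
  sl : ∀ x : ℂ × ℂ, ‖x.1‖ ≤ κ → r / 2 ≤ ‖x.2‖ → ‖x.2‖ < r → R x < 0
  fm : ∃ O : Set (ℂ × ℂ), IsOpen O ∧ {x : ℂ × ℂ | ‖x.1‖ ≤ κ ∧ ‖x.2‖ < r ∧ 0 ≤ R x} ⊆ O ∧ Fm O M f h

/-- the domain -/
def Om (r κ : ℝ) (R : ℂ × ℂ → ℝ) : Set (ℂ × ℂ) := {x | ‖x.1‖ < κ ∧ ‖x.2‖ < r ∧ 0 < R x}

end Pool.Agent.P157G
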