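import Mathlib
import Pool.Agent.P157G.DefsU

set_option autoImplicit false

open MeasureTheory Metric Set Filter Topology Complex

namespace Pool.Agent.P157G

open Pool.Agent.P157D (d1 d2 CR Bo)

lemma G5z_lin (D : ℂ × ℂ →L[ℝ] ℝ) (u : ℂ × ℂ) :
    2 * ((((D (1, 0) : ℝ) : ℂ) - Complex.I * ((D (Complex.I, 0) : ℝ) : ℂ)) / 2 * u.1 +
      (((D (0, 1) : ℝ) : ℂ) - Complex.I * ((D (0, Complex.I) : ℝ) : ℂ)) / 2 * u.2).re = D u := by
  have h1 : u = u.1.re • ((1, 0) : ℂ × ℂ) + u.1.im • ((Complex.I, 0) : ℂ × ℂ) +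
      u.2.re • ((0, 1) : ℂ × ℂ) + u.2.im • ((0, Complex.I) : ℂ × ℂ) := by
    refine Prod.ext ?_ ?_
    · apply Complex.ext <;> simp
    · apply Complex.ext <;> simp
  have h2 : D u = u.1.re * D (1, 0) + u.1.im * D (Complex.I, 0) + u.2.re * D (0, 1) +
      u.2.im * D (0, Complex.I) := by
    conv_lhs => rw [h1]
    simp only [map_add, map_smul, smul_eq_mul]
  rw [h2]
  simp
  ring

/-- **TARGET** -/
theorem PH_re {r L : ℝ} {R : ℂ × ℂ → ℝ} (hR : CR r L R) {s p : ℂ × ℂ} (hs : s ∈ Bo r) (hp : p ∈ Bo r) :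
    R s + R p + ‖p.1 - s.1‖ ^ 2 + ‖p.2 - s.2‖ ^ 2 ≤ 2 * (PH R s p).re := by
  have h1 := hR.conc s hs p hp
  have h2 := G5z_lin (fderiv ℝ R s) (p - s)
  have h3 : (PH R s p).re = R s + ((((fderiv ℝ R s (1, 0) : ℝ) : ℂ) -
      Complex.I * ((fderiv ℝ R s (Complex.I, 0) : ℝ) : ℂ)) / 2 * (p - s).1 +
      (((fderiv ℝ R s (0, 1) : ℝ) : ℂ) -
      Complex.I * ((fderiv ℝ R s (0, Complex.I) : ℝ) : ℂ)) / 2 * (p - s).2).re := by
    unfold PH Pool.Agent.P157D.d1 Pool.Agent.P157D.d2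
    rw [add_assoc, Complex.add_re, Complex.ofReal_re]
    rfl
  linarith

end Pool.Agent.P157G
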