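import Mathlib
import Pool.Agent.P157C.IntE
import Pool.Agent.P157G.InvInt
import Pool.Agent.P157G.PHre

set_option autoImplicit false

open MeasureTheory Metric Set Filter Topology Complex

namespace Pool.Agent.P157G

open Pool.Agent.P157D (d1 d2 CR Bo)

/-- a bounded function on a subset of a disc -/
theorem G4b_L1 {E : Set ℂ} (hE : MeasurableSet E) {y : ℂ} {ρ K : ℝ} (hρ : 0 ≤ ρ) (hK : 0 ≤ K)
    (hs : E ⊆ closedBall y ρ) {f : ℂ → ℝ} (hf : ∀ η ∈ E, f η ≤ K) :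
    ∫⁻ η in E, ENNReal.ofReal (f η) ≤ ENNReal.ofReal (K * Real.pi * ρ ^ 2) := by
  have h1 : ∫⁻ η in E, ENNReal.ofReal (f η) ≤ ∫⁻ η in E, ENNReal.ofReal K :=
    setLIntegral_mono' hE fun η hη => ENNReal.ofReal_le_ofReal (hf η hη)
  refine h1.trans ?_
  rw [setLIntegral_const]
  have h2 : volume E ≤ volume (closedBall y ρ) := measure_mono hs
  rw [Complex.volume_closedBall] at h2
  calc ENNReal.ofReal K * volume E ≤ ENNReal.ofReal K * (ENNReal.ofReal ρ ^ 2 * NNReal.pi) := by gcongr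
    _ = ENNReal.ofReal (K * Real.pi * ρ ^ 2) := by
      have h3 : (NNReal.pi : ENNReal) = ENNReal.ofReal Real.pi := by
        rw [ENNReal.ofReal, ← NNReal.coe_real_pi, Real.toNNReal_coe]
      rw [h3, ← ENNReal.ofReal_pow hρ, ← ENNReal.ofReal_mul (by positivity),
        ← ENNReal.ofReal_mul hK]
      congr 1
      ring

/-- a power of the distance near the centre -/
theorem G4b_L2 {E : Set ℂ} (hE : MeasurableSet E) {y : ℂ} {ρ K p : ℝ} (hρ : 0 ≤ ρ) (hK : 0 ≤ K)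
    (hp : p < 2) (hs : E ⊆ closedBall y ρ) {f : ℂ → ℝ} (hf : ∀ η ∈ E, f η ≤ K * ‖η - y‖ ^ (-p)) :
    ∫⁻ η in E, ENNReal.ofReal (f η) ≤
      ENNReal.ofReal (K * (2 * Real.pi * (ρ ^ (2 - p) / (2 - p)))) := by
  obtain ⟨h1, h2⟩ := Pool.Agent.P157C.ie_in p ρ hp hρ y
  set g : ℂ → ℝ := fun η => (Iic ρ).indicator (fun y : ℝ => y ^ (-p)) ‖η - y‖ with hg
  have hg0 : ∀ η, 0 ≤ g η := by
    intro η
    exact indicator_apply_nonneg fun _ => Real.rpow_nonneg (norm_nonneg _) _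
  have h3 : ∫⁻ η in E, ENNReal.ofReal (f η) ≤ ∫⁻ η in E, ENNReal.ofReal (K * g η) := by
    apply setLIntegral_mono' hE
    intro η hη
    apply ENNReal.ofReal_le_ofReal
    refine (hf η hη).trans (le_of_eq ?_)
    have : ‖η - y‖ ∈ Iic ρ := by
      have := hs hη
      rw [mem_closedBall, dist_eq_norm] at this
      exact this
    rw [hg]
    simp only
    rw [indicator_of_mem this]
  refine h3.trans ((setLIntegral_le_lintegral _ _).trans ?_)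
  rw [← ofReal_integral_eq_lintegral_ofReal (h1.const_mul K)
    (ae_of_all _ fun η => mul_nonneg hK (hg0 η)), integral_const_mul, h2]

/-- a power of the distance far from the centre -/
theorem G4b_L3 {E : Set ℂ} (hE : MeasurableSet E) {y : ℂ} {ρ K p : ℝ} (hρ : 0 < ρ) (hK : 0 ≤ K)
    (hp : 2 < p) (hs : ∀ η ∈ E, ρ < ‖η - y‖) {f : ℂ → ℝ} (hf : ∀ η ∈ E, f η ≤ K * ‖η - y‖ ^ (-p)) :
    ∫⁻ η in E, ENNReal.ofReal (f η) ≤
      ENNReal.ofReal (K * (2 * Real.pi * (ρ ^ (2 - p) / (p - 2)))) := by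
  obtain ⟨h1, h2⟩ := Pool.Agent.P157C.ie_out p ρ hp hρ y
  set g : ℂ → ℝ := fun η => (Ioi ρ).indicator (fun y : ℝ => y ^ (-p)) ‖η - y‖ with hg
  have hg0 : ∀ η, 0 ≤ g η := by
    intro η
    exact indicator_apply_nonneg fun _ => Real.rpow_nonneg (norm_nonneg _) _
  have h3 : ∫⁻ η in E, ENNReal.ofReal (f η) ≤ ∫⁻ η in E, ENNReal.ofReal (K * g η) := by
    apply setLIntegral_mono' hE
    intro η hη
    apply ENNReal.ofReal_le_ofReal
    refine (hf η hη).trans (le_of_eq ?_)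
    have : ‖η - y‖ ∈ Ioi ρ := hs η hη
    rw [hg]
    simp only
    rw [indicator_of_mem this]
  refine h3.trans ((setLIntegral_le_lintegral _ _).trans ?_)
  rw [← ofReal_integral_eq_lintegral_ofReal (h1.const_mul K)
    (ae_of_all _ fun η => mul_nonneg hK (hg0 η)), integral_const_mul, h2]

/-- the data on one slice -/
structure G4b_D (r L t : ℝ) (v y : ℂ) (ρ : ℂ → ℝ) (α β : ℂ → ℂ) : Prop where
  hr1 : r ≤ 1
  hL : 1 ≤ L
  ht : 0 < t
  ht2 : t ≤ 2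
  hv : ‖v‖ = t
  hy : ‖y‖ < r
  hα : ∀ η, ‖η‖ < r → 1 ≤ L * ‖α η‖
  lα : ∀ η η', ‖η‖ < r → ‖η'‖ < r → ‖α η - α η'‖ ≤ L * ‖η - η'‖
  lβ : ∀ η η', ‖η‖ < r → ‖η'‖ < r → ‖β η - β η'‖ ≤ L * ‖η - η'‖
  tay : ∀ η η', ‖η‖ < r → ‖η'‖ < r → |ρ η - ρ η' - 2 * (β η' * (η - η')).re| ≤ L * ‖η - η'‖ ^ 2
  conc : ∀ η, ‖η‖ < r → 0 < ρ η →
    ρ η + t ^ 2 + ‖y - η‖ ^ 2 ≤ 2 * ((ρ η : ℂ) + α η * v + β η * (y - η)).re
  cρ : ContinuousOn ρ (ball 0 r)
  cα : ContinuousOn α (ball 0 r)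
  cβ : ContinuousOn β (ball 0 r)

theorem G4b_lo {r L t : ℝ} {v y : ℂ} {ρ : ℂ → ℝ} {α β : ℂ → ℂ} (h : G4b_D r L t v y ρ α β)
    {η : ℂ} (hη : ‖η‖ < r) (hρ : 0 < ρ η) :
    ρ η ≤ 2 * ‖(ρ η : ℂ) + α η * v + β η * (y - η)‖ ∧
      t ^ 2 + ‖η - y‖ ^ 2 ≤ 2 * ‖(ρ η : ℂ) + α η * v + β η * (y - η)‖ := by
  have h1 := h.conc η hη hρ
  have h2 := Complex.re_le_norm ((ρ η : ℂ) + α η * v + β η * (y - η))
  rw [norm_sub_rev y η] at h1
  have h3 := sq_nonneg t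
  have h4 := sq_nonneg ‖η - y‖
  constructor <;> linarith

/-- the key fact -/
theorem G4b_K {r L t : ℝ} {v y : ℂ} {ρ : ℂ → ℝ} {α β : ℂ → ℂ} (h : G4b_D r L t v y ρ α β)
    {η : ℂ} (hη : ‖η‖ < r) (hρ : 0 < ρ η) (hb : ‖β η‖ * ‖η - y‖ ≤ t / (4 * L)) :
    t / (4 * L) ≤ ‖(ρ η : ℂ) + α η * v + β η * (y - η)‖ := by
  obtain ⟨h1, -⟩ := G4b_lo h hη hρ
  have hL := h.hL
  have hL0 : 0 < L := by linarith
  set Φ := (ρ η : ℂ) + α η * v + β η * (y - η) with hΦ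
  have h2 : α η * v = Φ - (ρ η : ℂ) - β η * (y - η) := by rw [hΦ]; ring
  have h3 : ‖α η * v‖ ≤ ‖Φ‖ + ρ η + ‖β η‖ * ‖η - y‖ := by
    rw [h2]
    calc ‖Φ - (ρ η : ℂ) - β η * (y - η)‖ ≤ ‖Φ - (ρ η : ℂ)‖ + ‖β η * (y - η)‖ := norm_sub_le _ _
      _ ≤ ‖Φ‖ + ‖(ρ η : ℂ)‖ + ‖β η * (y - η)‖ := by gcongr; exact norm_sub_le _ _
      _ = ‖Φ‖ + ρ η + ‖β η‖ * ‖η - y‖ := by
        rw [Complex.norm_real, Real.norm_eq_abs, abs_of_pos hρ, norm_mul, norm_sub_rev y η]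
  rw [norm_mul, h.hv] at h3
  have h4 : t / L ≤ ‖α η‖ * t := by
    rw [div_le_iff₀ hL0]
    have := h.hα η hη
    have ht := h.ht
    nlinarith
  have h5 : t / (4 * L) = t / L / 4 := by field_simp
  rw [h5] at hb ⊢
  linarith

/-- reduction to the exponent `7 / 8` -/
theorem G4b_pw {t p : ℝ} (ht : 0 < t) (ht2 : t ≤ 2) (hp : 0 ≤ p) (hp2 : p ≤ 7 / 8) :
    t ^ (-p) ≤ 2 * t ^ (-(7 / 8) : ℝ) := by
  have h1 : t ^ (-p) = t ^ (7 / 8 - p) * t ^ (-(7 / 8) : ℝ) := by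
    rw [← Real.rpow_add ht]
    congr 1
    ring
  rw [h1]
  have h2 : t ^ (7 / 8 - p) ≤ 2 := by
    calc t ^ (7 / 8 - p) ≤ 2 ^ (7 / 8 - p) := Real.rpow_le_rpow ht.le ht2 (by linarith)
      _ ≤ 2 ^ (1 : ℝ) := Real.rpow_le_rpow_of_exponent_le (by norm_num) (by linarith)
      _ = 2 := Real.rpow_one 2
  have h3 : 0 ≤ t ^ (-(7 / 8) : ℝ) := Real.rpow_nonneg ht.le _
  exact mul_le_mul_of_nonneg_right h2 h3

/-- the first term -/
theorem G4b_T {r L t : ℝ} {v y : ℂ} {ρ : ℂ → ℝ} {α β : ℂ → ℂ} (h : G4b_D r L t v y ρ α β)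
    {S : Set ℂ} (hS : MeasurableSet S) (hS1 : ∀ η ∈ S, ‖η‖ < r ∧ 0 < ρ η) :
    ∫⁻ η in S, ENNReal.ofReal (1 / ‖(ρ η : ℂ) + α η * v + β η * (y - η)‖) ≤
      ENNReal.ofReal (20 * Real.pi * t ^ (-(7 / 8) : ℝ)) := by
  set F : ℂ → ℝ := fun η => 1 / ‖(ρ η : ℂ) + α η * v + β η * (y - η)‖ with hF
  have ht := h.ht
  have hm : MeasurableSet {η : ℂ | ‖η - y‖ ≤ t} :=
    measurableSet_le (by fun_prop) measurable_const
  have hS' : S = (S ∩ {η : ℂ | ‖η - y‖ ≤ t}) ∪ (S \ {η : ℂ | ‖η - y‖ ≤ t}) :=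
    (inter_union_sdiff _ _).symm
  have hF0 : ∀ η ∈ S, F η ≤ 2 / (t ^ 2 + ‖η - y‖ ^ 2) := by
    intro η hη
    obtain ⟨h1, h2⟩ := hS1 η hη
    obtain ⟨-, h3⟩ := G4b_lo h h1 h2
    rw [hF]
    simp only
    have h4 : 0 < t ^ 2 + ‖η - y‖ ^ 2 := by positivity
    rw [div_le_div_iff₀ (by linarith) h4]
    linarith
  have e1 : ∫⁻ η in S ∩ {η : ℂ | ‖η - y‖ ≤ t}, ENNReal.ofReal (F η) ≤
      ENNReal.ofReal (2 / t ^ 2 * Real.pi * t ^ 2) := by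
    apply G4b_L1 (hS.inter hm) ht.le (by positivity) (y := y)
    · intro η hη
      rw [mem_closedBall, dist_eq_norm]
      exact hη.2
    · intro η hη
      refine (hF0 η hη.1).trans ?_
      apply div_le_div_of_nonneg_left (by norm_num) (by positivity)
      have := sq_nonneg ‖η - y‖
      linarith
  have e2 : ∫⁻ η in S \ {η : ℂ | ‖η - y‖ ≤ t}, ENNReal.ofReal (F η) ≤
      ENNReal.ofReal (2 * t ^ (-(7 / 8) : ℝ) *
        (2 * Real.pi * (2 ^ (2 - (9 / 8) : ℝ) / (2 - (9 / 8))))) := by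
    apply G4b_L2 (hS.diff hm) (by norm_num) (by positivity) (by norm_num) (y := y)
    · intro η hη
      rw [mem_closedBall, dist_eq_norm]
      have h1 := (hS1 η hη.1).1
      have h2 := h.hy
      have h3 := norm_sub_le η y
      have h4 := h.hr1
      linarith
    · intro η hη
      refine (hF0 η hη.1).trans ?_
      have hd : t < ‖η - y‖ := not_le.mp hη.2
      set d := ‖η - y‖
      have hd0 : 0 < d := ht.trans hd
      have h1 : 2 / (t ^ 2 + d ^ 2) ≤ 2 * (d ^ 2)⁻¹ := by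
        rw [← div_eq_mul_inv]
        apply div_le_div_of_nonneg_left (by norm_num) (by positivity)
        have := sq_nonneg t
        linarith
      have h2 : (d ^ 2)⁻¹ = d ^ (-(7 / 8) : ℝ) * d ^ (-(9 / 8) : ℝ) := by
        rw [← Real.rpow_add hd0, ← Real.rpow_natCast d 2, ← Real.rpow_neg hd0.le]
        norm_num
      have h3 : d ^ (-(7 / 8) : ℝ) ≤ t ^ (-(7 / 8) : ℝ) :=
        Real.rpow_le_rpow_of_nonpos ht hd.le (by norm_num)
      refine h1.trans ?_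
      rw [h2]
      have h4 : 0 ≤ d ^ (-(9 / 8) : ℝ) := Real.rpow_nonneg hd0.le _
      have h5 := mul_le_mul_of_nonneg_right h3 h4
      linarith
  rw [hS']
  refine (lintegral_union_le _ _ _).trans ((add_le_add e1 e2).trans ?_)
  have hp := Real.pi_pos
  have ht7 : 0 ≤ t ^ (-(7 / 8) : ℝ) := Real.rpow_nonneg ht.le _
  rw [← ENNReal.ofReal_add (by positivity) (by positivity)]
  apply ENNReal.ofReal_le_ofReal
  have h1 : 2 / t ^ 2 * Real.pi * t ^ 2 = 2 * Real.pi := by field_simp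
  have h2 : (2 : ℝ) ^ (2 - (9 / 8) : ℝ) ≤ 2 := by
    calc (2 : ℝ) ^ (2 - (9 / 8) : ℝ) ≤ 2 ^ (1 : ℝ) :=
          Real.rpow_le_rpow_of_exponent_le (by norm_num) (by norm_num)
      _ = 2 := Real.rpow_one 2
  have h3 : (1 : ℝ) ≤ 2 * t ^ (-(7 / 8) : ℝ) := by
    have := G4b_pw ht h.ht2 le_rfl (by norm_num)
    simpa using this
  have h4 : (2 : ℝ) ^ (2 - (9 / 8) : ℝ) / (2 - (9 / 8)) ≤ 16 / 7 := by
    rw [div_le_div_iff₀ (by norm_num) (by norm_num)]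
    linarith
  rw [h1]
  have a1 : 2 * Real.pi ≤ 2 * Real.pi * (2 * t ^ (-(7 / 8) : ℝ)) := by
    have := mul_le_mul_of_nonneg_left h3 (by positivity : (0 : ℝ) ≤ 2 * Real.pi)
    linarith
  have a2 : 2 * t ^ (-(7 / 8) : ℝ) *
        (2 * Real.pi * ((2 : ℝ) ^ (2 - (9 / 8) : ℝ) / (2 - (9 / 8)))) ≤
      2 * t ^ (-(7 / 8) : ℝ) * (2 * Real.pi * (16 / 7)) := by gcongr
  have a3 : 0 ≤ Real.pi * t ^ (-(7 / 8) : ℝ) := by positivity
  linarith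

/-- region (i), far from `y` -/
theorem G4b_R1 {r L t : ℝ} {v y : ℂ} {ρ : ℂ → ℝ} {α β : ℂ → ℂ} (h : G4b_D r L t v y ρ α β)
    {S : Set ℂ} (hS : MeasurableSet S) (hS1 : ∀ η ∈ S, ‖η‖ < r ∧ 0 < ρ η) {M c : ℝ} (hM : 0 < M)
    (hc : 0 < c) (hS2 : ∀ η ∈ S, ‖β η‖ ≤ M * (t + ‖η - y‖)) (hS3 : ∀ η ∈ S, c * √t < ‖η - y‖) :
    ∫⁻ η in S, ENNReal.ofReal (‖β η‖ / ‖(ρ η : ℂ) + α η * v + β η * (y - η)‖ ^ 2) ≤
      ENNReal.ofReal (16 * Real.pi * M * (2 / c + 1) / c * t ^ (-(7 / 8) : ℝ)) := by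
  have ht := h.ht
  have hs : 0 < √t := Real.sqrt_pos.mpr ht
  have hp := Real.pi_pos
  have e1 := G4b_L3 hS (y := y) (ρ := c * √t) (K := 4 * M * (2 / c + 1)) (p := 3)
    (f := fun η => ‖β η‖ / ‖(ρ η : ℂ) + α η * v + β η * (y - η)‖ ^ 2)
    (by positivity) (by positivity) (by norm_num) hS3 ?_
  · refine e1.trans (ENNReal.ofReal_le_ofReal ?_)
    have h1 : (c * √t) ^ (2 - 3 : ℝ) = 1 / c * t ^ (-(1 / 2) : ℝ) := by
      rw [show (2 - 3 : ℝ) = -1 by norm_num, Real.rpow_neg_one, mul_inv, Real.sqrt_eq_rpow,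
        ← Real.rpow_neg ht.le, one_div c]
    rw [h1]
    have h2 : t ^ (-(1 / 2) : ℝ) ≤ 2 * t ^ (-(7 / 8) : ℝ) :=
      G4b_pw ht h.ht2 (by norm_num) (by norm_num)
    have h3 : (0 : ℝ) ≤ 4 * M * (2 / c + 1) * (2 * Real.pi * (1 / c)) := by positivity
    have h4 := mul_le_mul_of_nonneg_left h2 h3
    calc 4 * M * (2 / c + 1) * (2 * Real.pi * (1 / c * t ^ (-(1 / 2) : ℝ) / (3 - 2))) =
        4 * M * (2 / c + 1) * (2 * Real.pi * (1 / c)) * t ^ (-(1 / 2) : ℝ) := by ring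
      _ ≤ 4 * M * (2 / c + 1) * (2 * Real.pi * (1 / c)) * (2 * t ^ (-(7 / 8) : ℝ)) := h4
      _ = 16 * Real.pi * M * (2 / c + 1) / c * t ^ (-(7 / 8) : ℝ) := by ring
  · intro η hη
    obtain ⟨h1, h2⟩ := hS1 η hη
    obtain ⟨-, h3⟩ := G4b_lo h h1 h2
    have h4 := hS2 η hη
    have h5 := hS3 η hη
    set d := ‖η - y‖
    set φ := ‖(ρ η : ℂ) + α η * v + β η * (y - η)‖
    have hd0 : 0 < d := lt_trans (by positivity) h5
    have h6 : t ≤ 2 / c * d := by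
      have a1 : t = √t * √t := (Real.mul_self_sqrt ht.le).symm
      have a2 : √t ≤ 2 := by
        rw [Real.sqrt_le_left (by norm_num)]
        have := h.ht2
        linarith
      have a3 : √t ≤ d / c := by
        rw [le_div_iff₀ hc]
        linarith
      calc t = √t * √t := a1
        _ ≤ 2 * (d / c) := by gcongr
        _ = 2 / c * d := by ring
    have h7 : ‖β η‖ ≤ M * (2 / c + 1) * d := by
      refine h4.trans ?_
      have := mul_le_mul_of_nonneg_left h6 hM.le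
      calc M * (t + d) = M * t + M * d := by ring
        _ ≤ M * (2 / c * d) + M * d := by linarith
        _ = M * (2 / c + 1) * d := by ring
    have h8 : d ^ 2 / 2 ≤ φ := by
      have := sq_nonneg t
      linarith
    have h9 : d ^ (-3 : ℝ) = (d ^ 3)⁻¹ := by
      rw [Real.rpow_neg hd0.le]
      norm_cast
    rw [h9]
    calc ‖β η‖ / φ ^ 2 ≤ M * (2 / c + 1) * d / (d ^ 2 / 2) ^ 2 := by gcongr
      _ = 4 * M * (2 / c + 1) * (d ^ 3)⁻¹ := by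
        field_simp
        ring

/-- region (i), near `y` -/
theorem G4b_R2 {r L t : ℝ} {v y : ℂ} {ρ : ℂ → ℝ} {α β : ℂ → ℂ} (h : G4b_D r L t v y ρ α β)
    {S : Set ℂ} (hS : MeasurableSet S) (hS1 : ∀ η ∈ S, ‖η‖ < r ∧ 0 < ρ η) {M c : ℝ} (hM : 0 < M)
    (hc : 0 < c) (hc1 : c ≤ 1) (hMc : M * c * (12 * L) ≤ 1)
    (hS2 : ∀ η ∈ S, ‖β η‖ ≤ M * (t + ‖η - y‖)) (hS3 : ∀ η ∈ S, ‖η - y‖ ≤ c * √t) :
    ∫⁻ η in S, ENNReal.ofReal (‖β η‖ / ‖(ρ η : ℂ) + α η * v + β η * (y - η)‖ ^ 2) ≤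
      ENNReal.ofReal (96 * Real.pi * M * L ^ 2 * t ^ (-(7 / 8) : ℝ)) := by
  have ht := h.ht
  have hs : 0 < √t := Real.sqrt_pos.mpr ht
  have hp := Real.pi_pos
  have hL := h.hL
  have hL0 : 0 < L := by linarith
  have hs2 : √t * √t = t := Real.mul_self_sqrt ht.le
  have a2 : √t ≤ 3 / 2 := by
    rw [Real.sqrt_le_left (by norm_num)]
    have := h.ht2
    linarith
  have e1 := G4b_L1 hS (y := y) (ρ := c * √t) (K := M * (3 * √t) * (16 * L ^ 2 / t ^ 2))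
    (f := fun η => ‖β η‖ / ‖(ρ η : ℂ) + α η * v + β η * (y - η)‖ ^ 2)
    (by positivity) (by positivity) ?_ ?_
  · refine e1.trans (ENNReal.ofReal_le_ofReal ?_)
    have h2 : t ^ (-(1 / 2) : ℝ) ≤ 2 * t ^ (-(7 / 8) : ℝ) :=
      G4b_pw ht h.ht2 (by norm_num) (by norm_num)
    have h3 : t ^ (-(1 / 2) : ℝ) = √t / t := by
      rw [Real.rpow_neg ht.le, ← Real.sqrt_eq_rpow, eq_div_iff ht.ne', inv_mul_eq_iff_eq_mul₀ hs.ne']
      exact hs2.symm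
    rw [h3] at h2
    have h4 : (0 : ℝ) ≤ 48 * Real.pi * M * L ^ 2 := by positivity
    have h5 := mul_le_mul_of_nonneg_left h2 h4
    have h6 : c ^ 2 ≤ 1 := by nlinarith
    calc M * (3 * √t) * (16 * L ^ 2 / t ^ 2) * Real.pi * (c * √t) ^ 2 =
        c ^ 2 * (48 * Real.pi * M * L ^ 2 * (√t * (√t * √t) / t ^ 2)) := by ring
      _ ≤ 1 * (48 * Real.pi * M * L ^ 2 * (√t * (√t * √t) / t ^ 2)) := by gcongr
      _ = 48 * Real.pi * M * L ^ 2 * (√t / t) := by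
        rw [hs2]
        field_simp
      _ ≤ 48 * Real.pi * M * L ^ 2 * (2 * t ^ (-(7 / 8) : ℝ)) := h5
      _ = 96 * Real.pi * M * L ^ 2 * t ^ (-(7 / 8) : ℝ) := by ring
  · intro η hη
    rw [mem_closedBall, dist_eq_norm]
    exact hS3 η hη
  · intro η hη
    obtain ⟨h1, h2⟩ := hS1 η hη
    have h4 := hS2 η hη
    have h5 := hS3 η hη
    have hd0 : 0 ≤ ‖η - y‖ := norm_nonneg _
    have b1 : t + ‖η - y‖ ≤ 3 * √t := by
      have : ‖η - y‖ ≤ √t := h5.trans (by nlinarith)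
      nlinarith
    have b2 : ‖β η‖ ≤ M * (3 * √t) := h4.trans (by gcongr)
    have b3 : ‖β η‖ * ‖η - y‖ ≤ t / (4 * L) := by
      calc ‖β η‖ * ‖η - y‖ ≤ M * (3 * √t) * (c * √t) := by gcongr
        _ = 3 * (M * c) * (√t * √t) := by ring
        _ = 3 * (M * c) * t := by rw [hs2]
        _ ≤ t / (4 * L) := by
          rw [le_div_iff₀ (by positivity)]
          nlinarith
    have b4 := G4b_K h h1 h2 b3
    set φ := ‖(ρ η : ℂ) + α η * v + β η * (y - η)‖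
    have b5 : 0 < t / (4 * L) := by positivity
    calc ‖β η‖ / φ ^ 2 ≤ M * (3 * √t) / (t / (4 * L)) ^ 2 := by gcongr
      _ = M * (3 * √t) * (16 * L ^ 2 / t ^ 2) := by
        field_simp
        ring

/-- geometry of region (ii) -/
theorem G4b_geo {r L t : ℝ} {v y : ℂ} {ρ : ℂ → ℝ} {α β : ℂ → ℂ} (h : G4b_D r L t v y ρ α β)
    {η : ℂ} (hη : ‖η‖ < r) (hb : 50 * L * (t + ‖η - y‖) < ‖β η‖) :
    0 < ‖β y‖ ∧ ‖β η‖ ≤ 4 / 3 * ‖β y‖ ∧ 49 / 51 * ‖β y‖ ≤ ‖β η‖ ∧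
      50 * L * (t + ‖η - y‖) ≤ 51 / 49 * ‖β y‖ := by
  have ht := h.ht
  have hL := h.hL
  have h1 := h.lβ η y hη h.hy
  have h2 := norm_sub_norm_le (β η) (β y)
  have h3 := norm_sub_norm_le (β y) (β η)
  rw [norm_sub_rev (β y) (β η)] at h3
  have h4 : 0 ≤ ‖η - y‖ := norm_nonneg _
  have h5 : 0 < L * t := by positivity
  have h6 : 0 ≤ L * ‖η - y‖ := by positivity
  refine ⟨?_, ?_, ?_, ?_⟩ <;> nlinarith

/-- region (ii), `β` small -/
theorem G4b_R3 {r L t : ℝ} {v y : ℂ} {ρ : ℂ → ℝ} {α β : ℂ → ℂ} (h : G4b_D r L t v y ρ α β)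
    {S : Set ℂ} (hS : MeasurableSet S) (hS1 : ∀ η ∈ S, ‖η‖ < r ∧ 0 < ρ η)
    (hS2 : ∀ η ∈ S, 50 * L * (t + ‖η - y‖) < ‖β η‖) (hy : ‖β y‖ ≤ √t) :
    ∫⁻ η in S, ENNReal.ofReal (‖β η‖ / ‖(ρ η : ℂ) + α η * v + β η * (y - η)‖ ^ 2) ≤
      ENNReal.ofReal (Real.pi * t ^ (-(7 / 8) : ℝ)) := by
  have ht := h.ht
  have hs : 0 < √t := Real.sqrt_pos.mpr ht
  have hp := Real.pi_pos
  have hL := h.hL
  have hL0 : 0 < L := by linarith
  have hs2 : √t * √t = t := Real.mul_self_sqrt ht.le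
  have hd : ∀ η ∈ S, ‖η - y‖ ≤ √t / (40 * L) := by
    intro η hη
    obtain ⟨-, -, -, h1⟩ := G4b_geo h (hS1 η hη).1 (hS2 η hη)
    rw [le_div_iff₀ (by positivity)]
    have h5 : 0 < L * t := by positivity
    have h6 : 0 ≤ L * ‖η - y‖ := by positivity
    nlinarith
  have e1 := G4b_L1 hS (y := y) (ρ := √t / (40 * L)) (K := 4 / 3 * √t * (16 * L ^ 2 / t ^ 2))
    (f := fun η => ‖β η‖ / ‖(ρ η : ℂ) + α η * v + β η * (y - η)‖ ^ 2)
    (by positivity) (by positivity) ?_ ?_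
  · refine e1.trans (ENNReal.ofReal_le_ofReal ?_)
    have h2 : t ^ (-(1 / 2) : ℝ) ≤ 2 * t ^ (-(7 / 8) : ℝ) :=
      G4b_pw ht h.ht2 (by norm_num) (by norm_num)
    have h3 : t ^ (-(1 / 2) : ℝ) = √t / t := by
      rw [Real.rpow_neg ht.le, ← Real.sqrt_eq_rpow, eq_div_iff ht.ne', inv_mul_eq_iff_eq_mul₀ hs.ne']
      exact hs2.symm
    rw [h3] at h2
    calc 4 / 3 * √t * (16 * L ^ 2 / t ^ 2) * Real.pi * (√t / (40 * L)) ^ 2 =
        1 / 75 * Real.pi * (√t * (√t * √t) / t ^ 2) := by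
          field_simp
          ring
      _ = 1 / 75 * Real.pi * (√t / t) := by
        rw [hs2]
        field_simp
      _ ≤ 1 / 75 * Real.pi * (2 * t ^ (-(7 / 8) : ℝ)) := by gcongr
      _ ≤ Real.pi * t ^ (-(7 / 8) : ℝ) := by
        have : 0 ≤ Real.pi * t ^ (-(7 / 8) : ℝ) := by positivity
        nlinarith
  · intro η hη
    rw [mem_closedBall, dist_eq_norm]
    exact hd η hη
  · intro η hη
    obtain ⟨h1, h2⟩ := hS1 η hη
    obtain ⟨-, h3, -, -⟩ := G4b_geo h h1 (hS2 η hη)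
    have h4 := hd η hη
    have hd0 : 0 ≤ ‖η - y‖ := norm_nonneg _
    have b2 : ‖β η‖ ≤ 4 / 3 * √t := h3.trans (by gcongr)
    have b3 : ‖β η‖ * ‖η - y‖ ≤ t / (4 * L) := by
      calc ‖β η‖ * ‖η - y‖ ≤ 4 / 3 * √t * (√t / (40 * L)) := by gcongr
        _ = (√t * √t) / (30 * L) := by ring
        _ = t / (30 * L) := by rw [hs2]
        _ ≤ t / (4 * L) := by gcongr; norm_num
    have b4 := G4b_K h h1 h2 b3
    set φ := ‖(ρ η : ℂ) + α η * v + β η * (y - η)‖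
    have b5 : 0 < t / (4 * L) := by positivity
    calc ‖β η‖ / φ ^ 2 ≤ 4 / 3 * √t / (t / (4 * L)) ^ 2 := by gcongr
      _ = 4 / 3 * √t * (16 * L ^ 2 / t ^ 2) := by
        field_simp
        ring

/-- `Φ` is expanding in region (ii) -/
theorem G4b_exp {r L t : ℝ} {v y : ℂ} {ρ : ℂ → ℝ} {α β : ℂ → ℂ} (h : G4b_D r L t v y ρ α β)
    {η η' : ℂ} (hη : ‖η‖ < r) (hη' : ‖η'‖ < r) (hb : 50 * L * (t + ‖η - y‖) < ‖β η‖)
    (hb' : 50 * L * (t + ‖η' - y‖) < ‖β η'‖) :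
    ‖β y‖ / 2 * ‖η - η'‖ ≤ ‖((ρ η : ℂ) + α η * v + β η * (y - η)) -
      ((ρ η' : ℂ) + α η' * v + β η' * (y - η'))‖ := by
  have ht := h.ht
  have hL := h.hL
  have hL0 : 0 < L := by linarith
  obtain ⟨h0, h1, h2, h3⟩ := G4b_geo h hη hb
  obtain ⟨-, h1', h2', h3'⟩ := G4b_geo h hη' hb'
  have ta := h.tay η η' hη hη'
  have la := h.lα η η' hη hη'
  have lb := h.lβ η η' hη hη'
  set δ := ‖η - η'‖ with hδ
  have hδ0 : 0 ≤ δ := norm_nonneg _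
  have hδ1 : δ ≤ ‖η - y‖ + ‖η' - y‖ := by
    have := norm_sub_le (η - y) (η' - y)
    rw [show η - y - (η' - y) = η - η' by ring] at this
    exact this
  set e₁ : ℂ := ((ρ η - ρ η' - 2 * (β η' * (η - η')).re : ℝ) : ℂ) with he₁
  have n1 : ‖e₁‖ ≤ L * δ ^ 2 := by
    rw [he₁, Complex.norm_real, Real.norm_eq_abs]
    exact ta
  have hconj : (2 : ℂ) * ((β η' * (η - η')).re : ℂ) - β η' * (η - η') =
      starRingEnd ℂ (β η' * (η - η')) := by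
    apply Complex.ext
    · simp only [Complex.sub_re, Complex.mul_re, Complex.conj_re, Complex.ofReal_re,
        Complex.ofReal_im, Complex.re_ofNat, Complex.im_ofNat]
      ring
    · simp only [Complex.sub_im, Complex.mul_im, Complex.conj_im, Complex.ofReal_re,
        Complex.ofReal_im, Complex.re_ofNat, Complex.im_ofNat]
      ring
  have key : ((ρ η : ℂ) + α η * v + β η * (y - η)) - ((ρ η' : ℂ) + α η' * v + β η' * (y - η')) =
      starRingEnd ℂ (β η' * (η - η')) + (e₁ + (α η - α η') * v + (β η - β η') * (y - η)) := by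
    rw [← hconj, he₁]
    push_cast
    ring
  have n2 : ‖e₁ + (α η - α η') * v + (β η - β η') * (y - η)‖ ≤
      L * δ ^ 2 + L * δ * t + L * δ * ‖η - y‖ := by
    calc ‖e₁ + (α η - α η') * v + (β η - β η') * (y - η)‖ ≤
        ‖e₁‖ + ‖(α η - α η') * v‖ + ‖(β η - β η') * (y - η)‖ := norm_add₃_le
      _ ≤ L * δ ^ 2 + L * δ * t + L * δ * ‖η - y‖ := by
        rw [norm_mul, norm_mul, h.hv, norm_sub_rev y η]
        gcongr
  have n3 : ‖starRingEnd ℂ (β η' * (η - η'))‖ = ‖β η'‖ * δ := by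
    rw [RCLike.norm_conj, norm_mul]
  have n4 : ‖starRingEnd ℂ (β η' * (η - η'))‖ -
      ‖e₁ + (α η - α η') * v + (β η - β η') * (y - η)‖ ≤
      ‖starRingEnd ℂ (β η' * (η - η')) + (e₁ + (α η - α η') * v + (β η - β η') * (y - η))‖ := by
    have := norm_sub_le (starRingEnd ℂ (β η' * (η - η')) +
      (e₁ + (α η - α η') * v + (β η - β η') * (y - η)))
      (e₁ + (α η - α η') * v + (β η - β η') * (y - η))
    rw [add_sub_cancel_right] at this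
    linarith
  rw [key]
  refine le_trans ?_ n4
  rw [n3]
  have f1 : L * (t + ‖η - y‖) ≤ 1 / 40 * ‖β y‖ := by nlinarith
  have f2 : L * (t + ‖η' - y‖) ≤ 1 / 40 * ‖β y‖ := by nlinarith
  have f3 : L * δ ≤ 1 / 20 * ‖β y‖ := by
    have := mul_le_mul_of_nonneg_left hδ1 hL0.le
    have h5 : 0 < L * t := by positivity
    nlinarith
  have f4 : L * δ ^ 2 + L * δ * t + L * δ * ‖η - y‖ ≤ 3 / 40 * ‖β y‖ * δ := by
    calc L * δ ^ 2 + L * δ * t + L * δ * ‖η - y‖ = (L * δ + L * (t + ‖η - y‖)) * δ := by ring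
      _ ≤ (1 / 20 * ‖β y‖ + 1 / 40 * ‖β y‖) * δ := by gcongr
      _ = 3 / 40 * ‖β y‖ * δ := by ring
  have f5 : 49 / 51 * ‖β y‖ * δ ≤ ‖β η'‖ * δ := by gcongr
  have f6 : 0 ≤ ‖β y‖ * δ := by positivity
  linarith

/-- region (ii), `β` large -/
theorem G4b_R4 : ∃ C : ℝ, 0 ≤ C ∧ ∀ (r L t : ℝ) (v y : ℂ) (ρ : ℂ → ℝ) (α β : ℂ → ℂ),
    G4b_D r L t v y ρ α β → ∀ S : Set ℂ, MeasurableSet S → (∀ η ∈ S, ‖η‖ < r ∧ 0 < ρ η) →
    (∀ η ∈ S, 50 * L * (t + ‖η - y‖) < ‖β η‖) → √t < ‖β y‖ →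
    ∫⁻ η in S, ENNReal.ofReal (‖β η‖ / ‖(ρ η : ℂ) + α η * v + β η * (y - η)‖ ^ 2) ≤
      ENNReal.ofReal (C * t ^ (-(7 / 8) : ℝ)) := by
  obtain ⟨C₀, hC₀, hI⟩ := inv_int
  refine ⟨6 * C₀, by positivity, ?_⟩
  intro r L t v y ρ α β h S hS hS1 hS2 hy
  have ht := h.ht
  have hs : 0 < √t := Real.sqrt_pos.mpr ht
  have hL := h.hL
  have hL0 : 0 < L := by linarith
  set b := ‖β y‖ with hb
  have hb0 : 0 < b := hs.trans hy
  have e1 := hI S (fun η => (ρ η : ℂ) + α η * v + β η * (y - η)) y b b (t ^ 2 / 2) hS hb0 hb0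
    (by positivity) ?_ ?_ ?_
  · have e2 : ∫⁻ η in S, ENNReal.ofReal (‖β η‖ / ‖(ρ η : ℂ) + α η * v + β η * (y - η)‖ ^ 2) ≤
        ∫⁻ η in S, ENNReal.ofReal (4 / 3 * b) *
          ENNReal.ofReal (1 / ‖(ρ η : ℂ) + α η * v + β η * (y - η)‖ ^ 2) := by
      apply setLIntegral_mono' hS
      intro η hη
      obtain ⟨-, h1, -, -⟩ := G4b_geo h (hS1 η hη).1 (hS2 η hη)
      rw [← ENNReal.ofReal_mul (by positivity)]
      apply ENNReal.ofReal_le_ofReal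
      rw [mul_one_div]
      gcongr
    refine e2.trans ?_
    rw [lintegral_const_mul' _ _ ENNReal.ofReal_ne_top]
    refine (mul_le_mul_right e1 _).trans ?_
    rw [← ENNReal.ofReal_mul (by positivity)]
    apply ENNReal.ofReal_le_ofReal
    have g1 : (t ^ 2 / 2) ^ (-(1 / 4) : ℝ) ≤ 2 * t ^ (-(1 / 2) : ℝ) := by
      rw [Real.div_rpow (by positivity) (by norm_num), ← Real.rpow_natCast t 2, ← Real.rpow_mul ht.le,
        div_eq_mul_inv, ← Real.rpow_neg (by norm_num)]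
      have : (2 : ℝ) ^ (-(-(1 / 4)) : ℝ) ≤ 2 := by
        calc (2 : ℝ) ^ (-(-(1 / 4)) : ℝ) ≤ 2 ^ (1 : ℝ) :=
              Real.rpow_le_rpow_of_exponent_le (by norm_num) (by norm_num)
          _ = 2 := Real.rpow_one 2
      have h2 : ((2 : ℕ) : ℝ) * (-(1 / 4)) = -(1 / 2) := by norm_num
      rw [h2]
      have h3 : 0 ≤ t ^ (-(1 / 2) : ℝ) := Real.rpow_nonneg ht.le _
      nlinarith
    have g2 : b * (b ^ (-(7 / 4) : ℝ) * b ^ ((1 / 4) : ℝ)) = b ^ (-(1 / 2) : ℝ) := by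
      rw [← Real.rpow_add hb0]
      nth_rewrite 1 [← Real.rpow_one b]
      rw [← Real.rpow_add hb0]
      norm_num
    have g3 : b ^ (-(1 / 2) : ℝ) ≤ t ^ (-(1 / 4) : ℝ) := by
      calc b ^ (-(1 / 2) : ℝ) ≤ (√t) ^ (-(1 / 2) : ℝ) :=
            Real.rpow_le_rpow_of_nonpos hs hy.le (by norm_num)
        _ = t ^ (-(1 / 4) : ℝ) := by
          rw [Real.sqrt_eq_rpow, ← Real.rpow_mul ht.le]
          norm_num
    have g4 : t ^ (-(1 / 2) : ℝ) * t ^ (-(1 / 4) : ℝ) = t ^ (-(3 / 4) : ℝ) := by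
      rw [← Real.rpow_add ht]
      norm_num
    have g5 : t ^ (-(3 / 4) : ℝ) ≤ 2 * t ^ (-(7 / 8) : ℝ) :=
      G4b_pw ht h.ht2 (by norm_num) (by norm_num)
    have n1 : 0 ≤ t ^ (-(1 / 2) : ℝ) := Real.rpow_nonneg ht.le _
    have n2 : 0 ≤ t ^ (-(1 / 4) : ℝ) := Real.rpow_nonneg ht.le _
    have n3 : 0 ≤ b ^ (-(1 / 2) : ℝ) := Real.rpow_nonneg hb0.le _
    have n4 : 0 ≤ t ^ (-(7 / 8) : ℝ) := Real.rpow_nonneg ht.le _
    calc 4 / 3 * b * (C₀ * (t ^ 2 / 2) ^ (-(1 / 4) : ℝ) * b ^ (-(7 / 4) : ℝ) * b ^ ((1 / 4) : ℝ)) =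
        4 / 3 * C₀ * ((t ^ 2 / 2) ^ (-(1 / 4) : ℝ) *
          (b * (b ^ (-(7 / 4) : ℝ) * b ^ ((1 / 4) : ℝ)))) := by ring
      _ = 4 / 3 * C₀ * ((t ^ 2 / 2) ^ (-(1 / 4) : ℝ) * b ^ (-(1 / 2) : ℝ)) := by rw [g2]
      _ ≤ 4 / 3 * C₀ * ((2 * t ^ (-(1 / 2) : ℝ)) * t ^ (-(1 / 4) : ℝ)) := by gcongr
      _ = 8 / 3 * C₀ * t ^ (-(3 / 4) : ℝ) := by rw [← g4]; ring
      _ ≤ 8 / 3 * C₀ * (2 * t ^ (-(7 / 8) : ℝ)) := by gcongr
      _ ≤ 6 * C₀ * t ^ (-(7 / 8) : ℝ) := by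
        have : 0 ≤ C₀ * t ^ (-(7 / 8) : ℝ) := by positivity
        linarith
  · intro η hη
    rw [mem_closedBall, dist_eq_norm]
    obtain ⟨-, -, -, h1⟩ := G4b_geo h (hS1 η hη).1 (hS2 η hη)
    have h5 : 0 < L * t := by positivity
    have h6 : ‖η - y‖ ≤ L * ‖η - y‖ := by
      have := norm_nonneg (η - y)
      nlinarith
    nlinarith
  · intro η hη
    obtain ⟨h1, h2⟩ := hS1 η hη
    obtain ⟨-, h3⟩ := G4b_lo h h1 h2
    have := sq_nonneg ‖η - y‖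
    linarith
  · intro η hη η' hη'
    exact G4b_exp h (hS1 η hη).1 (hS1 η' hη').1 (hS2 η hη) (hS2 η' hη')

/-- all regions together -/
theorem G4b_all {L : ℝ} (hL : 1 ≤ L) : ∃ C : ℝ, 0 ≤ C ∧
    ∀ (r t : ℝ) (v y : ℂ) (ρ : ℂ → ℝ) (α β : ℂ → ℂ), G4b_D r L t v y ρ α β →
    ∫⁻ η in {η : ℂ | ‖η‖ < r ∧ 0 < ρ η},
      ENNReal.ofReal (‖β η‖ / ‖(ρ η : ℂ) + α η * v + β η * (y - η)‖ ^ 2 +
        1 / ‖(ρ η : ℂ) + α η * v + β η * (y - η)‖) ≤
      ENNReal.ofReal (C * t ^ (-(7 / 8) : ℝ)) := by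
  obtain ⟨C₀, hC₀, hI⟩ := G4b_R4
  have hp := Real.pi_pos
  have hL0 : 0 < L := by linarith
  set c : ℝ := 1 / (600 * L ^ 2) with hc
  have hc0 : 0 < c := by positivity
  set K₁ : ℝ := 16 * Real.pi * (50 * L) * (2 / c + 1) / c with hK₁
  set K₂ : ℝ := 96 * Real.pi * (50 * L) * L ^ 2 with hK₂
  have hK₁0 : 0 ≤ K₁ := by positivity
  have hK₂0 : 0 ≤ K₂ := by positivity
  refine ⟨(K₁ + K₂ + (Real.pi + C₀)) + 20 * Real.pi, by positivity, ?_⟩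
  intro r t v y ρ α β h
  have ht := h.ht
  have hT : 0 ≤ t ^ (-(7 / 8) : ℝ) := Real.rpow_nonneg ht.le _
  set S : Set ℂ := {η : ℂ | ‖η‖ < r ∧ 0 < ρ η} with hSdef
  have hS1 : ∀ η ∈ S, ‖η‖ < r ∧ 0 < ρ η := fun η hη => hη
  have hSe : S = ball 0 r ∩ ρ ⁻¹' (Ioi 0) := by
    ext η
    simp [hSdef]
  have hSo : IsOpen S := by
    rw [hSe]
    exact h.cρ.isOpen_inter_preimage isOpen_ball isOpen_Ioi
  have hSb : S ⊆ ball 0 r := by
    rw [hSe]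
    exact inter_subset_left
  have hS : MeasurableSet S := hSo.measurableSet
  set Φ : ℂ → ℂ := fun η => (ρ η : ℂ) + α η * v + β η * (y - η) with hΦ
  have hΦc : ContinuousOn Φ S := by
    have c1 := h.cρ.mono hSb
    have c2 := h.cα.mono hSb
    have c3 := h.cβ.mono hSb
    have c4 : ContinuousOn (fun η => (ρ η : ℂ)) S := Complex.continuous_ofReal.comp_continuousOn c1
    exact (c4.add (c2.mul continuousOn_const)).add (c3.mul (by fun_prop))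
  have hΦ0 : ∀ η ∈ S, ‖Φ η‖ ≠ 0 := by
    intro η hη
    obtain ⟨-, h3⟩ := G4b_lo h (hS1 η hη).1 (hS1 η hη).2
    have h4 : 0 < t ^ 2 + ‖η - y‖ ^ 2 := by positivity
    have : 0 < ‖Φ η‖ := by
      rw [hΦ]
      simp only
      linarith
    exact this.ne'
  have hm1 : AEMeasurable (fun η => ENNReal.ofReal (‖β η‖ / ‖Φ η‖ ^ 2)) (volume.restrict S) := by
    apply AEMeasurable.ennreal_ofReal
    apply ContinuousOn.aemeasurable _ hS
    exact (h.cβ.mono hSb).norm.div (hΦc.norm.pow 2) fun η hη => pow_ne_zero 2 (hΦ0 η hη)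
  have hsum : ∫⁻ η in S, ENNReal.ofReal (‖β η‖ / ‖Φ η‖ ^ 2 + 1 / ‖Φ η‖) =
      (∫⁻ η in S, ENNReal.ofReal (‖β η‖ / ‖Φ η‖ ^ 2)) + ∫⁻ η in S, ENNReal.ofReal (1 / ‖Φ η‖) := by
    rw [← lintegral_add_left' hm1]
    apply lintegral_congr
    intro η
    rw [ENNReal.ofReal_add (by positivity) (by positivity)]
  rw [hsum]
  have t2 : ∫⁻ η in S, ENNReal.ofReal (1 / ‖Φ η‖) ≤
      ENNReal.ofReal (20 * Real.pi * t ^ (-(7 / 8) : ℝ)) := G4b_T h hS hS1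
  set A : Set ℂ := {η | 50 * L * (t + ‖η - y‖) < ‖β η‖} with hA
  set D : Set ℂ := {η | c * √t < ‖η - y‖} with hD
  have hSA : MeasurableSet (S ∩ A) := by
    have hg : ContinuousOn (fun η => ‖β η‖ - 50 * L * (t + ‖η - y‖)) S := by
      apply ((h.cβ.mono hSb).norm).sub
      fun_prop
    have : S ∩ A = S ∩ (fun η => ‖β η‖ - 50 * L * (t + ‖η - y‖)) ⁻¹' (Ioi 0) := by
      ext η
      simp [hA]
    rw [this]
    exact (hg.isOpen_inter_preimage hSo isOpen_Ioi).measurableSet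
  have hDm : MeasurableSet D := measurableSet_lt measurable_const (by fun_prop)
  have hSA' : MeasurableSet (S \ A) := by
    have : S \ A = S \ (S ∩ A) := by
      ext η
      simp
    rw [this]
    exact hS.diff hSA
  have u1 : ∫⁻ η in (S \ A) ∩ D, ENNReal.ofReal (‖β η‖ / ‖Φ η‖ ^ 2) ≤
      ENNReal.ofReal (K₁ * t ^ (-(7 / 8) : ℝ)) :=
    G4b_R1 h (hSA'.inter hDm) (fun η hη => hS1 η hη.1.1) (by positivity) hc0
      (fun η hη => not_lt.mp hη.1.2) (fun η hη => hη.2)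
  have u2 : ∫⁻ η in (S \ A) \ D, ENNReal.ofReal (‖β η‖ / ‖Φ η‖ ^ 2) ≤
      ENNReal.ofReal (K₂ * t ^ (-(7 / 8) : ℝ)) := by
    apply G4b_R2 h (hSA'.diff hDm) (fun η hη => hS1 η hη.1.1) (by positivity) hc0 (M := 50 * L)
    · rw [hc, div_le_one (by positivity)]
      nlinarith
    · rw [hc]
      apply le_of_eq
      field_simp
      norm_num
    · exact fun η hη => not_lt.mp hη.1.2
    · exact fun η hη => not_lt.mp hη.2
  have u3 : ∫⁻ η in S ∩ A, ENNReal.ofReal (‖β η‖ / ‖Φ η‖ ^ 2) ≤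
      ENNReal.ofReal ((Real.pi + C₀) * t ^ (-(7 / 8) : ℝ)) := by
    rcases le_or_gt ‖β y‖ (√t) with hy | hy
    · refine (G4b_R3 h hSA (fun η hη => hS1 η hη.1) (fun η hη => hη.2) hy).trans ?_
      apply ENNReal.ofReal_le_ofReal
      gcongr
      linarith
    · refine (hI r L t v y ρ α β h _ hSA (fun η hη => hS1 η hη.1) (fun η hη => hη.2) hy).trans ?_
      apply ENNReal.ofReal_le_ofReal
      gcongr
      linarith
  have t1 : ∫⁻ η in S, ENNReal.ofReal (‖β η‖ / ‖Φ η‖ ^ 2) ≤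
      ENNReal.ofReal ((K₁ + K₂ + (Real.pi + C₀)) * t ^ (-(7 / 8) : ℝ)) := by
    have hSu : S = (((S \ A) ∩ D) ∪ ((S \ A) \ D)) ∪ (S ∩ A) := by
      rw [inter_union_sdiff]
      exact (sdiff_union_inter S A).symm
    rw [hSu]
    refine (lintegral_union_le _ _ _).trans ((add_le_add ((lintegral_union_le _ _ _).trans
      (add_le_add u1 u2)) u3).trans ?_)
    rw [← ENNReal.ofReal_add (by positivity) (by positivity),
      ← ENNReal.ofReal_add (by positivity) (by positivity)]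
    apply ENNReal.ofReal_le_ofReal
    apply le_of_eq
    ring
  refine (add_le_add t1 t2).trans ?_
  rw [← ENNReal.ofReal_add (by positivity) (by positivity)]
  apply ENNReal.ofReal_le_ofReal
  apply le_of_eq
  ring

theorem G4b_d1_lip (R : ℂ × ℂ → ℝ) (x x' : ℂ × ℂ) :
    ‖d1 R x - d1 R x'‖ ≤ ‖fderiv ℝ R x - fderiv ℝ R x'‖ := by
  set T := fderiv ℝ R x - fderiv ℝ R x' with hT
  have e : d1 R x - d1 R x' = ((T (1, 0) : ℂ) - Complex.I * (T (Complex.I, 0) : ℂ)) / 2 := by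
    rw [d1, d1, hT]
    simp only [sub_apply]
    push_cast
    ring
  have h1 : |T (1, 0)| ≤ ‖T‖ := by
    have := T.le_opNorm (1, 0)
    simpa [Prod.norm_def] using this
  have h2 : |T (Complex.I, 0)| ≤ ‖T‖ := by
    have := T.le_opNorm (Complex.I, 0)
    simpa [Prod.norm_def] using this
  rw [e, norm_div]
  have h3 := norm_sub_le (T (1, 0) : ℂ) (Complex.I * (T (Complex.I, 0) : ℂ))
  rw [norm_mul, Complex.norm_I, one_mul, Complex.norm_real, Complex.norm_real, Real.norm_eq_abs,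
    Real.norm_eq_abs] at h3
  have h4 : ‖(2 : ℂ)‖ = 2 := by norm_num
  rw [h4, div_le_iff₀ (by norm_num)]
  linarith

theorem G4b_d2_lip (R : ℂ × ℂ → ℝ) (x x' : ℂ × ℂ) :
    ‖d2 R x - d2 R x'‖ ≤ ‖fderiv ℝ R x - fderiv ℝ R x'‖ := by
  set T := fderiv ℝ R x - fderiv ℝ R x' with hT
  have e : d2 R x - d2 R x' = ((T (0, 1) : ℂ) - Complex.I * (T (0, Complex.I) : ℂ)) / 2 := by
    rw [d2, d2, hT]
    simp only [sub_apply]
    push_cast
    ring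
  have h1 : |T (0, 1)| ≤ ‖T‖ := by
    have := T.le_opNorm (0, 1)
    simpa [Prod.norm_def] using this
  have h2 : |T (0, Complex.I)| ≤ ‖T‖ := by
    have := T.le_opNorm (0, Complex.I)
    simpa [Prod.norm_def] using this
  rw [e, norm_div]
  have h3 := norm_sub_le (T (0, 1) : ℂ) (Complex.I * (T (0, Complex.I) : ℂ))
  rw [norm_mul, Complex.norm_I, one_mul, Complex.norm_real, Complex.norm_real, Real.norm_eq_abs,
    Real.norm_eq_abs] at h3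
  have h4 : ‖(2 : ℂ)‖ = 2 := by norm_num
  rw [h4, div_le_iff₀ (by norm_num)]
  linarith

theorem G4b_d2_re (R : ℂ × ℂ → ℝ) (x : ℂ × ℂ) (δ : ℂ) :
    fderiv ℝ R x (0, δ) = 2 * (d2 R x * δ).re := by
  set T := fderiv ℝ R x with hT
  have e : ((0 : ℂ), δ) = δ.re • ((0 : ℂ), (1 : ℂ)) + δ.im • ((0 : ℂ), Complex.I) := by
    apply Prod.ext
    · simp
    · simp only [Prod.snd_add, Prod.smul_snd, Complex.real_smul, mul_one]
      exact (Complex.re_add_im δ).symm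
  rw [e, map_add, map_smul, map_smul, d2, ← hT, smul_eq_mul, smul_eq_mul]
  have h2 : (((T (0, 1) : ℂ) - Complex.I * (T (0, Complex.I) : ℂ)) / 2 * δ).re =
      (T (0, 1) * δ.re + T (0, Complex.I) * δ.im) / 2 := by
    have h3 : ((T (0, 1) : ℂ) - Complex.I * (T (0, Complex.I) : ℂ)) / 2 * δ =
        ((1 / 2 : ℝ) : ℂ) * (((T (0, 1) : ℂ) - Complex.I * (T (0, Complex.I) : ℂ)) * δ) := by
      push_cast
      ring
    rw [h3, Complex.re_ofReal_mul]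
    simp only [Complex.sub_re, Complex.mul_re, Complex.sub_im, Complex.mul_im, Complex.ofReal_re,
      Complex.ofReal_im, Complex.I_re, Complex.I_im]
    ring
  rw [h2]
  ring

theorem G4b_open (r : ℝ) : IsOpen (Bo r) := by
  have : Bo r = {x : ℂ × ℂ | ‖x.1‖ < r} ∩ {x : ℂ × ℂ | ‖x.2‖ < r} := rfl
  rw [this]
  exact (isOpen_lt (by fun_prop) continuous_const).inter (isOpen_lt (by fun_prop) continuous_const)

theorem G4b_tay {r L : ℝ} {R : ℂ × ℂ → ℝ} (hR : CR r L R) {ζ η η' : ℂ} (hζ : ‖ζ‖ < r)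
    (hη : ‖η‖ < r) (hη' : ‖η'‖ < r) :
    |R (ζ, η) - R (ζ, η') - 2 * (d2 R (ζ, η') * (η - η')).re| ≤ L * ‖η - η'‖ ^ 2 := by
  have hL0 : 0 ≤ L := by
    have := hR.L1
    linarith
  set s : Set (ℂ × ℂ) := segment ℝ (ζ, η') (ζ, η) with hs
  have hsub : ∀ x ∈ s, x ∈ Bo r ∧ ‖x - (ζ, η')‖ ≤ ‖η - η'‖ := by
    intro x hx
    rw [hs, segment_eq_image'] at hx
    obtain ⟨θ, hθ, rfl⟩ := hx
    have e1 : ((ζ, η') : ℂ × ℂ) + θ • ((ζ, η) - (ζ, η')) = (ζ, η' + θ • (η - η')) := by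
      apply Prod.ext <;> simp
    simp only
    rw [e1]
    have hb : η' + θ • (η - η') ∈ ball (0 : ℂ) r := by
      have := (convex_ball (0 : ℂ) r).segment_subset (mem_ball_zero_iff.mpr hη') (mem_ball_zero_iff.mpr hη)
      apply this
      rw [segment_eq_image']
      exact ⟨θ, hθ, rfl⟩
    refine ⟨⟨hζ, mem_ball_zero_iff.mp hb⟩, ?_⟩
    have e2 : ((ζ, η' + θ • (η - η')) : ℂ × ℂ) - (ζ, η') = (0, θ • (η - η')) := by
      apply Prod.ext <;> simp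
    rw [e2, Prod.norm_def]
    simp only [norm_zero]
    rw [max_eq_right (norm_nonneg _), norm_smul, Real.norm_eq_abs, abs_of_nonneg hθ.1]
    have := norm_nonneg (η - η')
    nlinarith [hθ.2]
  have hmem' : ((ζ, η') : ℂ × ℂ) ∈ s := left_mem_segment _ _ _
  have hmem : ((ζ, η) : ℂ × ℂ) ∈ s := right_mem_segment _ _ _
  have hd : ∀ x ∈ s, DifferentiableAt ℝ R x := by
    intro x hx
    have h1 := (hR.smooth.differentiableOn (by norm_num)) x (hsub x hx).1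
    exact h1.differentiableAt ((G4b_open r).mem_nhds (hsub x hx).1)
  have hb : ∀ x ∈ s, ‖fderiv ℝ R x - fderiv ℝ R (ζ, η')‖ ≤ L * ‖η - η'‖ := by
    intro x hx
    refine (hR.dlip x (hsub x hx).1 (ζ, η') ⟨hζ, hη'⟩).trans ?_
    exact mul_le_mul_of_nonneg_left (hsub x hx).2 hL0
  have h2 := Convex.norm_image_sub_le_of_norm_fderiv_le' hd hb (convex_segment _ _) hmem' hmem
  have e2 : ((ζ, η) : ℂ × ℂ) - (ζ, η') = (0, η - η') := by
    apply Prod.ext <;> simp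
  rw [e2, G4b_d2_re, Real.norm_eq_abs, Prod.norm_def] at h2
  simp only [norm_zero] at h2
  rw [max_eq_right (norm_nonneg _)] at h2
  calc _ ≤ L * ‖η - η'‖ * ‖η - η'‖ := h2
    _ = L * ‖η - η'‖ ^ 2 := by ring

theorem G4b_cont {r L : ℝ} (hL : 0 ≤ L) {f : ℂ → ℂ}
    (h : ∀ η η', ‖η‖ < r → ‖η'‖ < r → ‖f η - f η'‖ ≤ L * ‖η - η'‖) : ContinuousOn f (ball 0 r) := by
  have : LipschitzOnWith ⟨L, hL⟩ f (ball 0 r) := by
    apply LipschitzOnWith.of_dist_le_mul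
    intro x hx y hy
    rw [dist_eq_norm, dist_eq_norm]
    exact h x y (mem_ball_zero_iff.mp hx) (mem_ball_zero_iff.mp hy)
  exact this.continuousOn

/-- **TARGET** -/
theorem est_slice {r L : ℝ} (hr : 0 < r) (hr1 : r ≤ 1) (hL : 1 ≤ L) : ∃ C : ℝ, 0 ≤ C ∧
    ∀ R : ℂ × ℂ → ℝ, CR r L R → ∀ ζ w y : ℂ, ‖ζ‖ < r → ‖w‖ < r → ‖y‖ < r → 0 ≤ R (w, y) → ζ ≠ w →
      ∫⁻ η in {η : ℂ | ‖η‖ < r ∧ 0 < R (ζ, η)},
        ENNReal.ofReal (‖d2 R (ζ, η)‖ / ‖PH R (ζ, η) (w, y)‖ ^ 2 + 1 / ‖PH R (ζ, η) (w, y)‖) ≤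
        ENNReal.ofReal (C * ‖w - ζ‖ ^ (-(7 / 8) : ℝ)) := by
  obtain ⟨C, hC, hI⟩ := G4b_all hL
  refine ⟨C, hC, ?_⟩
  intro R hR ζ w y hζ hw hy hRp hne
  have hL0 : 0 ≤ L := by linarith
  have hx : ∀ η η' : ℂ, ‖((ζ, η) : ℂ × ℂ) - (ζ, η')‖ = ‖η - η'‖ := by
    intro η η'
    have e2 : ((ζ, η) : ℂ × ℂ) - (ζ, η') = (0, η - η') := by
      apply Prod.ext <;> simp
    rw [e2, Prod.norm_def]
    simp only [norm_zero]
    rw [max_eq_right (norm_nonneg _)]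
  have hlα : ∀ η η', ‖η‖ < r → ‖η'‖ < r → ‖d1 R (ζ, η) - d1 R (ζ, η')‖ ≤ L * ‖η - η'‖ := by
    intro η η' hη hη'
    rw [← hx η η']
    exact (G4b_d1_lip R _ _).trans (hR.dlip (ζ, η) ⟨hζ, hη⟩ (ζ, η') ⟨hζ, hη'⟩)
  have hlβ : ∀ η η', ‖η‖ < r → ‖η'‖ < r → ‖d2 R (ζ, η) - d2 R (ζ, η')‖ ≤ L * ‖η - η'‖ := by
    intro η η' hη hη'
    rw [← hx η η']
    exact (G4b_d2_lip R _ _).trans (hR.dlip (ζ, η) ⟨hζ, hη⟩ (ζ, η') ⟨hζ, hη'⟩)
  have hD : G4b_D r L ‖w - ζ‖ (w - ζ) y (fun η => R (ζ, η)) (fun η => d1 R (ζ, η))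
      (fun η => d2 R (ζ, η)) :=
    { hr1 := hr1
      hL := hL
      ht := norm_pos_iff.mpr (sub_ne_zero.mpr hne.symm)
      ht2 := by
        have := norm_sub_le w ζ
        linarith
      hv := rfl
      hy := hy
      hα := fun η hη => hR.dlo _ ⟨hζ, hη⟩
      lα := hlα
      lβ := hlβ
      tay := fun η η' hη hη' => G4b_tay hR hζ hη hη'
      conc := by
        intro η hη _
        have h1 := PH_re hR (s := (ζ, η)) (p := (w, y)) ⟨hζ, hη⟩ ⟨hw, hy⟩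
        rw [PH] at h1
        simp only at h1
        linarith
      cρ := by
        apply hR.smooth.continuousOn.comp (by fun_prop)
        intro η hη
        exact ⟨hζ, mem_ball_zero_iff.mp hη⟩
      cα := G4b_cont hL0 hlα
      cβ := G4b_cont hL0 hlβ }
  exact hI r ‖w - ζ‖ (w - ζ) y _ _ _ hD

end Pool.Agent.P157G
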