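import Mathlib
import Pool.Agent.P157G.EstS

set_option autoImplicit false

open MeasureTheory Metric Set Filter Topology Complex

namespace Pool.Agent.P157G

open Pool.Agent.P157D (d1 d2 CR Bo)

lemma G5z_e1 : ‖((1, 0) : ℂ × ℂ)‖ ≤ 1 := by simp [Prod.norm_def]

lemma G5z_e2 : ‖((Complex.I, 0) : ℂ × ℂ)‖ ≤ 1 := by simp [Prod.norm_def]

lemma G5z_e3 : ‖((0, 1) : ℂ × ℂ)‖ ≤ 1 := by simp [Prod.norm_def]

lemma G5z_e4 : ‖((0, Complex.I) : ℂ × ℂ)‖ ≤ 1 := by simp [Prod.norm_def]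

lemma G5z_half {a b : ℂ} {A : ℝ} (ha : ‖a‖ ≤ A) (hb : ‖b‖ ≤ A) :
    ‖(a - Complex.I * b) / 2‖ ≤ A := by
  rw [norm_div, Complex.norm_ofNat]
  have h1 : ‖a - Complex.I * b‖ ≤ ‖a‖ + ‖Complex.I * b‖ := norm_sub_le _ _
  rw [norm_mul, Complex.norm_I, one_mul] at h1
  rw [div_le_iff₀ (by norm_num)]
  linarith

lemma G5z_half' {a b : ℂ} {A : ℝ} (ha : ‖a‖ ≤ A) (hb : ‖b‖ ≤ A) :
    ‖(a + Complex.I * b) / 2‖ ≤ A := by
  have := G5z_half (a := a) (b := -b) ha (by rwa [norm_neg])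
  rwa [mul_neg, sub_neg_eq_add] at this

lemma G5z_op {E : Type} [NormedAddCommGroup E] [NormedSpace ℝ E] (D : ℂ × ℂ →L[ℝ] E) {A : ℝ}
    (hD : ‖D‖ ≤ A) (v : ℂ × ℂ) (hv : ‖v‖ ≤ 1) : ‖D v‖ ≤ A := by
  refine (D.le_opNorm v).trans ?_
  have : ‖D‖ * ‖v‖ ≤ ‖D‖ * 1 := mul_le_mul_of_nonneg_left hv (norm_nonneg _)
  linarith

lemma G5z_Bo_open (r : ℝ) : IsOpen (Bo r) := by
  have h1 : IsOpen {x : ℂ × ℂ | ‖x.1‖ < r} := isOpen_lt (by fun_prop) continuous_const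
  have h2 : IsOpen {x : ℂ × ℂ | ‖x.2‖ < r} := isOpen_lt (by fun_prop) continuous_const
  exact h1.inter h2

lemma G5z_d1 {r L : ℝ} {R : ℂ × ℂ → ℝ} (hR : CR r L R) {s : ℂ × ℂ} (hs : s ∈ Bo r) :
    ‖d1 R s‖ ≤ L := by
  unfold Pool.Agent.P157D.d1
  apply G5z_half
  · rw [Complex.norm_real]; exact G5z_op _ (hR.dhi s hs) _ G5z_e1
  · rw [Complex.norm_real]; exact G5z_op _ (hR.dhi s hs) _ G5z_e2

lemma G5z_d2 {r L : ℝ} {R : ℂ × ℂ → ℝ} (hR : CR r L R) {s : ℂ × ℂ} (hs : s ∈ Bo r) :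
    ‖d2 R s‖ ≤ L := by
  unfold Pool.Agent.P157D.d2
  apply G5z_half
  · rw [Complex.norm_real]; exact G5z_op _ (hR.dhi s hs) _ G5z_e3
  · rw [Complex.norm_real]; exact G5z_op _ (hR.dhi s hs) _ G5z_e4

lemma G5z_d2lip {r L : ℝ} {R : ℂ × ℂ → ℝ} (hR : CR r L R) {x y : ℂ × ℂ} (hx : x ∈ Bo r)
    (hy : y ∈ Bo r) : ‖d2 R x - d2 R y‖ ≤ L * ‖x - y‖ := by
  unfold Pool.Agent.P157D.d2
  have e : ((fderiv ℝ R x (0, 1) : ℂ) - Complex.I * (fderiv ℝ R x (0, Complex.I) : ℂ)) / 2 -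
      ((fderiv ℝ R y (0, 1) : ℂ) - Complex.I * (fderiv ℝ R y (0, Complex.I) : ℂ)) / 2 =
      (((((fderiv ℝ R x - fderiv ℝ R y) (0, 1) : ℝ) : ℂ)) -
        Complex.I * (((fderiv ℝ R x - fderiv ℝ R y) (0, Complex.I) : ℝ) : ℂ)) / 2 := by
    simp only [sub_apply]
    push_cast
    ring
  rw [e]
  apply G5z_half
  · rw [Complex.norm_real]; exact G5z_op _ (hR.dlip x hx y hy) _ G5z_e3
  · rw [Complex.norm_real]; exact G5z_op _ (hR.dlip x hx y hy) _ G5z_e4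

lemma G5z_fd2 {r L : ℝ} {R : ℂ × ℂ → ℝ} (hR : CR r L R) {s : ℂ × ℂ} (hs : s ∈ Bo r) :
    ‖fderiv ℝ (d2 R) s‖ ≤ L := by
  have hL : 0 ≤ L := by have := hR.L1; linarith
  have h1 : LipschitzOnWith ⟨L, hL⟩ (d2 R) (Bo r) := by
    refine LipschitzOnWith.of_dist_le_mul fun x hx y hy => ?_
    rw [dist_eq_norm, dist_eq_norm]
    exact G5z_d2lip hR hx hy
  exact norm_fderiv_le_of_lipschitzOn ℝ ((G5z_Bo_open r).mem_nhds hs) h1

lemma G5z_XX {r L M : ℝ} {R : ℂ × ℂ → ℝ} {f h : ℂ × ℂ → ℂ} (hR : CR r L R) {s : ℂ × ℂ}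
    (hs : s ∈ Bo r) (h0 : 0 ≤ R s) (hf : ‖f s‖ ≤ M) (hh : ‖h s‖ ≤ M) :
    ‖XX R f h s‖ ≤ 2 * L * M * (‖d2 R s‖ + R s) := by
  have hL : 0 ≤ L := by have := hR.L1; linarith
  have hM : 0 ≤ M := (norm_nonneg _).trans hf
  have b1 : ‖db1 (d2 R) s‖ ≤ L := by
    unfold db1
    exact G5z_half' (G5z_op _ (G5z_fd2 hR hs) _ G5z_e1) (G5z_op _ (G5z_fd2 hR hs) _ G5z_e2)
  have b2 : ‖db2 (d2 R) s‖ ≤ L := by
    unfold db2
    exact G5z_half' (G5z_op _ (G5z_fd2 hR hs) _ G5z_e3) (G5z_op _ (G5z_fd2 hR hs) _ G5z_e4)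
  have c1 := G5z_d1 hR hs
  have c2 := G5z_d2 hR hs
  have hRn : ‖(R s : ℂ)‖ = R s := by rw [Complex.norm_real, Real.norm_eq_abs, abs_of_nonneg h0]
  have t1 : ‖d2 R s * starRingEnd ℂ (d2 R s) - (R s : ℂ) * db2 (d2 R) s‖ ≤
      L * (‖d2 R s‖ + R s) := by
    refine (norm_sub_le _ _).trans ?_
    rw [norm_mul, norm_mul, RCLike.norm_conj, hRn]
    have := mul_le_mul_of_nonneg_left c2 (norm_nonneg (d2 R s))
    have := mul_le_mul_of_nonneg_left b2 h0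
    linarith
  have t2 : ‖d2 R s * starRingEnd ℂ (d1 R s) - (R s : ℂ) * db1 (d2 R) s‖ ≤
      L * (‖d2 R s‖ + R s) := by
    refine (norm_sub_le _ _).trans ?_
    rw [norm_mul, norm_mul, RCLike.norm_conj, hRn]
    have := mul_le_mul_of_nonneg_left c1 (norm_nonneg (d2 R s))
    have := mul_le_mul_of_nonneg_left b1 h0
    linarith
  have h3 : 0 ≤ L * (‖d2 R s‖ + R s) := by positivity
  unfold XX
  refine (norm_sub_le _ _).trans ?_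
  rw [norm_mul, norm_mul]
  have u1 := mul_le_mul hf t1 (norm_nonneg _) hM
  have u2 := mul_le_mul hh t2 (norm_nonneg _) hM
  linarith

lemma G5z_rad (p : ℝ) (T : Set ℝ) (hT : MeasurableSet T) (c : ℂ)
    (hI : IntegrableOn (fun y : ℝ => y ^ (1 - p)) (Ioi 0 ∩ T)) :
    Integrable (fun η : ℂ => T.indicator (fun y : ℝ => y ^ (-p)) ‖η - c‖) ∧
    ∫ η : ℂ, T.indicator (fun y : ℝ => y ^ (-p)) ‖η - c‖ =
      2 * Real.pi * ∫ y in Ioi 0 ∩ T, y ^ (1 - p) := by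
  have hd : Module.finrank ℝ ℂ = 2 := Complex.finrank_real_complex
  have hcong : EqOn (fun y : ℝ => y ^ (Module.finrank ℝ ℂ - 1) • T.indicator (fun y : ℝ => y ^ (-p)) y)
      (T.indicator (fun y : ℝ => y ^ (1 - p))) (Ioi 0) := by
    intro y hy
    have hy' : (0 : ℝ) < y := hy
    simp only [hd]
    by_cases h : y ∈ T
    · rw [indicator_of_mem h, indicator_of_mem h, smul_eq_mul, sub_eq_add_neg,
        Real.rpow_add hy', Real.rpow_one]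
      norm_num
    · rw [indicator_of_notMem h, indicator_of_notMem h, smul_zero]
  constructor
  · have h1 : Integrable (fun η : ℂ => T.indicator (fun y : ℝ => y ^ (-p)) ‖η‖) := by
      rw [integrable_fun_norm_addHaar (volume : Measure ℂ) (f := T.indicator (fun y : ℝ => y ^ (-p))),
        integrableOn_congr_fun hcong measurableSet_Ioi]
      unfold IntegrableOn
      rw [integrable_indicator_iff hT]
      unfold IntegrableOn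
      rw [Measure.restrict_restrict hT, inter_comm]
      exact hI
    exact h1.comp_sub_right c
  · have h1 : ∫ η : ℂ, T.indicator (fun y : ℝ => y ^ (-p)) ‖η - c‖ =
        ∫ η : ℂ, T.indicator (fun y : ℝ => y ^ (-p)) ‖η‖ :=
      integral_sub_right_eq_self (fun η : ℂ => T.indicator (fun y : ℝ => y ^ (-p)) ‖η‖) c
    rw [h1, integral_fun_norm_addHaar (volume : Measure ℂ) (T.indicator (fun y : ℝ => y ^ (-p))),
      setIntegral_congr_fun measurableSet_Ioi hcong, setIntegral_indicator hT, hd]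
    have hv : (volume : Measure ℂ).real (ball 0 1) = Real.pi := by
      rw [Measure.real, Complex.volume_ball]
      simp
    rw [hv, smul_eq_mul, nsmul_eq_mul]
    push_cast
    ring

lemma G5z_in (p ρ : ℝ) (hp : p < 2) (hρ : 0 ≤ ρ) (c : ℂ) :
    Integrable (fun η : ℂ => (Iic ρ).indicator (fun y : ℝ => y ^ (-p)) ‖η - c‖) ∧
    ∫ η : ℂ, (Iic ρ).indicator (fun y : ℝ => y ^ (-p)) ‖η - c‖ =
      2 * Real.pi * (ρ ^ (2 - p) / (2 - p)) := by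
  have hs : Ioi (0 : ℝ) ∩ Iic ρ = Ioc 0 ρ := rfl
  have hI : IntegrableOn (fun y : ℝ => y ^ (1 - p)) (Ioi 0 ∩ Iic ρ) := by
    rw [hs, ← intervalIntegrable_iff_integrableOn_Ioc_of_le hρ]
    exact intervalIntegral.intervalIntegrable_rpow' (by linarith)
  obtain ⟨h1, h2⟩ := G5z_rad p (Iic ρ) measurableSet_Iic c hI
  refine ⟨h1, ?_⟩
  rw [h2, hs, ← intervalIntegral.integral_of_le hρ, integral_rpow (Or.inl (by linarith))]
  rw [show (1 - p + 1 : ℝ) = 2 - p by ring, Real.zero_rpow (by linarith), sub_zero]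

lemma G5z_sing (q : ℝ) (hq2 : q < 2) (c : ℂ) (S : Set ℂ) (hSm : MeasurableSet S)
    (hS : ∀ η ∈ S, ‖η - c‖ ≤ 2) (A : ℝ) (hA : 0 ≤ A) (F : ℂ → ℂ)
    (hF : ∀ η ∈ S, ‖F η‖ ≤ A * ‖η - c‖ ^ (-q)) :
    ‖∫ η in S, F η‖ ≤ A * (2 * Real.pi * ((2 : ℝ) ^ (2 - q) / (2 - q))) := by
  obtain ⟨h1, h2⟩ := G5z_in q 2 hq2 (by norm_num) c
  have h3 : Integrable (fun η : ℂ => A * (Iic (2 : ℝ)).indicator (fun y : ℝ => y ^ (-q)) ‖η - c‖) :=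
    h1.const_mul A
  have h4 : ∀ η : ℂ, 0 ≤ A * (Iic (2 : ℝ)).indicator (fun y : ℝ => y ^ (-q)) ‖η - c‖ := by
    intro η
    refine mul_nonneg hA ?_
    unfold Set.indicator
    split_ifs
    · exact Real.rpow_nonneg (norm_nonneg _) _
    · exact le_rfl
  have h5 : ‖∫ η in S, F η‖ ≤
      ∫ η in S, A * (Iic (2 : ℝ)).indicator (fun y : ℝ => y ^ (-q)) ‖η - c‖ := by
    refine norm_integral_le_of_norm_le h3.integrableOn ?_
    refine (ae_restrict_iff' hSm).2 (Filter.Eventually.of_forall fun η hη => ?_)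
    rw [indicator_of_mem (show ‖η - c‖ ∈ Iic (2 : ℝ) from hS η hη)]
    exact hF η hη
  refine h5.trans ((setIntegral_le_integral h3 (Filter.Eventually.of_forall h4)).trans ?_)
  rw [integral_const_mul, h2]

lemma G5z_slice {r L : ℝ} {R : ℂ × ℂ → ℝ} (hR : CR r L R) {ζ : ℂ} (hζ : ‖ζ‖ < r) :
    MeasurableSet {η : ℂ | ‖η‖ < r ∧ 0 < R (ζ, η)} := by
  have h1 : IsOpen (Bo r ∩ R ⁻¹' Ioi 0) :=
    hR.smooth.continuousOn.isOpen_inter_preimage (G5z_Bo_open r) isOpen_Ioi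
  have h2 : IsOpen ((fun η : ℂ => (ζ, η)) ⁻¹' (Bo r ∩ R ⁻¹' Ioi 0)) :=
    h1.preimage (by fun_prop)
  have h3 : {η : ℂ | ‖η‖ < r ∧ 0 < R (ζ, η)} =
      (fun η : ℂ => (ζ, η)) ⁻¹' (Bo r ∩ R ⁻¹' Ioi 0) := by
    ext η
    constructor
    · rintro ⟨h4, h5⟩
      exact ⟨⟨hζ, h4⟩, h5⟩
    · rintro ⟨⟨_, h4⟩, h5⟩
      exact ⟨h4, h5⟩
  rw [h3]
  exact h2.measurableSet

/-- lower bound of the support function -/
lemma G5z_PH {r L : ℝ} {R : ℂ × ℂ → ℝ} (hR : CR r L R) {s p : ℂ × ℂ} (hs : s ∈ Bo r)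
    (hp : p ∈ Bo r) (hs0 : 0 < R s) (hp0 : 0 < R p) :
    0 < ‖PH R s p‖ ∧ R s ≤ 2 * ‖PH R s p‖ := by
  have h1 := PH_re hR hs hp
  have h2 : (PH R s p).re ≤ ‖PH R s p‖ := Complex.re_le_norm _
  have h3 : 0 ≤ ‖p.1 - s.1‖ ^ 2 := by positivity
  have h4 : 0 ≤ ‖p.2 - s.2‖ ^ 2 := by positivity
  constructor <;> linarith

lemma G5z_Om {r κ L M : ℝ} {R : ℂ × ℂ → ℝ} {f h : ℂ × ℂ → ℂ} (hN : Ni r κ L M R f h)
    {p : ℂ × ℂ} (hp : p ∈ Om r κ R) : p ∈ Bo r :=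
  ⟨lt_trans hp.1 hN.κr, hp.2.1⟩

lemma G5z_fh {r κ L M : ℝ} {R : ℂ × ℂ → ℝ} {f h : ℂ × ℂ → ℂ} (hN : Ni r κ L M R f h)
    {s : ℂ × ℂ} (h1 : ‖s.1‖ ≤ κ) (h2 : ‖s.2‖ < r) (h3 : 0 ≤ R s) : ‖f s‖ ≤ M ∧ ‖h s‖ ≤ M := by
  obtain ⟨O, _, hO, hF⟩ := hN.fm
  exact ⟨hF.fb s (hO ⟨h1, h2, h3⟩), hF.hb s (hO ⟨h1, h2, h3⟩)⟩

/-- **TARGET** -/
theorem U1_bd {r L : ℝ} (hr : 0 < r) (hr1 : r ≤ 1) (hL : 1 ≤ L) : ∃ C : ℝ, 0 ≤ C ∧
    ∀ (κ M : ℝ) (R : ℂ × ℂ → ℝ) (f h : ℂ × ℂ → ℂ), Ni r κ L M R f h → ∀ p ∈ Om r κ R,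
      ‖U1 r R h p‖ ≤ C * M := by
  have hpi := Real.pi_pos
  refine ⟨1 / Real.pi * (4 * (2 * Real.pi * ((2 : ℝ) ^ ((2 : ℝ) - 1) / (2 - 1)))), by positivity, ?_⟩
  intro κ M R f h hN p hp
  have hpB := G5z_Om hN hp
  have hM : 0 ≤ M := (norm_nonneg _).trans (G5z_fh hN hp.1.le hp.2.1 hp.2.2.le).1
  unfold U1
  rw [norm_mul]
  have h1 : ‖(1 / Real.pi : ℂ)‖ = 1 / Real.pi := by
    rw [norm_div, norm_one, Complex.norm_real, Real.norm_eq_abs, abs_of_pos hpi]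
  rw [h1]
  have h2 := G5z_sing 1 (by norm_num) p.2 {η : ℂ | ‖η‖ < r ∧ 0 < R (p.1, η)}
    (G5z_slice hN.cr hpB.1) (fun η hη => by
      have := norm_sub_le η p.2
      have h3 : ‖η‖ < r := hη.1
      have h4 : ‖p.2‖ < r := hpB.2
      linarith) (4 * M) (by positivity)
    (fun η => h (p.1, η) * ((R (p.1, η) : ℂ) / PH R (p.1, η) p) ^ 2 / (p.2 - η)) (by
      intro η hη
      have hs : ((p.1, η) : ℂ × ℂ) ∈ Bo r := ⟨hpB.1, hη.1⟩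
      obtain ⟨a1, a2⟩ := G5z_PH hN.cr hs hpB hη.2 hp.2.2
      have a3 := (G5z_fh hN (s := (p.1, η)) hp.1.le hη.1 hη.2.le).2
      have a4 : ‖(R (p.1, η) : ℂ) / PH R (p.1, η) p‖ ≤ 2 := by
        rw [norm_div, Complex.norm_real, Real.norm_eq_abs, abs_of_pos hη.2, div_le_iff₀ a1]
        exact a2
      rw [norm_div, norm_mul, norm_pow, Real.rpow_neg_one, ← div_eq_mul_inv, norm_sub_rev p.2 η]
      refine div_le_div_of_nonneg_right ?_ (norm_nonneg _)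
      have a5 : ‖(R (p.1, η) : ℂ) / PH R (p.1, η) p‖ ^ 2 ≤ 2 ^ 2 :=
        pow_le_pow_left₀ (norm_nonneg _) a4 2
      have a6 := mul_le_mul a3 a5 (by positivity) hM
      linarith)
  have h3 : 0 ≤ 1 / Real.pi := by positivity
  refine (mul_le_mul_of_nonneg_left h2 h3).trans (le_of_eq ?_)
  ring

/-- **TARGET** -/
theorem kk_bd {r L : ℝ} (hr : 0 < r) (hr1 : r ≤ 1) (hL : 1 ≤ L) : ∃ C : ℝ, 0 ≤ C ∧
    ∀ (κ M : ℝ) (R : ℂ × ℂ → ℝ) (f h : ℂ × ℂ → ℂ), Ni r κ L M R f h → ∀ ζ : ℂ, ‖ζ‖ < κ →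
      ∀ p ∈ Om r κ R, ζ ≠ p.1 → ‖kk r R f h ζ p‖ ≤ C * M * ‖p.1 - ζ‖ ^ (-(7 / 8) : ℝ) := by
  have hpi := Real.pi_pos
  obtain ⟨C, hC, hest⟩ := est_slice hr hr1 hL
  refine ⟨1 / Real.pi * (16 * L) * C, by positivity, ?_⟩
  intro κ M R f h hN ζ hζ p hp hne
  have hpB := G5z_Om hN hp
  have hM : 0 ≤ M := (norm_nonneg _).trans (G5z_fh hN hp.1.le hp.2.1 hp.2.2.le).1
  have hζr : ‖ζ‖ < r := hζ.trans hN.κr
  have hL0 : 0 ≤ L := by linarith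
  unfold kk
  rw [norm_mul]
  have h1 : ‖(1 / Real.pi : ℂ)‖ = 1 / Real.pi := by
    rw [norm_div, norm_one, Complex.norm_real, Real.norm_eq_abs, abs_of_pos hpi]
  rw [h1]
  have hpt : ∀ η ∈ {η : ℂ | ‖η‖ < r ∧ 0 < R (ζ, η)},
      ‖2 * (R (ζ, η) : ℂ) * XX R f h (ζ, η) / PH R (ζ, η) p ^ 3‖ ≤
        (16 * L * M) * (‖d2 R (ζ, η)‖ / ‖PH R (ζ, η) p‖ ^ 2 + 1 / ‖PH R (ζ, η) p‖) := by
    intro η hη
    have hs : ((ζ, η) : ℂ × ℂ) ∈ Bo r := ⟨hζr, hη.1⟩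
    obtain ⟨a1, a2⟩ := G5z_PH hN.cr hs hpB hη.2 hp.2.2
    obtain ⟨a3, a4⟩ := G5z_fh hN (s := (ζ, η)) hζ.le hη.1 hη.2.le
    have a5 := G5z_XX hN.cr hs hη.2.le a3 a4
    have hRp : 0 < R (ζ, η) := hη.2
    obtain ⟨P, hP⟩ : ∃ P : ℝ, P = ‖PH R (ζ, η) p‖ := ⟨_, rfl⟩
    obtain ⟨d, hd⟩ : ∃ d : ℝ, d = ‖d2 R (ζ, η)‖ := ⟨_, rfl⟩
    have hd0 : 0 ≤ d := by rw [hd]; exact norm_nonneg _
    rw [norm_div, norm_mul, norm_mul, norm_pow, Complex.norm_real, Real.norm_eq_abs,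
      abs_of_pos hRp, Complex.norm_ofNat]
    rw [← hP] at a1 a2 ⊢
    rw [← hd] at a5 ⊢
    rw [div_le_iff₀ (by positivity)]
    have e : (16 * L * M) * (d / P ^ 2 + 1 / P) * P ^ 3 = (16 * L * M) * (d * P + P ^ 2) := by
      field_simp
    rw [e]
    have hLM : 0 ≤ L * M := by positivity
    have b1 : 2 * R (ζ, η) * ‖XX R f h (ζ, η)‖ ≤ 2 * (2 * P) * (2 * L * M * (d + 2 * P)) := by
      have c1 : 2 * L * M * (d + R (ζ, η)) ≤ 2 * L * M * (d + 2 * P) := by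
        have := mul_le_mul_of_nonneg_left a2 (by positivity : 0 ≤ 2 * L * M)
        nlinarith
      have c2 : 2 * R (ζ, η) ≤ 2 * (2 * P) := by linarith
      exact mul_le_mul c2 (a5.trans c1) (norm_nonneg _) (by positivity)
    refine b1.trans ?_
    have c3 : 0 ≤ L * M * (d * P) := by positivity
    nlinarith
  have h2 : ‖∫ η in {η : ℂ | ‖η‖ < r ∧ 0 < R (ζ, η)},
      2 * (R (ζ, η) : ℂ) * XX R f h (ζ, η) / PH R (ζ, η) p ^ 3‖ ≤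
      (16 * L * M) * (C * ‖p.1 - ζ‖ ^ (-(7 / 8) : ℝ)) := by
    refine (norm_integral_le_lintegral_norm _).trans ?_
    refine ENNReal.toReal_le_of_le_ofReal (by positivity) ?_
    have h3 : ∫⁻ η in {η : ℂ | ‖η‖ < r ∧ 0 < R (ζ, η)},
        ENNReal.ofReal ‖2 * (R (ζ, η) : ℂ) * XX R f h (ζ, η) / PH R (ζ, η) p ^ 3‖ ≤
        ∫⁻ η in {η : ℂ | ‖η‖ < r ∧ 0 < R (ζ, η)}, ENNReal.ofReal (16 * L * M) *
          ENNReal.ofReal (‖d2 R (ζ, η)‖ / ‖PH R (ζ, η) p‖ ^ 2 + 1 / ‖PH R (ζ, η) p‖) := by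
      refine setLIntegral_mono' (G5z_slice hN.cr hζr) fun η hη => ?_
      rw [← ENNReal.ofReal_mul (by positivity)]
      exact ENNReal.ofReal_le_ofReal (hpt η hη)
    refine h3.trans ?_
    rw [lintegral_const_mul' _ _ ENNReal.ofReal_ne_top,
      ENNReal.ofReal_mul (p := 16 * L * M) (by positivity)]
    have h4 := hest R hN.cr ζ p.1 p.2 hζr hpB.1 hpB.2 hp.2.2.le hne
    exact mul_le_mul_right h4 _
  have h3 : 0 ≤ 1 / Real.pi := by positivity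
  refine (mul_le_mul_of_nonneg_left h2 h3).trans (le_of_eq ?_)
  ring

/-- **TARGET** -/
theorem U2_bd {r L : ℝ} (hr : 0 < r) (hr1 : r ≤ 1) (hL : 1 ≤ L) : ∃ C : ℝ, 0 ≤ C ∧
    ∀ (κ M : ℝ) (R : ℂ × ℂ → ℝ) (f h : ℂ × ℂ → ℂ), Ni r κ L M R f h → ∀ p ∈ Om r κ R,
      ‖U2 r κ R f h p‖ ≤ C * M := by
  have hpi := Real.pi_pos
  obtain ⟨C, hC, hkk⟩ := kk_bd hr hr1 hL
  refine ⟨1 / Real.pi * (C * (2 * Real.pi * ((2 : ℝ) ^ ((2 : ℝ) - 15 / 8) / (2 - 15 / 8)))), by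
    have : (0 : ℝ) < 2 - 15 / 8 := by norm_num
    positivity, ?_⟩
  intro κ M R f h hN p hp
  have hpB := G5z_Om hN hp
  have hM : 0 ≤ M := (norm_nonneg _).trans (G5z_fh hN hp.1.le hp.2.1 hp.2.2.le).1
  unfold U2
  rw [norm_mul]
  have h1 : ‖(1 / Real.pi : ℂ)‖ = 1 / Real.pi := by
    rw [norm_div, norm_one, Complex.norm_real, Real.norm_eq_abs, abs_of_pos hpi]
  rw [h1]
  have h2 := G5z_sing (15 / 8) (by norm_num) p.1 (ball (0 : ℂ) κ) measurableSet_ball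
    (fun ζ hζ => by
      have h3 : ‖ζ‖ < κ := by simpa using hζ
      have h4 := norm_sub_le ζ p.1
      have h5 : ‖p.1‖ < κ := hp.1
      have h6 := hN.κr
      linarith) (C * M) (by positivity) (fun ζ => kk r R f h ζ p / (p.1 - ζ)) (by
      intro ζ hζ
      have h3 : ‖ζ‖ < κ := by simpa using hζ
      by_cases hne : ζ = p.1
      · rw [hne, sub_self, div_zero, norm_zero]
        positivity
      · have h4 := hkk κ M R f h hN ζ h3 p hp hne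
        have h5 : 0 < ‖p.1 - ζ‖ := norm_pos_iff.2 (sub_ne_zero.2 (Ne.symm hne))
        rw [norm_div, div_le_iff₀ h5, norm_sub_rev ζ p.1, mul_assoc]
        have h6 : ‖p.1 - ζ‖ ^ (-(15 / 8) : ℝ) * ‖p.1 - ζ‖ = ‖p.1 - ζ‖ ^ (-(7 / 8) : ℝ) := by
          rw [← Real.rpow_add_one h5.ne']
          norm_num
        rw [h6]
        exact h4)
  have h3 : 0 ≤ 1 / Real.pi := by positivity
  refine (mul_le_mul_of_nonneg_left h2 h3).trans (le_of_eq ?_)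
  ring

end Pool.Agent.P157G
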