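import Mathlib
import Pool.Agent.P157G.Defs

set_option autoImplicit false

open MeasureTheory Metric Set Filter Topology Complex

namespace Pool.Agent.P157G

open Pool.Agent.P157D (d1 d2 CR Bo)

theorem G7b2_dec (v : ℂ × ℂ) : v = v.1.re • ((1 : ℂ), (0 : ℂ)) + v.1.im • ((Complex.I : ℂ), (0 : ℂ)) +
    v.2.re • ((0 : ℂ), (1 : ℂ)) + v.2.im • ((0 : ℂ), (Complex.I : ℂ)) := by
  refine Prod.ext ?_ ?_
  · apply Complex.ext <;> simp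
  · apply Complex.ext <;> simp

theorem G7b2_decI (v : ℂ × ℂ) : Complex.I • v = v.1.re • ((Complex.I : ℂ), (0 : ℂ)) +
    (-v.1.im) • ((1 : ℂ), (0 : ℂ)) + v.2.re • ((0 : ℂ), (Complex.I : ℂ)) +
    (-v.2.im) • ((0 : ℂ), (1 : ℂ)) := by
  refine Prod.ext ?_ ?_
  · apply Complex.ext <;> simp
  · apply Complex.ext <;> simp

theorem G7b2_I10 : Complex.I • ((1 : ℂ), (0 : ℂ)) = ((Complex.I : ℂ), (0 : ℂ)) := by simp

theorem G7b2_I01 : Complex.I • ((0 : ℂ), (1 : ℂ)) = ((0 : ℂ), (Complex.I : ℂ)) := by simp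

/-- the complex bilinear part of a real bilinear form -/
noncomputable def G7b2_Bc (B : ℂ × ℂ →L[ℝ] ℂ × ℂ →L[ℝ] ℝ) (u w : ℂ × ℂ) : ℂ :=
  ((B u w - B (Complex.I • u) (Complex.I • w) : ℝ) : ℂ) / 2 -
    Complex.I * ((B u (Complex.I • w) + B (Complex.I • u) w : ℝ) : ℂ) / 2

/-- the complex quadratic form -/
noncomputable def G7b2_S (B : ℂ × ℂ →L[ℝ] ℂ × ℂ →L[ℝ] ℝ) (v : ℂ × ℂ) : ℂ :=
  v.1 ^ 2 * G7b2_Bc B (1, 0) (1, 0) + v.1 * v.2 * (G7b2_Bc B (1, 0) (0, 1) + G7b2_Bc B (0, 1) (1, 0)) +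
    v.2 ^ 2 * G7b2_Bc B (0, 1) (0, 1)

theorem G7b2_Bc_re (B : ℂ × ℂ →L[ℝ] ℂ × ℂ →L[ℝ] ℝ) (u w : ℂ × ℂ) :
    (G7b2_Bc B u w).re = (B u w - B (Complex.I • u) (Complex.I • w)) / 2 := by
  unfold G7b2_Bc
  rw [Complex.sub_re, mul_div_assoc, Complex.mul_re]
  simp only [Complex.div_ofNat_re, Complex.div_ofNat_im, Complex.ofReal_re, Complex.ofReal_im,
    Complex.I_re, Complex.I_im]
  ring

theorem G7b2_Bc_im (B : ℂ × ℂ →L[ℝ] ℂ × ℂ →L[ℝ] ℝ) (u w : ℂ × ℂ) :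
    (G7b2_Bc B u w).im = -(B u (Complex.I • w) + B (Complex.I • u) w) / 2 := by
  unfold G7b2_Bc
  rw [Complex.sub_im, mul_div_assoc, Complex.mul_im]
  simp only [Complex.div_ofNat_re, Complex.div_ofNat_im, Complex.ofReal_re, Complex.ofReal_im,
    Complex.I_re, Complex.I_im]
  ring

theorem G7b2_S_re (B : ℂ × ℂ →L[ℝ] ℂ × ℂ →L[ℝ] ℝ) (v : ℂ × ℂ) :
    (G7b2_S B v).re = (B v v - B (Complex.I • v) (Complex.I • v)) / 2 := by
  have h1 : B v v = B (v.1.re • ((1 : ℂ), (0 : ℂ)) + v.1.im • ((Complex.I : ℂ), (0 : ℂ)) +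
    v.2.re • ((0 : ℂ), (1 : ℂ)) + v.2.im • ((0 : ℂ), (Complex.I : ℂ)))
    (v.1.re • ((1 : ℂ), (0 : ℂ)) + v.1.im • ((Complex.I : ℂ), (0 : ℂ)) +
    v.2.re • ((0 : ℂ), (1 : ℂ)) + v.2.im • ((0 : ℂ), (Complex.I : ℂ))) := by
    rw [← G7b2_dec v]
  rw [h1, G7b2_decI v]
  unfold G7b2_S
  simp only [Complex.add_re, Complex.mul_re, Complex.mul_im, Complex.add_im, pow_two,
    G7b2_Bc_re, G7b2_Bc_im, G7b2_I10, G7b2_I01, map_add, map_smul, add_apply, smul_apply, smul_eq_mul]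
  ring

theorem G7b2_dd_re (σ : ℂ × ℂ → ℝ) (q v : ℂ × ℂ) :
    2 * (d1 σ q * v.1 + d2 σ q * v.2).re = fderiv ℝ σ q v := by
  have h1 : fderiv ℝ σ q v = fderiv ℝ σ q (v.1.re • ((1 : ℂ), (0 : ℂ)) + v.1.im • ((Complex.I : ℂ), (0 : ℂ)) +
    v.2.re • ((0 : ℂ), (1 : ℂ)) + v.2.im • ((0 : ℂ), (Complex.I : ℂ))) := by
    rw [← G7b2_dec v]
  rw [h1]
  unfold d1 d2
  simp only [Complex.add_re, Complex.mul_re, Complex.sub_re, Complex.sub_im, Complex.mul_im,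
    Complex.div_ofNat_re, Complex.div_ofNat_im, Complex.ofReal_re, Complex.ofReal_im,
    Complex.I_re, Complex.I_im, map_add, map_smul, smul_eq_mul]
  ring

theorem G7b2_d_ne (σ : ℂ × ℂ → ℝ) (q : ℂ × ℂ) (hd : fderiv ℝ σ q ≠ 0) :
    d1 σ q * starRingEnd ℂ (d1 σ q) + d2 σ q * starRingEnd ℂ (d2 σ q) ≠ 0 := by
  intro h
  apply hd
  rw [Complex.mul_conj, Complex.mul_conj, ← Complex.ofReal_add, Complex.ofReal_eq_zero] at h
  have h1 := Complex.normSq_nonneg (d1 σ q)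
  have h2 := Complex.normSq_nonneg (d2 σ q)
  have h3 : d1 σ q = 0 := Complex.normSq_eq_zero.1 (by linarith)
  have h4 : d2 σ q = 0 := Complex.normSq_eq_zero.1 (by linarith)
  refine ContinuousLinearMap.ext fun v => ?_
  rw [← G7b2_dd_re, h3, h4]
  simp

/-- the linear part of the coordinates -/
noncomputable def G7b2_A (a b : ℂ) (h : a * starRingEnd ℂ a + b * starRingEnd ℂ b ≠ 0) :
    (ℂ × ℂ) ≃L[ℂ] (ℂ × ℂ) :=
  ContinuousLinearEquiv.equivOfInverse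
    ((a • ContinuousLinearMap.fst ℂ ℂ ℂ + b • ContinuousLinearMap.snd ℂ ℂ ℂ).prod
      (-(starRingEnd ℂ b) • ContinuousLinearMap.fst ℂ ℂ ℂ + (starRingEnd ℂ a) • ContinuousLinearMap.snd ℂ ℂ ℂ))
    (((a * starRingEnd ℂ a + b * starRingEnd ℂ b)⁻¹ •
        ((starRingEnd ℂ a) • ContinuousLinearMap.fst ℂ ℂ ℂ - b • ContinuousLinearMap.snd ℂ ℂ ℂ)).prod
      ((a * starRingEnd ℂ a + b * starRingEnd ℂ b)⁻¹ •
        ((starRingEnd ℂ b) • ContinuousLinearMap.fst ℂ ℂ ℂ + a • ContinuousLinearMap.snd ℂ ℂ ℂ)))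
    (by
      rintro ⟨u, v⟩
      refine Prod.ext ?_ ?_
      · simp only [ContinuousLinearMap.prod_apply, smul_apply, sub_apply, add_apply,
          ContinuousLinearMap.coe_fst', ContinuousLinearMap.coe_snd', smul_eq_mul]
        rw [inv_mul_eq_iff_eq_mul₀ h]
        ring
      · simp only [ContinuousLinearMap.prod_apply, smul_apply, sub_apply, add_apply,
          ContinuousLinearMap.coe_fst', ContinuousLinearMap.coe_snd', smul_eq_mul]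
        rw [inv_mul_eq_iff_eq_mul₀ h]
        ring)
    (by
      rintro ⟨u, v⟩
      refine Prod.ext ?_ ?_
      · simp only [ContinuousLinearMap.prod_apply, smul_apply, sub_apply, add_apply,
          ContinuousLinearMap.coe_fst', ContinuousLinearMap.coe_snd', smul_eq_mul]
        have e : ∀ N : ℂ, a * (N⁻¹ * (starRingEnd ℂ a * u - b * v)) + b * (N⁻¹ * (starRingEnd ℂ b * u + a * v)) =
            N⁻¹ * (a * starRingEnd ℂ a + b * starRingEnd ℂ b) * u := fun N => by ring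
        rw [e, inv_mul_cancel₀ h, one_mul]
      · simp only [ContinuousLinearMap.prod_apply, smul_apply, sub_apply, add_apply,
          ContinuousLinearMap.coe_fst', ContinuousLinearMap.coe_snd', smul_eq_mul]
        have e : ∀ N : ℂ, -(starRingEnd ℂ b) * (N⁻¹ * (starRingEnd ℂ a * u - b * v)) +
            starRingEnd ℂ a * (N⁻¹ * (starRingEnd ℂ b * u + a * v)) =
            N⁻¹ * (a * starRingEnd ℂ a + b * starRingEnd ℂ b) * v := fun N => by ring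
        rw [e, inv_mul_cancel₀ h, one_mul])

/-- the coordinates -/
noncomputable def G7b2_Th (σ : ℂ × ℂ → ℝ) (q z : ℂ × ℂ) : ℂ × ℂ :=
  (d1 σ q * (z.1 - q.1) + d2 σ q * (z.2 - q.2) + (1 / 4) * G7b2_S (fderiv ℝ (fderiv ℝ σ) q) (z - q),
    -(starRingEnd ℂ (d2 σ q)) * (z.1 - q.1) + starRingEnd ℂ (d1 σ q) * (z.2 - q.2))

theorem G7b2_Th_smooth (σ : ℂ × ℂ → ℝ) (q : ℂ × ℂ) : ContDiff ℂ 2 (G7b2_Th σ q) := by
  unfold G7b2_Th G7b2_S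
  simp only [Prod.fst_sub, Prod.snd_sub]
  fun_prop

theorem G7b2_Th_deriv (σ : ℂ × ℂ → ℝ) (q : ℂ × ℂ)
    (h : d1 σ q * starRingEnd ℂ (d1 σ q) + d2 σ q * starRingEnd ℂ (d2 σ q) ≠ 0) :
    HasFDerivAt (G7b2_Th σ q) ((G7b2_A (d1 σ q) (d2 σ q) h : (ℂ × ℂ) ≃L[ℂ] (ℂ × ℂ)) : ℂ × ℂ →L[ℂ] ℂ × ℂ) q := by
  have f1 : HasFDerivAt (fun z : ℂ × ℂ => z.1 - q.1) (ContinuousLinearMap.fst ℂ ℂ ℂ) q :=
    hasFDerivAt_fst.sub_const q.1
  have f2 : HasFDerivAt (fun z : ℂ × ℂ => z.2 - q.2) (ContinuousLinearMap.snd ℂ ℂ ℂ) q :=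
    hasFDerivAt_snd.sub_const q.2
  have g1 := ((f1.const_mul (d1 σ q)).add (f2.const_mul (d2 σ q)))
  have g2 := ((f1.const_mul (-(starRingEnd ℂ (d2 σ q)))).add (f2.const_mul (starRingEnd ℂ (d1 σ q))))
  have g3 : HasFDerivAt (fun z : ℂ × ℂ => (1 / 4 : ℂ) * G7b2_S (fderiv ℝ (fderiv ℝ σ) q) (z - q))
      (0 : ℂ × ℂ →L[ℂ] ℂ) q := by
    unfold G7b2_S
    simp only [Prod.fst_sub, Prod.snd_sub, pow_two]
    have h11 := (f1.mul f1).mul_const (G7b2_Bc (fderiv ℝ (fderiv ℝ σ) q) (1, 0) (1, 0))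
    have h12 := (f1.mul f2).mul_const (G7b2_Bc (fderiv ℝ (fderiv ℝ σ) q) (1, 0) (0, 1) +
      G7b2_Bc (fderiv ℝ (fderiv ℝ σ) q) (0, 1) (1, 0))
    have h22 := (f2.mul f2).mul_const (G7b2_Bc (fderiv ℝ (fderiv ℝ σ) q) (0, 1) (0, 1))
    have h33 := ((h11.add h12).add h22).const_mul (1 / 4 : ℂ)
    refine h33.congr_fderiv ?_
    refine ContinuousLinearMap.ext fun v => ?_
    simp
  refine ((g1.add g3).prodMk g2).congr_fderiv ?_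
  refine ContinuousLinearMap.ext fun v => ?_
  simp [G7b2_A]

/-- the real bilinear form of the second order part -/
noncomputable def G7b2_C (B : ℂ × ℂ →L[ℝ] ℂ × ℂ →L[ℝ] ℝ) : ℂ × ℂ →L[ℝ] ℂ × ℂ →L[ℝ] ℝ :=
  (1 / 4 : ℝ) • (B - B.bilinearComp ((Complex.I • ContinuousLinearMap.id ℂ (ℂ × ℂ)).restrictScalars ℝ)
    ((Complex.I • ContinuousLinearMap.id ℂ (ℂ × ℂ)).restrictScalars ℝ))

theorem G7b2_C_apply (B : ℂ × ℂ →L[ℝ] ℂ × ℂ →L[ℝ] ℝ) (u w : ℂ × ℂ) :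
    G7b2_C B u w = (1 / 4) * (B u w - B (Complex.I • u) (Complex.I • w)) := by
  simp only [G7b2_C, smul_apply, sub_apply, ContinuousLinearMap.bilinearComp_apply,
    ContinuousLinearMap.coe_restrictScalars', ContinuousLinearMap.coe_id', id, smul_eq_mul]

theorem G7b2_Th_re (σ : ℂ × ℂ → ℝ) (q z : ℂ × ℂ) :
    2 * (G7b2_Th σ q z).1.re = fderiv ℝ σ q (z - q) + G7b2_C (fderiv ℝ (fderiv ℝ σ) q) (z - q) (z - q) := by
  have h1 := G7b2_dd_re σ q (z - q)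
  have h2 := G7b2_S_re (fderiv ℝ (fderiv ℝ σ) q) (z - q)
  rw [Prod.fst_sub, Prod.snd_sub] at h1
  unfold G7b2_Th
  rw [Complex.add_re, mul_add, h1, G7b2_C_apply]
  have h3 : ((1 / 4 : ℂ) * G7b2_S (fderiv ℝ (fderiv ℝ σ) q) (z - q)).re =
      (1 / 4) * (G7b2_S (fderiv ℝ (fderiv ℝ σ) q) (z - q)).re := by
    have : (1 / 4 : ℂ) = ((1 / 4 : ℝ) : ℂ) := by push_cast; ring
    rw [this, Complex.re_ofReal_mul]
  rw [h3, h2]
  ring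

/-- the function without its pluriharmonic part -/
noncomputable def G7b2_k (σ : ℂ × ℂ → ℝ) (q z : ℂ × ℂ) : ℝ := σ z - 2 * (G7b2_Th σ q z).1.re

theorem G7b2_k_deriv {σ : ℂ × ℂ → ℝ} (hσ : ContDiff ℝ 2 σ) (q z : ℂ × ℂ) :
    HasFDerivAt (G7b2_k σ q) (fderiv ℝ σ z - fderiv ℝ σ q -
      (2 : ℝ) • G7b2_C (fderiv ℝ (fderiv ℝ σ) q) (z - q)) z := by
  have hsym : ∀ v w, fderiv ℝ (fderiv ℝ σ) q v w = fderiv ℝ (fderiv ℝ σ) q w v := by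
    have := (hσ.contDiffAt (x := q)).isSymmSndFDerivAt (by simp)
    exact fun v w => this v w
  have e : G7b2_k σ q = fun z => σ z - (fderiv ℝ σ q (z - q) +
      G7b2_C (fderiv ℝ (fderiv ℝ σ) q) (z - q) (z - q)) := by
    funext z
    unfold G7b2_k
    rw [G7b2_Th_re]
  rw [e]
  have h1 : HasFDerivAt σ (fderiv ℝ σ z) z := ((hσ.differentiable (by norm_num)) z).hasFDerivAt
  have h2 : HasFDerivAt (fun z : ℂ × ℂ => z - q) (ContinuousLinearMap.id ℝ (ℂ × ℂ)) z :=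
    (hasFDerivAt_id z).sub_const q
  have h3 : HasFDerivAt (fun z : ℂ × ℂ => fderiv ℝ σ q (z - q)) ((fderiv ℝ σ q).comp
      (ContinuousLinearMap.id ℝ (ℂ × ℂ))) z := (fderiv ℝ σ q).hasFDerivAt.comp z h2
  have h4 := (G7b2_C (fderiv ℝ (fderiv ℝ σ) q)).hasFDerivAt_of_bilinear h2 h2
  refine (h1.sub (h3.add h4)).congr_fderiv ?_
  refine ContinuousLinearMap.ext fun v => ?_
  simp only [sub_apply, add_apply, smul_apply, ContinuousLinearMap.comp_id,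
    ContinuousLinearMap.precompR_apply, ContinuousLinearMap.precompL_apply, ContinuousLinearMap.compL_apply,
    ContinuousLinearMap.coe_id', id, G7b2_C_apply, smul_eq_mul]
  rw [hsym v (z - q), hsym (Complex.I • v) (Complex.I • (z - q))]
  ring

theorem G7b2_k_fderiv {σ : ℂ × ℂ → ℝ} (hσ : ContDiff ℝ 2 σ) (q : ℂ × ℂ) :
    fderiv ℝ (G7b2_k σ q) = fun z => fderiv ℝ σ z - fderiv ℝ σ q -
      (2 : ℝ) • G7b2_C (fderiv ℝ (fderiv ℝ σ) q) (z - q) := by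
  funext z
  exact (G7b2_k_deriv hσ q z).fderiv

theorem G7b2_k_deriv2 {σ : ℂ × ℂ → ℝ} (hσ : ContDiff ℝ 2 σ) (q : ℂ × ℂ) :
    HasFDerivAt (fderiv ℝ (G7b2_k σ q)) (fderiv ℝ (fderiv ℝ σ) q -
      (2 : ℝ) • G7b2_C (fderiv ℝ (fderiv ℝ σ) q)) q := by
  rw [G7b2_k_fderiv hσ q]
  have h0 : ContDiff ℝ 1 (fderiv ℝ σ) := hσ.fderiv_right (by norm_num)
  have h1 : HasFDerivAt (fderiv ℝ σ) (fderiv ℝ (fderiv ℝ σ) q) q :=
    ((h0.differentiable (by norm_num)) q).hasFDerivAt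
  have h2 : HasFDerivAt (fun z : ℂ × ℂ => z - q) (ContinuousLinearMap.id ℝ (ℂ × ℂ)) q :=
    (hasFDerivAt_id q).sub_const q
  have h3 : HasFDerivAt (fun z : ℂ × ℂ => G7b2_C (fderiv ℝ (fderiv ℝ σ) q) (z - q))
      ((G7b2_C (fderiv ℝ (fderiv ℝ σ) q)).comp (ContinuousLinearMap.id ℝ (ℂ × ℂ))) q :=
    (G7b2_C (fderiv ℝ (fderiv ℝ σ) q)).hasFDerivAt.comp q h2
  refine ((h1.sub_const (fderiv ℝ σ q)).sub (h3.const_smul (2 : ℝ))).congr_fderiv ?_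
  rw [ContinuousLinearMap.comp_id]

theorem G7b2_lv {σ : ℂ × ℂ → ℝ} (q v : ℂ × ℂ) :
    (fderiv ℝ (fderiv ℝ σ) q - (2 : ℝ) • G7b2_C (fderiv ℝ (fderiv ℝ σ) q)) v v = lv σ q v / 2 := by
  unfold lv
  simp only [sub_apply, smul_apply, G7b2_C_apply, smul_eq_mul]
  ring

theorem G7b2_m {φ : ℂ × ℂ → ℝ} (hc : Continuous φ) (hh : ∀ (t : ℝ) (x : ℂ × ℂ), φ (t • x) = t ^ 2 * φ x)
    (hp : ∀ x : ℂ × ℂ, x ≠ 0 → 0 < φ x) :
    ∃ m : ℝ, 0 < m ∧ ∀ x : ℂ × ℂ, m * (‖x.1‖ ^ 2 + ‖x.2‖ ^ 2) ≤ φ x := by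
  have hK : IsCompact {x : ℂ × ℂ | ‖x.1‖ ^ 2 + ‖x.2‖ ^ 2 = 1} := by
    refine Metric.isCompact_of_isClosed_isBounded ?_ ?_
    · exact isClosed_eq (by fun_prop) continuous_const
    · refine (Metric.isBounded_closedBall (x := (0 : ℂ × ℂ)) (r := 1)).subset ?_
      intro x hx
      rw [mem_closedBall, dist_zero_right, Prod.norm_def]
      have hx' : ‖x.1‖ ^ 2 + ‖x.2‖ ^ 2 = 1 := hx
      have h1 := norm_nonneg x.1
      have h2 := norm_nonneg x.2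
      exact max_le (by nlinarith) (by nlinarith)
  have hne : {x : ℂ × ℂ | ‖x.1‖ ^ 2 + ‖x.2‖ ^ 2 = 1}.Nonempty := ⟨(1, 0), by simp⟩
  obtain ⟨x0, hx0, hmin⟩ := hK.exists_isMinOn hne hc.continuousOn
  have hx00 : x0 ≠ 0 := by
    rintro rfl
    have : ‖(0 : ℂ × ℂ).1‖ ^ 2 + ‖(0 : ℂ × ℂ).2‖ ^ 2 = 1 := hx0
    simp at this
  refine ⟨φ x0, hp x0 hx00, fun x => ?_⟩
  rcases eq_or_ne x 0 with rfl | hx
  · have := hh 0 0
    simp at this ⊢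
    rw [this]
  · have hN : 0 < ‖x.1‖ ^ 2 + ‖x.2‖ ^ 2 := by
      rcases eq_or_ne x.1 0 with h1 | h1
      · have h2 : x.2 ≠ 0 := fun h2 => hx (Prod.ext h1 h2)
        have := norm_pos_iff.2 h2
        positivity
      · have := norm_pos_iff.2 h1
        positivity
    set N := ‖x.1‖ ^ 2 + ‖x.2‖ ^ 2 with hNdef
    have hs : 0 < √N := Real.sqrt_pos.2 hN
    have hs2 : √N ^ 2 = N := Real.sq_sqrt hN.le
    have hmem : (√N)⁻¹ • x ∈ {x : ℂ × ℂ | ‖x.1‖ ^ 2 + ‖x.2‖ ^ 2 = 1} := by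
      show ‖((√N)⁻¹ • x).1‖ ^ 2 + ‖((√N)⁻¹ • x).2‖ ^ 2 = 1
      rw [Prod.smul_fst, Prod.smul_snd, norm_smul, norm_smul, Real.norm_of_nonneg (inv_nonneg.2 hs.le),
        mul_pow, mul_pow, ← mul_add, ← hNdef, inv_pow, hs2]
      exact inv_mul_cancel₀ hN.ne'
    have h1 : φ x0 ≤ φ ((√N)⁻¹ • x) := hmin hmem
    rw [hh, inv_pow, hs2] at h1
    rw [inv_mul_eq_div, le_div_iff₀ hN] at h1
    exact h1

/-- **TARGET** -/
theorem coord_exists {σ : ℂ × ℂ → ℝ} (hσ : ContDiff ℝ 2 σ) {q : ℂ × ℂ} (hd : fderiv ℝ σ q ≠ 0)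
    (hL : ∀ v : ℂ × ℂ, v ≠ 0 → 0 < lv σ q v) {O : Set (ℂ × ℂ)} (hO : IsOpen O) (hqO : q ∈ O) :
    ∃ (Θ T : ℂ × ℂ → ℂ × ℂ) (U : Set (ℂ × ℂ)) (r B m : ℝ), 0 < r ∧ r ≤ 1 ∧ 0 ≤ B ∧ 0 < m ∧
      IsOpen U ∧ q ∈ U ∧ U ⊆ O ∧ Θ q = (0, 0) ∧ T (0, 0) = q ∧ DifferentiableOn ℂ Θ U ∧
      DifferentiableOn ℂ T (Bo r) ∧ MapsTo T (Bo r) U ∧ (∀ x ∈ Bo r, Θ (T x) = x) ∧
      (∀ z ∈ U, Θ z ∈ Bo r → T (Θ z) = z) ∧ (∀ x ∈ Bo r, ‖fderiv ℂ T x‖ ≤ B) ∧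
      (∀ x : ℂ × ℂ, fderiv ℝ (fun x => σ (T x)) (0, 0) x = 2 * x.1.re) ∧
      ∀ x : ℂ × ℂ, m * (‖x.1‖ ^ 2 + ‖x.2‖ ^ 2) ≤
        fderiv ℝ (fderiv ℝ (fun x => σ (T x))) (0, 0) x x := by
  have h := G7b2_d_ne σ q hd
  set Φ := G7b2_Th σ q with hΦdef
  have hΦs : ContDiff ℂ 2 Φ := G7b2_Th_smooth σ q
  have hΦ : ContDiffAt ℂ 2 Φ q := hΦs.contDiffAt
  have hΦd := G7b2_Th_deriv σ q h
  have hΦ0 : Φ q = (0, 0) := by
    simp [hΦdef, G7b2_Th, G7b2_S]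
  let e := hΦ.toOpenPartialHomeomorph Φ hΦd two_ne_zero
  have hesrc : q ∈ e.source := hΦ.mem_toOpenPartialHomeomorph_source hΦd two_ne_zero
  have hecoe : ∀ z, e z = Φ z := fun z => rfl
  have hetgt : ((0 : ℂ), (0 : ℂ)) ∈ e.target := by
    have := e.map_source hesrc
    rw [hecoe, hΦ0] at this
    exact this
  have hes0 : e.symm (0, 0) = q := by
    have := e.left_inv hesrc
    rw [hecoe, hΦ0] at this
    exact this
  have hΨ : ContDiffAt ℂ 2 e.symm (0, 0) := by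
    have := hΦ.to_localInverse hΦd two_ne_zero
    rw [hΦ0] at this
    exact this
  obtain ⟨T, hTdef⟩ : ∃ T : ℂ × ℂ → ℂ × ℂ, T = e.symm := ⟨_, rfl⟩
  rw [← hTdef] at hes0 hΨ
  have hTc : ContinuousAt T (0, 0) := hΨ.continuousAt
  have hTd : DifferentiableAt ℂ T (0, 0) := hΨ.differentiableAt two_ne_zero
  have hΦT : ∀ x ∈ e.target, Φ (T x) = x := by
    intro x hx
    rw [hTdef, ← hecoe]
    exact e.right_inv hx
  -- the derivative of `T` is injective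
  have hinj : ∀ x : ℂ × ℂ, x ≠ 0 → fderiv ℂ T (0, 0) x ≠ 0 := by
    intro x hx hx0
    have h1 : HasFDerivAt (fun x => Φ (T x)) (((G7b2_A (d1 σ q) (d2 σ q) h : (ℂ × ℂ) ≃L[ℂ] (ℂ × ℂ)) :
        ℂ × ℂ →L[ℂ] ℂ × ℂ).comp (fderiv ℂ T (0, 0))) (0, 0) := by
      have h0 : HasFDerivAt Φ ((G7b2_A (d1 σ q) (d2 σ q) h : (ℂ × ℂ) ≃L[ℂ] (ℂ × ℂ)) :
          ℂ × ℂ →L[ℂ] ℂ × ℂ) (T (0, 0)) := by
        rw [hes0]
        exact hΦd
      exact h0.comp ((0 : ℂ), (0 : ℂ)) hTd.hasFDerivAt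
    have h2 : HasFDerivAt (fun x => Φ (T x)) (ContinuousLinearMap.id ℂ (ℂ × ℂ)) (0, 0) := by
      refine (hasFDerivAt_id _).congr_of_eventuallyEq ?_
      filter_upwards [e.open_target.mem_nhds hetgt] with y hy
      exact hΦT y hy
    have h3 := h1.unique h2
    have h4 := congrArg (fun L : ℂ × ℂ →L[ℂ] ℂ × ℂ => L x) h3
    simp only [ContinuousLinearMap.comp_apply, hx0, map_zero, ContinuousLinearMap.coe_id', id] at h4
    exact hx h4.symm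
  -- neighbourhoods
  have hfT : ContDiffAt ℂ 1 (fderiv ℂ T) (0, 0) := hΨ.fderiv_right (by norm_num)
  have hfb : ∀ᶠ p in 𝓝 ((0 : ℂ), (0 : ℂ)), ‖fderiv ℂ T p‖ < ‖fderiv ℂ T (0, 0)‖ + 1 := by
    have hc : ContinuousAt (fun p => ‖fderiv ℂ T p‖) (0, 0) := hfT.continuousAt.norm
    have hm : Set.Iio (‖fderiv ℂ T (0, 0)‖ + 1) ∈ 𝓝 ‖fderiv ℂ T (0, 0)‖ := Iio_mem_nhds (by linarith)
    exact hc hm
  have hdd : ∀ᶠ p in 𝓝 ((0 : ℂ), (0 : ℂ)), DifferentiableAt ℂ T p := by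
    have := hΨ.eventually (by decide)
    filter_upwards [this] with p hp
    exact hp.differentiableAt two_ne_zero
  have hOe : ∀ᶠ p in 𝓝 ((0 : ℂ), (0 : ℂ)), T p ∈ O := by
    have h9 := hTc.tendsto
    rw [hes0] at h9
    exact h9 (hO.mem_nhds hqO)
  have hall : ∀ᶠ p in 𝓝 ((0 : ℂ), (0 : ℂ)), p ∈ e.target ∧ T p ∈ O ∧
      ‖fderiv ℂ T p‖ < ‖fderiv ℂ T (0, 0)‖ + 1 ∧ DifferentiableAt ℂ T p := by
    filter_upwards [e.open_target.mem_nhds hetgt, hOe, hfb, hdd] with p a1 a2 a3 a4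
    exact ⟨a1, a2, a3, a4⟩
  obtain ⟨r0, hr0, hball⟩ := Metric.eventually_nhds_iff_ball.1 hall
  have hB : ∀ p ∈ Bo (min r0 1), p ∈ e.target ∧ T p ∈ O ∧
      ‖fderiv ℂ T p‖ < ‖fderiv ℂ T (0, 0)‖ + 1 ∧ DifferentiableAt ℂ T p := by
    rintro p ⟨h4, h5⟩
    apply hball
    rw [mem_ball, show (((0 : ℂ), (0 : ℂ)) : ℂ × ℂ) = 0 from rfl, dist_zero_right, Prod.norm_def]
    exact max_lt (lt_of_lt_of_le h4 (min_le_left _ _)) (lt_of_lt_of_le h5 (min_le_left _ _))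
  -- real derivatives
  have hΨr : ContDiffAt ℝ 2 T (0, 0) := hΨ.restrict_scalars ℝ
  have hfTr : ContDiffAt ℝ 1 (fderiv ℝ T) (0, 0) := hΨr.fderiv_right (by norm_num)
  have hTr : fderiv ℝ T (0, 0) = (fderiv ℂ T (0, 0)).restrictScalars ℝ :=
    (hTd.hasFDerivAt.restrictScalars ℝ).fderiv
  obtain ⟨ℓ, hℓ⟩ : ∃ ℓ : ℂ × ℂ →L[ℝ] ℝ, ℓ = (2 : ℝ) • (Complex.reCLM.comp (ContinuousLinearMap.fst ℝ ℂ ℂ)) :=
    ⟨_, rfl⟩
  have hℓa : ∀ x, ℓ x = 2 * x.1.re := by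
    intro x
    rw [hℓ]
    simp
  have hHe : ∀ᶠ x in 𝓝 ((0 : ℂ), (0 : ℂ)), σ (T x) = G7b2_k σ q (T x) + ℓ x := by
    filter_upwards [e.open_target.mem_nhds hetgt] with x hx
    unfold G7b2_k
    rw [← hΦdef, hΦT x hx, hℓa]
    ring
  have hF : fderiv ℝ (fun x => σ (T x)) =ᶠ[𝓝 ((0 : ℂ), (0 : ℂ))]
      fun x => (fderiv ℝ (G7b2_k σ q) (T x)).comp (fderiv ℝ T x) + ℓ := by
    filter_upwards [hHe.eventually_nhds, hdd] with x hx hxd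
    have h1 : (fun x => σ (T x)) =ᶠ[𝓝 x] fun x => G7b2_k σ q (T x) + ℓ x := hx
    rw [h1.fderiv_eq]
    have h2 : HasFDerivAt (G7b2_k σ q) (fderiv ℝ (G7b2_k σ q) (T x)) (T x) :=
      (G7b2_k_deriv hσ q (T x)).differentiableAt.hasFDerivAt
    have h3 : HasFDerivAt T (fderiv ℝ T x) x := (hxd.restrictScalars ℝ).hasFDerivAt
    exact ((h2.comp x h3).add ℓ.hasFDerivAt).fderiv
  have hk0 : fderiv ℝ (G7b2_k σ q) (T (0, 0)) = 0 := by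
    rw [hes0, G7b2_k_fderiv hσ q]
    simp
  have hF0 : fderiv ℝ (fun x => σ (T x)) (0, 0) = ℓ := by
    rw [hF.self_of_nhds]
    show (fderiv ℝ (G7b2_k σ q) (T (0, 0))).comp (fderiv ℝ T (0, 0)) + ℓ = ℓ
    rw [hk0]
    simp
  have hG1 : HasFDerivAt (fun x => fderiv ℝ (G7b2_k σ q) (T x)) ((fderiv ℝ (fderiv ℝ σ) q -
      (2 : ℝ) • G7b2_C (fderiv ℝ (fderiv ℝ σ) q)).comp (fderiv ℝ T (0, 0))) (0, 0) := by
    have h1 := G7b2_k_deriv2 hσ q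
    rw [← hes0] at h1
    have h2 : HasFDerivAt T (fderiv ℝ T (0, 0)) (0, 0) := (hTd.restrictScalars ℝ).hasFDerivAt
    have h3 := h1.comp ((0 : ℂ), (0 : ℂ)) h2
    rw [hes0] at h3
    exact h3
  have hG2 : HasFDerivAt (fderiv ℝ T) (fderiv ℝ (fderiv ℝ T) (0, 0)) (0, 0) :=
    (hfTr.differentiableAt one_ne_zero).hasFDerivAt
  have hG3 := ((hG1.clm_comp hG2).add_const ℓ).congr_of_eventuallyEq hF
  have hsec : ∀ x : ℂ × ℂ, fderiv ℝ (fderiv ℝ (fun x => σ (T x))) (0, 0) x x =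
      (fderiv ℝ (fderiv ℝ σ) q - (2 : ℝ) • G7b2_C (fderiv ℝ (fderiv ℝ σ) q)) (fderiv ℝ T (0, 0) x)
        (fderiv ℝ T (0, 0) x) := by
    intro x
    rw [hG3.fderiv, hk0]
    simp
  obtain ⟨m, hm, hmx⟩ := G7b2_m (φ := fun x => (fderiv ℝ (fderiv ℝ σ) q -
      (2 : ℝ) • G7b2_C (fderiv ℝ (fderiv ℝ σ) q)) (fderiv ℝ T (0, 0) x) (fderiv ℝ T (0, 0) x))
    (by fun_prop)
    (fun t x => by
      simp only [map_smul, smul_apply, smul_eq_mul]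
      ring)
    (fun x hx => by
      show 0 < (fderiv ℝ (fderiv ℝ σ) q - (2 : ℝ) • G7b2_C (fderiv ℝ (fderiv ℝ σ) q))
        (fderiv ℝ T (0, 0) x) (fderiv ℝ T (0, 0) x)
      rw [G7b2_lv, hTr]
      have := hL _ (hinj x hx)
      exact half_pos this)
  refine ⟨Φ, T, e.source ∩ O, min r0 1, ‖fderiv ℂ T (0, 0)‖ + 1, m, lt_min hr0 one_pos, min_le_right _ _,
    by positivity, hm, e.open_source.inter hO, ⟨hesrc, hqO⟩, inter_subset_right, hΦ0, hes0,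
    (hΦs.differentiable two_ne_zero).differentiableOn, fun x hx => (hB x hx).2.2.2.differentiableWithinAt,
    ?_, fun x hx => hΦT x (hB x hx).1, ?_, fun x hx => (hB x hx).2.2.1.le, ?_, ?_⟩
  · intro x hx
    refine ⟨?_, (hB x hx).2.1⟩
    rw [hTdef]
    exact e.map_target (hB x hx).1
  · rintro z ⟨hz, -⟩ -
    rw [hTdef, ← hecoe]
    exact e.left_inv hz
  · intro x
    rw [hF0, hℓa]
  · intro x
    rw [hsec]
    exact hmx x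

end Pool.Agent.P157G
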