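import Mathlib
import Pool.Agent.P157G.Defs

set_option autoImplicit false

open MeasureTheory Metric Set Filter Topology Complex

namespace Pool.Agent.P157G

open Pool.Agent.P157D (d1 d2 CR Bo)

theorem G7b1_second {ρ : ℂ × ℂ → ℝ} (hρ : ContDiff ℝ 2 ρ) {q : ℂ × ℂ} (hq : ρ q = 0) (lam : ℝ)
    (v w : ℂ × ℂ) :
    fderiv ℝ (fderiv ℝ (fun x => Real.exp (lam * ρ x))) q v w =
      lam * fderiv ℝ (fderiv ℝ ρ) q v w + lam ^ 2 * (fderiv ℝ ρ q v * fderiv ℝ ρ q w) := by
  have hd : Differentiable ℝ ρ := hρ.differentiable (by norm_num)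
  have h1 : fderiv ℝ (fun x => Real.exp (lam * ρ x)) =
      fun x => (Real.exp (lam * ρ x) * lam) • fderiv ℝ ρ x := by
    funext x
    have h := ((hd x).hasFDerivAt.const_mul lam).exp
    rw [h.fderiv, smul_smul]
  have hF : Differentiable ℝ (fderiv ℝ ρ) :=
    (hρ.fderiv_right (m := 1) (by norm_num)).differentiable (by norm_num)
  have h2 : HasFDerivAt (fun x => Real.exp (lam * ρ x) * lam)
      (lam • (Real.exp (lam * ρ q) • lam • fderiv ℝ ρ q)) q :=
    (((hd q).hasFDerivAt.const_mul lam).exp).mul_const lam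
  have h3 := h2.smul (hF q).hasFDerivAt
  have h4 : fderiv ℝ (fun x => (Real.exp (lam * ρ x) * lam) • fderiv ℝ ρ x) q = _ := h3.fderiv
  rw [h1, h4]
  simp only [hq, mul_zero, Real.exp_zero, one_mul, one_smul, ContinuousLinearMap.add_apply,
    ContinuousLinearMap.smul_apply, ContinuousLinearMap.smulRight_apply, smul_eq_mul]
  ring

theorem G7b1_lin (D : ℂ × ℂ →L[ℝ] ℝ) (v : ℂ × ℂ) :
    D v = v.1.re * D (1, 0) + v.1.im * D (Complex.I, 0) + v.2.re * D (0, 1) +
      v.2.im * D (0, Complex.I) := by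
  have h : v = v.1.re • ((1, 0) : ℂ × ℂ) + v.1.im • ((Complex.I, 0) : ℂ × ℂ) +
      v.2.re • ((0, 1) : ℂ × ℂ) + v.2.im • ((0, Complex.I) : ℂ × ℂ) := by
    apply Prod.ext
    · apply Complex.ext <;> simp
    · apply Complex.ext <;> simp
  conv_lhs => rw [h]
  simp only [map_add, map_smul, smul_eq_mul]

theorem G7b1_dd (ρ : ℂ × ℂ → ℝ) (q v : ℂ × ℂ) (h1 : fderiv ℝ ρ q v = 0)
    (h2 : fderiv ℝ ρ q (Complex.I • v) = 0) : dd ρ q v = 0 := by
  rw [G7b1_lin] at h1 h2
  simp only [Prod.smul_fst, Prod.smul_snd, smul_eq_mul, Complex.mul_re, Complex.mul_im,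
    Complex.I_re, Complex.I_im, zero_mul, one_mul, zero_sub, zero_add, add_zero] at h2
  unfold dd Pool.Agent.P157D.d1 Pool.Agent.P157D.d2
  apply Complex.ext
  · simp
    linarith
  · simp
    linarith

/-- **TARGET** -/
theorem lam_exists {ρ : ℂ × ℂ → ℝ} (hρ : ContDiff ℝ 2 ρ) {q : ℂ × ℂ} (hq : ρ q = 0)
    (hL : ∀ v : ℂ × ℂ, v ≠ 0 → dd ρ q v = 0 → 0 < lv ρ q v) :
    ∃ lam : ℝ, 0 < lam ∧ ∀ v : ℂ × ℂ, v ≠ 0 → 0 < lv (fun x => Real.exp (lam * ρ x)) q v := by
  set D : ℂ × ℂ →L[ℝ] ℝ := fderiv ℝ ρ q with hD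
  let g : ℂ × ℂ → ℝ := fun v => (D v) ^ 2 + (D (Complex.I • v)) ^ 2
  have hg0 : ∀ v, 0 ≤ g v := fun v => by positivity
  have hgc : Continuous g := by
    have h1 : Continuous fun v : ℂ × ℂ => D v := D.continuous
    have h2 : Continuous fun v : ℂ × ℂ => D (Complex.I • v) :=
      D.continuous.comp (continuous_const_smul _)
    exact (h1.pow 2).add (h2.pow 2)
  have hfc : Continuous (fun v => lv ρ q v) := by
    unfold lv
    have h0 : Continuous fun v : ℂ × ℂ => fderiv ℝ (fderiv ℝ ρ) q v v :=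
      ((fderiv ℝ (fderiv ℝ ρ) q).continuous).clm_apply continuous_id
    have h1 : Continuous fun v : ℂ × ℂ =>
        fderiv ℝ (fderiv ℝ ρ) q (Complex.I • v) (Complex.I • v) :=
      h0.comp (continuous_const_smul Complex.I)
    exact h0.add h1
  have hgpos : ∀ v : ℂ × ℂ, v ≠ 0 → lv ρ q v ≤ 0 → 0 < g v := by
    intro v hv hle
    rcases (hg0 v).lt_or_eq with h | h
    · exact h
    · exfalso
      have h1 : D v = 0 := by
        have : (D v) ^ 2 = 0 := by
          have := sq_nonneg (D v)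
          have := sq_nonneg (D (Complex.I • v))
          have : g v = (D v) ^ 2 + (D (Complex.I • v)) ^ 2 := rfl
          linarith
        exact pow_eq_zero_iff (two_ne_zero) |>.1 this
      have h2 : D (Complex.I • v) = 0 := by
        have : (D (Complex.I • v)) ^ 2 = 0 := by
          have := sq_nonneg (D v)
          have := sq_nonneg (D (Complex.I • v))
          have : g v = (D v) ^ 2 + (D (Complex.I • v)) ^ 2 := rfl
          linarith
        exact pow_eq_zero_iff (two_ne_zero) |>.1 this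
      have h3 := hL v hv (G7b1_dd ρ q v h1 h2)
      linarith
  have hhom : ∀ (c : ℝ) (v : ℂ × ℂ), lv ρ q (c • v) = c ^ 2 * lv ρ q v := by
    intro c v
    unfold lv
    rw [smul_comm Complex.I c v]
    simp only [map_smul, ContinuousLinearMap.smul_apply, smul_eq_mul]
    ring
  have hghom : ∀ (c : ℝ) (v : ℂ × ℂ), g (c • v) = c ^ 2 * g v := by
    intro c v
    change (D (c • v)) ^ 2 + (D (Complex.I • (c • v))) ^ 2 =
      c ^ 2 * ((D v) ^ 2 + (D (Complex.I • v)) ^ 2)
    rw [smul_comm Complex.I c v, map_smul, map_smul, smul_eq_mul, smul_eq_mul]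
    ring
  -- the constant
  have key : ∃ lam : ℝ, 0 < lam ∧ ∀ v : ℂ × ℂ, ‖v‖ = 1 → 0 < lv ρ q v + lam * g v := by
    have hK : IsCompact (sphere (0 : ℂ × ℂ) 1) := isCompact_sphere _ _
    have hK' : IsCompact (sphere (0 : ℂ × ℂ) 1 ∩ {v | lv ρ q v ≤ 0}) :=
      hK.inter_right (isClosed_le hfc continuous_const)
    rcases (sphere (0 : ℂ × ℂ) 1 ∩ {v | lv ρ q v ≤ 0}).eq_empty_or_nonempty with he | hne
    · refine ⟨1, one_pos, fun v hv => ?_⟩
      have : ¬ lv ρ q v ≤ 0 := fun h => by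
        have : v ∈ sphere (0 : ℂ × ℂ) 1 ∩ {v | lv ρ q v ≤ 0} := ⟨by simpa using hv, h⟩
        rw [he] at this
        exact this
      have := hg0 v
      linarith
    · obtain ⟨a, ha, hamin⟩ := hK'.exists_isMinOn hne hgc.continuousOn
      obtain ⟨b, hb, hbmin⟩ := hK'.exists_isMinOn hne hfc.continuousOn
      have hapos : 0 < g a := by
        apply hgpos a _ ha.2
        rintro rfl
        simpa using ha.1
      have hb0 : lv ρ q b ≤ 0 := hb.2
      refine ⟨(1 - lv ρ q b) / g a, div_pos (by linarith) hapos, fun v hv => ?_⟩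
      by_cases h : lv ρ q v ≤ 0
      · have hv' : v ∈ sphere (0 : ℂ × ℂ) 1 ∩ {v | lv ρ q v ≤ 0} := ⟨by simpa using hv, h⟩
        have h1 : g a ≤ g v := hamin hv'
        have h2 : lv ρ q b ≤ lv ρ q v := hbmin hv'
        have h3 : (1 - lv ρ q b) / g a * g a ≤ (1 - lv ρ q b) / g a * g v :=
          mul_le_mul_of_nonneg_left h1 (div_pos (by linarith) hapos).le
        rw [div_mul_cancel₀ _ hapos.ne'] at h3
        linarith
      · have h3 : 0 ≤ (1 - lv ρ q b) / g a * g v :=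
          mul_nonneg (div_pos (by linarith) hapos).le (hg0 v)
        linarith
  obtain ⟨lam, hlam, hpos⟩ := key
  refine ⟨lam, hlam, fun v hv => ?_⟩
  have hval : lv (fun x => Real.exp (lam * ρ x)) q v = lam * (lv ρ q v + lam * g v) := by
    unfold lv
    rw [G7b1_second hρ hq, G7b1_second hρ hq]
    change _ = lam * (_ + lam * ((D v) ^ 2 + (D (Complex.I • v)) ^ 2))
    ring
  rw [hval]
  apply mul_pos hlam
  have hn : ‖v‖ ≠ 0 := norm_ne_zero_iff.2 hv
  have hu := hpos ((‖v‖)⁻¹ • v) (by rw [norm_smul, norm_inv, norm_norm, inv_mul_cancel₀ hn])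
  rw [hhom, hghom] at hu
  have h5 : 0 < (‖v‖)⁻¹ ^ 2 * (lv ρ q v + lam * g v) := by
    calc 0 < _ := hu
      _ = _ := by ring
  have h6 : 0 < (‖v‖)⁻¹ ^ 2 := by positivity
  exact (mul_pos_iff_of_pos_left h6).1 h5

end Pool.Agent.P157G
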