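import Mathlib
import Pool.Agent.H720R2.HP.Kern
import Pool.Agent.P157G.Defs

set_option autoImplicit false

open MeasureTheory Metric Set Filter Topology Complex

namespace Pool.Agent.P157G

open Pool.Agent.P157D (d1 d2 CR Bo)

section

variable {E : Type} [NormedAddCommGroup E] [NormedSpace ℂ E] {O K : Set ℂ}

theorem G1_dom (hO : IsOpen O) (hK : IsCompact K) {F : ℂ × ℂ → E}
    (hF : ContinuousOn F (O ×ˢ univ)) (hs : ∀ x : ℂ × ℂ, x.1 ∈ O → x.2 ∉ K → F x = 0)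
    {x0 : ℂ × ℂ} (hx0 : x0.1 ∈ O) : ∃ s R M : ℝ, 0 < s ∧ ball x0 s ⊆ O ×ˢ univ ∧
      ∀ x ∈ ball x0 s, ∀ ω : ℂ, ‖ω⁻¹ • F (x - (0, ω))‖ ≤
        (ball (0 : ℂ) R).indicator (fun _ => M) ω * ‖0 - ω‖⁻¹ := by
  obtain ⟨r, hr, hrO⟩ := Metric.nhds_basis_closedBall.mem_iff.1 (hO.mem_nhds hx0)
  obtain ⟨C, hC⟩ := ((isCompact_closedBall x0.1 r).prod hK).exists_bound_of_continuousOn
    (hF.mono (Set.prod_mono hrO (subset_univ _)))
  obtain ⟨k, hk⟩ := hK.isBounded.subset_ball (0 : ℂ)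
  have hin : ∀ x ∈ ball x0 r, x.1 ∈ closedBall x0.1 r ∧ ‖x.2 - x0.2‖ < r := by
    intro x hx
    rw [mem_ball, Prod.dist_eq, max_lt_iff, dist_eq_norm, dist_eq_norm] at hx
    exact ⟨by rw [mem_closedBall, dist_eq_norm]; exact hx.1.le, hx.2⟩
  refine ⟨r, k + ‖x0.2‖ + r, max C 0, hr, fun x hx => ⟨hrO (hin x hx).1, mem_univ _⟩, ?_⟩
  intro x hx ω
  obtain ⟨h1, h2⟩ := hin x hx
  have e1 : (x - (0, ω)).1 = x.1 := by simp
  have e2 : (x - (0, ω)).2 = x.2 - ω := by simp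
  have hn : 0 ≤ (ball (0 : ℂ) (k + ‖x0.2‖ + r)).indicator (fun _ => max C 0) ω * ‖0 - ω‖⁻¹ :=
    mul_nonneg (indicator_nonneg (fun _ _ => le_max_right _ _) _) (by positivity)
  by_cases h : x.2 - ω ∈ K
  · have h3 : ‖F (x - (0, ω))‖ ≤ C := hC _ ⟨by rw [e1]; exact h1, by rw [e2]; exact h⟩
    have h4 : ‖x.2 - ω‖ < k := by
      have := hk h
      rwa [mem_ball_zero_iff] at this
    have h5 : ω ∈ ball (0 : ℂ) (k + ‖x0.2‖ + r) := by
      rw [mem_ball_zero_iff]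
      have a1 : ‖ω‖ ≤ ‖x.2 - ω‖ + ‖x.2‖ := by
        have := norm_sub_le x.2 (x.2 - ω)
        rw [sub_sub_cancel] at this
        linarith
      have a2 : ‖x.2‖ ≤ ‖x.2 - x0.2‖ + ‖x0.2‖ := by
        have := norm_add_le (x.2 - x0.2) x0.2
        rwa [sub_add_cancel] at this
      linarith
    rw [indicator_of_mem h5, norm_smul, norm_inv, zero_sub, norm_neg, mul_comm]
    gcongr
    exact h3.trans (le_max_left _ _)
  · have h3 : F (x - (0, ω)) = 0 := hs _ (by rw [e1]; exact hrO h1) (by rw [e2]; exact h)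
    rw [h3, smul_zero, norm_zero]
    exact hn

omit [NormedSpace ℂ E] in
theorem G1_c {F : ℂ × ℂ → E} (hF : ContinuousOn F (O ×ˢ univ)) {x : ℂ × ℂ} (hx : x.1 ∈ O) :
    Continuous (fun ω : ℂ => F (x - (0, ω))) := by
  refine hF.comp_continuous (by fun_prop) ?_
  intro ω
  exact ⟨by simpa using hx, mem_univ _⟩

theorem G1_meas {F : ℂ × ℂ → E} (hF : ContinuousOn F (O ×ˢ univ)) {x : ℂ × ℂ} (hx : x.1 ∈ O) :
    AEStronglyMeasurable (fun ω : ℂ => ω⁻¹ • F (x - (0, ω))) volume := by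
  have h1 : AEStronglyMeasurable (fun ω : ℂ => ω⁻¹) volume := measurable_inv.aestronglyMeasurable
  exact h1.smul (G1_c hF hx).aestronglyMeasurable

theorem G1_int (hO : IsOpen O) (hK : IsCompact K) {F : ℂ × ℂ → E}
    (hF : ContinuousOn F (O ×ˢ univ)) (hs : ∀ x : ℂ × ℂ, x.1 ∈ O → x.2 ∉ K → F x = 0)
    {x : ℂ × ℂ} (hx : x.1 ∈ O) : Integrable (fun ω : ℂ => ω⁻¹ • F (x - (0, ω))) := by
  obtain ⟨s, R, M, hs0, -, hb⟩ := G1_dom hO hK hF hs hx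
  exact (Pool.Agent.H720R2.HP.dom_int 0 R M).mono' (G1_meas hF hx)
    (Eventually.of_forall fun ω => hb x (mem_ball_self hs0) ω)

theorem G1_cont (hO : IsOpen O) (hK : IsCompact K) {F : ℂ × ℂ → E}
    (hF : ContinuousOn F (O ×ˢ univ)) (hs : ∀ x : ℂ × ℂ, x.1 ∈ O → x.2 ∉ K → F x = 0) :
    ContinuousOn (fun x : ℂ × ℂ => ∫ ω : ℂ, ω⁻¹ • F (x - (0, ω))) (O ×ˢ univ) := by
  intro x0 hx0
  apply ContinuousAt.continuousWithinAt
  obtain ⟨s, R, M, hs0, hsub, hb⟩ := G1_dom hO hK hF hs hx0.1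
  refine continuousAt_of_dominated
    (bound := fun ω => (ball (0 : ℂ) R).indicator (fun _ => M) ω * ‖0 - ω‖⁻¹) ?_ ?_
    (Pool.Agent.H720R2.HP.dom_int 0 R M) ?_
  · filter_upwards [ball_mem_nhds x0 hs0] with x hx
    exact G1_meas hF (hsub hx).1
  · filter_upwards [ball_mem_nhds x0 hs0] with x hx
    exact Eventually.of_forall fun ω => hb x hx ω
  · refine Eventually.of_forall fun ω => ?_
    refine ContinuousAt.const_smul ?_ _
    have h1 : x0 - (0, ω) ∈ O ×ˢ (univ : Set ℂ) := ⟨by simpa using hx0.1, mem_univ _⟩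
    have h2 : ContinuousAt F (x0 - (0, ω)) :=
      hF.continuousAt ((hO.prod isOpen_univ).mem_nhds h1)
    exact ContinuousAt.comp (f := fun x : ℂ × ℂ => x - (0, ω)) h2 (by fun_prop)

end

theorem G1_CT2 (g : ℂ × ℂ → ℂ) (x : ℂ × ℂ) :
    CT2 g x = (1 / Real.pi : ℂ) * ∫ ω : ℂ, ω⁻¹ • g (x - (0, ω)) := by
  unfold CT2
  congr 1
  rw [← integral_sub_left_eq_self (fun ζ => g (x.1, ζ) / (x.2 - ζ)) _ x.2]
  congr 1
  funext ω
  have e : x - (0, ω) = (x.1, x.2 - ω) := by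
    ext <;> simp
  rw [sub_sub_cancel, e, smul_eq_mul, div_eq_mul_inv, mul_comm]

theorem G1_fd0 {O K : Set ℂ} (hO : IsOpen O) (hK : IsCompact K) {g : ℂ × ℂ → ℂ}
    (hs : ∀ x : ℂ × ℂ, x.1 ∈ O → x.2 ∉ K → g x = 0) (x : ℂ × ℂ) (h1 : x.1 ∈ O) (h2 : x.2 ∉ K) :
    fderiv ℝ g x = 0 := by
  have h3 : (O ×ˢ Kᶜ : Set (ℂ × ℂ)) ∈ 𝓝 x := (hO.prod hK.isClosed.isOpen_compl).mem_nhds ⟨h1, h2⟩
  have h4 : g =ᶠ[𝓝 x] fun _ => 0 := by
    filter_upwards [h3] with y hy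
    exact hs y hy.1 hy.2
  rw [h4.fderiv_eq]
  simp

theorem G1_fd {O K : Set ℂ} (hO : IsOpen O) (hK : IsCompact K) {g : ℂ × ℂ → ℂ}
    (hg : ContDiffOn ℝ 1 g (O ×ˢ univ)) (hs : ∀ x : ℂ × ℂ, x.1 ∈ O → x.2 ∉ K → g x = 0)
    {x : ℂ × ℂ} (hx : x.1 ∈ O) :
    HasFDerivAt (CT2 g) ((1 / Real.pi : ℂ) • ∫ ω : ℂ, ω⁻¹ • fderiv ℝ g (x - (0, ω))) x := by
  have hU : IsOpen (O ×ˢ (univ : Set ℂ)) := hO.prod isOpen_univ
  have hc : ContinuousOn g (O ×ˢ univ) := hg.continuousOn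
  have hfc : ContinuousOn (fderiv ℝ g) (O ×ˢ univ) := hg.continuousOn_fderiv_of_isOpen hU le_rfl
  have hf0 := G1_fd0 hO hK hs
  obtain ⟨s, R, M, hs0, hsub, hb⟩ := G1_dom hO hK hfc hf0 hx
  have e : CT2 g = fun x => (1 / Real.pi : ℂ) * ∫ ω : ℂ, ω⁻¹ • g (x - (0, ω)) :=
    funext (G1_CT2 g)
  rw [e]
  refine HasFDerivAt.const_mul ?_ _
  refine hasFDerivAt_integral_of_dominated_of_fderiv_le (ball_mem_nhds x hs0)
    (bound := fun ω => (ball (0 : ℂ) R).indicator (fun _ => M) ω * ‖0 - ω‖⁻¹)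
    (F' := fun (x : ℂ × ℂ) (ω : ℂ) => ω⁻¹ • fderiv ℝ g (x - (0, ω)))
    ?_ (G1_int hO hK hc hs hx) (G1_meas hfc hx) ?_
    (Pool.Agent.H720R2.HP.dom_int 0 R M) ?_
  · filter_upwards [ball_mem_nhds x hs0] with y hy
    exact G1_meas hc (hsub hy).1
  · exact Eventually.of_forall fun ω y hy => hb y hy ω
  · refine Eventually.of_forall fun ω y hy => ?_
    have h1 : y - (0, ω) ∈ O ×ˢ (univ : Set ℂ) := ⟨by simpa using (hsub hy).1, mem_univ _⟩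
    have h2 : HasFDerivAt g (fderiv ℝ g (y - (0, ω))) (y - (0, ω)) :=
      ((hg.differentiableOn one_ne_zero).differentiableAt (hU.mem_nhds h1)).hasFDerivAt
    have h3 : HasFDerivAt (fun y : ℂ × ℂ => y - (0, ω)) (ContinuousLinearMap.id ℝ (ℂ × ℂ)) y :=
      (hasFDerivAt_id y).sub_const _
    have h4 := h2.comp y h3
    rw [ContinuousLinearMap.comp_id] at h4
    exact h4.const_smul ω⁻¹

theorem G1_fda {O K : Set ℂ} (hO : IsOpen O) (hK : IsCompact K) {g : ℂ × ℂ → ℂ}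
    (hg : ContDiffOn ℝ 1 g (O ×ˢ univ)) (hs : ∀ x : ℂ × ℂ, x.1 ∈ O → x.2 ∉ K → g x = 0)
    {x : ℂ × ℂ} (hx : x.1 ∈ O) (v : ℂ × ℂ) :
    fderiv ℝ (CT2 g) x v = (1 / Real.pi : ℂ) * ∫ ω : ℂ, ω⁻¹ * fderiv ℝ g (x - (0, ω)) v := by
  have hU : IsOpen (O ×ˢ (univ : Set ℂ)) := hO.prod isOpen_univ
  have hfc : ContinuousOn (fderiv ℝ g) (O ×ˢ univ) := hg.continuousOn_fderiv_of_isOpen hU le_rfl
  rw [(G1_fd hO hK hg hs hx).fderiv]
  have h1 := ContinuousLinearMap.integral_apply (G1_int hO hK hfc (G1_fd0 hO hK hs) hx) v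
  rw [_root_.smul_apply, h1, smul_eq_mul]
  rfl

theorem G1_iv {O K : Set ℂ} (hO : IsOpen O) (hK : IsCompact K) {g : ℂ × ℂ → ℂ}
    (hg : ContDiffOn ℝ 1 g (O ×ˢ univ)) (hs : ∀ x : ℂ × ℂ, x.1 ∈ O → x.2 ∉ K → g x = 0)
    {x : ℂ × ℂ} (hx : x.1 ∈ O) (v : ℂ × ℂ) :
    Integrable (fun ω : ℂ => ω⁻¹ * fderiv ℝ g (x - (0, ω)) v) := by
  have hU : IsOpen (O ×ˢ (univ : Set ℂ)) := hO.prod isOpen_univ
  have hfc : ContinuousOn (fderiv ℝ g) (O ×ˢ univ) := hg.continuousOn_fderiv_of_isOpen hU le_rfl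
  have h1 := (G1_int hO hK hfc (G1_fd0 hO hK hs) hx).apply_continuousLinearMap v
  exact h1

/-- **TARGET** -/
theorem ct2 {O K : Set ℂ} (hO : IsOpen O) (hK : IsCompact K) {g : ℂ × ℂ → ℂ}
    (hg : ContDiffOn ℝ 1 g (O ×ˢ univ)) (hs : ∀ x : ℂ × ℂ, x.1 ∈ O → x.2 ∉ K → g x = 0) :
    ContDiffOn ℝ 1 (CT2 g) (O ×ˢ univ) ∧ ∀ x : ℂ × ℂ, x.1 ∈ O →
      db2 (CT2 g) x = g x ∧ db1 (CT2 g) x = CT2 (db1 g) x ∧ CT2 (db2 g) x = g x := by
  have hU : IsOpen (O ×ˢ (univ : Set ℂ)) := hO.prod isOpen_univ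
  have hfc : ContinuousOn (fderiv ℝ g) (O ×ˢ univ) := hg.continuousOn_fderiv_of_isOpen hU le_rfl
  have hf0 := G1_fd0 hO hK hs
  have hpi : (Real.pi : ℂ) ≠ 0 := by exact_mod_cast Real.pi_ne_zero
  constructor
  · have h1 : DifferentiableOn ℝ (CT2 g) (O ×ˢ univ) := fun x hx =>
      (G1_fd hO hK hg hs hx.1).differentiableAt.differentiableWithinAt
    have h2 : ContinuousOn (fderiv ℝ (CT2 g)) (O ×ˢ univ) := by
      refine ((G1_cont hO hK hfc hf0).const_smul (1 / Real.pi : ℂ)).congr ?_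
      intro x hx
      exact (G1_fd hO hK hg hs hx.1).fderiv
    have e : (1 : WithTop ℕ∞) = 0 + 1 := by simp
    rw [e, contDiffOn_succ_iff_fderiv_of_isOpen hU]
    exact ⟨h1, by simp, contDiffOn_zero.2 h2⟩
  · intro x hx
    have key : CT2 (db2 g) x = g x := by
      -- Cauchy-Pompeiu
      have hφ : ContDiff ℝ 1 (fun ζ : ℂ => g (x.1, ζ)) := by
        rw [← contDiffOn_univ]
        exact hg.comp (t := O ×ˢ univ) (by fun_prop) (fun ζ _ => ⟨hx, mem_univ _⟩)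
      have hφc : HasCompactSupport (fun ζ : ℂ => g (x.1, ζ)) :=
        HasCompactSupport.intro hK (fun ζ hζ => hs (x.1, ζ) hx hζ)
      have h1 := Pool.Agent.Helper366.IV.cauchy_pompeiu (fun ζ : ℂ => g (x.1, ζ)) hφ hφc x.2
      rw [G1_CT2]
      have h2 : ∀ ζ v : ℂ, fderiv ℝ (fun ζ : ℂ => g (x.1, ζ)) ζ v = fderiv ℝ g (x.1, ζ) (0, v) := by
        intro ζ v
        have hm : (x.1, ζ) ∈ O ×ˢ (univ : Set ℂ) := ⟨hx, mem_univ _⟩
        have h3 : HasFDerivAt g (fderiv ℝ g (x.1, ζ)) (x.1, ζ) :=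
          ((hg.differentiableOn one_ne_zero).differentiableAt (hU.mem_nhds hm)).hasFDerivAt
        have h4 : HasFDerivAt (fun ζ : ℂ => (x.1, ζ)) (ContinuousLinearMap.inr ℝ ℂ ℂ) ζ :=
          hasFDerivAt_prodMk_right x.1 ζ
        have h6 := (h3.comp ζ h4).fderiv
        have h7 : (g ∘ fun ζ : ℂ => (x.1, ζ)) = fun ζ : ℂ => g (x.1, ζ) := rfl
        rw [h7] at h6
        rw [h6]
        simp
      have h5 : ∫ ω : ℂ, ω⁻¹ • db2 g (x - (0, ω)) = Real.pi * g x := by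
        rw [← Prod.mk.eta (p := x), ← h1]
        congr 1
        funext ω
        have e : (x.1, x.2) - (0, ω) = (x.1, x.2 - ω) := by
          ext <;> simp
        rw [e, h2, h2, smul_eq_mul, div_eq_mul_inv _ ω, mul_comm]
        rfl
      rw [h5]
      field_simp
    refine ⟨?_, ?_, key⟩
    · rw [← key, G1_CT2 (db2 g) x]
      unfold db2
      rw [G1_fda hO hK hg hs hx, G1_fda hO hK hg hs hx]
      simp only [smul_eq_mul]
      have e1 : ∀ ω : ℂ, ω⁻¹ * ((fderiv ℝ g (x - (0, ω)) (0, 1) +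
          I * fderiv ℝ g (x - (0, ω)) (0, I)) / 2) =
          2⁻¹ * (ω⁻¹ * fderiv ℝ g (x - (0, ω)) (0, 1)) +
            2⁻¹ * I * (ω⁻¹ * fderiv ℝ g (x - (0, ω)) (0, I)) := by
        intro ω
        ring
      simp only [e1]
      rw [integral_add ((G1_iv hO hK hg hs hx _).const_mul _)
        ((G1_iv hO hK hg hs hx _).const_mul _), integral_const_mul, integral_const_mul]
      ring
    · rw [G1_CT2 (db1 g) x]
      unfold db1
      rw [G1_fda hO hK hg hs hx, G1_fda hO hK hg hs hx]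
      simp only [smul_eq_mul]
      have e1 : ∀ ω : ℂ, ω⁻¹ * ((fderiv ℝ g (x - (0, ω)) (1, 0) +
          I * fderiv ℝ g (x - (0, ω)) (I, 0)) / 2) =
          2⁻¹ * (ω⁻¹ * fderiv ℝ g (x - (0, ω)) (1, 0)) +
            2⁻¹ * I * (ω⁻¹ * fderiv ℝ g (x - (0, ω)) (I, 0)) := by
        intro ω
        ring
      simp only [e1]
      rw [integral_add ((G1_iv hO hK hg hs hx _).const_mul _)
        ((G1_iv hO hK hg hs hx _).const_mul _), integral_const_mul, integral_const_mul]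
      ring

/-- **TARGET** -/
theorem ct2_bd {ρ M : ℝ} (hρ : 0 ≤ ρ) (hM : 0 ≤ M) {a : ℂ} {g : ℂ × ℂ → ℂ} {x : ℂ × ℂ}
    (hs : ∀ ζ : ℂ, ρ ≤ ‖ζ - a‖ → g (x.1, ζ) = 0) (hb : ∀ ζ : ℂ, ‖g (x.1, ζ)‖ ≤ M) :
    ‖CT2 g x‖ ≤ 2 * (‖x.2 - a‖ + ρ) * M := by
  unfold CT2
  rw [← integral_add_left_eq_self (fun ζ => g (x.1, ζ) / (x.2 - ζ)) a]
  have h1 : ∀ ζ : ℂ, ‖g (x.1, a + ζ) / (x.2 - (a + ζ))‖ ≤
      (ball (0 : ℂ) ρ).indicator (fun _ => M) ζ * ‖(x.2 - a) - ζ‖⁻¹ := by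
    intro ζ
    by_cases h : ζ ∈ ball (0 : ℂ) ρ
    · rw [indicator_of_mem h, norm_div, div_eq_mul_inv, sub_sub]
      gcongr
      exact hb _
    · rw [indicator_of_notMem h, zero_mul, hs, zero_div, norm_zero]
      rw [mem_ball_zero_iff, not_lt] at h
      rwa [add_sub_cancel_left]
  have h2 := norm_integral_le_of_norm_le (Pool.Agent.H720R2.HP.dom_int (x.2 - a) ρ M)
    (Eventually.of_forall h1)
  have h3 := h2.trans (Pool.Agent.H720R2.HP.dom_int_le (x.2 - a) hρ hM)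
  rw [norm_mul]
  have h4 : ‖(1 / Real.pi : ℂ)‖ = 1 / Real.pi := by
    rw [norm_div, norm_one, Complex.norm_real, Real.norm_of_nonneg Real.pi_pos.le]
  rw [h4]
  calc 1 / Real.pi * ‖∫ ζ : ℂ, g (x.1, a + ζ) / (x.2 - (a + ζ))‖
      ≤ 1 / Real.pi * (M * (2 * Real.pi * (‖x.2 - a‖ + ρ))) := by
        have := Real.pi_pos
        gcongr
    _ = 2 * (‖x.2 - a‖ + ρ) * M := by
        have := Real.pi_pos.ne'
        field_simp

end Pool.Agent.P157G
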