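import Mathlib
import Pool.Agent.P157G.CT

set_option autoImplicit false

open MeasureTheory Metric Set Filter Topology Complex

namespace Pool.Agent.P157G

open Pool.Agent.P157D (d1 d2 CR Bo)

/-- `∂σ/∂ζ̄` -/
noncomputable def G2_db (σ : ℂ → ℂ) (ζ : ℂ) : ℂ :=
  (fderiv ℝ σ ζ 1 + Complex.I * fderiv ℝ σ ζ Complex.I) / 2

theorem G2_mul {σ : ℂ → ℂ} {H : ℂ × ℂ → ℂ} {y : ℂ × ℂ} (hσ : DifferentiableAt ℝ σ y.2)
    (hH : DifferentiableAt ℝ H y) :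
    db1 (fun x => σ x.2 * H x) y = σ y.2 * db1 H y ∧
      db2 (fun x => σ x.2 * H x) y = σ y.2 * db2 H y + G2_db σ y.2 * H y := by
  have h1 : HasFDerivAt (fun x : ℂ × ℂ => σ x.2)
      ((fderiv ℝ σ y.2).comp (ContinuousLinearMap.snd ℝ ℂ ℂ)) y :=
    hσ.hasFDerivAt.comp y hasFDerivAt_snd
  have h2 : fderiv ℝ (fun x : ℂ × ℂ => σ x.2 * H x) y = σ y.2 • fderiv ℝ H y +
      H y • (fderiv ℝ σ y.2).comp (ContinuousLinearMap.snd ℝ ℂ ℂ) :=
    (h1.mul hH.hasFDerivAt).fderiv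
  constructor
  · unfold db1
    rw [h2]
    simp
    ring
  · unfold db2 G2_db
    rw [h2]
    simp
    ring

theorem G2_swap {H : ℂ × ℂ → ℂ} {y : ℂ × ℂ} (hH : DifferentiableAt ℝ H (y.2, y.1)) :
    db1 (fun x => H (x.2, x.1)) y = db2 H (y.2, y.1) ∧
      db2 (fun x => H (x.2, x.1)) y = db1 H (y.2, y.1) := by
  have h1 : HasFDerivAt (fun x : ℂ × ℂ => (x.2, x.1))
      ((ContinuousLinearMap.snd ℝ ℂ ℂ).prod (ContinuousLinearMap.fst ℝ ℂ ℂ)) y :=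
    hasFDerivAt_snd.prodMk hasFDerivAt_fst
  have h2 : HasFDerivAt (fun x : ℂ × ℂ => H (x.2, x.1))
      ((fderiv ℝ H (y.2, y.1)).comp
        ((ContinuousLinearMap.snd ℝ ℂ ℂ).prod (ContinuousLinearMap.fst ℝ ℂ ℂ))) y :=
    HasFDerivAt.comp y hH.hasFDerivAt h1
  have h3 := h2.fderiv
  constructor
  · unfold db1 db2
    rw [h3]
    simp
  · unfold db1 db2
    rw [h3]
    simp

theorem G2_add {u v : ℂ × ℂ → ℂ} {y : ℂ × ℂ} (hu : DifferentiableAt ℝ u y)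
    (hv : DifferentiableAt ℝ v y) :
    db1 (fun x => u x + v x) y = db1 u y + db1 v y ∧
      db2 (fun x => u x + v x) y = db2 u y + db2 v y := by
  have h := fderiv_fun_add hu hv
  constructor
  · unfold db1
    rw [h]
    simp
    ring
  · unfold db2
    rw [h]
    simp
    ring

theorem G2_zero {u : ℂ × ℂ → ℂ} {y : ℂ × ℂ} (hu : u =ᶠ[𝓝 y] fun _ => 0) :
    db1 u y = 0 ∧ db2 u y = 0 := by
  have h := hu.fderiv_eq (𝕜 := ℝ)
  constructor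
  · unfold db1
    rw [h]
    simp
  · unfold db2
    rw [h]
    simp

theorem G2_ev {K : Set ℂ} (hK : IsClosed K) {σ : ℂ → ℂ} (hσ0 : ∀ ζ, ζ ∉ K → σ ζ = 0)
    (H : ℂ × ℂ → ℂ) {y : ℂ × ℂ} (hy : y.2 ∉ K) :
    (fun x : ℂ × ℂ => σ x.2 * H x) =ᶠ[𝓝 y] fun _ => 0 := by
  have h : {x : ℂ × ℂ | x.2 ∈ Kᶜ} ∈ 𝓝 y :=
    (hK.isOpen_compl.preimage continuous_snd).mem_nhds hy
  filter_upwards [h] with x hx
  rw [hσ0 x.2 hx, zero_mul]

theorem G2_cd {O U K : Set ℂ} (hO : IsOpen O) (hU : IsOpen U) (hK : IsClosed K) (hKU : K ⊆ U)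
    {σ : ℂ → ℂ} (hσ : ContDiff ℝ 1 σ) (hσ0 : ∀ ζ, ζ ∉ K → σ ζ = 0) {H : ℂ × ℂ → ℂ}
    (hH : ContDiffOn ℝ 1 H (O ×ˢ U)) : ContDiffOn ℝ 1 (fun x => σ x.2 * H x) (O ×ˢ univ) := by
  intro x hx
  apply ContDiffAt.contDiffWithinAt
  by_cases hxU : x.2 ∈ U
  · have h1 : ContDiffAt ℝ 1 H x := hH.contDiffAt ((hO.prod hU).mem_nhds ⟨hx.1, hxU⟩)
    exact (hσ.comp contDiff_snd).contDiffAt.mul h1
  · have h2 : x.2 ∉ K := fun h => hxU (hKU h)
    exact contDiffAt_const.congr_of_eventuallyEq (G2_ev hK hσ0 H h2)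

theorem G2_int {A : ℂ → ℂ} (hA : Continuous A) (hc : HasCompactSupport A) (x : ℂ) :
    Integrable (fun ζ => A ζ / (x - ζ)) := by
  have h1 : LocallyIntegrable (fun w : ℂ => w⁻¹) volume := by
    refine locallyIntegrable_of_norm_le_rpow (E := ℂ) (F := ℂ) (C := 1) (α := 1) ?_ ?_ ?_ ?_
    · simp
    · rw [Complex.finrank_real_complex]
      norm_num
    · refine ae_of_all _ fun w => ?_
      rw [norm_inv, Real.rpow_neg_one, one_mul]
    · exact measurable_inv.aestronglyMeasurable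
  have hc' : HasCompactSupport (fun w : ℂ => A (x - w)) :=
    hc.comp_homeomorph (Homeomorph.subLeft x)
  have h2 : Integrable (fun w : ℂ => A (x - w) • w⁻¹) :=
    h1.integrable_smul_left_of_hasCompactSupport (hA.comp (by fun_prop)) hc'
  have h3 := h2.comp_sub_left x
  refine h3.congr (ae_of_all _ fun t => ?_)
  simp only [sub_sub_cancel, smul_eq_mul, div_eq_mul_inv]

theorem G2_lin {A A' : ℂ × ℂ → ℂ} {x : ℂ × ℂ} {K : Set ℂ} (hK : IsCompact K)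
    (hA : Continuous fun ζ => A (x.1, ζ)) (hA0 : ∀ ζ, ζ ∉ K → A (x.1, ζ) = 0)
    (hA' : Continuous fun ζ => A' (x.1, ζ)) (hA0' : ∀ ζ, ζ ∉ K → A' (x.1, ζ) = 0)
    {G : ℂ × ℂ → ℂ} (hG : ∀ ζ, G (x.1, ζ) = A (x.1, ζ) - A' (x.1, ζ)) :
    CT2 G x = CT2 A x - CT2 A' x := by
  have i1 := G2_int hA (HasCompactSupport.intro hK hA0) x.2
  have i2 := G2_int hA' (HasCompactSupport.intro hK hA0') x.2
  unfold CT2
  rw [← mul_sub, ← integral_sub i1 i2]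
  congr 2
  funext ζ
  rw [hG ζ, sub_div]

theorem G2_cont {O : Set ℂ} (hO : IsOpen O) {g : ℂ × ℂ → ℂ} (hg : ContDiffOn ℝ 1 g (O ×ˢ univ))
    {a : ℂ} (ha : a ∈ O) :
    (Continuous fun ζ => g (a, ζ)) ∧ Continuous fun ζ => db2 g (a, ζ) := by
  have hop : IsOpen (O ×ˢ (univ : Set ℂ)) := hO.prod isOpen_univ
  constructor
  · exact hg.continuousOn.comp_continuous (by fun_prop) (fun ζ => ⟨ha, mem_univ _⟩)
  · have h1 : ContinuousOn (fderiv ℝ g) (O ×ˢ univ) := hg.continuousOn_fderiv_of_isOpen hop le_rfl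
    have h2 : Continuous fun ζ : ℂ => fderiv ℝ g (a, ζ) :=
      h1.comp_continuous (by fun_prop) (fun ζ => ⟨ha, mem_univ _⟩)
    unfold db2
    have h3 : Continuous fun ζ : ℂ => fderiv ℝ g (a, ζ) (0, 1) := h2.clm_apply continuous_const
    have h4 : Continuous fun ζ : ℂ => fderiv ℝ g (a, ζ) (0, Complex.I) :=
      h2.clm_apply continuous_const
    fun_prop

/-- the translated cutoff function -/
noncomputable def G2_s (β : ContDiffBump (0 : ℂ)) (a ζ : ℂ) : ℂ := ((β (ζ - a) : ℝ) : ℂ)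

theorem G2_s_cd (β : ContDiffBump (0 : ℂ)) (a : ℂ) (n : ℕ) : ContDiff ℝ n (G2_s β a) := by
  have h1 : ContDiff ℝ n (fun ζ : ℂ => ζ - a) := contDiff_id.sub contDiff_const
  exact Complex.ofRealCLM.contDiff.comp (β.contDiff.comp h1)

theorem G2_s_one (β : ContDiffBump (0 : ℂ)) {a ζ : ℂ} (h : ‖ζ - a‖ ≤ β.rIn) :
    G2_s β a ζ = 1 := by
  unfold G2_s
  rw [β.one_of_mem_closedBall (by rwa [mem_closedBall_zero_iff])]
  simp

theorem G2_s_zero (β : ContDiffBump (0 : ℂ)) {a ζ : ℂ} (h : β.rOut ≤ ‖ζ - a‖) :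
    G2_s β a ζ = 0 := by
  unfold G2_s
  rw [β.zero_of_le_dist (by rwa [dist_zero_right])]
  simp

theorem G2_s_le (β : ContDiffBump (0 : ℂ)) (a ζ : ℂ) : ‖G2_s β a ζ‖ ≤ 1 := by
  unfold G2_s
  rw [Complex.norm_real, Real.norm_of_nonneg β.nonneg]
  exact β.le_one

theorem G2_d_bd (β : ContDiffBump (0 : ℂ)) : ∃ B : ℝ, 0 ≤ B ∧ ∀ a ζ : ℂ, ‖G2_db (G2_s β a) ζ‖ ≤ B := by
  have hcd : ContDiff ℝ 1 (G2_s β 0) := by exact_mod_cast G2_s_cd β 0 1
  have hc : Continuous (fderiv ℝ (G2_s β 0)) := hcd.continuous_fderiv (by norm_num)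
  have hs : HasCompactSupport (G2_s β 0) := by
    refine HasCompactSupport.intro (isCompact_closedBall (0 : ℂ) β.rOut) fun ζ hζ => ?_
    rw [mem_closedBall_zero_iff, not_le] at hζ
    exact G2_s_zero β (by rw [sub_zero]; exact hζ.le)
  obtain ⟨B, hB⟩ := hc.bounded_above_of_compact_support (hs.fderiv (𝕜 := ℝ))
  refine ⟨B, (norm_nonneg _).trans (hB 0), fun a ζ => ?_⟩
  have h1 : fderiv ℝ (G2_s β a) ζ = fderiv ℝ (G2_s β 0) (ζ - a) := by
    have e : G2_s β a = fun z => G2_s β 0 (z - a) := by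
      funext z
      unfold G2_s
      rw [sub_zero]
    rw [e]
    exact fderiv_comp_sub a
  unfold G2_db
  rw [h1]
  have h2 : ‖fderiv ℝ (G2_s β 0) (ζ - a) 1‖ ≤ B := by
    refine ((fderiv ℝ (G2_s β 0) (ζ - a)).le_opNorm 1).trans ?_
    rw [norm_one, mul_one]
    exact hB _
  have h3 : ‖fderiv ℝ (G2_s β 0) (ζ - a) Complex.I‖ ≤ B := by
    refine ((fderiv ℝ (G2_s β 0) (ζ - a)).le_opNorm Complex.I).trans ?_
    rw [Complex.norm_I, mul_one]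
    exact hB _
  rw [norm_div]
  have h4 : ‖fderiv ℝ (G2_s β 0) (ζ - a) 1 + Complex.I * fderiv ℝ (G2_s β 0) (ζ - a) Complex.I‖ ≤
      B + B := by
    refine (norm_add_le _ _).trans (add_le_add h2 ?_)
    rw [norm_mul, Complex.norm_I, one_mul]
    exact h3
  have h5 : ‖(2 : ℂ)‖ = 2 := by simp
  rw [h5, div_le_iff₀ (by norm_num)]
  linarith

theorem G2_d_zero (β : ContDiffBump (0 : ℂ)) {a ζ : ℂ} (h : ‖ζ - a‖ < β.rIn ∨ β.rOut < ‖ζ - a‖) :
    G2_db (G2_s β a) ζ = 0 := by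
  have hcont : Continuous fun z : ℂ => ‖z - a‖ := by fun_prop
  have h1 : ∃ c : ℂ, G2_s β a =ᶠ[𝓝 ζ] fun _ => c := by
    rcases h with h | h
    · refine ⟨1, ?_⟩
      filter_upwards [(isOpen_lt hcont continuous_const).mem_nhds h] with z hz
      exact G2_s_one β (le_of_lt hz)
    · refine ⟨0, ?_⟩
      filter_upwards [(isOpen_lt continuous_const hcont).mem_nhds h] with z hz
      exact G2_s_zero β (le_of_lt hz)
  obtain ⟨c, hc⟩ := h1
  have h2 := hc.fderiv_eq (𝕜 := ℝ)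
  unfold G2_db
  rw [h2]
  simp

theorem G2_db_cd (β : ContDiffBump (0 : ℂ)) (a : ℂ) : ContDiff ℝ 1 (G2_db (G2_s β a)) := by
  have h1 : ContDiff ℝ 2 (G2_s β a) := by exact_mod_cast G2_s_cd β a 2
  have h2 : ContDiff ℝ 1 (fderiv ℝ (G2_s β a)) := h1.fderiv_right (by norm_num)
  unfold G2_db
  have h3 : ContDiff ℝ 1 (fun ζ => fderiv ℝ (G2_s β a) ζ 1) := h2.clm_apply contDiff_const
  have h4 : ContDiff ℝ 1 (fun ζ => fderiv ℝ (G2_s β a) ζ Complex.I) := h2.clm_apply contDiff_const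
  exact (h3.add (contDiff_const.mul h4)).div_const 2

/-- **TARGET** -/
theorem dolb {r : ℝ} (hr : 0 < r) : ∃ C : ℝ, 0 ≤ C ∧ ∀ a : ℂ × ℂ, Slv (ball a r) (ball a (r / 2)) C := by
  let β : ContDiffBump (0 : ℂ) := ⟨5 * r / 8, 3 * r / 4, by positivity, by linarith⟩
  have hβi : β.rIn = 5 * r / 8 := rfl
  have hβo : β.rOut = 3 * r / 4 := rfl
  obtain ⟨B, hB0, hB⟩ := G2_d_bd β
  refine ⟨4 * r + 3 * r * (4 * r * B), by positivity, fun a f h M hF => ?_⟩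
  have hM : 0 ≤ M := (norm_nonneg _).trans (hF.fb a (mem_ball_self hr))
  obtain ⟨a1, a2⟩ := a
  have hball : ∀ x : ℂ × ℂ, x ∈ ball (a1, a2) r ↔ ‖x.1 - a1‖ < r ∧ ‖x.2 - a2‖ < r := by
    intro x
    rw [← ball_prod_same, mem_prod, mem_ball, mem_ball, dist_eq_norm, dist_eq_norm]
  -- the sets
  set O1 : Set ℂ := ball a1 r with hO1
  set O2 : Set ℂ := ball a2 r with hO2
  set K2 : Set ℂ := closedBall a2 (3 * r / 4) with hK2
  have hKc : IsCompact K2 := isCompact_closedBall _ _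
  have hKU : K2 ⊆ O2 := closedBall_subset_ball (by linarith)
  have hnK : ∀ ζ, ζ ∉ K2 → 3 * r / 4 < ‖ζ - a2‖ := by
    intro ζ hζ
    rw [hK2, mem_closedBall, dist_eq_norm, not_le] at hζ
    exact hζ
  have hs2 : ∀ ζ, ζ ∉ K2 → G2_s β a2 ζ = 0 := fun ζ hζ =>
    G2_s_zero β (by rw [hβo]; exact (hnK ζ hζ).le)
  have hd2 : ∀ ζ, ζ ∉ K2 → G2_db (G2_s β a2) ζ = 0 := fun ζ hζ =>
    G2_d_zero β (Or.inr (by rw [hβo]; exact hnK ζ hζ))
  have hsub : ∀ x : ℂ × ℂ, x.1 ∈ O1 → x.2 ∈ O2 → x ∈ ball (a1, a2) r := by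
    intro x h1 h2
    rw [← ball_prod_same]
    exact ⟨h1, h2⟩
  have hprod : (O1 ×ˢ O2) = ball (a1, a2) r := by rw [hO1, hO2, ball_prod_same]
  have hf1 : ContDiffOn ℝ 1 f (O1 ×ˢ O2) := by rw [hprod]; exact hF.f1
  have hh1 : ContDiffOn ℝ 1 h (O1 ×ˢ O2) := by rw [hprod]; exact hF.h1
  have hop : IsOpen (O1 ×ˢ O2) := isOpen_ball.prod isOpen_ball
  have hfd : ∀ x : ℂ × ℂ, x.1 ∈ O1 → x.2 ∈ O2 → DifferentiableAt ℝ f x := fun x h1 h2 =>
    (hf1.contDiffAt (hop.mem_nhds ⟨h1, h2⟩)).differentiableAt (by norm_num)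
  have hhd : ∀ x : ℂ × ℂ, x.1 ∈ O1 → x.2 ∈ O2 → DifferentiableAt ℝ h x := fun x h1 h2 =>
    (hh1.contDiffAt (hop.mem_nhds ⟨h1, h2⟩)).differentiableAt (by norm_num)
  have hs1 : ContDiff ℝ 1 (G2_s β a2) := by exact_mod_cast G2_s_cd β a2 1
  have hsd : ∀ ζ, DifferentiableAt ℝ (G2_s β a2) ζ := fun ζ =>
    hs1.differentiable (by norm_num) ζ
  -- the functions
  set g1 : ℂ × ℂ → ℂ := fun x => G2_s β a2 x.2 * h x with hg1
  set g2 : ℂ × ℂ → ℂ := fun x => G2_s β a2 x.2 * f x with hg2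
  set k0 : ℂ × ℂ → ℂ := fun x => G2_db (G2_s β a2) x.2 * f x with hk0
  have cg1 : ContDiffOn ℝ 1 g1 (O1 ×ˢ univ) :=
    G2_cd isOpen_ball isOpen_ball hKc.isClosed hKU hs1 hs2 hh1
  have cg2 : ContDiffOn ℝ 1 g2 (O1 ×ˢ univ) :=
    G2_cd isOpen_ball isOpen_ball hKc.isClosed hKU hs1 hs2 hf1
  have ck0 : ContDiffOn ℝ 1 k0 (O1 ×ˢ univ) :=
    G2_cd isOpen_ball isOpen_ball hKc.isClosed hKU (G2_db_cd β a2) hd2 hf1
  have zg1 : ∀ x : ℂ × ℂ, x.1 ∈ O1 → x.2 ∉ K2 → g1 x = 0 := fun x _ hx => by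
    rw [hg1]; simp only; rw [hs2 _ hx, zero_mul]
  have zg2 : ∀ x : ℂ × ℂ, x.1 ∈ O1 → x.2 ∉ K2 → g2 x = 0 := fun x _ hx => by
    rw [hg2]; simp only; rw [hs2 _ hx, zero_mul]
  have zk0 : ∀ x : ℂ × ℂ, x.1 ∈ O1 → x.2 ∉ K2 → k0 x = 0 := fun x _ hx => by
    rw [hk0]; simp only; rw [hd2 _ hx, zero_mul]
  obtain ⟨cw1, ew1⟩ := ct2 isOpen_ball hKc cg1 zg1
  obtain ⟨-, ew2⟩ := ct2 isOpen_ball hKc cg2 zg2
  obtain ⟨ck, ek⟩ := ct2 isOpen_ball hKc ck0 zk0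
  set w1 := CT2 g1 with hw1
  set k := CT2 k0 with hk
  -- the identity `db1 g1 = db2 g2 - k0`
  have hid : ∀ y : ℂ × ℂ, y.1 ∈ O1 → db1 g1 y = db2 g2 y - k0 y := by
    intro y hy
    by_cases hy2 : y.2 ∈ O2
    · rw [hg1, hg2, (G2_mul (hsd y.2) (hhd y hy hy2)).1, (G2_mul (hsd y.2) (hfd y hy hy2)).2,
        hF.cl y (hsub y hy hy2)]
      simp only [hk0]
      ring
    · have hy3 : y.2 ∉ K2 := fun h => hy2 (hKU h)
      rw [hg1, hg2, (G2_zero (G2_ev hKc.isClosed hs2 h hy3)).1,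
        (G2_zero (G2_ev hKc.isClosed hs2 f hy3)).2, zk0 y hy hy3, sub_zero]
  have hdb1 : ∀ x : ℂ × ℂ, x.1 ∈ O1 → db1 w1 x = g2 x - k x := by
    intro x hx
    rw [(ew1 x hx).2.1, ← (ew2 x hx).2.2]
    refine G2_lin hKc (G2_cont isOpen_ball cg2 hx).2 (fun ζ hζ => ?_)
      (G2_cont isOpen_ball ck0 hx).1 (fun ζ hζ => zk0 (x.1, ζ) hx hζ) (fun ζ => hid (x.1, ζ) hx)
    rw [hg2]
    exact (G2_zero (G2_ev hKc.isClosed hs2 f hζ)).2
  -- bounds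
  have bf : ∀ (x1 ζ : ℂ), x1 ∈ O1 → ζ ∈ O2 → ‖f (x1, ζ)‖ ≤ M := fun x1 ζ h1 h2 =>
    hF.fb _ (hsub (x1, ζ) h1 h2)
  have bh : ∀ (x1 ζ : ℂ), x1 ∈ O1 → ζ ∈ O2 → ‖h (x1, ζ)‖ ≤ M := fun x1 ζ h1 h2 =>
    hF.hb _ (hsub (x1, ζ) h1 h2)
  have bw1 : ∀ x : ℂ × ℂ, x.1 ∈ O1 → ‖x.2 - a2‖ ≤ r → ‖w1 x‖ ≤ 4 * r * M := by
    intro x hx hx2
    have := ct2_bd (ρ := 7 * r / 8) (M := M) (by positivity) hM (a := a2) (g := g1) (x := x)
      (fun ζ hζ => by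
        rw [hg1]; simp only
        rw [G2_s_zero β (by rw [hβo]; linarith), zero_mul])
      (fun ζ => by
        rw [hg1]; simp only
        by_cases hζ : ζ ∈ O2
        · rw [norm_mul]
          calc _ ≤ 1 * M := mul_le_mul (G2_s_le β a2 ζ) (bh _ _ hx hζ) (norm_nonneg _) (by norm_num)
            _ = M := one_mul _
        · rw [hs2 ζ (fun h => hζ (hKU h)), zero_mul, norm_zero]
          exact hM)
    refine this.trans ?_
    apply mul_le_mul_of_nonneg_right _ hM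
    linarith
  have bk : ∀ x : ℂ × ℂ, x.1 ∈ O1 → ‖x.2 - a2‖ ≤ r → ‖k x‖ ≤ 4 * r * (B * M) := by
    intro x hx hx2
    have := ct2_bd (ρ := 7 * r / 8) (M := B * M) (by positivity) (by positivity) (a := a2)
      (g := k0) (x := x)
      (fun ζ hζ => by
        rw [hk0]; simp only
        rw [G2_d_zero β (Or.inr (by rw [hβo]; linarith)), zero_mul])
      (fun ζ => by
        rw [hk0]; simp only
        by_cases hζ : ζ ∈ O2
        · rw [norm_mul]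
          exact mul_le_mul (hB a2 ζ) (bf _ _ hx hζ) (norm_nonneg _) hB0
        · rw [hd2 ζ (fun h => hζ (hKU h)), zero_mul, norm_zero]
          positivity)
    refine this.trans ?_
    apply mul_le_mul_of_nonneg_right _ (by positivity)
    linarith
  -- second step
  set O' : Set ℂ := ball a2 (5 * r / 8) with hO'
  set K1 : Set ℂ := closedBall a1 (3 * r / 4) with hK1
  have hK1c : IsCompact K1 := isCompact_closedBall _ _
  have hK1U : K1 ⊆ O1 := closedBall_subset_ball (by linarith)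
  have hn1 : ∀ ζ, ζ ∉ K1 → 3 * r / 4 < ‖ζ - a1‖ := by
    intro ζ hζ
    rw [hK1, mem_closedBall, dist_eq_norm, not_le] at hζ
    exact hζ
  have ht : ∀ ζ, ζ ∉ K1 → G2_s β a1 ζ = 0 := fun ζ hζ =>
    G2_s_zero β (by rw [hβo]; exact (hn1 ζ hζ).le)
  have ht1 : ContDiff ℝ 1 (G2_s β a1) := by exact_mod_cast G2_s_cd β a1 1
  set ks : ℂ × ℂ → ℂ := fun y => k (y.2, y.1) with hks
  have cks : ContDiffOn ℝ 1 ks (O' ×ˢ O1) := by
    have hsw : ContDiff ℝ 1 (fun y : ℂ × ℂ => (y.2, y.1)) := contDiff_snd.prodMk contDiff_fst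
    exact ck.comp hsw.contDiffOn (fun y hy => ⟨hy.2, mem_univ _⟩)
  set k' : ℂ × ℂ → ℂ := fun y => G2_s β a1 y.2 * ks y with hk'
  have ck' : ContDiffOn ℝ 1 k' (O' ×ˢ univ) :=
    G2_cd isOpen_ball isOpen_ball hK1c.isClosed hK1U ht1 ht cks
  have zk' : ∀ y : ℂ × ℂ, y.1 ∈ O' → y.2 ∉ K1 → k' y = 0 := fun y _ hy => by
    rw [hk']; simp only; rw [ht _ hy, zero_mul]
  obtain ⟨cw, ew⟩ := ct2 isOpen_ball hK1c ck' zk'
  set w2 := CT2 k' with hw2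
  have hO'O : ∀ ζ, ζ ∈ O' → ζ ∈ O2 := fun ζ hζ => ball_subset_ball (by linarith) hζ
  have hkd : ∀ y : ℂ × ℂ, y.2 ∈ O1 → DifferentiableAt ℝ k (y.2, y.1) := fun y hy =>
    (ck.contDiffAt ((isOpen_ball.prod isOpen_univ).mem_nhds ⟨hy, mem_univ _⟩)).differentiableAt
      (by norm_num)
  have hdk' : ∀ y : ℂ × ℂ, y.1 ∈ O' → db1 k' y = 0 := by
    intro y hy
    by_cases hy2 : y.2 ∈ O1
    · have hksd : DifferentiableAt ℝ ks y :=
        (cks.contDiffAt ((isOpen_ball.prod isOpen_ball).mem_nhds ⟨hy, hy2⟩)).differentiableAt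
          (by norm_num)
      rw [hk', (G2_mul (ht1.differentiable (by norm_num) y.2) hksd).1, hks,
        (G2_swap (hkd y hy2)).1, (ek (y.2, y.1) hy2).1]
      simp only [hk0]
      rw [G2_d_zero β (Or.inl (by
        rw [hβi, ← dist_eq_norm]
        exact mem_ball.1 hy)), zero_mul, mul_zero]
    · exact (G2_zero (G2_ev hK1c.isClosed ht ks (fun h => hy2 (hK1U h)))).1
  have hw2d : ∀ y : ℂ × ℂ, y.1 ∈ O' → db1 w2 y = 0 := by
    intro y hy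
    rw [(ew y hy).2.1]
    unfold CT2
    have e : ∀ ζ : ℂ, db1 k' (y.1, ζ) / (y.2 - ζ) = 0 := fun ζ => by
      rw [hdk' (y.1, ζ) hy, zero_div]
    simp only [e, integral_zero, mul_zero]
  have bw2 : ∀ y : ℂ × ℂ, y.1 ∈ O' → ‖y.2 - a1‖ ≤ r / 2 →
      ‖w2 y‖ ≤ 3 * r * (4 * r * (B * M)) := by
    intro y hy hy2
    have hyr : ‖y.1 - a2‖ ≤ r := by
      have := mem_ball.1 hy
      rw [dist_eq_norm] at this
      linarith
    have := ct2_bd (ρ := 7 * r / 8) (M := 4 * r * (B * M)) (by positivity) (by positivity)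
      (a := a1) (g := k') (x := y)
      (fun ζ hζ => by
        rw [hk']; simp only
        rw [G2_s_zero β (by rw [hβo]; linarith), zero_mul])
      (fun ζ => by
        rw [hk']; simp only
        by_cases hζ : ζ ∈ O1
        · rw [norm_mul]
          calc _ ≤ 1 * (4 * r * (B * M)) :=
                mul_le_mul (G2_s_le β a1 ζ) (bk (ζ, y.1) hζ hyr) (norm_nonneg _) (by norm_num)
            _ = _ := one_mul _
        · rw [ht ζ (fun h => hζ (hK1U h)), zero_mul, norm_zero]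
          positivity)
    refine this.trans ?_
    apply mul_le_mul_of_nonneg_right _ (by positivity)
    linarith
  -- the solution
  have hin : ∀ x : ℂ × ℂ, x ∈ ball (a1, a2) (r / 2) → ‖x.1 - a1‖ < r / 2 ∧ ‖x.2 - a2‖ < r / 2 := by
    intro x hx
    rw [← ball_prod_same, mem_prod, mem_ball, mem_ball, dist_eq_norm, dist_eq_norm] at hx
    exact hx
  have m1 : ∀ x : ℂ × ℂ, x ∈ ball (a1, a2) (r / 2) → x.1 ∈ O1 := fun x hx => by
    rw [hO1, mem_ball, dist_eq_norm]; linarith [(hin x hx).1]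
  have m2 : ∀ x : ℂ × ℂ, x ∈ ball (a1, a2) (r / 2) → x.2 ∈ O' := fun x hx => by
    rw [hO', mem_ball, dist_eq_norm]; linarith [(hin x hx).2]
  have w1d : ∀ x : ℂ × ℂ, x.1 ∈ O1 → DifferentiableAt ℝ w1 x := fun x hx =>
    (cw1.contDiffAt ((isOpen_ball.prod isOpen_univ).mem_nhds ⟨hx, mem_univ _⟩)).differentiableAt
      (by norm_num)
  have w2d : ∀ x : ℂ × ℂ, x.2 ∈ O' → DifferentiableAt ℝ w2 (x.2, x.1) := fun x hx =>
    (cw.contDiffAt ((isOpen_ball.prod isOpen_univ).mem_nhds ⟨hx, mem_univ _⟩)).differentiableAt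
      (by norm_num)
  have w2d' : ∀ x : ℂ × ℂ, x.2 ∈ O' → DifferentiableAt ℝ (fun x : ℂ × ℂ => w2 (x.2, x.1)) x :=
    fun x hx => DifferentiableAt.comp (g := w2) (f := fun x : ℂ × ℂ => (x.2, x.1)) x (w2d x hx)
      (by fun_prop)
  refine ⟨fun x => w1 x + w2 (x.2, x.1), ?_, ?_, ?_, ?_⟩
  · have hsw : ContDiff ℝ 1 (fun y : ℂ × ℂ => (y.2, y.1)) := contDiff_snd.prodMk contDiff_fst
    refine (cw1.mono fun x hx => ⟨m1 x hx, mem_univ _⟩).add ?_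
    exact cw.comp hsw.contDiffOn (fun x hx => ⟨m2 x hx, mem_univ _⟩)
  · intro x hx
    rw [(G2_add (w1d x (m1 x hx)) (w2d' x (m2 x hx))).1, (G2_swap (w2d x (m2 x hx))).1,
      (ew (x.2, x.1) (m2 x hx)).1, hdb1 x (m1 x hx)]
    simp only [hg2, hk', hks]
    rw [G2_s_one β (by rw [hβi]; linarith [(hin x hx).2]),
      G2_s_one β (by rw [hβi]; linarith [(hin x hx).1])]
    ring
  · intro x hx
    rw [(G2_add (w1d x (m1 x hx)) (w2d' x (m2 x hx))).2, (G2_swap (w2d x (m2 x hx))).2,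
      hw2d (x.2, x.1) (m2 x hx), (ew1 x (m1 x hx)).1]
    simp only [hg1]
    rw [G2_s_one β (by rw [hβi]; linarith [(hin x hx).2])]
    ring
  · intro x hx
    have h1 := bw1 x (m1 x hx) (by linarith [(hin x hx).2])
    have h2 := bw2 (x.2, x.1) (m2 x hx) (by linarith [(hin x hx).1])
    calc ‖w1 x + w2 (x.2, x.1)‖ ≤ ‖w1 x‖ + ‖w2 (x.2, x.1)‖ := norm_add_le _ _
      _ ≤ 4 * r * M + 3 * r * (4 * r * (B * M)) := add_le_add h1 h2
      _ = (4 * r + 3 * r * (4 * r * B)) * M := by ring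

end Pool.Agent.P157G
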