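import Mathlib
import Pool.Agent.H720R2.HP.Weak
import Pool.Agent.H720R2.Cor.Lim
import Pool.Agent.HopfPinch.AnS1
import Pool.Agent.HopfPinch.PC
import Pool.Agent.P157G.Dolb

set_option autoImplicit false

open MeasureTheory Metric Set Filter Topology Complex

namespace Pool.Agent.P157G

open Pool.Agent.P157D (d1 d2 CR Bo)

theorem G3_clin (L : ℂ × ℂ →L[ℝ] ℂ) (h1 : L (1, 0) + I * L (I, 0) = 0)
    (h2 : L (0, 1) + I * L (0, I) = 0) : ∃ L' : ℂ × ℂ →L[ℂ] ℂ, L'.restrictScalars ℝ = L := by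
  refine ⟨(ContinuousLinearMap.fst ℂ ℂ ℂ).smulRight (L (1, 0)) +
    (ContinuousLinearMap.snd ℂ ℂ ℂ).smulRight (L (0, 1)), ?_⟩
  refine ContinuousLinearMap.ext fun x => ?_
  obtain ⟨a, b⟩ := x
  have hI1 : L (I, 0) = I * L (1, 0) := by
    linear_combination (-I) * h1 + L (I, 0) * Complex.I_sq
  have hI2 : L (0, I) = I * L (0, 1) := by
    linear_combination (-I) * h2 + L (0, I) * Complex.I_sq
  have ha : ((a, b) : ℂ × ℂ) = a.re • ((1 : ℂ), (0 : ℂ)) + a.im • (I, (0 : ℂ)) +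
      b.re • ((0 : ℂ), (1 : ℂ)) + b.im • ((0 : ℂ), I) := by
    ext <;> simp
  have hL : L (a, b) = (a.re : ℂ) * L (1, 0) + a.im * (I * L (1, 0)) + b.re * L (0, 1) +
      b.im * (I * L (0, 1)) := by
    rw [ha, map_add, map_add, map_add, map_smul, map_smul, map_smul, map_smul, hI1, hI2]
    simp only [real_smul]
  rw [hL]
  simp only [ContinuousLinearMap.coe_restrictScalars', _root_.add_apply,
    ContinuousLinearMap.smulRight_apply, ContinuousLinearMap.coe_fst', ContinuousLinearMap.coe_snd',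
    smul_eq_mul]
  have e1 := Complex.re_add_im a
  have e2 := Complex.re_add_im b
  linear_combination (-L (1, 0)) * e1 - L (0, 1) * e2

theorem G3_add {u v : ℂ × ℂ → ℂ} {x : ℂ × ℂ} (hu : DifferentiableAt ℝ u x)
    (hv : DifferentiableAt ℝ v x) :
    db1 (fun y => u y + v y) x = db1 u x + db1 v x ∧
      db2 (fun y => u y + v y) x = db2 u x + db2 v x := by
  unfold db1 db2
  rw [fderiv_fun_add hu hv]
  simp only [_root_.add_apply]
  constructor <;> ring

theorem G3_sub {u v : ℂ × ℂ → ℂ} {x : ℂ × ℂ} (hu : DifferentiableAt ℝ u x)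
    (hv : DifferentiableAt ℝ v x) :
    db1 (fun y => u y - v y) x = db1 u x - db1 v x ∧
      db2 (fun y => u y - v y) x = db2 u x - db2 v x := by
  unfold db1 db2
  rw [fderiv_fun_sub hu hv]
  simp only [_root_.sub_apply]
  constructor <;> ring

theorem G3_holo {v : ℂ × ℂ → ℂ} {x : ℂ × ℂ} (hv : DifferentiableAt ℂ v x) :
    db1 v x = 0 ∧ db2 v x = 0 := by
  unfold db1 db2
  have h1 : fderiv ℝ v x = (fderiv ℂ v x).restrictScalars ℝ := hv.fderiv_restrictScalars ℝ
  rw [h1]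
  simp only [ContinuousLinearMap.coe_restrictScalars']
  have h2 : fderiv ℂ v x (I, 0) = I * fderiv ℂ v x (1, 0) := by
    have := (fderiv ℂ v x).map_smul I (1, 0)
    simpa using this
  have h3 : fderiv ℂ v x (0, I) = I * fderiv ℂ v x (0, 1) := by
    have := (fderiv ℂ v x).map_smul I (0, 1)
    simpa using this
  rw [h2, h3]
  constructor
  · linear_combination (fderiv ℂ v x (1, 0) / 2) * Complex.I_sq
  · linear_combination (fderiv ℂ v x (0, 1) / 2) * Complex.I_sq

theorem G3_congr {u v : ℂ × ℂ → ℂ} {x : ℂ × ℂ} (h : u =ᶠ[𝓝 x] v) :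
    db1 u x = db1 v x ∧ db2 u x = db2 v x := by
  unfold db1 db2
  rw [h.fderiv_eq]
  exact ⟨rfl, rfl⟩

theorem G3_sum {B : Set (ℂ × ℂ)} (hB : IsOpen B) {u w F : ℂ × ℂ → ℂ} (hw : ContDiffOn ℝ 1 w B)
    (hF : DifferentiableOn ℂ F B) (he : ∀ x ∈ B, u x = w x + F x) :
    ContDiffOn ℝ 1 u B ∧ ∀ x ∈ B, db1 u x = db1 w x ∧ db2 u x = db2 w x := by
  have hF1 : ContDiffOn ℝ 1 F B :=
    (Pool.Agent.HP.PC.contDiffOn_of_differentiableOn hB hF 1).restrict_scalars ℝ
  refine ⟨(hw.add hF1).congr he, fun x hx => ?_⟩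
  have hBx := hB.mem_nhds hx
  have h1 : u =ᶠ[𝓝 x] fun y => w y + F y := by
    filter_upwards [hBx] with y hy
    exact he y hy
  have h2 : DifferentiableAt ℝ w x := (hw.contDiffAt hBx).differentiableAt (by norm_num)
  have h3 : DifferentiableAt ℂ F x := hF.differentiableAt hBx
  have h4 := G3_add h2 (h3.restrictScalars ℝ)
  have h5 := G3_holo h3
  have h6 := G3_congr h1
  rw [h6.1, h6.2, h4.1, h4.2, h5.1, h5.2, add_zero, add_zero]
  exact ⟨rfl, rfl⟩

theorem G3_mem {a : ℂ × ℂ} {r : ℝ} {w y : ℂ} :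
    (w, y) ∈ ball a r ↔ w ∈ ball a.1 r ∧ y ∈ ball a.2 r := by
  rw [mem_ball, mem_ball, mem_ball, Prod.dist_eq, max_lt_iff]

theorem G3_osgood {a : ℂ × ℂ} {R C : ℝ} {u : ℂ × ℂ → ℂ} (hb : ∀ p ∈ ball a R, ‖u p‖ ≤ C)
    (h1 : ∀ y ∈ ball a.2 R, DifferentiableOn ℂ (fun w => u (w, y)) (ball a.1 R))
    (h2 : ∀ w ∈ ball a.1 R, DifferentiableOn ℂ (fun y => u (w, y)) (ball a.2 R)) :
    DifferentiableOn ℂ u (ball a R) := by
  rintro ⟨w0, y0⟩ hp0
  apply DifferentiableAt.differentiableWithinAt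
  obtain ⟨ε, hε, hB⟩ := Metric.isOpen_iff.1 (isOpen_ball (x := a) (ε := R)) _ hp0
  set r := ε / 2 with hr
  have hr0 : 0 < r := by positivity
  have hsub : ∀ w ∈ closedBall w0 r, ∀ y ∈ ball y0 r, (w, y) ∈ ball a R := by
    intro w hw y hy
    refine hB ?_
    rw [mem_ball, Prod.dist_eq]
    rw [mem_closedBall] at hw
    rw [mem_ball] at hy
    simp only [max_lt_iff]
    constructor <;> linarith
  set O : Set (ℂ × ℂ) := ball w0 (r / 2) ×ˢ ball y0 r with hO
  have hOo : IsOpen O := isOpen_ball.prod isOpen_ball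
  have hcm : ∀ θ, circleMap w0 r θ ∈ closedBall w0 r := fun θ => circleMap_mem_closedBall _ hr0.le θ
  have hC0 : 0 ≤ C := (norm_nonneg _).trans (hb _ hp0)
  have hsep : ∀ θ, ∀ w ∈ ball w0 (r / 2), r / 2 ≤ ‖circleMap w0 r θ - w‖ := by
    intro θ w hw
    have h3 : ‖circleMap w0 r θ - w0‖ = r := by
      simp [circleMap_sub_center, abs_of_pos hr0]
    rw [mem_ball, dist_eq_norm] at hw
    have h4 := norm_sub_le (circleMap w0 r θ - w) (w0 - w)
    rw [sub_sub_sub_cancel_right, h3] at h4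
    rw [norm_sub_rev w0 w] at h4
    linarith
  have hrep : ∀ p ∈ O, u p = (2 * Real.pi * I : ℂ)⁻¹ • ∫ θ in Ioc (0 : ℝ) (2 * Real.pi),
      deriv (circleMap w0 r) θ * ((circleMap w0 r θ - p.1)⁻¹ * u (circleMap w0 r θ, p.2)) := by
    rintro ⟨w, y⟩ ⟨hw, hy⟩
    have hd : DifferentiableOn ℂ (fun w => u (w, y)) (closedBall w0 r) := by
      intro z hz
      have h3 := G3_mem.1 (hsub z hz y hy)
      exact ((h1 y h3.2 z h3.1).differentiableAt (isOpen_ball.mem_nhds h3.1)).differentiableWithinAt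
    have hdc : DiffContOnCl ℂ (fun w => u (w, y)) (ball w0 r) := by
      refine DifferentiableOn.diffContOnCl ?_
      rw [closure_ball _ hr0.ne']
      exact hd
    have h4 := hdc.two_pi_i_inv_smul_circleIntegral_sub_inv_smul
      (ball_subset_ball (by linarith : r / 2 ≤ r) hw)
    simp only at h4 ⊢
    rw [← h4, circleIntegral, intervalIntegral.integral_of_le (by positivity)]
    simp only [smul_eq_mul]
  have hint : DifferentiableOn ℂ (fun p : ℂ × ℂ => ∫ θ in Ioc (0 : ℝ) (2 * Real.pi),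
      deriv (circleMap w0 r) θ * ((circleMap w0 r θ - p.1)⁻¹ * u (circleMap w0 r θ, p.2))) O := by
    refine Pool.Agent.HP.differentiableOn_integral (X := ℂ × ℂ) (E := ℂ) _ _ O hOo ?_ ?_
      (fun _ => r * ((r / 2)⁻¹ * C)) ?_ ?_
    · rintro ⟨w, y⟩ ⟨hw, hy⟩
      apply Continuous.aestronglyMeasurable
      have hc1 : Continuous (fun θ => u (circleMap w0 r θ, y)) := by
        rw [continuous_iff_continuousAt]
        intro θ
        have h3 := G3_mem.1 (hsub _ (hcm θ) y hy)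
        have h4 : ContinuousAt (fun w => u (w, y)) (circleMap w0 r θ) :=
          ((h1 y h3.2 _ h3.1).differentiableAt (isOpen_ball.mem_nhds h3.1)).continuousAt
        exact ContinuousAt.comp (f := fun θ => circleMap w0 r θ) (g := fun w => u (w, y)) h4
          (continuous_circleMap w0 r).continuousAt
      have hc2 : Continuous (fun θ => (circleMap w0 r θ - w)⁻¹) := by
        refine Continuous.inv₀ ((continuous_circleMap w0 r).sub continuous_const) (fun θ => ?_)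
        have := hsep θ w hw
        exact norm_pos_iff.1 (by linarith)
      have hc3 : Continuous (fun θ => deriv (circleMap w0 r) θ) := by
        simp only [deriv_circleMap]
        exact (continuous_circleMap 0 r).mul continuous_const
      exact hc3.mul (hc2.mul hc1)
    · intro θ
      have hd1 : DifferentiableOn ℂ (fun p : ℂ × ℂ => u (circleMap w0 r θ, p.2)) O := by
        have h3 : circleMap w0 r θ ∈ ball a.1 R :=
          (G3_mem.1 (hsub _ (hcm θ) y0 (mem_ball_self hr0))).1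
        refine (h2 (circleMap w0 r θ) h3).comp differentiableOn_snd (fun p hp => ?_)
        exact (G3_mem.1 (hsub _ (hcm θ) _ hp.2)).2
      have hd2 : DifferentiableOn ℂ (fun p : ℂ × ℂ => (circleMap w0 r θ - p.1)⁻¹) O := by
        intro p hp
        refine (DifferentiableAt.fun_inv ((differentiableAt_const _).fun_sub differentiableAt_fst)
          ?_).differentiableWithinAt
        have := hsep θ p.1 hp.1
        exact norm_pos_iff.1 (by linarith)
      exact (hd2.fun_mul hd1).const_mul _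
    · exact integrableOn_const measure_Ioc_lt_top.ne enorm_ne_top
    · rintro θ ⟨w, y⟩ ⟨hw, hy⟩
      rw [norm_mul, norm_mul, norm_inv]
      have h3 : ‖deriv (circleMap w0 r) θ‖ = r := by
        simp [deriv_circleMap, abs_of_pos hr0]
      rw [h3]
      have h4 := hsep θ w hw
      have h5 := hb _ (hsub _ (hcm θ) y hy)
      gcongr
  have hfin : DifferentiableOn ℂ u O :=
    (hint.const_smul (2 * Real.pi * I : ℂ)⁻¹).congr (fun p hp => hrep p hp)
  exact hfin.differentiableAt (hOo.mem_nhds ⟨mem_ball_self (by positivity), mem_ball_self hr0⟩)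

theorem G3_mono {Ω Ω' : Set ℂ} (hs : Ω' ⊆ Ω) {V ν : ℂ → ℂ}
    (h : Pool.Agent.H720R2.HP.WD Ω V ν) : Pool.Agent.H720R2.HP.WD Ω' V ν where
  cont := h.cont.mono hs
  li := h.li.mono_set hs
  weak := fun φ h1 h2 h3 => h.weak φ h1 h2 (h3.trans hs)

theorem G3_wdsub {Ω : Set ℂ} (hΩ : IsOpen Ω) {V ν χ : ℂ → ℂ}
    (h : Pool.Agent.H720R2.HP.WD Ω V ν) (hχ : ContDiffOn ℝ 1 χ Ω)
    (he : ∀ z ∈ Ω, Pool.Agent.H720R2.HP.db χ z = ν z) :
    DifferentiableOn ℂ (fun z => V z + (-1) * χ z) Ω := by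
  have h1 := (Pool.Agent.H720R2.HP.WD.of_C1 hΩ hχ).mul_holo hΩ
    (c := fun _ => (-1 : ℂ)) (differentiableOn_const _)
  have h2 := h.add hΩ h1
  refine h2.holo hΩ (fun z hz => ?_)
  rw [he z hz]
  ring

theorem G3_sl1 {u : ℂ × ℂ → ℂ} {w y : ℂ} (h : DifferentiableAt ℝ u (w, y)) :
    Pool.Agent.H720R2.HP.db (fun z => u (z, y)) w = db1 u (w, y) := by
  have h1 : HasFDerivAt (fun z : ℂ => u (z, y)) ((fderiv ℝ u (w, y)).comp
      (ContinuousLinearMap.inl ℝ ℂ ℂ)) w :=
    HasFDerivAt.comp (g := u) (f := fun z : ℂ => (z, y)) w h.hasFDerivAt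
      (hasFDerivAt_prodMk_left w y)
  unfold Pool.Agent.H720R2.HP.db db1
  rw [h1.fderiv]
  simp

theorem G3_sl2 {u : ℂ × ℂ → ℂ} {w y : ℂ} (h : DifferentiableAt ℝ u (w, y)) :
    Pool.Agent.H720R2.HP.db (fun z => u (w, z)) y = db2 u (w, y) := by
  have h1 : HasFDerivAt (fun z : ℂ => u (w, z)) ((fderiv ℝ u (w, y)).comp
      (ContinuousLinearMap.inr ℝ ℂ ℂ)) y :=
    HasFDerivAt.comp (g := u) (f := fun z : ℂ => (w, z)) y h.hasFDerivAt
      (hasFDerivAt_prodMk_right w y)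
  unfold Pool.Agent.H720R2.HP.db db2
  rw [h1.fderiv]
  simp

/-- **TARGET** -/
theorem hol_so {D : Set (ℂ × ℂ)} (hD : IsOpen D) {u : ℂ × ℂ → ℂ} (hu : ContDiffOn ℝ 1 u D)
    (h1 : ∀ x ∈ D, db1 u x = 0) (h2 : ∀ x ∈ D, db2 u x = 0) : DifferentiableOn ℂ u D := by
  intro x hx
  have hd : DifferentiableAt ℝ u x := (hu.contDiffAt (hD.mem_nhds hx)).differentiableAt (by norm_num)
  have e1 := h1 x hx
  have e2 := h2 x hx
  unfold db1 at e1
  unfold db2 at e2
  obtain ⟨L', hL'⟩ := G3_clin (fderiv ℝ u x) (by linear_combination 2 * e1)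
    (by linear_combination 2 * e2)
  exact (hasFDerivAt_of_restrictScalars ℝ hd.hasFDerivAt hL').differentiableAt.differentiableWithinAt

/-- **TARGET** -/
theorem reg_wd {a : ℂ × ℂ} {r M M' : ℝ} (hr : 0 < r) {f h u : ℂ × ℂ → ℂ}
    (hF : Fm (ball a r) M f h) (hub : ∀ x ∈ ball a r, ‖u x‖ ≤ M')
    (h1 : ∀ y ∈ ball a.2 r, Pool.Agent.H720R2.HP.WD (ball a.1 r) (fun w => u (w, y)) (fun w => f (w, y)))
    (h2 : ∀ w ∈ ball a.1 r, Pool.Agent.H720R2.HP.WD (ball a.2 r) (fun y => u (w, y)) (fun y => h (w, y))) :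
    So (ball a (r / 2)) M' f h u := by
  obtain ⟨C, hC, hS⟩ := dolb hr
  obtain ⟨u₀, hu₀⟩ := hS a f h M hF
  have hr2 : ball a.1 (r / 2) ⊆ ball a.1 r := ball_subset_ball (by linarith)
  have hr3 : ball a.2 (r / 2) ⊆ ball a.2 r := ball_subset_ball (by linarith)
  have hra : ball a (r / 2) ⊆ ball a r := ball_subset_ball (by linarith)
  have hd0 : ∀ p ∈ ball a (r / 2), DifferentiableAt ℝ u₀ p := fun p hp =>
    (hu₀.u1.contDiffAt (isOpen_ball.mem_nhds hp)).differentiableAt (by norm_num)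
  have hv : DifferentiableOn ℂ (fun p => u p + (-1) * u₀ p) (ball a (r / 2)) := by
    refine G3_osgood (C := M' + C * M) (fun p hp => ?_) (fun y hy => ?_) (fun w hw => ?_)
    · have h3 := hub p (hra hp)
      have h4 := hu₀.ub p hp
      calc ‖u p + (-1) * u₀ p‖ ≤ ‖u p‖ + ‖(-1) * u₀ p‖ := norm_add_le _ _
        _ = ‖u p‖ + ‖u₀ p‖ := by rw [norm_mul, norm_neg, norm_one, one_mul]
        _ ≤ _ := by linarith
    · refine G3_wdsub (V := fun w => u (w, y)) (χ := fun w => u₀ (w, y)) isOpen_ball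
        (G3_mono hr2 (h1 y (hr3 hy))) ?_ (fun w hw => ?_)
      · refine ContDiffOn.comp (g := u₀) (f := fun w : ℂ => (w, y)) hu₀.u1
          (contDiff_id.prodMk contDiff_const).contDiffOn (fun w hw => G3_mem.2 ⟨hw, hy⟩)
      · rw [G3_sl1 (hd0 _ (G3_mem.2 ⟨hw, hy⟩)), hu₀.e1 _ (G3_mem.2 ⟨hw, hy⟩)]
    · refine G3_wdsub (V := fun y => u (w, y)) (χ := fun y => u₀ (w, y)) isOpen_ball
        (G3_mono hr3 (h2 w (hr2 hw))) ?_ (fun y hy => ?_)
      · refine ContDiffOn.comp (g := u₀) (f := fun y : ℂ => (w, y)) hu₀.u1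
          (contDiff_const.prodMk contDiff_id).contDiffOn (fun y hy => G3_mem.2 ⟨hw, hy⟩)
      · rw [G3_sl2 (hd0 _ (G3_mem.2 ⟨hw, hy⟩)), hu₀.e2 _ (G3_mem.2 ⟨hw, hy⟩)]
  obtain ⟨g1, g2⟩ := G3_sum (u := u) isOpen_ball hu₀.u1 hv (fun x _ => by ring)
  exact ⟨g1, fun x hx => by rw [(g2 x hx).1, hu₀.e1 x hx], fun x hx => by
    rw [(g2 x hx).2, hu₀.e2 x hx], fun x hx => hub x (hra hx)⟩

/-- **TARGET** -/
theorem reg_lim {D : Set (ℂ × ℂ)} (hD : IsOpen D) {ι : Type} (l : Filter ι) [l.NeBot]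
    {M M' : ℝ} {f h u : ℂ × ℂ → ℂ} (hF : Fm D M f h) {f' h' s : ι → ℂ × ℂ → ℂ}
    (hF' : ∀ n, Fm D M (f' n) (h' n)) (hs : ∀ n, So D M' (f' n) (h' n) (s n))
    (hlim : ∀ ε : ℝ, 0 < ε → ∀ᶠ n in l, ∀ x ∈ D, ‖f' n x - f x‖ ≤ ε ∧ ‖h' n x - h x‖ ≤ ε)
    (hu : ∀ x ∈ D, Tendsto (fun n => s n x) l (𝓝 (u x))) : So D M' f h u := by
  have hub : ∀ x ∈ D, ‖u x‖ ≤ M' := fun x hx =>
    le_of_tendsto (hu x hx).norm (Eventually.of_forall fun n => (hs n).ub x hx)
  -- the local statement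
  have key : ∀ a ∈ D, ∃ r : ℝ, 0 < r ∧ ball a r ⊆ D ∧ ContDiffOn ℝ 1 u (ball a r) ∧
      ∀ x ∈ ball a r, db1 u x = f x ∧ db2 u x = h x := by
    intro a ha
    obtain ⟨r, hr, hrD⟩ := Metric.isOpen_iff.1 hD a ha
    obtain ⟨C, hC, hS⟩ := dolb hr
    have haa : a ∈ ball a r := mem_ball_self hr
    have hM : 0 ≤ M := (norm_nonneg _).trans (hF.fb a ha)
    have hB2 : ball a (r / 2) ⊆ ball a r := ball_subset_ball (by linarith)
    have hFB : Fm (ball a r) M f h := ⟨hF.f1.mono hrD, hF.h1.mono hrD, fun x hx => hF.cl x (hrD hx),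
      fun x hx => hF.fb x (hrD hx), fun x hx => hF.hb x (hrD hx)⟩
    obtain ⟨w, hw⟩ := hS a f h M hFB
    -- the size of the difference
    let mm : ι → ball a r → ℝ := fun n x => max ‖f' n x - f x‖ ‖h' n x - h x‖
    have hmm : ∀ n x, mm n x ≤ 2 * M := by
      intro n x
      have hx := hrD x.2
      refine max_le ((norm_sub_le _ _).trans ?_) ((norm_sub_le _ _).trans ?_)
      · have := (hF' n).fb x hx
        have := hF.fb x hx
        linarith
      · have := (hF' n).hb x hx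
        have := hF.hb x hx
        linarith
    have hbd : ∀ n, BddAbove (range (mm n)) := fun n => ⟨2 * M, by
      rintro _ ⟨x, rfl⟩
      exact hmm n x⟩
    let e : ι → ℝ := fun n => ⨆ x, mm n x
    have hne : Nonempty (ball a r) := ⟨⟨a, haa⟩⟩
    have he1 : ∀ n, e n ≤ 2 * M := fun n => ciSup_le (hmm n)
    have he0 : ∀ n, 0 ≤ e n := fun n =>
      (le_max_of_le_left (norm_nonneg _)).trans (le_ciSup (hbd n) ⟨a, haa⟩)
    have hdd : ∀ n, Fm (ball a r) (e n) (fun x => f' n x - f x) (fun x => h' n x - h x) := by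
      intro n
      refine ⟨((hF' n).f1.mono hrD).sub hFB.f1, ((hF' n).h1.mono hrD).sub hFB.h1, fun x hx => ?_,
        fun x hx => (le_max_left _ _).trans (le_ciSup (hbd n) ⟨x, hx⟩),
        fun x hx => (le_max_right _ _).trans (le_ciSup (hbd n) ⟨x, hx⟩)⟩
      have hxD := hD.mem_nhds (hrD hx)
      have d1 : DifferentiableAt ℝ (f' n) x :=
        ((hF' n).f1.contDiffAt hxD).differentiableAt (by norm_num)
      have d2 : DifferentiableAt ℝ (h' n) x :=
        ((hF' n).h1.contDiffAt hxD).differentiableAt (by norm_num)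
      have d3 : DifferentiableAt ℝ f x := (hF.f1.contDiffAt hxD).differentiableAt (by norm_num)
      have d4 : DifferentiableAt ℝ h x := (hF.h1.contDiffAt hxD).differentiableAt (by norm_num)
      rw [(G3_sub d2 d4).1, (G3_sub d1 d3).2, (hF' n).cl x (hrD hx), hF.cl x (hrD hx)]
    choose wn hwn using fun n => hS a _ _ (e n) (hdd n)
    have hdiff : ∀ n, DifferentiableOn ℂ (fun x => (s n x - w x) - wn n x) (ball a (r / 2)) := by
      intro n
      have c1 : ContDiffOn ℝ 1 (s n) (ball a (r / 2)) := (hs n).u1.mono (hB2.trans hrD)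
      refine hol_so isOpen_ball ((c1.sub hw.u1).sub (hwn n).u1) (fun x hx => ?_) (fun x hx => ?_)
      all_goals
        have hxn := (isOpen_ball (x := a) (ε := r / 2)).mem_nhds hx
        have d1 : DifferentiableAt ℝ (s n) x := (c1.contDiffAt hxn).differentiableAt (by norm_num)
        have d2 : DifferentiableAt ℝ w x := (hw.u1.contDiffAt hxn).differentiableAt (by norm_num)
        have d3 : DifferentiableAt ℝ (wn n) x :=
          ((hwn n).u1.contDiffAt hxn).differentiableAt (by norm_num)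
      · rw [(G3_sub (d1.fun_sub d2) d3).1, (G3_sub d1 d2).1, (hs n).e1 x (hrD (hB2 hx)), hw.e1 x hx,
          (hwn n).e1 x hx]
        ring
      · rw [(G3_sub (d1.fun_sub d2) d3).2, (G3_sub d1 d2).2, (hs n).e2 x (hrD (hB2 hx)), hw.e2 x hx,
          (hwn n).e2 x hx]
        ring
    have hbdd : ∀ n, ∀ x ∈ ball a (r / 2), ‖(s n x - w x) - wn n x‖ ≤
        M' + C * M + C * (2 * M) := by
      intro n x hx
      have b1 := (hs n).ub x (hrD (hB2 hx))
      have b2 := hw.ub x hx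
      have b3 := (hwn n).ub x hx
      have b4 : C * e n ≤ C * (2 * M) := mul_le_mul_of_nonneg_left (he1 n) hC
      have b5 := norm_sub_le (s n x - w x) (wn n x)
      have b6 := norm_sub_le (s n x) (w x)
      linarith
    set 𝒰 : Ultrafilter ι := Ultrafilter.of l with h𝒰
    have hle : (𝒰 : Filter ι) ≤ l := Ultrafilter.of_le _
    obtain ⟨F, hFd, _, hFt⟩ := Pool.Agent.H720R2.Cor.ultra_lim isOpen_ball 𝒰
      (fun n x => (s n x - w x) - wn n x) hdiff hbdd
    have hwt : ∀ x ∈ ball a (r / 2), Tendsto (fun n => wn n x) l (𝓝 0) := by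
      intro x hx
      rw [Metric.tendsto_nhds]
      intro ε hε
      have hpos : 0 < ε / (C + 1) := by positivity
      filter_upwards [hlim (ε / (C + 1)) hpos] with n hn
      rw [dist_zero_right]
      have h3 : e n ≤ ε / (C + 1) := ciSup_le fun x => max_le (hn x (hrD x.2)).1 (hn x (hrD x.2)).2
      have h4 : C * e n ≤ C * (ε / (C + 1)) := mul_le_mul_of_nonneg_left h3 hC
      have h5 : C * (ε / (C + 1)) < ε := by
        rw [← mul_div_assoc, div_lt_iff₀ (by linarith)]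
        nlinarith
      exact ((hwn n).ub x hx).trans_lt (h4.trans_lt h5)
    have hFe : ∀ x ∈ ball a (r / 2), u x = w x + F x := by
      intro x hx
      have h3 : Tendsto (fun n => (s n x - w x) - wn n x) l (𝓝 ((u x - w x) - 0)) :=
        ((hu x (hrD (hB2 hx))).sub_const _).sub (hwt x hx)
      have h4 := tendsto_nhds_unique (hFt x hx) (h3.mono_left hle)
      rw [h4]
      ring
    obtain ⟨g1, g2⟩ := G3_sum (u := u) isOpen_ball hw.u1 hFd hFe
    exact ⟨r / 2, by positivity, hB2.trans hrD, g1, fun x hx => by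
      rw [(g2 x hx).1, (g2 x hx).2, hw.e1 x hx, hw.e2 x hx]
      exact ⟨rfl, rfl⟩⟩
  refine ⟨fun a ha => ?_, fun a ha => ?_, fun a ha => ?_, hub⟩
  · obtain ⟨r, hr, _, h3, _⟩ := key a ha
    exact (h3.contDiffAt (ball_mem_nhds a hr)).contDiffWithinAt
  · obtain ⟨r, hr, _, _, h4⟩ := key a ha
    exact (h4 a (mem_ball_self hr)).1
  · obtain ⟨r, hr, _, _, h4⟩ := key a ha
    exact (h4 a (mem_ball_self hr)).2

end Pool.Agent.P157G
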