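import Mathlib
import Pool.Agent.H720R2.HP.Kern
import Pool.Agent.P157G.PHre
import Pool.Agent.P157G.CT

set_option autoImplicit false

open MeasureTheory Metric Set Filter Topology Complex

namespace Pool.Agent.P157G

open Pool.Agent.P157D (d1 d2 CR Bo)

theorem G5a_sq : ContDiff ℝ 1 (fun t : ℝ => max t 0 ^ 2) := by
  have hd : ∀ t : ℝ, HasDerivAt (fun t : ℝ => max t 0 ^ 2) (2 * max t 0) t := by
    intro t
    rcases lt_trichotomy t 0 with ht | ht | ht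
    · have h1 : (fun t : ℝ => max t 0 ^ 2) =ᶠ[𝓝 t] fun _ => (0 : ℝ) := by
        filter_upwards [Iio_mem_nhds ht] with s hs
        rw [max_eq_right (le_of_lt hs)]
        simp
      rw [max_eq_right ht.le, mul_zero]
      exact (hasDerivAt_const t (0 : ℝ)).congr_of_eventuallyEq h1
    · subst ht
      have h1 : (fun t : ℝ => max t 0 ^ 2) =O[𝓝 0] fun t => ‖t - 0‖ ^ 2 := by
        refine Asymptotics.IsBigO.of_bound 1 (Filter.Eventually.of_forall fun s => ?_)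
        rw [one_mul, norm_pow, norm_pow, norm_norm, sub_zero]
        refine pow_le_pow_left₀ (norm_nonneg _) ?_ 2
        rw [Real.norm_eq_abs, Real.norm_eq_abs]
        rcases le_total s 0 with h | h
        · rw [max_eq_right h, abs_zero]
          exact abs_nonneg _
        · rw [max_eq_left h]
      have h2 : HasFDerivAt (fun t : ℝ => max t 0 ^ 2) (0 : ℝ →L[ℝ] ℝ) 0 :=
        h1.hasFDerivAt one_lt_two
      have h3 := h2.hasDerivAt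
      simpa using h3
    · have h1 : (fun t : ℝ => max t 0 ^ 2) =ᶠ[𝓝 t] fun s => s ^ 2 := by
        filter_upwards [Ioi_mem_nhds ht] with s hs
        rw [max_eq_left (le_of_lt hs)]
      rw [max_eq_left ht.le]
      have h2 := (hasDerivAt_pow 2 t)
      have h3 := h2.congr_of_eventuallyEq h1
      simpa using h3
  rw [contDiff_one_iff_deriv]
  refine ⟨fun t => (hd t).differentiableAt, ?_⟩
  have h4 : deriv (fun t : ℝ => max t 0 ^ 2) = fun t => 2 * max t 0 :=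
    funext fun t => (hd t).deriv
  rw [h4]
  fun_prop

theorem G5a_sq0 : deriv (fun t : ℝ => max t 0 ^ 2) 0 = 0 := by
  have h1 : (fun t : ℝ => max t 0 ^ 2) =O[𝓝 0] fun t => ‖t - 0‖ ^ 2 := by
    refine Asymptotics.IsBigO.of_bound 1 (Filter.Eventually.of_forall fun s => ?_)
    rw [one_mul, norm_pow, norm_pow, norm_norm, sub_zero]
    refine pow_le_pow_left₀ (norm_nonneg _) ?_ 2
    rw [Real.norm_eq_abs, Real.norm_eq_abs]
    rcases le_total s 0 with h | h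
    · rw [max_eq_right h, abs_zero]
      exact abs_nonneg _
    · rw [max_eq_left h]
  have h2 : HasFDerivAt (fun t : ℝ => max t 0 ^ 2) (0 : ℝ →L[ℝ] ℝ) 0 :=
    h1.hasFDerivAt one_lt_two
  have h3 := h2.hasDerivAt.deriv
  simpa using h3

theorem G5a_open (r : ℝ) : IsOpen (Bo r) := by
  have h : Bo r = (fun x : ℂ × ℂ => ‖x.1‖) ⁻¹' Set.Iio r ∩ (fun x : ℂ × ℂ => ‖x.2‖) ⁻¹' Set.Iio r :=
    rfl
  rw [h]
  exact (isOpen_Iio.preimage (by fun_prop)).inter (isOpen_Iio.preimage (by fun_prop))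

theorem G5a_d1C {R : ℂ × ℂ → ℝ} {r : ℝ} (h : ContDiffOn ℝ 2 R (Bo r)) :
    ContDiffOn ℝ 1 (d1 R) (Bo r) := by
  have h1 : ContDiffOn ℝ 1 (fderiv ℝ R) (Bo r) :=
    h.fderiv_of_isOpen (G5a_open r) (by norm_num)
  have h2 : ∀ a : ℂ × ℂ, ContDiffOn ℝ 1 (fun x => ((fderiv ℝ R x a : ℝ) : ℂ)) (Bo r) :=
    fun a => Complex.ofRealCLM.contDiff.comp_contDiffOn (h1.clm_apply contDiffOn_const)
  exact ((h2 (1, 0)).sub (contDiffOn_const.mul (h2 (Complex.I, 0)))).div_const 2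

theorem G5a_d2C {R : ℂ × ℂ → ℝ} {r : ℝ} (h : ContDiffOn ℝ 2 R (Bo r)) :
    ContDiffOn ℝ 1 (d2 R) (Bo r) := by
  have h1 : ContDiffOn ℝ 1 (fderiv ℝ R) (Bo r) :=
    h.fderiv_of_isOpen (G5a_open r) (by norm_num)
  have h2 : ∀ a : ℂ × ℂ, ContDiffOn ℝ 1 (fun x => ((fderiv ℝ R x a : ℝ) : ℂ)) (Bo r) :=
    fun a => Complex.ofRealCLM.contDiff.comp_contDiffOn (h1.clm_apply contDiffOn_const)
  exact ((h2 (0, 1)).sub (contDiffOn_const.mul (h2 (0, Complex.I)))).div_const 2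

theorem G5a_linv : LocallyIntegrable (fun t : ℂ => t⁻¹) := by
  intro x
  refine ⟨ball 0 (‖x‖ + 1), isOpen_ball.mem_nhds (by simp), ?_⟩
  have h := Pool.Agent.H720R2.HP.inv_ball_int 0 (‖x‖ + 1)
  refine Integrable.mono' h measurable_inv.aestronglyMeasurable
    (Filter.Eventually.of_forall fun ζ => ?_)
  rw [zero_sub, norm_neg, norm_inv]

/-- the Cauchy transform with parameters -/
noncomputable def G5a_V (g : (ℂ × ℂ) × ℂ → ℂ) (q : (ℂ × ℂ) × ℂ) : ℂ :=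
  ∫ ζ : ℂ, g (q.1, ζ) / (q.2 - ζ)

theorem G5a_VC {s : Set (ℂ × ℂ)} (hs : IsOpen s) {K : Set ℂ} (hK : IsCompact K)
    {g : (ℂ × ℂ) × ℂ → ℂ} (hg : ContDiffOn ℝ 1 g (s ×ˢ univ))
    (h0 : ∀ q : (ℂ × ℂ) × ℂ, q.1 ∈ s → q.2 ∉ K → g q = 0) :
    ContDiffOn ℝ 1 (G5a_V g) (s ×ˢ univ) := by
  have hg' : ContDiffOn ℝ ((1 : ℕ∞) : WithTop ℕ∞) (↿(fun (p : ℂ × ℂ) (x : ℂ) => g (p, x)))
      (s ×ˢ univ) := hg
  have h1 := contDiffOn_convolution_right_with_param (𝕜 := ℝ) (μ := volume)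
    (f := fun t : ℂ => t⁻¹) (n := 1) (ContinuousLinearMap.mul ℝ ℂ) (g := fun p x => g (p, x))
    hs hK (fun p x hp hx => h0 (p, x) hp hx) G5a_linv hg'
  have h2 : ContDiffOn ℝ 1 (fun q : (ℂ × ℂ) × ℂ => convolution (fun t : ℂ => t⁻¹)
    (fun x => g (q.1, x)) (ContinuousLinearMap.mul ℝ ℂ) volume q.2) (s ×ˢ univ) := h1
  refine h2.congr fun q hq => ?_
  unfold G5a_V
  rw [convolution_def, ← integral_sub_left_eq_self (fun ζ => g (q.1, ζ) / (q.2 - ζ)) volume q.2]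
  congr 1
  funext t
  rw [sub_sub_cancel, ContinuousLinearMap.mul_apply', div_eq_mul_inv, mul_comm]

theorem G5a_int {u : ℂ → ℂ} (hu : Continuous u) {K : Set ℂ} (hK : IsCompact K)
    (h0 : ∀ ζ, ζ ∉ K → u ζ = 0) (y : ℂ) : Integrable fun ζ => u ζ / (y - ζ) := by
  have hcs : HasCompactSupport fun t => u (y - t) := by
    refine HasCompactSupport.intro (hK.image (continuous_const.sub continuous_id : Continuous fun t => y - t))
      fun t ht => ?_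
    apply h0
    intro h
    exact ht ⟨y - t, h, by simp⟩
  have h1 : Integrable fun t : ℂ => t⁻¹ • u (y - t) :=
    G5a_linv.integrable_smul_right_of_hasCompactSupport (by fun_prop) hcs
  have h2 := h1.comp_sub_left y
  refine h2.congr (Filter.Eventually.of_forall fun ζ => ?_)
  simp only [sub_sub_cancel, smul_eq_mul]
  rw [div_eq_mul_inv, mul_comm]

open Classical in
/-- the integrand -/
noncomputable def G5a_G (r : ℝ) (R : ℂ × ℂ → ℝ) (k : ℂ × ℂ → ℂ) (q : (ℂ × ℂ) × ℂ) : ℂ :=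
  if ‖q.2‖ < r ∧ 0 < R (q.1.1, q.2) then
    k (q.1.1, q.2) * ((R (q.1.1, q.2) : ℂ) / PH R (q.1.1, q.2) q.1) ^ 2 else 0

theorem G5a_Geq {r : ℝ} {R : ℂ × ℂ → ℝ} {k : ℂ × ℂ → ℂ} {q : (ℂ × ℂ) × ℂ} (hq : ‖q.2‖ < r) :
    G5a_G r R k q = k (q.1.1, q.2) * (((max (R (q.1.1, q.2)) 0 ^ 2 : ℝ) : ℂ) /
      PH R (q.1.1, q.2) q.1 ^ 2) := by
  unfold G5a_G
  by_cases h : 0 < R (q.1.1, q.2)
  · rw [if_pos ⟨hq, h⟩, max_eq_left h.le, div_pow]
    push_cast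
    rfl
  · rw [if_neg (fun h' => h h'.2), max_eq_right (not_lt.1 h)]
    simp

section

variable {r κ L M : ℝ} {R : ℂ × ℂ → ℝ} {f h : ℂ × ℂ → ℂ}

theorem G5a_bad (H : Ni r κ L M R f h) {x : ℂ × ℂ} (hx : ‖x.1‖ ≤ κ) (h2 : r / 2 ≤ ‖x.2‖) :
    ¬ (‖x.2‖ < r ∧ 0 < R x) := by
  rintro ⟨h3, h4⟩
  have h5 := H.sl x hx h2 h3
  linarith

theorem G5a_G0 (H : Ni r κ L M R f h) {k : ℂ × ℂ → ℂ} {q : (ℂ × ℂ) × ℂ} (hx : ‖q.1.1‖ ≤ κ)
    (h2 : r / 2 ≤ ‖q.2‖) : G5a_G r R k q = 0 := by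
  unfold G5a_G
  exact if_neg (G5a_bad H (x := (q.1.1, q.2)) hx h2)

theorem G5a_Omopen (H : Ni r κ L M R f h) : IsOpen (Om r κ R) := by
  have h1 : Om r κ R = ({x : ℂ × ℂ | ‖x.1‖ < κ} : Set (ℂ × ℂ)) ∩ (Bo r ∩ R ⁻¹' Set.Ioi 0) := by
    ext x
    constructor
    · rintro ⟨a, b, c⟩
      exact ⟨a, ⟨a.trans H.κr, b⟩, c⟩
    · rintro ⟨a, ⟨_, b⟩, c⟩
      exact ⟨a, b, c⟩
  rw [h1]
  exact (isOpen_lt (by fun_prop) continuous_const).inter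
    (H.cr.smooth.continuousOn.isOpen_inter_preimage (G5a_open r) isOpen_Ioi)

theorem G5a_PHne (H : Ni r κ L M R f h) {x p : ℂ × ℂ} (hp : p ∈ Om r κ R) (hx1 : x.1 = p.1)
    (hx2 : ‖x.2‖ < r) (hx : 0 ≤ R x) : PH R x p ≠ 0 := by
  intro h0
  have h1 := PH_re H.cr (s := x) (p := p) ⟨by rw [hx1]; exact hp.1.trans H.κr, hx2⟩
    ⟨hp.1.trans H.κr, hp.2.1⟩
  rw [h0, Complex.zero_re] at h1
  have h2 := hp.2.2
  have h3 := sq_nonneg ‖p.1 - x.1‖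
  have h4 := sq_nonneg ‖p.2 - x.2‖
  linarith

/-- the integrand is of class `C¹` -/
theorem G5a_GC (H : Ni r κ L M R f h) {k : ℂ × ℂ → ℂ}
    (hk : ∃ O : Set (ℂ × ℂ), IsOpen O ∧ {x : ℂ × ℂ | ‖x.1‖ ≤ κ ∧ ‖x.2‖ < r ∧ 0 ≤ R x} ⊆ O ∧
      ContDiffOn ℝ 1 k O) : ContDiffOn ℝ 1 (G5a_G r R k) (Om r κ R ×ˢ univ) := by
  rintro ⟨p, η⟩ ⟨hp, -⟩
  have hp' : p ∈ Om r κ R := hp
  have hOm := G5a_Omopen H
  apply ContDiffAt.contDiffWithinAt
  have hnb : ∀ᶠ q : (ℂ × ℂ) × ℂ in 𝓝 (p, η), q.1 ∈ Om r κ R :=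
    continuousAt_fst.eventually (hOm.mem_nhds hp')
  have hc2 : ContinuousAt (fun q : (ℂ × ℂ) × ℂ => ‖q.2‖) (p, η) := by fun_prop
  by_cases h1 : ‖η‖ < r
  · have hx : (p.1, η) ∈ Bo r := ⟨hp'.1.trans H.κr, h1⟩
    have hmap : ContDiffAt ℝ 1 (fun q : (ℂ × ℂ) × ℂ => ((q.1.1, q.2) : ℂ × ℂ)) (p, η) := by
      fun_prop
    have hRC : ContDiffAt ℝ 1 (fun q : (ℂ × ℂ) × ℂ => R (q.1.1, q.2)) (p, η) :=
      ContDiffAt.comp (g := R) (p, η) ((H.cr.smooth.contDiffAt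
        ((G5a_open r).mem_nhds hx)).of_le (by norm_num)) hmap
    have hev : G5a_G r R k =ᶠ[𝓝 (p, η)] fun q => k (q.1.1, q.2) *
        (((max (R (q.1.1, q.2)) 0 ^ 2 : ℝ) : ℂ) / PH R (q.1.1, q.2) q.1 ^ 2) := by
      filter_upwards [hc2.eventually (Iio_mem_nhds h1)] with q hq
      exact G5a_Geq hq
    rcases lt_or_ge (R (p.1, η)) 0 with h2 | h2
    · have hev2 : G5a_G r R k =ᶠ[𝓝 (p, η)] fun _ => 0 := by
        filter_upwards [hRC.continuousAt.eventually (Iio_mem_nhds h2)] with q hq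
        unfold G5a_G
        exact if_neg fun h' => not_lt.2 (le_of_lt hq) h'.2
      exact contDiffAt_const.congr_of_eventuallyEq hev2
    · obtain ⟨O, hO, hOs, hkO⟩ := hk
      have hxO : (p.1, η) ∈ O := hOs ⟨hp'.1.le, h1, h2⟩
      have hkC : ContDiffAt ℝ 1 (fun q : (ℂ × ℂ) × ℂ => k (q.1.1, q.2)) (p, η) :=
        ContDiffAt.comp (g := k) (p, η) (hkO.contDiffAt (hO.mem_nhds hxO)) hmap
      have hd1 : ContDiffAt ℝ 1 (fun q : (ℂ × ℂ) × ℂ => d1 R (q.1.1, q.2)) (p, η) :=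
        ContDiffAt.comp (g := d1 R) (p, η) ((G5a_d1C H.cr.smooth).contDiffAt
          ((G5a_open r).mem_nhds hx)) hmap
      have hd2 : ContDiffAt ℝ 1 (fun q : (ℂ × ℂ) × ℂ => d2 R (q.1.1, q.2)) (p, η) :=
        ContDiffAt.comp (g := d2 R) (p, η) ((G5a_d2C H.cr.smooth).contDiffAt
          ((G5a_open r).mem_nhds hx)) hmap
      have hPC : ContDiffAt ℝ 1 (fun q : (ℂ × ℂ) × ℂ => PH R (q.1.1, q.2) q.1) (p, η) := by
        unfold PH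
        refine ((Complex.ofRealCLM.contDiff.contDiffAt.comp (p, η) hRC).add
          (hd1.mul ?_)).add (hd2.mul ?_)
        · fun_prop
        · fun_prop
      have hne : PH R (p.1, η) p ≠ 0 := G5a_PHne H hp' rfl h1 h2
      have hsq : ContDiffAt ℝ 1 (fun q : (ℂ × ℂ) × ℂ =>
          ((max (R (q.1.1, q.2)) 0 ^ 2 : ℝ) : ℂ)) (p, η) := by
        have h5 : ContDiffAt ℝ 1 (fun q : (ℂ × ℂ) × ℂ => max (R (q.1.1, q.2)) 0 ^ 2) (p, η) :=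
          ContDiffAt.comp (g := fun t : ℝ => max t 0 ^ 2) (p, η) G5a_sq.contDiffAt hRC
        exact Complex.ofRealCLM.contDiff.contDiffAt.comp (p, η) h5
      refine ContDiffAt.congr_of_eventuallyEq ?_ hev
      simp only [div_eq_mul_inv]
      exact hkC.mul (hsq.mul ((hPC.pow 2).inv (pow_ne_zero 2 hne)))
  · have h2 : r / 2 < ‖η‖ := by
      have := H.cr.r0
      linarith [not_lt.1 h1]
    have hev : G5a_G r R k =ᶠ[𝓝 (p, η)] fun _ => 0 := by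
      filter_upwards [hnb, hc2.eventually (Ioi_mem_nhds h2)] with q hq1 hq2
      exact G5a_G0 H hq1.1.le (le_of_lt hq2)
    exact contDiffAt_const.congr_of_eventuallyEq hev

theorem G5a_line {E : Type} [NormedAddCommGroup E] [NormedSpace ℝ E] {g : ℂ × ℂ → E} {x : ℂ × ℂ}
    (hg : DifferentiableAt ℝ g x) (v : ℂ × ℂ) :
    HasDerivAt (fun t : ℝ => g (x + t • v)) (fderiv ℝ g x v) 0 := by
  have h1 : HasDerivAt (fun t : ℝ => x + t • v) v 0 := by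
    have := ((hasDerivAt_id (0 : ℝ)).smul_const v).const_add x
    simpa using this
  have h2 : HasFDerivAt g (fderiv ℝ g x) ((fun t : ℝ => x + t • v) 0) := by
    simpa using hg.hasFDerivAt
  exact h2.comp_hasDerivAt 0 h1

/-- derivatives of the integrand -/
theorem G5a_D (H : Ni r κ L M R f h) {k : ℂ × ℂ → ℂ} {p x : ℂ × ℂ} (hp : p ∈ Om r κ R)
    (hx1 : x.1 = p.1) (hx2 : ‖x.2‖ < r) (hR : 0 < R x) (hk : DifferentiableAt ℝ k x)
    (hg : DifferentiableAt ℝ (fun x : ℂ × ℂ => G5a_G r R k ((x.1, p.2), x.2)) x) (v : ℂ × ℂ) :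
    fderiv ℝ (fun x : ℂ × ℂ => G5a_G r R k ((x.1, p.2), x.2)) x v =
      fderiv ℝ k x v * ((R x : ℂ) / PH R x p) ^ 2 + k x * (2 * ((R x : ℂ) / PH R x p) *
       ((((fderiv ℝ R x v : ℝ) : ℂ) * PH R x p - (R x : ℂ) * (((fderiv ℝ R x v : ℝ) : ℂ) +
        (fderiv ℝ (d2 R) x v * (p.2 - x.2) + d2 R x * (-v.2)))) / PH R x p ^ 2)) := by
  have hxB : x ∈ Bo r := ⟨by rw [hx1]; exact hp.1.trans H.κr, hx2⟩
  have hRd : DifferentiableAt ℝ R x :=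
    (H.cr.smooth.contDiffAt ((G5a_open r).mem_nhds hxB)).differentiableAt two_ne_zero
  have hbd : DifferentiableAt ℝ (d2 R) x :=
    ((G5a_d2C H.cr.smooth).contDiffAt ((G5a_open r).mem_nhds hxB)).differentiableAt one_ne_zero
  have hPHx : PH R x p = (R x : ℂ) + d2 R x * (p.2 - x.2) := by
    unfold PH
    rw [hx1]
    rw [sub_self, mul_zero, add_zero]
  have hne : PH R x p ≠ 0 := G5a_PHne H hp hx1 hx2 hR.le
  have l0 := G5a_line hg v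
  have l1 := G5a_line hk v
  have l2 : HasDerivAt (fun t : ℝ => ((R (x + t • v) : ℝ) : ℂ)) ((fderiv ℝ R x v : ℝ) : ℂ) 0 :=
    (G5a_line hRd v).ofReal_comp
  have l3 := G5a_line hbd v
  have l4 : HasDerivAt (fun t : ℝ => p.2 - (x + t • v).2) (-v.2) 0 := by
    have h1 := (G5a_line (g := fun x : ℂ × ℂ => x.2) (x := x) (by fun_prop) v).const_sub p.2
    have h2 : fderiv ℝ (fun x : ℂ × ℂ => x.2) x v = v.2 := by
      rw [fderiv_snd]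
      rfl
    rw [h2] at h1
    exact h1
  have l5 := l2.add (l3.mul l4)
  simp only [zero_smul, add_zero] at l5
  have hne0 : ((R (x + (0 : ℝ) • v) : ℝ) : ℂ) + d2 R (x + (0 : ℝ) • v) *
      (p.2 - (x + (0 : ℝ) • v).2) ≠ 0 := by
    rw [zero_smul, add_zero, ← hPHx]
    exact hne
  have l6 := l1.mul ((l2.div l5 hne0).pow 2)
  have hc : ContinuousAt (fun t : ℝ => x + t • v) 0 := by fun_prop
  have e0 : (fun t : ℝ => x + t • v) 0 = x := by simp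
  have hev : (fun t : ℝ => G5a_G r R k (((x + t • v).1, p.2), (x + t • v).2)) =ᶠ[𝓝 0]
      ((fun t : ℝ => k (x + t • v)) * ((fun t : ℝ => ((R (x + t • v) : ℝ) : ℂ)) /
        ((fun t : ℝ => ((R (x + t • v) : ℝ) : ℂ)) +
          (fun t : ℝ => d2 R (x + t • v)) * fun t : ℝ => p.2 - (x + t • v).2)) ^ 2) := by
    have hRc : ∀ᶠ y in 𝓝 x, 0 < R y := hRd.continuousAt.eventually (Ioi_mem_nhds hR)
    have hyc : ∀ᶠ y : ℂ × ℂ in 𝓝 x, ‖y.2‖ < r :=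
      (by fun_prop : ContinuousAt (fun y : ℂ × ℂ => ‖y.2‖) x).eventually (Iio_mem_nhds hx2)
    have hboth := hRc.and hyc
    rw [← e0] at hboth
    filter_upwards [hc.eventually hboth] with t ht
    unfold G5a_G
    rw [if_pos ⟨ht.2, ht.1⟩]
    unfold PH
    simp only [Pi.mul_apply, Pi.pow_apply, Pi.div_apply, Pi.add_apply, sub_self, mul_zero,
      add_zero]
  have l7 := (l6.congr_of_eventuallyEq hev).unique l0
  rw [← l7]
  simp only [Pi.mul_apply, Pi.pow_apply, Pi.div_apply, Pi.add_apply, zero_smul, add_zero]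
  rw [hPHx]
  simp

theorem G5a_conj1 (R : ℂ × ℂ → ℝ) (x : ℂ × ℂ) : starRingEnd ℂ (d1 R x) =
    (((fderiv ℝ R x (1, 0) : ℝ) : ℂ) + Complex.I * ((fderiv ℝ R x (Complex.I, 0) : ℝ) : ℂ)) / 2 := by
  unfold d1
  rw [map_div₀, map_sub, map_mul, Complex.conj_ofReal, Complex.conj_ofReal, Complex.conj_I,
    Complex.conj_ofNat]
  ring

theorem G5a_conj2 (R : ℂ × ℂ → ℝ) (x : ℂ × ℂ) : starRingEnd ℂ (d2 R x) =
    (((fderiv ℝ R x (0, 1) : ℝ) : ℂ) + Complex.I * ((fderiv ℝ R x (0, Complex.I) : ℝ) : ℂ)) / 2 := by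
  unfold d2
  rw [map_div₀, map_sub, map_mul, Complex.conj_ofReal, Complex.conj_ofReal, Complex.conj_I,
    Complex.conj_ofNat]
  ring

theorem G5a_PHx {p x : ℂ × ℂ} (R : ℂ × ℂ → ℝ) (hx1 : x.1 = p.1) :
    PH R x p = (R x : ℂ) + d2 R x * (p.2 - x.2) := by
  unfold PH
  rw [hx1]
  rw [sub_self, mul_zero, add_zero]

theorem G5a_db1 (H : Ni r κ L M R f h) {k : ℂ × ℂ → ℂ} {p x : ℂ × ℂ} (hp : p ∈ Om r κ R)
    (hx1 : x.1 = p.1) (hx2 : ‖x.2‖ < r) (hR : 0 < R x) (hk : DifferentiableAt ℝ k x)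
    (hg : DifferentiableAt ℝ (fun x : ℂ × ℂ => G5a_G r R k ((x.1, p.2), x.2)) x) :
    db1 (fun x : ℂ × ℂ => G5a_G r R k ((x.1, p.2), x.2)) x =
      db1 k x * ((R x : ℂ) / PH R x p) ^ 2 + k x * (2 * (R x : ℂ) * (p.2 - x.2) *
        (d2 R x * starRingEnd ℂ (d1 R x) - (R x : ℂ) * db1 (d2 R) x) / PH R x p ^ 3) := by
  have hne : PH R x p ≠ 0 := G5a_PHne H hp hx1 hx2 hR.le
  have hPHx := G5a_PHx R hx1
  have e1 := G5a_D H hp hx1 hx2 hR hk hg (1, 0)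
  have e2 := G5a_D H hp hx1 hx2 hR hk hg (Complex.I, 0)
  rw [G5a_conj1]
  unfold db1
  rw [e1, e2]
  simp only [neg_zero, mul_zero, add_zero]
  generalize ((fderiv ℝ R x (1, 0) : ℝ) : ℂ) = A1
  generalize ((fderiv ℝ R x (Complex.I, 0) : ℝ) : ℂ) = A2
  generalize fderiv ℝ (d2 R) x (1, 0) = B1
  generalize fderiv ℝ (d2 R) x (Complex.I, 0) = B2
  generalize fderiv ℝ k x (1, 0) = K1
  generalize fderiv ℝ k x (Complex.I, 0) = K2
  generalize PH R x p = Q at hne hPHx ⊢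
  field_simp
  linear_combination (2 * (R x : ℂ) * (A1 + Complex.I * A2) * k x) * hPHx

theorem G5a_db2 (H : Ni r κ L M R f h) {k : ℂ × ℂ → ℂ} {p x : ℂ × ℂ} (hp : p ∈ Om r κ R)
    (hx1 : x.1 = p.1) (hx2 : ‖x.2‖ < r) (hR : 0 < R x) (hk : DifferentiableAt ℝ k x)
    (hg : DifferentiableAt ℝ (fun x : ℂ × ℂ => G5a_G r R k ((x.1, p.2), x.2)) x) :
    db2 (fun x : ℂ × ℂ => G5a_G r R k ((x.1, p.2), x.2)) x =
      db2 k x * ((R x : ℂ) / PH R x p) ^ 2 + k x * (2 * (R x : ℂ) * (p.2 - x.2) *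
        (d2 R x * starRingEnd ℂ (d2 R x) - (R x : ℂ) * db2 (d2 R) x) / PH R x p ^ 3) := by
  have hne : PH R x p ≠ 0 := G5a_PHne H hp hx1 hx2 hR.le
  have hPHx := G5a_PHx R hx1
  have e1 := G5a_D H hp hx1 hx2 hR hk hg (0, 1)
  have e2 := G5a_D H hp hx1 hx2 hR hk hg (0, Complex.I)
  rw [G5a_conj2]
  unfold db2
  rw [e1, e2]
  generalize ((fderiv ℝ R x (0, 1) : ℝ) : ℂ) = A1
  generalize ((fderiv ℝ R x (0, Complex.I) : ℝ) : ℂ) = A2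
  generalize fderiv ℝ (d2 R) x (0, 1) = B1
  generalize fderiv ℝ (d2 R) x (0, Complex.I) = B2
  generalize fderiv ℝ k x (0, 1) = K1
  generalize fderiv ℝ k x (0, Complex.I) = K2
  generalize PH R x p = Q at hne hPHx ⊢
  field_simp
  have hI := Complex.I_sq
  linear_combination (2 * (R x : ℂ) * (A1 + Complex.I * A2) * k x) * hPHx +
    (2 * (R x : ℂ) ^ 2 * k x * d2 R x) * hI

/-- the derivative vanishes outside of the domain -/
theorem G5a_Z (H : Ni r κ L M R f h) {k : ℂ × ℂ → ℂ}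
    (hk : ∃ O : Set (ℂ × ℂ), IsOpen O ∧ {x : ℂ × ℂ | ‖x.1‖ ≤ κ ∧ ‖x.2‖ < r ∧ 0 ≤ R x} ⊆ O ∧
      ContDiffOn ℝ 1 k O) {p x : ℂ × ℂ} (hp : p ∈ Om r κ R)
    (hx1 : x.1 = p.1) (hx : ¬ (‖x.2‖ < r ∧ 0 < R x)) :
    fderiv ℝ (fun x : ℂ × ℂ => G5a_G r R k ((x.1, p.2), x.2)) x = 0 := by
  have hfd : ∀ {g : ℂ × ℂ → ℂ}, g =ᶠ[𝓝 x] (fun _ => 0) → fderiv ℝ g x = 0 := by
    intro g hg
    rw [hg.fderiv_eq]
    simp
  have hx1' : ‖x.1‖ < κ := by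
    rw [hx1]
    exact hp.1
  by_cases h2 : ‖x.2‖ < r
  · have hxB : x ∈ Bo r := ⟨hx1'.trans H.κr, h2⟩
    have hRd : DifferentiableAt ℝ R x :=
      (H.cr.smooth.contDiffAt ((G5a_open r).mem_nhds hxB)).differentiableAt two_ne_zero
    have hR0 : R x ≤ 0 := not_lt.1 fun h' => hx ⟨h2, h'⟩
    rcases hR0.lt_or_eq with h3 | h3
    · apply hfd
      filter_upwards [hRd.continuousAt.eventually (Iio_mem_nhds h3)] with y hy
      unfold G5a_G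
      exact if_neg fun h' => not_lt.2 (le_of_lt hy) h'.2
    · obtain ⟨O, hO, hOs, hkO⟩ := hk
      have hxO : x ∈ O := hOs ⟨hx1'.le, h2, h3.ge⟩
      have hkd : DifferentiableAt ℝ k x :=
        (hkO.contDiffAt (hO.mem_nhds hxO)).differentiableAt one_ne_zero
      have hbd : DifferentiableAt ℝ (d2 R) x :=
        ((G5a_d2C H.cr.smooth).contDiffAt ((G5a_open r).mem_nhds hxB)).differentiableAt one_ne_zero
      have hne : PH R x p ≠ 0 := G5a_PHne H hp hx1 h2 h3.ge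
      rw [G5a_PHx R hx1] at hne
      have hev : (fun x : ℂ × ℂ => G5a_G r R k ((x.1, p.2), x.2)) =ᶠ[𝓝 x] fun y =>
          (k y * (((R y : ℂ) + d2 R y * (p.2 - y.2)) ^ 2)⁻¹) *
            ((max (R y) 0 ^ 2 : ℝ) : ℂ) := by
        filter_upwards [(by fun_prop : ContinuousAt (fun y : ℂ × ℂ => ‖y.2‖) x).eventually
          (Iio_mem_nhds h2)] with y hy
        rw [G5a_Geq (show ‖(((y.1, p.2), y.2) : (ℂ × ℂ) × ℂ).2‖ < r from hy)]
        rw [G5a_PHx (p := (y.1, p.2)) (x := (y.1, y.2)) R rfl]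
        simp only [Prod.mk.eta]
        rw [div_eq_mul_inv]
        ring
      have hRC : DifferentiableAt ℝ (fun y => (R y : ℂ)) x :=
        (Complex.ofRealCLM.differentiableAt).comp x hRd
      have hu : DifferentiableAt ℝ (fun y : ℂ × ℂ =>
          k y * (((R y : ℂ) + d2 R y * (p.2 - y.2)) ^ 2)⁻¹) x := by
        refine hkd.mul (DifferentiableAt.inv ?_ (pow_ne_zero 2 hne))
        refine (hRC.add (hbd.mul ?_)).pow 2
        fun_prop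
      have hs1 : HasFDerivAt (fun y : ℂ × ℂ => max (R y) 0 ^ 2) (0 : ℂ × ℂ →L[ℝ] ℝ) x := by
        have h5 : HasDerivAt (fun t : ℝ => max t 0 ^ 2) 0 (R x) := by
          have h6 := (G5a_sq.differentiable one_ne_zero (R x)).hasDerivAt
          rw [h3, G5a_sq0] at h6
          rw [h3]
          exact h6
        have h7 := h5.comp_hasFDerivAt x hRd.hasFDerivAt
        rw [zero_smul] at h7
        exact h7
      have hs2 : HasFDerivAt (fun y : ℂ × ℂ => ((max (R y) 0 ^ 2 : ℝ) : ℂ))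
          (0 : ℂ × ℂ →L[ℝ] ℂ) x := by
        have h8 := Complex.ofRealCLM.hasFDerivAt.comp x hs1
        rw [ContinuousLinearMap.comp_zero] at h8
        exact h8
      have h9 := hu.hasFDerivAt.mul hs2
      rw [hev.fderiv_eq]
      have h10 := h9.fderiv
      rw [h3] at h10
      have h11 : fderiv ℝ (fun y : ℂ × ℂ =>
          (k y * (((R y : ℂ) + d2 R y * (p.2 - y.2)) ^ 2)⁻¹) *
            ((max (R y) 0 ^ 2 : ℝ) : ℂ)) x = _ := h10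
      rw [h11]
      refine ContinuousLinearMap.ext fun v => ?_
      simp
  · have h3 : r / 2 < ‖x.2‖ := by
      have := H.cr.r0
      linarith [not_lt.1 h2]
    apply hfd
    filter_upwards [(by fun_prop : ContinuousAt (fun y : ℂ × ℂ => ‖y.2‖) x).eventually
      (Ioi_mem_nhds h3), (by fun_prop : ContinuousAt (fun y : ℂ × ℂ => ‖y.1‖) x).eventually
      (Iio_mem_nhds hx1')] with y hy1 hy2
    exact G5a_G0 H (q := ((y.1, p.2), y.2)) (le_of_lt hy2) (le_of_lt hy1)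

end

theorem G5a_s1 {G : (ℂ × ℂ) × ℂ → ℂ} {s : Set (ℂ × ℂ)} (hs : IsOpen s)
    (hG : ContDiffOn ℝ 1 G (s ×ˢ univ)) (y : ℂ) :
    IsOpen {w : ℂ | (w, y) ∈ s} ∧
      ContDiffOn ℝ 1 (fun x : ℂ × ℂ => G ((x.1, y), x.2)) ({w : ℂ | (w, y) ∈ s} ×ˢ univ) := by
  refine ⟨hs.preimage (by fun_prop : Continuous fun w : ℂ => (w, y)), ?_⟩
  refine hG.comp (f := fun x : ℂ × ℂ => (((x.1, y), x.2) : (ℂ × ℂ) × ℂ))
    (ContDiff.contDiffOn (by fun_prop)) ?_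
  rintro x ⟨hx, -⟩
  exact ⟨hx, mem_univ _⟩

theorem G5a_s2 {G : (ℂ × ℂ) × ℂ → ℂ} {s : Set (ℂ × ℂ)} (hs : IsOpen s)
    (hG : ContDiffOn ℝ 1 G (s ×ˢ univ)) (w : ℂ) :
    IsOpen {y : ℂ | (w, y) ∈ s} ∧
      ContDiffOn ℝ 1 (fun x : ℂ × ℂ => G ((w, x.1), x.2)) ({y : ℂ | (w, y) ∈ s} ×ˢ univ) := by
  refine ⟨hs.preimage (by fun_prop : Continuous fun y : ℂ => (w, y)), ?_⟩
  refine hG.comp (f := fun x : ℂ × ℂ => (((w, x.1), x.2) : (ℂ × ℂ) × ℂ))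
    (ContDiff.contDiffOn (by fun_prop)) ?_
  rintro x ⟨hx, -⟩
  exact ⟨hx, mem_univ _⟩

theorem G5a_hol {g : ℂ × ℂ → ℂ} {x : ℂ × ℂ} (hg : DifferentiableAt ℝ g x)
    (hc : DifferentiableAt ℂ (fun y : ℂ => g (y, x.2)) x.1) : db1 g x = 0 := by
  have h1 : HasFDerivAt (fun y : ℂ => ((y, x.2) : ℂ × ℂ)) (ContinuousLinearMap.inl ℝ ℂ ℂ) x.1 :=
    hasFDerivAt_prodMk_left x.1 x.2
  have h2 : HasFDerivAt g (fderiv ℝ g x) ((fun y : ℂ => ((y, x.2) : ℂ × ℂ)) x.1) :=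
    hg.hasFDerivAt
  have h3 := h2.comp x.1 h1
  have h4 : HasFDerivAt (fun y : ℂ => g (y, x.2))
      ((fderiv ℂ (fun y : ℂ => g (y, x.2)) x.1).restrictScalars ℝ) x.1 :=
    hc.hasFDerivAt.restrictScalars ℝ
  have h5 : (fderiv ℝ g x).comp (ContinuousLinearMap.inl ℝ ℂ ℂ) =
      (fderiv ℂ (fun y : ℂ => g (y, x.2)) x.1).restrictScalars ℝ := HasFDerivAt.unique h3 h4
  have h6 : ∀ v : ℂ, fderiv ℝ g x (v, 0) = v * fderiv ℂ (fun y : ℂ => g (y, x.2)) x.1 1 := by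
    intro v
    have h7 : fderiv ℝ g x (v, 0) = (fderiv ℝ g x).comp (ContinuousLinearMap.inl ℝ ℂ ℂ) v := by
      simp
    rw [h7, h5]
    have h8 : ((fderiv ℂ (fun y : ℂ => g (y, x.2)) x.1).restrictScalars ℝ) v =
        fderiv ℂ (fun y : ℂ => g (y, x.2)) x.1 (v • 1) := by simp
    rw [h8, map_smul, smul_eq_mul]
  unfold db1
  rw [h6, h6]
  have hI := Complex.I_sq
  linear_combination (fderiv ℂ (fun y : ℂ => g (y, x.2)) x.1 1 / 2) * hI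

theorem G5a_main {s : Set (ℂ × ℂ)} (hs : IsOpen s) {K : Set ℂ} (hK : IsCompact K)
    {G : (ℂ × ℂ) × ℂ → ℂ} (hG : ContDiffOn ℝ 1 G (s ×ˢ univ))
    (h0 : ∀ q : (ℂ × ℂ) × ℂ, q.1 ∈ s → q.2 ∉ K → G q = 0)
    (hhol : ∀ w y ζ : ℂ, (w, y) ∈ s → DifferentiableAt ℂ (fun y : ℂ => G ((w, y), ζ)) y) :
    ContDiffOn ℝ 1 (fun p : ℂ × ℂ => (1 / Real.pi : ℂ) * G5a_V G (p, p.2)) s ∧
    ∀ p ∈ s, db2 (fun p : ℂ × ℂ => (1 / Real.pi : ℂ) * G5a_V G (p, p.2)) p = G (p, p.2) ∧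
      db1 (fun p : ℂ × ℂ => (1 / Real.pi : ℂ) * G5a_V G (p, p.2)) p =
        CT2 (db1 (fun x : ℂ × ℂ => G ((x.1, p.2), x.2))) p ∧
      CT2 (db2 (fun x : ℂ × ℂ => G ((x.1, p.2), x.2))) p = G (p, p.2) := by
  have hVC := G5a_VC hs hK hG h0
  constructor
  · refine contDiffOn_const.mul (hVC.comp (f := fun p : ℂ × ℂ => ((p, p.2) : (ℂ × ℂ) × ℂ))
      (ContDiff.contDiffOn (by fun_prop)) ?_)
    intro x hx
    exact ⟨hx, mem_univ _⟩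
  intro p hp
  have hopen : IsOpen (s ×ˢ (univ : Set ℂ)) := hs.prod isOpen_univ
  obtain ⟨o1, c1⟩ := G5a_s1 hs hG p.2
  obtain ⟨o2, c2⟩ := G5a_s2 hs hG p.1
  have t1 := (ct2 o1 hK c1 (fun x hx hx2 => h0 ((x.1, p.2), x.2) hx hx2)).2 p hp
  have t2 := (ct2 o2 hK c2 (fun x hx hx2 => h0 ((p.1, x.1), x.2) hx hx2)).2 (p.2, p.2) hp
  have hz : ∀ x : ℂ × ℂ, (p.1, x.1) ∈ s → db1 (fun x : ℂ × ℂ => G ((p.1, x.1), x.2)) x = 0 := by
    intro x hx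
    have hop : IsOpen ({y : ℂ | (p.1, y) ∈ s} ×ˢ (univ : Set ℂ)) := o2.prod isOpen_univ
    refine G5a_hol ((c2.contDiffAt (hop.mem_nhds ⟨hx, mem_univ _⟩)).differentiableAt
      one_ne_zero) ?_
    exact hhol p.1 x.1 x.2 hx
  have t3 : db1 (CT2 (fun x : ℂ × ℂ => G ((p.1, x.1), x.2))) (p.2, p.2) = 0 := by
    rw [t2.2.1]
    unfold CT2
    have h1 : ∀ ζ : ℂ, db1 (fun x : ℂ × ℂ => G ((p.1, x.1), x.2)) (p.2, ζ) = 0 :=
      fun ζ => hz (p.2, ζ) hp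
    simp only [h1, zero_div, integral_zero, mul_zero]
  have hV : HasFDerivAt (G5a_V G) (fderiv ℝ (G5a_V G) (p, p.2)) (p, p.2) :=
    ((hVC.contDiffAt (hopen.mem_nhds ⟨hp, mem_univ _⟩)).differentiableAt one_ne_zero).hasFDerivAt
  set D := fderiv ℝ (G5a_V G) (p, p.2) with hD
  have A1 : HasFDerivAt (fun p : ℂ × ℂ => (1 / Real.pi : ℂ) * G5a_V G (p, p.2))
      ((1 / Real.pi : ℂ) • (D.comp ((ContinuousLinearMap.id ℝ (ℂ × ℂ)).prod
        (ContinuousLinearMap.snd ℝ ℂ ℂ)))) p := by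
    have h1 : HasFDerivAt (fun p : ℂ × ℂ => ((p, p.2) : (ℂ × ℂ) × ℂ))
        ((ContinuousLinearMap.id ℝ (ℂ × ℂ)).prod (ContinuousLinearMap.snd ℝ ℂ ℂ)) p :=
      (hasFDerivAt_id p).prodMk hasFDerivAt_snd
    exact (HasFDerivAt.comp (g := G5a_V G) p hV h1).const_mul _
  have A2 : HasFDerivAt (CT2 (fun x : ℂ × ℂ => G ((x.1, p.2), x.2)))
      ((1 / Real.pi : ℂ) • (D.comp (((ContinuousLinearMap.fst ℝ ℂ ℂ).prod 0).prod
        (ContinuousLinearMap.snd ℝ ℂ ℂ)))) p := by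
    have h1 : HasFDerivAt (fun x : ℂ × ℂ => (((x.1, p.2), x.2) : (ℂ × ℂ) × ℂ))
        (((ContinuousLinearMap.fst ℝ ℂ ℂ).prod 0).prod (ContinuousLinearMap.snd ℝ ℂ ℂ)) p :=
      (hasFDerivAt_fst.prodMk (hasFDerivAt_const p.2 p)).prodMk hasFDerivAt_snd
    exact (HasFDerivAt.comp (g := G5a_V G) p hV h1).const_mul _
  have A3 : HasFDerivAt (CT2 (fun x : ℂ × ℂ => G ((p.1, x.1), x.2)))
      ((1 / Real.pi : ℂ) • (D.comp (((0 : ℂ × ℂ →L[ℝ] ℂ).prod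
        (ContinuousLinearMap.fst ℝ ℂ ℂ)).prod (ContinuousLinearMap.snd ℝ ℂ ℂ)))) (p.2, p.2) := by
    have h1 : HasFDerivAt (fun x : ℂ × ℂ => (((p.1, x.1), x.2) : (ℂ × ℂ) × ℂ))
        (((0 : ℂ × ℂ →L[ℝ] ℂ).prod (ContinuousLinearMap.fst ℝ ℂ ℂ)).prod
          (ContinuousLinearMap.snd ℝ ℂ ℂ)) (p.2, p.2) :=
      ((hasFDerivAt_const p.1 (p.2, p.2)).prodMk hasFDerivAt_fst).prodMk hasFDerivAt_snd
    exact (HasFDerivAt.comp (g := G5a_V G) ((p.2, p.2) : ℂ × ℂ) hV h1).const_mul _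
  refine ⟨?_, ?_, t1.2.2⟩
  · have e1 : db2 (CT2 (fun x : ℂ × ℂ => G ((x.1, p.2), x.2))) p = G (p, p.2) := t1.1
    have e2 : db2 (fun p : ℂ × ℂ => (1 / Real.pi : ℂ) * G5a_V G (p, p.2)) p =
        db1 (CT2 (fun x : ℂ × ℂ => G ((p.1, x.1), x.2))) (p.2, p.2) +
          db2 (CT2 (fun x : ℂ × ℂ => G ((x.1, p.2), x.2))) p := by
      unfold db1 db2
      rw [A1.fderiv, A2.fderiv, A3.fderiv]
      have k1 : D (((0 : ℂ), (1 : ℂ)), (1 : ℂ)) = D ((0, 1), 0) + D ((0, 0), 1) := by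
        rw [← map_add]
        simp
      have k2 : D (((0 : ℂ), Complex.I), Complex.I) = D ((0, Complex.I), 0) +
          D ((0, 0), Complex.I) := by
        rw [← map_add]
        simp
      simp only [smul_apply, ContinuousLinearMap.comp_apply, ContinuousLinearMap.prod_apply,
        ContinuousLinearMap.id_apply, ContinuousLinearMap.coe_snd', ContinuousLinearMap.coe_fst',
        zero_apply, smul_eq_mul]
      rw [k1, k2]
      ring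
    rw [e2, t3, e1, zero_add]
  · rw [← t1.2.1]
    unfold db1
    rw [A1.fderiv, A2.fderiv]
    simp only [smul_apply, ContinuousLinearMap.comp_apply, ContinuousLinearMap.prod_apply,
        ContinuousLinearMap.id_apply, ContinuousLinearMap.coe_snd', ContinuousLinearMap.coe_fst',
        zero_apply, smul_eq_mul]

theorem G5a_ci {g : ℂ × ℂ → ℂ} {O : Set ℂ} (hO : IsOpen O) (hg : ContDiffOn ℝ 1 g (O ×ˢ univ))
    {w : ℂ} (hw : w ∈ O) (v : ℂ × ℂ) : Continuous fun ζ : ℂ => fderiv ℝ g (w, ζ) v := by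
  have h1 : ContinuousOn (fderiv ℝ g) (O ×ˢ univ) :=
    hg.continuousOn_fderiv_of_isOpen (hO.prod isOpen_univ) le_rfl
  have h2 : Continuous fun ζ : ℂ => fderiv ℝ g (w, ζ) :=
    h1.comp_continuous (by fun_prop) (fun ζ => ⟨hw, mem_univ _⟩)
  exact h2.clm_apply continuous_const

section

variable {r κ L M : ℝ} {R : ℂ × ℂ → ℝ} {f h : ℂ × ℂ → ℂ}

theorem G5a_Ghol (H : Ni r κ L M R f h) (k : ℂ × ℂ → ℂ) (w y ζ : ℂ) (hp : (w, y) ∈ Om r κ R) :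
    DifferentiableAt ℂ (fun y : ℂ => G5a_G r R k ((w, y), ζ)) y := by
  by_cases hc : ‖ζ‖ < r ∧ 0 < R (w, ζ)
  · have h1 : (fun y : ℂ => G5a_G r R k ((w, y), ζ)) = fun y : ℂ =>
        k (w, ζ) * ((R (w, ζ) : ℂ) / PH R (w, ζ) (w, y)) ^ 2 := by
      funext y
      unfold G5a_G
      exact if_pos hc
    rw [h1]
    have hne : PH R (w, ζ) (w, y) ≠ 0 := G5a_PHne H hp rfl hc.1 hc.2.le
    have h2 : DifferentiableAt ℂ (fun y : ℂ => PH R (w, ζ) (w, y)) y := by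
      unfold PH
      fun_prop
    exact (((differentiableAt_const _).div h2 hne).pow 2).const_mul _
  · have h1 : (fun y : ℂ => G5a_G r R k ((w, y), ζ)) = fun _ => 0 := by
      funext y
      unfold G5a_G
      exact if_neg hc
    rw [h1]
    exact differentiableAt_const _

theorem G5a_Gdiag {k : ℂ × ℂ → ℂ} {p : ℂ × ℂ} (hp : p ∈ Om r κ R) :
    G5a_G r R k (p, p.2) = k p := by
  have h1 : 0 < R p := hp.2.2
  have h2 : PH R p p = (R p : ℂ) := by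
    unfold PH
    simp
  have h3 : (R p : ℂ) ≠ 0 := Complex.ofReal_ne_zero.2 h1.ne'
  unfold G5a_G
  have h4 : ‖((p, p.2) : (ℂ × ℂ) × ℂ).2‖ < r ∧
      0 < R (((p, p.2) : (ℂ × ℂ) × ℂ).1.1, ((p, p.2) : (ℂ × ℂ) × ℂ).2) := ⟨hp.2.1, h1⟩
  rw [if_pos h4]
  simp only [Prod.mk.eta]
  rw [h2, div_self h3, one_pow, mul_one]

theorem G5a_Smeas (H : Ni r κ L M R f h) {w : ℂ} (hw : ‖w‖ < κ) :
    MeasurableSet {η : ℂ | ‖η‖ < r ∧ 0 < R (w, η)} := by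
  have h1 : {η : ℂ | ‖η‖ < r ∧ 0 < R (w, η)} =
      (fun η : ℂ => ((w, η) : ℂ × ℂ)) ⁻¹' (Bo r ∩ R ⁻¹' Set.Ioi 0) := by
    ext η
    constructor
    · rintro ⟨a, b⟩
      exact ⟨⟨hw.trans H.κr, a⟩, b⟩
    · rintro ⟨⟨_, a⟩, b⟩
      exact ⟨a, b⟩
  rw [h1]
  exact ((H.cr.smooth.continuousOn.isOpen_inter_preimage (G5a_open r) isOpen_Ioi).preimage
    (by fun_prop)).measurableSet

theorem G5a_U1 (H : Ni r κ L M R f h) {p : ℂ × ℂ} (hp : p ∈ Om r κ R) :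
    U1 r R h p = (1 / Real.pi : ℂ) * G5a_V (G5a_G r R h) (p, p.2) := by
  unfold U1 G5a_V
  rw [← integral_indicator (G5a_Smeas H hp.1)]
  congr 2
  funext ζ
  unfold G5a_G
  by_cases hc : ‖ζ‖ < r ∧ 0 < R (p.1, ζ)
  · rw [indicator_of_mem (show ζ ∈ {η : ℂ | ‖η‖ < r ∧ 0 < R (p.1, η)} from hc)]
    simp only
    rw [if_pos hc]
  · rw [indicator_of_notMem (show ζ ∉ {η : ℂ | ‖η‖ < r ∧ 0 < R (p.1, η)} from hc)]
    simp only
    rw [if_neg hc, zero_div]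

end

/-- **TARGET** -/
theorem U1_sol {r κ L M : ℝ} {R : ℂ × ℂ → ℝ} {f h : ℂ × ℂ → ℂ} (H : Ni r κ L M R f h) :
    ContDiffOn ℝ 1 (U1 r R h) (Om r κ R) ∧ ∀ p ∈ Om r κ R,
      db2 (U1 r R h) p = h p ∧ db1 (U1 r R h) p = f p - kk r R f h p.1 p := by
  have hOm := G5a_Omopen H
  obtain ⟨O, hO, hOs, hF⟩ := H.fm
  have hkf : ∃ O : Set (ℂ × ℂ), IsOpen O ∧ {x : ℂ × ℂ | ‖x.1‖ ≤ κ ∧ ‖x.2‖ < r ∧ 0 ≤ R x} ⊆ O ∧
      ContDiffOn ℝ 1 f O := ⟨O, hO, hOs, hF.f1⟩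
  have hkh : ∃ O : Set (ℂ × ℂ), IsOpen O ∧ {x : ℂ × ℂ | ‖x.1‖ ≤ κ ∧ ‖x.2‖ < r ∧ 0 ≤ R x} ⊆ O ∧
      ContDiffOn ℝ 1 h O := ⟨O, hO, hOs, hF.h1⟩
  have hK : IsCompact (closedBall (0 : ℂ) (r / 2)) := isCompact_closedBall _ _
  have hK0 : ∀ k : ℂ × ℂ → ℂ, ∀ q : (ℂ × ℂ) × ℂ, q.1 ∈ Om r κ R →
      q.2 ∉ closedBall (0 : ℂ) (r / 2) → G5a_G r R k q = 0 := by
    intro k q hq hq2
    rw [mem_closedBall, dist_zero_right, not_le] at hq2
    exact G5a_G0 H hq.1.le hq2.le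
  have hGh := G5a_GC H hkh
  have hGf := G5a_GC H hkf
  obtain ⟨mh1, mh2⟩ := G5a_main hOm hK hGh (hK0 h) (G5a_Ghol H h)
  obtain ⟨-, mf2⟩ := G5a_main hOm hK hGf (hK0 f) (G5a_Ghol H f)
  refine ⟨mh1.congr fun p hp => G5a_U1 H hp, ?_⟩
  intro p hp
  have hev : U1 r R h =ᶠ[𝓝 p] fun p : ℂ × ℂ =>
      (1 / Real.pi : ℂ) * G5a_V (G5a_G r R h) (p, p.2) := by
    filter_upwards [hOm.mem_nhds hp] with q hq
    exact G5a_U1 H hq
  have hd1 : db1 (U1 r R h) p = db1 (fun p : ℂ × ℂ =>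
      (1 / Real.pi : ℂ) * G5a_V (G5a_G r R h) (p, p.2)) p := by
    unfold db1
    rw [hev.fderiv_eq]
  have hd2 : db2 (U1 r R h) p = db2 (fun p : ℂ × ℂ =>
      (1 / Real.pi : ℂ) * G5a_V (G5a_G r R h) (p, p.2)) p := by
    unfold db2
    rw [hev.fderiv_eq]
  obtain ⟨mh3, mh4, -⟩ := mh2 p hp
  obtain ⟨-, -, mf5⟩ := mf2 p hp
  refine ⟨by rw [hd2, mh3, G5a_Gdiag hp], ?_⟩
  rw [hd1, mh4]
  rw [G5a_Gdiag hp] at mf5
  -- the two slices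
  obtain ⟨o1, ch⟩ := G5a_s1 hOm hGh p.2
  obtain ⟨-, cf⟩ := G5a_s1 hOm hGf p.2
  have hop : IsOpen ({w : ℂ | (w, p.2) ∈ Om r κ R} ×ˢ (univ : Set ℂ)) := o1.prod isOpen_univ
  have hpm : p.1 ∈ {w : ℂ | (w, p.2) ∈ Om r κ R} := hp
  have hAc : Continuous fun ζ : ℂ =>
      db2 (fun x : ℂ × ℂ => G5a_G r R f ((x.1, p.2), x.2)) (p.1, ζ) := by
    unfold db2
    exact ((G5a_ci o1 cf hpm (0, 1)).add (continuous_const.mul
      (G5a_ci o1 cf hpm (0, Complex.I)))).div_const 2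
  have hBc : Continuous fun ζ : ℂ =>
      db1 (fun x : ℂ × ℂ => G5a_G r R h ((x.1, p.2), x.2)) (p.1, ζ) := by
    unfold db1
    exact ((G5a_ci o1 ch hpm (1, 0)).add (continuous_const.mul
      (G5a_ci o1 ch hpm (Complex.I, 0)))).div_const 2
  have hbad : ∀ ζ : ℂ, ζ ∉ closedBall (0 : ℂ) (r / 2) → ¬ (‖ζ‖ < r ∧ 0 < R (p.1, ζ)) := by
    intro ζ hζ
    rw [mem_closedBall, dist_zero_right, not_le] at hζ
    exact G5a_bad H (x := (p.1, ζ)) hp.1.le hζ.le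
  have hA0 : ∀ ζ : ℂ, ¬ (‖ζ‖ < r ∧ 0 < R (p.1, ζ)) →
      db2 (fun x : ℂ × ℂ => G5a_G r R f ((x.1, p.2), x.2)) (p.1, ζ) = 0 := by
    intro ζ hζ
    unfold db2
    rw [G5a_Z H hkf hp (x := (p.1, ζ)) rfl hζ]
    simp
  have hB0 : ∀ ζ : ℂ, ¬ (‖ζ‖ < r ∧ 0 < R (p.1, ζ)) →
      db1 (fun x : ℂ × ℂ => G5a_G r R h ((x.1, p.2), x.2)) (p.1, ζ) = 0 := by
    intro ζ hζ
    unfold db1
    rw [G5a_Z H hkh hp (x := (p.1, ζ)) rfl hζ]
    simp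
  have hAi := G5a_int hAc hK (fun ζ hζ => hA0 ζ (hbad ζ hζ)) p.2
  have hBi := G5a_int hBc hK (fun ζ hζ => hB0 ζ (hbad ζ hζ)) p.2
  have hpt : ∀ ζ : ℂ, ζ ≠ p.2 → {η : ℂ | ‖η‖ < r ∧ 0 < R (p.1, η)}.indicator (fun η =>
      2 * (R (p.1, η) : ℂ) * XX R f h (p.1, η) / PH R (p.1, η) p ^ 3) ζ =
      db2 (fun x : ℂ × ℂ => G5a_G r R f ((x.1, p.2), x.2)) (p.1, ζ) / (p.2 - ζ) -
      db1 (fun x : ℂ × ℂ => G5a_G r R h ((x.1, p.2), x.2)) (p.1, ζ) / (p.2 - ζ) := by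
    intro ζ hζ
    have hsub : p.2 - ζ ≠ 0 := sub_ne_zero.2 hζ.symm
    by_cases hc : ‖ζ‖ < r ∧ 0 < R (p.1, ζ)
    · rw [indicator_of_mem (show ζ ∈ {η : ℂ | ‖η‖ < r ∧ 0 < R (p.1, η)} from hc)]
      have hxO : (p.1, ζ) ∈ O := hOs ⟨hp.1.le, hc.1, hc.2.le⟩
      have hfd : DifferentiableAt ℝ f (p.1, ζ) :=
        (hF.f1.contDiffAt (hO.mem_nhds hxO)).differentiableAt one_ne_zero
      have hhd : DifferentiableAt ℝ h (p.1, ζ) :=
        (hF.h1.contDiffAt (hO.mem_nhds hxO)).differentiableAt one_ne_zero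
      have hgf : DifferentiableAt ℝ (fun x : ℂ × ℂ => G5a_G r R f ((x.1, p.2), x.2)) (p.1, ζ) :=
        (cf.contDiffAt (hop.mem_nhds (show (p.1, ζ) ∈ {w : ℂ | (w, p.2) ∈ Om r κ R} ×ˢ
          (univ : Set ℂ) from ⟨hpm, mem_univ _⟩))).differentiableAt one_ne_zero
      have hgh : DifferentiableAt ℝ (fun x : ℂ × ℂ => G5a_G r R h ((x.1, p.2), x.2)) (p.1, ζ) :=
        (ch.contDiffAt (hop.mem_nhds (show (p.1, ζ) ∈ {w : ℂ | (w, p.2) ∈ Om r κ R} ×ˢ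
          (univ : Set ℂ) from ⟨hpm, mem_univ _⟩))).differentiableAt one_ne_zero
      rw [G5a_db2 H hp (x := (p.1, ζ)) rfl hc.1 hc.2 hfd hgf,
        G5a_db1 H hp (x := (p.1, ζ)) rfl hc.1 hc.2 hhd hgh, hF.cl _ hxO]
      have hne : PH R (p.1, ζ) p ≠ 0 := G5a_PHne H hp rfl hc.1 hc.2.le
      unfold XX
      simp only
      field_simp
      ring
    · rw [indicator_of_notMem (show ζ ∉ {η : ℂ | ‖η‖ < r ∧ 0 < R (p.1, η)} from hc),
        hA0 ζ hc, hB0 ζ hc]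
      simp
  have hkk : kk r R f h p.1 p = (1 / Real.pi : ℂ) * ((∫ ζ : ℂ,
      db2 (fun x : ℂ × ℂ => G5a_G r R f ((x.1, p.2), x.2)) (p.1, ζ) / (p.2 - ζ)) -
      ∫ ζ : ℂ, db1 (fun x : ℂ × ℂ => G5a_G r R h ((x.1, p.2), x.2)) (p.1, ζ) / (p.2 - ζ)) := by
    unfold kk
    rw [← integral_indicator (G5a_Smeas H hp.1), ← integral_sub hAi hBi]
    congr 1
    apply integral_congr_ae
    have hae : ∀ᵐ ζ : ℂ, ζ ≠ p.2 := by
      rw [ae_iff]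
      simp
    filter_upwards [hae] with ζ hζ
    exact hpt ζ hζ
  rw [hkk]
  have h9 : CT2 (db2 (fun x : ℂ × ℂ => G5a_G r R f ((x.1, p.2), x.2))) p =
    (1 / Real.pi : ℂ) * ∫ ζ : ℂ,
      db2 (fun x : ℂ × ℂ => G5a_G r R f ((x.1, p.2), x.2)) (p.1, ζ) / (p.2 - ζ) := rfl
  rw [mul_sub, ← h9, mf5]
  unfold CT2
  ring

end Pool.Agent.P157G
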