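import Mathlib
import Pool.Agent.P157G.PHre

set_option autoImplicit false

open MeasureTheory Metric Set Filter Topology Complex

namespace Pool.Agent.P157G

open Pool.Agent.P157D (d1 d2 CR Bo)

theorem G5b_Bo_open (r : ℝ) : IsOpen (Bo r) :=
  (isOpen_lt continuous_fst.norm continuous_const).inter
    (isOpen_lt continuous_snd.norm continuous_const)

theorem G5b_Rc {r L : ℝ} {R : ℂ × ℂ → ℝ} (hR : CR r L R) : ContinuousOn R (Bo r) :=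
  hR.smooth.continuousOn

theorem G5b_fd {r L : ℝ} {R : ℂ × ℂ → ℝ} (hR : CR r L R) : ContDiffOn ℝ 1 (fderiv ℝ R) (Bo r) :=
  hR.smooth.fderiv_of_isOpen (G5b_Bo_open r) (by norm_num)

theorem G5b_ap {r L : ℝ} {R : ℂ × ℂ → ℝ} (hR : CR r L R) (v : ℂ × ℂ) :
    ContDiffOn ℝ 1 (fun x => ((fderiv ℝ R x v : ℝ) : ℂ)) (Bo r) :=
  Complex.ofRealCLM.contDiff.comp_contDiffOn ((G5b_fd hR).clm_apply contDiffOn_const)

theorem G5b_d1 {r L : ℝ} {R : ℂ × ℂ → ℝ} (hR : CR r L R) : ContDiffOn ℝ 1 (d1 R) (Bo r) := by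
  have h1 := G5b_ap hR (1, 0)
  have h2 := G5b_ap hR (Complex.I, 0)
  unfold d1
  exact (h1.sub (contDiffOn_const.mul h2)).div_const 2

theorem G5b_d2 {r L : ℝ} {R : ℂ × ℂ → ℝ} (hR : CR r L R) : ContDiffOn ℝ 1 (d2 R) (Bo r) := by
  have h1 := G5b_ap hR (0, 1)
  have h2 := G5b_ap hR (0, Complex.I)
  unfold d2
  exact (h1.sub (contDiffOn_const.mul h2)).div_const 2

theorem G5b_db1 {r L : ℝ} {R : ℂ × ℂ → ℝ} (hR : CR r L R) : ContinuousOn (db1 (d2 R)) (Bo r) := by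
  have h0 : ContinuousOn (fderiv ℝ (d2 R)) (Bo r) :=
    (G5b_d2 hR).continuousOn_fderiv_of_isOpen (G5b_Bo_open r) (by norm_num)
  unfold db1
  have h1 : ContinuousOn (fun x => fderiv ℝ (d2 R) x (1, 0)) (Bo r) := h0.clm_apply continuousOn_const
  have h2 : ContinuousOn (fun x => fderiv ℝ (d2 R) x (Complex.I, 0)) (Bo r) :=
    h0.clm_apply continuousOn_const
  exact (h1.add (continuousOn_const.mul h2)).div_const 2

theorem G5b_db2 {r L : ℝ} {R : ℂ × ℂ → ℝ} (hR : CR r L R) : ContinuousOn (db2 (d2 R)) (Bo r) := by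
  have h0 : ContinuousOn (fderiv ℝ (d2 R)) (Bo r) :=
    (G5b_d2 hR).continuousOn_fderiv_of_isOpen (G5b_Bo_open r) (by norm_num)
  unfold db2
  have h1 : ContinuousOn (fun x => fderiv ℝ (d2 R) x (0, 1)) (Bo r) := h0.clm_apply continuousOn_const
  have h2 : ContinuousOn (fun x => fderiv ℝ (d2 R) x (0, Complex.I)) (Bo r) :=
    h0.clm_apply continuousOn_const
  exact (h1.add (continuousOn_const.mul h2)).div_const 2

theorem G5b_XX {r L M : ℝ} {R : ℂ × ℂ → ℝ} {f h : ℂ × ℂ → ℂ} (hR : CR r L R) {O : Set (ℂ × ℂ)}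
    (hF : Fm O M f h) : ContinuousOn (XX R f h) (O ∩ Bo r) := by
  have f1 : ContinuousOn f (O ∩ Bo r) := hF.f1.continuousOn.mono inter_subset_left
  have h1 : ContinuousOn h (O ∩ Bo r) := hF.h1.continuousOn.mono inter_subset_left
  have e1 : ContinuousOn (d1 R) (O ∩ Bo r) := (G5b_d1 hR).continuousOn.mono inter_subset_right
  have e2 : ContinuousOn (d2 R) (O ∩ Bo r) := (G5b_d2 hR).continuousOn.mono inter_subset_right
  have e3 : ContinuousOn (db1 (d2 R)) (O ∩ Bo r) := (G5b_db1 hR).mono inter_subset_right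
  have e4 : ContinuousOn (db2 (d2 R)) (O ∩ Bo r) := (G5b_db2 hR).mono inter_subset_right
  have e5 : ContinuousOn (fun s => ((R s : ℝ) : ℂ)) (O ∩ Bo r) :=
    Complex.continuous_ofReal.comp_continuousOn ((G5b_Rc hR).mono inter_subset_right)
  have c1 : ContinuousOn (fun s => starRingEnd ℂ (d1 R s)) (O ∩ Bo r) :=
    Complex.continuous_conj.comp_continuousOn e1
  have c2 : ContinuousOn (fun s => starRingEnd ℂ (d2 R s)) (O ∩ Bo r) :=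
    Complex.continuous_conj.comp_continuousOn e2
  unfold XX
  exact (f1.mul ((e2.mul c2).sub (e5.mul e4))).sub (h1.mul ((e2.mul c1).sub (e5.mul e3)))

theorem G5b_PHc {r L : ℝ} {R : ℂ × ℂ → ℝ} (hR : CR r L R) :
    ContinuousOn (fun q : (ℂ × ℂ) × (ℂ × ℂ) => PH R q.1 q.2) (Bo r ×ˢ univ) := by
  have m : MapsTo (fun q : (ℂ × ℂ) × (ℂ × ℂ) => q.1) (Bo r ×ˢ (univ : Set (ℂ × ℂ))) (Bo r) :=
    fun q hq => hq.1
  have e1 : ContinuousOn (fun q : (ℂ × ℂ) × (ℂ × ℂ) => d1 R q.1) (Bo r ×ˢ univ) :=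
    (G5b_d1 hR).continuousOn.comp continuousOn_fst m
  have e2 : ContinuousOn (fun q : (ℂ × ℂ) × (ℂ × ℂ) => d2 R q.1) (Bo r ×ˢ univ) :=
    (G5b_d2 hR).continuousOn.comp continuousOn_fst m
  have e5 : ContinuousOn (fun q : (ℂ × ℂ) × (ℂ × ℂ) => ((R q.1 : ℝ) : ℂ)) (Bo r ×ˢ univ) :=
    Complex.continuous_ofReal.comp_continuousOn ((G5b_Rc hR).comp continuousOn_fst m)
  unfold PH
  have a1 : ContinuousOn (fun q : (ℂ × ℂ) × (ℂ × ℂ) => q.2.1 - q.1.1) (Bo r ×ˢ univ) := by fun_prop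
  have a2 : ContinuousOn (fun q : (ℂ × ℂ) × (ℂ × ℂ) => q.2.2 - q.1.2) (Bo r ×ˢ univ) := by fun_prop
  exact (e5.add (e1.mul a1)).add (e2.mul a2)

/-- the compact set of integration points -/
theorem G5b_K {r κ L M : ℝ} {R : ℂ × ℂ → ℝ} {f h : ℂ × ℂ → ℂ} (H : Ni r κ L M R f h) :
    IsCompact ((closedBall (0 : ℂ) κ ×ˢ closedBall (0 : ℂ) (r / 2)) ∩ R ⁻¹' (Ici 0)) := by
  have hc : IsCompact (closedBall (0 : ℂ) κ ×ˢ closedBall (0 : ℂ) (r / 2)) :=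
    (isCompact_closedBall _ _).prod (isCompact_closedBall _ _)
  have hsub : closedBall (0 : ℂ) κ ×ˢ closedBall (0 : ℂ) (r / 2) ⊆ Bo r := by
    rintro ⟨a, b⟩ ⟨ha, hb⟩
    have := H.κr
    have := H.cr.r0
    simp only [mem_closedBall, dist_zero_right] at ha hb
    exact ⟨by show ‖a‖ < r; linarith, by show ‖b‖ < r; linarith⟩
  have hcl : IsClosed ((closedBall (0 : ℂ) κ ×ˢ closedBall (0 : ℂ) (r / 2)) ∩ R ⁻¹' (Ici 0)) :=
    ((G5b_Rc H.cr).mono hsub).preimage_isClosed_of_isClosed hc.isClosed isClosed_Ici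
  exact hc.of_isClosed_subset hcl inter_subset_left

theorem G5b_bd {r κ L M : ℝ} {R : ℂ × ℂ → ℝ} {f h : ℂ × ℂ → ℂ} (H : Ni r κ L M R f h) :
    ∃ C : ℝ, 0 ≤ C ∧ ∀ ζ η : ℂ, ‖ζ‖ ≤ κ → ‖η‖ < r → 0 < R (ζ, η) →
      ‖2 * (R (ζ, η) : ℂ) * XX R f h (ζ, η)‖ ≤ C ∧ ‖d1 R (ζ, η)‖ ≤ C ∧ ‖d2 R (ζ, η)‖ ≤ C := by
  obtain ⟨O, hO, hsub, hF⟩ := H.fm
  set K : Set (ℂ × ℂ) := (closedBall (0 : ℂ) κ ×ˢ closedBall (0 : ℂ) (r / 2)) ∩ R ⁻¹' (Ici 0) with hK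
  have hKc : IsCompact K := G5b_K H
  have hr0 := H.cr.r0
  have hκr := H.κr
  have hKB : K ⊆ Bo r := by
    rintro ⟨a, b⟩ ⟨⟨ha, hb⟩, hc⟩
    simp only [mem_closedBall, dist_zero_right] at ha hb
    exact ⟨by show ‖a‖ < r; linarith, by show ‖b‖ < r; linarith⟩
  have hKO : K ⊆ O := by
    rintro ⟨a, b⟩ ⟨⟨ha, hb⟩, hc⟩
    simp only [mem_closedBall, dist_zero_right] at ha hb
    refine hsub ⟨ha, ?_, hc⟩
    show ‖b‖ < r
    linarith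
  have k1 : ContinuousOn (fun s => 2 * (R s : ℂ) * XX R f h s) K := by
    have e5 : ContinuousOn (fun s => ((R s : ℝ) : ℂ)) K :=
      Complex.continuous_ofReal.comp_continuousOn ((G5b_Rc H.cr).mono hKB)
    exact (continuousOn_const.mul e5).mul ((G5b_XX H.cr hF).mono (subset_inter hKO hKB))
  obtain ⟨C1, hC1⟩ := hKc.exists_bound_of_continuousOn k1
  obtain ⟨C2, hC2⟩ := hKc.exists_bound_of_continuousOn ((G5b_d1 H.cr).continuousOn.mono hKB)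
  obtain ⟨C3, hC3⟩ := hKc.exists_bound_of_continuousOn ((G5b_d2 H.cr).continuousOn.mono hKB)
  refine ⟨max (max 0 C1) (max C2 C3), (le_max_left _ _).trans (le_max_left _ _), ?_⟩
  intro ζ η hζ hη hR
  have hmem : (ζ, η) ∈ K := by
    refine ⟨⟨?_, ?_⟩, ?_⟩
    · simpa using hζ
    · simp only [mem_closedBall, dist_zero_right]
      by_contra hcon
      push Not at hcon
      have := H.sl (ζ, η) hζ hcon.le hη
      linarith
    · exact hR.le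
  refine ⟨(hC1 _ hmem).trans ((le_max_right _ _).trans (le_max_left _ _)),
    (hC2 _ hmem).trans ((le_max_left _ _).trans (le_max_right _ _)),
    (hC3 _ hmem).trans ((le_max_right _ _).trans (le_max_right _ _))⟩

theorem G5b_PH_ge {r L : ℝ} {R : ℂ × ℂ → ℝ} (hR : CR r L R) {s p : ℂ × ℂ} (hs : s ∈ Bo r)
    (hp : p ∈ Bo r) {θ : ℝ} (h0 : 0 ≤ R s) (hθ : θ ≤ R p) : θ / 2 ≤ ‖PH R s p‖ := by
  have h1 := PH_re hR hs hp
  have h2 := Complex.re_le_norm (PH R s p)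
  have h3 := sq_nonneg ‖p.1 - s.1‖
  have h4 := sq_nonneg ‖p.2 - s.2‖
  linarith

/-- the integrand, extended by zero -/
noncomputable def G5b_F (r : ℝ) (R : ℂ × ℂ → ℝ) (f h : ℂ × ℂ → ℂ) (ζ : ℂ) (p : ℂ × ℂ) (η : ℂ) : ℂ :=
  ({η : ℂ | ‖η‖ < r ∧ 0 < R (ζ, η)}).indicator
    (fun η => 2 * (R (ζ, η) : ℂ) * XX R f h (ζ, η) / PH R (ζ, η) p ^ 3) η

theorem G5b_open {r L : ℝ} {R : ℂ × ℂ → ℝ} (hR : CR r L R) {ζ : ℂ} (hζ : ‖ζ‖ < r) :
    IsOpen {η : ℂ | ‖η‖ < r ∧ 0 < R (ζ, η)} := by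
  have hU : IsOpen {η : ℂ | ‖η‖ < r} := isOpen_lt continuous_norm continuous_const
  have h1 : ContinuousOn (fun η => R (ζ, η)) {η : ℂ | ‖η‖ < r} :=
    (G5b_Rc hR).comp (by fun_prop) fun η hη => ⟨hζ, hη⟩
  exact h1.isOpen_inter_preimage hU isOpen_Ioi

theorem G5b_kk {r L : ℝ} {R : ℂ × ℂ → ℝ} (hR : CR r L R) (f h : ℂ × ℂ → ℂ) {ζ : ℂ} (hζ : ‖ζ‖ < r)
    (p : ℂ × ℂ) : kk r R f h ζ p = (1 / Real.pi : ℂ) * ∫ η, G5b_F r R f h ζ p η := by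
  unfold kk G5b_F
  rw [integral_indicator (G5b_open hR hζ).measurableSet]

theorem G5b_Om_open {r κ L : ℝ} {R : ℂ × ℂ → ℝ} (hR : CR r L R) (hκ : κ < r) :
    IsOpen (Om r κ R) := by
  have hU : IsOpen {x : ℂ × ℂ | ‖x.1‖ < κ ∧ ‖x.2‖ < r} :=
    (isOpen_lt continuous_fst.norm continuous_const).inter
      (isOpen_lt continuous_snd.norm continuous_const)
  have h1 : ContinuousOn R {x : ℂ × ℂ | ‖x.1‖ < κ ∧ ‖x.2‖ < r} :=
    (G5b_Rc hR).mono fun x hx => ⟨hx.1.trans hκ, hx.2⟩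
  have h2 := h1.isOpen_inter_preimage hU isOpen_Ioi (t := Ioi (0 : ℝ))
  convert h2 using 1
  ext x
  simp only [Om, mem_ofPred_eq, mem_inter_iff, mem_preimage, mem_Ioi, and_assoc]

theorem G5b_Fle {r κ L M : ℝ} {R : ℂ × ℂ → ℝ} {f h : ℂ × ℂ → ℂ} (H : Ni r κ L M R f h) :
    ∃ C : ℝ, 0 ≤ C ∧ ∀ θ : ℝ, 0 < θ → ∀ ζ : ℂ, ‖ζ‖ ≤ κ → ∀ p ∈ Bo r, θ ≤ R p → ∀ η : ℂ,
      ‖G5b_F r R f h ζ p η‖ ≤ (ball (0 : ℂ) r).indicator (fun _ => C / (θ / 2) ^ 3) η := by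
  obtain ⟨C, hC0, hC⟩ := G5b_bd H
  refine ⟨C, hC0, ?_⟩
  intro θ hθ ζ hζ p hp hpR η
  have hκr := H.κr
  unfold G5b_F
  by_cases hη : ‖η‖ < r
  · have hb : η ∈ ball (0 : ℂ) r := by simpa using hη
    rw [indicator_of_mem hb]
    by_cases hR : 0 < R (ζ, η)
    · rw [indicator_of_mem (show η ∈ {η : ℂ | ‖η‖ < r ∧ 0 < R (ζ, η)} from ⟨hη, hR⟩)]
      have hs : (ζ, η) ∈ Bo r := ⟨lt_of_le_of_lt hζ hκr, hη⟩
      have h1 := G5b_PH_ge H.cr hs hp hR.le hpR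
      rw [norm_div, norm_pow]
      exact div_le_div₀ hC0 (hC ζ η hζ hη hR).1 (by positivity)
        (pow_le_pow_left₀ (by positivity) h1 3)
    · rw [indicator_of_notMem (fun hmem => hR hmem.2), norm_zero]
      positivity
  · rw [indicator_of_notMem (fun hmem => hη hmem.1), norm_zero]
    exact indicator_nonneg (fun _ _ => by positivity) _

theorem G5b_bint (r D : ℝ) : Integrable ((ball (0 : ℂ) r).indicator (fun _ => D)) := by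
  rw [integrable_indicator_iff measurableSet_ball]
  exact integrableOn_const (measure_ball_lt_top).ne

theorem G5b_Ncont {r κ L M : ℝ} {R : ℂ × ℂ → ℝ} {f h : ℂ × ℂ → ℂ} (H : Ni r κ L M R f h) {ζ : ℂ}
    (hζ : ‖ζ‖ ≤ κ) : ContinuousOn (fun η => 2 * (R (ζ, η) : ℂ) * XX R f h (ζ, η))
      {η : ℂ | ‖η‖ < r ∧ 0 < R (ζ, η)} := by
  obtain ⟨O, hO, hsub, hF⟩ := H.fm
  have hκr := H.κr
  have hm : MapsTo (fun η : ℂ => (ζ, η)) {η : ℂ | ‖η‖ < r ∧ 0 < R (ζ, η)} (O ∩ Bo r) :=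
    fun η hη => ⟨hsub ⟨hζ, hη.1, hη.2.le⟩, ⟨lt_of_le_of_lt hζ hκr, hη.1⟩⟩
  have e5 : ContinuousOn (fun η => ((R (ζ, η) : ℝ) : ℂ)) {η : ℂ | ‖η‖ < r ∧ 0 < R (ζ, η)} :=
    Complex.continuous_ofReal.comp_continuousOn
      ((G5b_Rc H.cr).comp (by fun_prop) fun η hη => (hm hη).2)
  exact (continuousOn_const.mul e5).mul ((G5b_XX H.cr hF).comp (by fun_prop) hm)

theorem G5b_PHcη {r L : ℝ} {R : ℂ × ℂ → ℝ} (hR : CR r L R) {ζ : ℂ} (hζ : ‖ζ‖ < r) (p : ℂ × ℂ) :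
    ContinuousOn (fun η => PH R (ζ, η) p) {η : ℂ | ‖η‖ < r ∧ 0 < R (ζ, η)} :=
  (G5b_PHc hR).comp (f := fun η : ℂ => (((ζ, η) : ℂ × ℂ), p)) (by fun_prop)
    fun η hη => ⟨⟨hζ, hη.1⟩, mem_univ _⟩

theorem G5b_meas {r κ L M : ℝ} {R : ℂ × ℂ → ℝ} {f h : ℂ × ℂ → ℂ} (H : Ni r κ L M R f h) {ζ : ℂ}
    (hζ : ‖ζ‖ ≤ κ) {p : ℂ × ℂ} (hp : p ∈ Bo r) (hpR : 0 < R p) :
    AEStronglyMeasurable (G5b_F r R f h ζ p) volume := by
  have hκr := H.κr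
  have hζr : ‖ζ‖ < r := lt_of_le_of_lt hζ hκr
  have ho := G5b_open H.cr hζr
  unfold G5b_F
  rw [show (fun η => ({η : ℂ | ‖η‖ < r ∧ 0 < R (ζ, η)}).indicator
    (fun η => 2 * (R (ζ, η) : ℂ) * XX R f h (ζ, η) / PH R (ζ, η) p ^ 3) η) =
    ({η : ℂ | ‖η‖ < r ∧ 0 < R (ζ, η)}).indicator
    (fun η => 2 * (R (ζ, η) : ℂ) * XX R f h (ζ, η) / PH R (ζ, η) p ^ 3) from rfl]
  rw [aestronglyMeasurable_indicator_iff ho.measurableSet]
  refine ContinuousOn.aestronglyMeasurable ?_ ho.measurableSet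
  refine (G5b_Ncont H hζ).div ((G5b_PHcη H.cr hζr p).pow 3) ?_
  intro η hη
  have h1 := G5b_PH_ge H.cr (s := (ζ, η)) ⟨hζr, hη.1⟩ hp hη.2.le le_rfl
  have h2 : 0 < ‖PH R (ζ, η) p‖ := by linarith
  exact pow_ne_zero 3 (norm_pos_iff.1 h2)

theorem G5b_p1 {r κ L M : ℝ} {R : ℂ × ℂ → ℝ} {f h : ℂ × ℂ → ℂ} (H : Ni r κ L M R f h) :
    ∀ θ : ℝ, 0 < θ → ∃ M' : ℝ, ∀ ζ : ℂ, ‖ζ‖ < κ → ∀ p ∈ Om r κ R, θ ≤ R p →
      ‖kk r R f h ζ p‖ ≤ M' := by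
  intro θ hθ
  obtain ⟨C, hC0, hC⟩ := G5b_Fle H
  refine ⟨‖(1 / Real.pi : ℂ)‖ *
    ∫ η, (ball (0 : ℂ) r).indicator (fun _ => C / (θ / 2) ^ 3) η, ?_⟩
  intro ζ hζ p hp hpR
  rw [G5b_kk H.cr f h (hζ.trans H.κr) p, norm_mul]
  refine mul_le_mul_of_nonneg_left ?_ (norm_nonneg _)
  exact norm_integral_le_of_norm_le (G5b_bint r _)
    (Eventually.of_forall (hC θ hθ ζ hζ.le p ⟨hp.1.trans H.κr, hp.2.1⟩ hpR))

theorem G5b_dPH (R : ℂ × ℂ → ℝ) (s p : ℂ × ℂ) :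
    HasFDerivAt (fun p => PH R s p) (d1 R s • ContinuousLinearMap.fst ℂ ℂ ℂ +
      d2 R s • ContinuousLinearMap.snd ℂ ℂ ℂ) p := by
  have h1 : HasFDerivAt (fun p : ℂ × ℂ => p.1 - s.1) (ContinuousLinearMap.fst ℂ ℂ ℂ) p :=
    hasFDerivAt_fst.sub_const _
  have h2 : HasFDerivAt (fun p : ℂ × ℂ => p.2 - s.2) (ContinuousLinearMap.snd ℂ ℂ ℂ) p :=
    hasFDerivAt_snd.sub_const _
  exact ((h1.const_mul (d1 R s)).const_add (R s : ℂ)).add (h2.const_mul (d2 R s))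

theorem G5b_dinv (N w : ℂ) (hw : w ≠ 0) :
    HasDerivAt (fun w : ℂ => N / w ^ 3) (-3 * N / w ^ 4) w := by
  have h1 := ((hasDerivAt_pow 3 w).inv (pow_ne_zero 3 hw)).const_mul N
  refine (h1.congr_deriv ?_)
  norm_num
  field_simp

theorem G5b_dF (N : ℂ) (R : ℂ × ℂ → ℝ) (s p : ℂ × ℂ) (hw : PH R s p ≠ 0) :
    HasFDerivAt (fun p => N / PH R s p ^ 3) ((-3 * N / PH R s p ^ 4) •
      (d1 R s • ContinuousLinearMap.fst ℂ ℂ ℂ + d2 R s • ContinuousLinearMap.snd ℂ ℂ ℂ)) p :=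
  (G5b_dinv N _ hw).comp_hasFDerivAt p (G5b_dPH R s p)

/-- derivative of the integrand -/
noncomputable def G5b_D (r : ℝ) (R : ℂ × ℂ → ℝ) (f h : ℂ × ℂ → ℂ) (ζ : ℂ) (p : ℂ × ℂ) (η : ℂ) :
    (ℂ × ℂ) →L[ℂ] ℂ :=
  ({η : ℂ | ‖η‖ < r ∧ 0 < R (ζ, η)}).indicator
    (fun η => (-3 * (2 * (R (ζ, η) : ℂ) * XX R f h (ζ, η)) / PH R (ζ, η) p ^ 4) •
      (d1 R (ζ, η) • ContinuousLinearMap.fst ℂ ℂ ℂ + d2 R (ζ, η) • ContinuousLinearMap.snd ℂ ℂ ℂ)) η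

theorem G5b_Dle {r κ L M : ℝ} {R : ℂ × ℂ → ℝ} {f h : ℂ × ℂ → ℂ} (H : Ni r κ L M R f h) :
    ∃ C : ℝ, 0 ≤ C ∧ ∀ θ : ℝ, 0 < θ → ∀ ζ : ℂ, ‖ζ‖ ≤ κ → ∀ p ∈ Bo r, θ ≤ R p → ∀ η : ℂ,
      ‖G5b_D r R f h ζ p η‖ ≤
        (ball (0 : ℂ) r).indicator (fun _ => 3 * C / (θ / 2) ^ 4 * (C + C)) η := by
  obtain ⟨C, hC0, hC⟩ := G5b_bd H
  refine ⟨C, hC0, ?_⟩
  intro θ hθ ζ hζ p hp hpR η
  have hκr := H.κr
  unfold G5b_D
  by_cases hη : ‖η‖ < r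
  · have hb : η ∈ ball (0 : ℂ) r := by simpa using hη
    rw [indicator_of_mem hb]
    by_cases hR : 0 < R (ζ, η)
    · rw [indicator_of_mem (show η ∈ {η : ℂ | ‖η‖ < r ∧ 0 < R (ζ, η)} from ⟨hη, hR⟩)]
      have hs : (ζ, η) ∈ Bo r := ⟨lt_of_le_of_lt hζ hκr, hη⟩
      have h1 := G5b_PH_ge H.cr hs hp hR.le hpR
      obtain ⟨b1, b2, b3⟩ := hC ζ η hζ hη hR
      rw [norm_smul]
      refine mul_le_mul ?_ ?_ (norm_nonneg _) (by positivity)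
      · rw [norm_div, norm_pow, norm_mul, norm_neg]
        have h3 : ‖(3 : ℂ)‖ = 3 := by norm_num
        rw [h3]
        exact div_le_div₀ (by positivity) (mul_le_mul_of_nonneg_left b1 (by norm_num)) (by positivity)
          (pow_le_pow_left₀ (by positivity) h1 4)
      · refine (norm_add_le _ _).trans (add_le_add ?_ ?_)
        · rw [norm_smul]
          calc ‖d1 R (ζ, η)‖ * ‖ContinuousLinearMap.fst ℂ ℂ ℂ‖ ≤ C * 1 :=
                mul_le_mul b2 (ContinuousLinearMap.norm_fst_le ℂ ℂ ℂ) (norm_nonneg _) hC0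
            _ = C := mul_one C
        · rw [norm_smul]
          calc ‖d2 R (ζ, η)‖ * ‖ContinuousLinearMap.snd ℂ ℂ ℂ‖ ≤ C * 1 :=
                mul_le_mul b3 (ContinuousLinearMap.norm_snd_le ℂ ℂ ℂ) (norm_nonneg _) hC0
            _ = C := mul_one C
    · rw [indicator_of_notMem (fun hmem => hR hmem.2), norm_zero]
      positivity
  · rw [indicator_of_notMem (fun hmem => hη hmem.1), norm_zero]
    exact indicator_nonneg (fun _ _ => by positivity) _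

theorem G5b_Dmeas {r κ L M : ℝ} {R : ℂ × ℂ → ℝ} {f h : ℂ × ℂ → ℂ} (H : Ni r κ L M R f h) {ζ : ℂ}
    (hζ : ‖ζ‖ ≤ κ) {p : ℂ × ℂ} (hp : p ∈ Bo r) (hpR : 0 < R p) :
    AEStronglyMeasurable (G5b_D r R f h ζ p) volume := by
  have hκr := H.κr
  have hζr : ‖ζ‖ < r := lt_of_le_of_lt hζ hκr
  have ho := G5b_open H.cr hζr
  unfold G5b_D
  rw [show (fun η => ({η : ℂ | ‖η‖ < r ∧ 0 < R (ζ, η)}).indicator
    (fun η => (-3 * (2 * (R (ζ, η) : ℂ) * XX R f h (ζ, η)) / PH R (ζ, η) p ^ 4) •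
      (d1 R (ζ, η) • ContinuousLinearMap.fst ℂ ℂ ℂ + d2 R (ζ, η) • ContinuousLinearMap.snd ℂ ℂ ℂ)) η) =
    ({η : ℂ | ‖η‖ < r ∧ 0 < R (ζ, η)}).indicator
    (fun η => (-3 * (2 * (R (ζ, η) : ℂ) * XX R f h (ζ, η)) / PH R (ζ, η) p ^ 4) •
      (d1 R (ζ, η) • ContinuousLinearMap.fst ℂ ℂ ℂ + d2 R (ζ, η) • ContinuousLinearMap.snd ℂ ℂ ℂ))
    from rfl]
  rw [aestronglyMeasurable_indicator_iff ho.measurableSet]
  refine ContinuousOn.aestronglyMeasurable ?_ ho.measurableSet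
  have hm : MapsTo (fun η : ℂ => (ζ, η)) {η : ℂ | ‖η‖ < r ∧ 0 < R (ζ, η)} (Bo r) :=
    fun η hη => ⟨hζr, hη.1⟩
  have e1 : ContinuousOn (fun η : ℂ => d1 R (ζ, η)) {η : ℂ | ‖η‖ < r ∧ 0 < R (ζ, η)} :=
    (G5b_d1 H.cr).continuousOn.comp (by fun_prop) hm
  have e2 : ContinuousOn (fun η : ℂ => d2 R (ζ, η)) {η : ℂ | ‖η‖ < r ∧ 0 < R (ζ, η)} :=
    (G5b_d2 H.cr).continuousOn.comp (by fun_prop) hm
  have g1 : ContinuousOn (fun η : ℂ => d1 R (ζ, η) • ContinuousLinearMap.fst ℂ ℂ ℂ +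
      d2 R (ζ, η) • ContinuousLinearMap.snd ℂ ℂ ℂ) {η : ℂ | ‖η‖ < r ∧ 0 < R (ζ, η)} := by
    have k1 : ContinuousOn (fun η : ℂ => d1 R (ζ, η) • ContinuousLinearMap.fst ℂ ℂ ℂ)
        {η : ℂ | ‖η‖ < r ∧ 0 < R (ζ, η)} := ContinuousOn.smul e1 continuousOn_const
    have k2 : ContinuousOn (fun η : ℂ => d2 R (ζ, η) • ContinuousLinearMap.snd ℂ ℂ ℂ)
        {η : ℂ | ‖η‖ < r ∧ 0 < R (ζ, η)} := ContinuousOn.smul e2 continuousOn_const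
    exact k1.add k2
  have g2 : ContinuousOn (fun η : ℂ => -3 * (2 * (R (ζ, η) : ℂ) * XX R f h (ζ, η)) /
      PH R (ζ, η) p ^ 4) {η : ℂ | ‖η‖ < r ∧ 0 < R (ζ, η)} := by
    refine (continuousOn_const.mul (G5b_Ncont H hζ)).div ((G5b_PHcη H.cr hζr p).pow 4) ?_
    intro η hη
    have h1 := G5b_PH_ge H.cr (s := (ζ, η)) ⟨hζr, hη.1⟩ hp hη.2.le le_rfl
    have h2 : 0 < ‖PH R (ζ, η) p‖ := by linarith
    exact pow_ne_zero 4 (norm_pos_iff.1 h2)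
  exact ContinuousOn.smul g2 g1

theorem G5b_near {r κ L : ℝ} {R : ℂ × ℂ → ℝ} (hR : CR r L R) (hκ : κ < r) {p₀ : ℂ × ℂ}
    (hp : p₀ ∈ Om r κ R) : Om r κ R ∩ {p | R p₀ / 2 < R p} ∈ 𝓝 p₀ := by
  have ho := G5b_Om_open hR hκ
  have h1 : Om r κ R ∈ 𝓝 p₀ := ho.mem_nhds hp
  refine inter_mem h1 ?_
  have hB : Om r κ R ⊆ Bo r := fun x hx => ⟨hx.1.trans hκ, hx.2.1⟩
  have hc : ContinuousAt R p₀ := ((G5b_Rc hR).continuousAt ((G5b_Bo_open r).mem_nhds (hB hp)))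
  have hlt : R p₀ / 2 < R p₀ := by
    have := hp.2.2
    linarith
  exact hc.eventually (lt_mem_nhds hlt)

theorem G5b_p2 {r κ L M : ℝ} {R : ℂ × ℂ → ℝ} {f h : ℂ × ℂ → ℂ} (H : Ni r κ L M R f h) :
    ∀ ζ : ℂ, ‖ζ‖ < κ → DifferentiableOn ℂ (kk r R f h ζ) (Om r κ R) := by
  intro ζ hζ p₀ hp₀
  have hζr : ‖ζ‖ < r := hζ.trans H.κr
  have hB : Om r κ R ⊆ Bo r := fun x hx => ⟨hx.1.trans H.κr, hx.2.1⟩
  have hpos : 0 < R p₀ / 2 := by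
    have := hp₀.2.2
    linarith
  have hn := G5b_near H.cr H.κr hp₀
  obtain ⟨C, hC0, hC⟩ := G5b_Fle H
  obtain ⟨C', hC'0, hC'⟩ := G5b_Dle H
  have hmeas : ∀ᶠ p in 𝓝 p₀, AEStronglyMeasurable (G5b_F r R f h ζ p) volume := by
    filter_upwards [hn] with p hp
    exact G5b_meas H hζ.le (hB hp.1) hp.1.2.2
  have hint : Integrable (G5b_F r R f h ζ p₀) volume := by
    refine Integrable.mono' (G5b_bint r _) (G5b_meas H hζ.le (hB hp₀) hp₀.2.2)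
      (Eventually.of_forall (hC (R p₀) hp₀.2.2 ζ hζ.le p₀ (hB hp₀) le_rfl))
  have key := hasFDerivAt_integral_of_dominated_of_fderiv_le (μ := volume)
    (F := fun p η => G5b_F r R f h ζ p η) (F' := fun p η => G5b_D r R f h ζ p η)
    (bound := (ball (0 : ℂ) r).indicator (fun _ => 3 * C' / (R p₀ / 2 / 2) ^ 4 * (C' + C')))
    hn hmeas hint (G5b_Dmeas H hζ.le (hB hp₀) hp₀.2.2)
    (Eventually.of_forall fun η p hp => hC' (R p₀ / 2) hpos ζ hζ.le p (hB hp.1) (le_of_lt hp.2) η)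
    (G5b_bint r _)
    (Eventually.of_forall fun η p hp => by
      unfold G5b_F G5b_D
      by_cases hη : η ∈ {η : ℂ | ‖η‖ < r ∧ 0 < R (ζ, η)}
      · simp only [indicator_of_mem hη]
        refine G5b_dF _ R (ζ, η) p ?_
        have h1 := G5b_PH_ge H.cr (s := (ζ, η)) ⟨hζr, hη.1⟩ (hB hp.1) hη.2.le (le_of_lt hp.2)
        have h2 : 0 < ‖PH R (ζ, η) p‖ := by linarith
        exact norm_pos_iff.1 h2
      · simp only [indicator_of_notMem hη]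
        exact hasFDerivAt_const _ _)
  have hk : kk r R f h ζ = fun p => (1 / Real.pi : ℂ) * ∫ η, G5b_F r R f h ζ p η :=
    funext fun p => G5b_kk H.cr f h hζr p
  rw [hk]
  exact ((key.const_mul _).differentiableAt).differentiableWithinAt

theorem G5b_p4 {r κ L M : ℝ} {R : ℂ × ℂ → ℝ} {f h : ℂ × ℂ → ℂ} (H : Ni r κ L M R f h) :
    ContinuousOn (fun q : ℂ × (ℂ × ℂ) => kk r R f h q.1 q.2) (ball 0 κ ×ˢ Om r κ R) := by
  rintro ⟨ζ₀, p₀⟩ ⟨hζ₀, hp₀⟩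
  simp only [mem_ball, dist_zero_right] at hζ₀
  simp only at hp₀
  obtain ⟨O, hO, hsub, hF⟩ := H.fm
  obtain ⟨C, hC0, hC⟩ := G5b_Fle H
  have hκr := H.κr
  have hB : Om r κ R ⊆ Bo r := fun x hx => ⟨hx.1.trans H.κr, hx.2.1⟩
  have hpos : 0 < R p₀ / 2 := by
    have := hp₀.2.2
    linarith
  have hn := G5b_near H.cr H.κr hp₀
  have hq : {q : ℂ × (ℂ × ℂ) | ‖q.1‖ < κ ∧ q.2 ∈ Om r κ R ∩ {p | R p₀ / 2 < R p}} ∈
      𝓝 ((ζ₀, p₀) : ℂ × (ℂ × ℂ)) := by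
    refine inter_mem ?_ ?_
    · exact (isOpen_lt continuous_fst.norm continuous_const).mem_nhds hζ₀
    · exact continuous_snd.continuousAt.preimage_mem_nhds hn
  refine ContinuousAt.continuousWithinAt ?_
  have hk : (fun q : ℂ × (ℂ × ℂ) => kk r R f h q.1 q.2) =ᶠ[𝓝 ((ζ₀, p₀) : ℂ × (ℂ × ℂ))]
      fun q => (1 / Real.pi : ℂ) * ∫ η, G5b_F r R f h q.1 q.2 η := by
    filter_upwards [hq] with q hq1
    exact G5b_kk H.cr f h (hq1.1.trans hκr) q.2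
  refine ContinuousAt.congr ?_ hk.symm
  refine continuousAt_const.mul ?_
  refine continuousAt_of_dominated (bound := (ball (0 : ℂ) r).indicator
    (fun _ => C / (R p₀ / 2 / 2) ^ 3)) ?_ ?_ (G5b_bint r _) (Eventually.of_forall ?_)
  · filter_upwards [hq] with q hq1
    exact G5b_meas H hq1.1.le (hB hq1.2.1) hq1.2.1.2.2
  · filter_upwards [hq] with q hq1
    exact Eventually.of_forall (hC (R p₀ / 2) hpos q.1 hq1.1.le q.2 (hB hq1.2.1) (le_of_lt hq1.2.2))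
  · intro η
    by_cases hη : ‖η‖ < r
    · have hs0 : (ζ₀, η) ∈ Bo r := ⟨hζ₀.trans hκr, hη⟩
      have hcR : ContinuousAt R (ζ₀, η) := (G5b_Rc H.cr).continuousAt ((G5b_Bo_open r).mem_nhds hs0)
      have hcR' : ContinuousAt (fun q : ℂ × (ℂ × ℂ) => R (q.1, η)) (ζ₀, p₀) := by
        have hc0 : ContinuousAt (fun q : ℂ × (ℂ × ℂ) => ((q.1, η) : ℂ × ℂ)) (ζ₀, p₀) := by fun_prop
        exact ContinuousAt.comp (g := R) (f := fun q : ℂ × (ℂ × ℂ) => ((q.1, η) : ℂ × ℂ)) hcR hc0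
      by_cases hneg : R (ζ₀, η) < 0
      · have he : (fun q : ℂ × (ℂ × ℂ) => G5b_F r R f h q.1 q.2 η) =ᶠ[𝓝 ((ζ₀, p₀) : ℂ × (ℂ × ℂ))]
            fun _ => (0 : ℂ) := by
          filter_upwards [hcR'.eventually (gt_mem_nhds hneg)] with q hq1
          unfold G5b_F
          rw [indicator_of_notMem]
          intro hmem
          have := hmem.2
          linarith
        exact ContinuousAt.congr continuousAt_const he.symm
      · push Not at hneg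
        have hsO : (ζ₀, η) ∈ O := hsub ⟨hζ₀.le, hη, hneg⟩
        have he : (fun q : ℂ × (ℂ × ℂ) => G5b_F r R f h q.1 q.2 η) =
            fun q => 2 * ((max (R (q.1, η)) 0 : ℝ) : ℂ) * XX R f h (q.1, η) /
              PH R (q.1, η) q.2 ^ 3 := by
          funext q
          unfold G5b_F
          by_cases hR : 0 < R (q.1, η)
          · rw [indicator_of_mem (show η ∈ {η : ℂ | ‖η‖ < r ∧ 0 < R (q.1, η)} from ⟨hη, hR⟩),
              max_eq_left hR.le]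
          · rw [indicator_of_notMem (fun hmem => hR hmem.2), max_eq_right (not_lt.1 hR)]
            simp
        rw [he]
        have hcX : ContinuousAt (fun q : ℂ × (ℂ × ℂ) => XX R f h (q.1, η)) (ζ₀, p₀) := by
          have hc0 : ContinuousAt (fun q : ℂ × (ℂ × ℂ) => ((q.1, η) : ℂ × ℂ)) (ζ₀, p₀) := by fun_prop
          have hc1 : ContinuousAt (XX R f h) (ζ₀, η) :=
            (G5b_XX H.cr hF).continuousAt ((hO.inter (G5b_Bo_open r)).mem_nhds ⟨hsO, hs0⟩)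
          exact ContinuousAt.comp (g := XX R f h)
            (f := fun q : ℂ × (ℂ × ℂ) => ((q.1, η) : ℂ × ℂ)) hc1 hc0
        have hcP : ContinuousAt (fun q : ℂ × (ℂ × ℂ) => PH R (q.1, η) q.2) (ζ₀, p₀) := by
          have hc0 : ContinuousAt (fun q : ℂ × (ℂ × ℂ) => (((q.1, η), q.2) : (ℂ × ℂ) × (ℂ × ℂ)))
            (ζ₀, p₀) := by fun_prop
          have hc1 : ContinuousAt (fun q : (ℂ × ℂ) × (ℂ × ℂ) => PH R q.1 q.2) ((ζ₀, η), p₀) :=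
            (G5b_PHc H.cr).continuousAt
              (((G5b_Bo_open r).prod isOpen_univ).mem_nhds ⟨hs0, mem_univ _⟩)
          exact ContinuousAt.comp (g := fun q : (ℂ × ℂ) × (ℂ × ℂ) => PH R q.1 q.2)
            (f := fun q : ℂ × (ℂ × ℂ) => (((q.1, η), q.2) : (ℂ × ℂ) × (ℂ × ℂ))) hc1 hc0
        have hcm : ContinuousAt (fun q : ℂ × (ℂ × ℂ) => ((max (R (q.1, η)) 0 : ℝ) : ℂ)) (ζ₀, p₀) := by
          have : ContinuousAt (fun q : ℂ × (ℂ × ℂ) => max (R (q.1, η)) 0) (ζ₀, p₀) :=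
            hcR'.max continuousAt_const
          exact Complex.continuous_ofReal.continuousAt.comp this
        refine ((continuousAt_const.mul hcm).mul hcX).div (hcP.pow 3) ?_
        have h1 := G5b_PH_ge H.cr (s := (ζ₀, η)) hs0 (hB hp₀) hneg le_rfl
        have h2 : 0 < ‖PH R (ζ₀, η) p₀‖ := by linarith
        exact pow_ne_zero 3 (norm_pos_iff.1 h2)
    · have he : (fun q : ℂ × (ℂ × ℂ) => G5b_F r R f h q.1 q.2 η) = fun _ => (0 : ℂ) := by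
        funext q
        unfold G5b_F
        rw [indicator_of_notMem (fun hmem => hη hmem.1)]
      rw [he]
      exact continuousAt_const

/-- **TARGET** -/
theorem kk_hol {r κ L M : ℝ} {R : ℂ × ℂ → ℝ} {f h : ℂ × ℂ → ℂ} (H : Ni r κ L M R f h) :
    (∀ θ : ℝ, 0 < θ → ∃ M' : ℝ, ∀ ζ : ℂ, ‖ζ‖ < κ → ∀ p ∈ Om r κ R, θ ≤ R p →
      ‖kk r R f h ζ p‖ ≤ M') ∧
    (∀ ζ : ℂ, ‖ζ‖ < κ → DifferentiableOn ℂ (kk r R f h ζ) (Om r κ R)) ∧
    Measurable (({q : ℂ × (ℂ × ℂ) | ‖q.1‖ < κ ∧ q.2 ∈ Om r κ R}).indicator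
      (fun q => kk r R f h q.1 q.2)) ∧
    ContinuousOn (fun q : ℂ × (ℂ × ℂ) => kk r R f h q.1 q.2) (ball 0 κ ×ˢ Om r κ R) := by
  refine ⟨G5b_p1 H, G5b_p2 H, ?_, G5b_p4 H⟩
  classical
  have ho : IsOpen {q : ℂ × (ℂ × ℂ) | ‖q.1‖ < κ ∧ q.2 ∈ Om r κ R} :=
    (isOpen_lt continuous_fst.norm continuous_const).inter
      ((G5b_Om_open H.cr H.κr).preimage continuous_snd)
  have hc : ContinuousOn (fun q : ℂ × (ℂ × ℂ) => kk r R f h q.1 q.2)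
      {q : ℂ × (ℂ × ℂ) | ‖q.1‖ < κ ∧ q.2 ∈ Om r κ R} := by
    refine (G5b_p4 H).mono ?_
    rintro ⟨a, b⟩ ⟨h1, h2⟩
    exact ⟨by simpa using h1, h2⟩
  rw [← Set.piecewise_eq_indicator]
  exact hc.measurable_piecewise continuousOn_const ho.measurableSet

end Pool.Agent.P157G
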