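import Mathlib
import Pool.Agent.H720R2.HP.Kern
import Pool.Agent.P157G.KKh

set_option autoImplicit false

open MeasureTheory Metric Set Filter Topology Complex

namespace Pool.Agent.P157G

open Pool.Agent.P157D (d1 d2 CR Bo)

/-- holomorphy of parametric integrals of holomorphic functions, dominated version -/
theorem G5c_hol {U : Set ℂ} (hU : IsOpen U) (μ : Measure ℂ) (F : ℂ → ℂ → ℂ) (B : ℂ → ℝ)
    (hB : Integrable B μ) (hm : ∀ l ∈ U, AEStronglyMeasurable (F l) μ)
    (hd : ∀ᵐ t ∂μ, DifferentiableOn ℂ (fun l => F l t) U)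
    (hb : ∀ᵐ t ∂μ, ∀ l ∈ U, ‖F l t‖ ≤ B t) :
    DifferentiableOn ℂ (fun l => ∫ t, F l t ∂μ) U := by
  intro l₀ hl₀
  obtain ⟨ρ, hρ, hball⟩ := Metric.isOpen_iff.mp hU l₀ hl₀
  set r : ℝ := ρ / 3 with hr
  have hr0 : 0 < r := by positivity
  have hsub : ∀ l ∈ Metric.ball l₀ r, Metric.closedBall l r ⊆ U := by
    intro l hl z hz
    apply hball
    rw [Metric.mem_ball] at hl ⊢
    rw [Metric.mem_closedBall] at hz
    have := dist_triangle z l l₀
    linarith
  have hballU : Metric.ball l₀ r ⊆ U := fun l hl =>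
    hsub l hl (Metric.mem_closedBall_self hr0.le)
  have hderiv : ∀ᵐ t ∂μ, ∀ l ∈ Metric.ball l₀ r,
      HasDerivAt (fun l => F l t) (deriv (fun l => F l t) l) l := by
    filter_upwards [hd] with t ht l hl
    exact ((ht l (hballU hl)).differentiableAt (hU.mem_nhds (hballU hl))).hasDerivAt
  have hbound : ∀ᵐ t ∂μ, ∀ l ∈ Metric.ball l₀ r, ‖deriv (fun l => F l t) l‖ ≤ B t / r := by
    filter_upwards [hd, hb] with t ht hbt l hl
    apply Complex.norm_deriv_le_of_forall_mem_sphere_norm_le hr0
    · have h1 : DifferentiableOn ℂ (fun l => F l t) (Metric.closedBall l r) :=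
        ht.mono (hsub l hl)
      exact h1.diffContOnCl_ball le_rfl
    · intro z hz
      exact hbt z (hsub l hl (Metric.sphere_subset_closedBall hz))
  have hl₀b : l₀ ∈ Metric.ball l₀ r := Metric.mem_ball_self hr0
  have hmeas : AEStronglyMeasurable (fun t => deriv (fun l => F l t) l₀) μ := by
    set h : ℕ → ℂ := fun n => ((r / ((n : ℝ) + 2) : ℝ) : ℂ) with hh
    have hpos : ∀ n : ℕ, 0 < r / ((n : ℝ) + 2) := fun n => by positivity
    have hh0 : ∀ n, h n ≠ 0 := fun n => by
      have := (hpos n).ne'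
      simp only [hh]
      exact_mod_cast this
    have hhU : ∀ n, l₀ + h n ∈ U := fun n => by
      apply hballU
      rw [Metric.mem_ball, dist_eq_norm, add_sub_cancel_left, hh]
      simp only
      rw [Complex.norm_real, Real.norm_eq_abs, abs_of_pos (hpos n), div_lt_iff₀ (by positivity)]
      have : (0 : ℝ) ≤ n := Nat.cast_nonneg _
      nlinarith
    have htend : Tendsto h atTop (𝓝[≠] 0) := by
      apply tendsto_nhdsWithin_of_tendsto_nhds_of_eventually_within
      · have h1 : Tendsto (fun n : ℕ => r / ((n : ℝ) + 2)) atTop (𝓝 0) := by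
          apply Tendsto.div_atTop tendsto_const_nhds
          exact tendsto_atTop_add_const_right _ _ tendsto_natCast_atTop_atTop
        have h2 := (Complex.continuous_ofReal.tendsto 0).comp h1
        rw [Complex.ofReal_zero] at h2
        exact h2
      · exact Eventually.of_forall hh0
    apply aestronglyMeasurable_of_tendsto_ae atTop
      (f := fun n t => (h n)⁻¹ • (F (l₀ + h n) t - F l₀ t))
    · intro n
      show AEStronglyMeasurable ((h n)⁻¹ • (F (l₀ + h n) - F l₀)) μ
      exact ((hm _ (hhU n)).sub (hm _ hl₀)).const_smul _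
    · filter_upwards [hderiv] with t ht
      have h1 := hasDerivAt_iff_tendsto_slope_zero.mp (ht l₀ hl₀b)
      exact h1.comp htend
  have hFint : Integrable (F l₀) μ := by
    apply Integrable.mono' hB (hm l₀ hl₀)
    filter_upwards [hb] with t ht
    exact ht l₀ hl₀
  have hFm : ∀ᶠ l in 𝓝 l₀, AEStronglyMeasurable (F l) μ := by
    filter_upwards [hU.mem_nhds hl₀] with l hl
    exact hm l hl
  have key := hasDerivAt_integral_of_dominated_loc_of_deriv_le (μ := μ) (F := F)
    (F' := fun l t => deriv (fun l => F l t) l) (bound := fun t => B t / r)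
    (Metric.ball_mem_nhds l₀ hr0) hFm hFint hmeas hbound (hB.div_const r) hderiv
  exact key.2.differentiableAt.differentiableWithinAt

/-- **TARGET** -/
theorem U2_sol {r κ L M : ℝ} {R : ℂ × ℂ → ℝ} {f h : ℂ × ℂ → ℂ} (H : Ni r κ L M R f h)
    {a : ℂ × ℂ} {t : ℝ} (ht : 0 < t) (hb : closedBall a t ⊆ Om r κ R) :
    (∀ y ∈ ball a.2 t, Pool.Agent.H720R2.HP.WD (ball a.1 t) (fun w => U2 r κ R f h (w, y))
      (fun w => kk r R f h w (w, y))) ∧
    (∀ w ∈ ball a.1 t, Pool.Agent.H720R2.HP.WD (ball a.2 t) (fun y => U2 r κ R f h (w, y))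
      (fun _ => 0)) := by
  classical
  have hBo : Om r κ R ⊆ Pool.Agent.P157D.Bo r := fun x hx => ⟨hx.1.trans H.κr, hx.2.1⟩
  have hRc : ContinuousOn R (closedBall a t) :=
    (H.cr.smooth.continuousOn.mono hBo).mono hb
  have hcpt : IsCompact (closedBall a t) := isCompact_closedBall a t
  obtain ⟨x0, hx0, hmin⟩ := hcpt.exists_isMinOn ⟨a, mem_closedBall_self ht.le⟩ hRc
  have hθ : 0 < R x0 := (hb hx0).2.2
  obtain ⟨hk1, hk2, hk3, -⟩ := kk_hol H
  obtain ⟨M', hM'⟩ := hk1 (R x0) hθ
  have hin : ∀ w ∈ ball a.1 t, ∀ y ∈ ball a.2 t, (w, y) ∈ closedBall a t := by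
    intro w hw y hy
    rw [mem_closedBall, Prod.dist_eq]
    exact max_le (mem_ball.1 hw).le (mem_ball.1 hy).le
  have hOm : ∀ w ∈ ball a.1 t, ∀ y ∈ ball a.2 t, (w, y) ∈ Om r κ R :=
    fun w hw y hy => hb (hin w hw y hy)
  have hbd : ∀ ζ : ℂ, ‖ζ‖ < κ → ∀ w ∈ ball a.1 t, ∀ y ∈ ball a.2 t,
      ‖kk r R f h ζ (w, y)‖ ≤ max M' 0 := fun ζ hζ w hw y hy =>
    (hM' ζ hζ _ (hOm w hw y hy) (hmin (hin w hw y hy))).trans (le_max_left _ _)
  constructor
  · intro y hy
    set B : ℂ → ℂ → ℂ := fun ζ w => if ‖ζ‖ < κ ∧ w ∈ ball a.1 t then kk r R f h ζ (w, y) else 0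
      with hB
    have hw := Pool.Agent.H720R2.HP.CT_weak (Ω := ball a.1 t) (B := B) (ρ := κ) (M := max M' 0)
      isOpen_ball H.κ0.le (le_max_right _ _) ?_ ?_ ?_
    · refine hw.congr isOpen_ball ?_ ?_
      · intro w hw
        unfold Pool.Agent.H720R2.HP.CT U2
        rw [← integral_indicator measurableSet_ball]
        congr 2
        funext ζ
        by_cases hζ : ζ ∈ ball (0 : ℂ) κ
        · rw [indicator_of_mem hζ]
          have h1 : ‖ζ‖ < κ := mem_ball_zero_iff.1 hζ
          simp only [hB]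
          rw [if_pos ⟨h1, hw⟩]
        · rw [indicator_of_notMem hζ]
          have h1 : ¬ ‖ζ‖ < κ := fun h => hζ (mem_ball_zero_iff.2 h)
          simp only [hB]
          rw [if_neg (fun h => h1 h.1), zero_div]
      · intro w hw
        simp only [hB]
        rw [if_pos ⟨(hOm w hw y hy).1, hw⟩]
    · have hm1 : Measurable (fun p : ℂ × ℂ => (p.1, (p.2, y))) :=
        measurable_fst.prodMk (measurable_snd.prodMk measurable_const)
      have hm2 := hk3.comp hm1
      have hms : MeasurableSet {p : ℂ × ℂ | ‖p.1‖ < κ ∧ p.2 ∈ ball a.1 t} :=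
        (measurableSet_lt measurable_fst.norm measurable_const).inter
          (measurable_snd measurableSet_ball)
      have hm3 := hm2.indicator hms
      convert hm3 using 1
      funext p
      by_cases hp : ‖p.1‖ < κ ∧ p.2 ∈ ball a.1 t
      · rw [indicator_of_mem (show p ∈ {p : ℂ × ℂ | ‖p.1‖ < κ ∧ p.2 ∈ ball a.1 t} from hp)]
        simp only [hB, Function.comp]
        rw [if_pos hp, indicator_of_mem]
        exact ⟨hp.1, hOm _ hp.2 y hy⟩
      · rw [indicator_of_notMem (show p ∉ {p : ℂ × ℂ | ‖p.1‖ < κ ∧ p.2 ∈ ball a.1 t} from hp)]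
        simp only [hB]
        rw [if_neg hp]
    · intro ζ
      by_cases hζ : ‖ζ‖ < κ
      · have h1 : DifferentiableOn ℂ (fun w : ℂ => kk r R f h ζ (w, y)) (ball a.1 t) := by
          refine (hk2 ζ hζ).comp (t := Om r κ R) (f := fun w : ℂ => (w, y)) ?_ ?_
          · exact (differentiable_id.prodMk (differentiable_const y)).differentiableOn
          · intro w hw
            exact hOm w hw y hy
        refine h1.congr ?_
        intro w hw
        simp only [hB]
        rw [if_pos ⟨hζ, hw⟩]
      · have h1 : B ζ = fun _ => 0 := by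
          funext w
          simp only [hB]
          rw [if_neg (fun h => hζ h.1)]
        rw [h1]
        exact differentiableOn_const _
    · intro ζ w
      simp only [hB]
      by_cases hζ : ‖ζ‖ < κ
      · rw [indicator_of_mem (mem_ball_zero_iff.2 hζ)]
        split_ifs with h1
        · exact hbd ζ hζ w h1.2 y hy
        · rw [norm_zero]
          exact le_max_right _ _
      · rw [if_neg (fun h => hζ h.1), norm_zero]
        exact indicator_nonneg (fun _ _ => le_max_right _ _) _
  · intro w hw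
    have hint : IntegrableOn (fun ζ : ℂ => max M' 0 * ‖w - ζ‖⁻¹) (ball 0 κ) := by
      have h1 := Pool.Agent.H720R2.HP.dom_int w κ (max M' 0)
      have h2 : (fun ζ : ℂ => (ball (0 : ℂ) κ).indicator (fun _ => max M' 0) ζ * ‖w - ζ‖⁻¹) =
          (ball (0 : ℂ) κ).indicator (fun ζ => max M' 0 * ‖w - ζ‖⁻¹) := by
        funext ζ
        by_cases hζ : ζ ∈ ball (0 : ℂ) κ
        · rw [indicator_of_mem hζ, indicator_of_mem hζ]
        · rw [indicator_of_notMem hζ, indicator_of_notMem hζ, zero_mul]
      rw [h2] at h1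
      exact (integrable_indicator_iff measurableSet_ball).1 h1
    have hd : DifferentiableOn ℂ (fun y => ∫ ζ in ball (0 : ℂ) κ, kk r R f h ζ (w, y) / (w - ζ))
        (ball a.2 t) := by
      refine G5c_hol isOpen_ball (volume.restrict (ball (0 : ℂ) κ))
        (fun y ζ => kk r R f h ζ (w, y) / (w - ζ)) (fun ζ => max M' 0 * ‖w - ζ‖⁻¹) hint ?_ ?_ ?_
      · intro y hy
        have hm1 : Measurable (fun ζ : ℂ => (ζ, (w, y))) :=
          measurable_id.prodMk measurable_const
        have hm2 := (hk3.comp hm1).div (measurable_const.sub measurable_id : Measurable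
          (fun ζ : ℂ => w - ζ))
        refine hm2.aestronglyMeasurable.congr ?_
        rw [Filter.EventuallyEq, ae_restrict_iff' measurableSet_ball]
        refine Eventually.of_forall fun ζ hζ => ?_
        have hmem : (ζ, (w, y)) ∈ {q : ℂ × (ℂ × ℂ) | ‖q.1‖ < κ ∧ q.2 ∈ Om r κ R} :=
          ⟨mem_ball_zero_iff.1 hζ, hOm w hw y hy⟩
        simp only [Pi.div_apply, Function.comp]
        rw [indicator_of_mem hmem]
        rfl
      · rw [ae_restrict_iff' measurableSet_ball]
        refine Eventually.of_forall fun ζ hζ => ?_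
        have h1 : DifferentiableOn ℂ (fun y : ℂ => kk r R f h ζ (w, y)) (ball a.2 t) := by
          refine (hk2 ζ (mem_ball_zero_iff.1 hζ)).comp (t := Om r κ R)
            (f := fun y : ℂ => (w, y)) ?_ ?_
          · exact ((differentiable_const w).prodMk differentiable_id).differentiableOn
          · intro y hy
            exact hOm w hw y hy
        exact h1.div_const _
      · rw [ae_restrict_iff' measurableSet_ball]
        refine Eventually.of_forall fun ζ hζ y hy => ?_
        rw [norm_div, div_eq_mul_inv]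
        gcongr
        exact hbd ζ (mem_ball_zero_iff.1 hζ) w hw y hy
    have hd2 : DifferentiableOn ℂ (fun y => U2 r κ R f h (w, y)) (ball a.2 t) := by
      unfold U2
      exact hd.const_mul _
    have hC : ContDiffOn ℝ 1 (fun y => U2 r κ R f h (w, y)) (ball a.2 t) := by
      have h1 : ContDiffOn ℂ 1 (fun y => U2 r κ R f h (w, y)) (ball a.2 t) :=
        hd2.contDiffOn isOpen_ball
      exact h1.restrict_scalars ℝ
    refine (Pool.Agent.H720R2.HP.WD.of_C1 isOpen_ball hC).congr isOpen_ball (fun _ _ => rfl) ?_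
    intro y hy
    exact (Pool.Agent.H720R2.HP.db_holo (hd2.differentiableAt (isOpen_ball.mem_nhds hy))).symm

end Pool.Agent.P157G
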