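import Mathlib
import Pool.Agent.H720R2.HP.Weak
import Pool.Agent.P157G.U1s
import Pool.Agent.P157G.U2s
import Pool.Agent.P157G.Bnd
import Pool.Agent.P157G.Reg

set_option autoImplicit false

open MeasureTheory Metric Set Filter Topology Complex

namespace Pool.Agent.P157G

open Pool.Agent.P157D (d1 d2 CR Bo)

theorem G6_glue {D : Set (ℂ × ℂ)} {M : ℝ} {f h u : ℂ × ℂ → ℂ}
    (H : ∀ a ∈ D, ∃ t : ℝ, 0 < t ∧ So (ball a t) M f h u) : So D M f h u where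
  u1 := by
    intro a ha
    obtain ⟨t, ht, h1⟩ := H a ha
    exact ((h1.u1 a (mem_ball_self ht)).contDiffAt (ball_mem_nhds a ht)).contDiffWithinAt
  e1 := by
    intro a ha
    obtain ⟨t, ht, h1⟩ := H a ha
    exact h1.e1 a (mem_ball_self ht)
  e2 := by
    intro a ha
    obtain ⟨t, ht, h1⟩ := H a ha
    exact h1.e2 a (mem_ball_self ht)
  ub := by
    intro a ha
    obtain ⟨t, ht, h1⟩ := H a ha
    exact h1.ub a (mem_ball_self ht)

theorem G6_Fm_mono {D D' : Set (ℂ × ℂ)} {M : ℝ} {f h : ℂ × ℂ → ℂ} (H : Fm D M f h) (hD : D' ⊆ D) :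
    Fm D' M f h where
  f1 := H.f1.mono hD
  h1 := H.h1.mono hD
  cl := fun x hx => H.cl x (hD hx)
  fb := fun x hx => H.fb x (hD hx)
  hb := fun x hx => H.hb x (hD hx)

theorem G6_So_mono {D D' : Set (ℂ × ℂ)} {M : ℝ} {f h u : ℂ × ℂ → ℂ} (H : So D M f h u) (hD : D' ⊆ D) :
    So D' M f h u where
  u1 := H.u1.mono hD
  e1 := fun x hx => H.e1 x (hD hx)
  e2 := fun x hx => H.e2 x (hD hx)
  ub := fun x hx => H.ub x (hD hx)

theorem G6_open {r κ L : ℝ} {R : ℂ × ℂ → ℝ} (hR : CR r L R) (hκ : κ ≤ r) : IsOpen (Om r κ R) := by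
  have hS : IsOpen {x : ℂ × ℂ | ‖x.1‖ < κ ∧ ‖x.2‖ < r} :=
    (isOpen_lt continuous_fst.norm continuous_const).inter (isOpen_lt continuous_snd.norm continuous_const)
  have hc : ContinuousOn R {x : ℂ × ℂ | ‖x.1‖ < κ ∧ ‖x.2‖ < r} :=
    hR.smooth.continuousOn.mono fun x hx => ⟨hx.1.trans_le hκ, hx.2⟩
  have h := hc.isOpen_inter_preimage hS (isOpen_Ioi (a := (0 : ℝ)))
  have e : Om r κ R = {x : ℂ × ℂ | ‖x.1‖ < κ ∧ ‖x.2‖ < r} ∩ R ⁻¹' Ioi 0 := by
    ext x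
    simp only [Om, Set.mem_ofPred_eq, mem_inter_iff, mem_preimage, mem_Ioi, and_assoc]
  rw [e]
  exact h

theorem G6_CR {r L : ℝ} {R : ℂ × ℂ → ℝ} (hR : CR r L R) (c : ℝ) : CR r L (fun x => R x - c) where
  r0 := hR.r0
  r1 := hR.r1
  L1 := hR.L1
  smooth := hR.smooth.sub contDiffOn_const
  dlo := by
    intro x hx
    have h := hR.dlo x hx
    unfold Pool.Agent.P157D.d1 at h ⊢
    rw [fderiv_sub_const]
    exact h
  dhi := by
    intro x hx
    rw [fderiv_sub_const]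
    exact hR.dhi x hx
  dlip := by
    intro x hx y hy
    rw [fderiv_sub_const, fderiv_sub_const]
    exact hR.dlip x hx y hy
  conc := by
    intro x hx y hy
    rw [fderiv_sub_const]
    have := hR.conc x hx y hy
    linarith

theorem G6_slice1 {U : ℂ × ℂ → ℂ} {w y : ℂ} (hU : DifferentiableAt ℝ U (w, y)) :
    Pool.Agent.H720R2.HP.db (fun w => U (w, y)) w = db1 U (w, y) := by
  have h1 : HasFDerivAt (fun w : ℂ => (w, y)) ((ContinuousLinearMap.id ℝ ℂ).prod (0 : ℂ →L[ℝ] ℂ)) w :=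
    (hasFDerivAt_id w).prodMk (hasFDerivAt_const y w)
  have h2 := hU.hasFDerivAt.comp w h1
  have h3 : fderiv ℝ (fun w => U (w, y)) w = (fderiv ℝ U (w, y)).comp
      ((ContinuousLinearMap.id ℝ ℂ).prod (0 : ℂ →L[ℝ] ℂ)) := h2.fderiv
  unfold Pool.Agent.H720R2.HP.db db1
  rw [h3]
  simp

theorem G6_slice2 {U : ℂ × ℂ → ℂ} {w y : ℂ} (hU : DifferentiableAt ℝ U (w, y)) :
    Pool.Agent.H720R2.HP.db (fun y => U (w, y)) y = db2 U (w, y) := by
  have h1 : HasFDerivAt (fun y : ℂ => (w, y)) ((0 : ℂ →L[ℝ] ℂ).prod (ContinuousLinearMap.id ℝ ℂ)) y :=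
    (hasFDerivAt_const w y).prodMk (hasFDerivAt_id y)
  have h2 := hU.hasFDerivAt.comp y h1
  have h3 : fderiv ℝ (fun y => U (w, y)) y = (fderiv ℝ U (w, y)).comp
      ((0 : ℂ →L[ℝ] ℂ).prod (ContinuousLinearMap.id ℝ ℂ)) := h2.fderiv
  unfold Pool.Agent.H720R2.HP.db db2
  rw [h3]
  simp

theorem G6_mem {a : ℂ × ℂ} {t : ℝ} {w y : ℂ} (hw : w ∈ ball a.1 t) (hy : y ∈ ball a.2 t) :
    (w, y) ∈ ball a t := by
  rw [mem_ball] at hw hy ⊢
  rw [Prod.dist_eq]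
  exact max_lt hw hy

theorem G6_local {r κ L M C : ℝ} {R : ℂ × ℂ → ℝ} {f h : ℂ × ℂ → ℂ} (H : Ni r κ L M R f h)
    (hb : ∀ p ∈ Om r κ R, ‖U1 r R h p + U2 r κ R f h p‖ ≤ C) :
    So (Om r κ R) C f h (fun p => U1 r R h p + U2 r κ R f h p) := by
  apply G6_glue
  intro a ha
  have hO := G6_open H.cr H.κr.le
  obtain ⟨t, ht, hball⟩ := Metric.nhds_basis_closedBall.mem_iff.1 (hO.mem_nhds ha)
  have hsub : ball a t ⊆ Om r κ R := ball_subset_closedBall.trans hball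
  obtain ⟨h11, h12⟩ := U1_sol H
  obtain ⟨h21, h22⟩ := U2_sol H ht hball
  have hd : ∀ p ∈ Om r κ R, DifferentiableAt ℝ (U1 r R h) p := fun p hp =>
    ((h11 p hp).contDiffAt (hO.mem_nhds hp)).differentiableAt one_ne_zero
  obtain ⟨O, hO1, hO2, hO3⟩ := H.fm
  have hOm : Om r κ R ⊆ O := fun x hx => hO2 ⟨hx.1.le, hx.2.1, hx.2.2.le⟩
  refine ⟨t / 2, half_pos ht, reg_wd ht (G6_Fm_mono hO3 (hsub.trans hOm)) (fun x hx => hb x (hsub hx)) ?_ ?_⟩
  · intro y hy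
    have hc : ContDiffOn ℝ 1 (fun w => U1 r R h (w, y)) (ball a.1 t) := by
      have h5 : ContDiffOn ℝ 1 (fun w : ℂ => (w, y)) (ball a.1 t) :=
        (contDiff_id.prodMk contDiff_const).contDiffOn
      exact h11.comp h5 fun w hw => hsub (G6_mem hw hy)
    have h6 := (Pool.Agent.H720R2.HP.WD.of_C1 isOpen_ball hc).add isOpen_ball (h21 y hy)
    refine h6.congr isOpen_ball (fun _ _ => rfl) fun w hw => ?_
    have hp := hsub (G6_mem hw hy)
    rw [G6_slice1 (hd _ hp), (h12 _ hp).2]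
    ring
  · intro w hw
    have hc : ContDiffOn ℝ 1 (fun y => U1 r R h (w, y)) (ball a.2 t) := by
      have h5 : ContDiffOn ℝ 1 (fun y : ℂ => (w, y)) (ball a.2 t) :=
        (contDiff_const.prodMk contDiff_id).contDiffOn
      exact h11.comp h5 fun y hy => hsub (G6_mem hw hy)
    have h6 := (Pool.Agent.H720R2.HP.WD.of_C1 isOpen_ball hc).add isOpen_ball (h22 w hw)
    refine h6.congr isOpen_ball (fun _ _ => rfl) fun y hy => ?_
    have hp := hsub (G6_mem hw hy)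
    rw [G6_slice2 (hd _ hp), (h12 _ hp).1, add_zero]

/-- **TARGET** -/
theorem slv_nice {r L : ℝ} (hr : 0 < r) (hr1 : r ≤ 1) (hL : 1 ≤ L) : ∃ C : ℝ, 0 ≤ C ∧
    ∀ (κ M : ℝ) (R : ℂ × ℂ → ℝ) (f h : ℂ × ℂ → ℂ), Ni r κ L M R f h →
      ∃ u, So (Om r κ R) (C * M) f h u := by
  obtain ⟨C1, hC1, hb1⟩ := U1_bd hr hr1 hL
  obtain ⟨C2, hC2, hb2⟩ := U2_bd hr hr1 hL
  refine ⟨C1 + C2, add_nonneg hC1 hC2, fun κ M R f h H => ⟨_, G6_local H fun p hp => ?_⟩⟩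
  have h1 := hb1 κ M R f h H p hp
  have h2 := hb2 κ M R f h H p hp
  calc ‖U1 r R h p + U2 r κ R f h p‖ ≤ ‖U1 r R h p‖ + ‖U2 r κ R f h p‖ := norm_add_le _ _
    _ ≤ (C1 + C2) * M := by linarith

/-- **TARGET** -/
theorem slv_model {r L : ℝ} (hr : 0 < r) (hr1 : r ≤ 1) (hL : 1 ≤ L) : ∃ C : ℝ, 0 ≤ C ∧
    ∀ (κ : ℝ) (R : ℂ × ℂ → ℝ), CR r L R → 0 < κ → κ ≤ r →
      (∀ x : ℂ × ℂ, ‖x.1‖ < κ → r / 2 ≤ ‖x.2‖ → ‖x.2‖ < r → R x < 0) →
      Slv (Om r κ R) (Om r κ R) C := by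
  obtain ⟨C, hC, hn⟩ := slv_nice hr hr1 hL
  refine ⟨C, hC, fun κ R hR hκ0 hκr hsl f h M hF => ?_⟩
  set c : ℕ → ℝ := fun n => 1 / ((n : ℝ) + 1) with hc
  set kn : ℕ → ℝ := fun n => κ * (1 - 1 / ((n : ℝ) + 2)) with hkn
  have hcpos : ∀ n, 0 < c n := fun n => by positivity
  have hk0 : ∀ n, 0 < kn n := by
    intro n
    have h1 : (0 : ℝ) < (n : ℝ) + 2 := by positivity
    have h2 : 1 / ((n : ℝ) + 2) < 1 := by
      rw [div_lt_one h1]
      have : (0 : ℝ) ≤ n := Nat.cast_nonneg n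
      linarith
    exact mul_pos hκ0 (by linarith)
  have hk1 : ∀ n, kn n < κ := by
    intro n
    have h1 : 0 < 1 / ((n : ℝ) + 2) := by positivity
    have h2 : κ * (1 - 1 / ((n : ℝ) + 2)) < κ * 1 := mul_lt_mul_of_pos_left (by linarith) hκ0
    rw [mul_one] at h2
    exact h2
  have hclim : Tendsto c atTop (𝓝 0) := tendsto_one_div_add_atTop_nhds_zero_nat
  have hklim : Tendsto kn atTop (𝓝 κ) := by
    have h1 : Tendsto (fun n : ℕ => 1 / ((n : ℝ) + 2)) atTop (𝓝 0) := by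
      have h2 := (tendsto_add_atTop_iff_nat 1).2 hclim
      refine h2.congr fun n => ?_
      rw [hc]
      push_cast
      congr 1
      ring
    have h3 := (tendsto_const_nhds (x := (1 : ℝ))).sub h1
    have h4 := h3.const_mul κ
    rw [sub_zero, mul_one] at h4
    exact h4
  have hNi : ∀ n, Ni r (kn n) L M (fun x => R x - c n) f h := by
    intro n
    refine ⟨G6_CR hR (c n), hk0 n, (hk1 n).trans_le hκr, ?_, ?_⟩
    · intro x h1 h2 h3
      have h4 := hsl x (h1.trans_lt (hk1 n)) h2 h3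
      have h5 := hcpos n
      linarith
    · refine ⟨Om r κ R, G6_open hR hκr, ?_, hF⟩
      rintro x ⟨h1, h2, h3⟩
      have h5 := hcpos n
      exact ⟨h1.trans_lt (hk1 n), h2, by linarith⟩
  choose un hun using fun n => hn (kn n) M _ f h (hNi n)
  have hin : ∀ a ∈ Om r κ R, ∃ t : ℝ, 0 < t ∧ ∃ n0 : ℕ, ∀ n, n0 ≤ n →
      ball a t ⊆ Om r (kn n) (fun x => R x - c n) := by
    intro a ha
    obtain ⟨κ', hκ1, hκ2⟩ := exists_between ha.1
    obtain ⟨m, hm0, hm1⟩ := exists_between ha.2.2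
    have hO : IsOpen (Om r κ' (fun x => R x - m)) := G6_open (G6_CR hR m) (hκ2.le.trans hκr)
    have haO : a ∈ Om r κ' (fun x => R x - m) := ⟨hκ1, ha.2.1, by linarith⟩
    obtain ⟨t, ht, hball⟩ := Metric.isOpen_iff.1 hO a haO
    have h1 := ((tendsto_order.1 hklim).1 κ' hκ2).and ((tendsto_order.1 hclim).2 m hm0)
    obtain ⟨n0, hn0⟩ := eventually_atTop.1 h1
    refine ⟨t, ht, n0, fun n hn x hx => ?_⟩
    obtain ⟨g1, g2, g3⟩ := hball hx
    obtain ⟨g4, g5⟩ := hn0 n hn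
    exact ⟨g1.trans g4, g2, by linarith⟩
  set 𝒰 : Ultrafilter ℕ := Filter.hyperfilter ℕ with h𝒰
  have hle : (𝒰 : Filter ℕ) ≤ atTop := Nat.hyperfilter_le_atTop
  have hex : ∀ x, x ∈ Om r κ R → ∃ y : ℂ, Tendsto (fun n => un n x) (𝒰 : Filter ℕ) (𝓝 y) := by
    intro x hx
    obtain ⟨t, ht, n0, hn0⟩ := hin x hx
    have hbd : ∀ᶠ n in (𝒰 : Filter ℕ), un n x ∈ closedBall (0 : ℂ) (C * M) := by
      refine hle (eventually_atTop.2 ⟨n0, fun n hn => ?_⟩)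
      rw [mem_closedBall_zero_iff]
      exact (hun n).ub x (hn0 n hn (mem_ball_self ht))
    obtain ⟨y, -, hy⟩ := (isCompact_closedBall (0 : ℂ) (C * M)).ultrafilter_le_nhds
      (Ultrafilter.map (fun n => un n x) 𝒰) (by
        rw [le_principal_iff]
        exact hbd)
    exact ⟨y, hy⟩
  choose! u hu using hex
  refine ⟨u, G6_glue fun a ha => ?_⟩
  obtain ⟨t, ht, n0, hn0⟩ := hin a ha
  have hsubO : ball a t ⊆ Om r κ R := by
    intro x hx
    obtain ⟨g1, g2, g3⟩ := hn0 n0 le_rfl hx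
    have := hcpos n0
    exact ⟨g1.trans (hk1 n0), g2, by linarith⟩
  refine ⟨t, ht, reg_lim isOpen_ball (𝒰 : Filter ℕ) (G6_Fm_mono hF hsubO) (f' := fun _ => f) (h' := fun _ => h)
    (s := fun n => if n0 ≤ n then un n else un n0) (fun _ => G6_Fm_mono hF hsubO) ?_ ?_ ?_⟩
  · intro n
    by_cases hn : n0 ≤ n
    · simp only [if_pos hn]
      exact G6_So_mono (hun n) (hn0 n hn)
    · simp only [if_neg hn]
      exact G6_So_mono (hun n0) (hn0 n0 le_rfl)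
  · intro ε hε
    refine Eventually.of_forall fun n x _ => ?_
    simp only [sub_self, norm_zero]
    exact ⟨hε.le, hε.le⟩
  · intro x hx
    refine (hu x (hsubO hx)).congr' ?_
    refine hle (eventually_atTop.2 ⟨n0, fun n hn => ?_⟩)
    simp only [if_pos hn]

end Pool.Agent.P157G
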