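import Mathlib
import Pool.Agent.Helper540.Holo
import Pool.Agent.P157G.Defs

set_option autoImplicit false

open MeasureTheory Metric Set Filter Topology Complex

namespace Pool.Agent.P157G

open Pool.Agent.P157D (d1 d2 CR Bo)

/-- the antilinear part of the derivative -/
noncomputable def G7a_Db (u : ℂ × ℂ → ℂ) (x v : ℂ × ℂ) : ℂ :=
  (fderiv ℝ u x v + Complex.I * fderiv ℝ u x (Complex.I • v)) / 2

theorem G7a_db1 (u : ℂ × ℂ → ℂ) (x : ℂ × ℂ) : db1 u x = G7a_Db u x (1, 0) := by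
  simp [db1, G7a_Db]

theorem G7a_db2 (u : ℂ × ℂ → ℂ) (x : ℂ × ℂ) : db2 u x = G7a_Db u x (0, 1) := by
  simp [db2, G7a_Db]

theorem G7a_lin (L : ℂ × ℂ →L[ℝ] ℂ) (v : ℂ × ℂ) :
    L v = v.1.re * L (1, 0) + v.1.im * L (Complex.I, 0) + v.2.re * L (0, 1) +
      v.2.im * L (0, Complex.I) := by
  have h : v = v.1.re • ((1 : ℂ), (0 : ℂ)) + v.1.im • (Complex.I, (0 : ℂ)) +
      v.2.re • ((0 : ℂ), (1 : ℂ)) + v.2.im • ((0 : ℂ), Complex.I) := by
    ext <;> simp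
  conv_lhs => rw [h]
  simp only [map_add, map_smul, Complex.real_smul]

/-- expression of the antilinear part in coordinates -/
theorem G7a_coord (u : ℂ × ℂ → ℂ) (x v : ℂ × ℂ) :
    G7a_Db u x v = starRingEnd ℂ v.1 * db1 u x + starRingEnd ℂ v.2 * db2 u x := by
  unfold G7a_Db db1 db2
  rw [G7a_lin (fderiv ℝ u x) v, G7a_lin (fderiv ℝ u x) (Complex.I • v)]
  have c1 : starRingEnd ℂ v.1 = v.1.re - v.1.im * Complex.I := by
    apply Complex.ext <;> simp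
  have c2 : starRingEnd ℂ v.2 = v.2.re - v.2.im * Complex.I := by
    apply Complex.ext <;> simp
  rw [c1, c2]
  simp only [Prod.smul_fst, Prod.smul_snd, smul_eq_mul, Complex.mul_re, Complex.mul_im,
    Complex.I_re, Complex.I_im, zero_mul, one_mul, zero_sub, zero_add]
  push_cast
  generalize fderiv ℝ u x (1, 0) = a
  generalize fderiv ℝ u x (Complex.I, 0) = b
  generalize fderiv ℝ u x (0, 1) = c
  generalize fderiv ℝ u x (0, Complex.I) = d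
  linear_combination ((v.1.im * b + v.2.im * d) / 2) * Complex.I_sq

/-- chain rule for a holomorphic map -/
theorem G7a_chain {T : ℂ × ℂ → ℂ × ℂ} {u : ℂ × ℂ → ℂ} {x : ℂ × ℂ}
    (hT : DifferentiableAt ℂ T x) (hu : DifferentiableAt ℝ u (T x)) (v : ℂ × ℂ) :
    G7a_Db (fun y => u (T y)) x v = G7a_Db u (T x) (fderiv ℂ T x v) := by
  have hTr : HasFDerivAt T ((fderiv ℂ T x).restrictScalars ℝ) x :=
    hT.hasFDerivAt.restrictScalars ℝ
  have hc : fderiv ℝ (fun y => u (T y)) x =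
      (fderiv ℝ u (T x)).comp ((fderiv ℂ T x).restrictScalars ℝ) :=
    (hu.hasFDerivAt.comp x hTr).fderiv
  unfold G7a_Db
  rw [hc]
  simp [map_smul]

theorem G7a_mul {u w : ℂ × ℂ → ℂ} {x : ℂ × ℂ} (hu : DifferentiableAt ℝ u x)
    (hw : DifferentiableAt ℝ w x) (v : ℂ × ℂ) :
    G7a_Db (fun y => u y * w y) x v = G7a_Db u x v * w x + u x * G7a_Db w x v := by
  have hc := (hu.hasFDerivAt.mul hw.hasFDerivAt).fderiv
  have hc' : fderiv ℝ (fun y => u y * w y) x = u x • fderiv ℝ w x + w x • fderiv ℝ u x := hc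
  unfold G7a_Db
  rw [hc']
  simp only [add_apply, smul_apply, smul_eq_mul]
  ring

theorem G7a_add {u w : ℂ × ℂ → ℂ} {x : ℂ × ℂ} (hu : DifferentiableAt ℝ u x)
    (hw : DifferentiableAt ℝ w x) (v : ℂ × ℂ) :
    G7a_Db (fun y => u y + w y) x v = G7a_Db u x v + G7a_Db w x v := by
  have hc' : fderiv ℝ (fun y => u y + w y) x = fderiv ℝ u x + fderiv ℝ w x :=
    (hu.hasFDerivAt.add hw.hasFDerivAt).fderiv
  unfold G7a_Db
  rw [hc']
  simp only [add_apply]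
  ring

theorem G7a_conjd {g : ℂ × ℂ → ℂ} {x : ℂ × ℂ} (hg : DifferentiableAt ℂ g x) :
    DifferentiableAt ℝ (fun y => starRingEnd ℂ (g y)) x := by
  have h1 : DifferentiableAt ℝ g x := hg.restrictScalars ℝ
  exact (Complex.conjCLE.toContinuousLinearMap.differentiableAt).comp x h1

theorem G7a_conj {g : ℂ × ℂ → ℂ} {x : ℂ × ℂ} (hg : DifferentiableAt ℂ g x) (v : ℂ × ℂ) :
    G7a_Db (fun y => starRingEnd ℂ (g y)) x v = starRingEnd ℂ (fderiv ℂ g x v) := by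
  have h1 : HasFDerivAt g ((fderiv ℂ g x).restrictScalars ℝ) x :=
    hg.hasFDerivAt.restrictScalars ℝ
  have h2 : HasFDerivAt (fun y => starRingEnd ℂ (g y))
      ((Complex.conjCLE : ℂ →L[ℝ] ℂ).comp ((fderiv ℂ g x).restrictScalars ℝ)) x :=
    ((Complex.conjCLE : ℂ →L[ℝ] ℂ).hasFDerivAt).comp x h1
  unfold G7a_Db
  rw [h2.fderiv]
  simp only [ContinuousLinearMap.comp_apply, ContinuousLinearMap.coe_restrictScalars']
  rw [map_smul]
  have : ∀ z : ℂ, ((Complex.conjCLE : ℂ →L[ℝ] ℂ) z) = starRingEnd ℂ z := fun z => rfl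
  rw [this, this]
  simp only [smul_eq_mul, map_mul, Complex.conj_I]
  linear_combination (-(starRingEnd ℂ (fderiv ℂ g x v)) / 2) * Complex.I_sq

/-- the second coordinate derivative data: `x ↦ fderiv ℂ T x w` -/
theorem G7a_smooth {E' : Set (ℂ × ℂ)} (hE' : IsOpen E') {T : ℂ × ℂ → ℂ × ℂ}
    (hT : DifferentiableOn ℂ T E') (n : ℕ) : ContDiffOn ℂ n T E' :=
  Pool.Agent.Helper540.contDiffOn_of_differentiableOn hE' hT n

theorem G7a_dT {E' : Set (ℂ × ℂ)} (hE' : IsOpen E') {T : ℂ × ℂ → ℂ × ℂ}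
    (hT : DifferentiableOn ℂ T E') : ContDiffOn ℂ 1 (fderiv ℂ T) E' := by
  have h2 : ContDiffOn ℂ (2 : ℕ) T E' := G7a_smooth hE' hT 2
  exact h2.fderiv_of_isOpen hE' (by norm_cast)

theorem G7a_symm {E' : Set (ℂ × ℂ)} (hE' : IsOpen E') {T : ℂ × ℂ → ℂ × ℂ}
    (hT : DifferentiableOn ℂ T E') {x : ℂ × ℂ} (hx : x ∈ E') (v w : ℂ × ℂ) :
    fderiv ℂ (fderiv ℂ T) x v w = fderiv ℂ (fderiv ℂ T) x w v := by
  have h2 : ContDiffAt ℂ (2 : ℕ) T x := (G7a_smooth hE' hT 2).contDiffAt (hE'.mem_nhds hx)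
  have := h2.isSymmSndFDerivAt (by simp)
  exact this v w

/-- the derivative of `y ↦ (fderiv ℂ T y w).1` -/
theorem G7a_d1 {E' : Set (ℂ × ℂ)} (hE' : IsOpen E') {T : ℂ × ℂ → ℂ × ℂ}
    (hT : DifferentiableOn ℂ T E') {x : ℂ × ℂ} (hx : x ∈ E') (w : ℂ × ℂ) :
    DifferentiableAt ℂ (fun y => (fderiv ℂ T y w).1) x ∧
      ∀ v, fderiv ℂ (fun y => (fderiv ℂ T y w).1) x v = (fderiv ℂ (fderiv ℂ T) x v w).1 := by
  have h1 : HasFDerivAt (fderiv ℂ T) (fderiv ℂ (fderiv ℂ T) x) x :=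
    (((G7a_dT hE' hT).contDiffAt (hE'.mem_nhds hx)).differentiableAt (by simp)).hasFDerivAt
  have h2 : HasFDerivAt (fun y => fderiv ℂ T y w)
      ((ContinuousLinearMap.apply ℂ (ℂ × ℂ) w).comp (fderiv ℂ (fderiv ℂ T) x)) x :=
    ((ContinuousLinearMap.apply ℂ (ℂ × ℂ) w).hasFDerivAt).comp x h1
  have h3 := (ContinuousLinearMap.fst ℂ ℂ ℂ).hasFDerivAt.comp x h2
  refine ⟨h3.differentiableAt, fun v => ?_⟩
  have h4 : fderiv ℂ (fun y => (fderiv ℂ T y w).1) x = _ := h3.fderiv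
  rw [h4]
  rfl

theorem G7a_d2 {E' : Set (ℂ × ℂ)} (hE' : IsOpen E') {T : ℂ × ℂ → ℂ × ℂ}
    (hT : DifferentiableOn ℂ T E') {x : ℂ × ℂ} (hx : x ∈ E') (w : ℂ × ℂ) :
    DifferentiableAt ℂ (fun y => (fderiv ℂ T y w).2) x ∧
      ∀ v, fderiv ℂ (fun y => (fderiv ℂ T y w).2) x v = (fderiv ℂ (fderiv ℂ T) x v w).2 := by
  have h1 : HasFDerivAt (fderiv ℂ T) (fderiv ℂ (fderiv ℂ T) x) x :=
    (((G7a_dT hE' hT).contDiffAt (hE'.mem_nhds hx)).differentiableAt (by simp)).hasFDerivAt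
  have h2 : HasFDerivAt (fun y => fderiv ℂ T y w)
      ((ContinuousLinearMap.apply ℂ (ℂ × ℂ) w).comp (fderiv ℂ (fderiv ℂ T) x)) x :=
    ((ContinuousLinearMap.apply ℂ (ℂ × ℂ) w).hasFDerivAt).comp x h1
  have h3 := (ContinuousLinearMap.snd ℂ ℂ ℂ).hasFDerivAt.comp x h2
  refine ⟨h3.differentiableAt, fun v => ?_⟩
  have h4 : fderiv ℂ (fun y => (fderiv ℂ T y w).2) x = _ := h3.fderiv
  rw [h4]
  rfl

/-- the pulled back form, evaluated on `w` -/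
noncomputable def G7a_pb (f h : ℂ × ℂ → ℂ) (T : ℂ × ℂ → ℂ × ℂ) (w x : ℂ × ℂ) : ℂ :=
  f (T x) * starRingEnd ℂ (fderiv ℂ T x w).1 + h (T x) * starRingEnd ℂ (fderiv ℂ T x w).2

theorem G7a_pb_contDiffOn {D' E' : Set (ℂ × ℂ)} (hE' : IsOpen E') {T : ℂ × ℂ → ℂ × ℂ}
    (hT : DifferentiableOn ℂ T E') (hTm : MapsTo T E' D') {f h : ℂ × ℂ → ℂ}
    (hf : ContDiffOn ℝ 1 f D') (hh : ContDiffOn ℝ 1 h D') (w : ℂ × ℂ) :
    ContDiffOn ℝ 1 (G7a_pb f h T w) E' := by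
  have hTr : ContDiffOn ℝ 1 T E' := by
    have := (G7a_smooth hE' hT 1).restrict_scalars ℝ
    exact_mod_cast this
  have hdT : ContDiffOn ℝ 1 (fderiv ℂ T) E' := (G7a_dT hE' hT).restrict_scalars ℝ
  have hdw : ContDiffOn ℝ 1 (fun x => fderiv ℂ T x w) E' := by
    have h1 : ContDiff ℝ 1 (fun L : (ℂ × ℂ) →L[ℂ] (ℂ × ℂ) => L w) :=
      ((ContinuousLinearMap.apply ℂ (ℂ × ℂ) w).restrictScalars ℝ).contDiff
    exact h1.comp_contDiffOn hdT
  have hconj : ContDiff ℝ 1 (fun z : ℂ => starRingEnd ℂ z) :=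
    (Complex.conjCLE : ℂ →L[ℝ] ℂ).contDiff
  have e1 : ContDiffOn ℝ 1 (fun x => starRingEnd ℂ (fderiv ℂ T x w).1) E' :=
    hconj.comp_contDiffOn (contDiff_fst.comp_contDiffOn hdw)
  have e2 : ContDiffOn ℝ 1 (fun x => starRingEnd ℂ (fderiv ℂ T x w).2) E' :=
    hconj.comp_contDiffOn (contDiff_snd.comp_contDiffOn hdw)
  exact ((hf.comp hTr hTm).mul e1).add ((hh.comp hTr hTm).mul e2)

/-- the antilinear part of the derivative of the pulled back form -/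
theorem G7a_pb_Db {D' E' : Set (ℂ × ℂ)} (hD' : IsOpen D') (hE' : IsOpen E')
    {T : ℂ × ℂ → ℂ × ℂ} (hT : DifferentiableOn ℂ T E') (hTm : MapsTo T E' D') {f h : ℂ × ℂ → ℂ}
    (hf : ContDiffOn ℝ 1 f D') (hh : ContDiffOn ℝ 1 h D') {x : ℂ × ℂ} (hx : x ∈ E')
    (v w : ℂ × ℂ) :
    G7a_Db (G7a_pb f h T w) x v =
      G7a_Db f (T x) (fderiv ℂ T x v) * starRingEnd ℂ (fderiv ℂ T x w).1 +
      f (T x) * starRingEnd ℂ (fderiv ℂ (fderiv ℂ T) x v w).1 +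
      (G7a_Db h (T x) (fderiv ℂ T x v) * starRingEnd ℂ (fderiv ℂ T x w).2 +
      h (T x) * starRingEnd ℂ (fderiv ℂ (fderiv ℂ T) x v w).2) := by
  have hTx : DifferentiableAt ℂ T x := hT.differentiableAt (hE'.mem_nhds hx)
  have hTr : DifferentiableAt ℝ T x := hTx.restrictScalars ℝ
  have hfx : DifferentiableAt ℝ f (T x) :=
    (hf.contDiffAt (hD'.mem_nhds (hTm hx))).differentiableAt (by simp)
  have hhx : DifferentiableAt ℝ h (T x) :=
    (hh.contDiffAt (hD'.mem_nhds (hTm hx))).differentiableAt (by simp)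
  obtain ⟨g1, g1'⟩ := G7a_d1 hE' hT hx w
  obtain ⟨g2, g2'⟩ := G7a_d2 hE' hT hx w
  have a1 : DifferentiableAt ℝ (fun y => f (T y)) x := hfx.comp x hTr
  have a2 : DifferentiableAt ℝ (fun y => h (T y)) x := hhx.comp x hTr
  have b1 := G7a_conjd g1
  have b2 := G7a_conjd g2
  have e : G7a_pb f h T w = fun y => f (T y) * starRingEnd ℂ (fderiv ℂ T y w).1 +
    h (T y) * starRingEnd ℂ (fderiv ℂ T y w).2 := rfl
  rw [e, G7a_add (a1.fun_mul b1) (a2.fun_mul b2), G7a_mul a1 b1, G7a_mul a2 b2, G7a_chain hTx hfx,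
    G7a_chain hTx hhx, G7a_conj g1, G7a_conj g2, g1', g2']

/-- **TARGET** -/
theorem slv_pull {D' D E' E : Set (ℂ × ℂ)} (hD' : IsOpen D') (hD : IsOpen D) (hE' : IsOpen E')
    (hE : IsOpen E) (hEE : E ⊆ E') {T Θ : ℂ × ℂ → ℂ × ℂ} {B C : ℝ} (hC : 0 ≤ C) (hB : 0 ≤ B)
    (hT : DifferentiableOn ℂ T E') (hTm : MapsTo T E' D') (hTb : ∀ x ∈ E', ‖fderiv ℂ T x‖ ≤ B)
    (hΘ : DifferentiableOn ℂ Θ D) (hΘm : MapsTo Θ D E) (hinv : ∀ z ∈ D, T (Θ z) = z)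
    (h : Slv E' E C) : Slv D' D (C * (2 * B)) := by
  intro f g M hfg
  have hbd : ∀ w : ℂ × ℂ, ‖w‖ ≤ 1 → ∀ x ∈ E', ‖G7a_pb f g T w x‖ ≤ 2 * B * M := by
    intro w hw x hx
    have h1 := hfg.fb _ (hTm hx)
    have h2 := hfg.hb _ (hTm hx)
    have h3 : ‖fderiv ℂ T x w‖ ≤ B := by
      calc ‖fderiv ℂ T x w‖ ≤ ‖fderiv ℂ T x‖ * ‖w‖ := ContinuousLinearMap.le_opNorm _ _
        _ ≤ B * 1 := mul_le_mul (hTb x hx) hw (norm_nonneg _) hB
        _ = B := mul_one B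
    have h4 : ‖(fderiv ℂ T x w).1‖ ≤ B := (norm_fst_le _).trans h3
    have h5 : ‖(fderiv ℂ T x w).2‖ ≤ B := (norm_snd_le _).trans h3
    have hM : 0 ≤ M := (norm_nonneg _).trans h1
    unfold G7a_pb
    calc _ ≤ ‖f (T x) * starRingEnd ℂ (fderiv ℂ T x w).1‖ +
          ‖g (T x) * starRingEnd ℂ (fderiv ℂ T x w).2‖ := norm_add_le _ _
      _ ≤ M * B + M * B := by
        rw [norm_mul, norm_mul, RCLike.norm_conj, RCLike.norm_conj]
        exact add_le_add (mul_le_mul h1 h4 (norm_nonneg _) hM)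
          (mul_le_mul h2 h5 (norm_nonneg _) hM)
      _ = 2 * B * M := by ring
  have hform : Fm E' (2 * B * M) (G7a_pb f g T (1, 0)) (G7a_pb f g T (0, 1)) := by
    refine ⟨G7a_pb_contDiffOn hE' hT hTm hfg.f1 hfg.h1 _,
      G7a_pb_contDiffOn hE' hT hTm hfg.f1 hfg.h1 _, ?_, hbd _ (by simp), hbd _ (by simp)⟩
    intro x hx
    rw [G7a_db1, G7a_db2, G7a_pb_Db hD' hE' hT hTm hfg.f1 hfg.h1 hx,
      G7a_pb_Db hD' hE' hT hTm hfg.f1 hfg.h1 hx, G7a_symm hE' hT hx (1, 0) (0, 1),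
      G7a_coord f, G7a_coord f, G7a_coord g, G7a_coord g, hfg.cl _ (hTm hx)]
    ring
  obtain ⟨v, hv⟩ := h _ _ _ hform
  refine ⟨fun z => v (Θ z), ?_, ?_, ?_, ?_⟩
  · have hΘr : ContDiffOn ℝ 1 Θ D := by
      have := (G7a_smooth hD hΘ 1).restrict_scalars ℝ
      exact_mod_cast this
    exact hv.u1.comp hΘr hΘm
  all_goals
    intro z hz
    have hΘz : DifferentiableAt ℂ Θ z := hΘ.differentiableAt (hD.mem_nhds hz)
    have hvz : DifferentiableAt ℝ v (Θ z) :=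
      (hv.u1.contDiffAt (hE.mem_nhds (hΘm hz))).differentiableAt (by simp)
    have hTz : DifferentiableAt ℂ T (Θ z) := hT.differentiableAt (hE'.mem_nhds (hEE (hΘm hz)))
    have hcomp : ∀ w, fderiv ℂ T (Θ z) (fderiv ℂ Θ z w) = w := by
      intro w
      have h1 : HasFDerivAt (fun y => T (Θ y)) ((fderiv ℂ T (Θ z)).comp (fderiv ℂ Θ z)) z :=
        hTz.hasFDerivAt.comp z hΘz.hasFDerivAt
      have h2 : HasFDerivAt (fun y => T (Θ y)) (ContinuousLinearMap.id ℂ (ℂ × ℂ)) z := by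
        apply (hasFDerivAt_id z).congr_of_eventuallyEq
        filter_upwards [hD.mem_nhds hz] with y hy
        exact hinv y hy
      have h3 := h1.unique h2
      have := congrArg (fun L : (ℂ × ℂ) →L[ℂ] (ℂ × ℂ) => L w) h3
      simpa using this
    have hlin : ∀ w : ℂ × ℂ, starRingEnd ℂ w.1 * G7a_pb f g T (1, 0) (Θ z) +
        starRingEnd ℂ w.2 * G7a_pb f g T (0, 1) (Θ z) = G7a_pb f g T w (Θ z) := by
      intro w
      have hw : w = w.1 • ((1 : ℂ), (0 : ℂ)) + w.2 • ((0 : ℂ), (1 : ℂ)) := by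
        ext <;> simp
      unfold G7a_pb
      conv_rhs => rw [hw]
      simp only [map_add, map_smul, Prod.fst_add, Prod.snd_add, Prod.smul_fst, Prod.smul_snd,
        smul_eq_mul, map_mul]
      ring
    have hD1 : ∀ w, G7a_Db (fun y => v (Θ y)) z w =
        f z * starRingEnd ℂ w.1 + g z * starRingEnd ℂ w.2 := by
      intro w
      rw [G7a_chain hΘz hvz, G7a_coord, hv.e1 _ (hΘm hz), hv.e2 _ (hΘm hz), hlin]
      unfold G7a_pb
      rw [hinv z hz, hcomp]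
  · rw [G7a_db1, hD1]
    simp
  · rw [G7a_db2, hD1]
    simp
  · refine (hv.ub _ (hΘm hz)).trans (le_of_eq (by ring))

end Pool.Agent.P157G
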