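import Mathlib
import Pool.Agent.Helper540.Holo
import Pool.Agent.P157G.Defs

set_option autoImplicit false

open MeasureTheory Metric Set Filter Topology Complex

namespace Pool.Agent.P157G

open Pool.Agent.P157D (d1 d2 CR Bo)

theorem G7b3_Bo (r : ℝ) : Bo r = ball (0 : ℂ × ℂ) r := by
  ext x
  simp [Bo, Prod.norm_def]

/-- bounds for a function of class `C²` on a compact convex set -/
theorem G7b3_bd {F : Type} [NormedAddCommGroup F] [NormedSpace ℝ F] {f : ℂ × ℂ → F}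
    {U K : Set (ℂ × ℂ)} (hU : IsOpen U) (hf : ContDiffOn ℝ 2 f U) (hK : IsCompact K)
    (hKc : Convex ℝ K) (hKU : K ⊆ U) :
    ∃ M : ℝ, 1 ≤ M ∧ (∀ x ∈ K, ‖f x‖ ≤ M) ∧ (∀ x ∈ K, ‖fderiv ℝ f x‖ ≤ M) ∧
      (∀ x ∈ K, ∀ y ∈ K, ‖f x - f y‖ ≤ M * ‖x - y‖) ∧
      ∀ x ∈ K, ∀ y ∈ K, ‖fderiv ℝ f x - fderiv ℝ f y‖ ≤ M * ‖x - y‖ := by
  have h1 : ContDiffOn ℝ 1 (fderiv ℝ f) U := hf.fderiv_of_isOpen hU (by norm_num)
  have h2 : ContDiffOn ℝ 0 (fderiv ℝ (fderiv ℝ f)) U := h1.fderiv_of_isOpen hU (by norm_num)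
  obtain ⟨M0, hM0⟩ := (hK.image_of_continuousOn (hf.continuousOn.mono hKU)).isBounded.exists_norm_le
  obtain ⟨M1, hM1⟩ := (hK.image_of_continuousOn (h1.continuousOn.mono hKU)).isBounded.exists_norm_le
  obtain ⟨M2, hM2⟩ := (hK.image_of_continuousOn (h2.continuousOn.mono hKU)).isBounded.exists_norm_le
  have b0 : ∀ x ∈ K, ‖f x‖ ≤ M0 := fun x hx => hM0 _ (mem_image_of_mem _ hx)
  have b1 : ∀ x ∈ K, ‖fderiv ℝ f x‖ ≤ M1 := fun x hx => hM1 _ (mem_image_of_mem _ hx)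
  have b2 : ∀ x ∈ K, ‖fderiv ℝ (fderiv ℝ f) x‖ ≤ M2 := fun x hx => hM2 _ (mem_image_of_mem _ hx)
  set M := max 1 (max M0 (max M1 M2)) with hM
  have m0 : M0 ≤ M := le_trans (le_max_left _ _) (le_max_right _ _)
  have m1 : M1 ≤ M := le_trans (le_trans (le_max_left _ _) (le_max_right _ _)) (le_max_right _ _)
  have m2 : M2 ≤ M := le_trans (le_trans (le_max_right _ _) (le_max_right _ _)) (le_max_right _ _)
  refine ⟨M, le_max_left _ _, fun x hx => (b0 x hx).trans m0, fun x hx => (b1 x hx).trans m1,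
    ?_, ?_⟩
  · intro x hx y hy
    refine hKc.norm_image_sub_le_of_norm_fderiv_le (𝕜 := ℝ) (f := f) (C := M) (fun z hz => ?_)
      (fun z hz => (b1 z hz).trans m1) hy hx
    exact (hf.differentiableOn (by norm_num)).differentiableAt (hU.mem_nhds (hKU hz))
  · intro x hx y hy
    refine hKc.norm_image_sub_le_of_norm_fderiv_le (𝕜 := ℝ) (f := fderiv ℝ f) (C := M)
      (fun z hz => ?_) (fun z hz => (b2 z hz).trans m2) hy hx
    exact (h1.differentiableOn (by norm_num)).differentiableAt (hU.mem_nhds (hKU hz))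

/-- the difference of the derivatives is Lipschitz -/
theorem G7b3_lip {ε : ℝ} {ρ ρ' : ℂ × ℂ → ℝ} (hρ : ContDiff ℝ 2 ρ) (h : Cls ε ρ ρ') (p q : ℂ × ℂ) :
    ‖(fderiv ℝ ρ' p - fderiv ℝ ρ p) - (fderiv ℝ ρ' q - fderiv ℝ ρ q)‖ ≤ ε * ‖p - q‖ := by
  have h1 : Differentiable ℝ (fderiv ℝ ρ) := (hρ.fderiv_right (m := 1) (by norm_num)).differentiable (by norm_num)
  have h2 : Differentiable ℝ (fderiv ℝ ρ') := (h.1.fderiv_right (m := 1) (by norm_num)).differentiable (by norm_num)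
  refine convex_univ.norm_image_sub_le_of_norm_fderiv_le (𝕜 := ℝ)
    (f := fun p => fderiv ℝ ρ' p - fderiv ℝ ρ p) (C := ε) (fun z _ => (h2 z).sub (h1 z))
    (fun z _ => ?_) (mem_univ q) (mem_univ p)
  have : fderiv ℝ (fun p => fderiv ℝ ρ' p - fderiv ℝ ρ p) z =
      fderiv ℝ (fderiv ℝ ρ') z - fderiv ℝ (fderiv ℝ ρ) z := fderiv_fun_sub (h2 z) (h1 z)
  rw [this, norm_sub_rev]
  exact (h.2 z).2.2

theorem G7b3_close {ρ : ℂ × ℂ → ℝ} (hρ : ContDiff ℝ 2 ρ) {lam : ℝ} (hl : 0 < lam)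
    {U K : Set (ℂ × ℂ)} (hU : IsOpen U) (hK : IsCompact K) (hKc : Convex ℝ K) (hKU : K ⊆ U)
    {T : ℂ × ℂ → ℂ × ℂ} (hT : ContDiffOn ℝ 2 T U) :
    ∃ C : ℝ, 1 ≤ C ∧ ∀ ε : ℝ, 0 < ε → C * ε ≤ 1 → ∀ ρ' : ℂ × ℂ → ℝ, Cls ε ρ ρ' →
      ContDiffOn ℝ 2 (fun x => Real.exp (lam * ρ' (T x))) U ∧
      (∀ x ∈ K, |Real.exp (lam * ρ' (T x)) - Real.exp (lam * ρ (T x))| ≤ C * ε) ∧
      (∀ x ∈ K, ‖fderiv ℝ (fun x => Real.exp (lam * ρ' (T x))) x -
        fderiv ℝ (fun x => Real.exp (lam * ρ (T x))) x‖ ≤ C * ε) ∧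
      (∀ x ∈ K, ∀ y ∈ K, ‖(fderiv ℝ (fun x => Real.exp (lam * ρ' (T x))) x -
        fderiv ℝ (fun x => Real.exp (lam * ρ (T x))) x) -
        (fderiv ℝ (fun x => Real.exp (lam * ρ' (T x))) y -
        fderiv ℝ (fun x => Real.exp (lam * ρ (T x))) y)‖ ≤ C * ε * ‖x - y‖) := by
  obtain ⟨B, hB1, -, hB2, hB3, hB4⟩ := G7b3_bd hU hT hK hKc hKU
  have hu : ContDiffOn ℝ 2 (fun x => lam * ρ (T x)) U :=
    contDiffOn_const.mul (hρ.comp_contDiffOn hT)
  obtain ⟨M, hM1, -, hM2, -, hM4⟩ := G7b3_bd hU hu hK hKc hKU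
  have hg : ContDiffOn ℝ 2 (fun x => Real.exp (lam * ρ (T x))) U :=
    Real.contDiff_exp.comp_contDiffOn hu
  obtain ⟨G, hG1, hG2, -, hG3, -⟩ := G7b3_bd hU hg hK hKc hKU
  set C1 : ℝ := lam * (1 + B + B ^ 2) with hC1
  have hC10 : 0 < C1 := by positivity
  set C2 : ℝ := G * C1 * (3 + 2 * M) with hC2
  have hC20 : 0 < C2 := by positivity
  set C3 : ℝ := 3 * G * C1 + (G + C2) * C1 + 2 * G * C1 * M + C2 * M with hC3
  have hC30 : 0 < C3 := by positivity
  set C : ℝ := 1 + C1 + C2 + C3 + 2 * G * C1 with hC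
  have hGC : 0 < G * C1 := by positivity
  refine ⟨C, by linarith, fun ε hε hCε ρ' hc => ?_⟩
  have hC1ε : C1 * ε ≤ 1 := by
    refine le_trans (mul_le_mul_of_nonneg_right ?_ hε.le) hCε
    linarith
  have hε1 : ε ≤ 1 := by
    refine le_trans ?_ hCε
    nlinarith
  have hu' : ContDiffOn ℝ 2 (fun x => lam * ρ' (T x)) U :=
    contDiffOn_const.mul (hc.1.comp_contDiffOn hT)
  have hg' : ContDiffOn ℝ 2 (fun x => Real.exp (lam * ρ' (T x))) U :=
    Real.contDiff_exp.comp_contDiffOn hu'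
  have dT : ∀ x ∈ K, DifferentiableAt ℝ T x := fun x hx =>
    (hT.differentiableOn (by norm_num)).differentiableAt (hU.mem_nhds (hKU hx))
  have du : ∀ x ∈ K, DifferentiableAt ℝ (fun x => lam * ρ (T x)) x := fun x hx =>
    (hu.differentiableOn (by norm_num)).differentiableAt (hU.mem_nhds (hKU hx))
  have du' : ∀ x ∈ K, DifferentiableAt ℝ (fun x => lam * ρ' (T x)) x := fun x hx =>
    (hu'.differentiableOn (by norm_num)).differentiableAt (hU.mem_nhds (hKU hx))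
  have dρ : Differentiable ℝ ρ := hρ.differentiable (by norm_num)
  have dρ' : Differentiable ℝ ρ' := hc.1.differentiable (by norm_num)
  -- the derivative of `w`
  set Dw : ℂ × ℂ → (ℂ × ℂ →L[ℝ] ℝ) := fun x =>
    lam • ((fderiv ℝ ρ' (T x) - fderiv ℝ ρ (T x)).comp (fderiv ℝ T x)) with hDw
  set Du : ℂ × ℂ → (ℂ × ℂ →L[ℝ] ℝ) := fun x => fderiv ℝ (fun x => lam * ρ (T x)) x with hDu
  have eu : ∀ x ∈ K, Du x = lam • ((fderiv ℝ ρ (T x)).comp (fderiv ℝ T x)) := by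
    intro x hx
    have h1 : HasFDerivAt (fun x => lam * ρ (T x))
        (lam • ((fderiv ℝ ρ (T x)).comp (fderiv ℝ T x))) x :=
      ((dρ (T x)).hasFDerivAt.comp x (dT x hx).hasFDerivAt).const_mul lam
    exact h1.fderiv
  have eu' : ∀ x ∈ K, fderiv ℝ (fun x => lam * ρ' (T x)) x = Du x + Dw x := by
    intro x hx
    have h1 : HasFDerivAt (fun x => lam * ρ' (T x))
        (lam • ((fderiv ℝ ρ' (T x)).comp (fderiv ℝ T x))) x :=
      ((dρ' (T x)).hasFDerivAt.comp x (dT x hx).hasFDerivAt).const_mul lam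
    rw [h1.fderiv, eu x hx]
    refine ContinuousLinearMap.ext fun v => ?_
    simp [hDw]
    ring
  set g : ℂ × ℂ → ℝ := fun x => Real.exp (lam * ρ (T x)) with hgd
  set g' : ℂ × ℂ → ℝ := fun x => Real.exp (lam * ρ' (T x)) with hgd'
  have eg : ∀ x ∈ K, fderiv ℝ g x = g x • Du x := fun x hx => by
    have := (du x hx).hasFDerivAt.exp
    rw [hgd, this.fderiv]
  have eg' : ∀ x ∈ K, fderiv ℝ g' x = g' x • (Du x + Dw x) := fun x hx => by
    have := (du' x hx).hasFDerivAt.exp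
    rw [hgd', this.fderiv, eu' x hx]
  -- bounds for w
  have w0 : ∀ x, |lam * ρ' (T x) - lam * ρ (T x)| ≤ C1 * ε := by
    intro x
    rw [← mul_sub, abs_mul, abs_of_pos hl, abs_sub_comm]
    have h1 := (hc.2 (T x)).1
    have : lam * |ρ (T x) - ρ' (T x)| ≤ lam * ε := mul_le_mul_of_nonneg_left h1 hl.le
    refine this.trans ?_
    rw [hC1]
    have : lam * ε ≤ lam * (1 + B + B ^ 2) * ε := by
      apply mul_le_mul_of_nonneg_right _ hε.le
      nlinarith
    exact this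
  have w1 : ∀ x ∈ K, ‖Dw x‖ ≤ C1 * ε := by
    intro x hx
    rw [hDw]
    simp only [norm_smul, Real.norm_of_nonneg hl.le]
    have h1 : ‖fderiv ℝ ρ' (T x) - fderiv ℝ ρ (T x)‖ ≤ ε := by
      rw [norm_sub_rev]; exact (hc.2 (T x)).2.1
    have h2 : ‖(fderiv ℝ ρ' (T x) - fderiv ℝ ρ (T x)).comp (fderiv ℝ T x)‖ ≤ ε * B :=
      (ContinuousLinearMap.opNorm_comp_le _ _).trans
        (mul_le_mul h1 (hB2 x hx) (norm_nonneg _) hε.le)
    refine (mul_le_mul_of_nonneg_left h2 hl.le).trans ?_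
    rw [hC1]
    have h3 : 0 ≤ lam * ε := by positivity
    nlinarith [sq_nonneg B]
  have w2 : ∀ x ∈ K, ∀ y ∈ K, ‖Dw x - Dw y‖ ≤ C1 * ε * ‖x - y‖ := by
    intro x hx y hy
    have e1 : Dw x - Dw y = lam • ((((fderiv ℝ ρ' (T x) - fderiv ℝ ρ (T x)) -
        (fderiv ℝ ρ' (T y) - fderiv ℝ ρ (T y))).comp (fderiv ℝ T x)) +
        (fderiv ℝ ρ' (T y) - fderiv ℝ ρ (T y)).comp (fderiv ℝ T x - fderiv ℝ T y)) := by
      refine ContinuousLinearMap.ext fun v => ?_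
      simp [hDw]
      ring
    rw [e1, norm_smul, Real.norm_of_nonneg hl.le]
    have h1 : ‖fderiv ℝ ρ' (T y) - fderiv ℝ ρ (T y)‖ ≤ ε := by
      rw [norm_sub_rev]; exact (hc.2 (T y)).2.1
    have h2 : ‖(fderiv ℝ ρ' (T x) - fderiv ℝ ρ (T x)) -
        (fderiv ℝ ρ' (T y) - fderiv ℝ ρ (T y))‖ ≤ ε * (B * ‖x - y‖) :=
      (G7b3_lip hρ hc (T x) (T y)).trans (mul_le_mul_of_nonneg_left (hB3 x hx y hy) hε.le)
    have h3 : ‖(((fderiv ℝ ρ' (T x) - fderiv ℝ ρ (T x)) -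
        (fderiv ℝ ρ' (T y) - fderiv ℝ ρ (T y))).comp (fderiv ℝ T x))‖ ≤
        ε * (B * ‖x - y‖) * B :=
      (ContinuousLinearMap.opNorm_comp_le _ _).trans
        (mul_le_mul h2 (hB2 x hx) (norm_nonneg _) (by positivity))
    have h4 : ‖(fderiv ℝ ρ' (T y) - fderiv ℝ ρ (T y)).comp (fderiv ℝ T x - fderiv ℝ T y)‖ ≤
        ε * (B * ‖x - y‖) :=
      (ContinuousLinearMap.opNorm_comp_le _ _).trans
        (mul_le_mul h1 (hB4 x hx y hy) (norm_nonneg _) hε.le)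
    have h5 := (norm_add_le _ _).trans (add_le_add h3 h4)
    refine (mul_le_mul_of_nonneg_left h5 hl.le).trans ?_
    rw [hC1]
    have h6 : 0 ≤ lam * ε * ‖x - y‖ := by positivity
    have : lam * (ε * (B * ‖x - y‖) * B + ε * (B * ‖x - y‖)) =
      (lam * ε * ‖x - y‖) * (B ^ 2 + B) := by ring
    rw [this]
    have : lam * (1 + B + B ^ 2) * ε * ‖x - y‖ = (lam * ε * ‖x - y‖) * (1 + B + B ^ 2) := by ring
    rw [this]
    apply mul_le_mul_of_nonneg_left _ h6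
    linarith
  -- bounds for s = g' - g
  have gG : ∀ x ∈ K, |g x| ≤ G := fun x hx => by
    have := hG2 x hx
    rwa [Real.norm_eq_abs] at this
  have s0 : ∀ x ∈ K, |g' x - g x| ≤ 2 * G * C1 * ε := by
    intro x hx
    have h1 : g' x - g x = g x * (Real.exp (lam * ρ' (T x) - lam * ρ (T x)) - 1) := by
      rw [hgd, hgd', mul_sub, ← Real.exp_add]
      simp
    rw [h1, abs_mul]
    have h2 := Real.abs_exp_sub_one_le ((w0 x).trans hC1ε)
    have h3 : |Real.exp (lam * ρ' (T x) - lam * ρ (T x)) - 1| ≤ 2 * (C1 * ε) :=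
      h2.trans (mul_le_mul_of_nonneg_left (w0 x) (by norm_num))
    calc _ ≤ G * (2 * (C1 * ε)) := mul_le_mul (gG x hx) h3 (abs_nonneg _) (by linarith)
      _ = _ := by ring
  have g'G : ∀ x ∈ K, |g' x| ≤ 3 * G := by
    intro x hx
    have h1 := s0 x hx
    have h2 := gG x hx
    have h3 : |g' x| ≤ |g' x - g x| + |g x| := by
      have := abs_add_le (g' x - g x) (g x)
      simpa using this
    have h4 : 2 * G * C1 * ε ≤ 2 * G := by
      have : 2 * G * C1 * ε = 2 * G * (C1 * ε) := by ring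
      rw [this]; nlinarith
    linarith
  have Ds : ∀ x ∈ K, fderiv ℝ g' x - fderiv ℝ g x = g' x • Dw x + (g' x - g x) • Du x := by
    intro x hx
    rw [eg x hx, eg' x hx]
    refine ContinuousLinearMap.ext fun v => ?_
    simp only [ContinuousLinearMap.sub_apply, ContinuousLinearMap.add_apply,
      ContinuousLinearMap.smul_apply, smul_eq_mul]
    ring
  have s1 : ∀ x ∈ K, ‖fderiv ℝ g' x - fderiv ℝ g x‖ ≤ C2 * ε := by
    intro x hx
    rw [Ds x hx]
    refine (norm_add_le _ _).trans ?_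
    rw [norm_smul (g' x) (Dw x), norm_smul (g' x - g x) (Du x), Real.norm_eq_abs,
      Real.norm_eq_abs]
    have h1 : |g' x| * ‖Dw x‖ ≤ 3 * G * (C1 * ε) :=
      mul_le_mul (g'G x hx) (w1 x hx) (norm_nonneg _) (by linarith)
    have h2 : |g' x - g x| * ‖Du x‖ ≤ (2 * G * C1 * ε) * M :=
      mul_le_mul (s0 x hx) (hM2 x hx) (norm_nonneg _) (by positivity)
    have : C2 * ε = 3 * G * (C1 * ε) + (2 * G * C1 * ε) * M := by rw [hC2]; ring
    linarith
  have ds : ∀ x ∈ K, DifferentiableAt ℝ (fun x => g' x - g x) x := fun x hx =>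
    ((hg'.differentiableOn (by norm_num)).differentiableAt (hU.mem_nhds (hKU hx))).sub
      ((hg.differentiableOn (by norm_num)).differentiableAt (hU.mem_nhds (hKU hx)))
  have s2 : ∀ x ∈ K, ∀ y ∈ K, |(g' x - g x) - (g' y - g y)| ≤ C2 * ε * ‖x - y‖ := by
    intro x hx y hy
    have := hKc.norm_image_sub_le_of_norm_fderiv_le (𝕜 := ℝ) (f := fun x => g' x - g x)
      (C := C2 * ε) ds (fun z hz => by
        have h1 : fderiv ℝ (fun x => g' x - g x) z = fderiv ℝ g' z - fderiv ℝ g z :=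
          fderiv_fun_sub ((hg'.differentiableOn (by norm_num)).differentiableAt
            (hU.mem_nhds (hKU hz))) ((hg.differentiableOn (by norm_num)).differentiableAt
            (hU.mem_nhds (hKU hz)))
        rw [h1]; exact s1 z hz) hy hx
    rwa [Real.norm_eq_abs] at this
  have g'2 : ∀ x ∈ K, ∀ y ∈ K, |g' x - g' y| ≤ (G + C2) * ‖x - y‖ := by
    intro x hx y hy
    have h1 := s2 x hx y hy
    have h2 := hG3 x hx y hy
    rw [Real.norm_eq_abs] at h2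
    have h3 : |g' x - g' y| ≤ |(g' x - g x) - (g' y - g y)| + |g x - g y| := by
      have := abs_add_le ((g' x - g x) - (g' y - g y)) (g x - g y)
      have e : (g' x - g x) - (g' y - g y) + (g x - g y) = g' x - g' y := by ring
      rwa [e] at this
    have h4 : C2 * ε * ‖x - y‖ ≤ C2 * ‖x - y‖ := by
      apply mul_le_mul_of_nonneg_right _ (norm_nonneg _)
      nlinarith
    have h5 : |g x - g y| ≤ G * ‖x - y‖ := h2
    have : (G + C2) * ‖x - y‖ = C2 * ‖x - y‖ + G * ‖x - y‖ := by ring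
    linarith
  have s3 : ∀ x ∈ K, ∀ y ∈ K, ‖(fderiv ℝ g' x - fderiv ℝ g x) -
      (fderiv ℝ g' y - fderiv ℝ g y)‖ ≤ C3 * ε * ‖x - y‖ := by
    intro x hx y hy
    rw [Ds x hx, Ds y hy]
    have e1 : g' x • Dw x + (g' x - g x) • Du x - (g' y • Dw y + (g' y - g y) • Du y) =
        (g' x • (Dw x - Dw y) + (g' x - g' y) • Dw y) +
        ((g' x - g x) • (Du x - Du y) + ((g' x - g x) - (g' y - g y)) • Du y) := by
      refine ContinuousLinearMap.ext fun v => ?_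
      simp only [ContinuousLinearMap.sub_apply, ContinuousLinearMap.add_apply,
        ContinuousLinearMap.smul_apply, smul_eq_mul]
      ring
    rw [e1]
    have n0 : 0 ≤ ‖x - y‖ := norm_nonneg _
    have h1 : ‖g' x • (Dw x - Dw y)‖ ≤ 3 * G * (C1 * ε * ‖x - y‖) := by
      rw [norm_smul, Real.norm_eq_abs]
      exact mul_le_mul (g'G x hx) (w2 x hx y hy) (norm_nonneg _) (by linarith)
    have h2 : ‖(g' x - g' y) • Dw y‖ ≤ ((G + C2) * ‖x - y‖) * (C1 * ε) := by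
      rw [norm_smul, Real.norm_eq_abs]
      exact mul_le_mul (g'2 x hx y hy) (w1 y hy) (norm_nonneg _) (by positivity)
    have h3 : ‖(g' x - g x) • (Du x - Du y)‖ ≤ (2 * G * C1 * ε) * (M * ‖x - y‖) := by
      rw [norm_smul, Real.norm_eq_abs]
      exact mul_le_mul (s0 x hx) (hM4 x hx y hy) (norm_nonneg _) (by positivity)
    have h4 : ‖((g' x - g x) - (g' y - g y)) • Du y‖ ≤ (C2 * ε * ‖x - y‖) * M := by
      rw [norm_smul, Real.norm_eq_abs]
      exact mul_le_mul (s2 x hx y hy) (hM2 y hy) (norm_nonneg _) (by positivity)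
    have h5 := norm_add_le (g' x • (Dw x - Dw y)) ((g' x - g' y) • Dw y)
    have h6 := norm_add_le ((g' x - g x) • (Du x - Du y)) (((g' x - g x) - (g' y - g y)) • Du y)
    refine (norm_add_le _ _).trans ?_
    have : C3 * ε * ‖x - y‖ = 3 * G * (C1 * ε * ‖x - y‖) + ((G + C2) * ‖x - y‖) * (C1 * ε) +
      ((2 * G * C1 * ε) * (M * ‖x - y‖) + (C2 * ε * ‖x - y‖) * M) := by rw [hC3]; ring
    linarith
  refine ⟨hg', fun x hx => (s0 x hx).trans ?_, fun x hx => (s1 x hx).trans ?_,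
    fun x hx y hy => (s3 x hx y hy).trans ?_⟩
  · apply mul_le_mul_of_nonneg_right _ hε.le
    linarith
  · apply mul_le_mul_of_nonneg_right _ hε.le
    linarith
  · apply mul_le_mul_of_nonneg_right _ (norm_nonneg _)
    apply mul_le_mul_of_nonneg_right _ hε.le
    linarith

/-- **TARGET** -/
theorem conc_stab {ρ : ℂ × ℂ → ℝ} (hρ : ContDiff ℝ 2 ρ) {lam m r₀ : ℝ} (hl : 0 < lam) (hm : 0 < m)
    (hr₀ : 0 < r₀) (hr₀1 : r₀ ≤ 1) {T : ℂ × ℂ → ℂ × ℂ} (hT : DifferentiableOn ℂ T (Bo r₀))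
    (h0 : ρ (T (0, 0)) = 0)
    (h1 : ∀ x : ℂ × ℂ, fderiv ℝ (fun x => Real.exp (lam * ρ (T x))) (0, 0) x = 2 * x.1.re)
    (h2 : ∀ x : ℂ × ℂ, m * (‖x.1‖ ^ 2 + ‖x.2‖ ^ 2) ≤
      fderiv ℝ (fderiv ℝ (fun x => Real.exp (lam * ρ (T x)))) (0, 0) x x) :
    ∃ r L κ A ε : ℝ, 0 < r ∧ r ≤ r₀ ∧ 1 ≤ L ∧ 0 < κ ∧ κ ≤ r ∧ 0 < A ∧ 0 < ε ∧
      ∀ ρ' : ℂ × ℂ → ℝ, Cls ε ρ ρ' → CR r L (fun x => A * (1 - Real.exp (lam * ρ' (T x)))) ∧
        ∀ x : ℂ × ℂ, ‖x.1‖ < κ → r / 2 ≤ ‖x.2‖ → ‖x.2‖ < r →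
          A * (1 - Real.exp (lam * ρ' (T x))) < 0 := by
  rw [G7b3_Bo] at hT
  have e00 : ((0 : ℂ), (0 : ℂ)) = (0 : ℂ × ℂ) := rfl
  rw [e00] at h0 h1 h2
  set U : Set (ℂ × ℂ) := ball 0 r₀ with hUd
  have hU : IsOpen U := isOpen_ball
  have hTc : ContDiffOn ℝ 2 T U :=
    (Pool.Agent.Helper540.contDiffOn_of_differentiableOn hU hT 2).restrict_scalars ℝ
  set K : Set (ℂ × ℂ) := closedBall 0 (r₀ / 2) with hKd
  have hK : IsCompact K := isCompact_closedBall _ _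
  have hKc : Convex ℝ K := convex_closedBall _ _
  have hKU : K ⊆ U := closedBall_subset_ball (by linarith)
  obtain ⟨C, hC1, hC⟩ := G7b3_close hρ hl hU hK hKc hKU hTc
  set g : ℂ × ℂ → ℝ := fun x => Real.exp (lam * ρ (T x)) with hgd
  have hg : ContDiffOn ℝ 2 g U :=
    Real.contDiff_exp.comp_contDiffOn (contDiffOn_const.mul (hρ.comp_contDiffOn hTc))
  obtain ⟨G, hG1, -, -, -, hG4⟩ := G7b3_bd hU hg hK hKc hKU
  have h0U : (0 : ℂ × ℂ) ∈ U := mem_ball_self hr₀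
  have hDg : ContDiffOn ℝ 1 (fderiv ℝ g) U := hg.fderiv_of_isOpen hU (by norm_num)
  have hstr : HasStrictFDerivAt (fderiv ℝ g) (fderiv ℝ (fderiv ℝ g) 0) 0 :=
    (hDg.contDiffAt (hU.mem_nhds h0U)).hasStrictFDerivAt (by norm_num)
  have hm4 : 0 < m / 4 := by positivity
  obtain ⟨δ, hδ, hδ2⟩ : ∃ δ > 0, ∀ x ∈ ball (0 : ℂ × ℂ) δ, ∀ y ∈ ball (0 : ℂ × ℂ) δ,
      ‖fderiv ℝ g y - fderiv ℝ g x - fderiv ℝ (fderiv ℝ g) 0 (y - x)‖ ≤ m / 4 * ‖y - x‖ := by
    have h3 := hstr.isLittleO.def hm4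
    rw [nhds_prod_eq] at h3
    obtain ⟨δ, hδ, h4⟩ := Metric.eventually_nhds_iff_ball.1 (by
      rw [← nhds_prod_eq] at h3; exact h3)
    refine ⟨δ, hδ, fun x hx y hy => ?_⟩
    refine h4 (y, x) ?_
    rw [mem_ball, Prod.dist_eq, max_lt_iff]
    exact ⟨hy, hx⟩
  -- the choice of the constants
  set A : ℝ := 4 / m with hA
  have hA0 : 0 < A := by positivity
  set r : ℝ := min (r₀ / 2) (min (δ) (1 / (8 * G))) with hr
  have hG0 : 0 < G := by linarith
  have hr0 : 0 < r := by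
    rw [hr]; exact lt_min (by linarith) (lt_min hδ (by positivity))
  have hrr : r ≤ r₀ / 2 := min_le_left _ _
  have hrδ : r ≤ δ := (min_le_right _ _).trans (min_le_left _ _)
  have hrG : G * r ≤ 1 / 8 := by
    have : r ≤ 1 / (8 * G) := (min_le_right _ _).trans (min_le_right _ _)
    calc G * r ≤ G * (1 / (8 * G)) := mul_le_mul_of_nonneg_left this hG0.le
      _ = 1 / 8 := by field_simp
  have hr1 : r ≤ 1 := by linarith
  set κ : ℝ := min r (r ^ 2 / (32 * A)) with hκ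
  have hκ0 : 0 < κ := lt_min hr0 (by positivity)
  have hκA : A * κ ≤ r ^ 2 / 32 := by
    have : κ ≤ r ^ 2 / (32 * A) := min_le_right _ _
    calc A * κ ≤ A * (r ^ 2 / (32 * A)) := mul_le_mul_of_nonneg_left this hA0.le
      _ = r ^ 2 / 32 := by field_simp
  set η : ℝ := min (min (m / 4) (1 / 8)) (r ^ 2 / (32 * A)) with hη
  have hη0 : 0 < η := lt_min (lt_min (by positivity) (by norm_num)) (by positivity)
  have hη1 : η ≤ m / 4 := (min_le_left _ _).trans (min_le_left _ _)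
  have hη2 : η ≤ 1 / 8 := (min_le_left _ _).trans (min_le_right _ _)
  have hη3 : A * η ≤ r ^ 2 / 32 := by
    have : η ≤ r ^ 2 / (32 * A) := min_le_right _ _
    calc A * η ≤ A * (r ^ 2 / (32 * A)) := mul_le_mul_of_nonneg_left this hA0.le
      _ = r ^ 2 / 32 := by field_simp
  have hC0 : 0 < C := by linarith
  set ε : ℝ := η / C with hε
  have hε0 : 0 < ε := by positivity
  have hCε : C * ε = η := by rw [hε]; field_simp
  set L : ℝ := 1 + 2 / A + A * 3 + A * (G + 1) with hL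
  have hL1 : 1 ≤ L := by
    have : 0 ≤ 2 / A + A * 3 + A * (G + 1) := by positivity
    linarith
  refine ⟨r, L, κ, A, ε, hr0, by linarith, hL1, hκ0, min_le_left _ _, hA0, hε0,
    fun ρ' hc => ?_⟩
  obtain ⟨k1, k2, k3, k4⟩ := hC ε hε0 (by rw [hCε]; linarith) ρ' hc
  rw [hCε] at k2 k3 k4
  set g' : ℂ × ℂ → ℝ := fun x => Real.exp (lam * ρ' (T x)) with hgd'
  have hBK : ∀ x ∈ Bo r, x ∈ K := by
    intro x hx
    rw [G7b3_Bo] at hx
    exact (ball_subset_closedBall.trans (closedBall_subset_closedBall hrr)) hx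
  have hBδ : ∀ x ∈ Bo r, x ∈ ball (0 : ℂ × ℂ) δ := by
    intro x hx
    rw [G7b3_Bo] at hx
    exact ball_subset_ball hrδ hx
  have h0K : (0 : ℂ × ℂ) ∈ K := mem_closedBall_self (by linarith)
  have h0B : (0 : ℂ × ℂ) ∈ Bo r := by rw [G7b3_Bo]; exact mem_ball_self hr0
  have hd' : ∀ x ∈ K, DifferentiableAt ℝ g' x := fun x hx =>
    (k1.differentiableOn (by norm_num)).differentiableAt (hU.mem_nhds (hKU hx))
  have hfR : ∀ x ∈ K, fderiv ℝ (fun x => A * (1 - g' x)) x = -(A • fderiv ℝ g' x) := by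
    intro x hx
    have h3 := (((hd' x hx).hasFDerivAt.const_sub 1).const_mul A).fderiv
    rw [h3, smul_neg]
  have hsq : ∀ v : ℂ × ℂ, ‖v‖ ^ 2 ≤ ‖v.1‖ ^ 2 + ‖v.2‖ ^ 2 := by
    intro v
    rw [Prod.norm_def]
    rcases max_cases ‖v.1‖ ‖v.2‖ with ⟨h, -⟩ | ⟨h, -⟩ <;> rw [h] <;>
      nlinarith [sq_nonneg ‖v.1‖, sq_nonneg ‖v.2‖]
  -- strong monotonicity of the gradient
  have hmono : ∀ x ∈ Bo r, ∀ y ∈ Bo r, m / 2 * (‖(y - x).1‖ ^ 2 + ‖(y - x).2‖ ^ 2) ≤
      (fderiv ℝ g' y - fderiv ℝ g' x) (y - x) := by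
    intro x hx y hy
    have h3 := hδ2 x (hBδ x hx) y (hBδ y hy)
    have h4 := k4 y (hBK y hy) x (hBK x hx)
    set v := y - x with hv
    have h5 : |(fderiv ℝ g y - fderiv ℝ g x - fderiv ℝ (fderiv ℝ g) 0 v) v| ≤
        m / 4 * ‖v‖ * ‖v‖ :=
      (ContinuousLinearMap.le_opNorm _ v).trans (mul_le_mul_of_nonneg_right h3 (norm_nonneg _))
    have h6 : |((fderiv ℝ g' y - fderiv ℝ g y) - (fderiv ℝ g' x - fderiv ℝ g x)) v| ≤
        η * ‖v‖ * ‖v‖ :=
      (ContinuousLinearMap.le_opNorm _ v).trans (mul_le_mul_of_nonneg_right h4 (norm_nonneg _))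
    have h7 := h2 v
    have h8 := hsq v
    simp only [ContinuousLinearMap.sub_apply] at h5 h6 ⊢
    have h9 := (abs_le.1 h5).1
    have h10 := (abs_le.1 h6).1
    have h11 : m / 4 * ‖v‖ * ‖v‖ = m / 4 * ‖v‖ ^ 2 := by ring
    have h12 : η * ‖v‖ * ‖v‖ = η * ‖v‖ ^ 2 := by ring
    rw [h11] at h9
    rw [h12] at h10
    have h13 : η * ‖v‖ ^ 2 ≤ m / 4 * ‖v‖ ^ 2 := mul_le_mul_of_nonneg_right hη1 (sq_nonneg _)
    have h14 : m / 4 * ‖v‖ ^ 2 ≤ m / 4 * (‖v.1‖ ^ 2 + ‖v.2‖ ^ 2) :=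
      mul_le_mul_of_nonneg_left h8 hm4.le
    linarith
  have hconv : ∀ x ∈ Bo r, ∀ y ∈ Bo r, g' x + fderiv ℝ g' x (y - x) +
      m / 4 * (‖y.1 - x.1‖ ^ 2 + ‖y.2 - x.2‖ ^ 2) ≤ g' y := by
    intro x hx y hy
    set v := y - x with hv
    set q := ‖y.1 - x.1‖ ^ 2 + ‖y.2 - x.2‖ ^ 2 with hq
    have hBc : Convex ℝ (Bo r) := by rw [G7b3_Bo]; exact convex_ball _ _
    have hseg : ∀ t ∈ Icc (0 : ℝ) 1, x + t • v ∈ Bo r := by
      intro t ht
      have := hBc.add_smul_sub_mem hx hy ht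
      exact this
    have hder : ∀ t ∈ Icc (0 : ℝ) 1, HasDerivAt (fun t : ℝ => g' (x + t • v) -
        t * fderiv ℝ g' x v - m / 4 * q * t ^ 2)
        (fderiv ℝ g' (x + t • v) v - fderiv ℝ g' x v - m / 4 * q * (2 * t)) t := by
      intro t ht
      have h3 : HasDerivAt (fun t : ℝ => x + t • v) v t := by
        simpa using ((hasDerivAt_id t).smul_const v).const_add x
      have h4 : HasDerivAt (fun t : ℝ => g' (x + t • v)) (fderiv ℝ g' (x + t • v) v) t :=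
        HasFDerivAt.comp_hasDerivAt (f := fun t : ℝ => x + t • v) (l := g') t
          ((hd' (x + t • v) (hBK _ (hseg t ht))).hasFDerivAt) h3
      have h5 : HasDerivAt (fun t : ℝ => t * fderiv ℝ g' x v) (fderiv ℝ g' x v) t := by
        simpa using (hasDerivAt_id t).mul_const (fderiv ℝ g' x v)
      have h6 : HasDerivAt (fun t : ℝ => m / 4 * q * t ^ 2) (m / 4 * q * (2 * t)) t := by
        simpa using (hasDerivAt_pow 2 t).const_mul (m / 4 * q)
      exact (h4.sub h5).sub h6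
    have hmon : MonotoneOn (fun t : ℝ => g' (x + t • v) -
        t * fderiv ℝ g' x v - m / 4 * q * t ^ 2) (Icc 0 1) := by
      apply monotoneOn_of_deriv_nonneg (convex_Icc 0 1)
      · intro t ht
        exact (hder t ht).continuousAt.continuousWithinAt
      · intro t ht
        rw [interior_Icc] at ht
        exact (hder t (Ioo_subset_Icc_self ht)).differentiableAt.differentiableWithinAt
      · intro t ht
        rw [interior_Icc] at ht
        rw [(hder t (Ioo_subset_Icc_self ht)).deriv]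
        have h3 := hmono x hx (x + t • v) (hseg t (Ioo_subset_Icc_self ht))
        have e1 : x + t • v - x = t • v := by abel
        rw [e1] at h3
        have e2 : ‖(t • v).1‖ ^ 2 + ‖(t • v).2‖ ^ 2 = t ^ 2 * q := by
          rw [Prod.smul_fst, Prod.smul_snd, norm_smul, norm_smul, hq, hv, Prod.fst_sub,
            Prod.snd_sub, mul_pow, mul_pow, Real.norm_eq_abs, sq_abs]
          ring
        rw [e2, map_smul, smul_eq_mul, ContinuousLinearMap.sub_apply] at h3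
        have h4 : t * (m / 2 * t * q) ≤ t * (fderiv ℝ g' (x + t • v) v - fderiv ℝ g' x v) := by
          calc t * (m / 2 * t * q) = m / 2 * (t ^ 2 * q) := by ring
            _ ≤ _ := h3
        have h5 := le_of_mul_le_mul_left h4 ht.1
        have h6 : m / 4 * q * (2 * t) = m / 2 * t * q := by ring
        rw [h6]
        linarith
    have h3 := hmon (left_mem_Icc.2 zero_le_one) (right_mem_Icc.2 zero_le_one) zero_le_one
    simp only [zero_smul, one_smul, add_zero, zero_mul, one_mul, one_pow, mul_one] at h3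
    have e3 : x + v = y := by rw [hv]; abel
    rw [e3] at h3
    have e4 : m / 4 * q * (0 : ℝ) ^ 2 = 0 := by ring
    rw [e4] at h3
    linarith
  have hconc : ∀ x ∈ Bo r, ∀ y ∈ Bo r, A * (1 - g' y) ≤ A * (1 - g' x) +
      fderiv ℝ (fun x => A * (1 - g' x)) x (y - x) - (‖y.1 - x.1‖ ^ 2 + ‖y.2 - x.2‖ ^ 2) := by
    intro x hx y hy
    have h3 := hconv x hx y hy
    rw [hfR x (hBK x hx)]
    have h4 := mul_le_mul_of_nonneg_left h3 hA0.le
    have h5 : A * (m / 4 * (‖y.1 - x.1‖ ^ 2 + ‖y.2 - x.2‖ ^ 2)) =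
        ‖y.1 - x.1‖ ^ 2 + ‖y.2 - x.2‖ ^ 2 := by
      rw [hA]; field_simp
    simp only [ContinuousLinearMap.neg_apply, ContinuousLinearMap.smul_apply, smul_eq_mul]
    have h6 : A * (g' x + fderiv ℝ g' x (y - x) + m / 4 * (‖y.1 - x.1‖ ^ 2 + ‖y.2 - x.2‖ ^ 2)) =
        A * g' x + A * fderiv ℝ g' x (y - x) + (‖y.1 - x.1‖ ^ 2 + ‖y.2 - x.2‖ ^ 2) := by
      rw [mul_add, mul_add, h5]
    rw [h6] at h4
    linarith
  -- the gradient near 0
  have hgrad : ∀ x ∈ Bo r, ‖fderiv ℝ g' x - fderiv ℝ g 0‖ ≤ 1 / 4 := by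
    intro x hx
    have h3 := k3 x (hBK x hx)
    have h4 := hG4 x (hBK x hx) 0 h0K
    have h5 : ‖x‖ ≤ r := by
      rw [G7b3_Bo, mem_ball_zero_iff] at hx; exact hx.le
    rw [sub_zero] at h4
    have h6 : G * ‖x‖ ≤ 1 / 8 := (mul_le_mul_of_nonneg_left h5 hG0.le).trans hrG
    have h7 : fderiv ℝ g' x - fderiv ℝ g 0 = (fderiv ℝ g' x - fderiv ℝ g x) +
        (fderiv ℝ g x - fderiv ℝ g 0) := by abel
    rw [h7]
    refine (norm_add_le _ _).trans ?_
    linarith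
  have hg0 : ‖fderiv ℝ g 0‖ ≤ 2 := by
    refine ContinuousLinearMap.opNorm_le_bound _ (by norm_num) fun v => ?_
    rw [h1 v, norm_mul, Real.norm_eq_abs, Real.norm_eq_abs]
    have : |v.1.re| ≤ ‖v‖ := (Complex.abs_re_le_norm _).trans (norm_fst_le v)
    rw [abs_of_pos (by norm_num : (0 : ℝ) < 2)]
    linarith
  have hn1 : ‖((1 : ℂ), (0 : ℂ))‖ = 1 := by simp [Prod.norm_def]
  have hnI : ‖(Complex.I, (0 : ℂ))‖ = 1 := by simp [Prod.norm_def]
  constructor
  · refine ⟨hr0, hr1, hL1, ?_, ?_, ?_, ?_, ?_⟩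
    · have : Bo r ⊆ U := fun x hx => hKU (hBK x hx)
      exact (contDiffOn_const.mul (contDiffOn_const.sub k1)).mono this
    · intro x hx
      have hb := hgrad x hx
      have b1 : |fderiv ℝ g' x (1, 0) - 2| ≤ 1 / 4 := by
        have h3 := ContinuousLinearMap.le_opNorm (fderiv ℝ g' x - fderiv ℝ g 0) ((1 : ℂ), (0 : ℂ))
        rw [hn1, mul_one, ContinuousLinearMap.sub_apply, h1] at h3
        simp only [Complex.one_re, mul_one, Real.norm_eq_abs] at h3
        linarith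
      have b2 : |fderiv ℝ g' x (Complex.I, 0)| ≤ 1 / 4 := by
        have h3 := ContinuousLinearMap.le_opNorm (fderiv ℝ g' x - fderiv ℝ g 0)
          (Complex.I, (0 : ℂ))
        rw [hnI, mul_one, ContinuousLinearMap.sub_apply, h1] at h3
        simp only [Complex.I_re, mul_zero, sub_zero, Real.norm_eq_abs] at h3
        linarith
      have h4 : (d1 (fun x => A * (1 - g' x)) x).re = -(A * fderiv ℝ g' x (1, 0)) / 2 := by
        unfold d1
        rw [hfR x (hBK x hx)]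
        simp
      have h5 : |(d1 (fun x => A * (1 - g' x)) x).re| ≤ ‖d1 (fun x => A * (1 - g' x)) x‖ :=
        Complex.abs_re_le_norm _
      rw [h4] at h5
      have h6 : A / 2 ≤ |-(A * fderiv ℝ g' x (1, 0)) / 2| := by
        rw [abs_div, abs_neg, abs_mul, abs_of_pos hA0, abs_two]
        have : 1 ≤ |fderiv ℝ g' x (1, 0)| := by
          have := (abs_le.1 b1).1
          exact le_trans (by linarith) (le_abs_self _)
        nlinarith
      have h7 : A / 2 ≤ ‖d1 (fun x => A * (1 - g' x)) x‖ := h6.trans h5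
      have h8 : 2 / A ≤ L := by
        have : 0 ≤ 1 + A * 3 + A * (G + 1) := by positivity
        linarith
      calc (1 : ℝ) = 2 / A * (A / 2) := by field_simp
        _ ≤ L * ‖d1 (fun x => A * (1 - g' x)) x‖ :=
          mul_le_mul h8 h7 (by positivity) (by linarith)
    · intro x hx
      rw [hfR x (hBK x hx), norm_neg, norm_smul, Real.norm_of_nonneg hA0.le]
      have h3 : ‖fderiv ℝ g' x‖ ≤ 3 := by
        have h4 : fderiv ℝ g' x = (fderiv ℝ g' x - fderiv ℝ g 0) + fderiv ℝ g 0 := by abel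
        rw [h4]
        refine (norm_add_le _ _).trans ?_
        linarith [hgrad x hx]
      have h5 := mul_le_mul_of_nonneg_left h3 hA0.le
      have : 0 ≤ 1 + 2 / A + A * (G + 1) := by positivity
      linarith
    · intro x hx y hy
      rw [hfR x (hBK x hx), hfR y (hBK y hy)]
      have e1 : -(A • fderiv ℝ g' x) - -(A • fderiv ℝ g' y) =
          A • -(((fderiv ℝ g' x - fderiv ℝ g x) - (fderiv ℝ g' y - fderiv ℝ g y)) +
            (fderiv ℝ g x - fderiv ℝ g y)) := by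
        rw [smul_neg, smul_add, smul_sub, smul_sub, smul_sub, smul_sub]
        abel
      rw [e1, norm_smul, norm_neg, Real.norm_of_nonneg hA0.le]
      have h3 := k4 x (hBK x hx) y (hBK y hy)
      have h4 := hG4 x (hBK x hx) y (hBK y hy)
      have n0 : 0 ≤ ‖x - y‖ := norm_nonneg _
      have h5 : η * ‖x - y‖ ≤ 1 * ‖x - y‖ := mul_le_mul_of_nonneg_right (by linarith) n0
      have h6 := (norm_add_le ((fderiv ℝ g' x - fderiv ℝ g x) - (fderiv ℝ g' y - fderiv ℝ g y))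
        (fderiv ℝ g x - fderiv ℝ g y))
      have h7 : ‖((fderiv ℝ g' x - fderiv ℝ g x) - (fderiv ℝ g' y - fderiv ℝ g y)) +
            (fderiv ℝ g x - fderiv ℝ g y)‖ ≤ (G + 1) * ‖x - y‖ := by linarith
      have h8 := mul_le_mul_of_nonneg_left h7 hA0.le
      have h9 : A * (G + 1) * ‖x - y‖ ≤ L * ‖x - y‖ := by
        apply mul_le_mul_of_nonneg_right _ n0
        have : 0 ≤ 1 + 2 / A + A * 3 := by positivity
        linarith
      linarith
    · intro x hx y hy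
      exact hconc x hx y hy
  · intro x hx1 hx2 hx3
    have hxB : x ∈ Bo r := ⟨lt_of_lt_of_le hx1 (min_le_left _ _), hx3⟩
    have h3 := hconc 0 h0B x hxB
    rw [hfR 0 h0K] at h3
    simp only [ContinuousLinearMap.neg_apply, ContinuousLinearMap.smul_apply, smul_eq_mul,
      sub_zero, Prod.fst_zero, Prod.snd_zero] at h3
    have h4 : g 0 = 1 := by
      rw [hgd]; simp [h0]
    have h5 := (abs_le.1 (k2 0 h0K)).1
    have h5' : g 0 - η ≤ g' 0 := by
      have : g' 0 - g 0 ≥ -η := h5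
      linarith
    have h6 := k3 0 h0K
    have h7 := ContinuousLinearMap.le_opNorm (fderiv ℝ g' 0 - fderiv ℝ g 0) x
    have hxn : ‖x‖ ≤ 1 := by
      rw [G7b3_Bo, mem_ball_zero_iff] at hxB; linarith
    have h8 : |fderiv ℝ g' 0 x - 2 * x.1.re| ≤ η := by
      rw [ContinuousLinearMap.sub_apply, h1, Real.norm_eq_abs] at h7
      refine h7.trans ?_
      calc _ ≤ η * 1 := mul_le_mul h6 hxn (norm_nonneg _) hη0.le
        _ = η := mul_one _
    have h9 := (abs_le.1 h8).1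
    have h10 : -κ ≤ x.1.re := by
      have := (abs_le.1 (Complex.abs_re_le_norm x.1)).1
      linarith
    have h11 : -(2 * κ) - η ≤ fderiv ℝ g' 0 x := by linarith
    have h12 : A * (-(2 * κ) - η) ≤ A * fderiv ℝ g' 0 x := mul_le_mul_of_nonneg_left h11 hA0.le
    have h13 : A * (1 - g' 0) ≤ A * η := by
      apply mul_le_mul_of_nonneg_left _ hA0.le
      linarith
    have h14 : r ^ 2 / 4 ≤ ‖x.2‖ ^ 2 := by
      have := pow_le_pow_left₀ (by positivity) hx2 2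
      calc r ^ 2 / 4 = (r / 2) ^ 2 := by ring
        _ ≤ _ := this
    have h15 : 0 ≤ ‖x.1‖ ^ 2 := sq_nonneg _
    have h16 : 0 < r ^ 2 := by positivity
    have h17 : A * (-(2 * κ) - η) = -(2 * (A * κ)) - A * η := by ring
    rw [h17] at h12
    show A * (1 - g' x) < 0
    linarith

end Pool.Agent.P157G
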