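import Mathlib
import Pool.Agent.P157G.Mdl
import Pool.Agent.P157G.Pull
import Pool.Agent.P157G.Lam
import Pool.Agent.P157G.Crd
import Pool.Agent.P157G.Stb

set_option autoImplicit false

open MeasureTheory Metric Set Filter Topology Complex

namespace Pool.Agent.P157G

open Pool.Agent.P157D (d1 d2 CR Bo)

theorem G7b4_Bo_mono {r r₀ : ℝ} (h : r ≤ r₀) : Bo r ⊆ Bo r₀ :=
  fun _ hx => ⟨hx.1.trans_le h, hx.2.trans_le h⟩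

theorem G7b4_Bo_open (r : ℝ) : IsOpen (Bo r) := by
  have h1 : IsOpen {x : ℂ × ℂ | ‖x.1‖ < r} := isOpen_lt (continuous_fst.norm) continuous_const
  have h2 : IsOpen {x : ℂ × ℂ | ‖x.2‖ < r} := isOpen_lt (continuous_snd.norm) continuous_const
  exact h1.inter h2

/-- **TARGET** -/
theorem nara {ρ : ℂ × ℂ → ℝ} (hρ : ContDiff ℝ 2 ρ) {q : ℂ × ℂ} (hq : ρ q = 0)
    (hd : fderiv ℝ ρ q ≠ 0) (hL : ∀ v : ℂ × ℂ, v ≠ 0 → dd ρ q v = 0 → 0 < lv ρ q v)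
    {O : Set (ℂ × ℂ)} (hO : IsOpen O) (hqO : q ∈ O) :
    ∃ (Θ T : ℂ × ℂ → ℂ × ℂ) (U : Set (ℂ × ℂ)) (r L κ lam A ε B : ℝ), 0 < r ∧ r ≤ 1 ∧ 1 ≤ L ∧
      0 < κ ∧ κ ≤ r ∧ 0 < lam ∧ 0 < A ∧ 0 < ε ∧ 0 ≤ B ∧
      IsOpen U ∧ q ∈ U ∧ U ⊆ O ∧ Θ q = (0, 0) ∧ T (0, 0) = q ∧ DifferentiableOn ℂ Θ U ∧
      DifferentiableOn ℂ T (Bo r) ∧ MapsTo T (Bo r) U ∧ (∀ x ∈ Bo r, Θ (T x) = x) ∧
      (∀ z ∈ U, Θ z ∈ Bo r → T (Θ z) = z) ∧ (∀ x ∈ Bo r, ‖fderiv ℂ T x‖ ≤ B) ∧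
      ∀ ρ' : ℂ × ℂ → ℝ, Cls ε ρ ρ' → CR r L (fun x => A * (1 - Real.exp (lam * ρ' (T x)))) ∧
        ∀ x : ℂ × ℂ, ‖x.1‖ < κ → r / 2 ≤ ‖x.2‖ → ‖x.2‖ < r →
          A * (1 - Real.exp (lam * ρ' (T x))) < 0 := by
  obtain ⟨lam, hlam, hlv⟩ := lam_exists hρ hq hL
  have hσ : ContDiff ℝ 2 (fun x => Real.exp (lam * ρ x)) := (contDiff_const.mul hρ).exp
  have hρd : HasFDerivAt ρ (fderiv ℝ ρ q) q :=
    ((hρ.differentiable (by norm_num)) q).hasFDerivAt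
  have hσd : fderiv ℝ (fun x => Real.exp (lam * ρ x)) q ≠ 0 := by
    have h1 : HasFDerivAt (fun x => Real.exp (lam * ρ x))
        (Real.exp (lam * ρ q) • (lam • fderiv ℝ ρ q)) q := (hρd.const_mul lam).exp
    rw [h1.fderiv]
    exact smul_ne_zero (Real.exp_pos _).ne' (smul_ne_zero hlam.ne' hd)
  obtain ⟨Θ, T, U, r₀, B, m, hr₀, hr₀1, hB, hm, hU, hqU, hUO, hΘq, hT0, hΘd, hTd, hTm, hΘT, hTΘ,
    hTb, hg1, hg2⟩ := coord_exists hσ hσd hlv hO hqO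
  obtain ⟨r, L, κ, A, ε, hr, hrr, hL1, hκ, hκr, hA, hε, hcl⟩ :=
    conc_stab hρ hlam hm hr₀ hr₀1 hTd (by rw [hT0]; exact hq) hg1 hg2
  have hsub : Bo r ⊆ Bo r₀ := G7b4_Bo_mono hrr
  exact ⟨Θ, T, U, r, L, κ, lam, A, ε, B, hr, hrr.trans hr₀1, hL1, hκ, hκr, hlam, hA, hε, hB, hU,
    hqU, hUO, hΘq, hT0, hΘd, hTd.mono hsub, hTm.mono_left hsub, fun x hx => hΘT x (hsub hx),
    fun z hz hz' => hTΘ z hz (hsub hz'), fun x hx => hTb x (hsub hx), hcl⟩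

/-- **TARGET** -/
theorem loc_slv {ρ : ℂ × ℂ → ℝ} (hρ : ContDiff ℝ 2 ρ) {q : ℂ × ℂ} (hq : ρ q = 0)
    (hd : fderiv ℝ ρ q ≠ 0) (hL : ∀ v : ℂ × ℂ, v ≠ 0 → dd ρ q v = 0 → 0 < lv ρ q v) :
    ∃ (N' N : Set (ℂ × ℂ)) (ε C : ℝ), IsOpen N' ∧ IsOpen N ∧ q ∈ N ∧ N ⊆ N' ∧ 0 < ε ∧ 0 ≤ C ∧
      ∀ ρ' : ℂ × ℂ → ℝ, Cls ε ρ ρ' → Slv (N' ∩ {x | ρ' x < 0}) (N ∩ {x | ρ' x < 0}) C := by
  obtain ⟨Θ, T, U, r, L, κ, lam, A, ε, B, hr, hr1, hL1, hκ, hκr, hlam, hA, hε, hB, hU,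
    hqU, hUO, hΘq, hT0, hΘd, hTd, hTm, hΘT, hTΘ, hTb, hcl⟩ := nara hρ hq hd hL isOpen_univ
      (mem_univ q)
  obtain ⟨C, hC, hmod⟩ := slv_model (r := r) (L := L) hr hr1 hL1
  have hN' : IsOpen (U ∩ Θ ⁻¹' (Bo r)) :=
    hΘd.continuousOn.isOpen_inter_preimage hU (G7b4_Bo_open r)
  have hκo : IsOpen {x : ℂ × ℂ | ‖x.1‖ < κ} := isOpen_lt (continuous_fst.norm) continuous_const
  have hN : IsOpen (U ∩ Θ ⁻¹' (Bo r ∩ {x : ℂ × ℂ | ‖x.1‖ < κ})) :=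
    hΘd.continuousOn.isOpen_inter_preimage hU ((G7b4_Bo_open r).inter hκo)
  refine ⟨U ∩ Θ ⁻¹' (Bo r), U ∩ Θ ⁻¹' (Bo r ∩ {x : ℂ × ℂ | ‖x.1‖ < κ}), ε, C * (2 * B), hN', hN,
    ?_, ?_, hε, by positivity, ?_⟩
  · refine ⟨hqU, ?_⟩
    show Θ q ∈ Bo r ∩ {x : ℂ × ℂ | ‖x.1‖ < κ}
    rw [hΘq]
    refine ⟨⟨?_, ?_⟩, ?_⟩
    · simpa using hr
    · simpa using hr
    · simpa using hκ
  · rintro z ⟨hz1, hz2⟩
    exact ⟨hz1, hz2.1⟩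
  · intro ρ' hρ'
    obtain ⟨hCR, hneg⟩ := hcl ρ' hρ'
    have hρ'c : Continuous ρ' := hρ'.1.continuous
    have hρ'o : IsOpen {x | ρ' x < 0} := isOpen_lt hρ'c continuous_const
    have hsgn : ∀ x, (0 < A * (1 - Real.exp (lam * ρ' (T x)))) ↔ ρ' (T x) < 0 := by
      intro x
      rw [mul_pos_iff_of_pos_left hA, sub_pos, Real.exp_lt_one_iff]
      constructor
      · intro h
        by_contra hcon
        push Not at hcon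
        have := mul_nonneg hlam.le hcon
        linarith
      · intro h
        exact mul_neg_of_pos_of_neg hlam h
    have hEB : Om r κ (fun x => A * (1 - Real.exp (lam * ρ' (T x)))) ⊆ Bo r := by
      rintro x ⟨h1, h2, _⟩
      exact ⟨h1.trans_le hκr, h2⟩
    have hEo : IsOpen (Om r κ (fun x => A * (1 - Real.exp (lam * ρ' (T x))))) := by
      have h1 : IsOpen (Bo r ∩ (fun x => A * (1 - Real.exp (lam * ρ' (T x)))) ⁻¹' (Ioi 0)) :=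
        hCR.smooth.continuousOn.isOpen_inter_preimage (G7b4_Bo_open r) isOpen_Ioi
      have h2 : Om r κ (fun x => A * (1 - Real.exp (lam * ρ' (T x)))) =
          (Bo r ∩ (fun x => A * (1 - Real.exp (lam * ρ' (T x)))) ⁻¹' (Ioi 0)) ∩
            {x : ℂ × ℂ | ‖x.1‖ < κ} := by
        ext x
        constructor
        · intro hx
          exact ⟨⟨hEB hx, hx.2.2⟩, hx.1⟩
        · rintro ⟨⟨h3, h4⟩, h5⟩
          exact ⟨h5, h3.2, h4⟩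
      rw [h2]
      exact h1.inter hκo
    have hmodel := hmod κ _ hCR hκ hκr hneg
    refine slv_pull (hN'.inter hρ'o) (hN.inter hρ'o) hEo hEo subset_rfl (T := T) (Θ := Θ) hC hB
      (hTd.mono hEB) ?_ (fun x hx => hTb x (hEB hx)) (hΘd.mono ?_) ?_ ?_ hmodel
    · intro x hx
      refine ⟨⟨hTm (hEB hx), ?_⟩, (hsgn x).1 hx.2.2⟩
      show Θ (T x) ∈ Bo r
      rw [hΘT x (hEB hx)]
      exact hEB hx
    · rintro z ⟨⟨hz, _⟩, _⟩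
      exact hz
    · rintro z ⟨⟨hz, hz2⟩, hz3⟩
      refine ⟨hz2.2, hz2.1.2, ?_⟩
      rw [hsgn, hTΘ z hz hz2.1]
      exact hz3
    · rintro z ⟨⟨hz, hz2⟩, _⟩
      exact hTΘ z hz hz2.1

end Pool.Agent.P157G
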