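import Mathlib
import Pool.Agent.P157G.BSt
import Pool.Agent.P157G.Nara

set_option autoImplicit false

open MeasureTheory Metric Set Filter Topology Complex

namespace Pool.Agent.P157G

open Pool.Agent.P157D (d1 d2 CR Bo)

section

variable {E : Type} [NormedAddCommGroup E] [NormedSpace ℝ E]

section

variable {F : Type} [NormedAddCommGroup F] [NormedSpace ℝ F]

theorem G8c_f0 (x : E) : ‖fderiv ℝ (fun _ : E => (0 : F)) x‖ ≤ 0 := by
  simp

theorem G8c_fadd {f g : E → F} {x : E} {B B' : ℝ} (hf : DifferentiableAt ℝ f x)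
    (hg : DifferentiableAt ℝ g x) (h : ‖fderiv ℝ f x‖ ≤ B) (h' : ‖fderiv ℝ g x‖ ≤ B') :
    ‖fderiv ℝ (fun y => f y + g y) x‖ ≤ B + B' := by
  rw [fderiv_fun_add hf hg]
  exact (norm_add_le _ _).trans (add_le_add h h')

theorem G8c_fsmul {f : E → F} {x : E} {B c : ℝ} (hf : DifferentiableAt ℝ f x) (hc : 0 ≤ c)
    (h : ‖fderiv ℝ f x‖ ≤ B) : ‖fderiv ℝ (fun y => c • f y) x‖ ≤ c * B := by
  rw [fderiv_fun_const_smul hf, norm_smul, Real.norm_of_nonneg hc]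
  exact mul_le_mul_of_nonneg_left h hc

theorem G8c_fsub {f g : E → F} {x : E} {B : ℝ} (hf : DifferentiableAt ℝ f x)
    (hg : DifferentiableAt ℝ g x) (h : ‖fderiv ℝ g x‖ ≤ B) :
    ‖fderiv ℝ f x - fderiv ℝ (fun y => f y - g y) x‖ ≤ B := by
  rw [fderiv_fun_sub hf hg, sub_sub_cancel]
  exact h

theorem G8c_fbd {f : E → F} (h : ContDiff ℝ 1 f) (hc : HasCompactSupport f) :
    ∃ B : ℝ, ∀ x, ‖fderiv ℝ f x‖ ≤ B :=
  (hc.fderiv (𝕜 := ℝ)).exists_bound_of_continuous (h.continuous_fderiv (by norm_num))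

end

/-- bounded in `C²` -/
def G8c_G (B : ℝ) (σ : E → ℝ) : Prop :=
  ContDiff ℝ 2 σ ∧ ∀ x, |σ x| ≤ B ∧ ‖fderiv ℝ σ x‖ ≤ B ∧ ‖fderiv ℝ (fderiv ℝ σ) x‖ ≤ B

theorem G8c_zero : G8c_G 0 (fun _ : E => 0) := by
  refine ⟨contDiff_const, fun x => ?_⟩
  have h1 : fderiv ℝ (fun _ : E => (0 : ℝ)) = fun _ => 0 := by
    funext y
    simp
  rw [h1]
  exact ⟨by simp, by simp, G8c_f0 x⟩

theorem G8c_d2 {σ : E → ℝ} (h : ContDiff ℝ 2 σ) : Differentiable ℝ (fderiv ℝ σ) := by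
  have h1 : ContDiff ℝ 1 (fderiv ℝ σ) := h.fderiv_right (by norm_num)
  exact h1.differentiable (by norm_num)

theorem G8c_d1 {σ : E → ℝ} (h : ContDiff ℝ 2 σ) : Differentiable ℝ σ :=
  h.differentiable (by norm_num)

theorem G8c_add {B B' : ℝ} {σ σ' : E → ℝ} (h : G8c_G B σ) (h' : G8c_G B' σ') :
    G8c_G (B + B') (fun x => σ x + σ' x) := by
  refine ⟨h.1.add h'.1, fun x => ?_⟩
  have h1 : fderiv ℝ (fun x => σ x + σ' x) = fun y => fderiv ℝ σ y + fderiv ℝ σ' y := by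
    funext y
    exact fderiv_fun_add (G8c_d1 h.1 y) (G8c_d1 h'.1 y)
  rw [h1]
  refine ⟨?_, ?_, ?_⟩
  · exact (abs_add_le _ _).trans (add_le_add (h.2 x).1 (h'.2 x).1)
  · exact (norm_add_le _ _).trans (add_le_add (h.2 x).2.1 (h'.2 x).2.1)
  · exact G8c_fadd (G8c_d2 h.1 x) (G8c_d2 h'.1 x) (h.2 x).2.2 (h'.2 x).2.2

theorem G8c_mul {B : ℝ} {σ : E → ℝ} (h : G8c_G B σ) {c : ℝ} (hc : 0 ≤ c) :
    G8c_G (c * B) (fun x => c * σ x) := by
  refine ⟨contDiff_const.mul h.1, fun x => ?_⟩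
  have h1 : fderiv ℝ (fun x => c * σ x) = fun y => c • fderiv ℝ σ y := by
    funext y
    exact fderiv_const_mul (G8c_d1 h.1 y) c
  rw [h1]
  refine ⟨?_, ?_, ?_⟩
  · rw [abs_mul, abs_of_nonneg hc]
    exact mul_le_mul_of_nonneg_left (h.2 x).1 hc
  · rw [norm_smul, Real.norm_of_nonneg hc]
    exact mul_le_mul_of_nonneg_left (h.2 x).2.1 hc
  · exact G8c_fsmul (G8c_d2 h.1 x) hc (h.2 x).2.2

theorem G8c_sum {I : Type} {B : I → ℝ} {χ : I → E → ℝ} (s : Finset I)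
    (h : ∀ q ∈ s, G8c_G (B q) (χ q)) : G8c_G (∑ q ∈ s, B q) (fun x => ∑ q ∈ s, χ q x) := by
  classical
  induction s using Finset.induction_on with
  | empty => simpa using G8c_zero
  | insert a s ha ih =>
    simp only [Finset.sum_insert ha]
    exact G8c_add (h a (Finset.mem_insert_self a s))
      (ih fun q hq => h q (Finset.mem_insert_of_mem hq))

theorem G8c_cls0 {ρ : E → ℝ} (hρ : ContDiff ℝ 2 ρ) {B ε : ℝ} {σ : E → ℝ}
    (h : G8c_G B σ) (hB : B ≤ ε) : ContDiff ℝ 2 (fun x => ρ x - σ x) ∧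
      ∀ x, |ρ x - (ρ x - σ x)| ≤ ε ∧ ‖fderiv ℝ ρ x - fderiv ℝ (fun x => ρ x - σ x) x‖ ≤ ε ∧
      ‖fderiv ℝ (fderiv ℝ ρ) x - fderiv ℝ (fderiv ℝ (fun x => ρ x - σ x)) x‖ ≤ ε := by
  refine ⟨hρ.sub h.1, fun x => ?_⟩
  have h1 : fderiv ℝ (fun x => ρ x - σ x) = fun y => fderiv ℝ ρ y - fderiv ℝ σ y := by
    funext y
    exact fderiv_fun_sub (G8c_d1 hρ y) (G8c_d1 h.1 y)
  rw [h1]
  refine ⟨?_, ?_, ?_⟩
  · rw [sub_sub_cancel]
    exact (h.2 x).1.trans hB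
  · show ‖fderiv ℝ ρ x - (fderiv ℝ ρ x - fderiv ℝ σ x)‖ ≤ ε
    rw [sub_sub_cancel]
    exact (h.2 x).2.1.trans hB
  · exact G8c_fsub (G8c_d2 hρ x) (G8c_d2 h.1 x) ((h.2 x).2.2.trans hB)

theorem G8c_bdd {χ : E → ℝ} (h : ContDiff ℝ 2 χ) (hc : HasCompactSupport χ) :
    ∃ B : ℝ, G8c_G B χ := by
  obtain ⟨B0, h0⟩ := hc.exists_bound_of_continuous h.continuous
  obtain ⟨B1, h1⟩ := G8c_fbd (h.of_le (by norm_num)) hc
  obtain ⟨B2, h2⟩ := G8c_fbd (h.fderiv_right (m := 1) (by norm_num)) (hc.fderiv (𝕜 := ℝ))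
  refine ⟨max B0 (max B1 B2), h, fun x => ⟨?_, ?_, ?_⟩⟩
  · exact (h0 x).trans (le_max_left _ _)
  · exact (h1 x).trans ((le_max_left _ _).trans (le_max_right _ _))
  · exact (h2 x).trans ((le_max_right _ _).trans (le_max_right _ _))

end

/-- bounded in `C²` -/
abbrev G8c_CB (B : ℝ) (σ : ℂ × ℂ → ℝ) : Prop := G8c_G B σ

theorem G8c_cls {ρ : ℂ × ℂ → ℝ} (hρ : ContDiff ℝ 2 ρ) {B ε : ℝ} {σ : ℂ × ℂ → ℝ}
    (h : G8c_CB B σ) (hB : B ≤ ε) : Cls ε ρ (fun x => ρ x - σ x) :=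
  G8c_cls0 hρ h hB

/-- the local step -/
theorem G8c_loc {ρ : ℂ × ℂ → ℝ} (h : NF ρ) {q : ℂ × ℂ} (hq : ρ q = 0) :
    ∃ (χ : ℂ × ℂ → ℝ) (ε C B : ℝ), 0 < ε ∧ 0 ≤ C ∧ G8c_CB B χ ∧ (∀ x, 0 ≤ χ x) ∧ 0 < χ q ∧
      ∀ ρ1 : ℂ × ℂ → ℝ, Cls ε ρ ρ1 → ∀ c : ℝ, 0 ≤ c →
        Bmp {x | ρ1 x < 0} {x | ρ1 x - c * χ x < 0} C := by
  obtain ⟨N', N, ε, C, hN', hN, hqN, hNN, hε, hC, hs⟩ :=
    loc_slv h.smooth hq (h.nd q hq) (h.levi q hq)
  obtain ⟨f, hf1, hf2, hf3, hf4, hf5⟩ :=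
    exists_contDiff_tsupport_subset (n := 2) (hN.mem_nhds hqN)
  set τ : ℂ × ℂ → ℂ := fun x => ((Real.smoothTransition (3 * f x - 1) : ℝ) : ℂ) with hτ
  have hτs : ContDiff ℝ 2 τ := by
    have h1 : ContDiff ℝ 2 (fun x => Real.smoothTransition (3 * f x - 1)) :=
      Real.smoothTransition.contDiff.comp ((contDiff_const.mul hf3).sub contDiff_const)
    exact Complex.ofRealCLM.contDiff.comp h1
  have hsup : Function.support τ ⊆ Function.support f := by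
    intro x hx hfx
    apply hx
    have h1 : Real.smoothTransition (3 * f x - 1) = 0 :=
      Real.smoothTransition.zero_of_nonpos (by rw [hfx]; norm_num)
    simp only [hτ, h1, Complex.ofReal_zero]
  have hts : tsupport τ ⊆ tsupport f := closure_mono hsup
  have hτc : HasCompactSupport τ := hf2.of_isClosed_subset (isClosed_tsupport τ) hts
  set V' : Set (ℂ × ℂ) := {x | 2 / 3 < f x} with hV'
  have hV'o : IsOpen V' := isOpen_lt continuous_const hf3.continuous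
  have hqV' : q ∈ V' := by
    show 2 / 3 < f q
    rw [hf5]
    norm_num
  obtain ⟨χ, hχ1, hχ2, hχ3, hχ4, hχ5⟩ :=
    exists_contDiff_tsupport_subset (n := 2) (hV'o.mem_nhds hqV')
  have hχ0 : ∀ x, 0 ≤ χ x := fun x => (hχ4 (mem_range_self x)).1
  set V : Set (ℂ × ℂ) := {x | χ x ≠ 0} with hV
  have hVo : IsOpen V := isOpen_ne_fun hχ3.continuous continuous_const
  have hτ1 : ∀ x ∈ V, τ x = 1 := by
    intro x hx
    have h1 : x ∈ V' := hχ1 (subset_tsupport χ hx)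
    have h2 : 2 / 3 < f x := h1
    have h3 : Real.smoothTransition (3 * f x - 1) = 1 :=
      Real.smoothTransition.one_of_one_le (by linarith)
    simp only [hτ, h3, Complex.ofReal_one]
  obtain ⟨C', hC', hb⟩ := bump_step hN' hN hVo hNN hτs hτc (hts.trans hf1) hτ1 hC
  obtain ⟨B, hB⟩ := G8c_bdd hχ3 hχ2
  refine ⟨χ, ε, C', B, hε, hC', hB, hχ0, by rw [hχ5]; norm_num, ?_⟩
  intro ρ1 h1 c hc
  have hρ1 : Continuous ρ1 := h1.1.continuous
  refine hb _ _ (isOpen_lt hρ1 continuous_const)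
    (isOpen_lt (hρ1.sub (continuous_const.mul hχ3.continuous)) continuous_const) ?_ ?_ (hs ρ1 h1)
  · intro x hx
    have h2 : ρ1 x < 0 := hx
    show ρ1 x - c * χ x < 0
    have h3 := mul_nonneg hc (hχ0 x)
    linarith
  · intro x hx
    have h2 : ρ1 x - c * χ x < 0 := hx
    by_cases h3 : χ x = 0
    · left
      show ρ1 x < 0
      rw [h3] at h2
      linarith
    · right
      exact h3

theorem G8c_refl (D : Set (ℂ × ℂ)) : Bmp D D 1 := by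
  intro f h M hM hF
  refine ⟨f, h, fun _ => 0, by rw [one_mul]; exact hF, ⟨contDiffOn_const, ?_, ?_, ?_⟩⟩
  · intro x _
    simp [db1]
  · intro x _
    simp [db2]
  · intro x _
    simpa using hM

theorem G8c_min {ε : ℂ × ℂ → ℝ} (t : Finset (ℂ × ℂ)) (h : ∀ q ∈ t, 0 < ε q) :
    ∃ e : ℝ, 0 < e ∧ ∀ q ∈ t, e ≤ ε q := by
  classical
  induction t using Finset.induction_on with
  | empty => exact ⟨1, one_pos, by simp⟩
  | insert a s ha ih =>
    obtain ⟨e, he, h1⟩ := ih fun q hq => h q (Finset.mem_insert_of_mem hq)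
    refine ⟨min e (ε a), lt_min he (h a (Finset.mem_insert_self a s)), ?_⟩
    intro q hq
    rcases Finset.mem_insert.1 hq with rfl | hq
    · exact min_le_right _ _
    · exact (min_le_left _ _).trans (h1 q hq)

/-- **TARGET** -/
theorem bumping {ρ : ℂ × ℂ → ℝ} (h : NF ρ) : ∃ (D'' : Set (ℂ × ℂ)) (C : ℝ), IsOpen D'' ∧
    {x | ρ x ≤ 0} ⊆ D'' ∧ 0 ≤ C ∧ Bmp {x | ρ x < 0} D'' C := by
  classical
  have hρc : Continuous ρ := h.smooth.continuous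
  set Z : Set (ℂ × ℂ) := {x | ρ x = 0} with hZ
  have hZc : IsCompact Z := by
    refine Metric.isCompact_of_isClosed_isBounded (isClosed_eq hρc continuous_const) ?_
    exact h.bdd.subset fun x (hx : ρ x = 0) => hx.le
  have hloc : ∀ q : ℂ × ℂ, ∃ (χ : ℂ × ℂ → ℝ) (ε C B : ℝ), ρ q = 0 → (0 < ε ∧ 0 ≤ C ∧ G8c_CB B χ ∧
      (∀ x, 0 ≤ χ x) ∧ 0 < χ q ∧ ∀ ρ1 : ℂ × ℂ → ℝ, Cls ε ρ ρ1 → ∀ c : ℝ, 0 ≤ c →
        Bmp {x | ρ1 x < 0} {x | ρ1 x - c * χ x < 0} C) := by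
    intro q
    by_cases hq : ρ q = 0
    · obtain ⟨χ, ε, C, B, h1⟩ := G8c_loc h hq
      exact ⟨χ, ε, C, B, fun _ => h1⟩
    · exact ⟨fun _ => 0, 0, 0, 0, fun h1 => absurd h1 hq⟩
  choose χ ε C B hl using hloc
  obtain ⟨t, ht, htc⟩ := hZc.elim_nhds_subcover (fun q => {x | 0 < χ q x}) fun q hq =>
    (isOpen_lt continuous_const (hl q hq).2.2.1.1.continuous).mem_nhds (hl q hq).2.2.2.2.1
  obtain ⟨e, he, hee⟩ := G8c_min t (fun q hq => (hl q (ht q hq)).1)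
  have hB0 : ∀ q ∈ t, 0 ≤ B q := fun q hq =>
    (abs_nonneg _).trans ((hl q (ht q hq)).2.2.1.2 q).1
  set S : ℝ := ∑ q ∈ t, B q with hS
  have hS0 : 0 ≤ S := Finset.sum_nonneg hB0
  set ε₀ : ℝ := e / (S + 1) with hε₀
  have hε₀0 : 0 < ε₀ := by positivity
  have hε₀S : ε₀ * S ≤ e := by
    rw [hε₀, div_mul_eq_mul_div, div_le_iff₀ (by positivity)]
    nlinarith
  have key : ∀ s : Finset (ℂ × ℂ), s ⊆ t → ∃ C₁ : ℝ, 0 ≤ C₁ ∧
      Bmp {x | ρ x < 0} {x | ρ x - ε₀ * ∑ q ∈ s, χ q x < 0} C₁ := by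
    intro s
    induction s using Finset.induction_on with
    | empty =>
      intro _
      refine ⟨1, zero_le_one, ?_⟩
      simp only [Finset.sum_empty, mul_zero, sub_zero]
      exact G8c_refl _
    | insert a s ha ih =>
      intro hs
      have hst : s ⊆ t := (Finset.subset_insert a s).trans hs
      have hat : a ∈ t := hs (Finset.mem_insert_self a s)
      obtain ⟨C₁, hC₁, hb⟩ := ih hst
      have hla := hl a (ht a hat)
      have hcb : G8c_CB (ε₀ * ∑ q ∈ s, B q) (fun x => ε₀ * ∑ q ∈ s, χ q x) :=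
        G8c_mul (G8c_sum s fun q hq => (hl q (ht q (hst hq))).2.2.1) hε₀0.le
      have hle : ε₀ * ∑ q ∈ s, B q ≤ ε a := by
        refine le_trans ?_ (hee a hat)
        refine le_trans (mul_le_mul_of_nonneg_left ?_ hε₀0.le) hε₀S
        exact Finset.sum_le_sum_of_subset_of_nonneg hst fun q hq _ => hB0 q hq
      have hcls := G8c_cls h.smooth hcb hle
      have hstep := hla.2.2.2.2.2 _ hcls ε₀ hε₀0.le
      have hσc : Continuous (fun x => ρ x - ε₀ * ∑ q ∈ s, χ q x) := hcls.1.continuous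
      have hset : {x | ρ x - ε₀ * ∑ q ∈ insert a s, χ q x < 0} =
          {x | (fun x => ρ x - ε₀ * ∑ q ∈ s, χ q x) x - ε₀ * χ a x < 0} := by
        ext x
        simp only [Set.mem_ofPred_eq]
        rw [Finset.sum_insert ha, mul_add, sub_sub, add_comm (ε₀ * ∑ q ∈ s, χ q x)]
      rw [hset]
      refine ⟨_, ?_, bmp_trans (isOpen_lt hρc continuous_const)
        (isOpen_lt hσc continuous_const)
        (isOpen_lt (hσc.sub (continuous_const.mul hla.2.2.1.1.continuous)) continuous_const)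
        ?_ hC₁ hla.2.1 hb hstep⟩
      · have := hla.2.1
        positivity
      · intro x hx
        have h1 : ρ x < 0 := hx
        show ρ x - ε₀ * ∑ q ∈ s, χ q x < 0
        have h2 : 0 ≤ ∑ q ∈ s, χ q x :=
          Finset.sum_nonneg fun q hq => (hl q (ht q (hst hq))).2.2.2.1 x
        have h3 := mul_nonneg hε₀0.le h2
        linarith
  obtain ⟨C₁, hC₁, hb⟩ := key t subset_rfl
  have hσ : G8c_CB (∑ q ∈ t, B q) (fun x => ∑ q ∈ t, χ q x) :=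
    G8c_sum t fun q hq => (hl q (ht q hq)).2.2.1
  refine ⟨{x | ρ x - ε₀ * ∑ q ∈ t, χ q x < 0}, C₁,
    isOpen_lt (hρc.sub (continuous_const.mul hσ.1.continuous)) continuous_const, ?_, hC₁, hb⟩
  intro x hx
  have hx0 : ρ x ≤ 0 := hx
  have hn : ∀ q ∈ t, 0 ≤ χ q x := fun q hq => (hl q (ht q hq)).2.2.2.1 x
  show ρ x - ε₀ * ∑ q ∈ t, χ q x < 0
  rcases hx0.lt_or_eq with h1 | h1
  · have h3 := mul_nonneg hε₀0.le (Finset.sum_nonneg hn)
    linarith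
  · have h2 : x ∈ ⋃ q ∈ t, {x | 0 < χ q x} := htc h1
    obtain ⟨q, hq, hqx⟩ := Set.mem_iUnion₂.1 h2
    have h3 : 0 < ∑ q ∈ t, χ q x := Finset.sum_pos' hn ⟨q, hq, hqx⟩
    have h4 := mul_pos hε₀0 h3
    linarith

end Pool.Agent.P157G
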