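import Mathlib
import Pool.Agent.P157G.Alg

/-!
Local families near a boundary point.
-/

set_option autoImplicit false

open MeasureTheory Metric Set Filter Topology Complex

namespace Pool.Agent.P157G

/-- `b` is a family of holomorphic functions on `D` near `p` with a common bound -/
def Bnr {I : Type} (D : Set (ℂ × ℂ)) (p : ℂ × ℂ) (b : I → ℂ × ℂ → ℂ) : Prop :=
  ∃ r M : ℝ, 0 < r ∧ 0 ≤ M ∧ ∀ i, HBd (D ∩ ball p r) M (b i)

/-- the local algebra at `p` generated by `G` and all families `f i ∘ ψ`, where `ψ` is holomorphic near `p`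
and of modulus `< 1` on `D` near `p` -/
inductive LAlg {I : Type} (D : Set (ℂ × ℂ)) (p : ℂ × ℂ) (G : I → ℂ × ℂ → ℂ) :
    (I → ℂ × ℂ → ℂ) → Prop
  | gen : LAlg D p G G
  | comp (f : I → ℂ → ℂ) (ψ : ℂ × ℂ → ℂ) (hf : ∀ i, DifferentiableOn ℂ (f i) (ball 0 1))
      (hb : ∃ C : ℝ, ∀ i, ∀ w ∈ ball (0 : ℂ) 1, ‖f i w‖ ≤ C) (hψ : AnalyticAt ℂ ψ p)
      (hψ1 : ∀ᶠ x in 𝓝 p, x ∈ D → ‖ψ x‖ < 1) : LAlg D p G (fun i z => f i (ψ z))
  | add (h k : I → ℂ × ℂ → ℂ) (hh : LAlg D p G h) (hk : LAlg D p G k) :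
      LAlg D p G (fun i z => h i z + k i z)
  | mul (h k : I → ℂ × ℂ → ℂ) (hh : LAlg D p G h) (hk : LAlg D p G k) :
      LAlg D p G (fun i z => h i z * k i z)

/-- `χ` is localised at `p` -/
def Pp {D : Set (ℂ × ℂ)} {hD : IsOpen D} {I : Type} [TopologicalSpace I] (p : ℂ × ℂ)
    (χ : WeakDual.characterSpace ℂ (HA I hD)) : Prop :=
  ∀ (a : HA I hD) (r : ℝ) (U1 U2 : I → ℂ × ℂ → ℂ) (M : ℝ), 0 < r → 0 ≤ M →
    (∀ i, HBd (D ∩ ball p r) M (U1 i)) → (∀ i, HBd (D ∩ ball p r) M (U2 i)) →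
    (∀ (i : I) (x : D), (x : ℂ × ℂ) ∈ ball p r →
      a.1 (i, x) = ((x : ℂ × ℂ).1 - p.1) * U1 i x + ((x : ℂ × ℂ).2 - p.2) * U2 i x) → χ a = 0

/-- `v` is a homomorphism on the families which are bounded near `p`, with values near `p` -/
structure Vc {I : Type} (D : Set (ℂ × ℂ)) (p : ℂ × ℂ) (v : (I → ℂ × ℂ → ℂ) → ℂ) : Prop where
  add : ∀ b b', Bnr D p b → Bnr D p b' → v (fun i x => b i x + b' i x) = v b + v b'
  mul : ∀ b b', Bnr D p b → Bnr D p b' → v (fun i x => b i x * b' i x) = v b * v b'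
  cst : ∀ c : ℂ, v (fun _ _ => c) = c
  con : ∀ b b', Bnr D p b → Bnr D p b' → (∀ᶠ x in 𝓝 p, x ∈ D → ∀ i, b i x = b' i x) → v b = v b'
  nrm : ∀ b (c : ℝ), Bnr D p b → 0 ≤ c → (∀ᶠ x in 𝓝 p, x ∈ D → ∀ i, ‖b i x‖ ≤ c) → ‖v b‖ ≤ c

end Pool.Agent.P157G
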