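import Mathlib
import Pool.Agent.P157G.Defs

set_option autoImplicit false

open MeasureTheory Metric Set Filter Topology Complex

namespace Pool.Agent.P157G

open Pool.Agent.P157D (d1 d2 CR Bo)

/-- Schwarz-Pick, weak form -/
theorem G16_sp {ψ : ℂ → ℂ} (hψ : DifferentiableOn ℂ ψ (ball 0 1))
    (hψ1 : ∀ x ∈ ball (0 : ℂ) 1, ‖ψ x‖ < 1) {x : ℂ} (hx : x ∈ ball (0 : ℂ) 1) :
    (1 - ‖ψ 0‖) / 2 * (1 - ‖x‖ ^ 2) ≤ 1 - ‖ψ x‖ ^ 2 := by
  have h0 : (0 : ℂ) ∈ ball (0 : ℂ) 1 := mem_ball_self one_pos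
  set a : ℂ := ψ 0 with ha
  have ha1 : ‖a‖ < 1 := hψ1 0 h0
  have ha0 : 0 ≤ ‖a‖ := norm_nonneg a
  have hden : ∀ y ∈ ball (0 : ℂ) 1, 1 - ‖a‖ ≤ ‖1 - (starRingEnd ℂ) a * ψ y‖ := by
    intro y hy
    have h1 := norm_sub_norm_le (1 : ℂ) ((starRingEnd ℂ) a * ψ y)
    rw [norm_one, norm_mul, RCLike.norm_conj] at h1
    have h2 : ‖a‖ * ‖ψ y‖ ≤ ‖a‖ * 1 := mul_le_mul_of_nonneg_left (hψ1 y hy).le ha0
    linarith
  have hden0 : ∀ y ∈ ball (0 : ℂ) 1, 1 - (starRingEnd ℂ) a * ψ y ≠ 0 := by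
    intro y hy h
    have := hden y hy
    rw [h, norm_zero] at this
    linarith
  have hid : ∀ b : ℂ, ‖1 - (starRingEnd ℂ) a * b‖ ^ 2 - ‖b - a‖ ^ 2 = (1 - ‖a‖ ^ 2) * (1 - ‖b‖ ^ 2) := by
    intro b
    rw [← Complex.normSq_eq_norm_sq, ← Complex.normSq_eq_norm_sq, ← Complex.normSq_eq_norm_sq,
      ← Complex.normSq_eq_norm_sq]
    simp only [Complex.normSq_apply, Complex.sub_re, Complex.sub_im, Complex.one_re, Complex.one_im,
      Complex.mul_re, Complex.mul_im, Complex.conj_re, Complex.conj_im]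
    ring
  have hmd : DifferentiableOn ℂ (fun y => (ψ y - a) / (1 - (starRingEnd ℂ) a * ψ y)) (ball 0 1) := by
    simp only [div_eq_mul_inv]
    exact (hψ.sub_const a).mul (((hψ.const_mul _).const_sub 1).inv hden0)
  have hle : ∀ y ∈ ball (0 : ℂ) 1, ‖ψ y - a‖ ≤ ‖1 - (starRingEnd ℂ) a * ψ y‖ := by
    intro y hy
    have h1 := hid (ψ y)
    have h2 : 0 ≤ (1 - ‖a‖ ^ 2) * (1 - ‖ψ y‖ ^ 2) := by
      apply mul_nonneg
      · nlinarith
      · have := hψ1 y hy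
        have := norm_nonneg (ψ y)
        nlinarith
    have h3 : ‖ψ y - a‖ ^ 2 ≤ ‖1 - (starRingEnd ℂ) a * ψ y‖ ^ 2 := by linarith
    exact (pow_le_pow_iff_left₀ (norm_nonneg _) (norm_nonneg _) (by norm_num)).mp h3
  have hmm : MapsTo (fun y => (ψ y - a) / (1 - (starRingEnd ℂ) a * ψ y)) (ball 0 1)
      (closedBall 0 1) := by
    intro y hy
    rw [mem_closedBall_zero_iff, norm_div]
    exact div_le_one_of_le₀ (hle y hy) (norm_nonneg _)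
  have hs := Complex.norm_le_norm_of_mapsTo_ball hmd hmm (by simp [ha]) (mem_ball_zero_iff.mp hx)
  rw [norm_div, div_le_iff₀ (norm_pos_iff.mpr (hden0 x hx))] at hs
  have h1 := hid (ψ x)
  have h2 := hden x hx
  have hx1 : ‖x‖ < 1 := mem_ball_zero_iff.mp hx
  have hx0 := norm_nonneg x
  set N1 : ℝ := ‖1 - (starRingEnd ℂ) a * ψ x‖ with hN1
  set N2 : ℝ := ‖ψ x - a‖ with hN2
  have hN20 : 0 ≤ N2 := norm_nonneg _
  have h3 : N2 ^ 2 ≤ (‖x‖ * N1) ^ 2 := pow_le_pow_left₀ hN20 hs 2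
  have h4 : (1 - ‖a‖) ^ 2 ≤ N1 ^ 2 := pow_le_pow_left₀ (by linarith) h2 2
  have h5 : (1 - ‖x‖ ^ 2) * (1 - ‖a‖) ^ 2 ≤ (1 - ‖a‖ ^ 2) * (1 - ‖ψ x‖ ^ 2) := by
    have h6 : 0 ≤ 1 - ‖x‖ ^ 2 := by nlinarith
    calc (1 - ‖x‖ ^ 2) * (1 - ‖a‖) ^ 2 ≤ (1 - ‖x‖ ^ 2) * N1 ^ 2 := mul_le_mul_of_nonneg_left h4 h6
      _ = N1 ^ 2 - (‖x‖ * N1) ^ 2 := by ring
      _ ≤ N1 ^ 2 - N2 ^ 2 := by linarith
      _ = _ := h1
  have h7 : (1 - ‖a‖) * ((1 - ‖x‖ ^ 2) * (1 - ‖a‖)) ≤ (1 - ‖a‖) * ((1 + ‖a‖) * (1 - ‖ψ x‖ ^ 2)) := by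
    nlinarith
  have h8 := le_of_mul_le_mul_left h7 (by linarith : 0 < 1 - ‖a‖)
  have h9 : 0 ≤ 1 - ‖ψ x‖ ^ 2 := by
    have := hψ1 x hx
    have := norm_nonneg (ψ x)
    nlinarith
  nlinarith

theorem G16_convex (r : ℝ) : Convex ℝ (Bo r) := by
  have : Bo r = ball (0 : ℂ) r ×ˢ ball (0 : ℂ) r := by
    ext x
    simp [Bo]
  rw [this]
  exact (convex_ball _ _).prod (convex_ball _ _)

theorem G16_isOpen (r : ℝ) : IsOpen (Bo r) := by
  have : Bo r = ball (0 : ℂ) r ×ˢ ball (0 : ℂ) r := by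
    ext x
    simp [Bo]
  rw [this]
  exact isOpen_ball.prod isOpen_ball

theorem G16_fderiv (R : ℂ × ℂ → ℝ) (x : ℂ × ℂ) (u : ℂ) :
    fderiv ℝ R x (u, 0) = 2 * (d1 R x * u).re := by
  have h1 : ((u, 0) : ℂ × ℂ) = u.re • ((1, 0) : ℂ × ℂ) + u.im • ((Complex.I, 0) : ℂ × ℂ) := by
    ext <;> simp
  rw [h1, map_add, map_smul, map_smul, smul_eq_mul, smul_eq_mul]
  unfold d1
  have h2 : ((fderiv ℝ R x (1, 0) : ℂ) - Complex.I * (fderiv ℝ R x (Complex.I, 0) : ℂ)) / 2 =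
      ((fderiv ℝ R x (1, 0) / 2 : ℝ) : ℂ) - ((fderiv ℝ R x (Complex.I, 0) / 2 : ℝ) : ℂ) * Complex.I := by
    push_cast
    ring
  rw [h2, mul_re]
  simp only [sub_re, sub_im, ofReal_re, ofReal_im, mul_re, mul_im, I_re, I_im]
  ring

/-- lower Taylor estimate -/
theorem G16_taylor {R : ℂ × ℂ → ℝ} {r L : ℝ} (hR : CR r L R) {x y : ℂ × ℂ} (hx : x ∈ Bo r)
    (hy : y ∈ Bo r) : R x + fderiv ℝ R x (y - x) - L * ‖y - x‖ ^ 2 ≤ R y := by
  have hL := hR.L1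
  set s : Set (ℂ × ℂ) := Bo r ∩ closedBall x ‖y - x‖ with hs
  have hconv : Convex ℝ s := (G16_convex r).inter (convex_closedBall _ _)
  have hd : ∀ z ∈ s, DifferentiableAt ℝ (fun z => R z - fderiv ℝ R x z) z := by
    intro z hz
    have h1 : DifferentiableAt ℝ R z :=
      (hR.smooth.differentiableOn (by norm_num) z hz.1).differentiableAt
        ((G16_isOpen r).mem_nhds hz.1)
    exact h1.sub (fderiv ℝ R x).differentiableAt
  have hb : ∀ z ∈ s, ‖fderiv ℝ (fun z => R z - fderiv ℝ R x z) z‖ ≤ L * ‖y - x‖ := by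
    intro z hz
    have h1 : DifferentiableAt ℝ R z :=
      (hR.smooth.differentiableOn (by norm_num) z hz.1).differentiableAt
        ((G16_isOpen r).mem_nhds hz.1)
    have h2 : fderiv ℝ (fun z => R z - fderiv ℝ R x z) z = fderiv ℝ R z - fderiv ℝ R x := by
      have := (h1.hasFDerivAt.sub (fderiv ℝ R x).hasFDerivAt).fderiv
      exact this
    rw [h2]
    refine (hR.dlip z hz.1 x hx).trans ?_
    refine mul_le_mul_of_nonneg_left ?_ (by linarith)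
    exact mem_closedBall_iff_norm.1 hz.2
  have hxs : x ∈ s := ⟨hx, mem_closedBall_self (norm_nonneg _)⟩
  have hys : y ∈ s := ⟨hy, mem_closedBall_iff_norm.2 le_rfl⟩
  have h3 := hconv.norm_image_sub_le_of_norm_fderiv_le hd hb hxs hys
  rw [Real.norm_eq_abs] at h3
  have h4 := (abs_le.1 h3).1
  rw [map_sub]
  nlinarith

/-- **TARGET** -/
theorem hopf_loc {R : ℂ × ℂ → ℝ} {r L : ℝ} (hR : CR r L R) (hR0 : R (0, 0) = 0) {ψ : ℂ × ℂ → ℂ}
    (hψ : DifferentiableOn ℂ ψ {x | x ∈ Bo r ∧ 0 < R x}) (hψ1 : ∀ x ∈ Bo r, 0 < R x → ‖ψ x‖ < 1) :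
    ∃ c : ℝ, 0 < c ∧ ∀ᶠ x in 𝓝 ((0 : ℂ), (0 : ℂ)), 0 < R x → c * R x ≤ 1 - ‖ψ x‖ ^ 2 := by
  have hr0 := hR.r0
  have hr1 := hR.r1
  have hL := hR.L1
  have hL0 : 0 < L := by linarith
  have hRc : ContinuousOn R (Bo r) := hR.smooth.continuousOn
  set R₀ : ℝ := min (1 / (4 * L ^ 2)) (r / 8) with hR₀
  have hR₀p : 0 < R₀ := lt_min (by positivity) (by positivity)
  have hR₀1 : R₀ ≤ 1 / (4 * L ^ 2) := min_le_left _ _
  have hR₀2 : R₀ ≤ r / 8 := min_le_right _ _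
  have hLR : 4 * L ^ 2 * R₀ ≤ 1 := by
    have := mul_le_mul_of_nonneg_left hR₀1 (by positivity : 0 ≤ 4 * L ^ 2)
    rwa [mul_one_div_cancel (by positivity)] at this
  -- the compact set
  set K : Set (ℂ × ℂ) := {y | ‖y.1‖ ≤ r / 2 ∧ ‖y.2‖ ≤ r / 2 ∧ R₀ / L ≤ R y} with hK
  have hKB : K ⊆ Bo r := by
    intro y hy
    exact ⟨by linarith [hy.1], by linarith [hy.2.1]⟩
  have hKc : IsCompact K := by
    have h1 : IsCompact (closedBall (0 : ℂ) (r / 2) ×ˢ closedBall (0 : ℂ) (r / 2)) :=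
      (isCompact_closedBall _ _).prod (isCompact_closedBall _ _)
    have h2 : ContinuousOn R (closedBall (0 : ℂ) (r / 2) ×ˢ closedBall (0 : ℂ) (r / 2)) := by
      refine hRc.mono fun y hy => ?_
      have h3 := mem_closedBall_zero_iff.1 hy.1
      have h4 := mem_closedBall_zero_iff.1 hy.2
      exact ⟨by linarith, by linarith⟩
    have h3 := h2.preimage_isClosed_of_isClosed h1.isClosed (isClosed_Ici (a := R₀ / L))
    have h4 : K = (closedBall (0 : ℂ) (r / 2) ×ˢ closedBall (0 : ℂ) (r / 2)) ∩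
        R ⁻¹' Ici (R₀ / L) := by
      ext y
      simp only [hK, mem_ofPred_eq, mem_inter_iff, mem_prod, mem_closedBall_zero_iff, mem_preimage,
        mem_Ici, and_assoc]
    rw [h4]
    exact h1.of_isClosed_subset h3 inter_subset_left
  have hKpos : ∀ y ∈ K, 0 < R y := fun y hy => lt_of_lt_of_le (by positivity) hy.2.2
  obtain ⟨c₁, hc₁, hc₁K⟩ : ∃ c₁ : ℝ, 0 < c₁ ∧ ∀ y ∈ K, ‖ψ y‖ ≤ 1 - c₁ := by
    rcases K.eq_empty_or_nonempty with h | h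
    · exact ⟨1, one_pos, fun y hy => by rw [h] at hy; exact absurd hy (notMem_empty y)⟩
    · have hc : ContinuousOn (fun y => ‖ψ y‖) K :=
        (hψ.continuousOn.mono fun y hy => ⟨hKB hy, hKpos y hy⟩).norm
      obtain ⟨y0, hy0, hmax⟩ := hKc.exists_isMaxOn h hc
      refine ⟨1 - ‖ψ y0‖, by linarith [hψ1 y0 (hKB hy0) (hKpos y0 hy0)], fun y hy => ?_⟩
      have := hmax hy
      simp only [mem_ofPred_eq] at this
      linarith
  refine ⟨c₁ / (16 * L), by positivity, ?_⟩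
  have hcont0 : ContinuousAt R ((0 : ℂ), (0 : ℂ)) :=
    hRc.continuousAt ((G16_isOpen r).mem_nhds (by simp [Bo, hr0]))
  have hev1 : ∀ᶠ x in 𝓝 ((0 : ℂ), (0 : ℂ)), R x < r := by
    have h1 : R ((0 : ℂ), (0 : ℂ)) < r := by
      rw [hR0]
      exact hr0
    exact hcont0.eventually (gt_mem_nhds h1)
  have hev2 : ∀ᶠ x in 𝓝 ((0 : ℂ), (0 : ℂ)), x ∈ Bo (r / 4) :=
    (G16_isOpen (r / 4)).mem_nhds (by simp [Bo, hr0])
  filter_upwards [hev1, hev2] with x hxr hx4 hxpos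
  have hx : x ∈ Bo r := ⟨by linarith [hx4.1], by linarith [hx4.2]⟩
  set h : ℝ := R x with hh
  set m : ℝ := ‖d1 R x‖ with hm
  have hmlo : 1 ≤ L * m := hR.dlo x hx
  have hmp : 0 < m := by
    by_contra hcon
    push Not at hcon
    nlinarith
  have hmhi : m ≤ L := by
    have h1 : ‖fderiv ℝ R x (1, 0)‖ ≤ L := by
      refine (ContinuousLinearMap.le_opNorm _ _).trans ?_
      have : ‖((1, 0) : ℂ × ℂ)‖ = 1 := by simp
      rw [this, mul_one]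
      exact hR.dhi x hx
    have h2 : ‖fderiv ℝ R x (Complex.I, 0)‖ ≤ L := by
      refine (ContinuousLinearMap.le_opNorm _ _).trans ?_
      have : ‖((Complex.I, 0) : ℂ × ℂ)‖ = 1 := by simp
      rw [this, mul_one]
      exact hR.dhi x hx
    rw [hm]
    unfold d1
    rw [norm_div]
    have h3 : ‖((fderiv ℝ R x (1, 0) : ℂ) - Complex.I * (fderiv ℝ R x (Complex.I, 0) : ℂ))‖ ≤
        L + L := by
      refine (norm_sub_le _ _).trans (add_le_add ?_ ?_)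
      · rw [Complex.norm_real]
        exact h1
      · rw [norm_mul, Complex.norm_I, one_mul, Complex.norm_real]
        exact h2
    have h4 : ‖(2 : ℂ)‖ = 2 := by simp
    rw [h4]
    linarith
  set v : ℂ := (starRingEnd ℂ) (d1 R x) / (m : ℂ) with hv
  have hvn : ‖v‖ = 1 := by
    rw [hv, norm_div, RCLike.norm_conj, Complex.norm_real, Real.norm_of_nonneg hmp.le, ← hm,
      div_self hmp.ne']
  have hdv : d1 R x * v = (m : ℂ) := by
    rw [hv, mul_div_assoc', Complex.mul_conj, Complex.normSq_eq_norm_sq, ← hm]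
    have : (m : ℂ) ≠ 0 := by exact_mod_cast hmp.ne'
    push_cast
    field_simp
  -- estimate along the disc
  have hT : ∀ ζ : ℂ, ‖ζ‖ ≤ r / 2 → (x + (ζ * v, 0)) ∈ Bo r ∧
      h + 2 * m * ζ.re - L * ‖ζ‖ ^ 2 ≤ R (x + (ζ * v, 0)) := by
    intro ζ hζ
    have hmem : (x + (ζ * v, 0)) ∈ Bo r := by
      refine ⟨?_, ?_⟩
      · show ‖x.1 + ζ * v‖ < r
        refine (norm_add_le _ _).trans_lt ?_
        rw [norm_mul, hvn, mul_one]
        linarith [hx4.1]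
      · show ‖x.2 + 0‖ < r
        rw [add_zero]
        exact hx.2
    refine ⟨hmem, ?_⟩
    have h1 := G16_taylor hR hx hmem
    rw [add_sub_cancel_left, G16_fderiv] at h1
    have h2 : (d1 R x * (ζ * v)).re = m * ζ.re := by
      have : d1 R x * (ζ * v) = (m : ℂ) * ζ := by
        rw [← hdv]
        ring
      rw [this, Complex.re_ofReal_mul]
    have h3 : ‖((ζ * v, 0) : ℂ × ℂ)‖ = ‖ζ‖ := by
      rw [Prod.norm_mk, norm_zero, norm_mul, hvn, mul_one]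
      exact max_eq_left (norm_nonneg _)
    rw [h2, h3] at h1
    linarith
  set s : ℝ := h / (4 * L) with hs
  have hs0 : 0 < s := by positivity
  have hs4 : 4 * L * s = h := by
    rw [hs]
    field_simp
  have hsr : s ≤ r / 4 := by
    rw [hs, div_le_iff₀ (by positivity)]
    nlinarith
  have hs1 : s ≤ 1 := by linarith
  have hdisc : ∀ ζ : ℂ, ‖ζ - (R₀ : ℂ)‖ < R₀ + s → (x + (ζ * v, 0)) ∈ Bo r ∧
      0 < R (x + (ζ * v, 0)) := by
    intro ζ hζ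
    have hζn : ‖ζ‖ ≤ r / 2 := by
      have h1 : ‖ζ‖ ≤ ‖ζ - (R₀ : ℂ)‖ + R₀ := by
        have h2 := norm_add_le (ζ - (R₀ : ℂ)) (R₀ : ℂ)
        rw [sub_add_cancel, Complex.norm_real, Real.norm_of_nonneg hR₀p.le] at h2
        exact h2
      linarith
    obtain ⟨h1, h2⟩ := hT ζ hζn
    refine ⟨h1, lt_of_lt_of_le ?_ h2⟩
    have h3 : ‖ζ - (R₀ : ℂ)‖ ^ 2 = ‖ζ‖ ^ 2 - 2 * R₀ * ζ.re + R₀ ^ 2 := by
      rw [← Complex.normSq_eq_norm_sq, ← Complex.normSq_eq_norm_sq, Complex.normSq_apply,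
        Complex.normSq_apply]
      simp only [sub_re, sub_im, ofReal_re, ofReal_im]
      ring
    have h4 : ‖ζ - (R₀ : ℂ)‖ ^ 2 < (R₀ + s) ^ 2 := pow_lt_pow_left₀ hζ (norm_nonneg _) (by norm_num)
    have h5 : ‖ζ‖ ^ 2 < 2 * R₀ * ζ.re + 2 * R₀ * s + s ^ 2 := by nlinarith
    have h6 : -s < ζ.re := by
      have h7 : |(ζ - (R₀ : ℂ)).re| ≤ ‖ζ - (R₀ : ℂ)‖ := Complex.abs_re_le_norm _
      have h8 : (ζ - (R₀ : ℂ)).re = ζ.re - R₀ := by simp
      rw [h8] at h7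
      have := (abs_le.1 (h7.trans hζ.le)).1
      have h9 := (abs_lt.1 (lt_of_le_of_lt h7 hζ)).1
      linarith
    -- `2 m - 2 L R₀ ≥ 0`
    have h10 : 2 * L * R₀ ≤ m := by
      have h11 : L * (2 * L * R₀) ≤ L * m := by nlinarith
      exact le_of_mul_le_mul_left h11 hL0
    have h12 : 0 ≤ (2 * m - 2 * L * R₀) * (ζ.re + s) :=
      mul_nonneg (by linarith) (by linarith)
    have h13 : L * ‖ζ‖ ^ 2 < L * (2 * R₀ * ζ.re + 2 * R₀ * s + s ^ 2) :=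
      mul_lt_mul_of_pos_left h5 hL0
    have h14 : 2 * m * s ≤ 2 * L * s := by nlinarith
    have h15 : L * s ^ 2 ≤ L * s := by nlinarith
    nlinarith
  -- the function on the unit disc
  set g : ℂ → ℂ := fun t => ψ (x + (((R₀ : ℂ) + ((R₀ + s : ℝ) : ℂ) * t) * v, 0)) with hg
  have hRs : 0 < R₀ + s := by linarith
  have hpt : ∀ t ∈ ball (0 : ℂ) 1, ‖((R₀ : ℂ) + ((R₀ + s : ℝ) : ℂ) * t) - (R₀ : ℂ)‖ < R₀ + s := by
    intro t ht
    rw [mem_ball_zero_iff] at ht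
    rw [add_sub_cancel_left, norm_mul, Complex.norm_real, Real.norm_of_nonneg hRs.le]
    nlinarith
  have hDopen : IsOpen {x : ℂ × ℂ | x ∈ Bo r ∧ 0 < R x} := by
    have := hRc.isOpen_inter_preimage (G16_isOpen r) (isOpen_Ioi (a := (0 : ℝ)))
    exact this
  have hgd : DifferentiableOn ℂ g (ball 0 1) := by
    intro t ht
    have h1 : DifferentiableAt ℂ ψ (x + (((R₀ : ℂ) + ((R₀ + s : ℝ) : ℂ) * t) * v, 0)) :=
      (hψ _ (hdisc _ (hpt t ht))).differentiableAt (hDopen.mem_nhds (hdisc _ (hpt t ht)))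
    have h2 : DifferentiableAt ℂ
        (fun t : ℂ => x + ((((R₀ : ℂ) + ((R₀ + s : ℝ) : ℂ) * t) * v, 0) : ℂ × ℂ)) t := by
      fun_prop
    exact (h1.comp t h2).differentiableWithinAt
  have hg1 : ∀ t ∈ ball (0 : ℂ) 1, ‖g t‖ < 1 := fun t ht =>
    hψ1 _ (hdisc _ (hpt t ht)).1 (hdisc _ (hpt t ht)).2
  set t₀ : ℝ := -R₀ / (R₀ + s) with ht₀
  have ht₀n : ‖(t₀ : ℂ)‖ = R₀ / (R₀ + s) := by
    rw [Complex.norm_real, ht₀, neg_div, norm_neg, Real.norm_of_nonneg (by positivity)]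
  have ht₀m : (t₀ : ℂ) ∈ ball (0 : ℂ) 1 := by
    rw [mem_ball_zero_iff, ht₀n, div_lt_one hRs]
    linarith
  have hsp := G16_sp hgd hg1 ht₀m
  have hgt₀ : g (t₀ : ℂ) = ψ x := by
    rw [hg]
    have h1 : (R₀ : ℂ) + ((R₀ + s : ℝ) : ℂ) * (t₀ : ℂ) = 0 := by
      rw [← Complex.ofReal_mul, ← Complex.ofReal_add, ht₀, mul_div_assoc', mul_comm,
        mul_div_assoc, div_self hRs.ne', mul_one, add_neg_cancel, Complex.ofReal_zero]
    simp only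
    rw [h1, zero_mul]
    congr 1
    exact add_zero x
  have hg0 : ‖g 0‖ ≤ 1 - c₁ := by
    rw [hg]
    simp only [mul_zero, add_zero]
    have hRn : ‖(R₀ : ℂ)‖ = R₀ := by rw [Complex.norm_real, Real.norm_of_nonneg hR₀p.le]
    obtain ⟨h1, h2⟩ := hT (R₀ : ℂ) (by rw [hRn]; linarith)
    refine hc₁K _ ⟨?_, ?_, ?_⟩
    · show ‖x.1 + (R₀ : ℂ) * v‖ ≤ r / 2
      refine (norm_add_le _ _).trans ?_
      rw [norm_mul, hvn, mul_one, hRn]
      linarith [hx4.1]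
    · show ‖x.2 + 0‖ ≤ r / 2
      rw [add_zero]
      linarith [hx4.2]
    · refine le_trans ?_ h2
      rw [hRn, Complex.ofReal_re]
      rw [div_le_iff₀ hL0]
      have h3 : 0 ≤ h * L := by positivity
      have h4 : R₀ ≤ m * R₀ * L := by nlinarith
      have h5 : L * R₀ ^ 2 * L ≤ R₀ := by nlinarith
      nlinarith
  rw [hgt₀, ht₀n] at hsp
  have h1 : 1 - (R₀ / (R₀ + s)) ^ 2 = s * (2 * R₀ + s) / (R₀ + s) ^ 2 := by
    field_simp
    ring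
  have h2 : s / 2 ≤ 1 - (R₀ / (R₀ + s)) ^ 2 := by
    rw [h1, div_le_div_iff₀ (by norm_num) (by positivity)]
    have h3 : (R₀ + s) ^ 2 ≤ (2 * R₀ + s) * 2 := by
      have : R₀ + s ≤ 2 := by linarith
      nlinarith
    nlinarith
  have h3 : c₁ / 2 ≤ (1 - ‖g 0‖) / 2 := by linarith
  have h4 : c₁ / 2 * (s / 2) ≤ (1 - ‖g 0‖) / 2 * (1 - (R₀ / (R₀ + s)) ^ 2) :=
    mul_le_mul h3 h2 (by positivity) (by linarith)
  refine le_trans (le_of_eq ?_) (h4.trans hsp)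
  rw [hs]
  field_simp
  ring

end Pool.Agent.P157G
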