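import Mathlib
import Pool.Agent.FinVol2.WA
import Pool.Agent.P157G.Nara
import Pool.Agent.P157G.Hopf
import Pool.Agent.P157D.LocR

set_option autoImplicit false

open MeasureTheory Metric Set Filter Topology Complex

namespace Pool.Agent.P157G

open Pool.Agent.P157D (d1 d2 CR Bo locR)

/-- A complex differentiable map between finite-dimensional spaces is analytic. -/
theorem G17_analytic {E : Type} [NormedAddCommGroup E] [NormedSpace ℂ E] [FiniteDimensional ℂ E]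
    {f : E → E} {x : E} {r : ℝ} (hr : 0 < r)
    (hf : DifferentiableOn ℂ f (ball x r)) : AnalyticAt ℂ f x := by
  let e : E ≃L[ℂ] (Fin (Module.finrank ℂ E) → ℂ) := (Module.finBasis ℂ E).equivFunL
  have h1 : AnalyticAt ℂ (fun w => e (f (e.symm w))) (e x) := by
    rw [analyticAt_pi_iff]
    intro i
    have hcont : ContinuousAt e.symm (e x) := e.symm.continuous.continuousAt
    have hnb : e.symm ⁻¹' (ball x r) ∈ 𝓝 (e x) := by
      apply hcont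
      rw [e.symm_apply_apply]
      exact ball_mem_nhds x hr
    obtain ⟨R, hR, hRs⟩ := Metric.mem_nhds_iff.1 hnb
    refine Pool.Agent.FinVol2.WA.analyticAt_of_differentiable _ (e x) (R / 2) (half_pos hR)
      (fun w => e (f (e.symm w)) i) ?_
    intro z hz
    have hzb : z ∈ ball (e x) R := by
      rw [mem_ball]
      refine lt_of_le_of_lt ((dist_pi_le_iff (half_pos hR).le).2 fun j => hz j) (half_lt_self hR)
    have hd : DifferentiableAt ℂ f (e.symm z) :=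
      hf.differentiableAt (isOpen_ball.mem_nhds (hRs hzb))
    have h2 : DifferentiableAt ℂ (fun w => e (f (e.symm w))) z :=
      e.differentiableAt.comp z (hd.comp z e.symm.differentiableAt)
    exact (differentiableAt_pi.1 h2) i
  have h2 : AnalyticAt ℂ (fun y => e.symm (e (f (e.symm (e y))))) x := by
    have h3 : AnalyticAt ℂ (fun y => e (f (e.symm (e y)))) x :=
      AnalyticAt.fun_comp (g := fun w => e (f (e.symm w))) (f := e) h1 (e.analyticAt x)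
    exact AnalyticAt.fun_comp (g := e.symm) (f := fun y => e (f (e.symm (e y))))
      (e.symm.analyticAt _) h3
  simpa using h2

theorem G17_isOpen_Bo (r : ℝ) : IsOpen (Bo r) := by
  have h1 : IsOpen {x : ℂ × ℂ | ‖x.1‖ < r} :=
    isOpen_lt continuous_fst.norm continuous_const
  have h2 : IsOpen {x : ℂ × ℂ | ‖x.2‖ < r} :=
    isOpen_lt continuous_snd.norm continuous_const
  exact h1.inter h2

/-- **TARGET** -/
theorem locL (K : ℕ) {δ ρ₀ : ℝ} (hδ : 0 < δ) (hδ1 : δ ≤ 1) (hρ₀ : 0 < ρ₀) {ρ : ℂ × ℂ → ℝ}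
    (h : NF ρ) {p : ℂ × ℂ} (hp : ρ p = 0) {ψ : Fin K → ℂ × ℂ → ℂ} (hψ : ∀ k, AnalyticAt ℂ (ψ k) p)
    (hψ1 : ∀ k, ∀ x ∈ {x | ρ x < 0} ∩ ball p ρ₀, ‖ψ k x‖ < 1) (hψp : ∀ k, ‖ψ k p‖ = 1) :
    ∃ C r : ℝ, 0 < r ∧ r ≤ ρ₀ ∧
      ∀ f : Fin K → ℂ → ℂ, (∀ k, DifferentiableOn ℂ (f k) (ball 0 1)) →
      (∀ k, ∀ w ∈ ball (0 : ℂ) 1, ‖f k w‖ ≤ 1) →
      ∀ G : ℂ × ℂ → ℂ, HBd ({x | ρ x < 0} ∩ ball p ρ₀) 1 G →
      (∀ x ∈ {x | ρ x < 0} ∩ ball p ρ₀, (∀ k, ‖f k (ψ k x)‖ < δ) → δ ≤ ‖G x‖) →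
      ∃ (g : Fin K → ℂ × ℂ → ℂ) (g₀ : ℂ × ℂ → ℂ), (∀ k, HBd ({x | ρ x < 0} ∩ ball p r) C (g k)) ∧
        HBd ({x | ρ x < 0} ∩ ball p r) C g₀ ∧
        ∀ x ∈ {x | ρ x < 0} ∩ ball p r, ∑ k, f k (ψ k x) * g k x + G x * g₀ x = 1 := by
  have hev : ∀ᶠ y in 𝓝 p, ∀ k, AnalyticAt ℂ (ψ k) y := by
    rw [eventually_all]
    intro k
    exact (hψ k).eventually_analyticAt
  obtain ⟨O, hOs, hOo, hpO⟩ := _root_.mem_nhds_iff.1 (inter_mem hev (ball_mem_nhds p hρ₀))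
  obtain ⟨Θ, T, U, r, L, κ, lam, A, ε, B, hr, hr1, hL, hκ, hκr, hlam, hA, hε, hB, hUo, hpU, hUO,
    hΘp, hT0, hΘd, hTd, hTU, hΘT, hTΘ, hTB, hCR⟩ :=
    nara h.smooth hp (h.nd p hp) (h.levi p hp) hOo hpO
  have hcls : Cls ε ρ ρ := by
    refine ⟨h.smooth, fun x => ⟨?_, ?_, ?_⟩⟩
    · rw [sub_self, abs_zero]
      exact hε.le
    · rw [sub_self, norm_zero]
      exact hε.le
    · refine ContinuousLinearMap.opNorm_le_bound _ hε.le fun v => ?_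
      change ‖fderiv ℝ (fderiv ℝ ρ) x v - fderiv ℝ (fderiv ℝ ρ) x v‖ ≤ ε * ‖v‖
      rw [sub_self, norm_zero]
      exact mul_nonneg hε.le (norm_nonneg _)
  set R : ℂ × ℂ → ℝ := fun x => A * (1 - Real.exp (lam * ρ (T x))) with hRdef
  have hR : CR r L R := (hCR ρ hcls).1
  have hR0 : R (0, 0) = 0 := by
    change A * (1 - Real.exp (lam * ρ (T (0, 0)))) = 0
    rw [hT0, hp, mul_zero, Real.exp_zero, sub_self, mul_zero]
  have hRpos : ∀ x, 0 < R x ↔ ρ (T x) < 0 := by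
    intro x
    change 0 < A * (1 - Real.exp (lam * ρ (T x))) ↔ ρ (T x) < 0
    rw [mul_pos_iff_of_pos_left hA, sub_pos, Real.exp_lt_one_iff]
    constructor
    · intro h1
      by_contra h2
      have : 0 ≤ lam * ρ (T x) := mul_nonneg hlam.le (not_lt.1 h2)
      linarith
    · intro h1
      exact mul_neg_of_pos_of_neg hlam h1
  have hTO : ∀ x ∈ Bo r, (∀ k, AnalyticAt ℂ (ψ k) (T x)) ∧ T x ∈ ball p ρ₀ := fun x hx =>
    hOs (hUO (hTU hx))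
  have hBo : IsOpen (Bo r) := G17_isOpen_Bo r
  have hψd : ∀ k, DifferentiableOn ℂ (fun x => ψ k (T x)) (Bo r) := by
    intro k x hx
    have h1 : DifferentiableAt ℂ T x := hTd.differentiableAt (hBo.mem_nhds hx)
    have h2 : DifferentiableAt ℂ (ψ k) (T x) := ((hTO x hx).1 k).differentiableAt
    exact (DifferentiableAt.comp x h2 h1).differentiableWithinAt
  have hhopf : ∀ k, ∃ c : ℝ, 0 < c ∧ ∀ᶠ x in 𝓝 ((0 : ℂ), (0 : ℂ)), 0 < R x →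
      c * R x ≤ 1 - ‖ψ k (T x)‖ ^ 2 := fun k =>
    hopf_loc (ψ := fun x => ψ k (T x)) hR hR0 ((hψd k).mono fun x hx => hx.1)
      fun x hx hRx => hψ1 k _ ⟨(hRpos x).1 hRx, (hTO x hx).2⟩
  choose ck hck0 hck using hhopf
  obtain ⟨c, hc, hcle⟩ : ∃ c : ℝ, 0 < c ∧ ∀ k, c ≤ ck k := by
    rcases isEmpty_or_nonempty (Fin K) with hK | hK
    · exact ⟨1, one_pos, fun k => (hK.false k).elim⟩
    · obtain ⟨k0, hk0⟩ := Finite.exists_min ck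
      exact ⟨ck k0, hck0 k0, hk0⟩
  have h0B : ball ((0 : ℂ), (0 : ℂ)) r ⊆ Bo r := by
    intro x hx
    have h1 : ‖x‖ < r := by
      have : dist x ((0 : ℂ), (0 : ℂ)) < r := hx
      rwa [show ((0 : ℂ), (0 : ℂ)) = (0 : ℂ × ℂ) from rfl, dist_zero_right] at this
    exact ⟨(norm_fst_le x).trans_lt h1, (norm_snd_le x).trans_lt h1⟩
  have hTa : AnalyticAt ℂ T ((0 : ℂ), (0 : ℂ)) := G17_analytic hr (hTd.mono h0B)
  have hψa : ∀ k, AnalyticAt ℂ (fun x => ψ k (T x)) ((0 : ℂ), (0 : ℂ)) := by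
    intro k
    have h1 : AnalyticAt ℂ (ψ k) (T ((0 : ℂ), (0 : ℂ))) := by
      rw [hT0]
      exact hψ k
    exact AnalyticAt.fun_comp (g := ψ k) (f := T) h1 hTa
  obtain ⟨C, ρ₁, hρ₁, hρ₁r, hmain⟩ := locR K hδ hδ1 hr hc hR hR0 hψa
    (fun k => by
      filter_upwards [hck k] with x hx hRx
      refine le_trans ?_ (hx hRx)
      exact mul_le_mul_of_nonneg_right (hcle k) hRx.le)
    (fun k => by
      change ‖ψ k (T (0, 0))‖ = 1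
      rw [hT0]
      exact hψp k)
  have hΘc : ContinuousAt Θ p := (hΘd.continuousOn).continuousAt (hUo.mem_nhds hpU)
  have hnb : U ∩ Θ ⁻¹' (Bo ρ₁) ∈ 𝓝 p := by
    refine inter_mem (hUo.mem_nhds hpU) (hΘc ?_)
    rw [hΘp]
    exact (G17_isOpen_Bo ρ₁).mem_nhds ⟨by simpa using hρ₁, by simpa using hρ₁⟩
  obtain ⟨r₁, hr₁, hr₁s⟩ := Metric.mem_nhds_iff.1 hnb
  have hBρ : ∀ x ∈ Bo ρ₁, x ∈ Bo r := fun x hx =>
    ⟨lt_of_lt_of_le hx.1 hρ₁r, lt_of_lt_of_le hx.2 hρ₁r⟩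
  have hmem : ∀ z ∈ {x | ρ x < 0} ∩ ball p (min r₁ ρ₀),
      z ∈ U ∧ Θ z ∈ Bo ρ₁ ∧ T (Θ z) = z ∧ 0 < R (Θ z) := by
    rintro z ⟨hz1, hz2⟩
    have h1 : z ∈ U ∩ Θ ⁻¹' (Bo ρ₁) := hr₁s (ball_subset_ball (min_le_left _ _) hz2)
    have h2 : T (Θ z) = z := hTΘ z h1.1 (hBρ _ h1.2)
    refine ⟨h1.1, h1.2, h2, ?_⟩
    rw [hRpos, h2]
    exact hz1
  refine ⟨C, min r₁ ρ₀, lt_min hr₁ hρ₀, min_le_right _ _, fun f hf hfb G hG hGδ => ?_⟩
  have hTm : MapsTo T {x | x ∈ Bo r ∧ 0 < R x} ({x | ρ x < 0} ∩ ball p ρ₀) := fun x hx =>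
    ⟨(hRpos x).1 hx.2, (hTO x hx.1).2⟩
  obtain ⟨g, g₀, hg, hg₀, hgb, hg₀b, heq⟩ := hmain f hf hfb (fun x => G (T x))
    (hG.1.comp (hTd.mono fun x hx => hx.1) hTm)
    (fun x hx hRx => hG.2 _ (hTm ⟨hx, hRx⟩))
    (fun x hx hRx hfx => hGδ _ (hTm ⟨hx, hRx⟩) hfx)
  have hΘm : MapsTo Θ ({x | ρ x < 0} ∩ ball p (min r₁ ρ₀)) {x | x ∈ Bo ρ₁ ∧ 0 < R x} := fun z hz =>
    ⟨(hmem z hz).2.1, (hmem z hz).2.2.2⟩
  have hΘd' : DifferentiableOn ℂ Θ ({x | ρ x < 0} ∩ ball p (min r₁ ρ₀)) :=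
    hΘd.mono fun z hz => (hmem z hz).1
  refine ⟨fun k z => g k (Θ z), fun z => g₀ (Θ z), fun k => ⟨(hg k).comp hΘd' hΘm, fun z hz => ?_⟩,
    ⟨hg₀.comp hΘd' hΘm, fun z hz => ?_⟩, fun z hz => ?_⟩
  · exact hgb k _ (hΘm hz)
  · exact hg₀b _ (hΘm hz)
  · have h1 := heq _ (hΘm hz)
    simp only [(hmem z hz).2.2.1] at h1
    exact h1

end Pool.Agent.P157G
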