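import Mathlib
import Pool.Agent.P157G.LocLm
import Pool.Agent.P157G.Alg

set_option autoImplicit false

open MeasureTheory Metric Set Filter Topology Complex

namespace Pool.Agent.P157G

open Pool.Agent.P157D (d1 d2 CR Bo)

theorem L2_mono {D : Set (ℂ × ℂ)} {M M' : ℝ} {g : ℂ × ℂ → ℂ} (h : HBd D M g) (hM : M ≤ M') :
    HBd D M' g := ⟨h.1, fun x hx => (h.2 x hx).trans hM⟩

theorem L2_restr {D D' : Set (ℂ × ℂ)} {M : ℝ} {g : ℂ × ℂ → ℂ} (h : HBd D M g) (hD : D' ⊆ D) :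
    HBd D' M g := ⟨h.1.mono hD, fun x hx => h.2 x (hD hx)⟩

/-- equicontinuity of functions bounded by `1` on the unit disc -/
theorem L2_eq {ψ : ℂ × ℂ → ℂ} {p : ℂ × ℂ} (hψ : ContinuousAt ψ p) (h1 : ‖ψ p‖ < 1) {ε : ℝ}
    (hε : 0 < ε) : ∀ᶠ x in 𝓝 p, ∀ f : ℂ → ℂ, DifferentiableOn ℂ f (ball 0 1) →
      (∀ w ∈ ball (0 : ℂ) 1, ‖f w‖ ≤ 1) → ‖f (ψ x) - f (ψ p)‖ < ε := by
  obtain ⟨R, hR⟩ : ∃ R, R = 1 - ‖ψ p‖ := ⟨_, rfl⟩
  have hR0 : 0 < R := by rw [hR]; linarith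
  have hm : 0 < min R (ε * R / 4) := lt_min hR0 (by positivity)
  have hev := Metric.continuousAt_iff'.1 hψ _ hm
  filter_upwards [hev] with x hx f hf hfb
  have hsub : ball (ψ p) R ⊆ ball (0 : ℂ) 1 := by
    intro w hw
    rw [mem_ball_zero_iff]
    rw [mem_ball, dist_eq_norm] at hw
    calc ‖w‖ = ‖(w - ψ p) + ψ p‖ := by rw [sub_add_cancel]
      _ ≤ ‖w - ψ p‖ + ‖ψ p‖ := norm_add_le _ _
      _ < 1 := by rw [hR] at hw; linarith
  have hp1 : ψ p ∈ ball (0 : ℂ) 1 := by rw [mem_ball_zero_iff]; exact h1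
  have hmaps : MapsTo f (ball (ψ p) R) (closedBall (f (ψ p)) 2) := by
    intro w hw
    rw [mem_closedBall, dist_eq_norm]
    calc ‖f w - f (ψ p)‖ ≤ ‖f w‖ + ‖f (ψ p)‖ := norm_sub_le _ _
      _ ≤ 2 := by linarith [hfb w (hsub hw), hfb _ hp1]
  have hxR : ψ x ∈ ball (ψ p) R := lt_of_lt_of_le hx (min_le_left _ _)
  have h2 := Complex.dist_le_div_mul_dist_of_mapsTo_ball (hf.mono hsub) hmaps hxR
  rw [← dist_eq_norm]
  have h3 : dist (ψ x) (ψ p) < ε * R / 4 := lt_of_lt_of_le hx (min_le_right _ _)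
  calc dist (f (ψ x)) (f (ψ p)) ≤ 2 / R * dist (ψ x) (ψ p) := h2
    _ ≤ 2 / R * (ε * R / 4) := mul_le_mul_of_nonneg_left h3.le (by positivity)
    _ = ε / 2 := by field_simp; ring
    _ < ε := by linarith

/-- `p` is in the closure of the domain -/
theorem L2_freq {ρ : ℂ × ℂ → ℝ} (h : NF ρ) {p : ℂ × ℂ} (hp : ρ p = 0) :
    ∃ᶠ x in 𝓝 p, ρ x < 0 := by
  by_contra hcon
  rw [not_frequently] at hcon
  have : IsLocalMin ρ p := hcon.mono (fun x hx => by rw [hp]; exact not_lt.1 hx)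
  exact h.nd p hp this.fderiv_eq_zero

theorem L2_le {ρ : ℂ × ℂ → ℝ} (h : NF ρ) {p : ℂ × ℂ} (hp : ρ p = 0) {ψ : ℂ × ℂ → ℂ}
    (hψ : ContinuousAt ψ p) (hψ1 : ∀ᶠ x in 𝓝 p, ρ x < 0 → ‖ψ x‖ < 1) : ‖ψ p‖ ≤ 1 := by
  by_contra hcon
  push Not at hcon
  have h1 : ∀ᶠ x in 𝓝 p, 1 < ‖ψ x‖ := hψ.norm.eventually (lt_mem_nhds hcon)
  obtain ⟨x, hx, hx1, hx2⟩ := ((L2_freq h hp).and_eventually (h1.and hψ1)).exists
  exact absurd (hx2 hx) (not_lt.2 hx1.le)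

/-- the case of a coordinate which is not small at the interior point -/
theorem L2_one (K : ℕ) {D : Set (ℂ × ℂ)} {ψ : Fin K → ℂ × ℂ → ℂ} {f : Fin K → ℂ → ℂ} {δ' : ℝ}
    (hδ' : 0 < δ') (k : Fin K) (hd : DifferentiableOn ℂ (fun x => f k (ψ k x)) D)
    (hlo : ∀ x ∈ D, δ' ≤ ‖f k (ψ k x)‖) (G : ℂ × ℂ → ℂ) {C : ℝ} (hC : 1 / δ' ≤ C) :
    ∃ (g : Fin K → ℂ × ℂ → ℂ) (g₀ : ℂ × ℂ → ℂ), (∀ k, HBd D C (g k)) ∧ HBd D C g₀ ∧
        ∀ x ∈ D, ∑ k, f k (ψ k x) * g k x + G x * g₀ x = 1 := by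
  classical
  have hC0 : 0 ≤ C := le_trans (by positivity) hC
  have hne : ∀ x ∈ D, f k (ψ k x) ≠ 0 := by
    intro x hx h0
    have := hlo x hx
    rw [h0, norm_zero] at this
    linarith
  refine ⟨fun j x => if j = k then (f k (ψ k x))⁻¹ else 0, fun _ => 0, fun j => ?_, ?_, ?_⟩
  · by_cases hj : j = k
    · simp only [hj, if_true]
      refine ⟨hd.inv hne, fun x hx => ?_⟩
      rw [norm_inv]
      refine le_trans ?_ hC
      rw [one_div]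
      exact inv_anti₀ hδ' (hlo x hx)
    · simp only [hj, if_false]
      exact ⟨differentiableOn_const _, fun x _ => by simpa using hC0⟩
  · exact ⟨differentiableOn_const _, fun x _ => by simpa using hC0⟩
  · intro x hx
    rw [Finset.sum_eq_single k]
    · simp only [if_true, mul_zero, add_zero]
      exact mul_inv_cancel₀ (hne x hx)
    · intro j _ hj
      simp [hj]
    · intro hk
      exact absurd (Finset.mem_univ k) hk

/-- extension of the solution for a subtuple by zero -/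
theorem L2_ext (K : ℕ) {D : Set (ℂ × ℂ)} {ψ : Fin K → ℂ × ℂ → ℂ} {f : Fin K → ℂ → ℂ} {n : ℕ}
    (e : Fin n → Fin K) (G : ℂ × ℂ → ℂ) {C C' : ℝ} (hC : |C| ≤ C') (hC' : n * |C| ≤ C')
    (hs : ∃ (g : Fin n → ℂ × ℂ → ℂ) (g₀ : ℂ × ℂ → ℂ), (∀ k, HBd D C (g k)) ∧ HBd D C g₀ ∧
        ∀ x ∈ D, ∑ k, f (e k) (ψ (e k) x) * g k x + G x * g₀ x = 1) :
    ∃ (g : Fin K → ℂ × ℂ → ℂ) (g₀ : ℂ × ℂ → ℂ), (∀ k, HBd D C' (g k)) ∧ HBd D C' g₀ ∧
        ∀ x ∈ D, ∑ k, f k (ψ k x) * g k x + G x * g₀ x = 1 := by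
  classical
  obtain ⟨g, g₀, hg, hg₀, hsum⟩ := hs
  refine ⟨fun k x => ∑ i, if e i = k then g i x else 0, g₀, fun k => ⟨?_, fun x hx => ?_⟩,
    L2_mono hg₀ ((le_abs_self C).trans hC), fun x hx => ?_⟩
  · refine DifferentiableOn.fun_sum (fun i _ => ?_)
    by_cases hi : e i = k
    · simp only [hi, if_true]
      exact (hg i).1
    · simp only [hi, if_false]
      exact differentiableOn_const _
  · refine (norm_sum_le _ _).trans ?_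
    refine le_trans (Finset.sum_le_sum (g := fun _ => |C|) (fun i _ => ?_)) ?_
    · by_cases hi : e i = k
      · simp only [hi, if_true]
        exact ((hg i).2 x hx).trans (le_abs_self C)
      · simp only [hi, if_false, norm_zero]
        exact abs_nonneg C
    · rw [Finset.sum_const, Finset.card_univ, Fintype.card_fin, nsmul_eq_mul]
      exact hC'
  · rw [← hsum x hx]
    congr 1
    simp_rw [Finset.mul_sum]
    rw [Finset.sum_comm]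
    refine Finset.sum_congr rfl (fun i _ => ?_)
    rw [Finset.sum_eq_single (e i)]
    · simp
    · intro k _ hk
      simp [Ne.symm hk]
    · intro hk
      exact absurd (Finset.mem_univ _) hk

/-- **TARGET** -/
theorem tupL (K : ℕ) {δ ρ₀ : ℝ} (hδ : 0 < δ) (hρ₀ : 0 < ρ₀) {ρ : ℂ × ℂ → ℝ}
    (h : NF ρ) {p : ℂ × ℂ} (hp : ρ p = 0) {ψ : Fin K → ℂ × ℂ → ℂ} (hψ : ∀ k, AnalyticAt ℂ (ψ k) p)
    (hψ1 : ∀ k, ∀ᶠ x in 𝓝 p, ρ x < 0 → ‖ψ k x‖ < 1) :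
    ∃ C r : ℝ, 0 < r ∧ r ≤ ρ₀ ∧ 0 ≤ C ∧
      ∀ f : Fin K → ℂ → ℂ, (∀ k, DifferentiableOn ℂ (f k) (ball 0 1)) →
      (∀ k, ∀ w ∈ ball (0 : ℂ) 1, ‖f k w‖ ≤ 1) →
      ∀ G : ℂ × ℂ → ℂ, HBd ({x | ρ x < 0} ∩ ball p ρ₀) 1 G →
      (∀ x ∈ {x | ρ x < 0} ∩ ball p ρ₀, δ ≤ ∑ k, ‖f k (ψ k x)‖ + ‖G x‖) →
      ∃ (g : Fin K → ℂ × ℂ → ℂ) (g₀ : ℂ × ℂ → ℂ), (∀ k, HBd ({x | ρ x < 0} ∩ ball p r) C (g k)) ∧
        HBd ({x | ρ x < 0} ∩ ball p r) C g₀ ∧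
        ∀ x ∈ {x | ρ x < 0} ∩ ball p r, ∑ k, f k (ψ k x) * g k x + G x * g₀ x = 1 := by
  classical
  obtain ⟨δ', hδ'⟩ : ∃ δ' : ℝ, δ' = min (δ / (4 * (K + 1))) 1 := ⟨_, rfl⟩
  have hδ'0 : 0 < δ' := by rw [hδ']; exact lt_min (by positivity) one_pos
  have hδ'1 : δ' ≤ 1 := by rw [hδ']; exact min_le_right _ _
  have hδ'δ : δ' * (4 * (K + 1)) ≤ δ := by
    have h1 : δ' ≤ δ / (4 * (K + 1)) := by rw [hδ']; exact min_le_left _ _
    rwa [le_div_iff₀ (by positivity)] at h1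
  -- a small ball
  have hev : ∀ᶠ x in 𝓝 p, (∀ k, AnalyticAt ℂ (ψ k) x) ∧ (∀ k, ρ x < 0 → ‖ψ k x‖ < 1) ∧
      ∀ k, ‖ψ k p‖ < 1 → ∀ f : ℂ → ℂ, DifferentiableOn ℂ f (ball 0 1) →
        (∀ w ∈ ball (0 : ℂ) 1, ‖f w‖ ≤ 1) → ‖f (ψ k x) - f (ψ k p)‖ < δ' := by
    refine (eventually_all.2 (fun k => (hψ k).eventually_analyticAt)).and
      ((eventually_all.2 hψ1).and (eventually_all.2 (fun k => ?_)))
    by_cases hk : ‖ψ k p‖ < 1
    · filter_upwards [L2_eq (hψ k).continuousAt hk hδ'0] with x hx _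
      exact hx
    · exact Eventually.of_forall (fun x hx => absurd hx hk)
  obtain ⟨ε, hε0, hε⟩ := Metric.eventually_nhds_iff_ball.1 hev
  obtain ⟨ρ₂, hρ₂⟩ : ∃ ρ₂ : ℝ, ρ₂ = min ε ρ₀ := ⟨_, rfl⟩
  have hρ₂0 : 0 < ρ₂ := by rw [hρ₂]; exact lt_min hε0 hρ₀
  have hρ₂ε : ρ₂ ≤ ε := by rw [hρ₂]; exact min_le_left _ _
  have hρ₂ρ : ρ₂ ≤ ρ₀ := by rw [hρ₂]; exact min_le_right _ _
  -- the indices with values on the circle
  obtain ⟨T, hT⟩ : ∃ T : Finset (Fin K), T = Finset.univ.filter (fun k => ‖ψ k p‖ = 1) :=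
    ⟨_, rfl⟩
  have hmT : ∀ k, k ∈ T ↔ ‖ψ k p‖ = 1 := by
    intro k
    rw [hT]
    simp
  have hnT : ∀ k, k ∉ T → ‖ψ k p‖ < 1 := by
    intro k hk
    rw [hmT] at hk
    exact lt_of_le_of_ne (L2_le h hp (hψ k).continuousAt (hψ1 k)) hk
  obtain ⟨e, he⟩ : ∃ e : Fin T.card → Fin K, ∀ k, k ∈ T ↔ ∃ i, e i = k := by
    refine ⟨fun i => (T.orderIsoOfFin rfl i : Fin K), fun k => ⟨fun hk => ?_, ?_⟩⟩
    · refine ⟨(T.orderIsoOfFin rfl).symm ⟨k, hk⟩, ?_⟩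
      simp
    · rintro ⟨i, rfl⟩
      exact (T.orderIsoOfFin rfl i).2
  obtain ⟨C, r, hr0, hrρ, hloc⟩ := locL T.card hδ'0 hδ'1 hρ₂0 h hp (ψ := fun i => ψ (e i))
    (fun i => hψ (e i)) (fun i x hx => (hε x (ball_subset_ball hρ₂ε hx.2)).2.1 (e i) hx.1)
    (fun i => (hmT (e i)).1 ((he (e i)).2 ⟨i, rfl⟩))
  refine ⟨1 / δ' + |C| * (K + 1), r, hr0, hrρ.trans hρ₂ρ, by positivity, ?_⟩
  intro f hf hf1 G hG hlow
  have hDr : {x | ρ x < 0} ∩ ball p r ⊆ {x | ρ x < 0} ∩ ball p ρ₂ :=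
    inter_subset_inter_right _ (ball_subset_ball hrρ)
  have hDρ : {x | ρ x < 0} ∩ ball p ρ₂ ⊆ {x | ρ x < 0} ∩ ball p ρ₀ :=
    inter_subset_inter_right _ (ball_subset_ball hρ₂ρ)
  have hclose : ∀ k, k ∉ T → ∀ x ∈ {x | ρ x < 0} ∩ ball p ρ₂,
      ‖f k (ψ k x) - f k (ψ k p)‖ < δ' := fun k hk x hx =>
    (hε x (ball_subset_ball hρ₂ε hx.2)).2.2 k (hnT k hk) (f k) (hf k) (hf1 k)
  by_cases hcase : ∃ k, k ∉ T ∧ 2 * δ' ≤ ‖f k (ψ k p)‖
  · obtain ⟨k, hk, hk2⟩ := hcase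
    refine L2_one K hδ'0 k ?_ (fun x hx => ?_) G (by nlinarith [abs_nonneg C, (Nat.cast_nonneg K : (0:ℝ) ≤ K)])
    · intro x hx
      have hx2 := hDr hx
      have hxE := hε x (ball_subset_ball hρ₂ε hx2.2)
      have h1 : DifferentiableAt ℂ (f k) (ψ k x) :=
        (hf k).differentiableAt (isOpen_ball.mem_nhds (by
          rw [mem_ball_zero_iff]
          exact hxE.2.1 k hx2.1))
      exact (h1.comp x (hxE.1 k).differentiableAt).differentiableWithinAt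
    · have h1 := hclose k hk x (hDr hx)
      have h2 : ‖f k (ψ k p)‖ ≤ ‖f k (ψ k x)‖ + ‖f k (ψ k x) - f k (ψ k p)‖ := by
        calc ‖f k (ψ k p)‖ = ‖f k (ψ k x) - (f k (ψ k x) - f k (ψ k p))‖ := by
              rw [sub_sub_cancel]
          _ ≤ _ := norm_sub_le _ _
      linarith
  · push Not at hcase
    refine L2_ext K e G (C := C) ?_ ?_ ?_
    · have h1 : (0 : ℝ) ≤ 1 / δ' := by positivity
      nlinarith [abs_nonneg C, (Nat.cast_nonneg K : (0:ℝ) ≤ K)]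
    · have h1 : (0 : ℝ) ≤ 1 / δ' := by positivity
      have h2 : (T.card : ℝ) ≤ K := by
        have := Finset.card_le_univ T
        rw [Fintype.card_fin] at this
        exact_mod_cast this
      nlinarith [abs_nonneg C, mul_le_mul_of_nonneg_right h2 (abs_nonneg C)]
    · refine hloc (fun i => f (e i)) (fun i => hf (e i)) (fun i => hf1 (e i)) G
        (L2_restr hG hDρ) (fun x hx hsm => ?_)
      have h1 := hlow x (hDρ hx)
      have h2 : ∑ k, ‖f k (ψ k x)‖ ≤ ∑ _k : Fin K, 3 * δ' := by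
        refine Finset.sum_le_sum (fun k _ => ?_)
        by_cases hk : k ∈ T
        · obtain ⟨i, hi⟩ := (he k).1 hk
          have := hsm i
          simp only [hi] at this
          linarith
        · have h3 := hclose k hk x hx
          have h4 := hcase k hk
          have h5 : ‖f k (ψ k x)‖ ≤ ‖f k (ψ k p)‖ + ‖f k (ψ k x) - f k (ψ k p)‖ := by
            calc ‖f k (ψ k x)‖ = ‖f k (ψ k p) + (f k (ψ k x) - f k (ψ k p))‖ := by
                  rw [add_sub_cancel]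
              _ ≤ _ := norm_add_le _ _
          linarith
      rw [Finset.sum_const, Finset.card_univ, Fintype.card_fin, nsmul_eq_mul] at h2
      nlinarith [(Nat.cast_nonneg K : (0:ℝ) ≤ K), mul_nonneg (Nat.cast_nonneg K : (0:ℝ) ≤ K) hδ'0.le]

end Pool.Agent.P157G
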