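import Mathlib
import Pool.Agent.P157G.LocDefs
import Pool.Agent.P157G.TupL

set_option autoImplicit false

open MeasureTheory Metric Set Filter Topology Complex

namespace Pool.Agent.P157G

open Pool.Agent.P157D (d1 d2 CR Bo)

theorem L4_add {I : Type} {D : Set (ℂ × ℂ)} {p : ℂ × ℂ} {b b' : I → ℂ × ℂ → ℂ}
    (hb : Bnr D p b) (hb' : Bnr D p b') : Bnr D p (fun i x => b i x + b' i x) := by
  obtain ⟨r, M, hr, hM, h⟩ := hb
  obtain ⟨r', M', hr', hM', h'⟩ := hb'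
  refine ⟨min r r', M + M', lt_min hr hr', add_nonneg hM hM', fun i => ⟨?_, ?_⟩⟩
  · exact ((h i).1.mono (inter_subset_inter_right _ (ball_subset_ball (min_le_left _ _)))).add
      ((h' i).1.mono (inter_subset_inter_right _ (ball_subset_ball (min_le_right _ _))))
  · intro x hx
    exact (norm_add_le _ _).trans (add_le_add
      ((h i).2 x ⟨hx.1, ball_subset_ball (min_le_left _ _) hx.2⟩)
      ((h' i).2 x ⟨hx.1, ball_subset_ball (min_le_right _ _) hx.2⟩))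

theorem L4_mul {I : Type} {D : Set (ℂ × ℂ)} {p : ℂ × ℂ} {b b' : I → ℂ × ℂ → ℂ}
    (hb : Bnr D p b) (hb' : Bnr D p b') : Bnr D p (fun i x => b i x * b' i x) := by
  obtain ⟨r, M, hr, hM, h⟩ := hb
  obtain ⟨r', M', hr', hM', h'⟩ := hb'
  refine ⟨min r r', M * M', lt_min hr hr', mul_nonneg hM hM', fun i => ⟨?_, ?_⟩⟩
  · exact ((h i).1.mono (inter_subset_inter_right _ (ball_subset_ball (min_le_left _ _)))).mul
      ((h' i).1.mono (inter_subset_inter_right _ (ball_subset_ball (min_le_right _ _))))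
  · intro x hx
    rw [norm_mul]
    exact mul_le_mul
      ((h i).2 x ⟨hx.1, ball_subset_ball (min_le_left _ _) hx.2⟩)
      ((h' i).2 x ⟨hx.1, ball_subset_ball (min_le_right _ _) hx.2⟩) (norm_nonneg _) hM

theorem L4_cst {I : Type} (D : Set (ℂ × ℂ)) (p : ℂ × ℂ) (c : ℂ) :
    Bnr D p (fun (_ : I) _ => c) :=
  ⟨1, ‖c‖, one_pos, norm_nonneg _, fun _ => ⟨differentiableOn_const _, fun _ _ => le_rfl⟩⟩

theorem L4_sum {I : Type} {D : Set (ℂ × ℂ)} {p : ℂ × ℂ} {v : (I → ℂ × ℂ → ℂ) → ℂ}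
    (hv : Vc D p v) {κ : Type} (s : Finset κ) (b : κ → I → ℂ × ℂ → ℂ)
    (hb : ∀ k, Bnr D p (b k)) :
    Bnr D p (fun i x => ∑ k ∈ s, b k i x) ∧
      v (fun i x => ∑ k ∈ s, b k i x) = ∑ k ∈ s, v (b k) := by
  classical
  induction s using Finset.induction_on with
  | empty =>
    simp only [Finset.sum_empty]
    exact ⟨L4_cst D p 0, hv.cst 0⟩
  | insert k s hk ih =>
    have e : (fun i x => ∑ j ∈ insert k s, b j i x) =
        fun (i : I) (x : ℂ × ℂ) => b k i x + (fun i x => ∑ j ∈ s, b j i x) i x := by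
      funext i x
      rw [Finset.sum_insert hk]
    rw [e, Finset.sum_insert hk]
    refine ⟨L4_add (hb k) ih.1, ?_⟩
    rw [hv.add _ _ (hb k) ih.1, ih.2]

/-- subtracting the value and dividing gives value 0 -/
theorem L4_zero {I : Type} {D : Set (ℂ × ℂ)} {p : ℂ × ℂ} {v : (I → ℂ × ℂ → ℂ) → ℂ}
    (hv : Vc D p v) {b : I → ℂ × ℂ → ℂ} (hb : Bnr D p b) (R : ℂ) :
    Bnr D p (fun i x => (b i x + -v b) * R) ∧ v (fun i x => (b i x + -v b) * R) = 0 := by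
  have h1 := L4_cst (I := I) D p (-v b)
  have h2 := L4_cst (I := I) D p R
  have h3 := L4_add hb h1
  refine ⟨L4_mul h3 h2, ?_⟩
  rw [hv.mul _ _ h3 h2, hv.add _ _ hb h1, hv.cst]
  ring

/-- **TARGET** -/
theorem clus {ρ : ℂ × ℂ → ℝ} (h : NF ρ) {p : ℂ × ℂ} (hp : ρ p = 0) {I : Type}
    {v : (I → ℂ × ℂ → ℂ) → ℂ} (hv : Vc {x | ρ x < 0} p v) {G : I → ℂ × ℂ → ℂ}
    (hG : Bnr {x | ρ x < 0} p G) (K : ℕ) {f : Fin K → I → ℂ → ℂ}
    (hf : ∀ k i, DifferentiableOn ℂ (f k i) (ball 0 1))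
    (hfb : ∃ C : ℝ, ∀ k i, ∀ w ∈ ball (0 : ℂ) 1, ‖f k i w‖ ≤ C) {ψ : Fin K → ℂ × ℂ → ℂ}
    (hψ : ∀ k, AnalyticAt ℂ (ψ k) p) (hψ1 : ∀ k, ∀ᶠ x in 𝓝 p, ρ x < 0 → ‖ψ k x‖ < 1)
    {η r : ℝ} (hη : 0 < η) (hr : 0 < r) :
    ∃ i, ∃ x ∈ {x | ρ x < 0} ∩ ball p r,
      (∀ k, ‖f k i (ψ k x) - v (fun i x => f k i (ψ k x))‖ < η) ∧ ‖G i x - v G‖ < η := by
  by_contra hcon
  push Not at hcon
  obtain ⟨C₁, hC₁⟩ := hfb
  set C : ℝ := max C₁ 0 with hC
  have hC0 : 0 ≤ C := le_max_right _ _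
  have hCf : ∀ k i, ∀ w ∈ ball (0 : ℂ) 1, ‖f k i w‖ ≤ C :=
    fun k i w hw => (hC₁ k i w hw).trans (le_max_left _ _)
  have hG' := hG
  obtain ⟨r₁, M, hr₁, hM, hGM⟩ := hG
  -- a common radius
  have hev : ∀ᶠ x in 𝓝 p, ∀ k, (ρ x < 0 → ‖ψ k x‖ < 1) ∧ DifferentiableAt ℂ (ψ k) x := by
    rw [Filter.eventually_all]
    intro k
    filter_upwards [hψ1 k, (hψ k).eventually_analyticAt] with x hx hx'
    exact ⟨hx, hx'.differentiableAt⟩
  obtain ⟨r₂, hr₂, hball⟩ := Metric.eventually_nhds_iff_ball.1 hev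
  set ρ₀ : ℝ := min r (min r₁ r₂) with hρ₀
  have hρ₀pos : 0 < ρ₀ := lt_min hr (lt_min hr₁ hr₂)
  have hle : ρ₀ ≤ r := min_le_left _ _
  have hle1 : ρ₀ ≤ r₁ := (min_le_right _ _).trans (min_le_left _ _)
  have hle2 : ρ₀ ≤ r₂ := (min_le_right _ _).trans (min_le_right _ _)
  -- the families
  have hB : ∀ k, Bnr {x | ρ x < 0} p (fun i x => f k i (ψ k x)) := by
    intro k
    refine ⟨ρ₀, C, hρ₀pos, hC0, fun i => ⟨?_, ?_⟩⟩
    · intro x hx
      have hx2 := hball x (ball_subset_ball hle2 hx.2) k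
      have h1 : DifferentiableAt ℂ (f k i) (ψ k x) :=
        (hf k i).differentiableAt (isOpen_ball.mem_nhds (mem_ball_zero_iff.2 (hx2.1 hx.1)))
      exact (h1.comp x hx2.2).differentiableWithinAt
    · intro x hx
      have hx2 := hball x (ball_subset_ball hle2 hx.2) k
      exact hCf k i _ (mem_ball_zero_iff.2 (hx2.1 hx.1))
  set V : Fin K → ℂ := fun k => v (fun i x => f k i (ψ k x)) with hV
  set R : ℝ := C + M + ∑ k, ‖V k‖ + ‖v G‖ + 1 with hR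
  have hsum0 : 0 ≤ ∑ k, ‖V k‖ := Finset.sum_nonneg fun _ _ => norm_nonneg _
  have hRpos : 0 < R := by positivity
  have hR1 : ∀ k, C + ‖V k‖ ≤ R := by
    intro k
    have h1 : ‖V k‖ ≤ ∑ k, ‖V k‖ :=
      Finset.single_le_sum (f := fun k => ‖V k‖) (fun _ _ => norm_nonneg _) (Finset.mem_univ k)
    have h2 : 0 ≤ ‖v G‖ := norm_nonneg _
    rw [hR]; linarith
  have hR2 : M + ‖v G‖ ≤ R := by
    rw [hR]; linarith
  have hRinv : ‖((R : ℂ))⁻¹‖ = R⁻¹ := by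
    rw [norm_inv, Complex.norm_real, Real.norm_of_nonneg hRpos.le]
  obtain ⟨C₂, r₃, hr₃, hr₃', hC₂, hsol⟩ := tupL K (δ := η / R) (div_pos hη hRpos) hρ₀pos h hp hψ hψ1
  -- the solutions
  have hex : ∀ i, ∃ (g : Fin K → ℂ × ℂ → ℂ) (g₀ : ℂ × ℂ → ℂ),
      (∀ k, HBd ({x | ρ x < 0} ∩ ball p r₃) C₂ (g k)) ∧
        HBd ({x | ρ x < 0} ∩ ball p r₃) C₂ g₀ ∧
        ∀ x ∈ {x | ρ x < 0} ∩ ball p r₃,
          ∑ k, (f k i (ψ k x) + -V k) * (R : ℂ)⁻¹ * g k x +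
            (G i x + -v G) * (R : ℂ)⁻¹ * g₀ x = 1 := by
    intro i
    refine hsol (fun k w => (f k i w + -V k) * (R : ℂ)⁻¹) ?_ ?_
      (fun x => (G i x + -v G) * (R : ℂ)⁻¹) ?_ ?_
    · intro k
      exact ((hf k i).add (differentiableOn_const _)).mul (differentiableOn_const _)
    · intro k w hw
      rw [norm_mul, hRinv, ← div_eq_mul_inv, div_le_one hRpos]
      calc ‖f k i w + -V k‖ ≤ ‖f k i w‖ + ‖-V k‖ := norm_add_le _ _
        _ ≤ C + ‖V k‖ := by rw [norm_neg]; exact add_le_add (hCf k i w hw) le_rfl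
        _ ≤ R := hR1 k
    · refine ⟨?_, ?_⟩
      · exact (((hGM i).1.mono (inter_subset_inter_right _ (ball_subset_ball hle1))).add
          (differentiableOn_const _)).mul (differentiableOn_const _)
      · intro x hx
        simp only
        rw [norm_mul, hRinv, ← div_eq_mul_inv, div_le_one hRpos]
        calc ‖G i x + -v G‖ ≤ ‖G i x‖ + ‖-v G‖ := norm_add_le _ _
          _ ≤ M + ‖v G‖ := by
            rw [norm_neg]
            exact add_le_add ((hGM i).2 x ⟨hx.1, ball_subset_ball hle1 hx.2⟩) le_rfl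
          _ ≤ R := hR2
    · intro x hx
      have hx' : x ∈ {x | ρ x < 0} ∩ ball p r := ⟨hx.1, ball_subset_ball hle hx.2⟩
      simp only [norm_mul, hRinv]
      rw [← Finset.sum_mul, ← add_mul, div_eq_mul_inv]
      refine mul_le_mul_of_nonneg_right ?_ (inv_nonneg.2 hRpos.le)
      by_cases hk : ∀ k, ‖f k i (ψ k x) - v (fun i x => f k i (ψ k x))‖ < η
      · have h1 := hcon i x hx' hk
        have h2 : 0 ≤ ∑ k, ‖f k i (ψ k x) + -V k‖ := Finset.sum_nonneg fun _ _ => norm_nonneg _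
        rw [sub_eq_add_neg] at h1
        linarith
      · push Not at hk
        obtain ⟨k, hk⟩ := hk
        have h1 : ‖f k i (ψ k x) + -V k‖ ≤ ∑ k, ‖f k i (ψ k x) + -V k‖ :=
          Finset.single_le_sum (f := fun k => ‖f k i (ψ k x) + -V k‖)
            (fun _ _ => norm_nonneg _) (Finset.mem_univ k)
        rw [sub_eq_add_neg] at hk
        have h2 : 0 ≤ ‖G i x + -v G‖ := norm_nonneg _
        have h3 : η ≤ ‖f k i (ψ k x) + -V k‖ := hk
        linarith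
  choose g g₀ hg hg₀ hgs using hex
  -- apply v
  have b1 : ∀ k, Bnr {x | ρ x < 0} p (fun i x => (f k i (ψ k x) + -V k) * (R : ℂ)⁻¹) ∧
      v (fun i x => (f k i (ψ k x) + -V k) * (R : ℂ)⁻¹) = 0 := fun k => L4_zero hv (hB k) _
  have b2 : ∀ k, Bnr {x | ρ x < 0} p (fun i x => g i k x) := fun k =>
    ⟨r₃, C₂, hr₃, hC₂, fun i => hg i k⟩
  have b3 := L4_zero hv hG' (R : ℂ)⁻¹
  have b4 : Bnr {x | ρ x < 0} p g₀ := ⟨r₃, C₂, hr₃, hC₂, fun i => hg₀ i⟩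
  have b5 : ∀ k, Bnr {x | ρ x < 0} p
      (fun i x => (f k i (ψ k x) + -V k) * (R : ℂ)⁻¹ * g i k x) := fun k =>
    L4_mul (b1 k).1 (b2 k)
  have b6 : ∀ k, v (fun i x => (f k i (ψ k x) + -V k) * (R : ℂ)⁻¹ * g i k x) = 0 := by
    intro k
    have := hv.mul _ _ (b1 k).1 (b2 k)
    rw [this, (b1 k).2, zero_mul]
  have b7 := L4_sum hv (Finset.univ : Finset (Fin K))
    (fun k i x => (f k i (ψ k x) + -V k) * (R : ℂ)⁻¹ * g i k x) b5
  have b8 : Bnr {x | ρ x < 0} p (fun i x => (G i x + -v G) * (R : ℂ)⁻¹ * g₀ i x) :=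
    L4_mul b3.1 b4
  have b9 : v (fun i x => (G i x + -v G) * (R : ℂ)⁻¹ * g₀ i x) = 0 := by
    have := hv.mul _ _ b3.1 b4
    rw [this, b3.2, zero_mul]
  have c1 := hv.add _ _ b7.1 b8
  have c2 := hv.con _ (fun _ _ => 1) (L4_add b7.1 b8) (L4_cst _ _ 1) (by
    filter_upwards [ball_mem_nhds p hr₃] with x hx hxD i
    exact hgs i x ⟨hxD, hx⟩)
  rw [c1, b7.2, b9, hv.cst] at c2
  simp only [b6, Finset.sum_const_zero, add_zero] at c2
  exact zero_ne_one c2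

end Pool.Agent.P157G
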