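import Mathlib
import Pool.Agent.P157G.Reg

set_option autoImplicit false

open MeasureTheory Metric Set Filter Topology Complex

namespace Pool.Agent.P157G

/-- the operator `(∂_e + i ∂_e') / 2` -/
noncomputable def G9a_db (e e' : ℂ × ℂ) (u : ℂ × ℂ → ℂ) (x : ℂ × ℂ) : ℂ :=
  (fderiv ℝ u x e + Complex.I * fderiv ℝ u x e') / 2

theorem G9a_db1 (u : ℂ × ℂ → ℂ) (x : ℂ × ℂ) : db1 u x = G9a_db (1, 0) (Complex.I, 0) u x := rfl

theorem G9a_db2 (u : ℂ × ℂ → ℂ) (x : ℂ × ℂ) : db2 u x = G9a_db (0, 1) (0, Complex.I) u x := rfl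

section basic

variable {e e' : ℂ × ℂ} {u v : ℂ × ℂ → ℂ} {x : ℂ × ℂ}

theorem G9a_db_add (hu : DifferentiableAt ℝ u x) (hv : DifferentiableAt ℝ v x) :
    G9a_db e e' (fun y => u y + v y) x = G9a_db e e' u x + G9a_db e e' v x := by
  unfold G9a_db
  rw [fderiv_fun_add hu hv]
  simp only [add_apply]
  ring

theorem G9a_db_sub (hu : DifferentiableAt ℝ u x) (hv : DifferentiableAt ℝ v x) :
    G9a_db e e' (fun y => u y - v y) x = G9a_db e e' u x - G9a_db e e' v x := by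
  unfold G9a_db
  rw [fderiv_fun_sub hu hv]
  simp only [sub_apply]
  ring

theorem G9a_db_neg : G9a_db e e' (fun y => - u y) x = - G9a_db e e' u x := by
  unfold G9a_db
  rw [fderiv_fun_neg]
  simp only [neg_apply]
  ring

theorem G9a_db_sum {ι : Type} (s : Finset ι) (w : ι → ℂ × ℂ → ℂ)
    (h : ∀ i ∈ s, DifferentiableAt ℝ (w i) x) :
    G9a_db e e' (fun y => ∑ i ∈ s, w i y) x = ∑ i ∈ s, G9a_db e e' (w i) x := by
  unfold G9a_db
  rw [fderiv_fun_sum h]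
  simp only [sum_apply, Finset.mul_sum, ← Finset.sum_add_distrib,
    Finset.sum_div]

theorem G9a_db_congr (h : u =ᶠ[𝓝 x] v) : G9a_db e e' u x = G9a_db e e' v x := by
  unfold G9a_db
  rw [h.fderiv_eq]

theorem G9a_db_const (c : ℂ) : G9a_db e e' (fun _ => c) x = 0 := by
  unfold G9a_db
  simp

theorem G9a_db_mul (hu : DifferentiableAt ℝ u x) (hv : DifferentiableAt ℝ v x) :
    G9a_db e e' (fun y => u y * v y) x = u x * G9a_db e e' v x + v x * G9a_db e e' u x := by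
  unfold G9a_db
  rw [fderiv_fun_mul hu hv]
  simp only [add_apply, smul_apply, smul_eq_mul]
  ring

theorem G9a_db_zero_of (h : x ∉ tsupport u) : G9a_db e e' u x = 0 := by
  have h1 : u =ᶠ[𝓝 x] fun _ => (0 : ℂ) := notMem_tsupport_iff_eventuallyEq.mp h
  rw [G9a_db_congr h1, G9a_db_const]

theorem G9a_db_smooth {n : WithTop ℕ∞} (hu : ContDiff ℝ (n + 1) u) : ContDiff ℝ n (G9a_db e e' u) := by
  have h1 : ContDiff ℝ n (fun x => fderiv ℝ u x e) :=
    (hu.fderiv_right le_rfl).clm_apply contDiff_const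
  have h2 : ContDiff ℝ n (fun x => fderiv ℝ u x e') :=
    (hu.fderiv_right le_rfl).clm_apply contDiff_const
  unfold G9a_db
  exact (h1.add (contDiff_const.mul h2)).div_const 2

theorem G9a_db_tsupport : tsupport (G9a_db e e' u) ⊆ tsupport u := by
  refine closure_minimal ?_ (isClosed_tsupport u)
  intro x hx
  by_contra h
  exact hx (G9a_db_zero_of h)

theorem G9a_db_comm (g g' : ℂ × ℂ) (hu : ContDiff ℝ 2 u) :
    G9a_db e e' (G9a_db g g' u) x = G9a_db g g' (G9a_db e e' u) x := by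
  have hd : DifferentiableAt ℝ (fderiv ℝ u) x :=
    ((hu.fderiv_right (m := 1) (by norm_num)).differentiable (by norm_num)) x
  have h1 (v w : ℂ × ℂ) : fderiv ℝ (fun y => fderiv ℝ u y v) x w = fderiv ℝ (fderiv ℝ u) x w v := by
    rw [fderiv_clm_apply hd (differentiableAt_const v)]
    simp
  have h2 (v : ℂ × ℂ) : DifferentiableAt ℝ (fun y => fderiv ℝ u y v) x :=
    hd.clm_apply (differentiableAt_const v)
  have hs : IsSymmSndFDerivAt ℝ u x := hu.contDiffAt.isSymmSndFDerivAt (by simp)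
  have h3 (a a' v v' : ℂ × ℂ) : G9a_db a a' (G9a_db v v' u) x =
      (fderiv ℝ (fderiv ℝ u) x a v + Complex.I * fderiv ℝ (fderiv ℝ u) x a v' +
        Complex.I * (fderiv ℝ (fderiv ℝ u) x a' v + Complex.I * fderiv ℝ (fderiv ℝ u) x a' v')) / 4 := by
    have h4 (b : ℂ × ℂ) : fderiv ℝ (G9a_db v v' u) x b =
        (fderiv ℝ (fderiv ℝ u) x b v + Complex.I * fderiv ℝ (fderiv ℝ u) x b v') / 2 := by
      have e1 : G9a_db v v' u = fun y => (fderiv ℝ u y v + Complex.I * fderiv ℝ u y v') * (2 : ℂ)⁻¹ := by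
        funext y
        unfold G9a_db
        rw [div_eq_mul_inv]
      have h6 : DifferentiableAt ℝ (fun y => fderiv ℝ u y v + Complex.I * fderiv ℝ u y v') x :=
        (h2 v).add ((h2 v').const_mul _)
      rw [e1, fderiv_mul_const h6, fderiv_fun_add (h2 v) ((h2 v').const_mul _),
        fderiv_const_mul (h2 v')]
      simp only [smul_apply, add_apply, h1, smul_eq_mul]
      ring
    rw [G9a_db, h4, h4]
    ring
  rw [h3, h3, hs g e, hs g e', hs g' e, hs g' e']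
  ring

end basic

section cut

variable {e e' : ℂ × ℂ} {U : Set (ℂ × ℂ)} {χ u : ℂ × ℂ → ℂ}

theorem G9a_mulC (hU : IsOpen U) (hχ : ContDiff ℝ 1 χ) (hs : tsupport χ ⊆ U)
    (hu : ContDiffOn ℝ 1 u U) : ContDiff ℝ 1 (fun x => χ x * u x) := by
  rw [contDiff_iff_contDiffAt]
  intro x
  by_cases hx : x ∈ tsupport χ
  · exact hχ.contDiffAt.mul (hu.contDiffAt (hU.mem_nhds (hs hx)))
  · have h1 : χ =ᶠ[𝓝 x] fun _ => (0 : ℂ) := notMem_tsupport_iff_eventuallyEq.mp hx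
    have h2 : (fun x => χ x * u x) =ᶠ[𝓝 x] fun _ => (0 : ℂ) := by
      filter_upwards [h1] with y hy
      rw [hy, zero_mul]
    exact contDiffAt_const.congr_of_eventuallyEq h2

theorem G9a_mulD (hU : IsOpen U) (hχ : ContDiff ℝ 1 χ) (hs : tsupport χ ⊆ U)
    (hu : ContDiffOn ℝ 1 u U) (x : ℂ × ℂ) :
    G9a_db e e' (fun x => χ x * u x) x = χ x * G9a_db e e' u x + u x * G9a_db e e' χ x := by
  by_cases hx : x ∈ tsupport χ
  · exact G9a_db_mul (hχ.differentiable (by norm_num) x)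
      ((hu.contDiffAt (hU.mem_nhds (hs hx))).differentiableAt (by norm_num))
  · have h1 : χ =ᶠ[𝓝 x] fun _ => (0 : ℂ) := notMem_tsupport_iff_eventuallyEq.mp hx
    have h2 : (fun x => χ x * u x) =ᶠ[𝓝 x] fun _ => (0 : ℂ) := by
      filter_upwards [h1] with y hy
      rw [hy, zero_mul]
    rw [G9a_db_congr h2, G9a_db_const, G9a_db_zero_of hx, image_eq_zero_of_notMem_tsupport hx]
    ring

end cut

/-- a partition of unity on a compact set -/
theorem G9a_part {K : Set (ℂ × ℂ)} (hK : IsCompact K) {r : ℝ} (hr : 0 < r) :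
    ∃ (ι : Type) (_ : Fintype ι) (a : ι → ℂ × ℂ) (χ : ι → ℂ × ℂ → ℂ) (B : ℝ), 0 ≤ B ∧
      (∀ i, a i ∈ K) ∧
      (∀ i, ContDiff ℝ 3 (χ i)) ∧ (∀ i, tsupport (χ i) ⊆ ball (a i) (2 * r)) ∧
      (∀ i x, ‖χ i x‖ ≤ 1) ∧ (∀ i x, ‖fderiv ℝ (χ i) x‖ ≤ B) ∧
      (∀ x ∈ K, ∑ i, χ i x = 1) ∧ (∀ x ∈ K, ∃ j, x ∈ ball (a j) (2 * r)) := by
  obtain ⟨t, htK, htf, hcov⟩ := hK.finite_cover_balls hr
  have : Fintype t := htf.fintype
  have hcov2 : K ⊆ ⋃ i : t, ball (i : ℂ × ℂ) (2 * r) := by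
    intro x hx
    obtain ⟨y, hy, hxy⟩ := mem_iUnion₂.mp (hcov hx)
    exact mem_iUnion.mpr ⟨⟨y, hy⟩, ball_subset_ball (by linarith) hxy⟩
  obtain ⟨f, hf⟩ := SmoothPartitionOfUnity.exists_isSubordinate (I := modelWithCornersSelf ℝ (ℂ × ℂ))
    hK.isClosed (fun i : t => ball (i : ℂ × ℂ) (2 * r)) (fun i => isOpen_ball) hcov2
  have hsm : ∀ i : t, ContDiff ℝ 3 (fun x => ((f i x : ℝ) : ℂ)) := by
    intro i
    have h1 : ContDiff ℝ (⊤ : ℕ∞) (f i) := (f i).contMDiff.contDiff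
    have h2 : ContDiff ℝ 3 (f i) := by exact_mod_cast contDiff_infty.mp h1 3
    exact Complex.ofRealCLM.contDiff.comp h2
  have hts : ∀ i : t, tsupport (fun x => ((f i x : ℝ) : ℂ)) ⊆ ball (i : ℂ × ℂ) (2 * r) := by
    intro i
    refine Subset.trans ?_ (hf i)
    refine closure_mono ?_
    intro x hx h
    exact hx (by simp [h])
  have hb : ∀ i : t, ∃ B : ℝ, ∀ x, ‖fderiv ℝ (fun x => ((f i x : ℝ) : ℂ)) x‖ ≤ B := by
    intro i
    have hc : HasCompactSupport (fun x => ((f i x : ℝ) : ℂ)) := by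
      refine IsCompact.of_isClosed_subset (isCompact_closedBall (i : ℂ × ℂ) (2 * r))
        (isClosed_tsupport _) ((hts i).trans ball_subset_closedBall)
    have h2 : Continuous (fderiv ℝ (fun x => ((f i x : ℝ) : ℂ))) :=
      (hsm i).continuous_fderiv (by norm_num)
    have h3 : HasCompactSupport (fderiv ℝ (fun x => ((f i x : ℝ) : ℂ))) := hc.fderiv (𝕜 := ℝ)
    obtain ⟨B, hB⟩ := h3.exists_bound_of_continuous h2
    exact ⟨B, hB⟩
  choose B hB using hb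
  refine ⟨t, inferInstance, fun i => (i : ℂ × ℂ), fun i x => ((f i x : ℝ) : ℂ),
    ∑ i, |B i|, Finset.sum_nonneg fun _ _ => abs_nonneg _, fun i => htK i.2, hsm, hts, ?_, ?_, ?_, ?_⟩
  · intro i x
    rw [Complex.norm_real, Real.norm_of_nonneg (f.nonneg i x)]
    exact f.le_one i x
  · intro i x
    refine (hB i x).trans ((le_abs_self _).trans ?_)
    exact Finset.single_le_sum (f := fun i => |B i|) (fun _ _ => abs_nonneg _) (Finset.mem_univ i)
  · intro x hx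
    have h1 := f.sum_eq_one hx
    rw [finsum_eq_sum_of_fintype] at h1
    rw [← Complex.ofReal_sum, h1, Complex.ofReal_one]
  · intro x hx
    obtain ⟨j, hj⟩ := mem_iUnion.mp (hcov2 hx)
    exact ⟨j, hj⟩

theorem G9a_db_norm {e e' : ℂ × ℂ} (he : ‖e‖ ≤ 1) (he' : ‖e'‖ ≤ 1) {u : ℂ × ℂ → ℂ} {x : ℂ × ℂ} {B : ℝ}
    (hB : ‖fderiv ℝ u x‖ ≤ B) : ‖G9a_db e e' u x‖ ≤ B := by
  have h0 : 0 ≤ B := (norm_nonneg _).trans hB
  have h1 (v : ℂ × ℂ) (hv : ‖v‖ ≤ 1) : ‖fderiv ℝ u x v‖ ≤ B := by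
    refine ((fderiv ℝ u x).le_opNorm v).trans ?_
    calc ‖fderiv ℝ u x‖ * ‖v‖ ≤ B * 1 := mul_le_mul hB hv (norm_nonneg _) h0
      _ = B := mul_one B
  unfold G9a_db
  rw [norm_div, Complex.norm_ofNat]
  have h2 : ‖fderiv ℝ u x e + Complex.I * fderiv ℝ u x e'‖ ≤ B + B := by
    refine (norm_add_le _ _).trans (add_le_add (h1 e he) ?_)
    rw [norm_mul, Complex.norm_I, one_mul]
    exact h1 e' he'
  linarith

/-- a partition of unity near a set, with radii -/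
structure G9a_PU (ι : Type) [Fintype ι] (D : Set (ℂ × ℂ)) (r B : ℝ) (a : ι → ℂ × ℂ)
    (χ : ι → ℂ × ℂ → ℂ) : Prop where
  r0 : 0 < r
  B0 : 0 ≤ B
  sm : ∀ i, ContDiff ℝ 3 (χ i)
  ts : ∀ i, tsupport (χ i) ⊆ ball (a i) (2 * r)
  le1 : ∀ i x, ‖χ i x‖ ≤ 1
  bd : ∀ i x, ‖fderiv ℝ (χ i) x‖ ≤ B
  one : ∀ x ∈ D, ∑ i, χ i x = 1
  cov : ∀ x ∈ D, ∃ j, x ∈ ball (a j) (2 * r)

section PU

variable {ι : Type} [Fintype ι] {D : Set (ℂ × ℂ)} {r B : ℝ} {a : ι → ℂ × ℂ} {χ : ι → ℂ × ℂ → ℂ}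

/-- `- ∑ (∂χ_i) u_i` -/
noncomputable def G9a_K (e e' : ℂ × ℂ) (χ : ι → ℂ × ℂ → ℂ) (u : ι → ℂ × ℂ → ℂ) (x : ℂ × ℂ) : ℂ :=
  - ∑ i, G9a_db e e' (χ i) x * u i x

theorem G9a_sum_db (P : G9a_PU ι D r B a χ) (hD : IsOpen D) (e e' : ℂ × ℂ) {x : ℂ × ℂ} (hx : x ∈ D) :
    ∑ i, G9a_db e e' (χ i) x = 0 := by
  rw [← G9a_db_sum Finset.univ χ (fun i _ => ((P.sm i).differentiable (by norm_num)) x)]
  have h : (fun y => ∑ i, χ i y) =ᶠ[𝓝 x] fun _ => (1 : ℂ) := by
    filter_upwards [hD.mem_nhds hx] with y hy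
    exact P.one y hy
  rw [G9a_db_congr h, G9a_db_const]

theorem G9a_sub (P : G9a_PU ι D r B a χ) (i : ι) : ball (a i) (2 * r) ⊆ ball (a i) (4 * r) :=
  ball_subset_ball (by have := P.r0; linarith)

theorem G9a_K_smooth (P : G9a_PU ι D r B a χ) (e e' : ℂ × ℂ) {u : ι → ℂ × ℂ → ℂ}
    (hu : ∀ i, ContDiffOn ℝ 1 (u i) (ball (a i) (4 * r))) : ContDiff ℝ 1 (G9a_K e e' χ u) := by
  unfold G9a_K
  refine ContDiff.neg (ContDiff.sum fun i _ => ?_)
  refine G9a_mulC isOpen_ball ?_ ((G9a_db_tsupport.trans (P.ts i)).trans (G9a_sub P i)) (hu i)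
  exact (G9a_db_smooth (n := 2) (by exact_mod_cast P.sm i)).of_le (by norm_num)

theorem G9a_K_db (P : G9a_PU ι D r B a χ) (hD : IsOpen D) (e e' g g' : ℂ × ℂ) {u : ι → ℂ × ℂ → ℂ}
    (hu : ∀ i, ContDiffOn ℝ 1 (u i) (ball (a i) (4 * r))) {f : ℂ × ℂ → ℂ}
    (hf : ∀ i, ∀ x ∈ ball (a i) (4 * r), G9a_db e e' (u i) x = f x) {x : ℂ × ℂ} (hx : x ∈ D) :
    G9a_db e e' (G9a_K g g' χ u) x = - ∑ i, u i x * G9a_db e e' (G9a_db g g' (χ i)) x := by
  have h0 (i : ι) : ContDiff ℝ 1 (G9a_db g g' (χ i)) :=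
    (G9a_db_smooth (n := 2) (by exact_mod_cast P.sm i)).of_le (by norm_num)
  have h1 (i : ι) : tsupport (G9a_db g g' (χ i)) ⊆ ball (a i) (4 * r) :=
    (G9a_db_tsupport.trans (P.ts i)).trans (G9a_sub P i)
  have h2 (i : ι) : ContDiff ℝ 1 (fun x => G9a_db g g' (χ i) x * u i x) :=
    G9a_mulC isOpen_ball (h0 i) (h1 i) (hu i)
  unfold G9a_K
  rw [G9a_db_neg, G9a_db_sum Finset.univ (fun i y => G9a_db g g' (χ i) y * u i y)
    (fun i _ => ((h2 i).differentiable (by norm_num)) x)]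
  congr 1
  have h3 (i : ι) : G9a_db e e' (fun y => G9a_db g g' (χ i) y * u i y) x =
      f x * G9a_db g g' (χ i) x + u i x * G9a_db e e' (G9a_db g g' (χ i)) x := by
    rw [G9a_mulD isOpen_ball (h0 i) (h1 i) (hu i) x]
    congr 1
    by_cases hx2 : x ∈ ball (a i) (4 * r)
    · rw [hf i x hx2]; ring
    · rw [image_eq_zero_of_notMem_tsupport (fun h => hx2 (h1 i h))]; ring
  simp only [h3, Finset.sum_add_distrib, ← Finset.mul_sum]
  rw [G9a_sum_db P hD g g' hx, mul_zero, zero_add]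

/-- `∑ χ_i u_i` -/
noncomputable def G9a_W (χ : ι → ℂ × ℂ → ℂ) (u : ι → ℂ × ℂ → ℂ) (x : ℂ × ℂ) : ℂ :=
  ∑ i, χ i x * u i x

theorem G9a_W_smooth (P : G9a_PU ι D r B a χ) {u : ι → ℂ × ℂ → ℂ}
    (hu : ∀ i, ContDiffOn ℝ 1 (u i) (ball (a i) (4 * r))) : ContDiff ℝ 1 (G9a_W χ u) := by
  unfold G9a_W
  refine ContDiff.sum fun i _ => ?_
  exact G9a_mulC isOpen_ball ((P.sm i).of_le (by norm_num)) ((P.ts i).trans (G9a_sub P i)) (hu i)

theorem G9a_W_db (P : G9a_PU ι D r B a χ) (e e' : ℂ × ℂ) {u : ι → ℂ × ℂ → ℂ}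
    (hu : ∀ i, ContDiffOn ℝ 1 (u i) (ball (a i) (4 * r))) {f : ℂ × ℂ → ℂ}
    (hf : ∀ i, ∀ x ∈ ball (a i) (4 * r), G9a_db e e' (u i) x = f x) {x : ℂ × ℂ} (hx : x ∈ D) :
    G9a_db e e' (G9a_W χ u) x = f x - G9a_K e e' χ u x := by
  have h0 (i : ι) : ContDiff ℝ 1 (χ i) := (P.sm i).of_le (by norm_num)
  have h1 (i : ι) : tsupport (χ i) ⊆ ball (a i) (4 * r) := (P.ts i).trans (G9a_sub P i)
  have h2 (i : ι) : ContDiff ℝ 1 (fun x => χ i x * u i x) :=
    G9a_mulC isOpen_ball (h0 i) (h1 i) (hu i)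
  unfold G9a_W G9a_K
  rw [G9a_db_sum Finset.univ (fun i y => χ i y * u i y)
    (fun i _ => ((h2 i).differentiable (by norm_num)) x)]
  have h3 (i : ι) : G9a_db e e' (fun y => χ i y * u i y) x =
      f x * χ i x + G9a_db e e' (χ i) x * u i x := by
    rw [G9a_mulD isOpen_ball (h0 i) (h1 i) (hu i) x, mul_comm (u i x)]
    congr 1
    by_cases hx2 : x ∈ ball (a i) (4 * r)
    · rw [hf i x hx2]; ring
    · rw [image_eq_zero_of_notMem_tsupport (fun h => hx2 (h1 i h))]; ring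
  simp only [h3, Finset.sum_add_distrib, ← Finset.mul_sum]
  rw [P.one x hx]
  ring

theorem G9a_W_bd (P : G9a_PU ι D r B a χ) {u : ι → ℂ × ℂ → ℂ} {C : ℝ} (hC : 0 ≤ C)
    (hb : ∀ i, ∀ x ∈ ball (a i) (4 * r), ‖u i x‖ ≤ C) (x : ℂ × ℂ) :
    ‖G9a_W χ u x‖ ≤ Fintype.card ι * C := by
  unfold G9a_W
  refine (norm_sum_le _ _).trans ?_
  have h1 (i : ι) : ‖χ i x * u i x‖ ≤ C := by
    by_cases hx2 : x ∈ ball (a i) (4 * r)
    · rw [norm_mul]
      calc ‖χ i x‖ * ‖u i x‖ ≤ 1 * C := mul_le_mul (P.le1 i x) (hb i x hx2) (norm_nonneg _) zero_le_one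
        _ = C := one_mul C
    · rw [image_eq_zero_of_notMem_tsupport (fun h => hx2 (((P.ts i).trans (G9a_sub P i)) h)), zero_mul,
        norm_zero]
      exact hC
  refine (Finset.sum_le_card_nsmul _ _ C fun i _ => h1 i).trans ?_
  simp

theorem G9a_K_bd (P : G9a_PU ι D r B a χ) {e e' : ℂ × ℂ} (he : ‖e‖ ≤ 1) (he' : ‖e'‖ ≤ 1)
    {u : ι → ℂ × ℂ → ℂ} {C : ℝ} (hC : 0 ≤ C)
    (hb : ∀ i, ∀ x ∈ ball (a i) (4 * r), ‖u i x‖ ≤ C) (x : ℂ × ℂ) :
    ‖G9a_K e e' χ u x‖ ≤ Fintype.card ι * (B * C) := by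
  unfold G9a_K
  rw [norm_neg]
  refine (norm_sum_le _ _).trans ?_
  have h1 (i : ι) : ‖G9a_db e e' (χ i) x * u i x‖ ≤ B * C := by
    by_cases hx2 : x ∈ ball (a i) (4 * r)
    · rw [norm_mul]
      exact mul_le_mul (G9a_db_norm he he' (P.bd i x)) (hb i x hx2) (norm_nonneg _) P.B0
    · rw [G9a_db_zero_of (fun h => hx2 (((P.ts i).trans (G9a_sub P i)) h)), zero_mul, norm_zero]
      exact mul_nonneg P.B0 hC
  refine (Finset.sum_le_card_nsmul _ _ (B * C) fun i _ => h1 i).trans ?_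
  simp

theorem G9a_K_diff (P : G9a_PU ι D r B a χ) (hD : IsOpen D) {e e' : ℂ × ℂ} (he : ‖e‖ ≤ 1)
    (he' : ‖e'‖ ≤ 1) {u u' : ι → ℂ × ℂ → ℂ} {η : ℝ} (hη : 0 ≤ η)
    (hb : ∀ i j, ∀ x ∈ ball (a i) (2 * r) ∩ ball (a j) (2 * r),
      ‖(u i x - u j x) - (u' i x - u' j x)‖ ≤ η) {x : ℂ × ℂ} (hx : x ∈ D) :
    ‖G9a_K e e' χ u x - G9a_K e e' χ u' x‖ ≤ Fintype.card ι * (B * η) := by
  obtain ⟨j, hj⟩ := P.cov x hx
  have h1 : G9a_K e e' χ u x - G9a_K e e' χ u' x =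
      - ∑ i, G9a_db e e' (χ i) x * ((u i x - u j x) - (u' i x - u' j x)) := by
    unfold G9a_K
    have h2 : ∑ i, G9a_db e e' (χ i) x * ((u i x - u j x) - (u' i x - u' j x)) =
        ∑ i, G9a_db e e' (χ i) x * u i x - ∑ i, G9a_db e e' (χ i) x * u' i x -
          (∑ i, G9a_db e e' (χ i) x) * (u j x - u' j x) := by
      rw [Finset.sum_mul, ← Finset.sum_sub_distrib, ← Finset.sum_sub_distrib]
      refine Finset.sum_congr rfl fun i _ => ?_
      ring
    rw [h2, G9a_sum_db P hD e e' hx]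
    ring
  rw [h1, norm_neg]
  refine (norm_sum_le _ _).trans ?_
  have h3 (i : ι) : ‖G9a_db e e' (χ i) x * ((u i x - u j x) - (u' i x - u' j x))‖ ≤ B * η := by
    by_cases hx2 : x ∈ ball (a i) (2 * r)
    · rw [norm_mul]
      exact mul_le_mul (G9a_db_norm he he' (P.bd i x)) (hb i j x ⟨hx2, hj⟩) (norm_nonneg _) P.B0
    · rw [G9a_db_zero_of (fun h => hx2 ((P.ts i) h)), zero_mul, norm_zero]
      exact mul_nonneg P.B0 hη
  refine (Finset.sum_le_card_nsmul _ _ (B * η) fun i _ => h3 i).trans ?_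
  simp

end PU

theorem G9a_lip {V : Set (ℂ × ℂ)} {g : ℂ × ℂ → ℂ} (hg : DifferentiableOn ℂ g V) {G : ℝ}
    (hG : ∀ x ∈ V, ‖g x‖ ≤ G) {x y : ℂ × ℂ} {ρ : ℝ} (hV : ball x ρ ⊆ V) (hy : y ∈ ball x ρ) :
    ‖g y - g x‖ ≤ 2 * G / ρ * dist y x := by
  have h0 : 0 < ρ := (dist_nonneg.trans_lt hy)
  have hx : x ∈ V := hV (mem_ball_self h0)
  have h1 : MapsTo g (ball x ρ) (closedBall (g x) (2 * G)) := by
    intro z hz
    rw [mem_closedBall, dist_eq_norm]
    refine (norm_sub_le _ _).trans ?_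
    have := hG z (hV hz)
    have := hG x hx
    linarith
  have := Complex.dist_le_div_mul_dist_of_mapsTo_ball (hg.mono hV) h1 hy
  rwa [dist_eq_norm] at this

theorem G9a_n1 : ‖((1 : ℂ), (0 : ℂ))‖ ≤ 1 := by simp [Prod.norm_def]

theorem G9a_n2 : ‖((Complex.I : ℂ), (0 : ℂ))‖ ≤ 1 := by simp [Prod.norm_def]

theorem G9a_n3 : ‖((0 : ℂ), (1 : ℂ))‖ ≤ 1 := by simp [Prod.norm_def]

theorem G9a_n4 : ‖((0 : ℂ), (Complex.I : ℂ))‖ ≤ 1 := by simp [Prod.norm_def]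

theorem G9a_main {D D' : Set (ℂ × ℂ)} (hD : IsOpen D) {ι : Type} [Fintype ι] {r B C₁ : ℝ}
    {a : ι → ℂ × ℂ} {χ : ι → ℂ × ℂ → ℂ} (P : G9a_PU ι D r B a χ) (hC₁ : 0 ≤ C₁)
    (hsol : ∀ f h : ℂ × ℂ → ℂ, Fm D' 1 f h → ∀ i, ∃ u, So (ball (a i) (4 * r)) C₁ f h u)
    {ε : ℝ} (hε : 0 < ε) :
    ∃ (m : ℕ) (F H : Fin m → ℂ × ℂ → ℂ) (C M₁ : ℝ), 0 ≤ C ∧ (∀ l, Fm D M₁ (F l) (H l)) ∧
      ∀ f h : ℂ × ℂ → ℂ, Fm D' 1 f h → ∃ (l : Fin m) (f'' h'' u : ℂ × ℂ → ℂ), Fm D ε f'' h'' ∧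
        So D C (fun x => f x - F l x - f'' x) (fun x => h x - H l x - h'' x) u := by
  have hr := P.r0
  have hB := P.B0
  -- the forms and the local solutions
  let 𝓕 : Type := {p : (ℂ × ℂ → ℂ) × (ℂ × ℂ → ℂ) // Fm D' 1 p.1 p.2}
  have hsol' : ∀ (s : 𝓕) (i : ι), ∃ u, So (ball (a i) (4 * r)) C₁ s.1.1 s.1.2 u :=
    fun s i => hsol _ _ s.2 i
  choose u hu using hsol'
  -- constants
  set n : ℝ := ((Fintype.card ι : ℕ) : ℝ) with hn
  have hn0 : 0 ≤ n := Nat.cast_nonneg _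
  set A : ℝ := n * B + 1 with hA
  have hA0 : 0 < A := by positivity
  set L : ℝ := 4 * C₁ / r + 1 with hL
  have hL0 : 0 < L := by positivity
  set δ₁ : ℝ := ε / (2 * A) with hδ₁
  have hδ₁0 : 0 < δ₁ := by positivity
  set δ₀ : ℝ := min (2 * r) (ε / (2 * A * L)) with hδ₀
  have hδ₀0 : 0 < δ₀ := lt_min (by positivity) (by positivity)
  -- nets
  have hnet : ∀ p : ι × ι, ∃ X : Set (ℂ × ℂ), X ⊆ ball (a p.1) (2 * r) ∩ ball (a p.2) (2 * r) ∧
      X.Finite ∧ ball (a p.1) (2 * r) ∩ ball (a p.2) (2 * r) ⊆ ⋃ y ∈ X, ball y δ₀ := by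
    intro p
    have h1 : TotallyBounded (ball (a p.1) (2 * r) ∩ ball (a p.2) (2 * r)) :=
      (isCompact_closedBall (a p.1) (2 * r)).totallyBounded.subset
        (inter_subset_left.trans ball_subset_closedBall)
    exact finite_approx_of_totallyBounded h1 δ₀ hδ₀0
  choose X hX1 hX2 hX3 using hnet
  have hXf : ∀ p, Finite (X p) := fun p => (hX2 p).to_subtype
  let J : Type := Σ p : ι × ι, X p
  have hJ : Finite J := inferInstance
  have hJ' : Fintype J := Fintype.ofFinite J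
  let Φ : 𝓕 → (J → ℂ) := fun s q => u s q.1.1 q.2.1 - u s q.1.2 q.2.1
  have hub : ∀ (s : 𝓕) (i : ι) (x : ℂ × ℂ), x ∈ ball (a i) (4 * r) → ‖u s i x‖ ≤ C₁ :=
    fun s i x hx => (hu s i).ub x hx
  have hsub : ∀ i : ι, ball (a i) (2 * r) ⊆ ball (a i) (4 * r) := fun i => G9a_sub P i
  have hS : TotallyBounded (range Φ) := by
    refine (isCompact_closedBall (0 : J → ℂ) (2 * C₁)).totallyBounded.subset ?_
    rintro _ ⟨s, rfl⟩
    rw [mem_closedBall, dist_zero_right, pi_norm_le_iff_of_nonneg (by positivity)]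
    rintro ⟨⟨i, j⟩, ⟨y, hy⟩⟩
    have h1 := hX1 (i, j) hy
    have h2 := hub s i y (hsub i h1.1)
    have h3 := hub s j y (hsub j h1.2)
    exact (norm_sub_le _ _).trans (by linarith)
  obtain ⟨t, htS, htf, hcov⟩ := finite_approx_of_totallyBounded hS δ₁ hδ₁0
  have hft : Fintype t := htf.fintype
  let eqv := Fintype.equivFin t
  have hpre : ∀ l : Fin (Fintype.card t), ∃ s : 𝓕, Φ s = (eqv.symm l : J → ℂ) := fun l =>
    htS (eqv.symm l).2
  choose sl hsl using hpre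
  -- closedness
  have hCl : ∀ s : 𝓕, ∀ x ∈ D, db1 (G9a_K (0, 1) (0, Complex.I) χ (u s)) x =
      db2 (G9a_K (1, 0) (Complex.I, 0) χ (u s)) x := by
    intro s x hx
    rw [G9a_db1, G9a_db2, G9a_K_db P hD _ _ _ _ (fun i => (hu s i).u1) (fun i => (hu s i).e1) hx,
      G9a_K_db P hD _ _ _ _ (fun i => (hu s i).u1) (fun i => (hu s i).e2) hx]
    congr 1
    refine Finset.sum_congr rfl fun i _ => ?_
    rw [G9a_db_comm _ _ ((P.sm i).of_le (by norm_num))]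
  have hK1 : ∀ s : 𝓕, ContDiff ℝ 1 (G9a_K (1, 0) (Complex.I, 0) χ (u s)) := fun s =>
    G9a_K_smooth P _ _ (fun i => (hu s i).u1)
  have hK2 : ∀ s : 𝓕, ContDiff ℝ 1 (G9a_K (0, 1) (0, Complex.I) χ (u s)) := fun s =>
    G9a_K_smooth P _ _ (fun i => (hu s i).u1)
  refine ⟨Fintype.card t, fun l => G9a_K (1, 0) (Complex.I, 0) χ (u (sl l)),
    fun l => G9a_K (0, 1) (0, Complex.I) χ (u (sl l)), n * C₁, n * (B * C₁), by positivity, ?_, ?_⟩
  · intro l
    exact ⟨(hK1 _).contDiffOn, (hK2 _).contDiffOn, hCl _,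
      fun x _ => G9a_K_bd P G9a_n1 G9a_n2 hC₁ (hub (sl l)) x,
      fun x _ => G9a_K_bd P G9a_n3 G9a_n4 hC₁ (hub (sl l)) x⟩
  · intro f h hfh
    let s : 𝓕 := ⟨(f, h), hfh⟩
    obtain ⟨y, hyt, hy⟩ := mem_iUnion₂.mp (hcov ⟨s, rfl⟩)
    let l : Fin (Fintype.card t) := eqv ⟨y, hyt⟩
    have hly : Φ (sl l) = y := by
      rw [hsl l]
      simp [l]
    have hdist : dist (Φ s) (Φ (sl l)) < δ₁ := by rw [hly]; exact hy
    -- the main estimate
    have hest : ∀ i j, ∀ x ∈ ball (a i) (2 * r) ∩ ball (a j) (2 * r),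
        ‖(u s i x - u s j x) - (u (sl l) i x - u (sl l) j x)‖ ≤ (4 * C₁ / r) * δ₀ + δ₁ := by
      intro i j x hx
      obtain ⟨y, hyX, hxy⟩ := mem_iUnion₂.mp (hX3 (i, j) hx)
      have hyE := hX1 (i, j) hyX
      have hlip : ∀ s' : 𝓕, ‖(u s' i x - u s' j x) - (u s' i y - u s' j y)‖ ≤ (2 * C₁ / r) * δ₀ := by
        intro s'
        have hV : IsOpen (ball (a i) (4 * r) ∩ ball (a j) (4 * r)) := isOpen_ball.inter isOpen_ball
        have hd1 : ContDiffOn ℝ 1 (u s' i) (ball (a i) (4 * r) ∩ ball (a j) (4 * r)) :=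
          (hu s' i).u1.mono inter_subset_left
        have hd2 : ContDiffOn ℝ 1 (u s' j) (ball (a i) (4 * r) ∩ ball (a j) (4 * r)) :=
          (hu s' j).u1.mono inter_subset_right
        have hda : ∀ z ∈ ball (a i) (4 * r) ∩ ball (a j) (4 * r), DifferentiableAt ℝ (u s' i) z :=
          fun z hz => (hd1.contDiffAt (hV.mem_nhds hz)).differentiableAt (by norm_num)
        have hdb : ∀ z ∈ ball (a i) (4 * r) ∩ ball (a j) (4 * r), DifferentiableAt ℝ (u s' j) z :=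
          fun z hz => (hd2.contDiffAt (hV.mem_nhds hz)).differentiableAt (by norm_num)
        have hg : DifferentiableOn ℂ (fun z => u s' i z - u s' j z)
            (ball (a i) (4 * r) ∩ ball (a j) (4 * r)) := by
          refine hol_so hV (hd1.sub hd2) ?_ ?_
          · intro z hz
            rw [G9a_db1, G9a_db_sub (hda z hz) (hdb z hz), ← G9a_db1, ← G9a_db1,
              (hu s' i).e1 z hz.1, (hu s' j).e1 z hz.2, sub_self]
          · intro z hz
            rw [G9a_db2, G9a_db_sub (hda z hz) (hdb z hz), ← G9a_db2, ← G9a_db2,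
              (hu s' i).e2 z hz.1, (hu s' j).e2 z hz.2, sub_self]
        have hG : ∀ z ∈ ball (a i) (4 * r) ∩ ball (a j) (4 * r),
            ‖u s' i z - u s' j z‖ ≤ 2 * C₁ := by
          intro z hz
          have h1 := hub s' i z hz.1
          have h2 := hub s' j z hz.2
          exact (norm_sub_le _ _).trans (by linarith)
        have hball : ball y (2 * r) ⊆ ball (a i) (4 * r) ∩ ball (a j) (4 * r) := by
          intro z hz
          have hz' : dist z y < 2 * r := hz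
          have h1 : dist y (a i) < 2 * r := hyE.1
          have h2 : dist y (a j) < 2 * r := hyE.2
          refine ⟨?_, ?_⟩
          · rw [mem_ball]
            have := dist_triangle z y (a i)
            linarith
          · rw [mem_ball]
            have := dist_triangle z y (a j)
            linarith
        have hxy' : dist x y < δ₀ := hxy
        have hxb : x ∈ ball y (2 * r) := by
          rw [mem_ball]
          exact hxy'.trans_le (min_le_left _ _)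
        have h3 := G9a_lip hg hG hball hxb
        refine h3.trans ?_
        have h4 : 2 * (2 * C₁) / (2 * r) = 2 * C₁ / r := by
          field_simp
        rw [h4]
        exact mul_le_mul_of_nonneg_left hxy'.le (by positivity)
      have h5 : ‖(u s i y - u s j y) - (u (sl l) i y - u (sl l) j y)‖ ≤ δ₁ := by
        have h6 := (dist_le_pi_dist (Φ s) (Φ (sl l)) ⟨(i, j), ⟨y, hyX⟩⟩).trans hdist.le
        rw [dist_eq_norm] at h6
        exact h6
      have h7 := hlip s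
      have h8 := hlip (sl l)
      have h9 : (u s i x - u s j x) - (u (sl l) i x - u (sl l) j x) =
          ((u s i x - u s j x) - (u s i y - u s j y)) +
          ((u s i y - u s j y) - (u (sl l) i y - u (sl l) j y)) -
          ((u (sl l) i x - u (sl l) j x) - (u (sl l) i y - u (sl l) j y)) := by ring
      rw [h9]
      refine (norm_sub_le _ _).trans ?_
      have h10 := norm_add_le ((u s i x - u s j x) - (u s i y - u s j y))
          ((u s i y - u s j y) - (u (sl l) i y - u (sl l) j y))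
      have h11 : 4 * C₁ / r * δ₀ = 2 * C₁ / r * δ₀ + 2 * C₁ / r * δ₀ := by ring
      rw [h11]
      linarith
    have hη0 : 0 ≤ (4 * C₁ / r) * δ₀ + δ₁ := by positivity
    have hfin : n * (B * ((4 * C₁ / r) * δ₀ + δ₁)) ≤ ε := by
      have e1 : (4 * C₁ / r) * δ₀ ≤ L * (ε / (2 * A * L)) := by
        refine mul_le_mul (by rw [hL]; linarith) (min_le_right _ _) hδ₀0.le hL0.le
      have e2 : L * (ε / (2 * A * L)) = ε / (2 * A) := by
        field_simp
      have e3 : (4 * C₁ / r) * δ₀ + δ₁ ≤ ε / A := by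
        rw [e2] at e1
        have : ε / A = ε / (2 * A) + ε / (2 * A) := by field_simp; ring
        rw [this]
        linarith
      calc n * (B * ((4 * C₁ / r) * δ₀ + δ₁)) = (n * B) * ((4 * C₁ / r) * δ₀ + δ₁) := by ring
        _ ≤ A * (ε / A) := mul_le_mul (by rw [hA]; linarith) e3 hη0 hA0.le
        _ = ε := by field_simp
    refine ⟨l, fun x => G9a_K (1, 0) (Complex.I, 0) χ (u s) x -
        G9a_K (1, 0) (Complex.I, 0) χ (u (sl l)) x,
      fun x => G9a_K (0, 1) (0, Complex.I) χ (u s) x - G9a_K (0, 1) (0, Complex.I) χ (u (sl l)) x,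
      G9a_W χ (u s), ?_, ?_⟩
    · refine ⟨((hK1 _).sub (hK1 _)).contDiffOn, ((hK2 _).sub (hK2 _)).contDiffOn, ?_, ?_, ?_⟩
      · intro x hx
        rw [G9a_db1, G9a_db2, G9a_db_sub ((hK2 _).differentiable (by norm_num) x)
          ((hK2 _).differentiable (by norm_num) x), G9a_db_sub ((hK1 _).differentiable (by norm_num) x)
          ((hK1 _).differentiable (by norm_num) x)]
        have h1 := hCl s x hx
        have h2 := hCl (sl l) x hx
        rw [G9a_db1, G9a_db2] at h1 h2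
        rw [h1, h2]
      · intro x hx
        exact (G9a_K_diff P hD G9a_n1 G9a_n2 hη0 hest hx).trans hfin
      · intro x hx
        exact (G9a_K_diff P hD G9a_n3 G9a_n4 hη0 hest hx).trans hfin
    · refine ⟨(G9a_W_smooth P (fun i => (hu s i).u1)).contDiffOn, ?_, ?_, ?_⟩
      · intro x hx
        rw [G9a_db1, G9a_W_db P _ _ (fun i => (hu s i).u1) (fun i => (hu s i).e1) hx]
        change f x - _ = f x - _ - _
        ring
      · intro x hx
        rw [G9a_db2, G9a_W_db P _ _ (fun i => (hu s i).u1) (fun i => (hu s i).e2) hx]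
        change h x - _ = h x - _ - _
        ring
      · intro x _
        exact G9a_W_bd P hC₁ (hub s) x

/-- **TARGET** -/
theorem compact_step {D D' : Set (ℂ × ℂ)} (hD : IsOpen D) (hD' : IsOpen D')
    (hb : Bornology.IsBounded D) (hcl : closure D ⊆ D') {ε : ℝ} (hε : 0 < ε) :
    ∃ (m : ℕ) (F H : Fin m → ℂ × ℂ → ℂ) (C M₁ : ℝ), 0 ≤ C ∧ (∀ l, Fm D M₁ (F l) (H l)) ∧
      ∀ f h : ℂ × ℂ → ℂ, Fm D' 1 f h → ∃ (l : Fin m) (f'' h'' u : ℂ × ℂ → ℂ), Fm D ε f'' h'' ∧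
        So D C (fun x => f x - F l x - f'' x) (fun x => h x - H l x - h'' x) u := by
  have hK : IsCompact (closure D) := Metric.isCompact_of_isClosed_isBounded isClosed_closure hb.closure
  obtain ⟨δ, hδ, hth⟩ := hK.exists_thickening_subset_open hD' hcl
  have hr : 0 < δ / 8 := by positivity
  obtain ⟨ι, _, a, χ, B, hB, haK, hsm, hts, hle, hbd, hone, hcov⟩ := G9a_part hK hr
  have P : G9a_PU ι D (δ / 8) B a χ :=
    ⟨hr, hB, hsm, hts, hle, hbd, fun x hx => hone x (subset_closure hx),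
      fun x hx => hcov x (subset_closure hx)⟩
  obtain ⟨C₁, hC₁, hslv⟩ := dolb hδ
  refine G9a_main hD P hC₁ ?_ hε
  intro f h hfh i
  have hsub : ball (a i) δ ⊆ D' := by
    refine Subset.trans ?_ hth
    exact ball_subset_thickening (haK i) δ
  have hF : Fm (ball (a i) δ) 1 f h :=
    ⟨hfh.f1.mono hsub, hfh.h1.mono hsub, fun x hx => hfh.cl x (hsub hx),
      fun x hx => hfh.fb x (hsub hx), fun x hx => hfh.hb x (hsub hx)⟩
  obtain ⟨u, hu⟩ := hslv (a i) f h 1 hF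
  have h4 : 4 * (δ / 8) = δ / 2 := by ring
  rw [h4]
  rw [mul_one] at hu
  exact ⟨u, hu⟩

end Pool.Agent.P157G
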