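import Mathlib
import Pool.Agent.P157G.CT

set_option autoImplicit false

open MeasureTheory Metric Set Filter Topology Complex

namespace Pool.Agent.P157G

open Pool.Agent.P157D (d1 d2 CR Bo)

/-- the antilinear part of the derivative -/
noncomputable def V2_Db (u : ℂ × ℂ → ℂ) (x v : ℂ × ℂ) : ℂ :=
  (fderiv ℝ u x v + Complex.I * fderiv ℝ u x (Complex.I • v)) / 2

theorem V2_db1 (u : ℂ × ℂ → ℂ) (x : ℂ × ℂ) : db1 u x = V2_Db u x (1, 0) := by
  simp [db1, V2_Db]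

theorem V2_db2 (u : ℂ × ℂ → ℂ) (x : ℂ × ℂ) : db2 u x = V2_Db u x (0, 1) := by
  simp [db2, V2_Db]

theorem V2_mul {u w : ℂ × ℂ → ℂ} {x : ℂ × ℂ} (hu : DifferentiableAt ℝ u x)
    (hw : DifferentiableAt ℝ w x) (v : ℂ × ℂ) :
    V2_Db (fun y => u y * w y) x v = V2_Db u x v * w x + u x * V2_Db w x v := by
  have hc := (hu.hasFDerivAt.mul hw.hasFDerivAt).fderiv
  have hc' : fderiv ℝ (fun y => u y * w y) x = u x • fderiv ℝ w x + w x • fderiv ℝ u x := hc
  unfold V2_Db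
  rw [hc']
  simp only [add_apply, smul_apply, smul_eq_mul]
  ring

theorem V2_add {u w : ℂ × ℂ → ℂ} {x : ℂ × ℂ} (hu : DifferentiableAt ℝ u x)
    (hw : DifferentiableAt ℝ w x) (v : ℂ × ℂ) :
    V2_Db (fun y => u y + w y) x v = V2_Db u x v + V2_Db w x v := by
  have hc' : fderiv ℝ (fun y => u y + w y) x = fderiv ℝ u x + fderiv ℝ w x :=
    (hu.hasFDerivAt.add hw.hasFDerivAt).fderiv
  unfold V2_Db
  rw [hc']
  simp only [add_apply]
  ring

theorem V2_sub {u w : ℂ × ℂ → ℂ} {x : ℂ × ℂ} (hu : DifferentiableAt ℝ u x)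
    (hw : DifferentiableAt ℝ w x) (v : ℂ × ℂ) :
    V2_Db (fun y => u y - w y) x v = V2_Db u x v - V2_Db w x v := by
  have hc' : fderiv ℝ (fun y => u y - w y) x = fderiv ℝ u x - fderiv ℝ w x :=
    (hu.hasFDerivAt.sub hw.hasFDerivAt).fderiv
  unfold V2_Db
  rw [hc']
  simp only [sub_apply]
  ring

theorem V2_neg (u : ℂ × ℂ → ℂ) (x v : ℂ × ℂ) :
    V2_Db (fun y => - u y) x v = - V2_Db u x v := by
  have hc' : fderiv ℝ (fun y => - u y) x = - fderiv ℝ u x := fderiv_fun_neg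
  unfold V2_Db
  rw [hc']
  simp only [neg_apply]
  ring

theorem V2_congr {u w : ℂ × ℂ → ℂ} {x : ℂ × ℂ} (h : u =ᶠ[𝓝 x] w) (v : ℂ × ℂ) :
    V2_Db u x v = V2_Db w x v := by
  unfold V2_Db
  rw [h.fderiv_eq]

theorem V2_zero (x v : ℂ × ℂ) : V2_Db (fun _ => (0 : ℂ)) x v = 0 := by
  unfold V2_Db
  simp

theorem V2_inv {u : ℂ × ℂ → ℂ} {x : ℂ × ℂ} (hu : DifferentiableAt ℝ u x) (h0 : u x ≠ 0)
    (v : ℂ × ℂ) : V2_Db (fun y => (u y)⁻¹) x v = - V2_Db u x v / (u x) ^ 2 := by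
  have hinv : DifferentiableAt ℝ (fun y => (u y)⁻¹) x := hu.inv h0
  have h1 := V2_mul hu hinv v
  have h2 : (fun y => u y * (u y)⁻¹) =ᶠ[𝓝 x] fun _ => (1 : ℂ) := by
    filter_upwards [hu.continuousAt.eventually_ne h0] with y hy
    exact mul_inv_cancel₀ hy
  rw [V2_congr h2] at h1
  have h3 : V2_Db (fun _ => (1 : ℂ)) x v = 0 := by
    unfold V2_Db
    simp
  rw [h3] at h1
  field_simp
  field_simp at h1
  linear_combination -h1

/-- the coordinates centred at `q` -/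
noncomputable def V2_a (q x : ℂ × ℂ) : ℂ := x.1 - q.1

/-- the coordinates centred at `q` -/
noncomputable def V2_b (q x : ℂ × ℂ) : ℂ := x.2 - q.2

/-- their conjugates -/
noncomputable def V2_ca (q x : ℂ × ℂ) : ℂ := starRingEnd ℂ (x.1 - q.1)

/-- their conjugates -/
noncomputable def V2_cb (q x : ℂ × ℂ) : ℂ := starRingEnd ℂ (x.2 - q.2)

/-- the square of the distance -/
noncomputable def V2_N (q x : ℂ × ℂ) : ℂ := V2_a q x * V2_ca q x + V2_b q x * V2_cb q x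

theorem V2_a_c (q : ℂ × ℂ) : ContDiff ℝ 1 (V2_a q) := contDiff_fst.sub contDiff_const

theorem V2_b_c (q : ℂ × ℂ) : ContDiff ℝ 1 (V2_b q) := contDiff_snd.sub contDiff_const

theorem V2_ca_c (q : ℂ × ℂ) : ContDiff ℝ 1 (V2_ca q) :=
  (Complex.conjCLE : ℂ →L[ℝ] ℂ).contDiff.comp (V2_a_c q)

theorem V2_cb_c (q : ℂ × ℂ) : ContDiff ℝ 1 (V2_cb q) :=
  (Complex.conjCLE : ℂ →L[ℝ] ℂ).contDiff.comp (V2_b_c q)

theorem V2_N_c (q : ℂ × ℂ) : ContDiff ℝ 1 (V2_N q) :=
  ((V2_a_c q).mul (V2_ca_c q)).add ((V2_b_c q).mul (V2_cb_c q))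

theorem V2_N_ne {q x : ℂ × ℂ} (h : x ≠ q) : V2_N q x ≠ 0 := by
  intro h0
  have h1 : V2_N q x = ((Complex.normSq (x.1 - q.1) + Complex.normSq (x.2 - q.2) : ℝ) : ℂ) := by
    unfold V2_N V2_a V2_ca V2_b V2_cb
    rw [Complex.mul_conj, Complex.mul_conj]
    push_cast
    ring
  rw [h1] at h0
  have h2 : Complex.normSq (x.1 - q.1) + Complex.normSq (x.2 - q.2) = 0 := by exact_mod_cast h0
  have h3 := Complex.normSq_nonneg (x.1 - q.1)
  have h4 := Complex.normSq_nonneg (x.2 - q.2)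
  have h5 : x.1 - q.1 = 0 := Complex.normSq_eq_zero.1 (by linarith)
  have h6 : x.2 - q.2 = 0 := Complex.normSq_eq_zero.1 (by linarith)
  exact h (Prod.ext (sub_eq_zero.1 h5) (sub_eq_zero.1 h6))

theorem V2_Da (q x v : ℂ × ℂ) : V2_Db (V2_a q) x v = 0 := by
  have h : HasFDerivAt (V2_a q) (ContinuousLinearMap.fst ℝ ℂ ℂ) x :=
    (hasFDerivAt_fst).sub_const _
  unfold V2_Db
  rw [h.fderiv]
  simp only [ContinuousLinearMap.coe_fst', Prod.smul_fst, smul_eq_mul]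
  linear_combination (v.1 / 2) * Complex.I_sq

theorem V2_Dbb (q x v : ℂ × ℂ) : V2_Db (V2_b q) x v = 0 := by
  have h : HasFDerivAt (V2_b q) (ContinuousLinearMap.snd ℝ ℂ ℂ) x :=
    (hasFDerivAt_snd).sub_const _
  unfold V2_Db
  rw [h.fderiv]
  simp only [ContinuousLinearMap.coe_snd', Prod.smul_snd, smul_eq_mul]
  linear_combination (v.2 / 2) * Complex.I_sq

theorem V2_Dca (q x v : ℂ × ℂ) : V2_Db (V2_ca q) x v = starRingEnd ℂ v.1 := by
  have h : HasFDerivAt (V2_a q) (ContinuousLinearMap.fst ℝ ℂ ℂ) x :=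
    (hasFDerivAt_fst).sub_const _
  have h' : HasFDerivAt (V2_ca q)
      ((Complex.conjCLE : ℂ →L[ℝ] ℂ).comp (ContinuousLinearMap.fst ℝ ℂ ℂ)) x :=
    ((Complex.conjCLE : ℂ →L[ℝ] ℂ).hasFDerivAt).comp x h
  unfold V2_Db
  rw [h'.fderiv]
  have : ∀ z : ℂ, ((Complex.conjCLE : ℂ →L[ℝ] ℂ) z) = starRingEnd ℂ z := fun z => rfl
  simp only [ContinuousLinearMap.comp_apply, ContinuousLinearMap.coe_fst', Prod.smul_fst,
    smul_eq_mul, this, map_mul, Complex.conj_I]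
  linear_combination (-(starRingEnd ℂ v.1) / 2) * Complex.I_sq

theorem V2_Dcb (q x v : ℂ × ℂ) : V2_Db (V2_cb q) x v = starRingEnd ℂ v.2 := by
  have h : HasFDerivAt (V2_b q) (ContinuousLinearMap.snd ℝ ℂ ℂ) x :=
    (hasFDerivAt_snd).sub_const _
  have h' : HasFDerivAt (V2_cb q)
      ((Complex.conjCLE : ℂ →L[ℝ] ℂ).comp (ContinuousLinearMap.snd ℝ ℂ ℂ)) x :=
    ((Complex.conjCLE : ℂ →L[ℝ] ℂ).hasFDerivAt).comp x h
  unfold V2_Db
  rw [h'.fderiv]
  have : ∀ z : ℂ, ((Complex.conjCLE : ℂ →L[ℝ] ℂ) z) = starRingEnd ℂ z := fun z => rfl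
  simp only [ContinuousLinearMap.comp_apply, ContinuousLinearMap.coe_snd', Prod.smul_snd,
    smul_eq_mul, this, map_mul, Complex.conj_I]
  linear_combination (-(starRingEnd ℂ v.2) / 2) * Complex.I_sq

theorem V2_DN (q x v : ℂ × ℂ) :
    V2_Db (V2_N q) x v = V2_a q x * starRingEnd ℂ v.1 + V2_b q x * starRingEnd ℂ v.2 := by
  have da := (V2_a_c q).differentiable (by simp) x
  have db := (V2_b_c q).differentiable (by simp) x
  have dca := (V2_ca_c q).differentiable (by simp) x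
  have dcb := (V2_cb_c q).differentiable (by simp) x
  have e : V2_N q = fun y => V2_a q y * V2_ca q y + V2_b q y * V2_cb q y := rfl
  rw [e, V2_add (da.fun_mul dca) (db.fun_mul dcb), V2_mul da dca, V2_mul db dcb, V2_Da, V2_Dbb,
    V2_Dca, V2_Dcb]
  ring

/-- the first multiplier -/
noncomputable def V2_l1 (q x : ℂ × ℂ) : ℂ := V2_ca q x * (V2_N q x)⁻¹

/-- the second multiplier -/
noncomputable def V2_l2 (q x : ℂ × ℂ) : ℂ := V2_cb q x * (V2_N q x)⁻¹

/-- the first coefficient of the form -/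
noncomputable def V2_k1 (q x : ℂ × ℂ) : ℂ := -(V2_cb q x * ((V2_N q x)⁻¹ * (V2_N q x)⁻¹))

/-- the second coefficient of the form -/
noncomputable def V2_k2 (q x : ℂ × ℂ) : ℂ := V2_ca q x * ((V2_N q x)⁻¹ * (V2_N q x)⁻¹)

theorem V2_Ni_c {q x : ℂ × ℂ} (h : x ≠ q) : ContDiffAt ℝ 1 (fun y => (V2_N q y)⁻¹) x :=
  (V2_N_c q).contDiffAt.inv (V2_N_ne h)

theorem V2_l1_c {q x : ℂ × ℂ} (h : x ≠ q) : ContDiffAt ℝ 1 (V2_l1 q) x :=
  (V2_ca_c q).contDiffAt.mul (V2_Ni_c h)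

theorem V2_l2_c {q x : ℂ × ℂ} (h : x ≠ q) : ContDiffAt ℝ 1 (V2_l2 q) x :=
  (V2_cb_c q).contDiffAt.mul (V2_Ni_c h)

theorem V2_k1_c {q x : ℂ × ℂ} (h : x ≠ q) : ContDiffAt ℝ 1 (V2_k1 q) x :=
  ((V2_cb_c q).contDiffAt.mul ((V2_Ni_c h).mul (V2_Ni_c h))).neg

theorem V2_k2_c {q x : ℂ × ℂ} (h : x ≠ q) : ContDiffAt ℝ 1 (V2_k2 q) x :=
  (V2_ca_c q).contDiffAt.mul ((V2_Ni_c h).mul (V2_Ni_c h))

theorem V2_Dl1 {q x : ℂ × ℂ} (h : x ≠ q) :
    V2_Db (V2_l1 q) x (1, 0) = - V2_b q x * V2_k1 q x ∧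
      V2_Db (V2_l1 q) x (0, 1) = - V2_b q x * V2_k2 q x := by
  have hN := V2_N_ne h
  have dN := (V2_N_c q).differentiable (by simp) x
  have dca := (V2_ca_c q).differentiable (by simp) x
  have dNi : DifferentiableAt ℝ (fun y => (V2_N q y)⁻¹) x := dN.inv hN
  have e : V2_l1 q = fun y => V2_ca q y * (V2_N q y)⁻¹ := rfl
  constructor
  · rw [e, V2_mul dca dNi, V2_Dca, V2_inv dN hN, V2_DN]
    unfold V2_k1
    simp only [map_one, map_zero, mul_one, mul_zero, add_zero]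
    field_simp
    unfold V2_N
    ring
  · rw [e, V2_mul dca dNi, V2_Dca, V2_inv dN hN, V2_DN]
    unfold V2_k2
    simp only [map_one, map_zero, mul_one, mul_zero, zero_add, zero_mul]
    field_simp

theorem V2_Dl2 {q x : ℂ × ℂ} (h : x ≠ q) :
    V2_Db (V2_l2 q) x (1, 0) = V2_a q x * V2_k1 q x ∧
      V2_Db (V2_l2 q) x (0, 1) = V2_a q x * V2_k2 q x := by
  have hN := V2_N_ne h
  have dN := (V2_N_c q).differentiable (by simp) x
  have dcb := (V2_cb_c q).differentiable (by simp) x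
  have dNi : DifferentiableAt ℝ (fun y => (V2_N q y)⁻¹) x := dN.inv hN
  have e : V2_l2 q = fun y => V2_cb q y * (V2_N q y)⁻¹ := rfl
  constructor
  · rw [e, V2_mul dcb dNi, V2_Dcb, V2_inv dN hN, V2_DN]
    unfold V2_k1
    simp only [map_one, map_zero, mul_one, mul_zero, add_zero, zero_add, zero_mul]
    field_simp
  · rw [e, V2_mul dcb dNi, V2_Dcb, V2_inv dN hN, V2_DN]
    unfold V2_k2
    simp only [map_one, map_zero, mul_one, mul_zero, zero_add]
    field_simp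
    unfold V2_N
    ring

theorem V2_one {q x : ℂ × ℂ} (h : x ≠ q) :
    V2_a q x * V2_l1 q x + V2_b q x * V2_l2 q x = 1 := by
  have hN := V2_N_ne h
  unfold V2_l1 V2_l2
  field_simp
  rfl

/-- products with functions vanishing near `q` are of class `C¹` -/
theorem V2_glue {D' : Set (ℂ × ℂ)} (hD' : IsOpen D') {q : ℂ × ℂ} {t : ℝ} (ht : 0 < t)
    {w f : ℂ × ℂ → ℂ} (hw : ∀ x, x ≠ q → ContDiffAt ℝ 1 w x) (hf : ContDiffOn ℝ 1 f D')
    (hz : ∀ x ∈ D' ∩ ball q t, f x = 0) : ContDiffOn ℝ 1 (fun x => w x * f x) D' := by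
  intro x hx
  apply ContDiffAt.contDiffWithinAt
  by_cases hxq : x ∈ ball q t
  · have h : (fun x => w x * f x) =ᶠ[𝓝 x] fun _ => (0 : ℂ) := by
      filter_upwards [(hD'.inter isOpen_ball).mem_nhds ⟨hx, hxq⟩] with y hy
      rw [hz y hy, mul_zero]
    exact contDiffAt_const.congr_of_eventuallyEq h
  · have hne : x ≠ q := by
      rintro rfl
      exact hxq (mem_ball_self ht)
    exact (hw x hne).mul (hf.contDiffAt (hD'.mem_nhds hx))

/-- the product rule for such products -/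
theorem V2_prod {D' : Set (ℂ × ℂ)} (hD' : IsOpen D') {q : ℂ × ℂ} {t : ℝ} (ht : 0 < t)
    {w f : ℂ × ℂ → ℂ} (hw : ∀ x, x ≠ q → ContDiffAt ℝ 1 w x) (hf : ContDiffOn ℝ 1 f D')
    (hz : ∀ x ∈ D' ∩ ball q t, f x = 0) {x : ℂ × ℂ} (hx : x ∈ D') (v : ℂ × ℂ) (W : ℂ)
    (hW : x ≠ q → V2_Db w x v = W) :
    V2_Db (fun x => w x * f x) x v = W * f x + w x * V2_Db f x v := by
  by_cases hxq : x ∈ ball q t
  · have h1 : f =ᶠ[𝓝 x] fun _ => (0 : ℂ) := by
      filter_upwards [(hD'.inter isOpen_ball).mem_nhds ⟨hx, hxq⟩] with y hy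
      rw [hz y hy]
    have h : (fun x => w x * f x) =ᶠ[𝓝 x] fun _ => (0 : ℂ) := by
      filter_upwards [h1] with y hy
      rw [hy, mul_zero]
    rw [V2_congr h, V2_congr h1, V2_zero, hz x ⟨hx, hxq⟩]
    ring
  · have hne : x ≠ q := by
      rintro rfl
      exact hxq (mem_ball_self ht)
    rw [V2_mul ((hw x hne).differentiableAt (by simp))
      ((hf.contDiffAt (hD'.mem_nhds hx)).differentiableAt (by simp)), hW hne]

/-- a cut-off function -/
theorem V2_cut {K D' : Set (ℂ × ℂ)} (hK : IsCompact K) (hD' : IsOpen D') (hKD : K ⊆ D') :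
    ∃ τ : ℂ × ℂ → ℝ, ContDiff ℝ 1 τ ∧ IsCompact (tsupport τ) ∧ tsupport τ ⊆ D' ∧
      ∀ x ∈ K, τ x = 1 := by
  obtain ⟨L, hL, hKL, hLD⟩ := exists_compact_between hK hD' hKD
  obtain ⟨g, hg0, hg1, -⟩ := exists_contMDiffMap_zero_one_of_isClosed (n := 1)
    (modelWithCornersSelf ℝ (ℂ × ℂ)) (s := (interior L)ᶜ) (t := K)
    isOpen_interior.isClosed_compl hK.isClosed
    (by
      rw [Set.disjoint_left]
      intro x hx hx'
      exact hx (hKL hx'))
  have hsupp : tsupport (g : ℂ × ℂ → ℝ) ⊆ L := by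
    apply closure_minimal _ hL.isClosed
    intro x hx
    by_contra hxL
    apply hx
    exact hg0 (fun h => hxL (interior_subset h))
  refine ⟨g, ?_, hL.of_isClosed_subset (isClosed_tsupport _) hsupp, hsupp.trans hLD, ?_⟩
  · have := g.contMDiff
    exact this.contDiff
  · intro x hx
    exact hg1 hx

/-- **TARGET** -/
theorem divk {D D' : Set (ℂ × ℂ)} (hD : IsOpen D) (hD' : IsOpen D') (hb : Bornology.IsBounded D)
    (hcl : closure D ⊆ D') (q : ℂ × ℂ) {t M : ℝ} (ht : 0 < t) (hM : 0 ≤ M) {f h : ℂ × ℂ → ℂ}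
    (hf : Fm D' M f h) (hz : ∀ x ∈ D' ∩ ball q t, f x = 0 ∧ h x = 0) :
    ∃ (M' : ℝ) (f1 h1 f2 h2 : ℂ × ℂ → ℂ), 0 ≤ M' ∧ Fm D M' f1 h1 ∧ Fm D M' f2 h2 ∧
      ∀ x ∈ D, f x = (x.1 - q.1) * f1 x + (x.2 - q.2) * f2 x ∧
        h x = (x.1 - q.1) * h1 x + (x.2 - q.2) * h2 x := by
  have hDD' : D ⊆ D' := subset_closure.trans hcl
  have hKc : IsCompact (closure D) := hb.isCompact_closure
  obtain ⟨τ, hτ1, hτ2, hτ3, hτ4⟩ := V2_cut hKc hD' hcl
  have hzf : ∀ x ∈ D' ∩ ball q t, f x = 0 := fun x hx => (hz x hx).1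
  have hzh : ∀ x ∈ D' ∩ ball q t, h x = 0 := fun x hx => (hz x hx).2
  have l1c : ∀ x, x ≠ q → ContDiffAt ℝ 1 (V2_l1 q) x := fun x hx => V2_l1_c hx
  have l2c : ∀ x, x ≠ q → ContDiffAt ℝ 1 (V2_l2 q) x := fun x hx => V2_l2_c hx
  have k1c : ∀ x, x ≠ q → ContDiffAt ℝ 1 (V2_k1 q) x := fun x hx => V2_k1_c hx
  have k2c : ∀ x, x ≠ q → ContDiffAt ℝ 1 (V2_k2 q) x := fun x hx => V2_k2_c hx
  -- the source term
  set ω : ℂ × ℂ → ℂ := fun x => (τ x : ℂ) * (V2_k1 q x * h x - V2_k2 q x * f x) with hω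
  have hωc : ContDiff ℝ 1 ω := by
    rw [contDiff_iff_contDiffAt]
    intro x
    by_cases hx : x ∈ D'
    · have e1 := (V2_glue hD' ht k1c hf.h1 hzh).contDiffAt (hD'.mem_nhds hx)
      have e2 := (V2_glue hD' ht k2c hf.f1 hzf).contDiffAt (hD'.mem_nhds hx)
      have e3 : ContDiffAt ℝ 1 (fun x => (τ x : ℂ)) x :=
        (Complex.ofRealCLM.contDiff.comp hτ1).contDiffAt
      exact e3.mul (e1.sub e2)
    · have hx' : x ∉ tsupport τ := fun h => hx (hτ3 h)
      have h0 : ω =ᶠ[𝓝 x] fun _ => (0 : ℂ) := by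
        filter_upwards [(isClosed_tsupport τ).isOpen_compl.mem_nhds hx'] with y hy
        have : τ y = 0 := image_eq_zero_of_notMem_tsupport hy
        simp [hω, this]
      exact contDiffAt_const.congr_of_eventuallyEq h0
  have hsupp : ∀ x : ℂ × ℂ, x.1 ∈ (univ : Set ℂ) → x.2 ∉ Prod.snd '' (tsupport τ) → ω x = 0 := by
    intro x _ hx
    have : τ x = 0 := by
      apply image_eq_zero_of_notMem_tsupport
      intro h
      exact hx ⟨x, h, rfl⟩
    simp [hω, this]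
  obtain ⟨hCT1, hCT2⟩ := ct2 isOpen_univ (hτ2.image continuous_snd)
    (g := ω) hωc.contDiffOn hsupp
  have hCTc : ContDiff ℝ 1 (CT2 ω) := by
    rw [univ_prod_univ, contDiffOn_univ] at hCT1
    exact hCT1
  set v : ℂ × ℂ → ℂ := fun x => - CT2 ω x with hv
  have hvc : ContDiff ℝ 1 v := hCTc.neg
  have hvd : ∀ x ∈ D, V2_Db v x (0, 1) = -(V2_k1 q x * h x - V2_k2 q x * f x) := by
    intro x hx
    rw [hv, V2_neg, ← V2_db2, (hCT2 x (mem_univ _)).1]
    have : τ x = 1 := hτ4 x (subset_closure hx)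
    simp only [hω, this]
    push_cast
    ring
  -- the four functions
  set f1 : ℂ × ℂ → ℂ := fun x => V2_l1 q x * f x + V2_b q x * v x with hf1
  set h1 : ℂ × ℂ → ℂ := fun x => V2_l1 q x * h x with hh1
  set f2 : ℂ × ℂ → ℂ := fun x => V2_l2 q x * f x - V2_a q x * v x with hf2
  set h2 : ℂ × ℂ → ℂ := fun x => V2_l2 q x * h x with hh2
  have cf1 : ContDiffOn ℝ 1 f1 D' :=
    (V2_glue hD' ht l1c hf.f1 hzf).add ((V2_b_c q).mul hvc).contDiffOn
  have ch1 : ContDiffOn ℝ 1 h1 D' := V2_glue hD' ht l1c hf.h1 hzh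
  have cf2 : ContDiffOn ℝ 1 f2 D' :=
    (V2_glue hD' ht l2c hf.f1 hzf).sub ((V2_a_c q).mul hvc).contDiffOn
  have ch2 : ContDiffOn ℝ 1 h2 D' := V2_glue hD' ht l2c hf.h1 hzh
  obtain ⟨M1, hM1⟩ := hKc.exists_bound_of_continuousOn (cf1.continuousOn.mono hcl)
  obtain ⟨M2, hM2⟩ := hKc.exists_bound_of_continuousOn (ch1.continuousOn.mono hcl)
  obtain ⟨M3, hM3⟩ := hKc.exists_bound_of_continuousOn (cf2.continuousOn.mono hcl)
  obtain ⟨M4, hM4⟩ := hKc.exists_bound_of_continuousOn (ch2.continuousOn.mono hcl)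
  have hval : ∀ x ∈ D, x = q → f x = 0 ∧ h x = 0 := by
    rintro x hx rfl
    exact hz x ⟨hDD' hx, mem_ball_self ht⟩
  refine ⟨|M1| + |M2| + |M3| + |M4|, f1, h1, f2, h2, by positivity, ?_, ?_, ?_⟩
  · refine ⟨cf1.mono hDD', ch1.mono hDD', ?_, ?_, ?_⟩
    · intro x hx
      have hxD := hDD' hx
      have dv : DifferentiableAt ℝ v x := hvc.differentiable (by simp) x
      have db : DifferentiableAt ℝ (V2_b q) x := (V2_b_c q).differentiable (by simp) x
      have dlf : DifferentiableAt ℝ (fun x => V2_l1 q x * f x) x :=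
        ((V2_glue hD' ht l1c hf.f1 hzf).contDiffAt (hD'.mem_nhds hxD)).differentiableAt (by simp)
      have e1 := V2_prod hD' ht l1c hf.h1 hzh hxD (1, 0) _ (fun hne => (V2_Dl1 hne).1)
      have e2 := V2_prod hD' ht l1c hf.f1 hzf hxD (0, 1) _ (fun hne => (V2_Dl1 hne).2)
      have e3 := hf.cl x hxD
      rw [V2_db1, V2_db2] at e3
      rw [V2_db1, V2_db2, hf1, V2_add dlf (db.fun_mul dv), V2_mul db dv, e2, V2_Dbb, hvd x hx, hh1,
        e1, e3]
      ring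
    · intro x hx
      refine (hM1 x (subset_closure hx)).trans ?_
      have := le_abs_self M1
      have := abs_nonneg M2
      have := abs_nonneg M3
      have := abs_nonneg M4
      linarith
    · intro x hx
      refine (hM2 x (subset_closure hx)).trans ?_
      have := le_abs_self M2
      have := abs_nonneg M1
      have := abs_nonneg M3
      have := abs_nonneg M4
      linarith
  · refine ⟨cf2.mono hDD', ch2.mono hDD', ?_, ?_, ?_⟩
    · intro x hx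
      have hxD := hDD' hx
      have dv : DifferentiableAt ℝ v x := hvc.differentiable (by simp) x
      have da : DifferentiableAt ℝ (V2_a q) x := (V2_a_c q).differentiable (by simp) x
      have dlf : DifferentiableAt ℝ (fun x => V2_l2 q x * f x) x :=
        ((V2_glue hD' ht l2c hf.f1 hzf).contDiffAt (hD'.mem_nhds hxD)).differentiableAt (by simp)
      have e1 := V2_prod hD' ht l2c hf.h1 hzh hxD (1, 0) _ (fun hne => (V2_Dl2 hne).1)
      have e2 := V2_prod hD' ht l2c hf.f1 hzf hxD (0, 1) _ (fun hne => (V2_Dl2 hne).2)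
      have e3 := hf.cl x hxD
      rw [V2_db1, V2_db2] at e3
      rw [V2_db1, V2_db2, hf2, V2_sub dlf (da.fun_mul dv), V2_mul da dv, e2, V2_Da, hvd x hx, hh2,
        e1, e3]
      ring
    · intro x hx
      refine (hM3 x (subset_closure hx)).trans ?_
      have := le_abs_self M3
      have := abs_nonneg M2
      have := abs_nonneg M1
      have := abs_nonneg M4
      linarith
    · intro x hx
      refine (hM4 x (subset_closure hx)).trans ?_
      have := le_abs_self M4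
      have := abs_nonneg M1
      have := abs_nonneg M3
      have := abs_nonneg M2
      linarith
  · intro x hx
    by_cases hxq : x = q
    · obtain ⟨z1, z2⟩ := hval x hx hxq
      simp only [hf1, hh1, hf2, hh2, z1, z2]
      subst hxq
      simp
    · have e := V2_one hxq
      have ea : x.1 - q.1 = V2_a q x := rfl
      have eb : x.2 - q.2 = V2_b q x := rfl
      rw [ea, eb]
      simp only [hf1, hh1, hf2, hh2]
      constructor
      · linear_combination (-(f x)) * e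
      · linear_combination (-(h x)) * e

end Pool.Agent.P157G
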