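import Mathlib
import Pool.Agent.P157G.Dolb

set_option autoImplicit false

open MeasureTheory Metric Set Filter Topology Complex

namespace Pool.Agent.P157G

open Pool.Agent.P157D (d1 d2 CR Bo)

lemma V1_congr {a b : ℂ × ℂ → ℂ} {x : ℂ × ℂ} (h : a =ᶠ[𝓝 x] b) :
    db1 a x = db1 b x ∧ db2 a x = db2 b x := by
  unfold db1 db2
  rw [h.fderiv_eq]
  exact ⟨rfl, rfl⟩

lemma V1_const (c : ℂ) (x : ℂ × ℂ) : db1 (fun _ => c) x = 0 ∧ db2 (fun _ => c) x = 0 := by
  unfold db1 db2
  simp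

lemma V1_mul {a b : ℂ × ℂ → ℂ} {x : ℂ × ℂ} (ha : DifferentiableAt ℝ a x)
    (hb : DifferentiableAt ℝ b x) :
    db1 (fun y => a y * b y) x = a x * db1 b x + b x * db1 a x ∧
    db2 (fun y => a y * b y) x = a x * db2 b x + b x * db2 a x := by
  have h : fderiv ℝ (fun y => a y * b y) x = a x • fderiv ℝ b x + b x • fderiv ℝ a x :=
    fderiv_fun_mul ha hb
  unfold db1 db2
  rw [h]
  simp only [add_apply, smul_apply, smul_eq_mul]
  constructor <;> ring

lemma V1_sub {a b : ℂ × ℂ → ℂ} {x : ℂ × ℂ} (ha : DifferentiableAt ℝ a x)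
    (hb : DifferentiableAt ℝ b x) :
    db1 (fun y => a y - b y) x = db1 a x - db1 b x ∧
    db2 (fun y => a y - b y) x = db2 a x - db2 b x := by
  have h : fderiv ℝ (fun y => a y - b y) x = fderiv ℝ a x - fderiv ℝ b x := fderiv_fun_sub ha hb
  unfold db1 db2
  rw [h]
  simp only [sub_apply]
  constructor <;> ring

lemma V1_cd {φ : ℂ × ℂ → ℂ} {n : ℕ∞} {m : ℕ∞} (hφ : ContDiff ℝ n φ) (hmn : (m : WithTop ℕ∞) + 1 ≤ n) :
    ContDiff ℝ m (db1 φ) ∧ ContDiff ℝ m (db2 φ) := by
  have h1 : ContDiff ℝ m (fderiv ℝ φ) := hφ.fderiv_right hmn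
  have h2 : ∀ v : ℂ × ℂ, ContDiff ℝ m (fun y => fderiv ℝ φ y v) := fun v =>
    h1.clm_apply contDiff_const
  unfold db1 db2
  exact ⟨((h2 _).add (contDiff_const.mul (h2 _))).div_const _,
    ((h2 _).add (contDiff_const.mul (h2 _))).div_const _⟩

lemma V1_symm {φ : ℂ × ℂ → ℂ} (hφ : ContDiff ℝ 2 φ) (x : ℂ × ℂ) :
    db1 (db2 φ) x = db2 (db1 φ) x := by
  have h0 : ContDiff ℝ 1 (fderiv ℝ φ) := hφ.fderiv_right (by norm_num)
  have hd : DifferentiableAt ℝ (fderiv ℝ φ) x := (h0.differentiable (by norm_num)) x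
  have hdv : ∀ v : ℂ × ℂ, DifferentiableAt ℝ (fun y => fderiv ℝ φ y v) x := fun v =>
    hd.clm_apply (differentiableAt_const _)
  have key : ∀ v w : ℂ × ℂ, fderiv ℝ (fun y => fderiv ℝ φ y v) x w =
      fderiv ℝ (fderiv ℝ φ) x w v := by
    intro v w
    have h := hd.hasFDerivAt.clm_apply (hasFDerivAt_const v x)
    rw [h.fderiv]
    simp
  have hs : ∀ v w : ℂ × ℂ, fderiv ℝ (fderiv ℝ φ) x v w = fderiv ℝ (fderiv ℝ φ) x w v := by
    intro v w
    exact (hφ.contDiffAt.isSymmSndFDerivAt (by simp)) v w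
  have e1 : ∀ w : ℂ × ℂ, fderiv ℝ (db1 φ) x w =
      (fderiv ℝ (fderiv ℝ φ) x w (1, 0) + Complex.I * fderiv ℝ (fderiv ℝ φ) x w (Complex.I, 0)) / 2 := by
    intro w
    have h : HasFDerivAt (db1 φ)
        ((2 : ℂ)⁻¹ • (fderiv ℝ (fun y => fderiv ℝ φ y (1, 0)) x +
          Complex.I • fderiv ℝ (fun y => fderiv ℝ φ y (Complex.I, 0)) x)) x := by
      have h1 := ((hdv (1, 0)).hasFDerivAt.add
        ((hdv (Complex.I, 0)).hasFDerivAt.const_smul Complex.I)).const_smul (2 : ℂ)⁻¹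
      refine h1.congr_of_eventuallyEq (Eventually.of_forall fun y => ?_)
      unfold db1
      simp only [Pi.smul_apply, Pi.add_apply, smul_eq_mul]
      ring
    rw [h.fderiv]
    simp only [smul_apply, add_apply, smul_eq_mul, key]
    ring
  have e2 : ∀ w : ℂ × ℂ, fderiv ℝ (db2 φ) x w =
      (fderiv ℝ (fderiv ℝ φ) x w (0, 1) + Complex.I * fderiv ℝ (fderiv ℝ φ) x w (0, Complex.I)) / 2 := by
    intro w
    have h : HasFDerivAt (db2 φ)
        ((2 : ℂ)⁻¹ • (fderiv ℝ (fun y => fderiv ℝ φ y (0, 1)) x +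
          Complex.I • fderiv ℝ (fun y => fderiv ℝ φ y (0, Complex.I)) x)) x := by
      have h1 := ((hdv (0, 1)).hasFDerivAt.add
        ((hdv (0, Complex.I)).hasFDerivAt.const_smul Complex.I)).const_smul (2 : ℂ)⁻¹
      refine h1.congr_of_eventuallyEq (Eventually.of_forall fun y => ?_)
      unfold db2
      simp only [Pi.smul_apply, Pi.add_apply, smul_eq_mul]
      ring
    rw [h.fderiv]
    simp only [smul_apply, add_apply, smul_eq_mul, key]
    ring
  have e3 : db1 (db2 φ) x = (fderiv ℝ (db2 φ) x (1, 0) + Complex.I * fderiv ℝ (db2 φ) x (Complex.I, 0)) / 2 :=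
    rfl
  have e4 : db2 (db1 φ) x = (fderiv ℝ (db1 φ) x (0, 1) + Complex.I * fderiv ℝ (db1 φ) x (0, Complex.I)) / 2 :=
    rfl
  rw [e3, e4, e2, e2, e1, e1, hs (1, 0) (0, 1), hs (1, 0) (0, Complex.I), hs (Complex.I, 0) (0, 1),
    hs (Complex.I, 0) (0, Complex.I)]
  ring

/-- **TARGET** -/
theorem van {D D' : Set (ℂ × ℂ)} (hD' : IsOpen D') (hb : Bornology.IsBounded D)
    (hcl : closure D ⊆ D') (q : ℂ × ℂ) {M : ℝ} {f h : ℂ × ℂ → ℂ} (hf : Fm D' M f h) :
    ∃ (D'' : Set (ℂ × ℂ)) (t M' : ℝ) (f' h' u : ℂ × ℂ → ℂ), IsOpen D'' ∧ closure D ⊆ D'' ∧ D'' ⊆ D' ∧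
      0 < t ∧ 0 ≤ M' ∧ Fm D'' M' f' h' ∧ (∀ x ∈ D'' ∩ ball q t, f' x = 0 ∧ h' x = 0) ∧
      So D'' M' (fun x => f x - f' x) (fun x => h x - h' x) u := by
  classical
  by_cases hq : q ∈ D'
  swap
  · have hq' : q ∈ (closure D)ᶜ := fun h => hq (hcl h)
    obtain ⟨s, hs, hsub⟩ := Metric.isOpen_iff.1 isClosed_closure.isOpen_compl q hq'
    refine ⟨D' \ closedBall q (s / 2), s / 2, |M|, f, h, fun _ => 0,
      hD'.sdiff isClosed_closedBall, ?_, sdiff_subset, by linarith, abs_nonneg _, ?_, ?_, ?_⟩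
    · intro x hx
      refine ⟨hcl hx, fun hx' => ?_⟩
      exact hsub (closedBall_subset_ball (by linarith) hx') hx
    · exact ⟨hf.f1.mono sdiff_subset, hf.h1.mono sdiff_subset, fun x hx => hf.cl x hx.1,
        fun x hx => (hf.fb x hx.1).trans (le_abs_self _),
        fun x hx => (hf.hb x hx.1).trans (le_abs_self _)⟩
    · rintro x ⟨⟨-, hx⟩, hx'⟩
      exact absurd (ball_subset_closedBall hx') hx
    · refine ⟨contDiffOn_const, ?_, ?_, ?_⟩
      · intro x _
        rw [(V1_const 0 x).1, sub_self]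
      · intro x _
        rw [(V1_const 0 x).2, sub_self]
      · intro x _
        rw [norm_zero]
        exact abs_nonneg _
  obtain ⟨s, hs, hsub⟩ := Metric.isOpen_iff.1 hD' q hq
  obtain ⟨t, ht, hts⟩ : ∃ t : ℝ, 0 < t ∧ 4 * t = s := ⟨s / 4, by linarith, by ring⟩
  rw [← hts] at hsub
  obtain ⟨C, hC, hS⟩ := dolb (r := 4 * t) (by linarith)
  have hfq : Fm (ball q (4 * t)) M f h := ⟨hf.f1.mono hsub, hf.h1.mono hsub,
    fun x hx => hf.cl x (hsub hx), fun x hx => hf.fb x (hsub hx), fun x hx => hf.hb x (hsub hx)⟩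
  obtain ⟨v, hv⟩ := hS q f h M hfq
  have h42 : 4 * t / 2 = 2 * t := by ring
  rw [h42] at hv
  have hsub2 : ball q (2 * t) ⊆ D' := (ball_subset_ball (by linarith)).trans hsub
  -- the cut-off function
  let b : ContDiffBump q := ⟨t, 3 * t / 2, ht, by linarith⟩
  let φ : ℂ × ℂ → ℂ := fun x => ((b x : ℝ) : ℂ)
  have hφ : ∀ n : ℕ∞, ContDiff ℝ n φ := fun n => Complex.ofRealCLM.contDiff.comp b.contDiff
  have hφ1 : ∀ x ∈ ball q t, φ =ᶠ[𝓝 x] fun _ => (1 : ℂ) := by
    intro x hx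
    filter_upwards [isOpen_ball.mem_nhds hx] with y hy
    change ((b y : ℝ) : ℂ) = 1
    rw [b.one_of_mem_closedBall (ball_subset_closedBall hy), Complex.ofReal_one]
  have hφ0 : ∀ x, x ∉ closedBall q (3 * t / 2) → φ =ᶠ[𝓝 x] fun _ => (0 : ℂ) := by
    intro x hx
    filter_upwards [isClosed_closedBall.isOpen_compl.mem_nhds hx] with y hy
    change ((b y : ℝ) : ℂ) = 0
    rw [b.zero_of_le_dist, Complex.ofReal_zero]
    have h1 : ¬ dist y q ≤ 3 * t / 2 := hy
    exact (not_le.1 h1).le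
  have hd0 : ∀ x, x ∉ closedBall q (3 * t / 2) → φ x = 0 ∧ db1 φ x = 0 ∧ db2 φ x = 0 := by
    intro x hx
    have h1 := V1_congr (hφ0 x hx)
    rw [(V1_const 0 x).1, (V1_const 0 x).2] at h1
    exact ⟨(hφ0 x hx).self_of_nhds, h1.1, h1.2⟩
  have hcd := V1_cd (n := 2) (m := 1) (hφ 2) (by norm_num)
  have hnb : ∀ x, ‖φ x‖ ≤ 1 ∧ ‖1 - φ x‖ ≤ 1 := by
    intro x
    have h1 := b.nonneg (x := x)
    have h2 := b.le_one (x := x)
    constructor
    · change ‖((b x : ℝ) : ℂ)‖ ≤ 1
      rw [Complex.norm_real, Real.norm_eq_abs, abs_of_nonneg h1]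
      exact h2
    · have h3 : (1 : ℂ) - φ x = ((1 - b x : ℝ) : ℂ) := by
        change (1 : ℂ) - ((b x : ℝ) : ℂ) = _
        push_cast
        ring
      rw [h3, Complex.norm_real, Real.norm_eq_abs, abs_of_nonneg (by linarith)]
      linarith
  have hcs : ∀ g : ℂ × ℂ → ℂ, Continuous g → (∀ x, x ∉ closedBall q (3 * t / 2) → g x = 0) →
      ∃ K, ∀ x, ‖g x‖ ≤ K := by
    intro g hg hg0
    exact hg.bounded_above_of_compact_support
      (HasCompactSupport.intro (isCompact_closedBall q (3 * t / 2)) hg0)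
  obtain ⟨K1, hK1⟩ := hcs (db1 φ) hcd.1.continuous fun x hx => (hd0 x hx).2.1
  obtain ⟨K2, hK2⟩ := hcs (db2 φ) hcd.2.continuous fun x hx => (hd0 x hx).2.2
  have hvb : ∀ x ∈ ball q (2 * t), ‖v x‖ ≤ |C * M| := fun x hx => (hv.ub x hx).trans (le_abs_self _)
  let K : ℝ := |K1| + |K2| + 1
  let M' : ℝ := |M| + K * |C * M|
  have hK0 : 0 ≤ K := by positivity
  have hK1' : ∀ x, ‖db1 φ x‖ ≤ K := fun x => (hK1 x).trans (by
    change K1 ≤ |K1| + |K2| + 1
    have := le_abs_self K1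
    have := abs_nonneg K2
    linarith)
  have hK2' : ∀ x, ‖db2 φ x‖ ≤ K := fun x => (hK2 x).trans (by
    change K2 ≤ |K1| + |K2| + 1
    have := le_abs_self K2
    have := abs_nonneg K1
    linarith)
  have hM'0 : 0 ≤ M' := by positivity
  have hcase : ∀ x, x ∈ ball q (2 * t) ∨ x ∉ closedBall q (3 * t / 2) := by
    intro x
    by_cases h1 : x ∈ closedBall q (3 * t / 2)
    · exact Or.inl (closedBall_subset_ball (by linarith) h1)
    · exact Or.inr h1
  let f' : ℂ × ℂ → ℂ := fun x => (1 - φ x) * f x - db1 φ x * v x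
  let h' : ℂ × ℂ → ℂ := fun x => (1 - φ x) * h x - db2 φ x * v x
  let u : ℂ × ℂ → ℂ := fun x => φ x * v x
  have hev0 : ∀ x, x ∉ closedBall q (3 * t / 2) → f' =ᶠ[𝓝 x] f ∧ h' =ᶠ[𝓝 x] h ∧
      u =ᶠ[𝓝 x] fun _ => (0 : ℂ) := by
    intro x hx
    have h1 : ∀ᶠ y in 𝓝 x, y ∉ closedBall q (3 * t / 2) :=
      isClosed_closedBall.isOpen_compl.mem_nhds hx
    refine ⟨?_, ?_, ?_⟩
    · filter_upwards [h1] with y hy
      obtain ⟨h2, h3, h4⟩ := hd0 y hy
      change (1 - φ y) * f y - db1 φ y * v y = f y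
      rw [h2, h3]
      ring
    · filter_upwards [h1] with y hy
      obtain ⟨h2, h3, h4⟩ := hd0 y hy
      change (1 - φ y) * h y - db2 φ y * v y = h y
      rw [h2, h4]
      ring
    · filter_upwards [h1] with y hy
      obtain ⟨h2, h3, h4⟩ := hd0 y hy
      change φ y * v y = 0
      rw [h2, zero_mul]
  have cdf : ∀ x ∈ D', ContDiffAt ℝ 1 f x := fun x hx => hf.f1.contDiffAt (hD'.mem_nhds hx)
  have cdh : ∀ x ∈ D', ContDiffAt ℝ 1 h x := fun x hx => hf.h1.contDiffAt (hD'.mem_nhds hx)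
  have cdv : ∀ x ∈ ball q (2 * t), ContDiffAt ℝ 1 v x := fun x hx =>
    hv.u1.contDiffAt (isOpen_ball.mem_nhds hx)
  have cdφ : ∀ x, ContDiffAt ℝ 1 φ x := fun x => (hφ 1).contDiffAt
  have hne : (1 : WithTop ℕ∞) ≠ 0 := one_ne_zero
  refine ⟨D', t, M', f', h', u, hD', hcl, subset_rfl, ht, hM'0, ?_, ?_, ?_⟩
  · refine ⟨?_, ?_, ?_, ?_, ?_⟩
    · intro x hx
      apply ContDiffAt.contDiffWithinAt
      rcases hcase x with h1 | h1
      · exact ((contDiffAt_const.sub (cdφ x)).mul (cdf x hx)).sub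
          ((hcd.1.contDiffAt).mul (cdv x h1))
      · exact (cdf x hx).congr_of_eventuallyEq (hev0 x h1).1
    · intro x hx
      apply ContDiffAt.contDiffWithinAt
      rcases hcase x with h1 | h1
      · exact ((contDiffAt_const.sub (cdφ x)).mul (cdh x hx)).sub
          ((hcd.2.contDiffAt).mul (cdv x h1))
      · exact (cdh x hx).congr_of_eventuallyEq (hev0 x h1).2.1
    · intro x hx
      rcases hcase x with h1 | h1
      · have df := (cdf x hx).differentiableAt hne
        have dh := (cdh x hx).differentiableAt hne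
        have dv := (cdv x h1).differentiableAt hne
        have dφ := (cdφ x).differentiableAt hne
        have d1φ : DifferentiableAt ℝ (db1 φ) x := (hcd.1.contDiffAt (x := x)).differentiableAt hne
        have d2φ : DifferentiableAt ℝ (db2 φ) x := (hcd.2.contDiffAt (x := x)).differentiableAt hne
        have d1φ' : DifferentiableAt ℝ (fun y => 1 - φ y) x := (differentiableAt_const _).sub dφ
        have a1 := (V1_sub (differentiableAt_const (1 : ℂ)) dφ)
        rw [(V1_const 1 x).1, (V1_const 1 x).2, zero_sub, zero_sub] at a1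
        have a2 := (V1_sub (a := fun y => (1 - φ y) * h y) (b := fun y => db2 φ y * v y)
          (d1φ'.mul dh) (d2φ.mul dv)).1
        have a3 := (V1_sub (a := fun y => (1 - φ y) * f y) (b := fun y => db1 φ y * v y)
          (d1φ'.mul df) (d1φ.mul dv)).2
        have a4 := (V1_mul d1φ' dh).1
        have a5 := (V1_mul d1φ' df).2
        have a6 := (V1_mul d2φ dv).1
        have a7 := (V1_mul d1φ dv).2
        change db1 (fun y => (1 - φ y) * h y - db2 φ y * v y) x =
          db2 (fun y => (1 - φ y) * f y - db1 φ y * v y) x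
        rw [a2, a3, a4, a5, a6, a7, a1.1, a1.2, hf.cl x hx, V1_symm (hφ 2) x, hv.e1 x h1, hv.e2 x h1]
        ring
      · rw [(V1_congr (hev0 x h1).2.1).1, (V1_congr (hev0 x h1).1).2]
        exact hf.cl x hx
    · intro x hx
      have b1 : ‖(1 - φ x) * f x‖ ≤ |M| := by
        rw [norm_mul]
        calc ‖1 - φ x‖ * ‖f x‖ ≤ 1 * |M| := mul_le_mul (hnb x).2
              ((hf.fb x hx).trans (le_abs_self _)) (norm_nonneg _) zero_le_one
          _ = |M| := one_mul _
      have b2 : ‖db1 φ x * v x‖ ≤ K * |C * M| := by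
        rcases hcase x with h1 | h1
        · rw [norm_mul]
          exact mul_le_mul (hK1' x) (hvb x h1) (norm_nonneg _) hK0
        · rw [(hd0 x h1).2.1, zero_mul, norm_zero]
          positivity
      exact (norm_sub_le _ _).trans (add_le_add b1 b2)
    · intro x hx
      have b1 : ‖(1 - φ x) * h x‖ ≤ |M| := by
        rw [norm_mul]
        calc ‖1 - φ x‖ * ‖h x‖ ≤ 1 * |M| := mul_le_mul (hnb x).2
              ((hf.hb x hx).trans (le_abs_self _)) (norm_nonneg _) zero_le_one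
          _ = |M| := one_mul _
      have b2 : ‖db2 φ x * v x‖ ≤ K * |C * M| := by
        rcases hcase x with h1 | h1
        · rw [norm_mul]
          exact mul_le_mul (hK2' x) (hvb x h1) (norm_nonneg _) hK0
        · rw [(hd0 x h1).2.2, zero_mul, norm_zero]
          positivity
      exact (norm_sub_le _ _).trans (add_le_add b1 b2)
  · rintro x ⟨-, hx⟩
    have h1 := V1_congr (hφ1 x hx)
    rw [(V1_const 1 x).1, (V1_const 1 x).2] at h1
    have h2 : φ x = 1 := (hφ1 x hx).self_of_nhds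
    constructor
    · change (1 - φ x) * f x - db1 φ x * v x = 0
      rw [h2, h1.1]
      ring
    · change (1 - φ x) * h x - db2 φ x * v x = 0
      rw [h2, h1.2]
      ring
  · refine ⟨?_, ?_, ?_, ?_⟩
    · intro x hx
      apply ContDiffAt.contDiffWithinAt
      rcases hcase x with h1 | h1
      · exact (cdφ x).mul (cdv x h1)
      · exact contDiffAt_const.congr_of_eventuallyEq (hev0 x h1).2.2
    · intro x hx
      change db1 u x = f x - ((1 - φ x) * f x - db1 φ x * v x)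
      rcases hcase x with h1 | h1
      · have dv := (cdv x h1).differentiableAt hne
        have dφ := (cdφ x).differentiableAt hne
        change db1 (fun y => φ y * v y) x = _
        rw [(V1_mul dφ dv).1, hv.e1 x h1]
        ring
      · rw [(V1_congr (hev0 x h1).2.2).1, (V1_const 0 x).1, (hd0 x h1).1, (hd0 x h1).2.1]
        ring
    · intro x hx
      change db2 u x = h x - ((1 - φ x) * h x - db2 φ x * v x)
      rcases hcase x with h1 | h1
      · have dv := (cdv x h1).differentiableAt hne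
        have dφ := (cdφ x).differentiableAt hne
        change db2 (fun y => φ y * v y) x = _
        rw [(V1_mul dφ dv).2, hv.e2 x h1]
        ring
      · rw [(V1_congr (hev0 x h1).2.2).2, (V1_const 0 x).2, (hd0 x h1).1, (hd0 x h1).2.2]
        ring
    · intro x hx
      change ‖φ x * v x‖ ≤ |M| + K * |C * M|
      have hKM : |C * M| ≤ K * |C * M| := by
        have h2 : 1 ≤ K := by
          change 1 ≤ |K1| + |K2| + 1
          have := abs_nonneg K1
          have := abs_nonneg K2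
          linarith
        exact le_mul_of_one_le_left (abs_nonneg _) h2
      rcases hcase x with h1 | h1
      · rw [norm_mul]
        have h3 : ‖φ x‖ * ‖v x‖ ≤ 1 * |C * M| := mul_le_mul (hnb x).1 (hvb x h1) (norm_nonneg _)
          zero_le_one
        have := abs_nonneg M
        linarith
      · rw [(hd0 x h1).1, zero_mul, norm_zero]
        exact hM'0

end Pool.Agent.P157G
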