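import Mathlib
import Pool.Agent.P157G.Van
import Pool.Agent.P157G.DivK

set_option autoImplicit false

open MeasureTheory Metric Set Filter Topology Complex

namespace Pool.Agent.P157G

open Pool.Agent.P157D (d1 d2 CR Bo)

theorem divf {D D' : Set (ℂ × ℂ)} (hD : IsOpen D) (hD' : IsOpen D')
    (hb : Bornology.IsBounded D) (hcl : closure D ⊆ D') {C : ℝ} (hC : 0 ≤ C) (hbmp : Bmp D D' C)
    (q : ℂ × ℂ) (f h : ℂ × ℂ → ℂ) (M : ℝ) (hf : Fm D M f h) :
    ∃ (M' : ℝ) (f1 h1 f2 h2 u : ℂ × ℂ → ℂ), Fm D M' f1 h1 ∧ Fm D M' f2 h2 ∧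
      So D M' (fun x => f x - (x.1 - q.1) * f1 x - (x.2 - q.2) * f2 x)
        (fun x => h x - (x.1 - q.1) * h1 x - (x.2 - q.2) * h2 x) u := by
  have hf0 : Fm D (max M 0) f h := ⟨hf.f1, hf.h1, hf.cl, fun x hx => (hf.fb x hx).trans (le_max_left _ _),
    fun x hx => (hf.hb x hx).trans (le_max_left _ _)⟩
  obtain ⟨f', h', u₀, hF', hu₀⟩ := hbmp f h _ (le_max_right _ _) hf0
  obtain ⟨D'', t, M', f'', h'', u₁, hDo, hcl'', hDD, ht, hM', hF'', hz, hu₁⟩ :=
    van hD' hb hcl q hF'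
  obtain ⟨M₂, f1, h1, f2, h2, hM₂, hF1, hF2, heq⟩ :=
    divk hD hDo hb hcl'' q ht hM' hF'' hz
  have hDs : D ⊆ D'' := subset_closure.trans hcl''
  have hCM : 0 ≤ C * max M 0 := mul_nonneg hC (le_max_right _ _)
  refine ⟨M₂ + (C * max M 0 + M'), f1, h1, f2, h2, fun x => u₀ x + u₁ x,
    ⟨hF1.f1, hF1.h1, hF1.cl, fun x hx => (hF1.fb x hx).trans (by linarith),
      fun x hx => (hF1.hb x hx).trans (by linarith)⟩,
    ⟨hF2.f1, hF2.h1, hF2.cl, fun x hx => (hF2.fb x hx).trans (by linarith),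
      fun x hx => (hF2.hb x hx).trans (by linarith)⟩, ?_⟩
  have hd0 : ∀ x ∈ D, DifferentiableAt ℝ u₀ x := fun x hx =>
    (hu₀.u1.differentiableOn one_ne_zero).differentiableAt (hD.mem_nhds hx)
  have hd1 : ∀ x ∈ D, DifferentiableAt ℝ u₁ x := fun x hx =>
    (hu₁.u1.differentiableOn one_ne_zero).differentiableAt (hDo.mem_nhds (hDs hx))
  refine ⟨hu₀.u1.add (hu₁.u1.mono hDs), fun x hx => ?_, fun x hx => ?_, fun x hx => ?_⟩
  · have e : db1 (fun x => u₀ x + u₁ x) x = db1 u₀ x + db1 u₁ x := by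
      unfold db1
      rw [fderiv_fun_add (hd0 x hx) (hd1 x hx)]
      simp only [ContinuousLinearMap.add_apply]
      ring
    rw [e, hu₀.e1 x hx, hu₁.e1 x (hDs hx)]
    have := (heq x hx).1
    linear_combination -this
  · have e : db2 (fun x => u₀ x + u₁ x) x = db2 u₀ x + db2 u₁ x := by
      unfold db2
      rw [fderiv_fun_add (hd0 x hx) (hd1 x hx)]
      simp only [ContinuousLinearMap.add_apply]
      ring
    rw [e, hu₀.e2 x hx, hu₁.e2 x (hDs hx)]
    have := (heq x hx).2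
    linear_combination -this
  · refine (norm_add_le _ _).trans ?_
    have h1 := hu₀.ub x hx
    have h2 := hu₁.ub x (hDs hx)
    linarith

end Pool.Agent.P157G
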