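import Mathlib
import Pool.Agent.P157G.Cpt
import Pool.Agent.P157G.Bump

set_option autoImplicit false

open MeasureTheory Metric Set Filter Topology Complex

namespace Pool.Agent.P157G

open Pool.Agent.P157D (d1 d2 CR Bo)

theorem G9b_da {D : Set (ℂ × ℂ)} (hD : IsOpen D) {u : ℂ × ℂ → ℂ} (hu : ContDiffOn ℝ 1 u D)
    {x : ℂ × ℂ} (hx : x ∈ D) : DifferentiableAt ℝ u x :=
  (hu.differentiableOn one_ne_zero).differentiableAt (hD.mem_nhds hx)

theorem G9b_db1_comb {u v : ℂ × ℂ → ℂ} {x : ℂ × ℂ} (hu : DifferentiableAt ℝ u x)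
    (hv : DifferentiableAt ℝ v x) (c d : ℂ) :
    db1 (fun y => c * u y + d * v y) x = c * db1 u x + d * db1 v x := by
  unfold db1
  rw [fderiv_fun_add (hu.const_mul c) (hv.const_mul d), fderiv_const_mul hu,
    fderiv_const_mul hv]
  simp only [ContinuousLinearMap.add_apply, ContinuousLinearMap.smul_apply, smul_eq_mul]
  ring

theorem G9b_db2_comb {u v : ℂ × ℂ → ℂ} {x : ℂ × ℂ} (hu : DifferentiableAt ℝ u x)
    (hv : DifferentiableAt ℝ v x) (c d : ℂ) :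
    db2 (fun y => c * u y + d * v y) x = c * db2 u x + d * db2 v x := by
  unfold db2
  rw [fderiv_fun_add (hu.const_mul c) (hv.const_mul d), fderiv_const_mul hu,
    fderiv_const_mul hv]
  simp only [ContinuousLinearMap.add_apply, ContinuousLinearMap.smul_apply, smul_eq_mul]
  ring

theorem G9b_nb {a b : ℂ} {M N : ℝ} (ha : ‖a‖ ≤ M) (hb : ‖b‖ ≤ N) (c d : ℂ) :
    ‖c * a + d * b‖ ≤ ‖c‖ * M + ‖d‖ * N := by
  refine (norm_add_le _ _).trans ?_
  rw [norm_mul, norm_mul]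
  exact add_le_add (mul_le_mul_of_nonneg_left ha (norm_nonneg _))
    (mul_le_mul_of_nonneg_left hb (norm_nonneg _))

theorem G9b_Fm_comb {D : Set (ℂ × ℂ)} (hD : IsOpen D) {M N : ℝ} {f h f' h' : ℂ × ℂ → ℂ}
    (h1 : Fm D M f h) (h2 : Fm D N f' h') (c d : ℂ) :
    Fm D (‖c‖ * M + ‖d‖ * N) (fun x => c * f x + d * f' x) (fun x => c * h x + d * h' x) where
  f1 := (contDiffOn_const.mul h1.f1).add (contDiffOn_const.mul h2.f1)
  h1 := (contDiffOn_const.mul h1.h1).add (contDiffOn_const.mul h2.h1)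
  cl := fun x hx => by
    rw [G9b_db1_comb (G9b_da hD h1.h1 hx) (G9b_da hD h2.h1 hx),
      G9b_db2_comb (G9b_da hD h1.f1 hx) (G9b_da hD h2.f1 hx), h1.cl x hx, h2.cl x hx]
  fb := fun x hx => G9b_nb (h1.fb x hx) (h2.fb x hx) c d
  hb := fun x hx => G9b_nb (h1.hb x hx) (h2.hb x hx) c d

theorem G9b_So_comb {D : Set (ℂ × ℂ)} (hD : IsOpen D) {M N : ℝ} {f h u f' h' u' : ℂ × ℂ → ℂ}
    (h1 : So D M f h u) (h2 : So D N f' h' u') (c d : ℂ) :
    So D (‖c‖ * M + ‖d‖ * N) (fun x => c * f x + d * f' x) (fun x => c * h x + d * h' x)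
      (fun x => c * u x + d * u' x) where
  u1 := (contDiffOn_const.mul h1.u1).add (contDiffOn_const.mul h2.u1)
  e1 := fun x hx => by
    rw [G9b_db1_comb (G9b_da hD h1.u1 hx) (G9b_da hD h2.u1 hx), h1.e1 x hx, h2.e1 x hx]
  e2 := fun x hx => by
    rw [G9b_db2_comb (G9b_da hD h1.u1 hx) (G9b_da hD h2.u1 hx), h1.e2 x hx, h2.e2 x hx]
  ub := fun x hx => G9b_nb (h1.ub x hx) (h2.ub x hx) c d

theorem G9b_Fm_mono {D : Set (ℂ × ℂ)} {M N : ℝ} {f h f' h' : ℂ × ℂ → ℂ}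
    (h1 : Fm D M f h) (hMN : M ≤ N) (e1 : f = f') (e2 : h = h') : Fm D N f' h' := by
  subst e1 e2
  exact ⟨h1.f1, h1.h1, h1.cl, fun x hx => (h1.fb x hx).trans hMN,
    fun x hx => (h1.hb x hx).trans hMN⟩

theorem G9b_So_mono {D : Set (ℂ × ℂ)} {M N : ℝ} {f h u f' h' u' : ℂ × ℂ → ℂ}
    (h1 : So D M f h u) (hMN : M ≤ N) (e1 : f = f') (e2 : h = h') (e3 : u = u') :
    So D N f' h' u' := by
  subst e1 e2 e3
  exact ⟨h1.u1, h1.e1, h1.e2, fun x hx => (h1.ub x hx).trans hMN⟩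

theorem G9b_db1_zero (x : ℂ × ℂ) : db1 (fun _ => (0 : ℂ)) x = 0 := by
  unfold db1
  simp

theorem G9b_db2_zero (x : ℂ × ℂ) : db2 (fun _ => (0 : ℂ)) x = 0 := by
  unfold db2
  simp

theorem G9b_Fm_zero (D : Set (ℂ × ℂ)) : Fm D 0 (fun _ => 0) (fun _ => 0) where
  f1 := contDiffOn_const
  h1 := contDiffOn_const
  cl := fun x _ => by rw [G9b_db1_zero, G9b_db2_zero]
  fb := fun x _ => by simp
  hb := fun x _ => by simp

theorem G9b_So_zero (D : Set (ℂ × ℂ)) : So D 0 (fun _ => 0) (fun _ => 0) (fun _ => 0) where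
  u1 := contDiffOn_const
  e1 := fun x _ => by rw [G9b_db1_zero]
  e2 := fun x _ => by rw [G9b_db2_zero]
  ub := fun x _ => by simp

/-- finite linear combinations of forms -/
theorem G9b_Fm_sum {D : Set (ℂ × ℂ)} (hD : IsOpen D) {m : ℕ} {F H : Fin m → ℂ × ℂ → ℂ} {M : ℝ}
    (hF : ∀ l, Fm D M (F l) (H l)) (c : Fin m → ℂ) (s : Finset (Fin m)) :
    Fm D (∑ l ∈ s, ‖c l‖ * M) (fun x => ∑ l ∈ s, c l * F l x) (fun x => ∑ l ∈ s, c l * H l x) := by
  classical
  induction s using Finset.induction_on with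
  | empty =>
    simp only [Finset.sum_empty]
    exact G9b_Fm_zero D
  | insert a s ha ih =>
    refine G9b_Fm_mono (G9b_Fm_comb hD (hF a) ih (c a) 1) ?_ ?_ ?_
    · rw [Finset.sum_insert ha]
      simp
    · funext x
      rw [Finset.sum_insert ha, one_mul]
    · funext x
      rw [Finset.sum_insert ha, one_mul]

/-- one step -/
theorem G9b_step {D D' : Set (ℂ × ℂ)} (hD : IsOpen D) (hD' : IsOpen D')
    {C : ℝ} (hC : 0 ≤ C) (hbmp : Bmp D D' C)
    {m : ℕ} {F H : Fin m → ℂ × ℂ → ℂ} {C₁ : ℝ}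
    (hstep : ∀ f h : ℂ × ℂ → ℂ, Fm D' 1 f h → ∃ (l : Fin m) (f'' h'' u : ℂ × ℂ → ℂ),
      Fm D (1 / (2 * (C + 1))) f'' h'' ∧
        So D C₁ (fun x => f x - F l x - f'' x) (fun x => h x - H l x - h'' x) u)
    {f h : ℂ × ℂ → ℂ} (hf : Fm D 1 f h) :
    ∃ (l : Fin m) (f'' h'' u : ℂ × ℂ → ℂ), Fm D 1 f'' h'' ∧
      So D (C + (C + 1) * C₁)
        (fun x => f x - (C + 1 : ℝ) * F l x - (1 / 2) * f'' x)
        (fun x => h x - (C + 1 : ℝ) * H l x - (1 / 2) * h'' x) u := by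
  have hK : (0 : ℝ) < C + 1 := by linarith
  have hKc : ((C + 1 : ℝ) : ℂ) ≠ 0 := by exact_mod_cast hK.ne'
  obtain ⟨f', h', u₀, hf', hu₀⟩ := hbmp f h 1 zero_le_one hf
  have hsc : Fm D' 1 (fun x => ((C + 1 : ℝ) : ℂ)⁻¹ * f' x) (fun x => ((C + 1 : ℝ) : ℂ)⁻¹ * h' x) := by
    refine G9b_Fm_mono (G9b_Fm_comb hD' hf' (G9b_Fm_zero D') (((C + 1 : ℝ) : ℂ)⁻¹) 0) ?_ ?_ ?_
    · rw [norm_inv, Complex.norm_real, Real.norm_of_nonneg hK.le, norm_zero, zero_mul, add_zero,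
        mul_one, inv_mul_le_iff₀ hK]
      linarith
    · funext x
      ring
    · funext x
      ring
  obtain ⟨l, f'', h'', u₁, hf'', hu₁⟩ := hstep _ _ hsc
  refine ⟨l, fun x => (2 * (C + 1 : ℝ) : ℂ) * f'' x, fun x => (2 * (C + 1 : ℝ) : ℂ) * h'' x,
    fun x => 1 * u₀ x + ((C + 1 : ℝ) : ℂ) * u₁ x, ?_, ?_⟩
  · refine G9b_Fm_mono (G9b_Fm_comb hD hf'' (G9b_Fm_zero D) (2 * (C + 1 : ℝ) : ℂ) 0) ?_ ?_ ?_
    · rw [norm_mul, Complex.norm_real, Real.norm_of_nonneg hK.le, norm_zero, zero_mul, add_zero,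
        Complex.norm_ofNat]
      rw [mul_one_div, div_le_one (by positivity)]
    · funext x
      ring
    · funext x
      ring
  · refine G9b_So_mono (G9b_So_comb hD hu₀ hu₁ 1 ((C + 1 : ℝ) : ℂ)) ?_ ?_ ?_ rfl
    · rw [Complex.norm_real, Real.norm_of_nonneg hK.le, norm_one]
      linarith
    · funext x
      have : ((C + 1 : ℝ) : ℂ) * (((C + 1 : ℝ) : ℂ)⁻¹ * f' x) = f' x := by
        rw [mul_inv_cancel_left₀ hKc]
      linear_combination this
    · funext x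
      have : ((C + 1 : ℝ) : ℂ) * (((C + 1 : ℝ) : ℂ)⁻¹ * h' x) = h' x := by
        rw [mul_inv_cancel_left₀ hKc]
      linear_combination this

theorem G9b_geo (N : ℕ) : ∑ n ∈ Finset.range N, (1 / 2 : ℝ) ^ n ≤ 2 := by
  have h := Summable.sum_le_tsum (Finset.range N) (fun n _ => by positivity)
    (summable_geometric_two)
  rw [tsum_geometric_two] at h
  exact h

/-- the normalised form -/
theorem G9b_main {D D' : Set (ℂ × ℂ)} (hD : IsOpen D) (hD' : IsOpen D')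
    {C : ℝ} (hC : 0 ≤ C) (hbmp : Bmp D D' C)
    {m : ℕ} {F H : Fin m → ℂ × ℂ → ℂ} {C₁ M₁ : ℝ} (hC₁ : 0 ≤ C₁) (hM₁ : 0 ≤ M₁)
    (hFH : ∀ l, Fm D M₁ (F l) (H l))
    (hstep : ∀ f h : ℂ × ℂ → ℂ, Fm D' 1 f h → ∃ (l : Fin m) (f'' h'' u : ℂ × ℂ → ℂ),
      Fm D (1 / (2 * (C + 1))) f'' h'' ∧
        So D C₁ (fun x => f x - F l x - f'' x) (fun x => h x - H l x - h'' x) u)
    {f h : ℂ × ℂ → ℂ} (hf : Fm D 1 f h) :
    ∃ (c : Fin m → ℂ) (u : ℂ × ℂ → ℂ),
      (∀ l, ‖c l‖ ≤ 2 * (C + 1)) ∧ So D (2 * (C + (C + 1) * C₁))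
        (fun x => f x - ∑ l, c l * F l x) (fun x => h x - ∑ l, c l * H l x) u := by
  have hK : (0 : ℝ) < C + 1 := by linarith
  set C₂ : ℝ := C + (C + 1) * C₁ with hC₂
  have hC₂0 : 0 ≤ C₂ := by positivity
  have key : ∀ p : {p : (ℂ × ℂ → ℂ) × (ℂ × ℂ → ℂ) // Fm D 1 p.1 p.2},
      ∃ q : Fin m × {p : (ℂ × ℂ → ℂ) × (ℂ × ℂ → ℂ) // Fm D 1 p.1 p.2} × (ℂ × ℂ → ℂ),
        So D C₂
          (fun x => p.1.1 x - (C + 1 : ℝ) * F q.1 x - (1 / 2) * q.2.1.1.1 x)
          (fun x => p.1.2 x - (C + 1 : ℝ) * H q.1 x - (1 / 2) * q.2.1.1.2 x) q.2.2 := by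
    intro p
    obtain ⟨l, f'', h'', u, h1, h2⟩ := G9b_step hD hD' hC hbmp hstep p.2
    exact ⟨⟨l, ⟨⟨f'', h''⟩, h1⟩, u⟩, h2⟩
  choose st hst using key
  let g : ℕ → {p : (ℂ × ℂ → ℂ) × (ℂ × ℂ → ℂ) // Fm D 1 p.1 p.2} :=
    fun n => Nat.rec ⟨(f, h), hf⟩ (fun _ p => (st p).2.1) n
  have g0 : g 0 = ⟨(f, h), hf⟩ := rfl
  have gs : ∀ n, g (n + 1) = (st (g n)).2.1 := fun n => rfl
  let L : ℕ → Fin m := fun n => (st (g n)).1
  let U : ℕ → ℂ × ℂ → ℂ := fun n => (st (g n)).2.2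
  have hU : ∀ n, So D C₂
      (fun x => (g n).1.1 x - (C + 1 : ℝ) * F (L n) x - (1 / 2) * (g (n + 1)).1.1 x)
      (fun x => (g n).1.2 x - (C + 1 : ℝ) * H (L n) x - (1 / 2) * (g (n + 1)).1.2 x) (U n) :=
    fun n => hst (g n)
  let a : ℕ → Fin m → ℂ := fun n l => if L n = l then (1 / 2 : ℂ) ^ n * (C + 1 : ℝ) else 0
  have ha : ∀ n l, ‖a n l‖ ≤ (1 / 2 : ℝ) ^ n * (C + 1) := by
    intro n l
    simp only [a]
    split_ifs
    · rw [norm_mul, norm_pow, Complex.norm_real, Real.norm_of_nonneg hK.le]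
      simp
    · rw [norm_zero]
      positivity
  have hsumg : Summable (fun n : ℕ => (1 / 2 : ℝ) ^ n * (C + 1)) :=
    summable_geometric_two.mul_right _
  have hsa : ∀ l, Summable (fun n => a n l) := fun l =>
    Summable.of_norm_bounded hsumg (fun n => ha n l)
  let cN : ℕ → Fin m → ℂ := fun N l => ∑ n ∈ Finset.range N, a n l
  let c : Fin m → ℂ := fun l => ∑' n, a n l
  have hcN : ∀ N l, ‖cN N l‖ ≤ 2 * (C + 1) := by
    intro N l
    refine (norm_sum_le _ _).trans ((Finset.sum_le_sum fun n _ => ha n l).trans ?_)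
    rw [← Finset.sum_mul]
    exact mul_le_mul_of_nonneg_right (G9b_geo N) hK.le
  have hct : ∀ l, Tendsto (fun N => cN N l) atTop (𝓝 (c l)) := fun l =>
    (hsa l).hasSum.tendsto_sum_nat
  have hc : ∀ l, ‖c l‖ ≤ 2 * (C + 1) := fun l =>
    le_of_tendsto (hct l).norm (Eventually.of_forall fun N => hcN N l)
  -- the sum of a single layer
  have hlay : ∀ (G : Fin m → ℂ × ℂ → ℂ) (N : ℕ) (x : ℂ × ℂ),
      ∑ l, cN (N + 1) l * G l x = ∑ l, cN N l * G l x + (1 / 2 : ℂ) ^ N * (C + 1 : ℝ) * G (L N) x := by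
    intro G N x
    have h1 : ∀ l, cN (N + 1) l * G l x = cN N l * G l x + a N l * G l x := by
      intro l
      simp only [cN]
      rw [Finset.sum_range_succ]
      ring
    rw [Finset.sum_congr rfl fun l _ => h1 l, Finset.sum_add_distrib]
    congr 1
    simp only [a, ite_mul, zero_mul]
    rw [Finset.sum_ite_eq Finset.univ (L N)]
    simp
  let S : ℕ → ℂ × ℂ → ℂ := fun N x => ∑ n ∈ Finset.range N, (1 / 2 : ℂ) ^ n * U n x
  have hSo : ∀ N, So D (∑ n ∈ Finset.range N, (1 / 2 : ℝ) ^ n * C₂)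
      (fun x => f x - ∑ l, cN N l * F l x - (1 / 2 : ℂ) ^ N * (g N).1.1 x)
      (fun x => h x - ∑ l, cN N l * H l x - (1 / 2 : ℂ) ^ N * (g N).1.2 x) (S N) := by
    intro N
    induction N with
    | zero =>
      refine G9b_So_mono (G9b_So_zero D) (by simp) ?_ ?_ ?_
      · funext x
        simp [cN, g0]
      · funext x
        simp [cN, g0]
      · funext x
        simp [S]
    | succ N ih =>
      refine G9b_So_mono (G9b_So_comb hD ih (hU N) 1 ((1 / 2 : ℂ) ^ N)) ?_ ?_ ?_ ?_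
      · rw [Finset.sum_range_succ, norm_one, one_mul, norm_pow]
        simp
      · funext x
        rw [hlay F N x]
        ring
      · funext x
        rw [hlay H N x]
        ring
      · funext x
        simp only [S]
        rw [Finset.sum_range_succ, one_mul]
  have hSo' : ∀ N, So D (2 * C₂)
      (fun x => f x - ∑ l, cN N l * F l x - (1 / 2 : ℂ) ^ N * (g N).1.1 x)
      (fun x => h x - ∑ l, cN N l * H l x - (1 / 2 : ℂ) ^ N * (g N).1.2 x) (S N) := by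
    intro N
    refine G9b_So_mono (hSo N) ?_ rfl rfl rfl
    rw [← Finset.sum_mul]
    exact mul_le_mul_of_nonneg_right (G9b_geo N) hC₂0
  set B : ℝ := 1 + (∑ _l : Fin m, 2 * (C + 1) * M₁) + 1 with hB
  have hbase : ∀ (d : Fin m → ℂ), (∀ l, ‖d l‖ ≤ 2 * (C + 1)) →
      Fm D (1 + (∑ _l : Fin m, 2 * (C + 1) * M₁)) (fun x => f x - ∑ l, d l * F l x)
        (fun x => h x - ∑ l, d l * H l x) := by
    intro d hd
    refine G9b_Fm_mono (G9b_Fm_comb hD hf (G9b_Fm_sum hD hFH d Finset.univ) 1 (-1)) ?_ ?_ ?_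
    · rw [norm_one, norm_neg, norm_one, one_mul, one_mul]
      exact add_le_add le_rfl (Finset.sum_le_sum fun l _ =>
        mul_le_mul_of_nonneg_right (hd l) hM₁)
    · funext x
      ring
    · funext x
      ring
  have hFl : Fm D B (fun x => f x - ∑ l, c l * F l x) (fun x => h x - ∑ l, c l * H l x) :=
    G9b_Fm_mono (hbase c hc) (by rw [hB]; linarith) rfl rfl
  have hFN : ∀ N, Fm D B
      (fun x => f x - ∑ l, cN N l * F l x - (1 / 2 : ℂ) ^ N * (g N).1.1 x)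
      (fun x => h x - ∑ l, cN N l * H l x - (1 / 2 : ℂ) ^ N * (g N).1.2 x) := by
    intro N
    refine G9b_Fm_mono (G9b_Fm_comb hD (hbase (cN N) (hcN N)) (g N).2 1 (-(1 / 2 : ℂ) ^ N)) ?_ ?_ ?_
    · rw [norm_one, one_mul, hB]
      refine add_le_add le_rfl ?_
      rw [mul_one, norm_neg, norm_pow]
      refine pow_le_one₀ (norm_nonneg _) ?_
      rw [norm_div, norm_one, Complex.norm_ofNat]
      norm_num
    · funext x
      ring
    · funext x
      ring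
  refine ⟨c, fun x => ∑' n, (1 / 2 : ℂ) ^ n * U n x, hc, ?_⟩
  refine reg_lim hD atTop hFl hFN hSo' ?_ ?_
  · -- uniform convergence
    intro ε hε
    have ht : Tendsto (fun N => (∑ l, ‖c l - cN N l‖ * M₁) + (1 / 2 : ℝ) ^ N) atTop (𝓝 0) := by
      have h1 : Tendsto (fun N => ∑ l, ‖c l - cN N l‖ * M₁) atTop (𝓝 (∑ l : Fin m, 0)) := by
        refine tendsto_finset_sum _ fun l _ => ?_
        have h2 := ((tendsto_const_nhds (x := c l)).sub (hct l)).norm.mul_const M₁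
        rw [sub_self, norm_zero, zero_mul] at h2
        exact h2
      have h3 := h1.add (tendsto_pow_atTop_nhds_zero_of_lt_one (r := (1 / 2 : ℝ)) (by norm_num)
        (by norm_num))
      simpa using h3
    have hev := ht.eventually (ge_mem_nhds hε)
    refine hev.mono fun N hN => ?_
    have hgen : ∀ (G : Fin m → ℂ × ℂ → ℂ) (φ ψ : ℂ × ℂ → ℂ) (x : ℂ × ℂ), (∀ l, ‖G l x‖ ≤ M₁) →
        ‖ψ x‖ ≤ 1 →
        ‖(φ x - ∑ l, cN N l * G l x - (1 / 2 : ℂ) ^ N * ψ x) - (φ x - ∑ l, c l * G l x)‖ ≤ ε := by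
      intro G φ ψ x hG hψ
      refine le_trans ?_ hN
      have he : (φ x - ∑ l, cN N l * G l x - (1 / 2 : ℂ) ^ N * ψ x) - (φ x - ∑ l, c l * G l x)
          = ∑ l, (c l - cN N l) * G l x - (1 / 2 : ℂ) ^ N * ψ x := by
        have : ∑ l, (c l - cN N l) * G l x = ∑ l, c l * G l x - ∑ l, cN N l * G l x := by
          rw [← Finset.sum_sub_distrib]
          exact Finset.sum_congr rfl fun l _ => by ring
        rw [this]
        ring
      rw [he]
      refine (norm_sub_le _ _).trans (add_le_add ?_ ?_)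
      · refine (norm_sum_le _ _).trans (Finset.sum_le_sum fun l _ => ?_)
        rw [norm_mul]
        exact mul_le_mul_of_nonneg_left (hG l) (norm_nonneg _)
      · rw [norm_mul, norm_pow, norm_div, norm_one, Complex.norm_ofNat]
        exact mul_le_of_le_one_right (by positivity) hψ
    intro x hx
    exact ⟨hgen F f (g N).1.1 x (fun l => (hFH l).fb x hx) ((g N).2.fb x hx),
      hgen H h (g N).1.2 x (fun l => (hFH l).hb x hx) ((g N).2.hb x hx)⟩
  · intro x hx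
    have hs : Summable (fun n : ℕ => (1 / 2 : ℂ) ^ n * U n x) := by
      refine Summable.of_norm_bounded (summable_geometric_two.mul_right C₂) fun n => ?_
      rw [norm_mul, norm_pow, norm_div, norm_one, Complex.norm_ofNat]
      exact mul_le_mul_of_nonneg_left ((hU n).ub x hx) (by positivity)
    exact hs.hasSum.tendsto_sum_nat

/-- **TARGET** -/
theorem fdim {D D' : Set (ℂ × ℂ)} (hD : IsOpen D) (hD' : IsOpen D')
    (hb : Bornology.IsBounded D) (hcl : closure D ⊆ D') {C : ℝ} (hC : 0 ≤ C) (hbmp : Bmp D D' C) :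
    ∃ (m : ℕ) (F H : Fin m → ℂ × ℂ → ℂ) (C' M' : ℝ), 0 ≤ C' ∧ (∀ l, Fm D M' (F l) (H l)) ∧
      ∀ (f h : ℂ × ℂ → ℂ) (M : ℝ), 0 ≤ M → Fm D M f h → ∃ (c : Fin m → ℂ) (u : ℂ × ℂ → ℂ),
        (∀ l, ‖c l‖ ≤ C' * M) ∧ So D (C' * M) (fun x => f x - ∑ l, c l * F l x)
          (fun x => h x - ∑ l, c l * H l x) u := by
  have hK : (0 : ℝ) < C + 1 := by linarith
  obtain ⟨m, F, H, C₁, M₁, hC₁, hFH, hstep⟩ :=
    compact_step hD hD' hb hcl (ε := 1 / (2 * (C + 1))) (by positivity)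
  have hFH' : ∀ l, Fm D (max M₁ 0) (F l) (H l) := fun l =>
    G9b_Fm_mono (hFH l) (le_max_left _ _) rfl rfl
  have hC₂0 : 0 ≤ C + (C + 1) * C₁ := by positivity
  refine ⟨m, F, H, 2 * (C + 1) + 2 * (C + (C + 1) * C₁), max M₁ 0, by positivity, hFH', ?_⟩
  intro f h M hM hf
  rcases hM.eq_or_lt with hM0 | hM0
  · subst hM0
    refine ⟨fun _ => 0, fun _ => 0, fun l => by simp, ?_⟩
    refine ⟨contDiffOn_const, fun x hx => ?_, fun x hx => ?_, fun x hx => by simp⟩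
    · have := norm_le_zero_iff.1 (hf.fb x hx)
      rw [G9b_db1_zero]
      simp [this]
    · have := norm_le_zero_iff.1 (hf.hb x hx)
      rw [G9b_db2_zero]
      simp [this]
  · have hMc : (M : ℂ) ≠ 0 := by exact_mod_cast hM0.ne'
    have h1 : Fm D 1 (fun x => (M : ℂ)⁻¹ * f x) (fun x => (M : ℂ)⁻¹ * h x) := by
      refine G9b_Fm_mono (G9b_Fm_comb hD hf (G9b_Fm_zero D) ((M : ℂ)⁻¹) 0) ?_ ?_ ?_
      · rw [norm_inv, Complex.norm_real, Real.norm_of_nonneg hM, norm_zero, zero_mul, add_zero,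
          inv_mul_cancel₀ hM0.ne']
      · funext x
        ring
      · funext x
        ring
    obtain ⟨c, u, hc, hu⟩ := G9b_main hD hD' hC hbmp hC₁ (le_max_right M₁ 0) hFH' hstep h1
    refine ⟨fun l => (M : ℂ) * c l, fun x => (M : ℂ) * u x + 0 * 0, fun l => ?_, ?_⟩
    · rw [norm_mul, Complex.norm_real, Real.norm_of_nonneg hM, mul_comm]
      refine mul_le_mul_of_nonneg_right ((hc l).trans ?_) hM
      linarith
    · refine G9b_So_mono (G9b_So_comb hD hu (G9b_So_zero D) (M : ℂ) 0) ?_ ?_ ?_ rfl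
      · rw [Complex.norm_real, Real.norm_of_nonneg hM, norm_zero, zero_mul, add_zero, mul_comm]
        refine mul_le_mul_of_nonneg_right ?_ hM
        linarith
      · funext x
        have e1 : (M : ℂ) * ∑ l, c l * F l x = ∑ l, (M : ℂ) * c l * F l x := by
          rw [Finset.mul_sum]
          exact Finset.sum_congr rfl fun l _ => by ring
        have e2 : (M : ℂ) * ((M : ℂ)⁻¹ * f x) = f x := mul_inv_cancel_left₀ hMc _
        linear_combination e2 - e1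
      · funext x
        have e1 : (M : ℂ) * ∑ l, c l * H l x = ∑ l, (M : ℂ) * c l * H l x := by
          rw [Finset.mul_sum]
          exact Finset.sum_congr rfl fun l _ => by ring
        have e2 : (M : ℂ) * ((M : ℂ)⁻¹ * h x) = h x := mul_inv_cancel_left₀ hMc _
        linear_combination e2 - e1

end Pool.Agent.P157G
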