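import Mathlib
import Pool.Agent.P157G.Nara
import Pool.Agent.P157G.Fdim
import Pool.Agent.P157G.DivF

set_option autoImplicit false

open MeasureTheory Metric Set Filter Topology Complex

namespace Pool.Agent.P157G

open Pool.Agent.P157D (d1 d2 CR Bo)

theorem G11_ns {E : Type} [AddCommGroup E] [Module ℂ E] [FiniteDimensional ℂ E] [Nontrivial E]
    (S : E →ₗ[ℂ] E) : ∃ q : ℂ, LinearMap.range (S - q • LinearMap.id) ≠ ⊤ := by
  obtain ⟨q, hq⟩ := Module.End.exists_eigenvalue S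
  refine ⟨q, ?_⟩
  intro htop
  set S' : E →ₗ[ℂ] E := S - q • LinearMap.id with hS'
  have hsurj : Function.Surjective S' := LinearMap.range_eq_top.1 htop
  have hinj : Function.Injective S' :=
    LinearMap.injective_iff_surjective.2 hsurj
  obtain ⟨v, hv⟩ := hq.exists_hasEigenvector
  have h0 : S' v = 0 := by
    simp [hS', hv.apply_eq_smul]
  exact hv.2 (hinj (by rw [h0, map_zero]))

/-- **TARGET** -/
theorem lin_alg {V : Type} [AddCommGroup V] [Module ℂ V] (B : Submodule ℂ V) (T1 T2 : V →ₗ[ℂ] V)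
    (hc : ∀ v, T1 (T2 v) = T2 (T1 v)) (h1 : ∀ v ∈ B, T1 v ∈ B) (h2 : ∀ v ∈ B, T2 v ∈ B)
    (hfin : ∃ s : Finset V, Submodule.span ℂ (s : Set V) ⊔ B = ⊤)
    (hdiv : ∀ (q1 q2 : ℂ) (v : V), ∃ v1 v2 : V,
      v - (T1 v1 - q1 • v1) - (T2 v2 - q2 • v2) ∈ B) : B = ⊤ := by
  classical
  obtain ⟨s, hs⟩ := hfin
  have hfd : FiniteDimensional ℂ (V ⧸ B) := by
    refine ⟨⟨s.image B.mkQ, ?_⟩⟩
    rw [Finset.coe_image, Submodule.span_image]
    have h3 : (Submodule.span ℂ (s : Set V) ⊔ B).map B.mkQ = ⊤ := by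
      rw [hs, Submodule.map_top, Submodule.range_mkQ]
    rw [Submodule.map_sup, Submodule.mkQ_map_self, sup_bot_eq] at h3
    exact h3
  by_contra hB
  have hnt : Nontrivial (V ⧸ B) := Submodule.Quotient.nontrivial_iff.2 hB
  set S1 : (V ⧸ B) →ₗ[ℂ] (V ⧸ B) := B.mapQ B T1 h1 with hS1
  set S2 : (V ⧸ B) →ₗ[ℂ] (V ⧸ B) := B.mapQ B T2 h2 with hS2
  obtain ⟨q1, hq1⟩ := G11_ns S1
  set P1 : (V ⧸ B) →ₗ[ℂ] (V ⧸ B) := S1 - q1 • LinearMap.id with hP1
  have hP1a : ∀ e, P1 e = S1 e - q1 • e := fun e => by simp [hP1]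
  set W : Submodule ℂ (V ⧸ B) := LinearMap.range P1 with hW
  have hcomm : ∀ e, S1 (S2 e) = S2 (S1 e) := by
    intro e
    obtain ⟨v, rfl⟩ := B.mkQ_surjective e
    simp only [hS1, hS2, Submodule.mkQ_apply, Submodule.mapQ_apply, hc]
  have hWS : W ≤ W.comap S2 := by
    rintro e ⟨v, rfl⟩
    refine ⟨S2 v, ?_⟩
    rw [hP1a, hP1a, map_sub, map_smul, hcomm]
  have hnt2 : Nontrivial ((V ⧸ B) ⧸ W) := Submodule.Quotient.nontrivial_iff.2 hq1
  obtain ⟨q2, hq2⟩ := G11_ns (W.mapQ W S2 hWS)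
  apply hq2
  rw [LinearMap.range_eq_top]
  intro e'
  obtain ⟨e, rfl⟩ := W.mkQ_surjective e'
  obtain ⟨v, rfl⟩ := B.mkQ_surjective e
  obtain ⟨v1, v2, hv⟩ := hdiv q1 q2 v
  refine ⟨W.mkQ (B.mkQ v2), ?_⟩
  have h6 : B.mkQ (v - (T1 v1 - q1 • v1) - (T2 v2 - q2 • v2)) = 0 := by
    rw [Submodule.mkQ_apply, Submodule.Quotient.mk_eq_zero]
    exact hv
  have g1 : B.mkQ (T1 v1) = S1 (B.mkQ v1) := by
    simp only [hS1, Submodule.mkQ_apply, Submodule.mapQ_apply]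
  have g2 : B.mkQ (T2 v2) = S2 (B.mkQ v2) := by
    simp only [hS2, Submodule.mkQ_apply, Submodule.mapQ_apply]
  have h9 : B.mkQ v = P1 (B.mkQ v1) + (S2 (B.mkQ v2) - q2 • B.mkQ v2) := by
    rw [map_sub, map_sub, map_sub, map_sub, map_smul, map_smul, g1, g2] at h6
    rw [hP1a]
    rw [sub_sub, sub_eq_zero] at h6
    exact h6
  have h7 : W.mkQ (P1 (B.mkQ v1)) = 0 := by
    rw [Submodule.mkQ_apply, Submodule.Quotient.mk_eq_zero]
    exact ⟨_, rfl⟩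
  rw [h9, map_add, h7, zero_add]
  simp only [LinearMap.sub_apply, LinearMap.smul_apply, LinearMap.id_apply, map_sub, map_smul,
    Submodule.mkQ_apply, Submodule.mapQ_apply]

theorem G11_e1 {u : ℂ × ℂ → ℂ} {u' : ℂ × ℂ →L[ℝ] ℂ} {x : ℂ × ℂ} (h : HasFDerivAt u u' x) :
    db1 u x = (u' (1, 0) + Complex.I * u' (Complex.I, 0)) / 2 := by
  unfold db1
  rw [h.fderiv]

theorem G11_e2 {u : ℂ × ℂ → ℂ} {u' : ℂ × ℂ →L[ℝ] ℂ} {x : ℂ × ℂ} (h : HasFDerivAt u u' x) :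
    db2 u x = (u' (0, 1) + Complex.I * u' (0, Complex.I)) / 2 := by
  unfold db2
  rw [h.fderiv]

theorem G11_add1 {u v : ℂ × ℂ → ℂ} {x : ℂ × ℂ} (hu : DifferentiableAt ℝ u x)
    (hv : DifferentiableAt ℝ v x) : db1 (fun x => u x + v x) x = db1 u x + db1 v x := by
  have h0 : HasFDerivAt (fun x => u x + v x) (fderiv ℝ u x + fderiv ℝ v x) x :=
    hu.hasFDerivAt.add hv.hasFDerivAt
  rw [G11_e1 hu.hasFDerivAt, G11_e1 hv.hasFDerivAt, G11_e1 h0]
  simp only [add_apply]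
  ring

theorem G11_add2 {u v : ℂ × ℂ → ℂ} {x : ℂ × ℂ} (hu : DifferentiableAt ℝ u x)
    (hv : DifferentiableAt ℝ v x) : db2 (fun x => u x + v x) x = db2 u x + db2 v x := by
  have h0 : HasFDerivAt (fun x => u x + v x) (fderiv ℝ u x + fderiv ℝ v x) x :=
    hu.hasFDerivAt.add hv.hasFDerivAt
  rw [G11_e2 hu.hasFDerivAt, G11_e2 hv.hasFDerivAt, G11_e2 h0]
  simp only [add_apply]
  ring

theorem G11_mul1 {a u : ℂ × ℂ → ℂ} {x : ℂ × ℂ} (ha : DifferentiableAt ℝ a x)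
    (hu : DifferentiableAt ℝ u x) (h0 : db1 a x = 0) :
    db1 (fun x => a x * u x) x = a x * db1 u x := by
  have h1 := G11_e1 (ha.hasFDerivAt.mul hu.hasFDerivAt)
  rw [G11_e1 ha.hasFDerivAt] at h0
  rw [G11_e1 hu.hasFDerivAt]
  refine h1.trans ?_
  simp only [add_apply, smul_apply, smul_eq_mul]
  linear_combination u x * h0

theorem G11_mul2 {a u : ℂ × ℂ → ℂ} {x : ℂ × ℂ} (ha : DifferentiableAt ℝ a x)
    (hu : DifferentiableAt ℝ u x) (h0 : db2 a x = 0) :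
    db2 (fun x => a x * u x) x = a x * db2 u x := by
  have h1 := G11_e2 (ha.hasFDerivAt.mul hu.hasFDerivAt)
  rw [G11_e2 ha.hasFDerivAt] at h0
  rw [G11_e2 hu.hasFDerivAt]
  refine h1.trans ?_
  simp only [add_apply, smul_apply, smul_eq_mul]
  linear_combination u x * h0

/-- multipliers -/
structure G11_Mu (D : Set (ℂ × ℂ)) (A : ℝ) (a : ℂ × ℂ → ℂ) : Prop where
  c : ContDiff ℝ 1 a
  z1 : ∀ x, db1 a x = 0
  z2 : ∀ x, db2 a x = 0
  b : ∀ x ∈ D, ‖a x‖ ≤ A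

theorem G11_Mu_const (D : Set (ℂ × ℂ)) (c : ℂ) : G11_Mu D ‖c‖ (fun _ => c) := by
  refine ⟨contDiff_const, ?_, ?_, fun _ _ => le_rfl⟩
  · intro x
    rw [G11_e1 (hasFDerivAt_const c x)]
    simp
  · intro x
    rw [G11_e2 (hasFDerivAt_const c x)]
    simp

theorem G11_Mu_fst {D : Set (ℂ × ℂ)} {A : ℝ} (hA : ∀ x ∈ D, ‖x‖ ≤ A) :
    G11_Mu D A (fun x => x.1) := by
  refine ⟨contDiff_fst, ?_, ?_, fun x hx => (norm_fst_le x).trans (hA x hx)⟩
  · intro x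
    rw [G11_e1 (hasFDerivAt_fst (𝕜 := ℝ) (p := x))]
    simp
  · intro x
    rw [G11_e2 (hasFDerivAt_fst (𝕜 := ℝ) (p := x))]
    simp

theorem G11_Mu_snd {D : Set (ℂ × ℂ)} {A : ℝ} (hA : ∀ x ∈ D, ‖x‖ ≤ A) :
    G11_Mu D A (fun x => x.2) := by
  refine ⟨contDiff_snd, ?_, ?_, fun x hx => (norm_snd_le x).trans (hA x hx)⟩
  · intro x
    rw [G11_e1 (hasFDerivAt_snd (𝕜 := ℝ) (p := x))]
    simp
  · intro x
    rw [G11_e2 (hasFDerivAt_snd (𝕜 := ℝ) (p := x))]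
    simp

theorem G11_da {D : Set (ℂ × ℂ)} (hD : IsOpen D) {u : ℂ × ℂ → ℂ} (hu : ContDiffOn ℝ 1 u D) {x : ℂ × ℂ}
    (hx : x ∈ D) : DifferentiableAt ℝ u x :=
  (hu.differentiableOn (by norm_num)).differentiableAt (hD.mem_nhds hx)

theorem G11_Fm_add {D : Set (ℂ × ℂ)} (hD : IsOpen D) {M M' : ℝ} {f h f' h' : ℂ × ℂ → ℂ}
    (H : Fm D M f h) (H' : Fm D M' f' h') :
    Fm D (M + M') (fun x => f x + f' x) (fun x => h x + h' x) := by
  refine ⟨H.f1.add H'.f1, H.h1.add H'.h1, ?_, ?_, ?_⟩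
  · intro x hx
    rw [G11_add1 (G11_da hD H.h1 hx) (G11_da hD H'.h1 hx),
      G11_add2 (G11_da hD H.f1 hx) (G11_da hD H'.f1 hx), H.cl x hx, H'.cl x hx]
  · intro x hx
    exact (norm_add_le _ _).trans (add_le_add (H.fb x hx) (H'.fb x hx))
  · intro x hx
    exact (norm_add_le _ _).trans (add_le_add (H.hb x hx) (H'.hb x hx))

theorem G11_Fm_mul {D : Set (ℂ × ℂ)} (hD : IsOpen D) {M A : ℝ} {f h a : ℂ × ℂ → ℂ}
    (H : Fm D M f h) (ha : G11_Mu D A a) :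
    Fm D (A * M) (fun x => a x * f x) (fun x => a x * h x) := by
  refine ⟨ha.c.contDiffOn.mul H.f1, ha.c.contDiffOn.mul H.h1, ?_, ?_, ?_⟩
  · intro x hx
    have hd : DifferentiableAt ℝ a x := (ha.c.differentiable (by norm_num)) x
    rw [G11_mul1 hd (G11_da hD H.h1 hx) (ha.z1 x), G11_mul2 hd (G11_da hD H.f1 hx) (ha.z2 x),
      H.cl x hx]
  · intro x hx
    rw [norm_mul]
    exact mul_le_mul (ha.b x hx) (H.fb x hx) (norm_nonneg _) ((norm_nonneg _).trans (ha.b x hx))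
  · intro x hx
    rw [norm_mul]
    exact mul_le_mul (ha.b x hx) (H.hb x hx) (norm_nonneg _) ((norm_nonneg _).trans (ha.b x hx))

theorem G11_Fm_zero (D : Set (ℂ × ℂ)) : Fm D 0 (fun _ => 0) (fun _ => 0) := by
  refine ⟨contDiffOn_const, contDiffOn_const, ?_, ?_, ?_⟩
  · intro x hx
    rw [(G11_Mu_const D 0).z1, (G11_Mu_const D 0).z2]
  · intro x hx
    simp
  · intro x hx
    simp

theorem G11_So_add {D : Set (ℂ × ℂ)} (hD : IsOpen D) {M M' : ℝ} {f h f' h' u u' : ℂ × ℂ → ℂ}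
    (H : So D M f h u) (H' : So D M' f' h' u') :
    So D (M + M') (fun x => f x + f' x) (fun x => h x + h' x) (fun x => u x + u' x) := by
  refine ⟨H.u1.add H'.u1, ?_, ?_, ?_⟩
  · intro x hx
    rw [G11_add1 (G11_da hD H.u1 hx) (G11_da hD H'.u1 hx), H.e1 x hx, H'.e1 x hx]
  · intro x hx
    rw [G11_add2 (G11_da hD H.u1 hx) (G11_da hD H'.u1 hx), H.e2 x hx, H'.e2 x hx]
  · intro x hx
    exact (norm_add_le _ _).trans (add_le_add (H.ub x hx) (H'.ub x hx))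

theorem G11_So_mul {D : Set (ℂ × ℂ)} (hD : IsOpen D) {M A : ℝ} {f h u a : ℂ × ℂ → ℂ}
    (H : So D M f h u) (ha : G11_Mu D A a) :
    So D (A * M) (fun x => a x * f x) (fun x => a x * h x) (fun x => a x * u x) := by
  refine ⟨ha.c.contDiffOn.mul H.u1, ?_, ?_, ?_⟩
  · intro x hx
    have hd : DifferentiableAt ℝ a x := (ha.c.differentiable (by norm_num)) x
    rw [G11_mul1 hd (G11_da hD H.u1 hx) (ha.z1 x), H.e1 x hx]
  · intro x hx
    have hd : DifferentiableAt ℝ a x := (ha.c.differentiable (by norm_num)) x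
    rw [G11_mul2 hd (G11_da hD H.u1 hx) (ha.z2 x), H.e2 x hx]
  · intro x hx
    rw [norm_mul]
    exact mul_le_mul (ha.b x hx) (H.ub x hx) (norm_nonneg _) ((norm_nonneg _).trans (ha.b x hx))

theorem G11_So_zero (D : Set (ℂ × ℂ)) : So D 0 (fun _ => 0) (fun _ => 0) (fun _ => 0) := by
  refine ⟨contDiffOn_const, ?_, ?_, ?_⟩
  · intro x hx
    rw [(G11_Mu_const D 0).z1]
  · intro x hx
    rw [(G11_Mu_const D 0).z2]
  · intro x hx
    simp

theorem G11_So_sum {D : Set (ℂ × ℂ)} (hD : IsOpen D) {m : ℕ} (N : Fin m → ℝ)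
    (F H v : Fin m → ℂ × ℂ → ℂ) (hS : ∀ l, So D (N l) (F l) (H l) (v l)) (c : Fin m → ℂ)
    (s : Finset (Fin m)) :
    So D (∑ l ∈ s, ‖c l‖ * N l) (fun x => ∑ l ∈ s, c l * F l x) (fun x => ∑ l ∈ s, c l * H l x)
      (fun x => ∑ l ∈ s, c l * v l x) := by
  classical
  induction s using Finset.induction_on with
  | empty => simpa using G11_So_zero D
  | insert l s hl ih =>
    simp only [Finset.sum_insert hl]
    exact G11_So_add hD (G11_So_mul hD (hS l) (G11_Mu_const D (c l))) ih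

theorem G11_Fm_mono {D : Set (ℂ × ℂ)} {M M' : ℝ} {f h : ℂ × ℂ → ℂ} (H : Fm D M f h) (hM : M ≤ M') :
    Fm D M' f h :=
  ⟨H.f1, H.h1, H.cl, fun x hx => (H.fb x hx).trans hM, fun x hx => (H.hb x hx).trans hM⟩

theorem G11_So_mono {D : Set (ℂ × ℂ)} {M M' : ℝ} {f h u : ℂ × ℂ → ℂ} (H : So D M f h u)
    (hM : M ≤ M') : So D M' f h u :=
  ⟨H.u1, H.e1, H.e2, fun x hx => (H.ub x hx).trans hM⟩

/-- bounded closed forms -/
def G11_V (D : Set (ℂ × ℂ)) (hD : IsOpen D) : Submodule ℂ ((ℂ × ℂ → ℂ) × (ℂ × ℂ → ℂ)) where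
  carrier := {p | ∃ M, Fm D M p.1 p.2}
  add_mem' := by
    rintro p q ⟨M, hM⟩ ⟨M', hM'⟩
    exact ⟨_, G11_Fm_add hD hM hM'⟩
  zero_mem' := ⟨0, G11_Fm_zero D⟩
  smul_mem' := by
    rintro c p ⟨M, hM⟩
    exact ⟨_, G11_Fm_mul hD hM (G11_Mu_const D c)⟩

/-- bounded closed forms with a bounded solution -/
def G11_B (D : Set (ℂ × ℂ)) (hD : IsOpen D) : Submodule ℂ (G11_V D hD) where
  carrier := {p | ∃ M u, So D M p.1.1 p.1.2 u}
  add_mem' := by
    rintro p q ⟨M, u, hM⟩ ⟨M', u', hM'⟩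
    exact ⟨_, _, G11_So_add hD hM hM'⟩
  zero_mem' := ⟨0, _, G11_So_zero D⟩
  smul_mem' := by
    rintro c p ⟨M, u, hM⟩
    exact ⟨_, _, G11_So_mul hD hM (G11_Mu_const D c)⟩

/-- multiplication by a multiplier -/
def G11_T (D : Set (ℂ × ℂ)) (hD : IsOpen D) {A : ℝ} {a : ℂ × ℂ → ℂ} (ha : G11_Mu D A a) :
    G11_V D hD →ₗ[ℂ] G11_V D hD where
  toFun p := ⟨(fun x => a x * p.1.1 x, fun x => a x * p.1.2 x), by
    obtain ⟨M, hM⟩ := p.2
    exact ⟨_, G11_Fm_mul hD hM ha⟩⟩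
  map_add' p q := by
    apply Subtype.ext
    apply Prod.ext <;> funext x <;> simp [mul_add]
  map_smul' c p := by
    apply Subtype.ext
    apply Prod.ext <;> funext x <;> simp [mul_left_comm]

theorem G11_T1 (D : Set (ℂ × ℂ)) (hD : IsOpen D) {A : ℝ} {a : ℂ × ℂ → ℂ} (ha : G11_Mu D A a)
    (p : G11_V D hD) (x : ℂ × ℂ) : (G11_T D hD ha p).1.1 x = a x * p.1.1 x := rfl

theorem G11_T2 (D : Set (ℂ × ℂ)) (hD : IsOpen D) {A : ℝ} {a : ℂ × ℂ → ℂ} (ha : G11_Mu D A a)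
    (p : G11_V D hD) (x : ℂ × ℂ) : (G11_T D hD ha p).1.2 x = a x * p.1.2 x := rfl

theorem G11_top {D D' : Set (ℂ × ℂ)} (hD : IsOpen D) (hD' : IsOpen D')
    (hb : Bornology.IsBounded D) (hcl : closure D ⊆ D') {C : ℝ} (hC : 0 ≤ C) (hbmp : Bmp D D' C) :
    G11_B D hD = ⊤ := by
  classical
  obtain ⟨A, hA⟩ := hb.exists_norm_le
  obtain ⟨m, F, H, C', M', hC', hFH, hfd⟩ := fdim hD hD' hb hcl hC hbmp
  refine lin_alg (G11_B D hD) (G11_T D hD (G11_Mu_fst hA)) (G11_T D hD (G11_Mu_snd hA))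
    ?_ ?_ ?_ ?_ ?_
  · intro v
    apply Subtype.ext
    apply Prod.ext <;> funext x
    · simp only [G11_T1]
      ring
    · simp only [G11_T2]
      ring
  · rintro v ⟨M, u, hu⟩
    exact ⟨_, _, G11_So_mul hD hu (G11_Mu_fst hA)⟩
  · rintro v ⟨M, u, hu⟩
    exact ⟨_, _, G11_So_mul hD hu (G11_Mu_snd hA)⟩
  · let g : Fin m → G11_V D hD := fun l => ⟨(F l, H l), M', hFH l⟩
    refine ⟨Finset.univ.image g, ?_⟩
    rw [eq_top_iff]
    rintro v -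
    obtain ⟨M, hM⟩ := v.2
    have hM2 : Fm D |M| v.1.1 v.1.2 := G11_Fm_mono hM (le_abs_self M)
    obtain ⟨c, u, hc, hu⟩ := hfd v.1.1 v.1.2 |M| (abs_nonneg _) hM2
    have hv : v = ∑ l, c l • g l + (v - ∑ l, c l • g l) := by abel
    rw [hv]
    refine Submodule.add_mem_sup ?_ ?_
    · refine Submodule.sum_mem _ fun l _ => Submodule.smul_mem _ _ (Submodule.subset_span ?_)
      simp
    · refine ⟨C' * |M|, u, ?_⟩
      have e0 : ((v - ∑ l, c l • g l : G11_V D hD) : (ℂ × ℂ → ℂ) × (ℂ × ℂ → ℂ)) =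
          (v : (ℂ × ℂ → ℂ) × (ℂ × ℂ → ℂ)) - ∑ l, c l • (F l, H l) := by
        rw [Submodule.coe_sub, Submodule.coe_sum]
        rfl
      have e1 : ((v - ∑ l, c l • g l : G11_V D hD)).1.1 =
          fun x => v.1.1 x - ∑ l, c l * F l x := by
        funext x
        rw [e0]
        simp [Prod.fst_sum]
      have e2 : ((v - ∑ l, c l • g l : G11_V D hD)).1.2 =
          fun x => v.1.2 x - ∑ l, c l * H l x := by
        funext x
        rw [e0]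
        simp [Prod.snd_sum]
      rw [e1, e2]
      exact hu
  · intro q1 q2 v
    obtain ⟨M, hM⟩ := v.2
    obtain ⟨M1, f1, h1, f2, h2, u, hF1, hF2, hu⟩ :=
      divf hD hD' hb hcl hC hbmp (q1, q2) v.1.1 v.1.2 M hM
    refine ⟨⟨(f1, h1), M1, hF1⟩, ⟨(f2, h2), M1, hF2⟩, M1, u, ?_⟩
    have e1 : ((v - (G11_T D hD (G11_Mu_fst hA) ⟨(f1, h1), M1, hF1⟩ - q1 • ⟨(f1, h1), M1, hF1⟩) -
        (G11_T D hD (G11_Mu_snd hA) ⟨(f2, h2), M1, hF2⟩ - q2 • ⟨(f2, h2), M1, hF2⟩) :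
          G11_V D hD)).1.1 =
        fun x => v.1.1 x - (x.1 - (q1, q2).1) * f1 x - (x.2 - (q1, q2).2) * f2 x := by
      funext x
      show v.1.1 x - (x.1 * f1 x - q1 * f1 x) - (x.2 * f2 x - q2 * f2 x) =
        v.1.1 x - (x.1 - q1) * f1 x - (x.2 - q2) * f2 x
      ring
    have e2 : ((v - (G11_T D hD (G11_Mu_fst hA) ⟨(f1, h1), M1, hF1⟩ - q1 • ⟨(f1, h1), M1, hF1⟩) -
        (G11_T D hD (G11_Mu_snd hA) ⟨(f2, h2), M1, hF2⟩ - q2 • ⟨(f2, h2), M1, hF2⟩) :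
          G11_V D hD)).1.2 =
        fun x => v.1.2 x - (x.1 - (q1, q2).1) * h1 x - (x.2 - (q1, q2).2) * h2 x := by
      funext x
      show v.1.2 x - (x.1 * h1 x - q1 * h1 x) - (x.2 * h2 x - q2 * h2 x) =
        v.1.2 x - (x.1 - q1) * h1 x - (x.2 - q2) * h2 x
      ring
    rw [e1, e2]
    exact hu

/-- **TARGET** -/
theorem slv_dom {D D' : Set (ℂ × ℂ)} (hD : IsOpen D) (hD' : IsOpen D')
    (hb : Bornology.IsBounded D) (hcl : closure D ⊆ D') {C : ℝ} (hC : 0 ≤ C) (hbmp : Bmp D D' C) :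
    ∃ C' : ℝ, 0 ≤ C' ∧ Slv D D C' := by
  classical
  have htop := G11_top hD hD' hb hcl hC hbmp
  have hsol : ∀ (f h : ℂ × ℂ → ℂ) (M : ℝ), Fm D M f h → ∃ N u, So D N f h u := by
    intro f h M hM
    have h1 : (⟨(f, h), M, hM⟩ : G11_V D hD) ∈ G11_B D hD := by
      rw [htop]
      trivial
    exact h1
  obtain ⟨m, F, H, C', M', hC', hFH, hfd⟩ := fdim hD hD' hb hcl hC hbmp
  choose N v hv using fun l => hsol (F l) (H l) M' (hFH l)
  refine ⟨C' + C' * ∑ l, |N l|, ?_, ?_⟩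
  · have : 0 ≤ ∑ l, |N l| := Finset.sum_nonneg fun l _ => abs_nonneg _
    positivity
  intro f h M hM
  rcases Set.eq_empty_or_nonempty D with he | ⟨x₀, hx₀⟩
  · subst he
    refine ⟨fun _ => 0, contDiffOn_const, ?_, ?_, ?_⟩ <;> intro x hx <;> exact absurd hx (by simp)
  · have hM0 : 0 ≤ M := (norm_nonneg _).trans (hM.fb x₀ hx₀)
    obtain ⟨c, u, hc, hu⟩ := hfd f h M hM0 hM
    have hs := G11_So_sum hD (fun l => |N l|) F H v
      (fun l => G11_So_mono (hv l) (le_abs_self _)) c Finset.univ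
    have hadd := G11_So_add hD hu hs
    refine ⟨fun x => u x + ∑ l, c l * v l x, ?_⟩
    · have e1 : (fun x => f x - ∑ l, c l * F l x + ∑ l, c l * F l x) = f := by
        funext x
        ring
      have e2 : (fun x => h x - ∑ l, c l * H l x + ∑ l, c l * H l x) = h := by
        funext x
        ring
      rw [e1, e2] at hadd
      refine G11_So_mono hadd ?_
      have h3 : ∑ l, ‖c l‖ * |N l| ≤ ∑ l, (C' * M) * |N l| :=
        Finset.sum_le_sum fun l _ => mul_le_mul_of_nonneg_right (hc l) (abs_nonneg _)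
      rw [← Finset.mul_sum] at h3
      calc C' * M + ∑ l, ‖c l‖ * |N l| ≤ C' * M + C' * M * ∑ l, |N l| := by linarith
        _ = (C' + C' * ∑ l, |N l|) * M := by ring

/-- **TARGET** -/
theorem slv_nf {ρ : ℂ × ℂ → ℝ} (h : NF ρ) : ∃ C : ℝ, 0 ≤ C ∧ Slv {x | ρ x < 0} {x | ρ x < 0} C := by
  obtain ⟨D'', C, hD'', hsub, hC, hbmp⟩ := bumping h
  have hc : Continuous ρ := h.smooth.continuous
  have hD : IsOpen {x | ρ x < 0} := isOpen_lt hc continuous_const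
  have hb : Bornology.IsBounded {x | ρ x < 0} := h.bdd.subset fun x (hx : ρ x < 0) => (show ρ x ≤ 0 from le_of_lt hx)
  have hcl : closure {x | ρ x < 0} ⊆ D'' := by
    refine subset_trans ?_ hsub
    refine closure_minimal (fun x (hx : ρ x < 0) => (show ρ x ≤ 0 from le_of_lt hx))
      (isClosed_le hc continuous_const)
  exact slv_dom hD hD'' hb hcl hC hbmp

end Pool.Agent.P157G
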