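import Mathlib
import Pool.Agent.Helper540.Holo
import Pool.Agent.P157G.SlvN

set_option autoImplicit false

open MeasureTheory Metric Set Filter Topology Complex

namespace Pool.Agent.P157G

open Pool.Agent.P157D (d1 d2 CR Bo)

/-- the derivative with respect to the conjugate variable in the direction `v` -/
noncomputable def G14a_D (v : ℂ × ℂ) (u : ℂ × ℂ → ℂ) (x : ℂ × ℂ) : ℂ :=
  (fderiv ℝ u x v + Complex.I * fderiv ℝ u x (Complex.I • v)) / 2

theorem G14a_db1 (u : ℂ × ℂ → ℂ) (x : ℂ × ℂ) : db1 u x = G14a_D (1, 0) u x := by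
  have e : Complex.I • ((1, 0) : ℂ × ℂ) = (Complex.I, 0) := by
    ext <;> simp
  unfold db1 G14a_D
  rw [e]

theorem G14a_db2 (u : ℂ × ℂ → ℂ) (x : ℂ × ℂ) : db2 u x = G14a_D (0, 1) u x := by
  have e : Complex.I • ((0, 1) : ℂ × ℂ) = (0, Complex.I) := by
    ext <;> simp
  unfold db2 G14a_D
  rw [e]

theorem G14a_congr {v : ℂ × ℂ} {u w : ℂ × ℂ → ℂ} {x : ℂ × ℂ} (h : u =ᶠ[𝓝 x] w) :
    G14a_D v u x = G14a_D v w x := by
  unfold G14a_D
  rw [h.fderiv_eq]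

theorem G14a_mul {v : ℂ × ℂ} {u w : ℂ × ℂ → ℂ} {x : ℂ × ℂ} (hu : DifferentiableAt ℝ u x)
    (hw : DifferentiableAt ℝ w x) :
    G14a_D v (fun y => u y * w y) x = G14a_D v u x * w x + u x * G14a_D v w x := by
  unfold G14a_D
  have e : fderiv ℝ (fun y => u y * w y) x = u x • fderiv ℝ w x + w x • fderiv ℝ u x :=
    fderiv_fun_mul hu hw
  rw [e]
  simp only [_root_.add_apply, _root_.smul_apply, smul_eq_mul]
  ring

theorem G14a_add {v : ℂ × ℂ} {u w : ℂ × ℂ → ℂ} {x : ℂ × ℂ} (hu : DifferentiableAt ℝ u x)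
    (hw : DifferentiableAt ℝ w x) :
    G14a_D v (fun y => u y + w y) x = G14a_D v u x + G14a_D v w x := by
  unfold G14a_D
  rw [fderiv_fun_add hu hw]
  simp only [_root_.add_apply]
  ring

theorem G14a_sub {v : ℂ × ℂ} {u w : ℂ × ℂ → ℂ} {x : ℂ × ℂ} (hu : DifferentiableAt ℝ u x)
    (hw : DifferentiableAt ℝ w x) :
    G14a_D v (fun y => u y - w y) x = G14a_D v u x - G14a_D v w x := by
  unfold G14a_D
  rw [fderiv_fun_sub hu hw]
  simp only [_root_.sub_apply]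
  ring

theorem G14a_holo {v : ℂ × ℂ} {g : ℂ × ℂ → ℂ} {x : ℂ × ℂ} (hg : DifferentiableAt ℂ g x) :
    G14a_D v g x = 0 := by
  unfold G14a_D
  rw [hg.fderiv_restrictScalars ℝ]
  simp only [ContinuousLinearMap.coe_restrictScalars', map_smul, smul_eq_mul]
  linear_combination (fderiv ℂ g x v / 2) * Complex.I_mul_I

theorem G14a_const {v : ℂ × ℂ} {c : ℂ} {x : ℂ × ℂ} : G14a_D v (fun _ => c) x = 0 :=
  G14a_holo (differentiableAt_const c)

theorem G14a_inv {v : ℂ × ℂ} {u : ℂ × ℂ → ℂ} {x : ℂ × ℂ} (hu : DifferentiableAt ℝ u x)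
    (h0 : u x ≠ 0) : G14a_D v (fun y => (u y)⁻¹) x = - G14a_D v u x / (u x) ^ 2 := by
  have h1 : DifferentiableAt ℝ (fun y => (u y)⁻¹) x := hu.inv h0
  have h2 : (fun y => u y * (u y)⁻¹) =ᶠ[𝓝 x] fun _ => (1 : ℂ) := by
    filter_upwards [hu.continuousAt.eventually_ne h0] with y hy
    exact mul_inv_cancel₀ hy
  have h3 := G14a_congr (v := v) h2
  rw [G14a_const, G14a_mul hu h1] at h3
  field_simp at h3 ⊢
  linear_combination h3

/-- symmetry of the second derivatives -/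
theorem G14a_symm {F : ℂ × ℂ → ℂ} (hF : ContDiff ℝ 2 F) (v w x : ℂ × ℂ) :
    G14a_D v (fun y => G14a_D w F y) x = G14a_D w (fun y => G14a_D v F y) x := by
  have hF1 : ContDiff ℝ 1 (fderiv ℝ F) := hF.fderiv_right (by norm_num)
  have hd : DifferentiableAt ℝ (fderiv ℝ F) x := (hF1.differentiable (by norm_num)).differentiableAt
  have hap : ∀ (z y : ℂ × ℂ), fderiv ℝ (fun y => fderiv ℝ F y z) x y =
      fderiv ℝ (fderiv ℝ F) x y z := by
    intro z y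
    rw [fderiv_clm_apply hd (differentiableAt_const z)]
    simp
  have hdz : ∀ z : ℂ × ℂ, DifferentiableAt ℝ (fun y => fderiv ℝ F y z) x := fun z =>
    hd.clm_apply (differentiableAt_const z)
  have key : ∀ v w : ℂ × ℂ, G14a_D v (fun y => G14a_D w F y) x =
      (fderiv ℝ (fderiv ℝ F) x v w + Complex.I * fderiv ℝ (fderiv ℝ F) x v (Complex.I • w) +
        Complex.I * (fderiv ℝ (fderiv ℝ F) x (Complex.I • v) w +
        Complex.I * fderiv ℝ (fderiv ℝ F) x (Complex.I • v) (Complex.I • w))) / 4 := by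
    intro v w
    have e : ∀ y, fderiv ℝ (fun y => G14a_D w F y) x y =
        (fderiv ℝ (fderiv ℝ F) x y w + Complex.I * fderiv ℝ (fderiv ℝ F) x y (Complex.I • w)) / 2 := by
      intro y
      have h1 : (fun y => G14a_D w F y) = fun y => (1 / 2 : ℂ) *
          (fderiv ℝ F y w + Complex.I * fderiv ℝ F y (Complex.I • w)) := by
        funext y
        unfold G14a_D
        ring
      have h2 : DifferentiableAt ℝ (fun y => Complex.I * fderiv ℝ F y (Complex.I • w)) x :=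
        (hdz _).const_mul _
      have h3 : DifferentiableAt ℝ
          (fun y => fderiv ℝ F y w + Complex.I * fderiv ℝ F y (Complex.I • w)) x := (hdz w).add h2
      have e1 : fderiv ℝ (fun y => (1 / 2 : ℂ) *
          (fderiv ℝ F y w + Complex.I * fderiv ℝ F y (Complex.I • w))) x = (1 / 2 : ℂ) •
          fderiv ℝ (fun y => fderiv ℝ F y w + Complex.I * fderiv ℝ F y (Complex.I • w)) x :=
        fderiv_const_mul h3 _
      have e2 : fderiv ℝ (fun y => Complex.I * fderiv ℝ F y (Complex.I • w)) x =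
          Complex.I • fderiv ℝ (fun y => fderiv ℝ F y (Complex.I • w)) x :=
        fderiv_const_mul (hdz _) _
      rw [h1, e1, fderiv_fun_add (hdz w) h2, e2]
      simp only [_root_.add_apply, _root_.smul_apply, smul_eq_mul, hap]
      ring
    rw [G14a_D, e, e]
    ring
  have hs : IsSymmSndFDerivAt ℝ F x := hF.contDiffAt.isSymmSndFDerivAt (by simp)
  rw [key, key, hs.eq v w, hs.eq v (Complex.I • w), hs.eq (Complex.I • v) w,
    hs.eq (Complex.I • v) (Complex.I • w)]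
  ring

theorem G14a_Dsmooth {F : ℂ × ℂ → ℂ} (hF : ContDiff ℝ 2 F) (v : ℂ × ℂ) :
    ContDiff ℝ 1 (fun y => G14a_D v F y) := by
  have hF1 : ContDiff ℝ 1 (fderiv ℝ F) := hF.fderiv_right (by norm_num)
  unfold G14a_D
  have h1 : ∀ z : ℂ × ℂ, ContDiff ℝ 1 (fun y => fderiv ℝ F y z) := fun z =>
    hF1.clm_apply contDiff_const
  exact ((h1 v).add (contDiff_const.mul (h1 _))).div_const _

/-- the conjugate coordinates -/
theorem G14a_conj1 (p v x : ℂ × ℂ) :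
    G14a_D v (fun y => (starRingEnd ℂ) (y.1 - p.1)) x = (starRingEnd ℂ) v.1 := by
  have h : HasFDerivAt (fun y : ℂ × ℂ => (starRingEnd ℂ) (y.1 - p.1))
      ((Complex.conjCLE : ℂ →L[ℝ] ℂ).comp (ContinuousLinearMap.fst ℝ ℂ ℂ)) x := by
    have h1 : HasFDerivAt (fun y : ℂ × ℂ => y.1 - p.1) (ContinuousLinearMap.fst ℝ ℂ ℂ) x :=
      hasFDerivAt_fst.sub_const _
    exact (Complex.conjCLE : ℂ →L[ℝ] ℂ).hasFDerivAt.comp x h1
  unfold G14a_D
  rw [h.fderiv]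
  simp
  linear_combination (-(starRingEnd ℂ) v.1 / 2) * Complex.I_mul_I

theorem G14a_conj2 (p v x : ℂ × ℂ) :
    G14a_D v (fun y => (starRingEnd ℂ) (y.2 - p.2)) x = (starRingEnd ℂ) v.2 := by
  have h : HasFDerivAt (fun y : ℂ × ℂ => (starRingEnd ℂ) (y.2 - p.2))
      ((Complex.conjCLE : ℂ →L[ℝ] ℂ).comp (ContinuousLinearMap.snd ℝ ℂ ℂ)) x := by
    have h1 : HasFDerivAt (fun y : ℂ × ℂ => y.2 - p.2) (ContinuousLinearMap.snd ℝ ℂ ℂ) x :=
      hasFDerivAt_snd.sub_const _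
    exact (Complex.conjCLE : ℂ →L[ℝ] ℂ).hasFDerivAt.comp x h1
  unfold G14a_D
  rw [h.fderiv]
  simp
  linear_combination (-(starRingEnd ℂ) v.2 / 2) * Complex.I_mul_I

/-- the conjugate of the first coordinate -/
noncomputable def G14a_A (p x : ℂ × ℂ) : ℂ := (starRingEnd ℂ) (x.1 - p.1)

/-- the conjugate of the second coordinate -/
noncomputable def G14a_B (p x : ℂ × ℂ) : ℂ := (starRingEnd ℂ) (x.2 - p.2)

/-- the square of the norm -/
noncomputable def G14a_N (p x : ℂ × ℂ) : ℂ :=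
  (x.1 - p.1) * G14a_A p x + (x.2 - p.2) * G14a_B p x

theorem G14a_A_smooth (p : ℂ × ℂ) : ContDiff ℝ 2 (G14a_A p) := by
  unfold G14a_A
  exact (Complex.conjCLE : ℂ →L[ℝ] ℂ).contDiff.comp (contDiff_fst.sub contDiff_const)

theorem G14a_B_smooth (p : ℂ × ℂ) : ContDiff ℝ 2 (G14a_B p) := by
  unfold G14a_B
  exact (Complex.conjCLE : ℂ →L[ℝ] ℂ).contDiff.comp (contDiff_snd.sub contDiff_const)

theorem G14a_N_smooth (p : ℂ × ℂ) : ContDiff ℝ 2 (G14a_N p) := by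
  unfold G14a_N
  exact ((contDiff_fst.sub contDiff_const).mul (G14a_A_smooth p)).add
    ((contDiff_snd.sub contDiff_const).mul (G14a_B_smooth p))

theorem G14a_N_ne {p x : ℂ × ℂ} (h : x ≠ p) : G14a_N p x ≠ 0 := by
  unfold G14a_N G14a_A G14a_B
  rw [Complex.mul_conj, Complex.mul_conj]
  intro h0
  have h1 : Complex.normSq (x.1 - p.1) + Complex.normSq (x.2 - p.2) = 0 := by exact_mod_cast h0
  have h2 := Complex.normSq_nonneg (x.1 - p.1)
  have h3 := Complex.normSq_nonneg (x.2 - p.2)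
  have h4 : Complex.normSq (x.1 - p.1) = 0 := by linarith
  have h5 : Complex.normSq (x.2 - p.2) = 0 := by linarith
  apply h
  ext1
  · exact sub_eq_zero.1 (Complex.normSq_eq_zero.1 h4)
  · exact sub_eq_zero.1 (Complex.normSq_eq_zero.1 h5)

theorem G14a_dA (p v x : ℂ × ℂ) : G14a_D v (G14a_A p) x = (starRingEnd ℂ) v.1 := G14a_conj1 p v x

theorem G14a_dB (p v x : ℂ × ℂ) : G14a_D v (G14a_B p) x = (starRingEnd ℂ) v.2 := G14a_conj2 p v x

theorem G14a_dN (p v x : ℂ × ℂ) : G14a_D v (G14a_N p) x =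
    (x.1 - p.1) * (starRingEnd ℂ) v.1 + (x.2 - p.2) * (starRingEnd ℂ) v.2 := by
  have hA : DifferentiableAt ℝ (G14a_A p) x :=
    ((G14a_A_smooth p).differentiable (by norm_num)).differentiableAt
  have hB : DifferentiableAt ℝ (G14a_B p) x :=
    ((G14a_B_smooth p).differentiable (by norm_num)).differentiableAt
  have ha : DifferentiableAt ℂ (fun y : ℂ × ℂ => y.1 - p.1) x := by fun_prop
  have hb : DifferentiableAt ℂ (fun y : ℂ × ℂ => y.2 - p.2) x := by fun_prop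
  have ha' : DifferentiableAt ℝ (fun y : ℂ × ℂ => y.1 - p.1) x := ha.restrictScalars ℝ
  have hb' : DifferentiableAt ℝ (fun y : ℂ × ℂ => y.2 - p.2) x := hb.restrictScalars ℝ
  unfold G14a_N
  rw [G14a_add (u := fun y => (y.1 - p.1) * G14a_A p y) (w := fun y => (y.2 - p.2) * G14a_B p y)
    (ha'.mul hA) (hb'.mul hB), G14a_mul (u := fun y : ℂ × ℂ => y.1 - p.1) (w := G14a_A p) ha' hA,
    G14a_mul (u := fun y : ℂ × ℂ => y.2 - p.2) (w := G14a_B p) hb' hB, G14a_holo ha, G14a_holo hb,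
    G14a_dA, G14a_dB]
  ring

/-- the derivatives of `A / N`, `B / N`, `A / N²`, `B / N²` -/
theorem G14a_quot {p x : ℂ × ℂ} (h : x ≠ p) (v : ℂ × ℂ) {u : ℂ × ℂ → ℂ}
    (hu : DifferentiableAt ℝ u x) : G14a_D v (fun y => u y * (G14a_N p y)⁻¹) x =
      G14a_D v u x * (G14a_N p x)⁻¹ - u x * G14a_D v (G14a_N p) x * ((G14a_N p x)⁻¹) ^ 2 := by
  have hN : DifferentiableAt ℝ (G14a_N p) x :=
    ((G14a_N_smooth p).differentiable (by norm_num)).differentiableAt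
  have h0 := G14a_N_ne h
  have hNi : DifferentiableAt ℝ (fun y => (G14a_N p y)⁻¹) x := hN.inv h0
  rw [G14a_mul (u := u) (w := fun y => (G14a_N p y)⁻¹) hu hNi, G14a_inv hN h0]
  field_simp
  ring

/-- `conj a / N` -/
noncomputable def G14a_l1 (p x : ℂ × ℂ) : ℂ := G14a_A p x * (G14a_N p x)⁻¹

/-- `conj b / N` -/
noncomputable def G14a_l2 (p x : ℂ × ℂ) : ℂ := G14a_B p x * (G14a_N p x)⁻¹

/-- `- conj b / N²` -/
noncomputable def G14a_k1 (p x : ℂ × ℂ) : ℂ := (- G14a_l2 p x) * (G14a_N p x)⁻¹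

/-- `conj a / N²` -/
noncomputable def G14a_k2 (p x : ℂ × ℂ) : ℂ := G14a_l1 p x * (G14a_N p x)⁻¹

theorem G14a_Ni_smooth {p x : ℂ × ℂ} (h : x ≠ p) : ContDiffAt ℝ 2 (fun y => (G14a_N p y)⁻¹) x :=
  (G14a_N_smooth p).contDiffAt.inv (G14a_N_ne h)

theorem G14a_l1_smooth {p x : ℂ × ℂ} (h : x ≠ p) : ContDiffAt ℝ 2 (G14a_l1 p) x :=
  (G14a_A_smooth p).contDiffAt.mul (G14a_Ni_smooth h)

theorem G14a_l2_smooth {p x : ℂ × ℂ} (h : x ≠ p) : ContDiffAt ℝ 2 (G14a_l2 p) x :=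
  (G14a_B_smooth p).contDiffAt.mul (G14a_Ni_smooth h)

theorem G14a_k1_smooth {p x : ℂ × ℂ} (h : x ≠ p) : ContDiffAt ℝ 2 (G14a_k1 p) x :=
  (G14a_l2_smooth h).neg.mul (G14a_Ni_smooth h)

theorem G14a_k2_smooth {p x : ℂ × ℂ} (h : x ≠ p) : ContDiffAt ℝ 2 (G14a_k2 p) x :=
  (G14a_l1_smooth h).mul (G14a_Ni_smooth h)

theorem G14a_diff {u : ℂ × ℂ → ℂ} {x : ℂ × ℂ} (h : ContDiffAt ℝ 2 u x) : DifferentiableAt ℝ u x :=
  h.differentiableAt (by norm_num)

theorem G14a_dl1 {p x : ℂ × ℂ} (h : x ≠ p) (v : ℂ × ℂ) : G14a_D v (G14a_l1 p) x =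
    (starRingEnd ℂ) v.1 * (G14a_N p x)⁻¹ - G14a_A p x * ((x.1 - p.1) * (starRingEnd ℂ) v.1 +
      (x.2 - p.2) * (starRingEnd ℂ) v.2) * ((G14a_N p x)⁻¹) ^ 2 := by
  have := G14a_quot h v (G14a_diff (G14a_A_smooth p).contDiffAt)
  rw [G14a_dA, G14a_dN] at this
  exact this

theorem G14a_dl2 {p x : ℂ × ℂ} (h : x ≠ p) (v : ℂ × ℂ) : G14a_D v (G14a_l2 p) x =
    (starRingEnd ℂ) v.2 * (G14a_N p x)⁻¹ - G14a_B p x * ((x.1 - p.1) * (starRingEnd ℂ) v.1 +
      (x.2 - p.2) * (starRingEnd ℂ) v.2) * ((G14a_N p x)⁻¹) ^ 2 := by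
  have := G14a_quot h v (G14a_diff (G14a_B_smooth p).contDiffAt)
  rw [G14a_dB, G14a_dN] at this
  exact this

theorem G14a_dk2 {p x : ℂ × ℂ} (h : x ≠ p) (v : ℂ × ℂ) : G14a_D v (G14a_k2 p) x =
    G14a_D v (G14a_l1 p) x * (G14a_N p x)⁻¹ - G14a_l1 p x * ((x.1 - p.1) * (starRingEnd ℂ) v.1 +
      (x.2 - p.2) * (starRingEnd ℂ) v.2) * ((G14a_N p x)⁻¹) ^ 2 := by
  have := G14a_quot h v (G14a_diff (G14a_l1_smooth h))
  rw [G14a_dN] at this
  exact this

theorem G14a_dk1 {p x : ℂ × ℂ} (h : x ≠ p) (v : ℂ × ℂ) : G14a_D v (G14a_k1 p) x =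
    - G14a_D v (G14a_l2 p) x * (G14a_N p x)⁻¹ + G14a_l2 p x * ((x.1 - p.1) * (starRingEnd ℂ) v.1 +
      (x.2 - p.2) * (starRingEnd ℂ) v.2) * ((G14a_N p x)⁻¹) ^ 2 := by
  have h1 : G14a_D v (fun y => - G14a_l2 p y) x = - G14a_D v (G14a_l2 p) x := by
    have h2 : (fun y => - G14a_l2 p y) = fun y => 0 - G14a_l2 p y := by
      funext y; ring
    rw [h2, G14a_sub (differentiableAt_const _) (G14a_diff (G14a_l2_smooth h)), G14a_const]
    ring
  have := G14a_quot h v (G14a_diff (G14a_l2_smooth h)).neg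
  rw [G14a_dN] at this
  have h3 : (fun y => (-G14a_l2 p) y * (G14a_N p y)⁻¹) = G14a_k1 p := rfl
  have h4 : G14a_D v (-G14a_l2 p) x = - G14a_D v (G14a_l2 p) x := h1
  rw [h3, h4] at this
  rw [this, Pi.neg_apply]
  ring

theorem G14a_one {p x : ℂ × ℂ} (h : x ≠ p) :
    (x.1 - p.1) * G14a_l1 p x + (x.2 - p.2) * G14a_l2 p x = 1 := by
  have h0 := G14a_N_ne h
  have e : (x.1 - p.1) * G14a_l1 p x + (x.2 - p.2) * G14a_l2 p x =
      ((x.1 - p.1) * G14a_A p x + (x.2 - p.2) * G14a_B p x) * (G14a_N p x)⁻¹ := by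
    unfold G14a_l1 G14a_l2
    ring
  rw [e, ← G14a_N, mul_inv_cancel₀ h0]

theorem G14a_11 {p x : ℂ × ℂ} (h : x ≠ p) :
    G14a_D (1, 0) (G14a_l1 p) x = - (x.2 - p.2) * G14a_k1 p x := by
  have h0 := G14a_N_ne h
  rw [G14a_dl1 h]
  unfold G14a_k1 G14a_l2
  field_simp
  simp only [map_one, map_zero]
  unfold G14a_N
  ring

theorem G14a_12 {p x : ℂ × ℂ} (h : x ≠ p) :
    G14a_D (0, 1) (G14a_l1 p) x = - (x.2 - p.2) * G14a_k2 p x := by
  have h0 := G14a_N_ne h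
  rw [G14a_dl1 h]
  unfold G14a_k2 G14a_l1
  field_simp
  simp only [map_one, map_zero]
  ring

theorem G14a_21 {p x : ℂ × ℂ} (h : x ≠ p) :
    G14a_D (1, 0) (G14a_l2 p) x = (x.1 - p.1) * G14a_k1 p x := by
  have h0 := G14a_N_ne h
  rw [G14a_dl2 h]
  unfold G14a_k1 G14a_l2
  field_simp
  simp only [map_one, map_zero]
  ring

theorem G14a_22 {p x : ℂ × ℂ} (h : x ≠ p) :
    G14a_D (0, 1) (G14a_l2 p) x = (x.1 - p.1) * G14a_k2 p x := by
  have h0 := G14a_N_ne h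
  rw [G14a_dl2 h]
  unfold G14a_k2 G14a_l1
  field_simp
  simp only [map_one, map_zero]
  unfold G14a_N
  ring

theorem G14a_cl {p x : ℂ × ℂ} (h : x ≠ p) :
    G14a_D (1, 0) (G14a_k2 p) x = G14a_D (0, 1) (G14a_k1 p) x := by
  have h0 := G14a_N_ne h
  rw [G14a_dk2 h, G14a_dk1 h, G14a_dl1 h, G14a_dl2 h]
  unfold G14a_l1 G14a_l2
  field_simp
  simp only [map_one, map_zero]
  unfold G14a_N
  ring

theorem G14a_bump (p : ℂ × ℂ) {r : ℝ} (hr : 0 < r) : ∃ F : ℂ × ℂ → ℂ, ContDiff ℝ 2 F ∧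
    F =ᶠ[𝓝 p] (fun _ => 1) ∧ ∀ x, x ∉ ball p r → F =ᶠ[𝓝 x] fun _ => 0 := by
  let φ : ContDiffBump p := ⟨r / 2, 3 * r / 4, by linarith, by linarith⟩
  refine ⟨fun x => ((φ x : ℝ) : ℂ), ?_, ?_, ?_⟩
  · have h1 : ContDiff ℝ 2 φ := φ.contDiff
    exact Complex.ofRealCLM.contDiff.comp h1
  · filter_upwards [φ.eventuallyEq_one] with y hy
    rw [hy]
    simp
  · intro x hx
    have h1 : x ∉ tsupport φ := by
      rw [φ.tsupport_eq]
      intro h2
      apply hx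
      have h3 : dist x p ≤ 3 * r / 4 := h2
      rw [mem_ball]
      linarith
    filter_upwards [notMem_tsupport_iff_eventuallyEq.1 h1] with y hy
    rw [hy]
    simp

theorem G14a_ext {n : WithTop ℕ∞} {ψ q : ℂ × ℂ → ℂ} {p : ℂ × ℂ} (hψ : ContDiff ℝ n ψ)
    (h0 : ψ =ᶠ[𝓝 p] fun _ => 0) (hq : ∀ x, x ≠ p → ContDiffAt ℝ n q x) :
    ContDiff ℝ n (fun x => ψ x * q x) := by
  rw [contDiff_iff_contDiffAt]
  intro x
  rcases eq_or_ne x p with rfl | hx
  · have h1 : (fun x => ψ x * q x) =ᶠ[𝓝 x] fun _ => 0 := by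
      filter_upwards [h0] with y hy
      rw [hy, zero_mul]
    exact contDiffAt_const.congr_of_eventuallyEq h1
  · exact hψ.contDiffAt.mul (hq x hx)

theorem G14a_zero_at {v : ℂ × ℂ} {ψ q : ℂ × ℂ → ℂ} {p : ℂ × ℂ} (h0 : ψ =ᶠ[𝓝 p] fun _ => 0) :
    G14a_D v (fun x => ψ x * q x) p = 0 := by
  have h1 : (fun x => ψ x * q x) =ᶠ[𝓝 p] fun _ => 0 := by
    filter_upwards [h0] with y hy
    rw [hy, zero_mul]
  rw [G14a_congr h1, G14a_const]

/-- products of holomorphic functions on `D ∩ S` and `C¹` functions supported in `S` -/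
theorem G14a_prod {D S : Set (ℂ × ℂ)} (hD : IsOpen D) (hS : IsOpen S) {g β : ℂ × ℂ → ℂ} {M : ℝ}
    (hM : 0 ≤ M) (hg : HBd (D ∩ S) M g) (hβ : ContDiff ℝ 1 β)
    (h0 : ∀ x, x ∉ S → β =ᶠ[𝓝 x] fun _ => 0) :
    ContDiffOn ℝ 1 (fun x => g x * β x) D ∧
      (∀ v, ∀ x ∈ D, G14a_D v (fun x => g x * β x) x = g x * G14a_D v β x) ∧
      (∀ c, (∀ x ∈ D, ‖β x‖ ≤ c) → ∀ x ∈ D, ‖g x * β x‖ ≤ M * c) := by
  have hz : ∀ x, x ∉ S → (fun x => g x * β x) =ᶠ[𝓝 x] fun _ => 0 := by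
    intro x hx
    filter_upwards [h0 x hx] with y hy
    rw [hy, mul_zero]
  have hgs : ContDiffOn ℂ 1 g (D ∩ S) :=
    Pool.Agent.Helper540.contDiffOn_of_differentiableOn (hD.inter hS) hg.1 1
  refine ⟨?_, ?_, ?_⟩
  · intro x hx
    apply ContDiffAt.contDiffWithinAt
    by_cases hxS : x ∈ S
    · have h1 : ContDiffAt ℂ 1 g x := hgs.contDiffAt ((hD.inter hS).mem_nhds ⟨hx, hxS⟩)
      exact (h1.restrict_scalars ℝ).mul hβ.contDiffAt
    · exact contDiffAt_const.congr_of_eventuallyEq (hz x hxS)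
  · intro v x hx
    by_cases hxS : x ∈ S
    · have h1 : DifferentiableAt ℂ g x := hg.1.differentiableAt ((hD.inter hS).mem_nhds ⟨hx, hxS⟩)
      rw [G14a_mul (h1.restrictScalars ℝ) ((hβ.differentiable (by norm_num)).differentiableAt),
        G14a_holo h1, zero_mul, zero_add]
    · rw [G14a_congr (hz x hxS), G14a_congr (h0 x hxS), G14a_const, mul_zero]
  · intro c hc x hx
    have hc0 : 0 ≤ c := (norm_nonneg _).trans (hc x hx)
    by_cases hxS : x ∈ S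
    · rw [norm_mul]
      exact mul_le_mul (hg.2 x ⟨hx, hxS⟩) (hc x hx) (norm_nonneg _) hM
    · have h1 : g x * β x = 0 := (hz x hxS).self_of_nhds
      rw [h1, norm_zero]
      positivity

theorem G14a_bdd {D : Set (ℂ × ℂ)} (hb : Bornology.IsBounded D) {f : ℂ × ℂ → ℂ}
    (hf : Continuous f) : ∃ c : ℝ, ∀ x ∈ D, ‖f x‖ ≤ c := by
  obtain ⟨R, hR⟩ := hb.subset_closedBall 0
  obtain ⟨c, hc⟩ := (isCompact_closedBall (0 : ℂ × ℂ) R).exists_bound_of_continuousOn hf.continuousOn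
  exact ⟨c, fun x hx => hc x (hR hx)⟩

theorem G14a_bdd_list {D : Set (ℂ × ℂ)} (hb : Bornology.IsBounded D)
    (l : List (ℂ × ℂ → ℂ)) (hl : ∀ f ∈ l, Continuous f) :
    ∃ c : ℝ, 0 ≤ c ∧ ∀ f ∈ l, ∀ x ∈ D, ‖f x‖ ≤ c := by
  induction l with
  | nil => exact ⟨0, le_rfl, by simp⟩
  | cons f l ih =>
    obtain ⟨c, hc0, hc⟩ := ih (fun f hf => hl f (List.mem_cons_of_mem _ hf))
    obtain ⟨c', hc'⟩ := G14a_bdd hb (hl f List.mem_cons_self)
    refine ⟨max c c', le_max_of_le_left hc0, ?_⟩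
    intro h hh x hx
    rcases List.mem_cons.1 hh with rfl | hh
    · exact (hc' x hx).trans (le_max_right _ _)
    · exact (hc h hh x hx).trans (le_max_left _ _)

/-- the data of one direction -/
structure G14a_Dir (p v : ℂ × ℂ) (k : ℂ × ℂ → ℂ) : Prop where
  sm : ∀ x, x ≠ p → ContDiffAt ℝ 2 k x
  e1 : ∀ x, x ≠ p → G14a_D v (G14a_l1 p) x = - (x.2 - p.2) * k x
  e2 : ∀ x, x ≠ p → G14a_D v (G14a_l2 p) x = (x.1 - p.1) * k x

theorem G14a_dir1 (p : ℂ × ℂ) : G14a_Dir p (1, 0) (G14a_k1 p) :=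
  ⟨fun _ h => G14a_k1_smooth h, fun _ h => G14a_11 h, fun _ h => G14a_21 h⟩

theorem G14a_dir2 (p : ℂ × ℂ) : G14a_Dir p (0, 1) (G14a_k2 p) :=
  ⟨fun _ h => G14a_k2_smooth h, fun _ h => G14a_12 h, fun _ h => G14a_22 h⟩

/-- the coefficient of the form -/
noncomputable def G14a_K (p v : ℂ × ℂ) (F k g g1 g2 : ℂ × ℂ → ℂ) (x : ℂ × ℂ) : ℂ :=
  g x * ((1 - F x) * k x) + (g2 x * (G14a_D v F x * G14a_l1 p x) -
    g1 x * (G14a_D v F x * G14a_l2 p x))

theorem G14a_one_sub {p : ℂ × ℂ} {F : ℂ × ℂ → ℂ} (h : F =ᶠ[𝓝 p] (fun _ => 1)) :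
    (fun x => 1 - F x) =ᶠ[𝓝 p] fun _ => 0 := by
  filter_upwards [h] with y hy
  rw [hy, sub_self]

theorem G14a_D_one {p v : ℂ × ℂ} {F : ℂ × ℂ → ℂ} (h : F =ᶠ[𝓝 p] (fun _ => 1)) :
    (fun x => G14a_D v F x) =ᶠ[𝓝 p] fun _ => 0 := by
  filter_upwards [h.eventuallyEq_nhds] with y hy
  rw [G14a_congr hy, G14a_const]

theorem G14a_D_zero {x v : ℂ × ℂ} {F : ℂ × ℂ → ℂ} (h : F =ᶠ[𝓝 x] (fun _ => 0)) :
    (fun x => G14a_D v F x) =ᶠ[𝓝 x] fun _ => 0 := by
  filter_upwards [h.eventuallyEq_nhds] with y hy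
  rw [G14a_congr hy, G14a_const]

theorem G14a_D_sub1 {v x : ℂ × ℂ} {F : ℂ × ℂ → ℂ} (hF : DifferentiableAt ℝ F x) :
    G14a_D v (fun x => 1 - F x) x = - G14a_D v F x := by
  rw [G14a_sub (differentiableAt_const _) hF, G14a_const, zero_sub]

/-- the relations in one direction -/
theorem G14a_dirs {D : Set (ℂ × ℂ)} (hD : IsOpen D) {p : ℂ × ℂ} {r : ℝ} {F : ℂ × ℂ → ℂ}
    (hF : ContDiff ℝ 2 F) (hF1 : F =ᶠ[𝓝 p] (fun _ => 1))
    (hF0 : ∀ x, x ∉ ball p r → F =ᶠ[𝓝 x] fun _ => 0) {v : ℂ × ℂ} {k : ℂ × ℂ → ℂ}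
    (hk : G14a_Dir p v k) {g g1 g2 : ℂ × ℂ → ℂ} {M : ℝ} (hM : 0 ≤ M) (hg : HBd D M g)
    (hg1 : HBd (D ∩ ball p r) M g1) (hg2 : HBd (D ∩ ball p r) M g2)
    (hrel : ∀ x ∈ D ∩ ball p r, g x = (x.1 - p.1) * g1 x + (x.2 - p.2) * g2 x) :
    ContDiffOn ℝ 1 (G14a_K p v F k g g1 g2) D ∧
      (∀ w, ∀ x ∈ D, G14a_D w (G14a_K p v F k g g1 g2) x =
        g x * G14a_D w (fun x => (1 - F x) * k x) x +
          (g2 x * G14a_D w (fun x => G14a_D v F x * G14a_l1 p x) x -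
            g1 x * G14a_D w (fun x => G14a_D v F x * G14a_l2 p x) x)) ∧
      (∀ c, (∀ x ∈ D, ‖(1 - F x) * k x‖ ≤ c) → (∀ x ∈ D, ‖G14a_D v F x * G14a_l1 p x‖ ≤ c) →
        (∀ x ∈ D, ‖G14a_D v F x * G14a_l2 p x‖ ≤ c) → ∀ x ∈ D,
          ‖G14a_K p v F k g g1 g2 x‖ ≤ 3 * c * M) ∧
      (∀ x ∈ D, G14a_D v (fun x => g1 x * F x + g x * ((1 - F x) * G14a_l1 p x)) x =
        - (x.2 - p.2) * G14a_K p v F k g g1 g2 x) ∧
      (∀ x ∈ D, G14a_D v (fun x => g2 x * F x + g x * ((1 - F x) * G14a_l2 p x)) x =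
        (x.1 - p.1) * G14a_K p v F k g g1 g2 x) := by
  have h1F : ContDiff ℝ 2 (fun x => 1 - F x) := contDiff_const.sub hF
  have h1F0 := G14a_one_sub hF1
  have hE : ContDiff ℝ 1 (fun x => G14a_D v F x) := G14a_Dsmooth hF v
  have hE0 : (fun x => G14a_D v F x) =ᶠ[𝓝 p] fun _ => 0 := G14a_D_one hF1
  have c1 : ContDiff ℝ 1 (fun x => (1 - F x) * k x) :=
    (G14a_ext h1F h1F0 hk.sm).of_le (by norm_num)
  have c2 : ContDiff ℝ 1 (fun x => G14a_D v F x * G14a_l1 p x) :=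
    G14a_ext hE hE0 (fun x hx => (G14a_l1_smooth hx).of_le (by norm_num))
  have c3 : ContDiff ℝ 1 (fun x => G14a_D v F x * G14a_l2 p x) :=
    G14a_ext hE hE0 (fun x hx => (G14a_l2_smooth hx).of_le (by norm_num))
  have c4 : ContDiff ℝ 1 (fun x => (1 - F x) * G14a_l1 p x) :=
    (G14a_ext h1F h1F0 (fun x hx => G14a_l1_smooth hx)).of_le (by norm_num)
  have c5 : ContDiff ℝ 1 (fun x => (1 - F x) * G14a_l2 p x) :=
    (G14a_ext h1F h1F0 (fun x hx => G14a_l2_smooth hx)).of_le (by norm_num)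
  have hF' : ContDiff ℝ 1 F := hF.of_le (by norm_num)
  have hg' : HBd (D ∩ univ) M g := by rwa [inter_univ]
  have z2 : ∀ x, x ∉ ball p r → (fun x => G14a_D v F x * G14a_l1 p x) =ᶠ[𝓝 x] fun _ => 0 := by
    intro x hx
    filter_upwards [G14a_D_zero (v := v) (hF0 x hx)] with y hy
    rw [hy, zero_mul]
  have z3 : ∀ x, x ∉ ball p r → (fun x => G14a_D v F x * G14a_l2 p x) =ᶠ[𝓝 x] fun _ => 0 := by
    intro x hx
    filter_upwards [G14a_D_zero (v := v) (hF0 x hx)] with y hy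
    rw [hy, zero_mul]
  obtain ⟨a1, b1, d1⟩ := G14a_prod hD isOpen_univ hM hg' c1 (fun x hx => absurd (mem_univ x) hx)
  obtain ⟨a2, b2, d2⟩ := G14a_prod hD isOpen_ball hM hg2 c2 z2
  obtain ⟨a3, b3, d3⟩ := G14a_prod hD isOpen_ball hM hg1 c3 z3
  obtain ⟨a4, b4, -⟩ := G14a_prod hD isOpen_univ hM hg' c4 (fun x hx => absurd (mem_univ x) hx)
  obtain ⟨a5, b5, -⟩ := G14a_prod hD isOpen_univ hM hg' c5 (fun x hx => absurd (mem_univ x) hx)
  obtain ⟨a6, b6, -⟩ := G14a_prod hD isOpen_ball hM hg1 hF' hF0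
  obtain ⟨a7, b7, -⟩ := G14a_prod hD isOpen_ball hM hg2 hF' hF0
  have dif : ∀ {u : ℂ × ℂ → ℂ}, ContDiffOn ℝ 1 u D → ∀ x ∈ D, DifferentiableAt ℝ u x :=
    fun hu x hx => (hu.contDiffAt (hD.mem_nhds hx)).differentiableAt (by norm_num)
  have hd4 : ∀ x, x ≠ p → G14a_D v (fun x => (1 - F x) * G14a_l1 p x) x =
      - G14a_D v F x * G14a_l1 p x + (1 - F x) * (- (x.2 - p.2) * k x) := by
    intro x hx
    rw [G14a_mul (u := fun x => 1 - F x) (w := G14a_l1 p)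
      ((h1F.differentiable (by norm_num)).differentiableAt) (G14a_diff (G14a_l1_smooth hx)),
      G14a_D_sub1 ((hF.differentiable (by norm_num)).differentiableAt), hk.e1 x hx]
  have hd5 : ∀ x, x ≠ p → G14a_D v (fun x => (1 - F x) * G14a_l2 p x) x =
      - G14a_D v F x * G14a_l2 p x + (1 - F x) * ((x.1 - p.1) * k x) := by
    intro x hx
    rw [G14a_mul (u := fun x => 1 - F x) (w := G14a_l2 p)
      ((h1F.differentiable (by norm_num)).differentiableAt) (G14a_diff (G14a_l2_smooth hx)),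
      G14a_D_sub1 ((hF.differentiable (by norm_num)).differentiableAt), hk.e2 x hx]
  have hEp : G14a_D v F p = 0 := hE0.self_of_nhds
  have hor : ∀ x ∈ D, G14a_D v F x = 0 ∨ g x = (x.1 - p.1) * g1 x + (x.2 - p.2) * g2 x := by
    intro x hx
    by_cases hxS : x ∈ ball p r
    · exact Or.inr (hrel x ⟨hx, hxS⟩)
    · exact Or.inl (G14a_D_zero (v := v) (hF0 x hxS)).self_of_nhds
  refine ⟨a1.add (a2.sub a3), ?_, ?_, ?_, ?_⟩
  · intro w x hx
    unfold G14a_K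
    have hs : DifferentiableAt ℝ (fun x => g2 x * (G14a_D v F x * G14a_l1 p x) -
        g1 x * (G14a_D v F x * G14a_l2 p x)) x := (dif a2 x hx).sub (dif a3 x hx)
    rw [G14a_add (dif a1 x hx) hs,
      G14a_sub (dif a2 x hx) (dif a3 x hx), b1 w x hx, b2 w x hx, b3 w x hx]
  · intro c e1 e2 e3 x hx
    unfold G14a_K
    calc _ ≤ ‖g x * ((1 - F x) * k x)‖ + ‖g2 x * (G14a_D v F x * G14a_l1 p x) -
          g1 x * (G14a_D v F x * G14a_l2 p x)‖ := norm_add_le _ _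
      _ ≤ ‖g x * ((1 - F x) * k x)‖ + (‖g2 x * (G14a_D v F x * G14a_l1 p x)‖ +
          ‖g1 x * (G14a_D v F x * G14a_l2 p x)‖) := by
          gcongr
          exact norm_sub_le _ _
      _ ≤ M * c + (M * c + M * c) := by
          gcongr
          · exact d1 c e1 x hx
          · exact d2 c e2 x hx
          · exact d3 c e3 x hx
      _ = 3 * c * M := by ring
  · intro x hx
    rw [G14a_add (dif a6 x hx) (dif a4 x hx), b6 v x hx, b4 v x hx]
    unfold G14a_K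
    rcases eq_or_ne x p with rfl | hxp
    · rw [G14a_zero_at h1F0, hEp]
      ring
    · rw [hd4 x hxp]
      have h1 := G14a_one hxp
      rcases hor x hx with h2 | h2
      · rw [h2]
        ring
      · linear_combination (- G14a_D v F x * g1 x) * h1 - G14a_D v F x * G14a_l1 p x * h2
  · intro x hx
    rw [G14a_add (dif a7 x hx) (dif a5 x hx), b7 v x hx, b5 v x hx]
    unfold G14a_K
    rcases eq_or_ne x p with rfl | hxp
    · rw [G14a_zero_at h1F0, hEp]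
      ring
    · rw [hd5 x hxp]
      have h1 := G14a_one hxp
      rcases hor x hx with h2 | h2
      · rw [h2]
        ring
      · linear_combination (- G14a_D v F x * g2 x) * h1 - G14a_D v F x * G14a_l2 p x * h2

/-- the form is closed -/
theorem G14a_closed {D : Set (ℂ × ℂ)} {p : ℂ × ℂ} {r : ℝ} {F : ℂ × ℂ → ℂ}
    (hF : ContDiff ℝ 2 F) (hF1 : F =ᶠ[𝓝 p] (fun _ => 1))
    (hF0 : ∀ x, x ∉ ball p r → F =ᶠ[𝓝 x] fun _ => 0) {g g1 g2 : ℂ × ℂ → ℂ}
    (hrel : ∀ x ∈ D ∩ ball p r, g x = (x.1 - p.1) * g1 x + (x.2 - p.2) * g2 x) {x : ℂ × ℂ}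
    (hx : x ∈ D) :
    g x * G14a_D (1, 0) (fun x => (1 - F x) * G14a_k2 p x) x +
      (g2 x * G14a_D (1, 0) (fun x => G14a_D (0, 1) F x * G14a_l1 p x) x -
        g1 x * G14a_D (1, 0) (fun x => G14a_D (0, 1) F x * G14a_l2 p x) x) =
    g x * G14a_D (0, 1) (fun x => (1 - F x) * G14a_k1 p x) x +
      (g2 x * G14a_D (0, 1) (fun x => G14a_D (1, 0) F x * G14a_l1 p x) x -
        g1 x * G14a_D (0, 1) (fun x => G14a_D (1, 0) F x * G14a_l2 p x) x) := by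
  have h1F0 := G14a_one_sub hF1
  rcases eq_or_ne x p with rfl | hxp
  · rw [G14a_zero_at h1F0, G14a_zero_at h1F0, G14a_zero_at (G14a_D_one hF1),
      G14a_zero_at (G14a_D_one hF1), G14a_zero_at (G14a_D_one hF1), G14a_zero_at (G14a_D_one hF1)]
  · have h1F : ContDiff ℝ 2 (fun x => 1 - F x) := contDiff_const.sub hF
    have hFx : DifferentiableAt ℝ F x := (hF.differentiable (by norm_num)).differentiableAt
    have h1Fx : DifferentiableAt ℝ (fun x => 1 - F x) x :=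
      (h1F.differentiable (by norm_num)).differentiableAt
    have hEx : ∀ v, DifferentiableAt ℝ (fun x => G14a_D v F x) x := fun v =>
      ((G14a_Dsmooth hF v).differentiable (by norm_num)).differentiableAt
    have hl1 := G14a_diff (G14a_l1_smooth hxp)
    have hl2 := G14a_diff (G14a_l2_smooth hxp)
    rw [G14a_mul h1Fx (G14a_diff (G14a_k2_smooth hxp)), G14a_mul h1Fx (G14a_diff (G14a_k1_smooth hxp)),
      G14a_mul (hEx _) hl1, G14a_mul (hEx _) hl2, G14a_mul (hEx _) hl1, G14a_mul (hEx _) hl2,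
      G14a_D_sub1 hFx, G14a_D_sub1 hFx, G14a_cl hxp, G14a_11 hxp, G14a_12 hxp, G14a_21 hxp,
      G14a_22 hxp, G14a_symm hF (1, 0) (0, 1)]
    by_cases hxS : x ∈ ball p r
    · have h2 := hrel x ⟨hx, hxS⟩
      linear_combination (G14a_D (0, 1) F x * G14a_k1 p x - G14a_D (1, 0) F x * G14a_k2 p x) * h2
    · have e1 : G14a_D (1, 0) F x = 0 := (G14a_D_zero (hF0 x hxS)).self_of_nhds
      have e2 : G14a_D (0, 1) F x = 0 := (G14a_D_zero (hF0 x hxS)).self_of_nhds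
      rw [e1, e2]
      ring

/-- **TARGET** -/
theorem div_lem {D : Set (ℂ × ℂ)} (hD : IsOpen D) (hb : Bornology.IsBounded D) {C₀ : ℝ} (hC₀ : 0 ≤ C₀)
    (hS : Slv D D C₀) (p : ℂ × ℂ) {r : ℝ} (hr : 0 < r) : ∃ C : ℝ, 0 ≤ C ∧ Dv D p r C := by
  obtain ⟨F, hF, hF1, hF0⟩ := G14a_bump p hr
  have h1F : ContDiff ℝ 2 (fun x => 1 - F x) := contDiff_const.sub hF
  have h1F0 := G14a_one_sub hF1
  have hE : ∀ v, ContDiff ℝ 1 (fun x => G14a_D v F x) := fun v => G14a_Dsmooth hF v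
  have hE0 : ∀ v, (fun x => G14a_D v F x) =ᶠ[𝓝 p] fun _ => 0 := fun v => G14a_D_one hF1
  obtain ⟨c, hc0, hc⟩ := G14a_bdd_list hb
    [fun x => x.1 - p.1, fun x => x.2 - p.2, F, fun x => (1 - F x) * G14a_l1 p x,
      fun x => (1 - F x) * G14a_l2 p x, fun x => (1 - F x) * G14a_k1 p x,
      fun x => (1 - F x) * G14a_k2 p x, fun x => G14a_D (1, 0) F x * G14a_l1 p x,
      fun x => G14a_D (1, 0) F x * G14a_l2 p x, fun x => G14a_D (0, 1) F x * G14a_l1 p x,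
      fun x => G14a_D (0, 1) F x * G14a_l2 p x] (by
    intro f hf
    simp only [List.mem_cons, List.not_mem_nil, or_false] at hf
    rcases hf with rfl | rfl | rfl | rfl | rfl | rfl | rfl | rfl | rfl | rfl | rfl
    · fun_prop
    · fun_prop
    · exact hF.continuous
    · exact (G14a_ext h1F h1F0 (fun x hx => G14a_l1_smooth hx)).continuous
    · exact (G14a_ext h1F h1F0 (fun x hx => G14a_l2_smooth hx)).continuous
    · exact (G14a_ext h1F h1F0 (fun x hx => G14a_k1_smooth hx)).continuous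
    · exact (G14a_ext h1F h1F0 (fun x hx => G14a_k2_smooth hx)).continuous
    · exact (G14a_ext (hE _) (hE0 _) (fun x hx => (G14a_l1_smooth hx).of_le (by norm_num))).continuous
    · exact (G14a_ext (hE _) (hE0 _) (fun x hx => (G14a_l2_smooth hx).of_le (by norm_num))).continuous
    · exact (G14a_ext (hE _) (hE0 _) (fun x hx => (G14a_l1_smooth hx).of_le (by norm_num))).continuous
    · exact (G14a_ext (hE _) (hE0 _) (fun x hx => (G14a_l2_smooth hx).of_le (by norm_num))).continuous)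
  have m1 := hc (fun x => x.1 - p.1) (by simp)
  have m2 := hc (fun x => x.2 - p.2) (by simp)
  have m3 := hc F (by simp)
  have m4 := hc (fun x => (1 - F x) * G14a_l1 p x) (by simp)
  have m5 := hc (fun x => (1 - F x) * G14a_l2 p x) (by simp)
  have m6 := hc (fun x => (1 - F x) * G14a_k1 p x) (by simp)
  have m7 := hc (fun x => (1 - F x) * G14a_k2 p x) (by simp)
  have m8 := hc (fun x => G14a_D (1, 0) F x * G14a_l1 p x) (by simp)
  have m9 := hc (fun x => G14a_D (1, 0) F x * G14a_l2 p x) (by simp)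
  have m10 := hc (fun x => G14a_D (0, 1) F x * G14a_l1 p x) (by simp)
  have m11 := hc (fun x => G14a_D (0, 1) F x * G14a_l2 p x) (by simp)
  refine ⟨2 * c + c * (C₀ * (3 * c)), by positivity, ?_⟩
  intro g g1 g2 M hM hg hg1 hg2 hrel
  obtain ⟨s1, t1, n1, x1, y1⟩ := G14a_dirs hD hF hF1 hF0 (G14a_dir1 p) hM hg hg1 hg2 hrel
  obtain ⟨s2, t2, n2, x2, y2⟩ := G14a_dirs hD hF hF1 hF0 (G14a_dir2 p) hM hg hg1 hg2 hrel
  have hFm : Fm D (3 * c * M) (G14a_K p (1, 0) F (G14a_k1 p) g g1 g2)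
      (G14a_K p (0, 1) F (G14a_k2 p) g g1 g2) := by
    refine ⟨s1, s2, ?_, n1 c m6 m8 m9, n2 c m7 m10 m11⟩
    intro x hx
    rw [G14a_db1, G14a_db2, t2 _ x hx, t1 _ x hx]
    exact G14a_closed hF hF1 hF0 hrel hx
  obtain ⟨u, hu⟩ := hS _ _ _ hFm
  have hg' : HBd (D ∩ univ) M g := by rwa [inter_univ]
  have hF' : ContDiff ℝ 1 F := hF.of_le (by norm_num)
  have c4 : ContDiff ℝ 1 (fun x => (1 - F x) * G14a_l1 p x) :=
    (G14a_ext h1F h1F0 (fun x hx => G14a_l1_smooth hx)).of_le (by norm_num)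
  have c5 : ContDiff ℝ 1 (fun x => (1 - F x) * G14a_l2 p x) :=
    (G14a_ext h1F h1F0 (fun x hx => G14a_l2_smooth hx)).of_le (by norm_num)
  obtain ⟨a4, -, d4⟩ := G14a_prod hD isOpen_univ hM hg' c4 (fun x hx => absurd (mem_univ x) hx)
  obtain ⟨a5, -, d5⟩ := G14a_prod hD isOpen_univ hM hg' c5 (fun x hx => absurd (mem_univ x) hx)
  obtain ⟨a6, -, d6⟩ := G14a_prod hD isOpen_ball hM hg1 hF' hF0
  obtain ⟨a7, -, d7⟩ := G14a_prod hD isOpen_ball hM hg2 hF' hF0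
  have dif : ∀ {u : ℂ × ℂ → ℂ}, ContDiffOn ℝ 1 u D → ∀ x ∈ D, DifferentiableAt ℝ u x :=
    fun hu x hx => (hu.contDiffAt (hD.mem_nhds hx)).differentiableAt (by norm_num)
  have hac : ContDiff ℂ 1 (fun x : ℂ × ℂ => x.1 - p.1) := contDiff_fst.sub contDiff_const
  have hbc : ContDiff ℂ 1 (fun x : ℂ × ℂ => x.2 - p.2) := contDiff_snd.sub contDiff_const
  have har : ContDiff ℝ 1 (fun x : ℂ × ℂ => x.1 - p.1) := hac.restrict_scalars ℝ
  have hbr : ContDiff ℝ 1 (fun x : ℂ × ℂ => x.2 - p.2) := hbc.restrict_scalars ℝ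
  have hax : ∀ x, DifferentiableAt ℂ (fun x : ℂ × ℂ => x.1 - p.1) x := fun x =>
    (hac.differentiable (by norm_num)).differentiableAt
  have hbx : ∀ x, DifferentiableAt ℂ (fun x : ℂ × ℂ => x.2 - p.2) x := fun x =>
    (hbc.differentiable (by norm_num)).differentiableAt
  set γ1 : ℂ × ℂ → ℂ := fun x => g1 x * F x + g x * ((1 - F x) * G14a_l1 p x) with hγ1
  set γ2 : ℂ × ℂ → ℂ := fun x => g2 x * F x + g x * ((1 - F x) * G14a_l2 p x) with hγ2
  have q1 : ContDiffOn ℝ 1 γ1 D := a6.add a4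
  have q2 : ContDiffOn ℝ 1 γ2 D := a7.add a5
  have bu : ContDiffOn ℝ 1 (fun x => (x.2 - p.2) * u x) D := hbr.contDiffOn.mul hu.u1
  have au : ContDiffOn ℝ 1 (fun x => (x.1 - p.1) * u x) D := har.contDiffOn.mul hu.u1
  have dbu : ∀ v, ∀ x ∈ D, G14a_D v (fun x => (x.2 - p.2) * u x) x =
      (x.2 - p.2) * G14a_D v u x := by
    intro v x hx
    rw [G14a_mul (u := fun x : ℂ × ℂ => x.2 - p.2) ((hbx x).restrictScalars ℝ) (dif hu.u1 x hx),
      G14a_holo (hbx x)]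
    ring
  have dau : ∀ v, ∀ x ∈ D, G14a_D v (fun x => (x.1 - p.1) * u x) x =
      (x.1 - p.1) * G14a_D v u x := by
    intro v x hx
    rw [G14a_mul (u := fun x : ℂ × ℂ => x.1 - p.1) ((hax x).restrictScalars ℝ) (dif hu.u1 x hx),
      G14a_holo (hax x)]
    ring
  have e1 : ∀ x ∈ D, G14a_D (1, 0) u x = G14a_K p (1, 0) F (G14a_k1 p) g g1 g2 x := by
    intro x hx
    rw [← G14a_db1, hu.e1 x hx]
  have e2 : ∀ x ∈ D, G14a_D (0, 1) u x = G14a_K p (0, 1) F (G14a_k2 p) g g1 g2 x := by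
    intro x hx
    rw [← G14a_db2, hu.e2 x hx]
  refine ⟨fun x => γ1 x + (x.2 - p.2) * u x, fun x => γ2 x - (x.1 - p.1) * u x, ⟨?_, ?_⟩,
    ⟨?_, ?_⟩, ?_⟩
  · apply hol_so hD (q1.add bu)
    · intro x hx
      rw [G14a_db1, G14a_add (dif q1 x hx) (dif bu x hx), x1 x hx, dbu _ x hx, e1 x hx]
      ring
    · intro x hx
      rw [G14a_db2, G14a_add (dif q1 x hx) (dif bu x hx), x2 x hx, dbu _ x hx, e2 x hx]
      ring
  · intro x hx
    calc ‖γ1 x + (x.2 - p.2) * u x‖ ≤ ‖γ1 x‖ + ‖(x.2 - p.2) * u x‖ := norm_add_le _ _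
      _ ≤ (‖g1 x * F x‖ + ‖g x * ((1 - F x) * G14a_l1 p x)‖) + ‖x.2 - p.2‖ * ‖u x‖ := by
          rw [norm_mul (x.2 - p.2)]
          gcongr
          exact norm_add_le _ _
      _ ≤ (M * c + M * c) + c * (C₀ * (3 * c * M)) := by
          gcongr
          · exact d6 c m3 x hx
          · exact d4 c m4 x hx
          · exact m2 x hx
          · exact hu.ub x hx
      _ = (2 * c + c * (C₀ * (3 * c))) * M := by ring
  · apply hol_so hD (q2.sub au)
    · intro x hx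
      rw [G14a_db1, G14a_sub (dif q2 x hx) (dif au x hx), y1 x hx, dau _ x hx, e1 x hx]
      ring
    · intro x hx
      rw [G14a_db2, G14a_sub (dif q2 x hx) (dif au x hx), y2 x hx, dau _ x hx, e2 x hx]
      ring
  · intro x hx
    calc ‖γ2 x - (x.1 - p.1) * u x‖ ≤ ‖γ2 x‖ + ‖(x.1 - p.1) * u x‖ := norm_sub_le _ _
      _ ≤ (‖g2 x * F x‖ + ‖g x * ((1 - F x) * G14a_l2 p x)‖) + ‖x.1 - p.1‖ * ‖u x‖ := by
          rw [norm_mul (x.1 - p.1)]
          gcongr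
          exact norm_add_le _ _
      _ ≤ (M * c + M * c) + c * (C₀ * (3 * c * M)) := by
          gcongr
          · exact d7 c m3 x hx
          · exact d5 c m5 x hx
          · exact m1 x hx
          · exact hu.ub x hx
      _ = (2 * c + c * (C₀ * (3 * c))) * M := by ring
  · intro x hx
    have k1 : F x * g x = F x * ((x.1 - p.1) * g1 x + (x.2 - p.2) * g2 x) := by
      by_cases hxS : x ∈ ball p r
      · rw [hrel x ⟨hx, hxS⟩]
      · rw [(hF0 x hxS).self_of_nhds]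
        ring
    have k3 : 1 - F p = 0 := h1F0.self_of_nhds
    have k2 : (1 - F x) * ((x.1 - p.1) * G14a_l1 p x + (x.2 - p.2) * G14a_l2 p x) = 1 - F x := by
      rcases eq_or_ne x p with rfl | hxp
      · rw [k3]
        ring
      · rw [G14a_one hxp, mul_one]
    simp only [hγ1, hγ2]
    linear_combination k1 - g x * k2

end Pool.Agent.P157G
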