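import Mathlib
import Pool.Agent.P157G.Clus

set_option autoImplicit false

open MeasureTheory Metric Set Filter Topology Complex

namespace Pool.Agent.P157G

open Pool.Agent.P157D (d1 d2 CR Bo)

/-- a valid generator -/
def L5_Ok {I : Type} (D : Set (ℂ × ℂ)) (p : ℂ × ℂ) (q : (I → ℂ → ℂ) × (ℂ × ℂ → ℂ)) : Prop :=
  (∀ i, DifferentiableOn ℂ (q.1 i) (ball 0 1)) ∧
    (∃ C : ℝ, ∀ i, ∀ w ∈ ball (0 : ℂ) 1, ‖q.1 i w‖ ≤ C) ∧ AnalyticAt ℂ q.2 p ∧
    (∀ᶠ x in 𝓝 p, x ∈ D → ‖q.2 x‖ < 1)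

/-- finitely many generators control `b` -/
def L5_Ap {I : Type} (D : Set (ℂ × ℂ)) (p : ℂ × ℂ) (v : (I → ℂ × ℂ → ℂ) → ℂ)
    (G b : I → ℂ × ℂ → ℂ) (η : ℝ) (T : Finset ((I → ℂ → ℂ) × (ℂ × ℂ → ℂ))) (δ s : ℝ) : Prop :=
  ∀ i, ∀ x ∈ D, x ∈ ball p s → (∀ q ∈ T, ‖q.1 i (q.2 x) - v (fun i x => q.1 i (q.2 x))‖ < δ) →
    ‖G i x - v G‖ < δ → ‖b i x - v b‖ < η

theorem L5_mono {I : Type} {D : Set (ℂ × ℂ)} {p : ℂ × ℂ} {v : (I → ℂ × ℂ → ℂ) → ℂ}
    {G b : I → ℂ × ℂ → ℂ} {η : ℝ} {T T' : Finset ((I → ℂ → ℂ) × (ℂ × ℂ → ℂ))} {δ s δ' s' : ℝ}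
    (h : L5_Ap D p v G b η T δ s) (hT : T ⊆ T') (hδ : δ' ≤ δ) (hs : s' ≤ s) :
    L5_Ap D p v G b η T' δ' s' := fun i x hx hxs h1 h2 =>
  h i x hx (ball_subset_ball hs hxs) (fun q hq => (h1 q (hT hq)).trans_le hδ) (h2.trans_le hδ)

theorem L5_hmono {D D' : Set (ℂ × ℂ)} {M M' : ℝ} {g : ℂ × ℂ → ℂ} (h : HBd D M g) (hD : D' ⊆ D)
    (hM : M ≤ M') : HBd D' M' g := ⟨h.1.mono hD, fun x hx => (h.2 x (hD hx)).trans hM⟩

theorem L5_bnr_add {I : Type} {D : Set (ℂ × ℂ)} {p : ℂ × ℂ} {b b' : I → ℂ × ℂ → ℂ}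
    (h : Bnr D p b) (h' : Bnr D p b') : Bnr D p (fun i x => b i x + b' i x) := by
  obtain ⟨r, M, hr, hM, hb⟩ := h
  obtain ⟨r', M', hr', hM', hb'⟩ := h'
  refine ⟨min r r', M + M', lt_min hr hr', add_nonneg hM hM', fun i => ?_⟩
  have h1 := L5_hmono (hb i) (D' := D ∩ ball p (min r r'))
    (inter_subset_inter_right _ (ball_subset_ball (min_le_left _ _))) le_rfl
  have h2 := L5_hmono (hb' i) (D' := D ∩ ball p (min r r'))
    (inter_subset_inter_right _ (ball_subset_ball (min_le_right _ _))) le_rfl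
  exact ⟨h1.1.add h2.1, fun x hx => (norm_add_le _ _).trans (add_le_add (h1.2 x hx) (h2.2 x hx))⟩

theorem L5_bnr_mul {I : Type} {D : Set (ℂ × ℂ)} {p : ℂ × ℂ} {b b' : I → ℂ × ℂ → ℂ}
    (h : Bnr D p b) (h' : Bnr D p b') : Bnr D p (fun i x => b i x * b' i x) := by
  obtain ⟨r, M, hr, hM, hb⟩ := h
  obtain ⟨r', M', hr', hM', hb'⟩ := h'
  refine ⟨min r r', M * M', lt_min hr hr', mul_nonneg hM hM', fun i => ?_⟩
  have h1 := L5_hmono (hb i) (D' := D ∩ ball p (min r r'))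
    (inter_subset_inter_right _ (ball_subset_ball (min_le_left _ _))) le_rfl
  have h2 := L5_hmono (hb' i) (D' := D ∩ ball p (min r r'))
    (inter_subset_inter_right _ (ball_subset_ball (min_le_right _ _))) le_rfl
  refine ⟨h1.1.mul h2.1, fun x hx => ?_⟩
  rw [norm_mul]
  exact mul_le_mul (h1.2 x hx) (h2.2 x hx) (norm_nonneg _) hM

theorem L5_bnr_const {I : Type} (D : Set (ℂ × ℂ)) (p : ℂ × ℂ) (c : ℂ) :
    Bnr D p (fun (_ : I) (_ : ℂ × ℂ) => c) :=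
  ⟨1, ‖c‖, one_pos, norm_nonneg _, fun _ => ⟨differentiableOn_const _, fun _ _ => le_rfl⟩⟩

theorem L5_bnr_comp {I : Type} {D : Set (ℂ × ℂ)} {p : ℂ × ℂ} {f : I → ℂ → ℂ} {ψ : ℂ × ℂ → ℂ}
    (hf : ∀ i, DifferentiableOn ℂ (f i) (ball 0 1))
    (hb : ∃ C : ℝ, ∀ i, ∀ w ∈ ball (0 : ℂ) 1, ‖f i w‖ ≤ C) (hψ : AnalyticAt ℂ ψ p)
    (hψ1 : ∀ᶠ x in 𝓝 p, x ∈ D → ‖ψ x‖ < 1) : Bnr D p (fun i z => f i (ψ z)) := by
  obtain ⟨C, hC⟩ := hb
  have h1 := hψ.eventually_analyticAt.and hψ1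
  obtain ⟨r, hr, hr1⟩ := Metric.eventually_nhds_iff_ball.1 h1
  refine ⟨r, max C 0, hr, le_max_right _ _, fun i => ⟨?_, ?_⟩⟩
  · intro x hx
    have h2 := hr1 x hx.2
    have h3 : ψ x ∈ ball (0 : ℂ) 1 := by
      rw [mem_ball_zero_iff]; exact h2.2 hx.1
    have h4 : DifferentiableAt ℂ (f i) (ψ x) := (hf i).differentiableAt (isOpen_ball.mem_nhds h3)
    exact (h4.comp x h2.1.differentiableAt).differentiableWithinAt
  · intro x hx
    have h2 := hr1 x hx.2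
    exact (hC i _ (by rw [mem_ball_zero_iff]; exact h2.2 hx.1)).trans (le_max_left _ _)

theorem L5_alg {I : Type} {D : Set (ℂ × ℂ)} {p : ℂ × ℂ} {v : (I → ℂ × ℂ → ℂ) → ℂ}
    (hv : Vc D p v) {G : I → ℂ × ℂ → ℂ} (hG : Bnr D p G) {b : I → ℂ × ℂ → ℂ}
    (hb : LAlg D p G b) : Bnr D p b ∧ ∀ η : ℝ, 0 < η → ∃ T : Finset ((I → ℂ → ℂ) × (ℂ × ℂ → ℂ)),
      (∀ q ∈ T, L5_Ok D p q) ∧ ∃ δ s : ℝ, 0 < δ ∧ 0 < s ∧ L5_Ap D p v G b η T δ s := by
  classical
  induction hb with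
  | gen =>
    exact ⟨hG, fun η hη => ⟨∅, by simp, η, 1, hη, one_pos, fun i x _ _ _ h => h⟩⟩
  | comp f ψ hf hb hψ hψ1 =>
    refine ⟨L5_bnr_comp hf hb hψ hψ1, fun η hη => ⟨{(f, ψ)}, ?_, η, 1, hη, one_pos, ?_⟩⟩
    · intro q hq
      rw [Finset.mem_singleton] at hq
      subst hq
      exact ⟨hf, hb, hψ, hψ1⟩
    · intro i x _ _ h _
      exact h (f, ψ) (Finset.mem_singleton_self _)
  | add g k _ _ hg hk =>
    refine ⟨L5_bnr_add hg.1 hk.1, fun η hη => ?_⟩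
    obtain ⟨T, hT, δ, s, hδ, hs, h1⟩ := hg.2 (η / 2) (by positivity)
    obtain ⟨T', hT', δ', s', hδ', hs', h2⟩ := hk.2 (η / 2) (by positivity)
    refine ⟨T ∪ T', ?_, min δ δ', min s s', lt_min hδ hδ', lt_min hs hs', ?_⟩
    · intro q hq
      rcases Finset.mem_union.1 hq with h | h
      · exact hT q h
      · exact hT' q h
    · intro i x hx hxs h3 h4
      have h5 := L5_mono h1 Finset.subset_union_left (min_le_left δ δ') (min_le_left s s')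
        i x hx hxs h3 h4
      have h6 := L5_mono h2 Finset.subset_union_right (min_le_right δ δ') (min_le_right s s')
        i x hx hxs h3 h4
      rw [hv.add _ _ hg.1 hk.1, add_sub_add_comm]
      refine (norm_add_le _ _).trans_lt ?_
      linarith
  | mul g k _ _ hg hk =>
    refine ⟨L5_bnr_mul hg.1 hk.1, fun η hη => ?_⟩
    set e := min 1 (η / (‖v g‖ + ‖v k‖ + 2)) with he
    have he0 : 0 < e := lt_min one_pos (by positivity)
    have he1 : e ≤ 1 := min_le_left _ _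
    have he2 : e * (‖v g‖ + ‖v k‖ + 2) ≤ η := by
      rw [← le_div_iff₀ (by positivity)]
      exact min_le_right _ _
    obtain ⟨T, hT, δ, s, hδ, hs, h1⟩ := hg.2 e he0
    obtain ⟨T', hT', δ', s', hδ', hs', h2⟩ := hk.2 e he0
    refine ⟨T ∪ T', ?_, min δ δ', min s s', lt_min hδ hδ', lt_min hs hs', ?_⟩
    · intro q hq
      rcases Finset.mem_union.1 hq with h | h
      · exact hT q h
      · exact hT' q h
    · intro i x hx hxs h3 h4
      have h5 := L5_mono h1 Finset.subset_union_left (min_le_left δ δ') (min_le_left s s')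
        i x hx hxs h3 h4
      have h6 := L5_mono h2 Finset.subset_union_right (min_le_right δ δ') (min_le_right s s')
        i x hx hxs h3 h4
      rw [hv.mul _ _ hg.1 hk.1]
      have h7 : g i x * k i x - v g * v k =
          (g i x - v g) * (k i x - v k) + (g i x - v g) * v k + v g * (k i x - v k) := by ring
      rw [h7]
      have h8 : ‖(g i x - v g) * (k i x - v k) + (g i x - v g) * v k + v g * (k i x - v k)‖ ≤
          ‖g i x - v g‖ * ‖k i x - v k‖ + ‖g i x - v g‖ * ‖v k‖ + ‖v g‖ * ‖k i x - v k‖ := by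
        refine (norm_add_le _ _).trans (add_le_add ((norm_add_le _ _).trans ?_) (norm_mul _ _).le)
        exact add_le_add (norm_mul _ _).le (norm_mul _ _).le
      refine h8.trans_lt ?_
      have n1 := norm_nonneg (g i x - v g)
      have n2 := norm_nonneg (k i x - v k)
      have n3 := norm_nonneg (v g)
      have n4 := norm_nonneg (v k)
      have m1 : ‖g i x - v g‖ * ‖k i x - v k‖ ≤ e * 1 :=
        mul_le_mul h5.le (h6.le.trans he1) n2 he0.le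
      have m2 : ‖g i x - v g‖ * ‖v k‖ ≤ e * ‖v k‖ := mul_le_mul_of_nonneg_right h5.le n4
      have m3 : ‖v g‖ * ‖k i x - v k‖ ≤ ‖v g‖ * e := mul_le_mul_of_nonneg_left h6.le n3
      nlinarith

theorem L5_fin {I : Type} {D : Set (ℂ × ℂ)} {p : ℂ × ℂ} {v : (I → ℂ × ℂ → ℂ) → ℂ}
    (hv : Vc D p v) {G : I → ℂ × ℂ → ℂ} (hG : Bnr D p G) {N : ℕ} {a : Fin N → I → ℂ × ℂ → ℂ}
    {η : ℝ} (hη : 0 < η) (S : Finset (Fin N)) (ha : ∀ j ∈ S, LAlg D p G (a j)) :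
    ∃ T : Finset ((I → ℂ → ℂ) × (ℂ × ℂ → ℂ)),
      (∀ q ∈ T, L5_Ok D p q) ∧ ∃ δ s : ℝ, 0 < δ ∧ 0 < s ∧
        ∀ j ∈ S, L5_Ap D p v G (a j) η T δ s := by
  classical
  induction S using Finset.induction_on with
  | empty => exact ⟨∅, by simp, 1, 1, one_pos, one_pos, by simp⟩
  | insert j S _ ih =>
    obtain ⟨T, hT, δ, s, hδ, hs, h1⟩ := ih (fun k hk => ha k (Finset.mem_insert_of_mem hk))
    obtain ⟨T', hT', δ', s', hδ', hs', h2⟩ :=
      (L5_alg hv hG (ha j (Finset.mem_insert_self _ _))).2 η hη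
    refine ⟨T ∪ T', ?_, min δ δ', min s s', lt_min hδ hδ', lt_min hs hs', ?_⟩
    · intro q hq
      rcases Finset.mem_union.1 hq with h | h
      · exact hT q h
      · exact hT' q h
    · intro k hk
      rcases Finset.mem_insert.1 hk with h | h
      · subst h
        exact L5_mono h2 Finset.subset_union_right (min_le_right _ _) (min_le_right _ _)
      · exact L5_mono (h1 k h) Finset.subset_union_left (min_le_left _ _) (min_le_left _ _)

/-- **TARGET** -/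
theorem famC {ρ : ℂ × ℂ → ℝ} (h : NF ρ) {p : ℂ × ℂ} (hp : ρ p = 0) {I : Type}
    {v : (I → ℂ × ℂ → ℂ) → ℂ} (hv : Vc {x | ρ x < 0} p v) {N : ℕ} {F : I → Fin N → ℂ × ℂ → ℂ}
    (hF : ∀ i j, HBd {x | ρ x < 0} 1 (F i j)) (h0 : ∀ j, v (fun i => F i j) = 0)
    {G : I → ℂ × ℂ → ℂ} {S : Finset (Fin N)} {a : Fin N → I → ℂ × ℂ → ℂ} {c ε r : ℝ}
    (hG : Bnr {x | ρ x < 0} p G) (hr : 0 < r) (hε : 0 ≤ ε) (hc : 2 * S.card * ε < c)
    (hlow : ∀ i, ∀ x ∈ {x | ρ x < 0} ∩ ball p r, c ≤ ∑ j ∈ S, ‖F i j x‖)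
    (ha : ∀ j ∈ S, LAlg {x | ρ x < 0} p G (a j) ∧
      ∀ i, ∀ x ∈ {x | ρ x < 0} ∩ ball p r, ‖F i j x - a j i x‖ ≤ ε) : False := by
  classical
  set η : ℝ := (c - 2 * S.card * ε) / (2 * (S.card + 1)) with hη
  have hη0 : 0 < η := div_pos (by linarith) (by positivity)
  obtain ⟨T, hT, δ, s, hδ, hs, hA⟩ := L5_fin hv hG hη0 S (fun j hj => (ha j hj).1)
  -- the values of the `a j`
  have hva : ∀ j ∈ S, ‖v (a j)‖ ≤ ε := by
    intro j hj
    have hbF : Bnr {x | ρ x < 0} p (fun i => F i j) :=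
      ⟨1, 1, one_pos, zero_le_one, fun i => L5_hmono (hF i j) inter_subset_left le_rfl⟩
    have hba : Bnr {x | ρ x < 0} p (a j) := (L5_alg hv hG (ha j hj).1).1
    have hbc : Bnr {x | ρ x < 0} p (fun (_ : I) (_ : ℂ × ℂ) => (-1 : ℂ)) := L5_bnr_const _ _ _
    have e1 := hv.mul _ _ hbc hba
    rw [hv.cst] at e1
    have hbm := L5_bnr_mul hbc hba
    have e2 := hv.add _ _ hbF hbm
    rw [h0, e1] at e2
    have e3 := hv.nrm _ ε (L5_bnr_add hbF hbm) hε (by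
      filter_upwards [ball_mem_nhds p hr] with x hx hxD i
      have := (ha j hj).2 i x ⟨hxD, hx⟩
      have e4 : F i j x + -1 * a j i x = F i j x - a j i x := by ring
      rw [e4]
      exact this)
    rw [e2] at e3
    simpa using e3
  -- apply clus
  let q : Fin T.card → (I → ℂ → ℂ) × (ℂ × ℂ → ℂ) := fun k => (T.equivFin.symm k : _)
  have hq : ∀ k, L5_Ok {x | ρ x < 0} p (q k) := fun k => hT _ (T.equivFin.symm k).2
  have hbd : ∃ C : ℝ, ∀ k i, ∀ w ∈ ball (0 : ℂ) 1, ‖(q k).1 i w‖ ≤ C := by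
    choose C hC using fun k => (hq k).2.1
    refine ⟨∑ k, |C k|, fun k i w hw => ?_⟩
    refine (hC k i w hw).trans ((le_abs_self _).trans ?_)
    exact Finset.single_le_sum (f := fun k => |C k|) (fun k _ => abs_nonneg _) (Finset.mem_univ k)
  obtain ⟨i, x, hx, hx1, hx2⟩ := clus h hp hv hG T.card (f := fun k => (q k).1)
    (fun k i => (hq k).1 i) hbd (ψ := fun k => (q k).2) (fun k => (hq k).2.2.1)
    (fun k => (hq k).2.2.2) hδ (lt_min hr hs)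
  have hxr : x ∈ {x | ρ x < 0} ∩ ball p r :=
    ⟨hx.1, ball_subset_ball (min_le_left _ _) hx.2⟩
  have hxs : x ∈ ball p s := ball_subset_ball (min_le_right _ _) hx.2
  have hT2 : ∀ q' ∈ T, ‖q'.1 i (q'.2 x) - v (fun i x => q'.1 i (q'.2 x))‖ < δ := by
    intro q' hq'
    have := hx1 (T.equivFin ⟨q', hq'⟩)
    have e : q (T.equivFin ⟨q', hq'⟩) = q' := by
      show ((T.equivFin.symm (T.equivFin ⟨q', hq'⟩) : T) : (I → ℂ → ℂ) × (ℂ × ℂ → ℂ)) = q'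
      rw [Equiv.symm_apply_apply]
    rw [e] at this
    exact this
  have h1 := hlow i x hxr
  have h2 : ∑ j ∈ S, ‖F i j x‖ ≤ ∑ j ∈ S, (2 * ε + η) := by
    refine Finset.sum_le_sum fun j hj => ?_
    have e1 := (ha j hj).2 i x hxr
    have e2 := hA j hj i x hx.1 hxs hT2 hx2
    have e3 := hva j hj
    have e4 : F i j x = (F i j x - a j i x) + (a j i x - v (a j)) + v (a j) := by ring
    rw [e4]
    refine (norm_add_le _ _).trans ?_
    have := norm_add_le (F i j x - a j i x) (a j i x - v (a j))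
    linarith
  rw [Finset.sum_const, nsmul_eq_mul] at h2
  have h3 : (S.card : ℝ) * η < c - 2 * S.card * ε := by
    have hk : (0 : ℝ) ≤ S.card := Nat.cast_nonneg _
    rw [hη, mul_div_assoc', div_lt_iff₀ (by positivity)]
    nlinarith
  nlinarith

end Pool.Agent.P157G
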