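import Mathlib
import Pool.Agent.H326R3.CB1
import Pool.Agent.P157G.LocDefs

set_option autoImplicit false

open MeasureTheory Metric Set Filter Topology Complex

namespace Pool.Agent.P157G

open Pool.Agent.P157D (d1 d2 CR Bo)

/-- the chart from the Euclidean unit ball -/
noncomputable def L3i_A (p : ℂ × ℂ) (r : ℝ) (z : Pool.Agent.H326R3.CB.V 2) : ℂ × ℂ :=
  (p.1 + r * z 0, p.2 + r * z 1)

/-- the inverse of the chart -/
noncomputable def L3i_B (p : ℂ × ℂ) (r : ℝ) (x : ℂ × ℂ) : Pool.Agent.H326R3.CB.V 2 :=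
  WithLp.toLp 2 ![(x.1 - p.1) / r, (x.2 - p.2) / r]

lemma L3i_B0 (p : ℂ × ℂ) (r : ℝ) (x : ℂ × ℂ) : L3i_B p r x 0 = (x.1 - p.1) / r := rfl

lemma L3i_B1 (p : ℂ × ℂ) (r : ℝ) (x : ℂ × ℂ) : L3i_B p r x 1 = (x.2 - p.2) / r := rfl

lemma L3i_AB (p : ℂ × ℂ) {r : ℝ} (hr : 0 < r) (x : ℂ × ℂ) : L3i_A p r (L3i_B p r x) = x := by
  have hr' : (r : ℂ) ≠ 0 := by exact_mod_cast hr.ne'
  unfold L3i_A
  rw [L3i_B0, L3i_B1, mul_div_cancel₀ _ hr', mul_div_cancel₀ _ hr']
  ext <;> simp

lemma L3i_A0 (p : ℂ × ℂ) (r : ℝ) : L3i_A p r 0 = p := by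
  unfold L3i_A
  simp

lemma L3i_A_mem (p : ℂ × ℂ) {r : ℝ} (hr : 0 < r) {z : Pool.Agent.H326R3.CB.V 2} (hz : ‖z‖ < 1) :
    L3i_A p r z ∈ ball p r := by
  have h : ∀ i, ‖z i‖ < 1 := fun i => (PiLp.norm_apply_le z i).trans_lt hz
  rw [mem_ball, Prod.dist_eq, max_lt_iff]
  unfold L3i_A
  constructor
  · rw [dist_eq_norm]
    simp only [add_sub_cancel_left, norm_mul, Complex.norm_real, Real.norm_of_nonneg hr.le]
    have := h 0
    nlinarith
  · rw [dist_eq_norm]
    simp only [add_sub_cancel_left, norm_mul, Complex.norm_real, Real.norm_of_nonneg hr.le]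
    have := h 1
    nlinarith

lemma L3i_B_mem (p : ℂ × ℂ) {r : ℝ} (hr : 0 < r) {x : ℂ × ℂ} (hx : x ∈ ball p (r / 2)) :
    ‖L3i_B p r x‖ < 1 := by
  rw [mem_ball, Prod.dist_eq, max_lt_iff, dist_eq_norm, dist_eq_norm] at hx
  rw [EuclideanSpace.norm_eq, Fin.sum_univ_two, L3i_B0, L3i_B1, Real.sqrt_lt' one_pos, norm_div,
    norm_div, Complex.norm_real, Real.norm_of_nonneg hr.le]
  have h1 : ‖x.1 - p.1‖ / r < 1 / 2 := by
    rw [div_lt_iff₀ hr]; linarith [hx.1]
  have h2 : ‖x.2 - p.2‖ / r < 1 / 2 := by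
    rw [div_lt_iff₀ hr]; linarith [hx.2]
  have h3 : 0 ≤ ‖x.1 - p.1‖ / r := by positivity
  have h4 : 0 ≤ ‖x.2 - p.2‖ / r := by positivity
  nlinarith

lemma L3i_A_diff (p : ℂ × ℂ) (r : ℝ) : Differentiable ℂ (L3i_A p r) := by
  unfold L3i_A
  have h : ∀ i : Fin 2, Differentiable ℂ (fun z : Pool.Agent.H326R3.CB.V 2 => z i) := fun i =>
    (EuclideanSpace.proj i : Pool.Agent.H326R3.CB.V 2 →L[ℂ] ℂ).differentiable
  exact (((h 0).const_mul _).const_add _).prodMk (((h 1).const_mul _).const_add _)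

lemma L3i_B_diff (p : ℂ × ℂ) (r : ℝ) : Differentiable ℂ (L3i_B p r) := by
  unfold L3i_B
  rw [differentiable_euclidean]
  intro i
  fin_cases i
  · have h : Differentiable ℂ (fun x : ℂ × ℂ => x.1 - p.1) := differentiable_fst.sub_const _
    have h2 : Differentiable ℂ (fun x : ℂ × ℂ => (x.1 - p.1) / r) := by
      simpa only [div_eq_mul_inv] using h.mul_const ((r : ℂ)⁻¹)
    exact h2
  · have h : Differentiable ℂ (fun x : ℂ × ℂ => x.2 - p.2) := differentiable_snd.sub_const _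
    have h2 : Differentiable ℂ (fun x : ℂ × ℂ => (x.2 - p.2) / r) := by
      simpa only [div_eq_mul_inv] using h.mul_const ((r : ℂ)⁻¹)
    exact h2

/-- division near an interior point -/
lemma L3i_div {D : Set (ℂ × ℂ)} {p : ℂ × ℂ} {r : ℝ} (hr : 0 < r) (hrD : ball p r ⊆ D)
    {g : ℂ × ℂ → ℂ} {M : ℝ} (hg : HBd D M g) (hg0 : g p = 0) :
    ∃ U1 U2 : ℂ × ℂ → ℂ, HBd (ball p (r / 2)) (44 * M / r) U1 ∧
      HBd (ball p (r / 2)) (44 * M / r) U2 ∧
      ∀ x ∈ ball p (r / 2), g x = (x.1 - p.1) * U1 x + (x.2 - p.2) * U2 x := by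
  have hF : DifferentiableOn ℂ (fun z => g (L3i_A p r z)) (ball 0 1) :=
    hg.1.comp (L3i_A_diff p r).differentiableOn
      (fun z hz => hrD (L3i_A_mem p hr (by simpa using hz)))
  have hFb : ∀ z ∈ ball (0 : Pool.Agent.H326R3.CB.V 2) 1, ‖(fun z => g (L3i_A p r z)) z‖ ≤ M :=
    fun z hz => hg.2 _ (hrD (L3i_A_mem p hr (by simpa using hz)))
  set F : Pool.Agent.H326R3.CB.V 2 → ℂ := fun z => g (L3i_A p r z) with hFdef
  have hmem : ∀ x ∈ ball p (r / 2), L3i_B p r x ∈ ball (0 : Pool.Agent.H326R3.CB.V 2) 1 :=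
    fun x hx => by simpa using L3i_B_mem p hr hx
  have key : ∀ i : Fin 2, HBd (ball p (r / 2)) (44 * M / r)
      (fun x => Pool.Agent.H326R3.CB.gam F 0 (EuclideanSpace.single i (1:ℂ)) (L3i_B p r x) / r) := by
    intro i
    constructor
    · have h : DifferentiableOn ℂ (fun x => Pool.Agent.H326R3.CB.gam F 0
          (EuclideanSpace.single i (1:ℂ)) (L3i_B p r x)) (ball p (r / 2)) :=
        (Pool.Agent.H326R3.CB.gam_diff hF (EuclideanSpace.single i (1:ℂ)) (p := 0) (by simp)).comp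
        (L3i_B_diff p r).differentiableOn hmem
      have h2 := h.mul_const ((r : ℂ)⁻¹)
      simpa only [div_eq_mul_inv] using h2
    · intro x hx
      have h1 := Pool.Agent.H326R3.CB.gam_bd hF hFb (e := EuclideanSpace.single i (1:ℂ)) (by simp)
        (z := L3i_B p r x) (p := 0) (L3i_B_mem p hr hx) (by simp)
      rw [norm_div, Complex.norm_real, Real.norm_of_nonneg hr.le]
      rw [norm_zero, sub_zero, one_pow, div_one] at h1
      gcongr
  refine ⟨_, _, key 0, key 1, fun x hx => ?_⟩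
  have h1 := Pool.Agent.H326R3.CB.gleason hF (p := 0) (z := L3i_B p r x) (by simp)
    (L3i_B_mem p hr hx)
  rw [hFdef] at h1
  simp only [L3i_AB p hr, L3i_A0, hg0, sub_zero, Fin.sum_univ_two, L3i_B0, L3i_B1,
    PiLp.zero_apply] at h1
  rw [h1]
  ring

/-- **TARGET** -/
theorem int_pt {D : Set (ℂ × ℂ)} (hD : IsOpen D) {p : ℂ × ℂ} (hp : p ∈ D) {I : Type}
    [TopologicalSpace I] [DiscreteTopology I] (χ : WeakDual.characterSpace ℂ (HA I hD)) (hχ : Pp p χ)
    {N : ℕ} {F : I → Fin N → ℂ × ℂ → ℂ} (hF : ∀ i j, HBd D 1 (F i j)) {δ : ℝ} (hδ : 0 < δ)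
    (hlow : ∀ i, δ ≤ ∑ j, ‖F i j p‖)
    (h0 : ∀ (j : Fin N) (a : HA I hD), (∀ (i : I) (x : D), a.1 (i, x) = F i j x) → χ a = 0) : False := by
  classical
  obtain ⟨r, hr, hrD⟩ := Metric.isOpen_iff.1 hD p hp
  set s : I → ℝ := fun i => ∑ j, ‖F i j p‖ ^ 2 with hs
  have hF1 : ∀ i j, ‖F i j p‖ ≤ 1 := fun i j => (hF i j).2 p hp
  have hs0 : ∀ i, 0 ≤ s i := fun i => Finset.sum_nonneg (fun j _ => by positivity)
  have hsN : ∀ i, s i ≤ N := by
    intro i
    calc s i ≤ ∑ _j : Fin N, (1 : ℝ) := Finset.sum_le_sum (fun j _ => by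
          have := hF1 i j
          have h2 := norm_nonneg (F i j p)
          nlinarith)
      _ = N := by simp
  have hsl : ∀ i, δ ^ 2 ≤ N * s i := by
    intro i
    have h1 : (∑ j, ‖F i j p‖) ^ 2 ≤ (Finset.univ : Finset (Fin N)).card * ∑ j, ‖F i j p‖ ^ 2 :=
      sq_sum_le_card_mul_sum_sq
    rw [Finset.card_univ, Fintype.card_fin] at h1
    have h2 : δ ^ 2 ≤ (∑ j, ‖F i j p‖) ^ 2 := by
      have := hlow i
      gcongr
    exact h2.trans h1
  have hspos : ∀ i, 0 < s i := by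
    intro i
    rcases (hs0 i).lt_or_eq with h | h
    · exact h
    · exfalso
      have := hsl i
      rw [← h, mul_zero] at this
      have h3 : 0 < δ ^ 2 := by positivity
      linarith
  set Fj : Fin N → HA I hD := fun j => mkA hD (f := fun i => F i j) (fun i => (hF i j).1) (C := 1)
    (fun i z hz => (hF i j).2 z hz) with hFj
  set cj : Fin N → HA I hD := fun j => mkA hD (f := fun i _ => starRingEnd ℂ (F i j p))
    (fun i => differentiableOn_const _) (C := 1)
    (fun i z hz => by rw [RCLike.norm_conj]; exact hF1 i j) with hcj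
  set sA : HA I hD := mkA hD (f := fun i _ => (s i : ℂ)) (fun i => differentiableOn_const _)
    (C := N) (fun i z hz => by
      rw [Complex.norm_real, Real.norm_of_nonneg (hs0 i)]; exact hsN i) with hsA
  set tA : HA I hD := mkA hD (f := fun i _ => ((s i : ℂ))⁻¹) (fun i => differentiableOn_const _)
    (C := N / δ ^ 2) (fun i z hz => by
      rw [norm_inv, Complex.norm_real, Real.norm_of_nonneg (hs0 i), inv_eq_one_div,
        div_le_div_iff₀ (hspos i) (by positivity), one_mul]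
      exact hsl i) with htA
  set a : HA I hD := ∑ j, Fj j * cj j with ha
  have hχa : χ a = 0 := by
    rw [ha, map_sum]
    refine Finset.sum_eq_zero (fun j _ => ?_)
    rw [map_mul, h0 j (Fj j) (fun i x => rfl), zero_mul]
  have haa : ∀ (i : I) (x : D), a.1 (i, x) = ∑ j, F i j x * starRingEnd ℂ (F i j p) := by
    intro i x
    rw [ha, sum_applyA]
    rfl
  set g : I → ℂ × ℂ → ℂ := fun i x => (∑ j, F i j x * starRingEnd ℂ (F i j p)) - (s i : ℂ) with hg
  have hgH : ∀ i, HBd D (2 * N) (g i) := by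
    intro i
    constructor
    · rw [hg]
      refine DifferentiableOn.sub_const ?_ _
      exact DifferentiableOn.fun_sum (fun j _ => (hF i j).1.mul_const _)
    · intro x hx
      rw [hg]
      calc ‖(∑ j, F i j x * starRingEnd ℂ (F i j p)) - (s i : ℂ)‖
          ≤ ‖∑ j, F i j x * starRingEnd ℂ (F i j p)‖ + ‖(s i : ℂ)‖ := norm_sub_le _ _
        _ ≤ (∑ _j : Fin N, (1 : ℝ)) + N := by
            refine add_le_add ?_ ?_
            · refine norm_sum_le_of_le _ (fun j _ => ?_)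
              rw [norm_mul, RCLike.norm_conj]
              have h1 := (hF i j).2 x hx
              have h2 := hF1 i j
              calc ‖F i j x‖ * ‖F i j p‖ ≤ 1 * 1 := by gcongr
                _ = 1 := one_mul 1
            · rw [Complex.norm_real, Real.norm_of_nonneg (hs0 i)]; exact hsN i
        _ = 2 * N := by simp; ring
  have hg0 : ∀ i, g i p = 0 := by
    intro i
    rw [hg, hs]
    simp only
    rw [sub_eq_zero]
    push_cast
    refine Finset.sum_congr rfl (fun j _ => ?_)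
    rw [Complex.mul_conj, Complex.normSq_eq_norm_sq]
    push_cast
    rfl
  choose U1 U2 hU1 hU2 hU using fun i => L3i_div hr hrD (hgH i) (hg0 i)
  have hχb : χ (a - sA) = 0 := by
    refine hχ (a - sA) (r / 2) U1 U2 (44 * (2 * N) / r) (by positivity) (by positivity)
      (fun i => ⟨(hU1 i).1.mono inter_subset_right, fun x hx => (hU1 i).2 x hx.2⟩)
      (fun i => ⟨(hU2 i).1.mono inter_subset_right, fun x hx => (hU2 i).2 x hx.2⟩)
      (fun i x hx => ?_)
    rw [← hU i x hx]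
    have h1 : (a - sA).1 (i, x) = a.1 (i, x) - sA.1 (i, x) := rfl
    rw [h1, haa]
    rfl
  have hχs : χ sA = 0 := by
    rw [map_sub, hχa, zero_sub, neg_eq_zero] at hχb
    exact hχb
  have hst : sA * tA = 1 := by
    apply extA
    rintro ⟨i, x⟩
    have h1 : (sA * tA).1 (i, x) = (s i : ℂ) * ((s i : ℂ))⁻¹ := rfl
    have h2 : ((1 : HA I hD)).1 (i, x) = 1 := rfl
    rw [h1, h2]
    refine mul_inv_cancel₀ ?_
    exact_mod_cast (hspos i).ne'
  have h1 : χ (sA * tA) = 1 := by rw [hst, map_one]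
  rw [map_mul, hχs, zero_mul] at h1
  exact zero_ne_one h1

end Pool.Agent.P157G
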