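import Mathlib
import Pool.Agent.P157G.Defs

set_option autoImplicit false

open MeasureTheory Metric Set Filter Topology Complex

namespace Pool.Agent.P157G

open Pool.Agent.P157D (d1 d2 CR Bo)

theorem G13_fd {ρ χ : ℂ × ℂ → ℝ} (hρ : ContDiff ℝ 2 ρ) (hχ : ContDiff ℝ 2 χ) (ε : ℝ)
    (x : ℂ × ℂ) :
    fderiv ℝ (fun x => ρ x - ε * χ x) x = fderiv ℝ ρ x - ε • fderiv ℝ χ x := by
  have h1 : DifferentiableAt ℝ ρ x := (hρ.differentiable (by norm_num)).differentiableAt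
  have h2 : DifferentiableAt ℝ χ x := (hχ.differentiable (by norm_num)).differentiableAt
  rw [fderiv_fun_sub h1 (h2.const_mul ε), fderiv_const_mul h2]

theorem G13_fdd {ρ χ : ℂ × ℂ → ℝ} (hρ : ContDiff ℝ 2 ρ) (hχ : ContDiff ℝ 2 χ) (ε : ℝ)
    (x : ℂ × ℂ) :
    fderiv ℝ (fderiv ℝ (fun x => ρ x - ε * χ x)) x =
      fderiv ℝ (fderiv ℝ ρ) x - ε • fderiv ℝ (fderiv ℝ χ) x := by
  have e : fderiv ℝ (fun x => ρ x - ε * χ x) = fun x => fderiv ℝ ρ x - ε • fderiv ℝ χ x :=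
    funext (G13_fd hρ hχ ε)
  rw [e]
  have h1 : DifferentiableAt ℝ (fderiv ℝ ρ) x :=
    ((hρ.fderiv_right (m := 1) (by norm_num)).differentiable (by norm_num)).differentiableAt
  have h2 : DifferentiableAt ℝ (fderiv ℝ χ) x :=
    ((hχ.fderiv_right (m := 1) (by norm_num)).differentiable (by norm_num)).differentiableAt
  have h3 : DifferentiableAt ℝ (fun y => ε • fderiv ℝ χ y) x := h2.const_smul ε
  rw [fderiv_fun_sub h1 h3, fderiv_fun_const_smul h2]

theorem G13_dd {ρ χ : ℂ × ℂ → ℝ} (hρ : ContDiff ℝ 2 ρ) (hχ : ContDiff ℝ 2 χ) (ε : ℝ)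
    (x v : ℂ × ℂ) :
    dd (fun x => ρ x - ε * χ x) x v = dd ρ x v - ε * dd χ x v := by
  unfold dd Pool.Agent.P157D.d1 Pool.Agent.P157D.d2
  rw [G13_fd hρ hχ]
  simp only [sub_apply, smul_apply, smul_eq_mul]
  push_cast
  ring

theorem G13_lv {ρ χ : ℂ × ℂ → ℝ} (hρ : ContDiff ℝ 2 ρ) (hχ : ContDiff ℝ 2 χ) (ε : ℝ)
    (x v : ℂ × ℂ) :
    lv (fun x => ρ x - ε * χ x) x v = lv ρ x v - ε * lv χ x v := by
  unfold lv
  rw [G13_fdd hρ hχ]
  simp only [sub_apply, smul_apply, smul_eq_mul]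
  ring

theorem G13_ddc {ρ : ℂ × ℂ → ℝ} (hρ : ContDiff ℝ 2 ρ) :
    Continuous fun z : (ℂ × ℂ) × (ℂ × ℂ) => dd ρ z.1 z.2 := by
  have hc : Continuous (fderiv ℝ ρ) := hρ.continuous_fderiv (by norm_num)
  unfold dd Pool.Agent.P157D.d1 Pool.Agent.P157D.d2
  fun_prop

theorem G13_lvc {ρ : ℂ × ℂ → ℝ} (hρ : ContDiff ℝ 2 ρ) :
    Continuous fun z : (ℂ × ℂ) × (ℂ × ℂ) => lv ρ z.1 z.2 := by
  have hc : Continuous (fderiv ℝ (fderiv ℝ ρ)) :=
    (hρ.fderiv_right (m := 1) (by norm_num)).continuous_fderiv (by norm_num)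
  unfold lv
  fun_prop

theorem G13_dds (ρ : ℂ × ℂ → ℝ) (x v : ℂ × ℂ) (t : ℝ) : dd ρ x (t • v) = t * dd ρ x v := by
  unfold dd
  simp only [Prod.smul_fst, Prod.smul_snd, Complex.real_smul]
  ring

theorem G13_lvs (ρ : ℂ × ℂ → ℝ) (x v : ℂ × ℂ) (t : ℝ) : lv ρ x (t • v) = t ^ 2 * lv ρ x v := by
  unfold lv
  rw [smul_comm Complex.I t v]
  simp only [map_smul, smul_apply, smul_eq_mul]
  ring

/-- **TARGET** -/
theorem nf_stable {ρ : ℂ × ℂ → ℝ} (h : NF ρ) {χ : ℂ × ℂ → ℝ} (hχ : ContDiff ℝ 2 χ)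
    (hc : HasCompactSupport χ) : ∀ᶠ ε in 𝓝 (0 : ℝ), NF (fun x => ρ x - ε * χ x) := by
  have hρ := h.smooth
  have hK : IsCompact (tsupport χ) := hc
  have hcρ : Continuous ρ := hρ.continuous
  have hcχ : Continuous χ := hχ.continuous
  have hdρ : Continuous (fderiv ℝ ρ) := hρ.continuous_fderiv (by norm_num)
  have hdχ : Continuous (fderiv ℝ χ) := hχ.continuous_fderiv (by norm_num)
  have c0 : Continuous fun z : ℝ × (ℂ × ℂ) => ρ z.2 - z.1 * χ z.2 := by fun_prop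
  have c1 : Continuous fun z : ℝ × (ℂ × ℂ) => fderiv ℝ ρ z.2 - z.1 • fderiv ℝ χ z.2 := by fun_prop
  have ddρ := G13_ddc hρ
  have ddχ := G13_ddc hχ
  have lvρ := G13_lvc hρ
  have lvχ := G13_lvc hχ
  have c2 : Continuous fun z : ℝ × ((ℂ × ℂ) × (ℂ × ℂ)) =>
      dd ρ z.2.1 z.2.2 - z.1 * dd χ z.2.1 z.2.2 :=
    (ddρ.comp continuous_snd).sub ((Complex.continuous_ofReal.comp continuous_fst).mul
      (ddχ.comp continuous_snd))
  have c3 : Continuous fun z : ℝ × ((ℂ × ℂ) × (ℂ × ℂ)) =>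
      lv ρ z.2.1 z.2.2 - z.1 * lv χ z.2.1 z.2.2 :=
    (lvρ.comp continuous_snd).sub (continuous_fst.mul (lvχ.comp continuous_snd))
  have e1 : ∀ᶠ ε in 𝓝 (0 : ℝ), ∀ x ∈ tsupport χ, ρ x - ε * χ x = 0 →
      fderiv ℝ ρ x - ε • fderiv ℝ χ x ≠ 0 := by
    refine hK.eventually_forall_of_forall_eventually (fun y _ => ?_)
    by_cases hy : ρ y = 0
    · have hne : fderiv ℝ ρ y - (0 : ℝ) • fderiv ℝ χ y ≠ 0 := by
        rw [zero_smul, sub_zero]; exact h.nd y hy
      have := c1.continuousAt.eventually_ne (x := ((0 : ℝ), y)) hne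
      exact this.mono (fun z hz _ => hz)
    · have hne : ρ y - (0 : ℝ) * χ y ≠ 0 := by
        rw [zero_mul, sub_zero]; exact hy
      have := c0.continuousAt.eventually_ne (x := ((0 : ℝ), y)) hne
      exact this.mono (fun z hz hz0 => absurd hz0 hz)
  have hS : IsCompact (tsupport χ ×ˢ (Metric.sphere (0 : ℂ × ℂ) 1)) :=
    hK.prod (isCompact_sphere _ _)
  have e2 : ∀ᶠ ε in 𝓝 (0 : ℝ), ∀ w ∈ tsupport χ ×ˢ (Metric.sphere (0 : ℂ × ℂ) 1),
      ρ w.1 - ε * χ w.1 = 0 → dd ρ w.1 w.2 - ε * dd χ w.1 w.2 = 0 →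
      0 < lv ρ w.1 w.2 - ε * lv χ w.1 w.2 := by
    refine hS.eventually_forall_of_forall_eventually (fun w hw => ?_)
    by_cases hy : ρ w.1 = 0
    · by_cases hd : dd ρ w.1 w.2 = 0
      · have hv : w.2 ≠ 0 := by
          intro h0
          have := hw.2
          rw [h0] at this
          simp at this
        have hpos : 0 < lv ρ w.1 w.2 - (0 : ℝ) * lv χ w.1 w.2 := by
          rw [zero_mul, sub_zero]; exact h.levi _ hy _ hv hd
        have := (continuousAt_const (y := (0 : ℝ))).eventually_lt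
          (c3.continuousAt (x := ((0 : ℝ), w))) hpos
        exact this.mono (fun z hz _ _ => hz)
      · have hne : dd ρ w.1 w.2 - ((0 : ℝ) : ℂ) * dd χ w.1 w.2 ≠ 0 := by
          rw [Complex.ofReal_zero, zero_mul, sub_zero]; exact hd
        have := c2.continuousAt.eventually_ne (x := ((0 : ℝ), w)) hne
        exact this.mono (fun z hz _ hz0 => absurd hz0 hz)
    · have hne : ρ w.1 - (0 : ℝ) * χ w.1 ≠ 0 := by
        rw [zero_mul, sub_zero]; exact hy
      have c0' : Continuous fun z : ℝ × ((ℂ × ℂ) × (ℂ × ℂ)) => ρ z.2.1 - z.1 * χ z.2.1 := by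
        fun_prop
      have := c0'.continuousAt.eventually_ne (x := ((0 : ℝ), w)) hne
      exact this.mono (fun z hz hz0 => absurd hz0 hz)
  filter_upwards [e1, e2] with ε h1 h2
  have hout : ∀ x, x ∉ tsupport χ → χ =ᶠ[𝓝 x] 0 := fun x hx =>
    notMem_tsupport_iff_eventuallyEq.mp hx
  have hloc : ∀ x, x ∉ tsupport χ → (fun x => ρ x - ε * χ x) =ᶠ[𝓝 x] ρ := fun x hx =>
    (hout x hx).mono (fun y hy => by simp [hy])
  refine ⟨hρ.sub (contDiff_const.mul hχ), ?_, ?_, ?_⟩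
  · refine (h.bdd.union hK.isBounded).subset (fun x hx => ?_)
    by_cases hx' : x ∈ tsupport χ
    · exact Or.inr hx'
    · left
      have := (hloc x hx').eq_of_nhds
      simp only [Set.mem_ofPred_eq] at hx ⊢
      rw [← this]; exact hx
  · intro x hx
    by_cases hx' : x ∈ tsupport χ
    · rw [G13_fd hρ hχ]
      exact h1 x hx' hx
    · rw [(hloc x hx').fderiv_eq]
      refine h.nd x ?_
      rw [← (hloc x hx').eq_of_nhds]; exact hx
  · intro x hx v hv hd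
    by_cases hx' : x ∈ tsupport χ
    · have hn : 0 < ‖v‖ := norm_pos_iff.mpr hv
      have hu : ‖(‖v‖⁻¹ : ℝ) • v‖ = 1 := by
        rw [norm_smul, norm_inv, norm_norm, inv_mul_cancel₀ hn.ne']
      rw [G13_dd hρ hχ] at hd
      rw [G13_lv hρ hχ]
      have h3 := h2 (x, (‖v‖⁻¹ : ℝ) • v) ⟨hx', by simpa using hu⟩ hx ?_
      · simp only [G13_lvs] at h3
        have h4 : 0 < (‖v‖⁻¹) ^ 2 * (lv ρ x v - ε * lv χ x v) := by
          have e : (‖v‖⁻¹) ^ 2 * (lv ρ x v - ε * lv χ x v) =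
            ‖v‖⁻¹ ^ 2 * lv ρ x v - ε * (‖v‖⁻¹ ^ 2 * lv χ x v) := by ring
          rw [e]; exact h3
        exact (mul_pos_iff_of_pos_left (by positivity)).mp h4
      · simp only [G13_dds]
        have e : ((‖v‖⁻¹ : ℝ) : ℂ) * dd ρ x v - ε * (((‖v‖⁻¹ : ℝ) : ℂ) * dd χ x v) =
          ((‖v‖⁻¹ : ℝ) : ℂ) * (dd ρ x v - ε * dd χ x v) := by ring
        rw [e, hd, mul_zero]
    · have hl := hloc x hx'
      have hf := hl.fderiv_eq (𝕜 := ℝ)
      have hff := (hl.fderiv (𝕜 := ℝ)).fderiv_eq (𝕜 := ℝ)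
      have hd' : dd ρ x v = 0 := by
        rw [← hd]
        unfold dd Pool.Agent.P157D.d1 Pool.Agent.P157D.d2
        rw [hf]
      have hlv : lv (fun x => ρ x - ε * χ x) x v = lv ρ x v := by
        unfold lv
        rw [hff]
      rw [hlv]
      refine h.levi x ?_ v hv hd'
      rw [← hl.eq_of_nhds]; exact hx

/-- **TARGET** -/
theorem nf_of {D : Set (ℂ × ℂ)} (hb : Bornology.IsBounded D) {O : Set (ℂ × ℂ)} (hO : IsOpen O)
    (hcl : closure D ⊆ O) {ρ : ℂ × ℂ → ℝ} (hρ : ContDiffOn ℝ 2 ρ O) (hD : D = {x | x ∈ O ∧ ρ x < 0})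
    (hnd : ∀ p ∈ frontier D, fderiv ℝ ρ p ≠ 0)
    (hL : ∀ p ∈ frontier D, ∀ v : ℂ × ℂ, v ≠ 0 → dd ρ p v = 0 → 0 < lv ρ p v) :
    ∃ ρ' : ℂ × ℂ → ℝ, NF ρ' ∧ D = {x | ρ' x < 0} := by
  have hDo : IsOpen D := by
    have : D = O ∩ ρ ⁻¹' (Set.Iio 0) := by rw [hD]; rfl
    rw [this]
    exact hρ.continuousOn.isOpen_inter_preimage hO isOpen_Iio
  have hfr : frontier D = closure D \ D := by rw [hDo.frontier_eq]
  have hneg : ∀ x ∈ D, ρ x < 0 := fun x hx => by rw [hD] at hx; exact hx.2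
  have hge : ∀ x ∈ O, x ∉ D → 0 ≤ ρ x := by
    intro x hx hxD
    by_contra hc
    exact hxD (by rw [hD]; exact ⟨hx, not_le.mp hc⟩)
  have hle : ∀ x ∈ closure D, ρ x ≤ 0 := by
    intro x hx
    have hcx : ContinuousAt ρ x := hρ.continuousOn.continuousAt (hO.mem_nhds (hcl hx))
    by_contra hc
    have h1 : ∀ᶠ y in 𝓝 x, 0 < ρ y := (continuousAt_const (y := (0 : ℝ))).eventually_lt hcx (not_le.mp hc)
    obtain ⟨y, hy, hyD⟩ := mem_closure_iff_nhds.mp hx _ h1
    exact absurd (hneg y hyD) (not_lt.mpr (le_of_lt hy))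
  have hz : ∀ p ∈ frontier D, ρ p = 0 := by
    intro p hp
    rw [hfr] at hp
    exact le_antisymm (hle p hp.1) (hge p (hcl hp.1) hp.2)
  -- the open set where the derivative does not vanish
  have hfc : ContinuousOn (fderiv ℝ ρ) O := hρ.continuousOn_fderiv_of_isOpen hO (by norm_num)
  set W : Set (ℂ × ℂ) := O ∩ (fderiv ℝ ρ) ⁻¹' {0}ᶜ with hW
  have hWo : IsOpen W := hfc.isOpen_inter_preimage hO isOpen_compl_singleton
  have hWO : W ⊆ O := Set.inter_subset_left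
  have hWf : frontier D ⊆ W := fun p hp => ⟨hcl (frontier_subset_closure hp), hnd p hp⟩
  have hpos : ∀ x ∈ W, x ∉ closure D → 0 < ρ x := by
    intro x hx hxc
    have hxD : x ∉ D := fun hh => hxc (subset_closure hh)
    rcases (hge x (hWO hx) hxD).lt_or_eq with hh | hh
    · exact hh
    · exfalso
      have hmin : IsLocalMin ρ x := by
        have h1 : ∀ᶠ y in 𝓝 x, y ∈ O := hO.mem_nhds (hWO hx)
        have h2 : ∀ᶠ y in 𝓝 x, y ∉ closure D := isClosed_closure.isOpen_compl.mem_nhds hxc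
        filter_upwards [h1, h2] with y hy1 hy2
        rw [← hh]
        exact hge y hy1 (fun hh => hy2 (subset_closure hh))
      exact hx.2 hmin.fderiv_eq_zero
  have hclW : closure D ⊆ D ∪ W := by
    intro x hx
    by_cases hxD : x ∈ D
    · exact Or.inl hxD
    · exact Or.inr (hWf (by rw [hfr]; exact ⟨hx, hxD⟩))
  have hDO : D ⊆ O := subset_closure.trans hcl
  have hO'O : D ∪ W ⊆ O := Set.union_subset hDO hWO
  obtain ⟨T, hT, hT1, hT2⟩ := exists_compact_between (hb.isCompact_closure) (hDo.union hWo) hclW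
  obtain ⟨f, hf1, hf2, hf3⟩ := exists_contMDiffMap_one_nhds_of_subset_interior
    (n := 2) (modelWithCornersSelf ℝ (ℂ × ℂ)) (isClosed_closure (s := D)) hT1
  have hfs : ContDiff ℝ 2 f := f.contMDiff.contDiff
  have hone : ∀ x ∈ closure D, ∀ᶠ y in 𝓝 x, f y = 1 := fun x hx =>
    (Filter.Eventually.filter_mono (nhds_le_nhdsSet hx) hf1)
  set ρ' : ℂ × ℂ → ℝ := fun x => f x * ρ x + (1 - f x) with hρ'
  have hloc : ∀ x ∈ closure D, ρ' =ᶠ[𝓝 x] ρ := fun x hx =>
    (hone x hx).mono (fun y hy => by simp [hρ', hy])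
  have hpos' : ∀ x, x ∉ closure D → 0 < ρ' x := by
    intro x hx
    by_cases hxT : x ∈ T
    · have hxW : x ∈ W := by
        rcases hT2 hxT with hh | hh
        · exact absurd (subset_closure hh) hx
        · exact hh
      have h1 := hpos x hxW hx
      have h2 := (hf3 x).1
      have h3 := (hf3 x).2
      simp only [hρ']
      rcases h2.lt_or_eq with h4 | h4
      · have := mul_pos h4 h1
        linarith
      · rw [← h4]; norm_num
    · simp [hρ', hf2 x hxT]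
  have hsm : ContDiff ℝ 2 ρ' := by
    rw [contDiff_iff_contDiffAt]
    intro x
    by_cases hx : x ∈ D ∪ W
    · have h1 : ContDiffAt ℝ 2 ρ x := hρ.contDiffAt (hO.mem_nhds (hO'O hx))
      exact (hfs.contDiffAt.mul h1).add (contDiffAt_const.sub hfs.contDiffAt)
    · have hxT : x ∉ T := fun hh => hx (hT2 hh)
      have h1 : ρ' =ᶠ[𝓝 x] fun _ => (1 : ℝ) := by
        filter_upwards [hT.isClosed.isOpen_compl.mem_nhds hxT] with y hy
        simp [hρ', hf2 y hy]
      exact contDiffAt_const.congr_of_eventuallyEq h1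
  have hzf : ∀ x, ρ' x = 0 → x ∈ frontier D := by
    intro x hx
    have hxc : x ∈ closure D := by
      by_contra hh
      exact absurd hx (hpos' x hh).ne'
    rw [hfr]
    refine ⟨hxc, fun hxD => ?_⟩
    have := hneg x hxD
    rw [← (hloc x hxc).eq_of_nhds, hx] at this
    exact lt_irrefl _ this
  refine ⟨ρ', ⟨hsm, ?_, ?_, ?_⟩, ?_⟩
  · refine hb.closure.subset (fun x hx => ?_)
    by_contra hh
    exact absurd (hpos' x hh) (not_lt.mpr hx)
  · intro x hx
    have hxf := hzf x hx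
    rw [(hloc x (frontier_subset_closure hxf)).fderiv_eq]
    exact hnd x hxf
  · intro x hx v hv hd
    have hxf := hzf x hx
    have hl := hloc x (frontier_subset_closure hxf)
    have hf := hl.fderiv_eq (𝕜 := ℝ)
    have hff := (hl.fderiv (𝕜 := ℝ)).fderiv_eq (𝕜 := ℝ)
    have hd' : dd ρ x v = 0 := by
      rw [← hd]
      unfold dd Pool.Agent.P157D.d1 Pool.Agent.P157D.d2
      rw [hf]
    have hlv : lv ρ' x v = lv ρ x v := by
      unfold lv
      rw [hff]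
    rw [hlv]
    exact hL x hxf v hv hd'
  · ext x
    constructor
    · intro hx
      show ρ' x < 0
      rw [(hloc x (subset_closure hx)).eq_of_nhds]
      exact hneg x hx
    · intro hx
      have hx' : ρ' x < 0 := hx
      have hxc : x ∈ closure D := by
        by_contra hh
        exact absurd hx' (not_lt.mpr (hpos' x hh).le)
      rw [(hloc x hxc).eq_of_nhds] at hx'
      rw [hD]
      exact ⟨hcl hxc, hx'⟩

end Pool.Agent.P157G
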