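import Mathlib
import Pool.Agent.Helper540.Holo
import Pool.Agent.P157G.DivL
import Pool.Agent.P157G.NFs

set_option autoImplicit false

open MeasureTheory Metric Set Filter Topology Complex

namespace Pool.Agent.P157G

open Pool.Agent.P157D (d1 d2 CR Bo)

theorem G14b_seg {p x : ℂ × ℂ} {r t : ℝ} (hx : x ∈ ball p r) (ht : t ∈ Icc (0 : ℝ) 1) :
    p + (t : ℂ) • (x - p) ∈ ball p r := by
  rw [mem_ball, dist_eq_norm] at *
  have e : p + (t : ℂ) • (x - p) - p = (t : ℂ) • (x - p) := by abel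
  rw [e, norm_smul, Complex.norm_real, Real.norm_eq_abs, abs_of_nonneg ht.1]
  calc t * ‖x - p‖ ≤ 1 * ‖x - p‖ := mul_le_mul_of_nonneg_right ht.2 (norm_nonneg _)
    _ < r := by rw [one_mul]; exact hx

theorem G14b_segc (p x : ℂ × ℂ) : Continuous (fun t : ℝ => p + (t : ℂ) • (x - p)) := by
  fun_prop

theorem G14b_avg {p : ℂ × ℂ} {R M : ℝ} (hR : 0 < R) {f : ℂ × ℂ → ℂ}
    (hf : DifferentiableOn ℂ f (ball p R)) (hM : ∀ x ∈ ball p R, ‖f x‖ ≤ M) :
    HBd (ball p (R / 2)) M (fun x => ∫ t in (0 : ℝ)..1, f (p + (t : ℂ) • (x - p))) := by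
  have hM0 : 0 ≤ M := (norm_nonneg _).trans (hM p (mem_ball_self hR))
  have hsub : ball p (R / 2) ⊆ ball p R := ball_subset_ball (by linarith)
  have hI : Set.uIoc (0 : ℝ) 1 ⊆ Icc (0 : ℝ) 1 := by
    rw [Set.uIoc_of_le zero_le_one]
    exact Ioc_subset_Icc_self
  have hcf : ∀ x ∈ ball p (R / 2), ContinuousOn (fun t : ℝ => f (p + (t : ℂ) • (x - p)))
      (Icc (0 : ℝ) 1) := by
    intro x hx
    exact hf.continuousOn.comp (G14b_segc p x).continuousOn
      (fun t ht => hsub (G14b_seg hx ht))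
  constructor
  · intro x₀ hx₀
    apply DifferentiableAt.differentiableWithinAt
    have hC1 : ContDiffOn ℂ 1 f (ball p R) :=
      Pool.Agent.Helper540.contDiffOn_of_differentiableOn isOpen_ball hf 1
    have hfc : ContinuousOn (fderiv ℂ f) (ball p R) :=
      hC1.continuousOn_fderiv_of_isOpen isOpen_ball le_rfl
    have key := intervalIntegral.hasFDerivAt_integral_of_dominated_of_fderiv_le
      (μ := volume) (a := 0) (b := 1) (𝕜 := ℂ)
      (F := fun (x : ℂ × ℂ) (t : ℝ) => f (p + (t : ℂ) • (x - p)))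
      (F' := fun (x : ℂ × ℂ) (t : ℝ) => (t : ℂ) • fderiv ℂ f (p + (t : ℂ) • (x - p)))
      (x₀ := x₀) (s := ball p (R / 2)) (bound := fun _ => 4 * M / R)
      (isOpen_ball.mem_nhds hx₀) ?_ ?_ ?_ ?_ ?_ ?_
    · exact key.differentiableAt
    · filter_upwards [isOpen_ball.mem_nhds hx₀] with x hx
      exact ((hcf x hx).mono hI).aestronglyMeasurable measurableSet_uIoc
    · apply ContinuousOn.intervalIntegrable
      rw [Set.uIcc_of_le zero_le_one]
      exact hcf x₀ hx₀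
    · apply ContinuousOn.aestronglyMeasurable _ measurableSet_uIoc
      apply ContinuousOn.smul (Complex.continuous_ofReal.continuousOn)
      exact hfc.comp (G14b_segc p x₀).continuousOn (fun t ht => hsub (G14b_seg hx₀ (hI ht)))
    · refine Eventually.of_forall fun t ht x hx => ?_
      have ht' := hI ht
      rw [norm_smul, Complex.norm_real, Real.norm_eq_abs, abs_of_nonneg ht'.1]
      have h1 := Pool.Agent.Helper540.norm_fderiv_le_half hf hM (G14b_seg hx ht')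
      calc t * ‖fderiv ℂ f (p + (t : ℂ) • (x - p))‖ ≤ 1 * (4 * M / R) :=
            mul_le_mul ht'.2 h1 (norm_nonneg _) zero_le_one
        _ = _ := one_mul _
    · exact intervalIntegrable_const
    · refine Eventually.of_forall fun t ht x hx => ?_
      have h1 : HasFDerivAt f (fderiv ℂ f (p + (t : ℂ) • (x - p))) (p + (t : ℂ) • (x - p)) :=
        (hf.differentiableAt (isOpen_ball.mem_nhds (hsub (G14b_seg hx (hI ht))))).hasFDerivAt
      have h2 : HasFDerivAt (fun x : ℂ × ℂ => p + (t : ℂ) • (x - p))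
          ((t : ℂ) • ContinuousLinearMap.id ℂ (ℂ × ℂ)) x :=
        (((hasFDerivAt_id x).sub_const p).const_smul (t : ℂ)).const_add p
      have h3 := h1.comp x h2
      have e : (fderiv ℂ f (p + (t : ℂ) • (x - p))).comp ((t : ℂ) • ContinuousLinearMap.id ℂ (ℂ × ℂ)) =
          (t : ℂ) • fderiv ℂ f (p + (t : ℂ) • (x - p)) := by
        rw [ContinuousLinearMap.comp_smul, ContinuousLinearMap.comp_id]
      rw [e] at h3
      exact h3
  · intro x hx
    have h1 := intervalIntegral.norm_integral_le_of_norm_le_const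
      (a := (0 : ℝ)) (b := 1) (f := fun t : ℝ => f (p + (t : ℂ) • (x - p))) (C := M)
      (fun t ht => hM _ (hsub (G14b_seg hx (hI ht))))
    simpa using h1

theorem G14b_dec {p : ℂ × ℂ} {R M : ℝ} (hR : 0 < R) {u : ℂ × ℂ → ℂ} (hu : HBd (ball p R) M u) :
    ∃ U1 U2, HBd (ball p (R / 4)) (4 * M / R) U1 ∧ HBd (ball p (R / 4)) (4 * M / R) U2 ∧
      ∀ x ∈ ball p (R / 4), u x - u p = (x.1 - p.1) * U1 x + (x.2 - p.2) * U2 x := by
  obtain ⟨hd, hM⟩ := hu
  have hsub : ball p (R / 2) ⊆ ball p R := ball_subset_ball (by linarith)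
  have hsub4 : ball p (R / 4) ⊆ ball p (R / 2) := ball_subset_ball (by linarith)
  have hb : ∀ v : ℂ × ℂ, ‖v‖ ≤ 1 → HBd (ball p (R / 4)) (4 * M / R)
      (fun x => ∫ t in (0 : ℝ)..1, fderiv ℂ u (p + (t : ℂ) • (x - p)) v) := by
    intro v hv
    have h1 : DifferentiableOn ℂ (fun z => fderiv ℂ u z v) (ball p (R / 2)) :=
      (Pool.Agent.Helper540.differentiableOn_fderiv_apply isOpen_ball hd v).mono hsub
    have h2 : ∀ x ∈ ball p (R / 2), ‖fderiv ℂ u x v‖ ≤ 4 * M / R := by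
      intro x hx
      have h3 := Pool.Agent.Helper540.norm_fderiv_le_half hd hM hx
      calc ‖fderiv ℂ u x v‖ ≤ ‖fderiv ℂ u x‖ * ‖v‖ := ContinuousLinearMap.le_opNorm _ _
        _ ≤ (4 * M / R) * 1 := mul_le_mul h3 hv (norm_nonneg _) ((norm_nonneg _).trans h3)
        _ = _ := mul_one _
    have h4 := G14b_avg (by positivity : 0 < R / 2) h1 h2
    have e : R / 2 / 2 = R / 4 := by ring
    rw [e] at h4
    exact h4
  have n1 : ‖((1 : ℂ), (0 : ℂ))‖ ≤ 1 := by simp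
  have n2 : ‖((0 : ℂ), (1 : ℂ))‖ ≤ 1 := by simp
  refine ⟨_, _, hb (1, 0) n1, hb (0, 1) n2, ?_⟩
  intro x hx
  have hC1 : ContDiffOn ℂ 1 u (ball p R) :=
    Pool.Agent.Helper540.contDiffOn_of_differentiableOn isOpen_ball hd 1
  have hfc : ContinuousOn (fderiv ℂ u) (ball p R) :=
    hC1.continuousOn_fderiv_of_isOpen isOpen_ball le_rfl
  have hcv : ∀ v : ℂ × ℂ, ContinuousOn (fun t : ℝ => fderiv ℂ u (p + (t : ℂ) • (x - p)) v)
      (Icc (0 : ℝ) 1) := by
    intro v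
    have h1 : ContinuousOn (fun t : ℝ => fderiv ℂ u (p + (t : ℂ) • (x - p))) (Icc (0 : ℝ) 1) :=
      hfc.comp (G14b_segc p x).continuousOn (fun t ht => hsub (hsub4 (G14b_seg hx ht)))
    exact h1.clm_apply continuousOn_const
  have hint : ∀ v : ℂ × ℂ, IntervalIntegrable
      (fun t : ℝ => fderiv ℂ u (p + (t : ℂ) • (x - p)) v) volume 0 1 := by
    intro v
    apply ContinuousOn.intervalIntegrable
    rw [Set.uIcc_of_le zero_le_one]
    exact hcv v
  have hlin : ∀ z : ℂ × ℂ, fderiv ℂ u z (x - p) =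
      (x.1 - p.1) * fderiv ℂ u z (1, 0) + (x.2 - p.2) * fderiv ℂ u z (0, 1) := by
    intro z
    have e : x - p = (x.1 - p.1) • ((1 : ℂ), (0 : ℂ)) + (x.2 - p.2) • ((0 : ℂ), (1 : ℂ)) := by
      ext <;> simp
    conv_lhs => rw [e]
    rw [map_add, map_smul, map_smul, smul_eq_mul, smul_eq_mul]
  have hder : ∀ t ∈ Set.uIcc (0 : ℝ) 1, HasDerivAt (fun t : ℝ => u (p + (t : ℂ) • (x - p)))
      (fderiv ℂ u (p + (t : ℂ) • (x - p)) (x - p)) t := by
    intro t ht
    rw [Set.uIcc_of_le zero_le_one] at ht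
    have h1 : HasFDerivAt u (fderiv ℂ u (p + (t : ℂ) • (x - p))) (p + (t : ℂ) • (x - p)) :=
      (hd.differentiableAt (isOpen_ball.mem_nhds (hsub (hsub4 (G14b_seg hx ht))))).hasFDerivAt
    have h2 : HasDerivAt (fun t : ℝ => p + (t : ℂ) • (x - p)) (x - p) t := by
      have h3 : HasDerivAt (fun t : ℝ => (t : ℂ)) 1 t := Complex.ofRealCLM.hasDerivAt
      have h4 := (h3.smul_const (x - p)).const_add p
      rwa [one_smul] at h4
    have h5 := (h1.restrictScalars ℝ).comp_hasDerivAt t h2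
    exact h5
  have hftc := intervalIntegral.integral_eq_sub_of_hasDerivAt hder (hint (x - p))
  have e0 : p + ((0 : ℝ) : ℂ) • (x - p) = p := by simp
  have e1 : p + ((1 : ℝ) : ℂ) • (x - p) = x := by simp
  rw [e0, e1] at hftc
  rw [← hftc]
  have e2 : (fun t : ℝ => fderiv ℂ u (p + (t : ℂ) • (x - p)) (x - p)) =
      fun t : ℝ => (x.1 - p.1) * fderiv ℂ u (p + (t : ℂ) • (x - p)) (1, 0) +
        (x.2 - p.2) * fderiv ℂ u (p + (t : ℂ) • (x - p)) (0, 1) := by
    funext t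
    exact hlin _
  rw [e2, intervalIntegral.integral_add ((hint (1, 0)).const_mul _) ((hint (0, 1)).const_mul _),
    intervalIntegral.integral_const_mul, intervalIntegral.integral_const_mul]

/-- a general `∂̄` in the direction `v` -/
noncomputable def G14b_db (v : ℂ × ℂ) (u : ℂ × ℂ → ℂ) (x : ℂ × ℂ) : ℂ :=
  (fderiv ℝ u x v + Complex.I * fderiv ℝ u x (Complex.I • v)) / 2

theorem G14b_db1 (u : ℂ × ℂ → ℂ) : db1 u = G14b_db (1, 0) u := by
  funext x
  simp only [db1, G14b_db]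
  congr 3
  congr 1
  ext <;> simp

theorem G14b_db2 (u : ℂ × ℂ → ℂ) : db2 u = G14b_db (0, 1) u := by
  funext x
  simp only [db2, G14b_db]
  congr 3
  congr 1
  ext <;> simp

theorem G14b_congr {u w : ℂ × ℂ → ℂ} {x : ℂ × ℂ} (h : u =ᶠ[𝓝 x] w) (v : ℂ × ℂ) :
    G14b_db v u x = G14b_db v w x := by
  simp only [G14b_db, h.fderiv_eq]

theorem G14b_cst {u : ℂ × ℂ → ℂ} {x : ℂ × ℂ} {c : ℂ} (h : u =ᶠ[𝓝 x] fun _ => c) (v : ℂ × ℂ) :
    G14b_db v u x = 0 := by
  rw [G14b_congr h v]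
  simp [G14b_db]

theorem G14b_mul {u w : ℂ × ℂ → ℂ} {x : ℂ × ℂ} (hu : DifferentiableAt ℝ u x)
    (hw : DifferentiableAt ℝ w x) (v : ℂ × ℂ) :
    G14b_db v (fun y => u y * w y) x = G14b_db v u x * w x + u x * G14b_db v w x := by
  have h := (hu.hasFDerivAt.mul hw.hasFDerivAt).fderiv
  have e : (fun y => u y * w y) = u * w := rfl
  simp only [G14b_db]
  rw [e, h]
  simp only [add_apply, smul_apply, smul_eq_mul]
  ring

theorem G14b_sub {u w : ℂ × ℂ → ℂ} {x : ℂ × ℂ} (hu : DifferentiableAt ℝ u x)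
    (hw : DifferentiableAt ℝ w x) (v : ℂ × ℂ) :
    G14b_db v (fun y => u y - w y) x = G14b_db v u x - G14b_db v w x := by
  have h := (hu.hasFDerivAt.sub hw.hasFDerivAt).fderiv
  have e : (fun y => u y - w y) = u - w := rfl
  simp only [G14b_db]
  rw [e, h]
  simp only [sub_apply]
  ring

theorem G14b_addc {u : ℂ × ℂ → ℂ} {x : ℂ × ℂ} (c : ℂ) (v : ℂ × ℂ) :
    G14b_db v (fun y => u y + c) x = G14b_db v u x := by
  simp only [G14b_db, fderiv_add_const]

theorem G14b_hol {u : ℂ × ℂ → ℂ} {x : ℂ × ℂ} (hu : DifferentiableAt ℂ u x) (v : ℂ × ℂ) :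
    G14b_db v u x = 0 := by
  simp only [G14b_db]
  rw [(hu.hasFDerivAt.restrictScalars ℝ).fderiv]
  simp only [ContinuousLinearMap.coe_restrictScalars', map_smul, smul_eq_mul]
  rw [← mul_assoc, Complex.I_mul_I]
  ring

theorem G14b_cd {u : ℂ × ℂ → ℂ} (hu : ContDiff ℝ 2 u) (v : ℂ × ℂ) :
    ContDiff ℝ 1 (fun x => fderiv ℝ u x v) :=
  (hu.fderiv_right (m := 1) (by norm_num)).clm_apply contDiff_const

theorem G14b_cd' {u : ℂ × ℂ → ℂ} (hu : ContDiff ℝ 2 u) (v : ℂ × ℂ) :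
    ContDiff ℝ 1 (G14b_db v u) := by
  have h1 := G14b_cd hu v
  have h2 := G14b_cd hu (Complex.I • v)
  exact (h1.add (contDiff_const.mul h2)).div_const 2

theorem G14b_comm {u : ℂ × ℂ → ℂ} (hu : ContDiff ℝ 2 u) (v w : ℂ × ℂ) (x : ℂ × ℂ) :
    G14b_db v (G14b_db w u) x = G14b_db w (G14b_db v u) x := by
  have hd : DifferentiableAt ℝ (fderiv ℝ u) x :=
    ((hu.fderiv_right (m := 1) (by norm_num)).differentiable (by norm_num)) x
  have hs : IsSymmSndFDerivAt ℝ u x :=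
    (hu.contDiffAt (x := x)).isSymmSndFDerivAt (by simp)
  have h2 : ∀ a b : ℂ × ℂ, fderiv ℝ (fun y => fderiv ℝ u y a) x b =
      fderiv ℝ (fderiv ℝ u) x b a := by
    intro a b
    have := (hd.hasFDerivAt.clm_apply (hasFDerivAt_const a x)).fderiv
    rw [this]
    simp
  have h3 : ∀ a b : ℂ × ℂ, fderiv ℝ (G14b_db a u) x b =
      (fderiv ℝ (fderiv ℝ u) x b a + Complex.I * fderiv ℝ (fderiv ℝ u) x b (Complex.I • a)) / 2 := by
    intro a b
    have d1 : DifferentiableAt ℝ (fun y => fderiv ℝ u y a) x :=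
      ((G14b_cd hu a).differentiable (by norm_num)) x
    have d2 : DifferentiableAt ℝ (fun y => fderiv ℝ u y (Complex.I • a)) x :=
      ((G14b_cd hu (Complex.I • a)).differentiable (by norm_num)) x
    have d3 : HasFDerivAt (G14b_db a u) ((2 : ℂ)⁻¹ • (fderiv ℝ (fun y => fderiv ℝ u y a) x +
        Complex.I • fderiv ℝ (fun y => fderiv ℝ u y (Complex.I • a)) x)) x := by
      have := (d1.hasFDerivAt.add (d2.hasFDerivAt.const_smul Complex.I)).const_smul ((2 : ℂ)⁻¹)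
      refine this.congr_of_eventuallyEq (Eventually.of_forall fun y => ?_)
      simp only [G14b_db, smul_eq_mul, Pi.add_apply, Pi.smul_apply]
      ring
    rw [d3.fderiv]
    simp only [add_apply, smul_apply, smul_eq_mul, h2]
    ring
  have hs' : ∀ a b : ℂ × ℂ, fderiv ℝ (fderiv ℝ u) x a b = fderiv ℝ (fderiv ℝ u) x b a :=
    fun a b => hs a b
  have e1 : G14b_db v (G14b_db w u) x = (fderiv ℝ (G14b_db w u) x v +
    Complex.I * fderiv ℝ (G14b_db w u) x (Complex.I • v)) / 2 := rfl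
  have e2 : G14b_db w (G14b_db v u) x = (fderiv ℝ (G14b_db v u) x w +
    Complex.I * fderiv ℝ (G14b_db v u) x (Complex.I • w)) / 2 := rfl
  rw [e1, e2, h3, h3, h3, h3, hs' v w, hs' v (Complex.I • w), hs' (Complex.I • v) w,
    hs' (Complex.I • v) (Complex.I • w)]
  ring

/-- the cut-off function -/
theorem G14b_cut (p : ℂ × ℂ) {a b : ℝ} (ha : 0 < a) (hab : a < b) : ∃ χ : ℂ × ℂ → ℝ,
    ContDiff ℝ 3 χ ∧ HasCompactSupport χ ∧ (∀ x, 0 ≤ χ x) ∧ (∀ x, χ x ≤ 1) ∧
    (∀ x ∈ ball p a, χ x = 1) ∧ ∀ x, x ∉ ball p b → χ x = 0 := by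
  let τ : ContDiffBump p := ⟨a, b, ha, hab⟩
  refine ⟨τ, τ.contDiff, τ.hasCompactSupport, fun x => τ.nonneg, fun x => τ.le_one, ?_, ?_⟩
  · intro x hx
    exact τ.one_of_mem_closedBall (ball_subset_closedBall hx)
  · intro x hx
    apply τ.zero_of_le_dist
    rw [mem_ball, not_lt] at hx
    exact hx

/-- bound of the first derivatives of a function with compact support -/
theorem G14b_bd {T : ℂ × ℂ → ℂ} (hT : ContDiff ℝ 2 T) (hc : HasCompactSupport T) :
    ∃ K : ℝ, 0 ≤ K ∧ ∀ x, ‖G14b_db (1, 0) T x‖ ≤ K ∧ ‖G14b_db (0, 1) T x‖ ≤ K := by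
  have h1 : Continuous (fderiv ℝ T) := hT.continuous_fderiv (by norm_num)
  have h2 : HasCompactSupport (fderiv ℝ T) := hc.fderiv (𝕜 := ℝ)
  obtain ⟨K, hK⟩ := h2.exists_bound_of_continuous h1
  have hK0 : 0 ≤ K := (norm_nonneg _).trans (hK 0)
  have key : ∀ v : ℂ × ℂ, ‖v‖ ≤ 1 → ∀ x, ‖G14b_db v T x‖ ≤ K := by
    intro v hv x
    have h3 : ∀ w : ℂ × ℂ, ‖w‖ ≤ 1 → ‖fderiv ℝ T x w‖ ≤ K := by
      intro w hw
      calc ‖fderiv ℝ T x w‖ ≤ ‖fderiv ℝ T x‖ * ‖w‖ := ContinuousLinearMap.le_opNorm _ _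
        _ ≤ K * 1 := mul_le_mul (hK x) hw (norm_nonneg _) hK0
        _ = K := mul_one K
    have hI : ‖Complex.I • v‖ ≤ 1 := by
      rw [norm_smul, Complex.norm_I, one_mul]
      exact hv
    have h4 := h3 v hv
    have h5 := h3 _ hI
    simp only [G14b_db]
    rw [norm_div]
    have h6 : ‖(2 : ℂ)‖ = 2 := by simp
    rw [h6, div_le_iff₀ (by norm_num)]
    calc ‖fderiv ℝ T x v + Complex.I * fderiv ℝ T x (Complex.I • v)‖ ≤
        ‖fderiv ℝ T x v‖ + ‖Complex.I * fderiv ℝ T x (Complex.I • v)‖ := norm_add_le _ _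
      _ = ‖fderiv ℝ T x v‖ + ‖fderiv ℝ T x (Complex.I • v)‖ := by
        rw [norm_mul, Complex.norm_I, one_mul]
      _ ≤ K * 2 := by linarith
  refine ⟨K, hK0, fun x => ⟨key _ (by simp) x, key _ (by simp) x⟩⟩

/-- the coefficients of the form: `g` times a function `A` which vanishes off the annulus -/
theorem G14b_coef {D E : Set (ℂ × ℂ)} (hD : IsOpen D) {p : ℂ × ℂ} {r M K : ℝ}
    (hr : 0 < r) (hM : 0 ≤ M) (hK : 0 ≤ K)
    (hDE : ∀ x ∈ E, x ∉ ball p (r / 2) → x ∈ D) {g A : ℂ × ℂ → ℂ}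
    (hg : ContDiffOn ℝ 1 g (D ∩ ball p r)) (hgM : ∀ x ∈ D ∩ ball p r, ‖g x‖ ≤ M)
    (hA : ContDiff ℝ 1 A) (hAK : ∀ x, ‖A x‖ ≤ K)
    (hA1 : ∀ x ∈ ball p (3 * r / 5), A x = 0) (hA2 : ∀ x, x ∉ ball p (3 * r / 4) → A x = 0) :
    ContDiffOn ℝ 1 (D.indicator (fun x => g x * A x)) E ∧
      (∀ x ∈ E, ‖D.indicator (fun x => g x * A x) x‖ ≤ K * M) ∧
      (∀ x ∈ E, ((x ∈ ball p (3 * r / 5) ∨ x ∉ closedBall p (3 * r / 4)) ∧
        D.indicator (fun x => g x * A x) =ᶠ[𝓝 x] fun _ => 0) ∨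
        (x ∈ D ∩ ball p r ∧ D.indicator (fun x => g x * A x) =ᶠ[𝓝 x] fun x => g x * A x)) := by
  have hz : ∀ x, A x = 0 → D.indicator (fun x => g x * A x) x = 0 := by
    intro x hx
    by_cases h : x ∈ D
    · rw [indicator_of_mem h, hx, mul_zero]
    · rw [indicator_of_notMem h]
  have key : ∀ x ∈ E, ((x ∈ ball p (3 * r / 5) ∨ x ∉ closedBall p (3 * r / 4)) ∧
        D.indicator (fun x => g x * A x) =ᶠ[𝓝 x] fun _ => 0) ∨
        (x ∈ D ∩ ball p r ∧ D.indicator (fun x => g x * A x) =ᶠ[𝓝 x] fun x => g x * A x) := by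
    intro x hx
    by_cases h1 : x ∈ ball p (3 * r / 5)
    · left
      refine ⟨Or.inl h1, ?_⟩
      filter_upwards [isOpen_ball.mem_nhds h1] with y hy
      exact hz y (hA1 y hy)
    by_cases h2 : x ∈ closedBall p (3 * r / 4)
    · right
      have h3 : x ∈ D := hDE x hx (fun h => h1 (ball_subset_ball (by linarith) h))
      refine ⟨⟨h3, closedBall_subset_ball (by linarith) h2⟩, ?_⟩
      filter_upwards [hD.mem_nhds h3] with y hy
      rw [indicator_of_mem hy]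
    · left
      refine ⟨Or.inr h2, ?_⟩
      filter_upwards [isClosed_closedBall.isOpen_compl.mem_nhds h2] with y hy
      exact hz y (hA2 y (fun h => hy (ball_subset_closedBall h)))
  have hO : IsOpen (D ∩ ball p r) := hD.inter isOpen_ball
  refine ⟨?_, ?_, key⟩
  · intro x hx
    apply ContDiffAt.contDiffWithinAt
    rcases key x hx with ⟨-, h⟩ | ⟨h1, h⟩
    · exact contDiffAt_const.congr_of_eventuallyEq h
    · exact ((hg.contDiffAt (hO.mem_nhds h1)).mul hA.contDiffAt).congr_of_eventuallyEq h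
  · intro x hx
    rcases key x hx with ⟨-, h⟩ | ⟨h1, h⟩
    · rw [h.eq_of_nhds, norm_zero]
      positivity
    · rw [h.eq_of_nhds, norm_mul, mul_comm K M]
      exact mul_le_mul (hgM x h1) (hAK x) (norm_nonneg _) hM

/-- **TARGET** -/
theorem loc_lem {ρ : ℂ × ℂ → ℝ} (h : NF ρ) {p : ℂ × ℂ} (hp : ρ p ≤ 0) {r : ℝ} (hr : 0 < r) :
    ∃ r' C : ℝ, 0 < r' ∧ r' ≤ r ∧ 0 ≤ C ∧ Lcz {x | ρ x < 0} p r r' C := by
  -- the larger domain
  obtain ⟨χ, hχ, hχc, hχ0, -, hχ1, hχz⟩ := G14b_cut p (by positivity : 0 < r / 8)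
    (by linarith : r / 8 < r / 4)
  have hst := nf_stable h (hχ.of_le (by norm_num : (2 : WithTop ℕ∞) ≤ 3)) hχc
  obtain ⟨ε, hNF, hε⟩ : ∃ ε : ℝ, NF (fun x => ρ x - ε * χ x) ∧ 0 < ε := by
    have h1 : ∀ᶠ ε in 𝓝[>] (0 : ℝ), NF (fun x => ρ x - ε * χ x) := hst.filter_mono nhdsWithin_le_nhds
    exact (h1.and self_mem_nhdsWithin).exists
  obtain ⟨C₁, hC₁, hslv⟩ := slv_nf hNF
  obtain ⟨D, hDdef⟩ : ∃ D, D = {x | ρ x < 0} := ⟨_, rfl⟩
  obtain ⟨D₁, hD₁def⟩ : ∃ D₁, D₁ = {x | ρ x - ε * χ x < 0} := ⟨_, rfl⟩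
  rw [← hDdef]
  rw [← hD₁def] at hslv
  have hρc : Continuous ρ := h.smooth.continuous
  have hD : IsOpen D := by
    rw [hDdef]
    exact isOpen_lt hρc continuous_const
  have hD₁ : IsOpen D₁ := by
    rw [hD₁def]
    exact isOpen_lt (hρc.sub (continuous_const.mul hχ.continuous)) continuous_const
  have hDD : D ⊆ D₁ := by
    intro x hx
    rw [hDdef, mem_ofPred_eq] at hx
    rw [hD₁def, mem_ofPred_eq]
    have := mul_nonneg hε.le (hχ0 x)
    linarith
  have hpD : p ∈ D₁ := by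
    rw [hD₁def, mem_ofPred_eq, hχ1 p (mem_ball_self (by positivity))]
    linarith
  have hDE : ∀ x ∈ D₁, x ∉ ball p (r / 2) → x ∈ D := by
    intro x hx hxn
    rw [hD₁def, mem_ofPred_eq, hχz x (fun h1 => hxn (ball_subset_ball (by linarith) h1))] at hx
    rw [hDdef, mem_ofPred_eq]
    linarith
  -- the cut-off function
  obtain ⟨τ, hτ, hτc, hτ0, hτle, hτ1, hτz⟩ := G14b_cut p (by positivity : 0 < 3 * r / 5)
    (by linarith : 3 * r / 5 < 3 * r / 4)
  obtain ⟨T, hTdef⟩ : ∃ T : ℂ × ℂ → ℂ, T = fun x => (τ x : ℂ) := ⟨_, rfl⟩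
  have hT : ContDiff ℝ 2 T := by
    rw [hTdef]
    exact (Complex.ofRealCLM.contDiff.comp hτ).of_le (by norm_num)
  have hTc : HasCompactSupport T := by
    rw [hTdef]
    exact hτc.comp_left (g := fun y : ℝ => (y : ℂ)) (by simp)
  have hTle : ∀ x, ‖T x‖ ≤ 1 := by
    intro x
    rw [hTdef]
    simp only [Complex.norm_real, Real.norm_eq_abs]
    rw [abs_of_nonneg (hτ0 x)]
    exact hτle x
  have hT1 : ∀ x ∈ ball p (3 * r / 5), T x = 1 := by
    intro x hx
    rw [hTdef]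
    simp [hτ1 x hx]
  have hTz : ∀ x, x ∉ ball p (3 * r / 4) → T x = 0 := by
    intro x hx
    rw [hTdef]
    simp [hτz x hx]
  obtain ⟨K, hK0, hK⟩ := G14b_bd hT hTc
  have hdT1 : ∀ v : ℂ × ℂ, ∀ x ∈ ball p (3 * r / 5), G14b_db v T x = 0 := by
    intro v x hx
    apply G14b_cst (c := 1)
    filter_upwards [isOpen_ball.mem_nhds hx] with y hy
    exact hT1 y hy
  have hTsupp : Function.support T ⊆ ball p (3 * r / 4) := by
    intro x hx
    by_contra hn
    exact hx (hTz x hn)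
  have hdTz : ∀ v : ℂ × ℂ, ∀ x, x ∉ ball p (3 * r / 4) → G14b_db v T x = 0 := by
    intro v x hx
    by_cases h2 : x ∈ closedBall p (3 * r / 4)
    · -- on the sphere: the derivative is `0` by continuity; `T ≥ 0` has a minimum
      have hmin : fderiv ℝ T x = 0 := by
        have h3 : IsLocalMin τ x := by
          apply Eventually.of_forall
          intro y
          have h4 : τ x = 0 := hτz x hx
          simp only [h4]
          exact hτ0 y
        have h4 : fderiv ℝ τ x = 0 := h3.fderiv_eq_zero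
        have h5 : DifferentiableAt ℝ τ x := (hτ.differentiable (by norm_num)) x
        rw [hTdef]
        have h6 := (Complex.ofRealCLM.hasFDerivAt.comp x h5.hasFDerivAt).fderiv
        have h7 : (fun x => (τ x : ℂ)) = Complex.ofRealCLM ∘ τ := rfl
        rw [h7, h6, h4, ContinuousLinearMap.comp_zero]
      simp [G14b_db, hmin]
    · apply G14b_cst (c := 0)
      filter_upwards [isClosed_closedBall.isOpen_compl.mem_nhds h2] with y hy
      exact hTz y (fun h => hy (ball_subset_closedBall h))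
  -- the radius
  obtain ⟨R, hR0, hR⟩ : ∃ R : ℝ, 0 < R ∧ ball p R ⊆ D₁ ∩ ball p (r / 2) := by
    have h1 : D₁ ∩ ball p (r / 2) ∈ 𝓝 p :=
      inter_mem (hD₁.mem_nhds hpD) (isOpen_ball.mem_nhds (mem_ball_self (by positivity)))
    exact Metric.mem_nhds_iff.1 h1
  obtain ⟨R', hR'⟩ : ∃ R' : ℝ, R' = min R (r / 2) := ⟨_, rfl⟩
  have hR'0 : 0 < R' := by
    rw [hR']
    exact lt_min hR0 (by positivity)
  have hR'r : R' ≤ r / 2 := by
    rw [hR']
    exact min_le_right _ _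
  have hR'R : ball p R' ⊆ D₁ ∩ ball p (r / 2) := by
    rw [hR']
    exact (ball_subset_ball (min_le_left _ _)).trans hR
  refine ⟨R' / 4, (1 + 2 * (C₁ * K)) + 4 * (C₁ * K) / R', by positivity, by linarith, by positivity, ?_⟩
  rintro g M hM ⟨hg, hgM⟩
  have hO : IsOpen (D ∩ ball p r) := hD.inter isOpen_ball
  have hg1 : ContDiffOn ℝ 1 g (D ∩ ball p r) :=
    (Pool.Agent.Helper540.contDiffOn_of_differentiableOn hO hg 1).restrict_scalars ℝ
  have hcA : ∀ v : ℂ × ℂ, ContDiff ℝ 1 (G14b_db v T) := fun v => G14b_cd' hT v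
  obtain ⟨f1, f2, f3⟩ := G14b_coef hD hr hM hK0 hDE hg1 hgM (hcA (1, 0)) (fun x => (hK x).1)
    (hdT1 (1, 0)) (hdTz (1, 0))
  obtain ⟨k1, k2, k3⟩ := G14b_coef hD hr hM hK0 hDE hg1 hgM (hcA (0, 1)) (fun x => (hK x).2)
    (hdT1 (0, 1)) (hdTz (0, 1))
  obtain ⟨f, hf⟩ : ∃ f, f = D.indicator (fun x => g x * G14b_db (1, 0) T x) := ⟨_, rfl⟩
  obtain ⟨k, hk⟩ : ∃ k, k = D.indicator (fun x => g x * G14b_db (0, 1) T x) := ⟨_, rfl⟩
  rw [← hf] at f1 f2 f3
  rw [← hk] at k1 k2 k3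
  have hdg : ∀ x ∈ D ∩ ball p r, DifferentiableAt ℂ g x := fun x hx =>
    hg.differentiableAt (hO.mem_nhds hx)
  have hdgR : ∀ x ∈ D ∩ ball p r, DifferentiableAt ℝ g x := fun x hx => (hdg x hx).restrictScalars ℝ
  have hdA : ∀ (v x : ℂ × ℂ), DifferentiableAt ℝ (G14b_db v T) x := fun v x =>
    ((hcA v).differentiable (by norm_num)) x
  have hdT : ∀ x : ℂ × ℂ, DifferentiableAt ℝ T x := fun x => (hT.differentiable (by norm_num)) x
  -- the form is closed
  have hFm : Fm D₁ (K * M) f k := by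
    refine ⟨f1, k1, ?_, f2, k2⟩
    intro x hx
    rw [G14b_db1, G14b_db2]
    rcases f3 x hx with ⟨hx1, h1⟩ | ⟨hx1, h1⟩
    · rcases k3 x hx with ⟨hx2, h2⟩ | ⟨hx2, h2⟩
      · rw [G14b_cst h1, G14b_cst h2]
      · -- `k` is also locally zero
        have h3 : k =ᶠ[𝓝 x] fun _ => 0 := by
          rcases hx1 with hx1 | hx1
          · filter_upwards [h2, isOpen_ball.mem_nhds hx1] with y hy1 hy2
            rw [hy1, hdT1 _ y hy2, mul_zero]
          · filter_upwards [h2, isClosed_closedBall.isOpen_compl.mem_nhds hx1] with y hy1 hy2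
            rw [hy1, hdTz _ y (fun h => hy2 (ball_subset_closedBall h)), mul_zero]
        rw [G14b_cst h1, G14b_cst h3]
    · rcases k3 x hx with ⟨hx2, h2⟩ | ⟨hx2, h2⟩
      · have h3 : f =ᶠ[𝓝 x] fun _ => 0 := by
          rcases hx2 with hx2 | hx2
          · filter_upwards [h1, isOpen_ball.mem_nhds hx2] with y hy1 hy2
            rw [hy1, hdT1 _ y hy2, mul_zero]
          · filter_upwards [h1, isClosed_closedBall.isOpen_compl.mem_nhds hx2] with y hy1 hy2
            rw [hy1, hdTz _ y (fun h => hy2 (ball_subset_closedBall h)), mul_zero]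
        rw [G14b_cst h3, G14b_cst h2]
      · rw [G14b_congr h1, G14b_congr h2, G14b_mul (hdgR x hx1) (hdA _ x),
          G14b_mul (hdgR x hx1) (hdA _ x), G14b_hol (hdg x hx1), G14b_hol (hdg x hx1),
          G14b_comm hT]
        ring
  obtain ⟨u, hu⟩ := hslv f k (K * M) hFm
  have hB : ∀ x ∈ D₁, ‖u x‖ ≤ C₁ * K * M := by
    intro x hx
    have := hu.ub x hx
    linarith [mul_assoc C₁ K M]
  have huat : ∀ x ∈ D₁, ContDiffAt ℝ 1 u x := fun x hx => hu.u1.contDiffAt (hD₁.mem_nhds hx)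
  have hud : ∀ x ∈ D₁, DifferentiableAt ℝ u x := fun x hx =>
    (huat x hx).differentiableAt (by norm_num)
  -- `u` is holomorphic near `p`
  have huhol : HBd (ball p R') (C₁ * K * M) u := by
    refine ⟨?_, fun x hx => hB x (hR'R hx).1⟩
    apply hol_so isOpen_ball (hu.u1.mono (fun x hx => (hR'R hx).1))
    · intro x hx
      rw [hu.e1 x (hR'R hx).1]
      rcases f3 x (hR'R hx).1 with ⟨-, h1⟩ | ⟨-, h1⟩
      · exact h1.eq_of_nhds
      · rw [h1.eq_of_nhds, hdT1 _ x (ball_subset_ball (by linarith) (hR'R hx).2), mul_zero]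
    · intro x hx
      rw [hu.e2 x (hR'R hx).1]
      rcases k3 x (hR'R hx).1 with ⟨-, h1⟩ | ⟨-, h1⟩
      · exact h1.eq_of_nhds
      · rw [h1.eq_of_nhds, hdT1 _ x (ball_subset_ball (by linarith) (hR'R hx).2), mul_zero]
  obtain ⟨U1, U2, hU1, hU2, hU⟩ := G14b_dec hR'0 huhol
  -- the function on `D`
  have hGat : ∀ x ∈ D, ContDiffAt ℝ 1 (fun y => T y * g y) x ∧
      ∀ v, G14b_db v (fun y => T y * g y) x = g x * G14b_db v T x := by
    intro x hx
    by_cases hxb : x ∈ ball p r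
    · have hx1 : x ∈ D ∩ ball p r := ⟨hx, hxb⟩
      refine ⟨((hT.of_le (by norm_num)).contDiffAt).mul (hg1.contDiffAt (hO.mem_nhds hx1)), fun v => ?_⟩
      rw [G14b_mul (hdT x) (hdgR x hx1), G14b_hol (hdg x hx1)]
      ring
    · have h1 : (fun y => T y * g y) =ᶠ[𝓝 x] fun _ => 0 := by
        have h2 : x ∈ (closedBall p (3 * r / 4))ᶜ := fun h =>
          hxb (closedBall_subset_ball (by linarith) h)
        filter_upwards [isClosed_closedBall.isOpen_compl.mem_nhds h2] with y hy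
        rw [hTz y (fun h => hy (ball_subset_closedBall h)), zero_mul]
      refine ⟨contDiffAt_const.congr_of_eventuallyEq h1, fun v => ?_⟩
      rw [G14b_cst h1, hdTz v x (fun h => hxb (ball_subset_ball (by linarith) h)), mul_zero]
  have hfx : ∀ x ∈ D, f x = g x * G14b_db (1, 0) T x := fun x hx => by rw [hf, indicator_of_mem hx]
  have hkx : ∀ x ∈ D, k x = g x * G14b_db (0, 1) T x := fun x hx => by rw [hk, indicator_of_mem hx]
  have hCKM : 0 ≤ C₁ * K * M := by positivity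
  have hfin1 : C₁ * K * M + C₁ * K * M + M ≤ ((1 + 2 * (C₁ * K)) + 4 * (C₁ * K) / R') * M := by
    have h1 : 0 ≤ 4 * (C₁ * K) / R' * M := by positivity
    nlinarith
  have hfin2 : 4 * (C₁ * K * M) / R' ≤ ((1 + 2 * (C₁ * K)) + 4 * (C₁ * K) / R') * M := by
    have h1 : 4 * (C₁ * K * M) / R' = 4 * (C₁ * K) / R' * M := by ring
    rw [h1]
    have h2 : 0 ≤ (1 + 2 * (C₁ * K)) * M := by positivity
    nlinarith
  refine ⟨fun x => T x * g x - u x + u p, U1, U2, ⟨?_, ?_⟩,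
    ⟨hU1.1, fun x hx => (hU1.2 x hx).trans hfin2⟩, ⟨hU2.1, fun x hx => (hU2.2 x hx).trans hfin2⟩, ?_⟩
  · apply hol_so hD
    · intro x hx
      apply ContDiffAt.contDiffWithinAt
      exact ((hGat x hx).1.sub (huat x (hDD hx))).add contDiffAt_const
    · intro x hx
      rw [G14b_db1, G14b_addc, G14b_sub ((hGat x hx).1.differentiableAt (by norm_num))
        (hud x (hDD hx)), (hGat x hx).2, ← G14b_db1 u, hu.e1 x (hDD hx), hfx x hx, sub_self]
    · intro x hx
      rw [G14b_db2, G14b_addc, G14b_sub ((hGat x hx).1.differentiableAt (by norm_num))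
        (hud x (hDD hx)), (hGat x hx).2, ← G14b_db2 u, hu.e2 x (hDD hx), hkx x hx, sub_self]
  · intro x hx
    have h1 : ‖T x * g x‖ ≤ M := by
      by_cases hxb : x ∈ ball p r
      · rw [norm_mul]
        calc ‖T x‖ * ‖g x‖ ≤ 1 * M := mul_le_mul (hTle x) (hgM x ⟨hx, hxb⟩) (norm_nonneg _) zero_le_one
          _ = M := one_mul M
      · rw [hTz x (fun h => hxb (ball_subset_ball (by linarith) h)), zero_mul, norm_zero]
        exact hM
    calc ‖T x * g x - u x + u p‖ ≤ ‖T x * g x - u x‖ + ‖u p‖ := norm_add_le _ _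
      _ ≤ (‖T x * g x‖ + ‖u x‖) + ‖u p‖ := by
        gcongr
        exact norm_sub_le _ _
      _ ≤ (M + C₁ * K * M) + C₁ * K * M := by
        have h2 := hB x (hDD hx)
        have h3 := hB p hpD
        linarith
      _ ≤ _ := by linarith
  · intro x hx
    have h1 := hU x hx.2
    have h2 : T x = 1 := hT1 x (ball_subset_ball (by linarith) hx.2)
    simp only [h2, one_mul]
    rw [← h1]
    ring

end Pool.Agent.P157G
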