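import Mathlib
import Pool.Agent.P157G.Alg

set_option autoImplicit false

open MeasureTheory Metric Set Filter Topology Complex

namespace Pool.Agent.P157G

open Pool.Agent.P157D (d1 d2 CR Bo)

theorem G15a_hol {D : Set (ℂ × ℂ)} {hD : IsOpen D} {I : Type} [TopologicalSpace I]
    (a : HA I hD) : ∃ f : I → ℂ × ℂ → ℂ, (∀ i, DifferentiableOn ℂ (f i) D) ∧
      (∀ (i : I) (x : D), a.1 (i, x) = f i x) ∧ ∀ i, ∀ x ∈ D, ‖f i x‖ ≤ ‖a‖ := by
  choose f hf hfa using a.2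
  refine ⟨f, hf, fun i x => hfa i x, fun i x hx => ?_⟩
  have h1 := le_normA a (i, ⟨x, hx⟩)
  have h2 : a.1 (i, ⟨x, hx⟩) = f i x := hfa i ⟨x, hx⟩
  rwa [h2] at h1

/-- **TARGET** -/
theorem char_pt {D : Set (ℂ × ℂ)} (hD : IsOpen D) (hb : Bornology.IsBounded D)
    (hdv : ∀ (p : ℂ × ℂ) (r : ℝ), 0 < r → ∃ C, 0 ≤ C ∧ Dv D p r C) {I : Type} [TopologicalSpace I]
    [DiscreteTopology I] (χ : WeakDual.characterSpace ℂ (HA I hD)) : ∃ p ∈ closure D,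
      ∀ (a : HA I hD) (r : ℝ) (U1 U2 : I → ℂ × ℂ → ℂ) (M : ℝ), 0 < r → 0 ≤ M →
        (∀ i, HBd (D ∩ ball p r) M (U1 i)) → (∀ i, HBd (D ∩ ball p r) M (U2 i)) →
        (∀ (i : I) (x : D), (x : ℂ × ℂ) ∈ ball p r →
          a.1 (i, x) = ((x : ℂ × ℂ).1 - p.1) * U1 i x + ((x : ℂ × ℂ).2 - p.2) * U2 i x) → χ a = 0 := by
  obtain ⟨R, hR⟩ := hb.exists_norm_le
  have hd1 : ∀ _ : I, DifferentiableOn ℂ (fun x : ℂ × ℂ => x.1) D :=
    fun _ => differentiable_fst.differentiableOn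
  have hd2 : ∀ _ : I, DifferentiableOn ℂ (fun x : ℂ × ℂ => x.2) D :=
    fun _ => differentiable_snd.differentiableOn
  have hb1 : ∀ _ : I, ∀ x ∈ D, ‖(fun x : ℂ × ℂ => x.1) x‖ ≤ R :=
    fun _ x hx => (norm_fst_le x).trans (hR x hx)
  have hb2 : ∀ _ : I, ∀ x ∈ D, ‖(fun x : ℂ × ℂ => x.2) x‖ ≤ R :=
    fun _ x hx => (norm_snd_le x).trans (hR x hx)
  obtain ⟨X1, hX1⟩ : ∃ X : HA I hD, ∀ x : I × D, X.1 x = (x.2 : ℂ × ℂ).1 :=
    ⟨mkA hD hd1 hb1, fun x => rfl⟩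
  obtain ⟨X2, hX2⟩ : ∃ X : HA I hD, ∀ x : I × D, X.1 x = (x.2 : ℂ × ℂ).2 :=
    ⟨mkA hD hd2 hb2, fun x => rfl⟩
  have key : ∀ (a : HA I hD) (r : ℝ) (U1 U2 : I → ℂ × ℂ → ℂ) (M : ℝ), 0 < r → 0 ≤ M →
        (∀ i, HBd (D ∩ ball ((χ X1, χ X2) : ℂ × ℂ) r) M (U1 i)) →
        (∀ i, HBd (D ∩ ball ((χ X1, χ X2) : ℂ × ℂ) r) M (U2 i)) →
        (∀ (i : I) (x : D), (x : ℂ × ℂ) ∈ ball ((χ X1, χ X2) : ℂ × ℂ) r →
          a.1 (i, x) = ((x : ℂ × ℂ).1 - ((χ X1, χ X2) : ℂ × ℂ).1) * U1 i x +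
            ((x : ℂ × ℂ).2 - ((χ X1, χ X2) : ℂ × ℂ).2) * U2 i x) → χ a = 0 := by
    intro a r U1 U2 M hr hM h1 h2 h3
    obtain ⟨C, hC, hdvC⟩ := hdv (χ X1, χ X2) r hr
    obtain ⟨f, hf, hfa, hfb⟩ := G15a_hol a
    have hM' : 0 ≤ max M ‖a‖ := le_max_of_le_left hM
    have h4 : ∀ i, ∃ G1 G2 : ℂ × ℂ → ℂ, HBd D (C * max M ‖a‖) G1 ∧ HBd D (C * max M ‖a‖) G2 ∧
        ∀ x ∈ D, f i x = (x.1 - χ X1) * G1 x + (x.2 - χ X2) * G2 x := by
      intro i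
      refine hdvC (f i) (U1 i) (U2 i) (max M ‖a‖) hM'
        ⟨hf i, fun x hx => (hfb i x hx).trans (le_max_right _ _)⟩
        ⟨(h1 i).1, fun x hx => ((h1 i).2 x hx).trans (le_max_left _ _)⟩
        ⟨(h2 i).1, fun x hx => ((h2 i).2 x hx).trans (le_max_left _ _)⟩ ?_
      intro x hx
      have h5 := h3 i ⟨x, hx.1⟩ hx.2
      rw [hfa] at h5
      exact h5
    choose G1 G2 hG1 hG2 hG using h4
    have e1 : a = (X1 - algebraMap ℂ (HA I hD) (χ X1)) *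
        mkA hD (fun i => (hG1 i).1) (fun i => (hG1 i).2) +
        (X2 - algebraMap ℂ (HA I hD) (χ X2)) *
        mkA hD (fun i => (hG2 i).1) (fun i => (hG2 i).2) := by
      apply extA
      rintro ⟨i, x⟩
      have h5 := hG i x x.2
      have h6 := hfa i x
      change a.1 (i, x) = (X1.1 (i, x) - χ X1) * G1 i x + (X2.1 (i, x) - χ X2) * G2 i x
      rw [hX1, hX2, h6, h5]
    have e2 : χ (algebraMap ℂ (HA I hD) (χ X1)) = χ X1 := AlgHomClass.commutes χ (χ X1)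
    have e3 : χ (algebraMap ℂ (HA I hD) (χ X2)) = χ X2 := AlgHomClass.commutes χ (χ X2)
    rw [e1, map_add, map_mul, map_mul, map_sub, map_sub, e2, e3, sub_self, sub_self, zero_mul,
      zero_mul, add_zero]
  refine ⟨(χ X1, χ X2), ?_, key⟩
  by_contra hcon
  rw [Metric.mem_closure_iff] at hcon
  push Not at hcon
  obtain ⟨ε, hε, h1⟩ := hcon
  have hemp : ∀ x ∈ D ∩ ball ((χ X1, χ X2) : ℂ × ℂ) ε, False := by
    rintro x ⟨hx, hx2⟩
    have := h1 x hx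
    rw [mem_ball, dist_comm] at hx2
    linarith
  have hE : D ∩ ball ((χ X1, χ X2) : ℂ × ℂ) ε = ∅ := eq_empty_of_forall_notMem hemp
  have h2 := key 1 ε (fun _ _ => 0) (fun _ _ => 0) 0 hε le_rfl
    (fun i => ⟨differentiableOn_const _, fun x _ => by simp⟩)
    (fun i => ⟨differentiableOn_const _, fun x _ => by simp⟩)
    (fun i x hx => (hemp x ⟨x.2, hx⟩).elim)
  rw [map_one] at h2
  exact one_ne_zero h2

/-- **TARGET** -/
theorem char_bd {D : Set (ℂ × ℂ)} (hD : IsOpen D)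
    {p : ℂ × ℂ} (hlc : ∀ r : ℝ, 0 < r → ∃ r' C, 0 < r' ∧ r' ≤ r ∧ 0 ≤ C ∧ Lcz D p r r' C)
    {I : Type} [TopologicalSpace I] [DiscreteTopology I] (χ : WeakDual.characterSpace ℂ (HA I hD))
    (hχ : ∀ (a : HA I hD) (r : ℝ) (U1 U2 : I → ℂ × ℂ → ℂ) (M : ℝ), 0 < r → 0 ≤ M →
        (∀ i, HBd (D ∩ ball p r) M (U1 i)) → (∀ i, HBd (D ∩ ball p r) M (U2 i)) →
        (∀ (i : I) (x : D), (x : ℂ × ℂ) ∈ ball p r →
          a.1 (i, x) = ((x : ℂ × ℂ).1 - p.1) * U1 i x + ((x : ℂ × ℂ).2 - p.2) * U2 i x) → χ a = 0)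
    {a : HA I hD} {r c : ℝ} (hr : 0 < r) (hc : 0 ≤ c)
    (ha : ∀ (i : I) (x : D), (x : ℂ × ℂ) ∈ ball p r → ‖a.1 (i, x)‖ ≤ c) : ‖χ a‖ ≤ c := by
  by_contra hcon
  push Not at hcon
  have hχ0 : 0 < ‖χ a‖ := lt_of_le_of_lt hc hcon
  have hχne : χ a ≠ 0 := norm_pos_iff.1 hχ0
  obtain ⟨f, hf, hfa, hfb⟩ := G15a_hol a
  obtain ⟨r', C, hr', hr'r, hC, hl⟩ := hlc r hr
  have hq : c / ‖χ a‖ < 1 := by rw [div_lt_one hχ0]; exact hcon
  have hq' : 0 < 1 - c / ‖χ a‖ := by linarith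
  -- the function b
  have hβd : ∀ i, DifferentiableOn ℂ (fun x => 1 - (χ a)⁻¹ * f i x) D :=
    fun i => (differentiableOn_const _).sub ((hf i).const_mul _)
  have hβlow : ∀ i, ∀ x ∈ D ∩ ball p r, 1 - c / ‖χ a‖ ≤ ‖1 - (χ a)⁻¹ * f i x‖ := by
    intro i x hx
    have h1 := ha i ⟨x, hx.1⟩ hx.2
    rw [hfa] at h1
    have h2 : ‖(χ a)⁻¹ * f i x‖ ≤ c / ‖χ a‖ := by
      rw [norm_mul, norm_inv, div_eq_inv_mul]
      exact mul_le_mul_of_nonneg_left h1 (by positivity)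
    have h3 := norm_sub_norm_le (1 : ℂ) ((χ a)⁻¹ * f i x)
    rw [norm_one] at h3
    linarith
  have hβne : ∀ i, ∀ x ∈ D ∩ ball p r, 1 - (χ a)⁻¹ * f i x ≠ 0 := by
    intro i x hx h0
    have := hβlow i x hx
    rw [h0, norm_zero] at this
    linarith
  have hg : ∀ i, HBd (D ∩ ball p r) (1 - c / ‖χ a‖)⁻¹ (fun x => (1 - (χ a)⁻¹ * f i x)⁻¹) := by
    intro i
    refine ⟨((hβd i).mono inter_subset_left).inv (hβne i), fun x hx => ?_⟩
    rw [norm_inv]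
    exact inv_anti₀ hq' (hβlow i x hx)
  choose G U1 U2 hG hU1 hU2 hid using fun i => hl _ _ (inv_nonneg.2 hq'.le) (hg i)
  set A : HA I hD := mkA hD (fun i => (hG i).1) (fun i => (hG i).2) with hA
  set b : HA I hD := 1 - algebraMap ℂ (HA I hD) (χ a)⁻¹ * a with hb
  have hχb : χ b = 0 := by
    have e2 : χ (algebraMap ℂ (HA I hD) (χ a)⁻¹) = (χ a)⁻¹ := AlgHomClass.commutes χ (χ a)⁻¹
    rw [hb, map_sub, map_one, map_mul, e2, inv_mul_cancel₀ hχne, sub_self]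
  have hB : ∀ i, ∀ x ∈ D, ‖1 - (χ a)⁻¹ * f i x‖ ≤ 1 + ‖χ a‖⁻¹ * ‖a‖ := by
    intro i x hx
    refine (norm_sub_le _ _).trans ?_
    rw [norm_one, norm_mul, norm_inv]
    have := hfb i x hx
    gcongr
  have h1 := hχ (1 - b * A) r' (fun i x => (1 - (χ a)⁻¹ * f i x) * U1 i x)
    (fun i x => (1 - (χ a)⁻¹ * f i x) * U2 i x)
    ((1 + ‖χ a‖⁻¹ * ‖a‖) * (C * (1 - c / ‖χ a‖)⁻¹)) hr' (by positivity)
    (fun i => ⟨((hβd i).mono inter_subset_left).mul ((hU1 i).1.mono inter_subset_right),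
      fun x hx => by
        rw [norm_mul]
        exact mul_le_mul (hB i x hx.1) ((hU1 i).2 x hx.2) (norm_nonneg _) (by positivity)⟩)
    (fun i => ⟨((hβd i).mono inter_subset_left).mul ((hU2 i).1.mono inter_subset_right),
      fun x hx => by
        rw [norm_mul]
        exact mul_le_mul (hB i x hx.1) ((hU2 i).2 x hx.2) (norm_nonneg _) (by positivity)⟩)
    (by
      intro i x hx
      have h2 := hid i x ⟨x.2, hx⟩
      have h3 := hβne i x ⟨x.2, ball_subset_ball hr'r hx⟩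
      have h4 : (1 - b * A : HA I hD).1 (i, x) = 1 - (1 - (χ a)⁻¹ * a.1 (i, x)) * G i x := rfl
      have h5 := mul_inv_cancel₀ h3
      rw [h4, hfa, h2]
      linear_combination (-1 : ℂ) * h5)
  rw [map_sub, map_one, map_mul, hχb, zero_mul, sub_zero] at h1
  exact one_ne_zero h1

/-- **TARGET** -/
theorem glueD {D : Set (ℂ × ℂ)} (hD : IsOpen D) (hb : Bornology.IsBounded D)
    (hdv : ∀ (p : ℂ × ℂ) (r : ℝ), 0 < r → ∃ C, 0 ≤ C ∧ Dv D p r C)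
    (hlc : ∀ p ∈ closure D, ∀ r : ℝ, 0 < r → ∃ r' C, 0 < r' ∧ r' ≤ r ∧ 0 ≤ C ∧ Lcz D p r r' C)
    {I ι : Type} [Fintype ι] {F : I → ι → ℂ × ℂ → ℂ} (hF : ∀ i j, HBd D 1 (F i j))
    (hloc : ∀ p ∈ closure D, ∃ C r : ℝ, 0 < r ∧ ∀ i, ∃ g : ι → ℂ × ℂ → ℂ,
      (∀ j, HBd (D ∩ ball p r) C (g j)) ∧ ∀ x ∈ D ∩ ball p r, ∑ j, F i j x * g j x = 1) :
    ∃ C : ℝ, ∀ i, ∃ g : ι → ℂ × ℂ → ℂ, (∀ j, HBd D C (g j)) ∧ ∀ x ∈ D, ∑ j, F i j x * g j x = 1 := by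
  classical
  let tI : TopologicalSpace I := ⊥
  have dI : DiscreteTopology I := ⟨rfl⟩
  set E : ι → HA I hD := fun j => mkA hD (fun i => (hF i j).1) (fun i => (hF i j).2) with hE
  by_cases hJ : Ideal.span (Set.range E) = ⊤
  · have h1 : (1 : HA I hD) ∈ Ideal.span (Set.range E) := by
      rw [hJ]; trivial
    obtain ⟨c, hc⟩ := Ideal.mem_span_range_iff_exists_fun.1 h1
    choose g hg hgc hgb using fun j => G15a_hol (c j)
    refine ⟨∑ j, ‖c j‖, fun i => ⟨fun j => g j i, fun j => ⟨hg j i, fun x hx => ?_⟩,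
      fun x hx => ?_⟩⟩
    · exact (hgb j i x hx).trans (Finset.single_le_sum (f := fun j => ‖c j‖)
        (fun j _ => norm_nonneg _) (Finset.mem_univ j))
    · have h2 : (∑ j, c j * E j : HA I hD).1 (i, ⟨x, hx⟩) = 1 := by
        rw [hc]; rfl
      rw [sum_applyA] at h2
      rw [← h2]
      refine Finset.sum_congr rfl fun j _ => ?_
      change F i j x * g j i x = (c j).1 (i, ⟨x, hx⟩) * F i j x
      rw [hgc j i ⟨x, hx⟩, mul_comm]
  · exfalso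
    obtain ⟨χ, hχ⟩ := exists_charA _ hJ
    have hχE : ∀ j, χ (E j) = 0 := fun j => hχ _ (Ideal.subset_span ⟨j, rfl⟩)
    obtain ⟨p, hp, hpt⟩ := char_pt hD hb hdv χ
    obtain ⟨C0, r, hr, hg⟩ := hloc p hp
    obtain ⟨r', C, hr', hr'r, hC, hl⟩ := hlc p hp r hr
    choose g hgb hid using hg
    have hM0 : 0 ≤ max C0 0 := le_max_right _ _
    have hg' : ∀ i j, HBd (D ∩ ball p r) (max C0 0) (g i j) := fun i j =>
      ⟨(hgb i j).1, fun x hx => ((hgb i j).2 x hx).trans (le_max_left _ _)⟩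
    choose G U1 U2 hG hU1 hU2 hGid using fun i j => hl _ _ hM0 (hg' i j)
    set A : ι → HA I hD := fun j => mkA hD (fun i => (hG i j).1) (fun i => (hG i j).2) with hA
    have hbd : ∀ (V : I → ι → ℂ × ℂ → ℂ), (∀ i j, HBd (ball p r') (C * max C0 0) (V i j)) →
        ∀ i, HBd (D ∩ ball p r') (Fintype.card ι * (C * max C0 0))
          (fun x => ∑ j, F i j x * V i j x) := by
      intro V hV i
      refine ⟨DifferentiableOn.fun_sum fun j _ => ((hF i j).1.mono inter_subset_left).mul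
        ((hV i j).1.mono inter_subset_right), fun x hx => ?_⟩
      refine (norm_sum_le _ _).trans ?_
      have h1 : ∀ j ∈ (Finset.univ : Finset ι), ‖F i j x * V i j x‖ ≤ C * max C0 0 := by
        intro j _
        rw [norm_mul]
        have h2 := (hF i j).2 x hx.1
        have h3 := (hV i j).2 x hx.2
        calc ‖F i j x‖ * ‖V i j x‖ ≤ 1 * (C * max C0 0) :=
              mul_le_mul h2 h3 (norm_nonneg _) zero_le_one
          _ = _ := one_mul _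
      refine (Finset.sum_le_sum h1).trans ?_
      rw [Finset.sum_const, Finset.card_univ, nsmul_eq_mul]
    have h1 := hpt (1 - ∑ j, E j * A j) r' (fun i x => ∑ j, F i j x * U1 i j x)
      (fun i x => ∑ j, F i j x * U2 i j x) (Fintype.card ι * (C * max C0 0)) hr' (by positivity)
      (hbd U1 hU1) (hbd U2 hU2) (by
        intro i x hx
        have h4 : (1 - ∑ j, E j * A j : HA I hD).1 (i, x) =
            1 - (∑ j, E j * A j : HA I hD).1 (i, x) := rfl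
        rw [h4, sum_applyA, ← hid i x ⟨x.2, ball_subset_ball hr'r hx⟩, ← Finset.sum_sub_distrib,
          Finset.mul_sum, Finset.mul_sum, ← Finset.sum_add_distrib]
        refine Finset.sum_congr rfl fun j _ => ?_
        change F i j x * g i j x - F i j x * G i j x = _
        rw [hGid i j x ⟨x.2, hx⟩]
        ring)
    rw [map_sub, map_one, map_sum] at h1
    have h2 : ∑ j, χ (E j * A j) = 0 := Finset.sum_eq_zero fun j _ => by
      rw [map_mul, hχE j, zero_mul]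
    rw [h2, sub_zero] at h1
    exact one_ne_zero h1

end Pool.Agent.P157G
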