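import Mathlib
import Pool.Agent.P157G.LocDefs
import Pool.Agent.P157G.Glu

set_option autoImplicit false

open MeasureTheory Metric Set Filter Topology Complex

namespace Pool.Agent.P157G

open Pool.Agent.P157D (d1 d2 CR Bo)

/-- `a` equals `b` near `p`, up to the ideal of the point `p` -/
def L3_Rel {D : Set (ℂ × ℂ)} {hD : IsOpen D} {I : Type} [TopologicalSpace I] (p : ℂ × ℂ)
    (a : HA I hD) (b : I → ℂ × ℂ → ℂ) : Prop :=
  ∃ (r M : ℝ) (U1 U2 : I → ℂ × ℂ → ℂ), 0 < r ∧ 0 ≤ M ∧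
    (∀ i, HBd (D ∩ ball p r) M (U1 i)) ∧ (∀ i, HBd (D ∩ ball p r) M (U2 i)) ∧
    ∀ (i : I) (x : D), (x : ℂ × ℂ) ∈ ball p r →
      a.1 (i, x) = b i x + (((x : ℂ × ℂ).1 - p.1) * U1 i x + ((x : ℂ × ℂ).2 - p.2) * U2 i x)

theorem L3_mono {D : Set (ℂ × ℂ)} {p : ℂ × ℂ} {r r' M M' : ℝ} {g : ℂ × ℂ → ℂ}
    (h : HBd (D ∩ ball p r) M g) (hr : r' ≤ r) (hM : M ≤ M') : HBd (D ∩ ball p r') M' g := by
  have hs : D ∩ ball p r' ⊆ D ∩ ball p r := inter_subset_inter_right _ (ball_subset_ball hr)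
  exact ⟨h.1.mono hs, fun x hx => (h.2 x (hs hx)).trans hM⟩

theorem L3_add {E : Set (ℂ × ℂ)} {M N : ℝ} {f g : ℂ × ℂ → ℂ} (hf : HBd E M f) (hg : HBd E N g) :
    HBd E (M + N) (fun x => f x + g x) :=
  ⟨hf.1.add hg.1, fun x hx => (norm_add_le _ _).trans (add_le_add (hf.2 x hx) (hg.2 x hx))⟩

theorem L3_sub {E : Set (ℂ × ℂ)} {M N : ℝ} {f g : ℂ × ℂ → ℂ} (hf : HBd E M f) (hg : HBd E N g) :
    HBd E (M + N) (fun x => f x - g x) :=
  ⟨hf.1.sub hg.1, fun x hx => (norm_sub_le _ _).trans (add_le_add (hf.2 x hx) (hg.2 x hx))⟩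

theorem L3_neg {E : Set (ℂ × ℂ)} {M : ℝ} {f : ℂ × ℂ → ℂ} (hf : HBd E M f) :
    HBd E M (fun x => - f x) :=
  ⟨hf.1.neg, fun x hx => by rw [norm_neg]; exact hf.2 x hx⟩

theorem L3_mul {E : Set (ℂ × ℂ)} {M N : ℝ} {f g : ℂ × ℂ → ℂ} (hM : 0 ≤ M) (hf : HBd E M f)
    (hg : HBd E N g) : HBd E (M * N) (fun x => f x * g x) :=
  ⟨hf.1.mul hg.1, fun x hx => by
    rw [norm_mul]
    exact mul_le_mul (hf.2 x hx) (hg.2 x hx) (norm_nonneg _) hM⟩

theorem L3_c1 (D : Set (ℂ × ℂ)) (p : ℂ × ℂ) (r : ℝ) :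
    HBd (D ∩ ball p r) r (fun x => x.1 - p.1) := by
  refine ⟨(differentiable_fst.differentiableOn).sub (differentiableOn_const _), ?_⟩
  rintro x ⟨-, hx⟩
  rw [mem_ball, dist_eq_norm] at hx
  have h1 : ‖(x - p).1‖ ≤ ‖x - p‖ := norm_fst_le (x - p)
  exact (h1.trans hx.le)

theorem L3_c2 (D : Set (ℂ × ℂ)) (p : ℂ × ℂ) (r : ℝ) :
    HBd (D ∩ ball p r) r (fun x => x.2 - p.2) := by
  refine ⟨(differentiable_snd.differentiableOn).sub (differentiableOn_const _), ?_⟩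
  rintro x ⟨-, hx⟩
  rw [mem_ball, dist_eq_norm] at hx
  have h1 : ‖(x - p).2‖ ≤ ‖x - p‖ := norm_snd_le (x - p)
  exact (h1.trans hx.le)

section

variable {D : Set (ℂ × ℂ)} {hD : IsOpen D} {I : Type} [TopologicalSpace I] {p : ℂ × ℂ}

theorem L3_relAdd {a a' : HA I hD} {b b' : I → ℂ × ℂ → ℂ} (h : L3_Rel p a b)
    (h' : L3_Rel p a' b') : L3_Rel p (a + a') (fun i x => b i x + b' i x) := by
  obtain ⟨r, M, U1, U2, hr, hM, h1, h2, h3⟩ := h
  obtain ⟨r', M', U1', U2', hr', hM', h1', h2', h3'⟩ := h'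
  refine ⟨min r r', M + M', fun i x => U1 i x + U1' i x, fun i x => U2 i x + U2' i x,
    lt_min hr hr', add_nonneg hM hM', fun i => ?_, fun i => ?_, fun i x hx => ?_⟩
  · exact L3_add (L3_mono (h1 i) (min_le_left _ _) le_rfl) (L3_mono (h1' i) (min_le_right _ _) le_rfl)
  · exact L3_add (L3_mono (h2 i) (min_le_left _ _) le_rfl) (L3_mono (h2' i) (min_le_right _ _) le_rfl)
  · have e : (a + a').1 (i, x) = a.1 (i, x) + a'.1 (i, x) := rfl
    rw [e, h3 i x (ball_subset_ball (min_le_left _ _) hx),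
      h3' i x (ball_subset_ball (min_le_right _ _) hx)]
    ring

theorem L3_relMul {a a' : HA I hD} {b b' : I → ℂ × ℂ → ℂ} (h : L3_Rel p a b)
    (h' : L3_Rel p a' b') (hb : Bnr D p b) (hb' : Bnr D p b') :
    L3_Rel p (a * a') (fun i x => b i x * b' i x) := by
  obtain ⟨r1, M1, U1, U2, hr1, hM1, h1, h2, h3⟩ := h
  obtain ⟨r2, M2, U1', U2', hr2, hM2, h1', h2', h3'⟩ := h'
  obtain ⟨r3, M3, hr3, hM3, hB⟩ := hb
  obtain ⟨r4, M4, hr4, hM4, hB'⟩ := hb'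
  set r := min (min r1 r2) (min (min r3 r4) 1) with hr
  have hr0 : 0 < r := lt_min (lt_min hr1 hr2) (lt_min (lt_min hr3 hr4) one_pos)
  have l1 : r ≤ r1 := (min_le_left _ _).trans (min_le_left _ _)
  have l2 : r ≤ r2 := (min_le_left _ _).trans (min_le_right _ _)
  have l3 : r ≤ r3 := (min_le_right _ _).trans ((min_le_left _ _).trans (min_le_left _ _))
  have l4 : r ≤ r4 := (min_le_right _ _).trans ((min_le_left _ _).trans (min_le_right _ _))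
  have l5 : r ≤ 1 := (min_le_right _ _).trans (min_le_right _ _)
  set N := M1 + M2 + M3 + M4 with hN
  have n1 : M1 ≤ N := by linarith
  have n2 : M2 ≤ N := by linarith
  have n3 : M3 ≤ N := by linarith
  have n4 : M4 ≤ N := by linarith
  have hN0 : 0 ≤ N := by linarith
  have A1 : ∀ i, HBd (D ∩ ball p r) N (U1 i) := fun i => L3_mono (h1 i) l1 n1
  have A2 : ∀ i, HBd (D ∩ ball p r) N (U2 i) := fun i => L3_mono (h2 i) l1 n1
  have A3 : ∀ i, HBd (D ∩ ball p r) N (U1' i) := fun i => L3_mono (h1' i) l2 n2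
  have A4 : ∀ i, HBd (D ∩ ball p r) N (U2' i) := fun i => L3_mono (h2' i) l2 n2
  have A5 : ∀ i, HBd (D ∩ ball p r) N (b i) := fun i => L3_mono (hB i) l3 n3
  have A6 : ∀ i, HBd (D ∩ ball p r) N (b' i) := fun i => L3_mono (hB' i) l4 n4
  have C1 : HBd (D ∩ ball p r) 1 (fun x => x.1 - p.1) := L3_mono (L3_c1 D p r) le_rfl l5
  have C2 : HBd (D ∩ ball p r) 1 (fun x => x.2 - p.2) := L3_mono (L3_c2 D p r) le_rfl l5
  have AL : ∀ i, HBd (D ∩ ball p r) (1 * N + 1 * N)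
      (fun x => (x.1 - p.1) * U1 i x + (x.2 - p.2) * U2 i x) := fun i =>
    L3_add (L3_mul zero_le_one C1 (A1 i)) (L3_mul zero_le_one C2 (A2 i))
  refine ⟨r, N * N + N * N + (1 * N + 1 * N) * N,
    fun i x => U1 i x * b' i x + b i x * U1' i x +
      ((x.1 - p.1) * U1 i x + (x.2 - p.2) * U2 i x) * U1' i x,
    fun i x => U2 i x * b' i x + b i x * U2' i x +
      ((x.1 - p.1) * U1 i x + (x.2 - p.2) * U2 i x) * U2' i x,
    hr0, by positivity, fun i => ?_, fun i => ?_, fun i x hx => ?_⟩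
  · exact L3_add (L3_add (L3_mul hN0 (A1 i) (A6 i)) (L3_mul hN0 (A5 i) (A3 i)))
      (L3_mul (by positivity) (AL i) (A3 i))
  · exact L3_add (L3_add (L3_mul hN0 (A2 i) (A6 i)) (L3_mul hN0 (A5 i) (A4 i)))
      (L3_mul (by positivity) (AL i) (A4 i))
  · have e : (a * a').1 (i, x) = a.1 (i, x) * a'.1 (i, x) := rfl
    rw [e, h3 i x (ball_subset_ball l1 hx), h3' i x (ball_subset_ball l2 hx)]
    ring

theorem L3_relCst (c : ℂ) : L3_Rel p (algebraMap ℂ (HA I hD) c) (fun _ _ => c) := by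
  refine ⟨1, 0, fun _ _ => 0, fun _ _ => 0, one_pos, le_rfl, fun i => ?_, fun i => ?_,
    fun i x hx => ?_⟩
  · exact ⟨differentiableOn_const _, fun x _ => by simp⟩
  · exact ⟨differentiableOn_const _, fun x _ => by simp⟩
  · have e : (algebraMap ℂ (HA I hD) c).1 (i, x) = c := rfl
    rw [e]
    ring

theorem L3_relSelf {a : HA I hD} {b : I → ℂ × ℂ → ℂ} (h : ∀ (i : I) (x : D), a.1 (i, x) = b i x) :
    L3_Rel p a b := by
  refine ⟨1, 0, fun _ _ => 0, fun _ _ => 0, one_pos, le_rfl, fun i => ?_, fun i => ?_,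
    fun i x hx => ?_⟩
  · exact ⟨differentiableOn_const _, fun x _ => by simp⟩
  · exact ⟨differentiableOn_const _, fun x _ => by simp⟩
  · rw [h i x]
    ring

theorem L3_relCongr {a : HA I hD} {b b' : I → ℂ × ℂ → ℂ} (h : L3_Rel p a b)
    (hc : ∀ᶠ x in 𝓝 p, x ∈ D → ∀ i, b i x = b' i x) : L3_Rel p a b' := by
  obtain ⟨r, M, U1, U2, hr, hM, h1, h2, h3⟩ := h
  obtain ⟨ε, hε, hc⟩ := Metric.eventually_nhds_iff_ball.1 hc
  refine ⟨min r ε, M, U1, U2, lt_min hr hε, hM, fun i => L3_mono (h1 i) (min_le_left _ _) le_rfl,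
    fun i => L3_mono (h2 i) (min_le_left _ _) le_rfl, fun i x hx => ?_⟩
  rw [h3 i x (ball_subset_ball (min_le_left _ _) hx),
    hc x (ball_subset_ball (min_le_right _ _) hx) x.2 i]

theorem L3_uniq {χ : WeakDual.characterSpace ℂ (HA I hD)} (hχ : Pp p χ) {a a' : HA I hD}
    {b : I → ℂ × ℂ → ℂ} (h : L3_Rel p a b) (h' : L3_Rel p a' b) : χ a = χ a' := by
  obtain ⟨r, M, U1, U2, hr, hM, h1, h2, h3⟩ := h
  obtain ⟨r', M', U1', U2', hr', hM', h1', h2', h3'⟩ := h'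
  have key : χ (a - a') = 0 := by
    refine hχ (a - a') (min r r') (fun i x => U1 i x - U1' i x) (fun i x => U2 i x - U2' i x)
      (M + M') (lt_min hr hr') (add_nonneg hM hM') (fun i => ?_) (fun i => ?_) (fun i x hx => ?_)
    · exact L3_sub (L3_mono (h1 i) (min_le_left _ _) le_rfl)
        (L3_mono (h1' i) (min_le_right _ _) le_rfl)
    · exact L3_sub (L3_mono (h2 i) (min_le_left _ _) le_rfl)
        (L3_mono (h2' i) (min_le_right _ _) le_rfl)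
    · have e : (a - a').1 (i, x) = a.1 (i, x) - a'.1 (i, x) := rfl
      rw [e, h3 i x (ball_subset_ball (min_le_left _ _) hx),
        h3' i x (ball_subset_ball (min_le_right _ _) hx)]
      ring
  rw [map_sub] at key
  exact sub_eq_zero.1 key

theorem L3_ex [DiscreteTopology I]
    (hlc : ∀ r : ℝ, 0 < r → ∃ r' C, 0 < r' ∧ r' ≤ r ∧ 0 ≤ C ∧ Lcz D p r r' C)
    {b : I → ℂ × ℂ → ℂ} (hb : Bnr D p b) : ∃ a : HA I hD, L3_Rel p a b := by
  obtain ⟨r, M, hr, hM, hB⟩ := hb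
  obtain ⟨r', C, hr', hrr, hC, hL⟩ := hlc r hr
  choose G U1 U2 hG h1 h2 h3 using fun i => hL (b i) M hM (hB i)
  refine ⟨mkA hD (f := G) (fun k => (hG k).1) (C := C * M) (fun k => (hG k).2), r', C * M,
    fun i x => - U1 i x, fun i x => - U2 i x, hr', mul_nonneg hC hM, fun i => ?_, fun i => ?_,
    fun i x hx => ?_⟩
  · exact L3_neg ⟨(h1 i).1.mono inter_subset_right, fun x hx => (h1 i).2 x hx.2⟩
  · exact L3_neg ⟨(h2 i).1.mono inter_subset_right, fun x hx => (h2 i).2 x hx.2⟩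
  · rw [mkA_apply, h3 i x ⟨x.2, hx⟩]
    ring

theorem L3_nrm [DiscreteTopology I]
    (hlc : ∀ r : ℝ, 0 < r → ∃ r' C, 0 < r' ∧ r' ≤ r ∧ 0 ≤ C ∧ Lcz D p r r' C)
    {χ : WeakDual.characterSpace ℂ (HA I hD)} (hχ : Pp p χ) {a : HA I hD}
    {b : I → ℂ × ℂ → ℂ} (h : L3_Rel p a b) {c : ℝ} (hc : 0 ≤ c)
    (hbc : ∀ᶠ x in 𝓝 p, x ∈ D → ∀ i, ‖b i x‖ ≤ c) : ‖χ a‖ ≤ c := by
  obtain ⟨r, M, U1, U2, hr, hM, h1, h2, h3⟩ := h
  obtain ⟨ε, hε, hbc⟩ := Metric.eventually_nhds_iff_ball.1 hbc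
  apply le_of_forall_pos_le_add
  intro θ hθ
  set s := min (min r ε) (θ / (2 * (M + 1))) with hs
  have hM1 : 0 < 2 * (M + 1) := by linarith
  have hs0 : 0 < s := lt_min (lt_min hr hε) (div_pos hθ hM1)
  have s1 : s ≤ r := (min_le_left _ _).trans (min_le_left _ _)
  have s2 : s ≤ ε := (min_le_left _ _).trans (min_le_right _ _)
  have s3 : s ≤ θ / (2 * (M + 1)) := min_le_right _ _
  have s4 : s * M + s * M ≤ θ := by
    have h5 : s * (2 * (M + 1)) ≤ θ := (le_div_iff₀ hM1).1 s3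
    nlinarith
  refine char_bd hD hlc χ hχ (a := a) (r := s) (c := c + θ) hs0 (by linarith) (fun i x hx => ?_)
  rw [h3 i x (ball_subset_ball s1 hx)]
  have B1 : HBd (D ∩ ball p s) (s * M + s * M)
      (fun x => (x.1 - p.1) * U1 i x + (x.2 - p.2) * U2 i x) :=
    L3_add (L3_mul hs0.le (L3_c1 D p s) (L3_mono (h1 i) s1 le_rfl))
      (L3_mul hs0.le (L3_c2 D p s) (L3_mono (h2 i) s1 le_rfl))
  have B2 := B1.2 x ⟨x.2, hx⟩
  have B3 := hbc x (ball_subset_ball s2 hx) x.2 i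
  calc _ ≤ ‖b i x‖ + ‖(((x : ℂ × ℂ).1 - p.1) * U1 i x + ((x : ℂ × ℂ).2 - p.2) * U2 i x)‖ :=
        norm_add_le _ _
    _ ≤ c + θ := add_le_add B3 (B2.trans s4)

end

/-- **TARGET** -/
theorem vchar {D : Set (ℂ × ℂ)} (hD : IsOpen D) {p : ℂ × ℂ}
    (hlc : ∀ r : ℝ, 0 < r → ∃ r' C, 0 < r' ∧ r' ≤ r ∧ 0 ≤ C ∧ Lcz D p r r' C) {I : Type}
    [TopologicalSpace I] [DiscreteTopology I] (χ : WeakDual.characterSpace ℂ (HA I hD)) (hχ : Pp p χ) :
    ∃ v : (I → ℂ × ℂ → ℂ) → ℂ, Vc D p v ∧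
      ∀ (a : HA I hD) (b : I → ℂ × ℂ → ℂ), (∀ i, DifferentiableOn ℂ (b i) D) →
        (∀ (i : I) (x : D), a.1 (i, x) = b i x) → v b = χ a := by
  classical
  let v : (I → ℂ × ℂ → ℂ) → ℂ := fun b =>
    if h : ∃ a : HA I hD, L3_Rel p a b then χ h.choose else 0
  have hv : ∀ (a : HA I hD) (b : I → ℂ × ℂ → ℂ), L3_Rel p a b → v b = χ a := by
    intro a b h
    have hex : ∃ a : HA I hD, L3_Rel p a b := ⟨a, h⟩
    have e : v b = χ hex.choose := dif_pos hex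
    rw [e]
    exact L3_uniq hχ hex.choose_spec h
  refine ⟨v, ⟨?_, ?_, ?_, ?_, ?_⟩, ?_⟩
  · intro b b' hb hb'
    obtain ⟨a, ha⟩ := L3_ex (hD := hD) hlc hb
    obtain ⟨a', ha'⟩ := L3_ex (hD := hD) hlc hb'
    rw [hv a b ha, hv a' b' ha', hv _ _ (L3_relAdd ha ha'), map_add]
  · intro b b' hb hb'
    obtain ⟨a, ha⟩ := L3_ex (hD := hD) hlc hb
    obtain ⟨a', ha'⟩ := L3_ex (hD := hD) hlc hb'
    rw [hv a b ha, hv a' b' ha', hv _ _ (L3_relMul ha ha' hb hb'), map_mul]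
  · intro c
    rw [hv _ _ (L3_relCst c)]
    exact AlgHomClass.commutes χ c
  · intro b b' hb hb' hc
    obtain ⟨a, ha⟩ := L3_ex (hD := hD) hlc hb
    rw [hv a b ha, hv a b' (L3_relCongr ha hc)]
  · intro b c hb hc hbc
    obtain ⟨a, ha⟩ := L3_ex (hD := hD) hlc hb
    rw [hv a b ha]
    exact L3_nrm hlc hχ ha hc hbc
  · intro a b hb hab
    exact hv a b (L3_relSelf hab)

end Pool.Agent.P157G
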