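import Mathlib
import Pool.Agent.P157G.LocDefs

set_option autoImplicit false

open MeasureTheory Metric Set Filter Topology Complex

namespace Pool.Agent.P157G

open Pool.Agent.P157D (d1 d2 CR Bo)

/-- **TARGET** -/
theorem zeroD {D : Set (ℂ × ℂ)} (hD : IsOpen D) {I : Type} [TopologicalSpace I] [DiscreteTopology I]
    {N : ℕ} {F : I → Fin N → ℂ × ℂ → ℂ} (hF : ∀ i j, HBd D 1 (F i j))
    (hns : ¬ ∃ C : ℝ, ∀ i, ∃ g : Fin N → ℂ × ℂ → ℂ, (∀ j, HBd D C (g j)) ∧
      ∀ x ∈ D, ∑ j, F i j x * g j x = 1) :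
    ∃ χ : WeakDual.characterSpace ℂ (HA I hD),
      ∀ (j : Fin N) (a : HA I hD), (∀ (i : I) (x : D), a.1 (i, x) = F i j x) → χ a = 0 := by
  classical
  have hFd : ∀ j, ∀ i, DifferentiableOn ℂ (F i j) D := fun j i => (hF i j).1
  have hFb : ∀ j, ∀ i, ∀ z ∈ D, ‖F i j z‖ ≤ 1 := fun j i => (hF i j).2
  by_cases hI : Ideal.span (Set.range fun j : Fin N =>
      mkA (f := fun i => F i j) hD (hFd j) (hFb j)) = ⊤
  · exfalso
    apply hns
    have h1 : (1 : HA I hD) ∈ Ideal.span (Set.range fun j : Fin N =>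
        mkA (f := fun i => F i j) hD (hFd j) (hFb j)) := by
      rw [hI]; trivial
    obtain ⟨c, hc⟩ := Ideal.mem_span_range_iff_exists_fun.1 h1
    choose g hg hgc using fun j => (c j).2
    refine ⟨∑ j, ‖c j‖, fun i => ⟨fun j => g j i, fun j => ⟨hg j i, fun z hz => ?_⟩,
      fun z hz => ?_⟩⟩
    · have h2 := hgc j i ⟨z, hz⟩
      have h3 := le_normA (c j) (i, ⟨z, hz⟩)
      rw [h2] at h3
      exact h3.trans (Finset.single_le_sum (f := fun j => ‖c j‖) (fun j _ => norm_nonneg _)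
        (Finset.mem_univ j))
    · have h2 : (∑ j, c j * mkA (f := fun i => F i j) hD (hFd j) (hFb j) : HA I hD).1
          (i, ⟨z, hz⟩) = 1 := by
        rw [hc]; rfl
      rw [sum_applyA] at h2
      rw [← h2]
      refine Finset.sum_congr rfl fun j _ => ?_
      change F i j z * g j i z = (c j).1 (i, ⟨z, hz⟩) * F i j z
      rw [hgc j i, mul_comm]
  · obtain ⟨χ, hχ⟩ := exists_charA _ hI
    refine ⟨χ, fun j a ha => ?_⟩
    have h1 : a = mkA (f := fun i => F i j) hD (hFd j) (hFb j) := by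
      apply extA
      rintro ⟨i, x⟩
      rw [ha i x, mkA_apply]
    rw [h1]
    exact hχ _ (Ideal.subset_span ⟨j, rfl⟩)

end Pool.Agent.P157G
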