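import Mathlib
import Pool.Agent.P157G.FamC
import Pool.Agent.P157G.ZeroD
import Pool.Agent.P157G.IntP
import Pool.Agent.P157G.VCh
import Pool.Agent.P157G.LocL
import Pool.Agent.P157G.NFs

/-!
The corona theorem with local hypotheses on strictly pseudoconvex domains, in terms of a defining function.
-/

set_option autoImplicit false

open MeasureTheory Metric Set Filter Topology Complex

namespace Pool.Agent.P157G

theorem famL {ρ : ℂ × ℂ → ℝ} (h : NF ρ) {I : Type} {N : ℕ} {F : I → Fin N → ℂ × ℂ → ℂ}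
    (hF : ∀ i j, HBd {x | ρ x < 0} 1 (F i j)) {δ : ℝ} (hδ : 0 < δ)
    (hlow : ∀ i, ∀ x, ρ x < 0 → δ ≤ ∑ j, ‖F i j x‖)
    (hloc : ∀ p ∈ frontier {x | ρ x < 0}, ∃ (G : I → ℂ × ℂ → ℂ) (S : Finset (Fin N))
      (a : Fin N → I → ℂ × ℂ → ℂ) (c ε r : ℝ),
      Bnr {x | ρ x < 0} p G ∧ 0 < r ∧ 0 ≤ ε ∧ 2 * S.card * ε < c ∧
      (∀ i, ∀ x ∈ {x | ρ x < 0} ∩ ball p r, c ≤ ∑ j ∈ S, ‖F i j x‖) ∧
      ∀ j ∈ S, LAlg {x | ρ x < 0} p G (a j) ∧
        ∀ i, ∀ x ∈ {x | ρ x < 0} ∩ ball p r, ‖F i j x - a j i x‖ ≤ ε) :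
    ∃ C : ℝ, ∀ i, ∃ g : Fin N → ℂ × ℂ → ℂ, (∀ j, HBd {x | ρ x < 0} C (g j)) ∧
      ∀ x, ρ x < 0 → ∑ j, F i j x * g j x = 1 := by
  by_contra hns
  have hDo : IsOpen {x | ρ x < 0} := isOpen_lt h.smooth.continuous continuous_const
  have hbd : Bornology.IsBounded {x | ρ x < 0} := h.bdd.subset fun x (hx : ρ x < 0) => hx.le
  have hcl : closure {x | ρ x < 0} ⊆ {x | ρ x ≤ 0} :=
    closure_minimal (fun x (hx : ρ x < 0) => hx.le) (isClosed_le h.smooth.continuous continuous_const)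
  obtain ⟨C₀, hC₀, hS⟩ := slv_nf h
  letI tJ : TopologicalSpace I := ⊥
  haveI dJ : DiscreteTopology I := ⟨rfl⟩
  obtain ⟨χ, hχ⟩ := zeroD hDo hF hns
  obtain ⟨p, hp, hP⟩ := char_pt hDo hbd (fun p r hr => div_lem hDo hbd hC₀ hS p hr) χ
  by_cases hpD : p ∈ {x | ρ x < 0}
  · exact int_pt hDo hpD χ hP hF hδ (fun i => hlow i p hpD) hχ
  have hpf : p ∈ frontier {x | ρ x < 0} := by
    rw [hDo.frontier_eq]
    exact ⟨hp, hpD⟩
  have hp0 : ρ p = 0 := le_antisymm (hcl hp) (not_lt.1 hpD)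
  obtain ⟨v, hv, hva⟩ := vchar hDo (fun r hr => loc_lem h hp0.le hr) χ hP
  have hv0 : ∀ j, v (fun i => F i j) = 0 := by
    intro j
    rw [hva (mkA hDo (f := fun i => F i j) (fun i => (hF i j).1) (C := 1) (fun i => (hF i j).2))
      (fun i => F i j) (fun i => (hF i j).1) (fun i x => rfl)]
    exact hχ j _ fun i x => rfl
  obtain ⟨G, S, a, c, ε, r, hG, hr, hε, hc, hl, ha⟩ := hloc p hpf
  exact famC h hp0 hv hF hv0 hG hr hε hc hl ha

end Pool.Agent.P157G
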